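import Pool.Agent.P.MP_932208_ag.Gen

/-!
Simplicial abelian groups, simplicial commutative rings and weak equivalences.
-/

namespace Pool.Agent.P.MP_932208_ag

universe u

/-- Simplicial operators `[k] → [n]`: the morphisms of the simplex category. -/
abbrev SimplexHom (k n : ℕ) : Type := Fin (k + 1) →o Fin (n + 1)

/-- The coface map `[n] → [n+1]` that misses `i`. -/
def face {n : ℕ} (i : Fin (n + 2)) : SimplexHom n (n + 1) :=
  ⟨i.succAbove, (Fin.strictMono_succAbove i).monotone⟩

/-- The codegeneracy `[n+1] → [n]` that hits `i` twice. -/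
def degen {n : ℕ} (i : Fin (n + 1)) : SimplexHom (n + 1) n :=
  ⟨i.predAbove, Fin.predAbove_right_monotone i⟩

/-- The constant operator `[k] → [n]` with value `a`. -/
def vert (k : ℕ) {n : ℕ} (a : Fin (n + 1)) : SimplexHom k n := OrderHom.const _ a

/-- A simplicial abelian group. -/
structure SimplicialAb where
  obj : ℕ → Type u
  [grp : ∀ n, AddCommGroup (obj n)]
  map : ∀ {k n : ℕ}, SimplexHom k n → AddMap (obj n) (obj k)
  map_id : ∀ n, AddId (map (OrderHom.id : SimplexHom n n))
  map_comp : ∀ {l k n : ℕ} (θ : SimplexHom k n) (η : SimplexHom l k),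
    AddComp (map η) (map θ) (map (θ.comp η))

attribute [instance] SimplicialAb.grp

/-- The maps `app n` commute with the simplicial operators. -/
abbrev SimplicialAb.IsNatural (X Y : SimplicialAb.{u}) (app : ∀ n, AddMap (X.obj n) (Y.obj n)) : Prop :=
  ∀ {k n : ℕ} (θ : SimplexHom k n), AddSquare (app k) (X.map θ) (Y.map θ) (app n)

/-- A map of simplicial abelian groups. -/
structure SimplicialAb.Hom (X Y : SimplicialAb.{u}) where
  app : ∀ n, AddMap (X.obj n) (Y.obj n)
  nat : ∀ {k n : ℕ} (θ : SimplexHom k n), AddSquare (app k) (X.map θ) (Y.map θ) (app n)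

/-- Moore (normalised) chains: all faces except the zeroth one vanish. -/
def SimplicialAb.Moore (X : SimplicialAb.{u}) : ∀ {n : ℕ}, X.obj n → Prop
  | 0, _ => True
  | n + 1, x => ∀ i : Fin (n + 1), X.map (face i.succ) x = 0

/-- Spherical simplices (cycles of the Moore complex): all faces vanish. -/
def SimplicialAb.IsSpherical (X : SimplicialAb.{u}) : ∀ {n : ℕ}, X.obj n → Prop
  | 0, _ => True
  | n + 1, x => ∀ i : Fin (n + 2), X.map (face i) x = 0

/-- Boundaries of the Moore complex: zeroth faces of Moore chains. -/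
def SimplicialAb.IsBoundary (X : SimplicialAb.{u}) {n : ℕ} (x : X.obj n) : Prop :=
  ∃ z : X.obj (n + 1), X.Moore z ∧ X.map (face 0) z = x

/-- Weak equivalence: bijective on every homotopy group `π_n = IsSpherical / IsBoundary`. -/
def SimplicialAb.Hom.IsWeakEquiv {X Y : SimplicialAb.{u}} (f : X.Hom Y) : Prop :=
  ∀ n, (∀ y : Y.obj n, Y.IsSpherical y → ∃ x : X.obj n, X.IsSpherical x ∧ Y.IsBoundary (f.app n x - y)) ∧
    ∀ x : X.obj n, X.IsSpherical x → Y.IsBoundary (f.app n x) → X.IsBoundary x

/-- A simplicial commutative ring (a derived affine scheme). -/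
structure SimplicialRing where
  obj : ℕ → Type u
  [ring : ∀ n, CommRing (obj n)]
  map : ∀ {k n : ℕ}, SimplexHom k n → CommRingMap (obj n) (obj k)
  map_id : ∀ n, RingId (map (OrderHom.id : SimplexHom n n))
  map_comp : ∀ {l k n : ℕ} (θ : SimplexHom k n) (η : SimplexHom l k),
    RingComp (map η) (map θ) (map (θ.comp η))

attribute [instance] SimplicialRing.ring

/-- The maps `app n` commute with the simplicial operators. -/
abbrev SimplicialRing.IsNatural (A B : SimplicialRing.{u}) (app : ∀ n, CommRingMap (A.obj n) (B.obj n)) : Prop :=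
  ∀ {k n : ℕ} (θ : SimplexHom k n), RingSquare (app k) (A.map θ) (B.map θ) (app n)

/-- A map of simplicial commutative rings. -/
structure SimplicialRing.Hom (A B : SimplicialRing.{u}) where
  app : ∀ n, CommRingMap (A.obj n) (B.obj n)
  nat : ∀ {k n : ℕ} (θ : SimplexHom k n), RingSquare (app k) (A.map θ) (B.map θ) (app n)

/-- The underlying simplicial abelian group. -/
@[reducible] def SimplicialRing.ab (A : SimplicialRing.{u}) : SimplicialAb.{u} where
  obj := A.obj
  map θ := addHom (A.map θ)
  map_id := A.map_id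
  map_comp := A.map_comp

theorem SimplicialRing.Hom.map_mem_ker {A B : SimplicialRing.{u}} (f : A.Hom B) {k n : ℕ} (θ : SimplexHom k n) :
    MapsKer (A.map θ) (f.app n) (f.app k) := fun x => by
  have h : f.app n x.1 = 0 := x.2
  rw [RingHom.mem_ker, f.nat, h, map_zero]

theorem SimplicialRing.Hom.ker_id {A B : SimplicialRing.{u}} (f : A.Hom B) (n : ℕ) :
    @AddId _ (kerGroup (f.app n)) (kerRestrict _ _ _ (f.map_mem_ker (OrderHom.id : SimplexHom n n))) :=
  fun x => Subtype.ext (A.map_id n x.1)

theorem SimplicialRing.Hom.ker_comp {A B : SimplicialRing.{u}} (f : A.Hom B) {l k n : ℕ} (θ : SimplexHom k n)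
    (η : SimplexHom l k) : @AddComp _ _ _ (kerGroup (f.app n)) (kerGroup (f.app k)) (kerGroup (f.app l))
      (kerRestrict _ _ _ (f.map_mem_ker η)) (kerRestrict _ _ _ (f.map_mem_ker θ))
      (kerRestrict _ _ _ (f.map_mem_ker (θ.comp η))) :=
  fun x => Subtype.ext (A.map_comp θ η x.1)

/-- The kernel of `f`, a simplicial ideal, as a simplicial abelian group. -/
@[reducible] def SimplicialRing.Hom.ker {A B : SimplicialRing.{u}} (f : A.Hom B) : SimplicialAb.{u} where
  obj n := Ker (f.app n)
  grp n := kerGroup (f.app n)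
  map θ := kerRestrict (A.map θ) _ _ (f.map_mem_ker θ)
  map_id := f.ker_id
  map_comp := f.ker_comp

theorem SimplicialRing.Hom.kills_vert {A B : SimplicialRing.{u}} (f : A.Hom B) {t : A.obj 0}
    (ht : Kills (f.app 0) t) (n : ℕ) : Kills (f.app n) (ringApp (A.map (vert n 0)) t) := by
  change f.app n (A.map (vert n 0) t) = 0
  rw [f.nat, ht, map_zero]

theorem SimplicialRing.Hom.mul_nat {A : SimplicialRing.{u}} (t : A.obj 0) {k n : ℕ} (θ : SimplexHom k n) (a : A.obj n) :
    A.map θ a * A.map (vert k 0) t = A.map θ (a * A.map (vert n 0) t) := by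
  rw [map_mul, A.map_comp]; rfl

theorem SimplicialRing.Hom.mulBy_nat {A B : SimplicialRing.{u}} (f : A.Hom B) (t : A.obj 0)
    (ht : Kills (f.app 0) t) : A.ab.IsNatural f.ker fun n => mulInto (kerIdeal (f.app n)) _ (f.kills_vert ht n) :=
  fun θ a => Subtype.ext (SimplicialRing.Hom.mul_nat t θ a)

/-- Multiplication by a vertex `t` of the kernel `I` of `f`, as a map `A → I`. -/
def SimplicialRing.Hom.mulBy {A B : SimplicialRing.{u}} (f : A.Hom B) (t : A.obj 0) (ht : Kills (f.app 0) t) :
    A.ab.Hom f.ker where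
  app n := mulInto (kerIdeal (f.app n)) (ringApp (A.map (vert n 0)) t) (f.kills_vert ht n)
  nat := @mulBy_nat A B f t ht

/-- `t` is a generator of the kernel `I` of `f`: an `n`-simplex of `I` such that multiplication by
each vertex of `t` is a weak equivalence `A → I` (a trivialisation of the line bundle `I`). -/
def SimplicialRing.Hom.IsGenerator {A B : SimplicialRing.{u}} (f : A.Hom B) {n : ℕ} (t : A.obj n) : Prop :=
  Kills (f.app n) t ∧ ∀ (a : Fin (n + 1)) (h : Kills (f.app 0) (ringApp (A.map (vert 0 a)) t)),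
    (f.mulBy _ h).IsWeakEquiv

/-- `A` is saturated: a simplex whose class in `π_0 A` is a unit is a unit.  (Every `A` is
naturally weakly equivalent to a saturated one: localise levelwise.) -/
def SimplicialRing.IsSaturated (A : SimplicialRing.{u}) : Prop :=
  ∀ n (a : A.obj n), (∃ b : A.obj 0, A.ab.IsBoundary (A.map (vert 0 0) a * b - 1)) → IsUnit a

end Pool.Agent.P.MP_932208_ag
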