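import Pool.Agent.P.MP_932208_ag.Tw
import Pool.Agent.P.MP_932208_ag.TorsD

/-!
Perfect complexes as cellular diagrams of twisted complexes over the Moore dg rings.
-/

namespace Pool.Agent.P.MP_932208_ag

open Classical

universe u

variable {J : Type u} [Preorder J]

/-- The differential of the semi-free dg `MooreDGA A`-module with basis `U` and twisting matrix `δ`
(`d s = ∑ δ s r • r`), applied to the element `∑ x s • s`. -/
noncomputable def MooreDGA.twistedDiff {A : SimplicialRing.{u}} {U : Type u} [Fintype U] (δ : Matrix U U (MooreDGA A))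
    (x : U → MooreDGA A) : U → MooreDGA A :=
  twistedDiffOf MooreDGA.boundary MooreDGA.sign δ x

/-- `∑ x s • s` is homogeneous of degree `q`, the basis element `s` having degree `dg s`. -/
def MooreDGA.IsHomogeneousVec {A : SimplicialRing.{u}} {U : Type u} (dg : U → ℤ) (q : ℤ) (x : U → MooreDGA A) : Prop :=
  ∀ s, MooreDGA.IsHomogeneous (q - dg s) (x s)

/-- The map `s ↦ ∑ φ s r • r` preserves the degree. -/
abbrev MooreDGA.IsDegreeZero {A : SimplicialRing.{u}} {U : Type u} (dg : U → ℤ) (φ : Matrix U U (MooreDGA A)) : Prop :=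
  ∀ s r, MooreDGA.IsHomogeneous (dg s - dg r) (φ s r)

/-- `∑ x s • s` is a cycle. -/
abbrev MooreDGA.IsCycle {A : SimplicialRing.{u}} {U : Type u} [Fintype U] (δ : Matrix U U (MooreDGA A))
    (x : U → MooreDGA A) : Prop := MooreDGA.twistedDiff δ x = 0

/-- The semi-free dg module given by `δ` is acyclic. -/
def MooreDGA.IsAcyclic {A : SimplicialRing.{u}} {U : Type u} [Fintype U] (dg : U → ℤ) (δ : Matrix U U (MooreDGA A)) : Prop :=
  ∀ q x, MooreDGA.IsHomogeneousVec dg q x → MooreDGA.IsCycle δ x → ∃ y, MooreDGA.IsHomogeneousVec dg (q + 1) y ∧ MooreDGA.twistedDiff δ y = x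

/-- Graded cells; the cell `s` is born on the chart `b s` and exists on the charts `j ≥ b s`;
every chart carries finitely many cells. -/
structure Cells (J : Type u) [Preorder J] where
  Cell : Type u
  birth : Cell → J
  degree : Cell → ℤ
  finite : ∀ j, Finite {s // birth s ≤ j}

namespace Cells
variable (C : Cells J)

/-- The cells on the chart `j`. -/
abbrev CellsOn (j : J) : Type u := {s : C.Cell // C.birth s ≤ j}

/-- The cells on the chart `j` that are not on the chart `i`. -/
abbrev CellsBetween (i j : J) : Type u := {s : C.Cell // C.birth s ≤ j ∧ ¬ C.birth s ≤ i}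

noncomputable instance (j : J) : Fintype (C.CellsOn j) := @Fintype.ofFinite _ (C.finite j)

theorem blk_finite (i j : J) : Finite (C.CellsBetween i j) :=
  haveI := C.finite j
  Finite.of_injective (fun s : C.CellsBetween i j => (⟨s.1, s.2.1⟩ : C.CellsOn j))
    (fun _ _ h => Subtype.ext (congrArg (fun x : C.CellsOn j => x.1) h))

noncomputable instance (i j : J) : Fintype (C.CellsBetween i j) := @Fintype.ofFinite _ (C.blk_finite i j)

/-- Degrees of the cells on a chart. -/
abbrev degOn (j : J) : C.CellsOn j → ℤ := fun s => C.degree s.1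

/-- Degrees of the cells of a block. -/
abbrev degBetween (i j : J) : C.CellsBetween i j → ℤ := fun s => C.degree s.1

variable {C} in
/-- A block inside a larger block. -/
def blockIncl {i i' j' j : J} (h : i ≤ i') (h' : j' ≤ j) (s : C.CellsBetween i' j') : C.CellsBetween i j :=
  ⟨s.1, s.2.1.trans h', fun k => s.2.2 (k.trans h)⟩

/-- The cells on `i` and the cells of the block from `i` to `j` are cells on `j`. -/
def splitFun {i j : J} (h : i ≤ j) : C.CellsOn i ⊕ C.CellsBetween i j → C.CellsOn j :=
  Sum.elim (fun s => ⟨s.1, s.2.trans h⟩) fun s => ⟨s.1, s.2.1⟩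

/-- A cell on `j` is on `i` or in the block from `i` to `j`. -/
noncomputable def splitInv (i j : J) (s : C.CellsOn j) : C.CellsOn i ⊕ C.CellsBetween i j :=
  if k : C.birth s.1 ≤ i then Sum.inl ⟨s.1, k⟩ else Sum.inr ⟨s.1, s.2, k⟩

theorem split_left {i j : J} (h : i ≤ j) : Function.LeftInverse (C.splitInv i j) (C.splitFun h) := fun s => by
  rcases s with s | s
  · simp [splitFun, splitInv, s.2]
  · simp [splitFun, splitInv, s.2.2]

theorem split_right {i j : J} (h : i ≤ j) : Function.RightInverse (C.splitInv i j) (C.splitFun h) := fun s => by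
  unfold splitInv
  split_ifs <;> rfl

/-- The cells on `j` are the cells on `i` and the cells of the block from `i` to `j`. -/
noncomputable def split {i j : J} (h : i ≤ j) : C.CellsOn i ⊕ C.CellsBetween i j ≃ C.CellsOn j :=
  ⟨C.splitFun h, C.splitInv i j, C.split_left h, C.split_right h⟩

/-- The cells of the block from the first to the last chart of a chain. -/
abbrev ChainBlock {n : ℕ} (c : Fin (n + 1) →o J) : Type u := C.CellsBetween (c 0) (c (Fin.last n))

/-- Degrees of the cells of the block of a chain. -/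
abbrev chainDeg {n : ℕ} (c : Fin (n + 1) →o J) : C.ChainBlock c → ℤ := C.degBetween _ _

/-- Birth charts of the cells of the block of a chain. -/
abbrev chainBirth {n : ℕ} (c : Fin (n + 1) →o J) : C.ChainBlock c → J := fun s => C.birth s.1

/-- The block between two charts of a chain. -/
abbrev chainIncl {n : ℕ} (c : Fin (n + 1) →o J) (a a' : Fin (n + 1)) :
    C.CellsBetween (c a) (c a') → C.ChainBlock c :=
  blockIncl (c.monotone (Fin.zero_le a)) (c.monotone (Fin.le_last a'))

/-- All the blocks of `d` between two charts of the chain are exact complexes. -/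
abbrev BlocksExact {n : ℕ} (c : Fin (n + 1) →o J) {K : Type u} [CommRing K]
    (d : Matrix (C.ChainBlock c) (C.ChainBlock c) K) : Prop :=
  ∀ a a', IsExactComplex (C.degBetween (c a) (c a')) (principalSub d (C.chainIncl c a a'))

/-- Pairings of the odd and the even cells on every chart. -/
abbrev Pairing : Type u := ∀ j, OddCell (C.degOn j) ≃ EvenCell (C.degOn j)

/-- The torsion of the block of `d` from `c 0` to `c a`, relative to the generators `β (c 0)` and
`β (c a)`. -/
noncomputable def chainTorsion (β : C.Pairing) {n : ℕ} (c : Fin (n + 1) →o J) {K : Type u} [CommRing K]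
    (d : Matrix (C.ChainBlock c) (C.ChainBlock c) K) (a : Fin (n + 1)) : K :=
  relTorsion (C.split (c.monotone (Fin.zero_le a))) (C.degBetween (c 0) (c a)) (β (c 0)) (β (c a))
    (principalSub d (C.chainIncl c 0 a))

end Cells

/-- The matrix on the chart `j` of a family `ψ s v ∈ MooreDGA (B_{b s})`. -/
def matrixOn {B : RingDiagram J} {C C' : Cells J} (ψ : ∀ s : C.Cell, C'.Cell → MooreDGA (B.chart (C.birth s))) (j : J) :
    Matrix (C.CellsOn j) (C'.CellsOn j) (MooreDGA (B.chart j)) :=
  mat fun s v => MooreDGA.push (B.res s.2) (ψ s.1 v.1)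

/-- A perfect complex on the derived stack presented by `A`: a cellular (cofibrant) diagram of
finite semi-free dg modules `G_j = ⊕_{b s ≤ j} MooreDGA(A_j) s`, with `d s = ∑ δ s r • r`, that is
cartesian: for `i ≤ j` the inclusion `MooreDGA(A_j) ⊗ G_i → G_j` has acyclic cokernel. -/
structure PerfectComplex (A : RingDiagram J) where
  C : Cells J
  δ : ∀ s : C.Cell, C.Cell → MooreDGA (A.chart (C.birth s))
  triangular : ∀ s r, ¬ C.birth r ≤ C.birth s → RingZero (δ s r)
  homogeneous : ∀ s r, MooreDGA.IsHomogeneous (C.degree s - 1 - C.degree r) (δ s r)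
  maurerCartan : ∀ j s, MooreDGA.IsCycle (matrixOn δ j) (matrixOn δ j s)
  cartesian : ∀ {i j : J}, i ≤ j → MooreDGA.IsAcyclic (C.degBetween i j)
    (mat fun s r : C.CellsBetween i j => MooreDGA.push (A.res s.2.1) (δ s.1 r.1))

/-- The twisting matrix of `G_j`. -/
def PerfectComplex.matrix {A : RingDiagram J} (G : PerfectComplex A) (j : J) : Matrix (G.C.CellsOn j) (G.C.CellsOn j) (MooreDGA (A.chart j)) :=
  matrixOn G.δ j

/-- `F` has rank `l`: on every nonempty chart (`1` is not a boundary, i.e. `π_0 ≠ 0`) the Euler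
characteristic, the number of even cells minus the number of odd cells, is `l`. -/
def PerfectComplex.HasRank {B : RingDiagram J} (F : PerfectComplex B) (l : ℤ) : Prop :=
  ∀ j, ¬ (B.chart j).ab.IsBoundary (1 : (B.chart j).obj 0) →
    (Nat.card (EvenCell (F.C.degOn j)) : ℤ) - Nat.card (OddCell (F.C.degOn j)) = l

/-- The `f`-semilinear map `∑ x s • s ↦ ∑ f (x s) ψ s v • v`. -/
noncomputable def MooreDGA.semilinearMap {A B : SimplicialRing.{u}} (f : A.Hom B) {U W : Type u} [Fintype U]
    (ψ : Matrix U W (MooreDGA B)) (x : U → MooreDGA A) : W → MooreDGA B :=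
  semilinearOf (MooreDGA.map f) ψ x

section
variable {A B : SimplicialRing.{u}} (f : A.Hom B) {U W : Type u} [Fintype U] [Fintype W] (dU : U → ℤ)
  (dW : W → ℤ) (δ : Matrix U U (MooreDGA A)) (ε : Matrix W W (MooreDGA B)) (ψ : Matrix U W (MooreDGA B))

/-- The semilinear map given by `ψ` commutes with the differentials given by `δ` and `ε`. -/
abbrev MooreDGA.IsChainMap : Prop :=
  ∀ s, MooreDGA.twistedDiff ε (ψ s) = MooreDGA.semilinearMap f ψ (δ s)

/-- The semilinear chain map given by `ψ` is surjective on homology. -/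
abbrev MooreDGA.SurjOnHomology : Prop :=
  ∀ q y, MooreDGA.IsHomogeneousVec dW q y → MooreDGA.IsCycle ε y →
    ∃ x z, MooreDGA.IsHomogeneousVec dU q x ∧ MooreDGA.IsCycle δ x ∧ MooreDGA.IsHomogeneousVec dW (q + 1) z ∧
      MooreDGA.semilinearMap f ψ x = y + MooreDGA.twistedDiff ε z

/-- The semilinear chain map given by `ψ` is injective on homology. -/
abbrev MooreDGA.InjOnHomology : Prop :=
  ∀ q x z, MooreDGA.IsHomogeneousVec dU q x → MooreDGA.IsCycle δ x → MooreDGA.IsHomogeneousVec dW (q + 1) z →
    MooreDGA.semilinearMap f ψ x = MooreDGA.twistedDiff ε z →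
      ∃ w, MooreDGA.IsHomogeneousVec dU (q + 1) w ∧ MooreDGA.twistedDiff δ w = x

end

/-- An identification of `G` with the pushforward `f_* F`: a map of diagrams of dg modules
`G → f_* F`, `s ↦ ∑ ψ s v • v`, that is a quasi-isomorphism on every chart. -/
structure PushforwardModel {A B : RingDiagram J} (f : A.Hom B) (G : PerfectComplex A) (F : PerfectComplex B) where
  ψ : ∀ s : G.C.Cell, F.C.Cell → MooreDGA (B.chart (G.C.birth s))
  triangular : ∀ s v, ¬ F.C.birth v ≤ G.C.birth s → RingZero (ψ s v)
  homogeneous : ∀ s v, MooreDGA.IsHomogeneous (G.C.degree s - F.C.degree v) (ψ s v)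
  chain : ∀ j, MooreDGA.IsChainMap (f.app j) (G.matrix j) (F.matrix j) (matrixOn ψ j)
  surj : ∀ j, MooreDGA.SurjOnHomology (f.app j) (G.C.degOn j) (F.C.degOn j) (G.matrix j) (F.matrix j) (matrixOn ψ j)
  inj : ∀ j, MooreDGA.InjOnHomology (f.app j) (G.C.degOn j) (F.C.degOn j) (G.matrix j) (F.matrix j) (matrixOn ψ j)

/-- `f : A → B` presents a virtual Cartier divisor `Z → X`: it is a levelwise surjection
(closed immersion) whose kernel `I = O(-Z)` is free of rank one on every chart and cartesian
(generators restrict to generators); the charts of `X` are saturated. -/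
structure IsVirtualCartierDivisor {A B : RingDiagram J} (f : A.Hom B) : Prop where
  surj : ∀ j n, RingSurjective ((f.app j).app n)
  sat : ∀ j, (A.chart j).IsSaturated
  gen : ∀ j, ∃ t : (A.chart j).obj 0, (f.app j).IsGenerator t
  gen_restrict : ∀ {i j : J} (h : i ≤ j) (t : (A.chart i).obj 0), (f.app i).IsGenerator t →
    (f.app j).IsGenerator (ringApp ((A.res h).app 0) t)

end Pool.Agent.P.MP_932208_ag
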