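import Pool.Agent.P.MP_932208_ag.ShuffleL

/-!
The ring of chains.
-/

namespace Pool.Agent.P.MP_932208_ag

universe u

theorem Chains.ringLaws (A : SimplicialRing.{u}) : RingLaws (Chains A) :=
  ⟨Chains.mul_add', Chains.add_mul', Chains.zero_mul', Chains.mul_zero', Chains.mul_assoc',
    Chains.one_mul', Chains.mul_one'⟩

/-- The chains of `A` form a ring under the shuffle product. -/
instance (A : SimplicialRing.{u}) : Ring (Chains A) := ringOf (Chains.ringLaws A)

end Pool.Agent.P.MP_932208_ag
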