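import Pool.Agent.P.MP_932208_ag.Moore

/-!
The cotensor `A^{Δ^m}` of a simplicial commutative ring with a standard simplex.
-/

namespace Pool.Agent.P.MP_932208_ag

universe u

theorem SimplicialRing.Hom.id_nat (A : SimplicialRing.{u}) {k n : ℕ} (θ : SimplexHom k n) :
    RingSquare (ringId (A.obj k)) (A.map θ) (A.map θ) (ringId (A.obj n)) := fun _ => rfl

/-- The identity of a simplicial ring. -/
def SimplicialRing.Hom.id (A : SimplicialRing.{u}) : A.Hom A where
  app n := ringId (A.obj n)
  nat := id_nat A

theorem SimplicialRing.Hom.comp_nat {A B C : SimplicialRing.{u}} (g : B.Hom C) (f : A.Hom B) {k n : ℕ} (θ : SimplexHom k n) :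
    RingSquare (ringComp (g.app k) (f.app k)) (A.map θ) (C.map θ) (ringComp (g.app n) (f.app n)) := fun x => by
  change g.app k (f.app k (A.map θ x)) = C.map θ (g.app n (f.app n x))
  rw [f.nat, g.nat]

/-- Composition of maps of simplicial rings. -/
def SimplicialRing.Hom.comp {A B C : SimplicialRing.{u}} (g : B.Hom C) (f : A.Hom B) : A.Hom C where
  app n := ringComp (g.app n) (f.app n)
  nat := g.comp_nat f

@[ext] theorem SimplicialRing.Hom.ext {A B : SimplicialRing.{u}} {f g : A.Hom B}
    (h : ∀ n x, f.app n x = g.app n x) : f = g := by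
  cases f; cases g; congr; funext n; exact RingHom.ext (h n)

namespace SimplicialRing
variable (A : SimplicialRing.{u})

/-- Families indexed by the simplices `(α, γ)` of `Δ^m × Δ^k`. -/
abbrev Families (m k : ℕ) : Type u := ∀ r, SimplexHom r m → SimplexHom r k → A.obj r

/-- The pointwise ring structure. -/
abbrev familiesCommRing (m k : ℕ) : CommRing (A.Families m k) := inferInstance

/-- The pointwise ring structure. -/
abbrev familiesRing (m k : ℕ) : Ring (A.Families m k) := (A.familiesCommRing m k).toRing

/-- Naturality of a family. -/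
def IsNat {m k : ℕ} (x : A.Families m k) : Prop :=
  ∀ {r r' : ℕ} (θ : SimplexHom r' r) (α : SimplexHom r m) (γ : SimplexHom r k),
    A.map θ (x r α γ) = x r' (α.comp θ) (γ.comp θ)

theorem isNat_subring (m k : ℕ) : @IsSubringPred _ (A.familiesRing m k) A.IsNat :=
  ⟨fun hx hy _ _ θ α γ => by simp only [Pi.mul_apply, map_mul, hx θ, hy θ],
    fun θ _ _ => map_one (A.map θ),
    fun hx hy _ _ θ α γ => by simp only [Pi.add_apply, map_add, hx θ, hy θ],
    fun θ _ _ => map_zero (A.map θ),
    fun hx _ _ θ α γ => by simp only [Pi.neg_apply, map_neg, hx θ]⟩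

/-- Simplicial maps `Δ^m × Δ^k → A`, a ring under pointwise operations. -/
def cotensorSubring (m k : ℕ) : @Subring (A.Families m k) (A.familiesRing m k).toNonAssocRing :=
  @subringOf _ (A.familiesRing m k) A.IsNat (A.isNat_subring m k)

/-- Simplicial maps `Δ^m × Δ^k → A`. -/
abbrev CotensorObj (m k : ℕ) : Type u := A.cotensorSubring m k

/-- The ring structure on the simplicial maps `Δ^m × Δ^k → A`. -/
abbrev cotensorRing (m k : ℕ) : CommRing (A.CotensorObj m k) :=
  @Subring.toCommRing _ (A.familiesCommRing m k) (A.cotensorSubring m k)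

variable {A} in
/-- Restriction of families along `φ × θ`, followed by `f : A → B`. -/
def restrictFamily {B : SimplicialRing.{u}} (f : A.Hom B) {m m' k k' : ℕ} (φ : SimplexHom m' m) (θ : SimplexHom k' k)
    (x : A.Families m k) : B.Families m' k' :=
  fun r α γ => ringApp (f.app r) (x r (φ.comp α) (θ.comp γ))

variable {A} in
theorem cotensorMap_ok {B : SimplicialRing.{u}} (f : A.Hom B) {m m' k k' : ℕ} (φ : SimplexHom m' m) (θ : SimplexHom k' k) :
    @IsRingMapOn _ _ (A.familiesRing m k) (B.familiesRing m' k') (A.cotensorSubring m k)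
      (B.cotensorSubring m' k') (restrictFamily f φ θ) :=
  ⟨fun x _ _ η α γ => by unfold restrictFamily ringApp; rw [← f.nat, x.2 η]; rfl,
    funext fun r => funext fun _ => funext fun _ => map_one (f.app r),
    fun _ _ => funext fun r => funext fun _ => funext fun _ => map_mul (f.app r) _ _,
    funext fun r => funext fun _ => funext fun _ => map_zero (f.app r),
    fun _ _ => funext fun r => funext fun _ => funext fun _ => map_add (f.app r) _ _⟩

variable {A} in
/-- Restriction of maps `Δ^m × Δ^k → A` along `φ × θ`, followed by `f : A → B`. -/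
def cotensorMap {B : SimplicialRing.{u}} (f : A.Hom B) {m m' k k' : ℕ} (φ : SimplexHom m' m) (θ : SimplexHom k' k) :
    @CommRingMap _ _ (A.cotensorRing m k) (B.cotensorRing m' k') :=
  @ringMapOn _ _ (A.familiesRing m k) (B.familiesRing m' k') (A.cotensorSubring m k)
    (B.cotensorSubring m' k') (restrictFamily f φ θ) (cotensorMap_ok f φ θ)

theorem cotensor_id (m n : ℕ) :
    @RingId _ (A.cotensorRing m n) (cotensorMap (Hom.id A) OrderHom.id OrderHom.id) := fun _ => rfl

theorem cotensor_comp (m : ℕ) {l k n : ℕ} (θ : SimplexHom k n) (η : SimplexHom l k) :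
    @RingComp _ _ _ (A.cotensorRing m n) (A.cotensorRing m k) (A.cotensorRing m l)
      (cotensorMap (Hom.id A) OrderHom.id η) (cotensorMap (Hom.id A) OrderHom.id θ)
      (cotensorMap (Hom.id A) OrderHom.id (θ.comp η)) := fun _ => rfl

/-- The cotensor `A^{Δ^m}`: its `k`-simplices are the simplicial maps `Δ^m × Δ^k → A`. -/
@[reducible] def cotensor (m : ℕ) : SimplicialRing.{u} where
  obj k := A.CotensorObj m k
  ring k := A.cotensorRing m k
  map θ := cotensorMap (Hom.id A) OrderHom.id θ
  map_id := A.cotensor_id m
  map_comp := A.cotensor_comp m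

variable {A} in
theorem cotensorHom_nat {B : SimplicialRing.{u}} (f : A.Hom B) {m m' : ℕ} (φ : SimplexHom m' m) :
    (A.cotensor m).IsNatural (B.cotensor m') fun _ => cotensorMap f φ OrderHom.id := fun _ _ => rfl

variable {A} in
/-- The map `A^{Δ^m} → B^{Δ^{m'}}` induced by `f : A → B` and `φ : [m'] → [m]`. -/
def cotensorHom {B : SimplicialRing.{u}} (f : A.Hom B) {m m' : ℕ} (φ : SimplexHom m' m) : (A.cotensor m).Hom (B.cotensor m') where
  app _ := cotensorMap f φ OrderHom.id
  nat := @cotensorHom_nat A B f m m' φ

/-- The constant family of a simplex. -/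
def constFamily (m k : ℕ) (a : A.obj k) : A.Families m k := fun _ _ γ => ringApp (A.map γ) a

theorem const_ok (m k : ℕ) :
    @IsRingMapInto _ _ _ (A.familiesRing m k) (A.cotensorSubring m k) (A.constFamily m k) :=
  ⟨fun a _ _ η _ γ => A.map_comp γ η a,
    funext fun _ => funext fun _ => funext fun γ => map_one (A.map γ),
    fun _ _ => funext fun _ => funext fun _ => funext fun γ => map_mul (A.map γ) _ _,
    funext fun _ => funext fun _ => funext fun γ => map_zero (A.map γ),
    fun _ _ => funext fun _ => funext fun _ => funext fun γ => map_add (A.map γ) _ _⟩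

/-- The constant maps `Δ^m × Δ^k → Δ^k → A`. -/
def constMap (m k : ℕ) : @CommRingMap _ _ (A.ring k) (A.cotensorRing m k) :=
  @ringMapInto _ _ _ (A.familiesRing m k) (A.cotensorSubring m k) (A.constFamily m k) (A.const_ok m k)

theorem const_nat (m : ℕ) : A.IsNatural (A.cotensor m) (A.constMap m) := fun θ a =>
  Subtype.ext (funext fun _ => funext fun _ => funext fun γ => A.map_comp θ γ a)

/-- The constant maps: `A → A^{Δ^m}`. -/
def const (m : ℕ) : A.Hom (A.cotensor m) where
  app := A.constMap m
  nat := @const_nat A m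

/-- The map `Δ^m × Δ^0 → A` given by an `m`-simplex. -/
def yonedaFamily (m : ℕ) (a : A.obj m) : A.Families m 0 := fun _ α _ => ringApp (A.map α) a

theorem yoneda_ok (m : ℕ) :
    @IsRingMapInto _ _ _ (A.familiesRing m 0) (A.cotensorSubring m 0) (A.yonedaFamily m) :=
  ⟨fun a _ _ η α _ => A.map_comp α η a,
    funext fun _ => funext fun α => funext fun _ => map_one (A.map α),
    fun _ _ => funext fun _ => funext fun α => funext fun _ => map_mul (A.map α) _ _,
    funext fun _ => funext fun α => funext fun _ => map_zero (A.map α),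
    fun _ _ => funext fun _ => funext fun α => funext fun _ => map_add (A.map α) _ _⟩

/-- The identification of `A_m` with the vertices of `A^{Δ^m}` (Yoneda). -/
def yonedaVertex (m : ℕ) : @CommRingMap _ _ (A.ring m) ((A.cotensor m).ring 0) :=
  @ringMapInto _ _ _ (A.familiesRing m 0) (A.cotensorSubring m 0) (A.yonedaFamily m) (A.yoneda_ok m)

/-- `A_m` as the degree zero part of `MooreDGA (A^{Δ^m})`. -/
def incCotensor (m : ℕ) : A.obj m →+* MooreDGA (A.cotensor m) := MooreDGA.inc.comp (A.yonedaVertex m)

end SimplicialRing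

end Pool.Agent.P.MP_932208_ag
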