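import Pool.Agent.P.MP_932208_ag.TorsD

/-!
Abstract connective dg rings `R` with central degree zero part `K`; twisted matrices over them.
Matrices act on row vectors.
-/

namespace Pool.Agent.P.MP_932208_ag

open Classical

universe u

theorem one_dec {U R : Type*} [Zero R] [One R] (d₁ d₂ : DecidableEq U) :
    @OfNat.ofNat (Matrix U U R) 1 (@One.toOfNat1 _ (@Matrix.one U R d₁ _ _)) =
      @OfNat.ofNat (Matrix U U R) 1 (@One.toOfNat1 _ (@Matrix.one U R d₂ _ _)) := by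
  cases Subsingleton.elim d₁ d₂; rfl

/-- A connective dg ring structure on `R` whose degree zero part is the commutative ring `K`. -/
structure DG (R : Type u) [Ring R] (K : Type u) [CommRing K] where
  d : R →+ R
  e : R →+* R
  IsHomogeneous : ℤ → R → Prop
  inc : K →+* R
  ev : R →+* K
  hg_zero : ∀ k, IsHomogeneous k 0
  hg_add : ∀ {k x y}, IsHomogeneous k x → IsHomogeneous k y → IsHomogeneous k (x + y)
  hg_neg : ∀ {k x}, IsHomogeneous k x → IsHomogeneous k (-x)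
  hg_mul : ∀ {p q x y}, IsHomogeneous p x → IsHomogeneous q y → IsHomogeneous (p + q) (x * y)
  hg_d : ∀ {k x}, IsHomogeneous k x → IsHomogeneous (k - 1) (d x)
  hg_e : ∀ {k x}, IsHomogeneous k x → IsHomogeneous k (e x)
  eq_zero : ∀ {k x}, k < 0 → IsHomogeneous k x → x = 0
  hg_inc : ∀ a, IsHomogeneous 0 (inc a)
  inc_ev : ∀ {x}, IsHomogeneous 0 x → inc (ev x) = x
  ev_inc : ∀ a, ev (inc a) = a
  ev_pos : ∀ {k x}, k ≠ 0 → IsHomogeneous k x → ev x = 0
  e_even : ∀ {k x}, Even k → IsHomogeneous k x → e x = x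
  e_odd : ∀ {k x}, Odd k → IsHomogeneous k x → e x = -x
  e_e : ∀ x, e (e x) = x
  ev_e : ∀ x, ev (e x) = ev x
  d_e : ∀ x, d (e x) = -e (d x)
  d_mul : ∀ x y, d (x * y) = d x * y + e x * d y
  d_d : ∀ x, d (d x) = 0
  inc_comm : ∀ a x, inc a * x = x * inc a

namespace DG

variable {R : Type u} [Ring R] {K : Type u} [CommRing K] (Γ : DG R K)
variable {U W : Type u}

theorem hg_sub {k x y} (hx : Γ.IsHomogeneous k x) (hy : Γ.IsHomogeneous k y) : Γ.IsHomogeneous k (x - y) := by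
  rw [sub_eq_add_neg]; exact Γ.hg_add hx (Γ.hg_neg hy)

theorem hg_sum {ι : Type*} {k} (s : Finset ι) {x : ι → R} (h : ∀ i ∈ s, Γ.IsHomogeneous k (x i)) :
    Γ.IsHomogeneous k (∑ i ∈ s, x i) :=
  Finset.sum_induction _ (Γ.IsHomogeneous k) (fun _ _ => Γ.hg_add) (Γ.hg_zero k) h

theorem hg_one : Γ.IsHomogeneous 0 1 := by simpa using Γ.hg_inc 1

theorem hg_cast {k k' x} (h : Γ.IsHomogeneous k x) (e : k = k') : Γ.IsHomogeneous k' x := e ▸ h

theorem d_inc (a : K) : Γ.d (Γ.inc a) = 0 := Γ.eq_zero (by norm_num) (Γ.hg_d (Γ.hg_inc a))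

theorem e_inc (a : K) : Γ.e (Γ.inc a) = Γ.inc a := Γ.e_even (by simp) (Γ.hg_inc a)

theorem d_one : Γ.d 1 = 0 := by simpa using Γ.d_inc 1

/-- The differential of the element `∑ x s • s` of the semi-free module given by `δ`. -/
noncomputable def twistedDiff [Fintype U] (δ : Matrix U U R) (x : U → R) : U → R :=
  fun r => Γ.d (x r) + ∑ s, Γ.e (x s) * δ s r

/-- The differential applied to all rows of `φ`. -/
noncomputable def dM [Fintype U] (δ : Matrix U U R) (φ : Matrix W U R) : Matrix W U R :=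
  φ.map Γ.d + φ.map Γ.e * δ

theorem dM_apply [Fintype U] (δ : Matrix U U R) (φ : Matrix W U R) (w : W) :
    Γ.dM δ φ w = Γ.twistedDiff δ (φ w) := rfl

/-- The differential in the basis `φ`, if `φ` is a strictification. -/
noncomputable def sd [Fintype U] (δ φ : Matrix U U R) : Matrix U U K := (Γ.dM δ φ).map Γ.ev

/-- The defect of `φ` to be a strictification. -/
noncomputable def res [Fintype U] (δ φ : Matrix U U R) : Matrix U U R :=
  Γ.dM δ φ - (Γ.sd δ φ).map Γ.inc * φ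

/-- Homogeneous vector of degree `q`. -/
def IsHomogeneousVec (dg : U → ℤ) (q : ℤ) (x : U → R) : Prop := ∀ s, Γ.IsHomogeneous (q - dg s) (x s)

/-- Homogeneous matrix of degree `k`. -/
def HM (dW : W → ℤ) (dU : U → ℤ) (k : ℤ) (φ : Matrix W U R) : Prop :=
  ∀ w, Γ.IsHomogeneousVec dU (dW w + k) (φ w)

/-- Acyclic semi-free module. -/
def IsAcyclic [Fintype U] (dg : U → ℤ) (δ : Matrix U U R) : Prop :=
  ∀ q x, Γ.IsHomogeneousVec dg q x → Γ.twistedDiff δ x = 0 → ∃ y, Γ.IsHomogeneousVec dg (q + 1) y ∧ Γ.twistedDiff δ y = x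

/-- The ideal of boundaries in degree zero; `K / J = π_0`. -/
def J : Ideal K where
  carrier := {a | ∃ x, Γ.IsHomogeneous 1 x ∧ Γ.ev (Γ.d x) = a}
  add_mem' := by
    rintro _ _ ⟨x, hx, rfl⟩ ⟨y, hy, rfl⟩
    exact ⟨x + y, Γ.hg_add hx hy, by simp⟩
  zero_mem' := ⟨0, Γ.hg_zero 1, by simp⟩
  smul_mem' := by
    rintro a _ ⟨x, hx, rfl⟩
    refine ⟨Γ.inc a * x, Γ.hg_cast (Γ.hg_mul (Γ.hg_inc a) hx) (by norm_num), ?_⟩
    rw [Γ.d_mul, Γ.d_inc, Γ.e_inc]; simp [Γ.ev_inc]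

/-- `J` lies in the Jacobson radical. -/
def IsSaturated : Prop := ∀ a ∈ Γ.J, IsUnit (1 + a)

/-- A two-sided ideal stable under the differential and the sign. -/
def DI (I : TwoSidedIdeal R) : Prop := (∀ x ∈ I, Γ.d x ∈ I) ∧ ∀ x ∈ I, Γ.e x ∈ I

/-- The Koszul matrix: basis `v` (left), `ε v` (right), `d ε = t`,
`d v = ∑ p v v' • v' + ∑ q v v' • ε v'`. -/
noncomputable def kz (t : K) (p q : Matrix U U R) : Matrix (U ⊕ U) (U ⊕ U) R :=
  Matrix.fromBlocks p q (Matrix.diagonal fun _ => Γ.inc t) (-p.map Γ.e)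

/-- The cone of `s ↦ ∑ pS s v • v + ∑ qS s v • ε v` from the module `δ` to the Koszul module. -/
noncomputable def cone {S V : Type u} (δ : Matrix S S R) (t : K) (pS qS : Matrix S V R)
    (p q : Matrix V V R) : Matrix (S ⊕ (V ⊕ V)) (S ⊕ (V ⊕ V)) R :=
  Matrix.fromBlocks (-δ.map Γ.e) (Matrix.fromCols pS qS) 0 (Γ.kz t p q)

/-- Block shape of a map between cones: `g` on the first block, the Koszul part is preserved and
`ε`-semilinear (`ε ↦ u ε`). -/
structure KF {S V S' V' : Type u} (g : Matrix S S' R) (u : K)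
    (M : Matrix (S ⊕ (V ⊕ V)) (S' ⊕ (V' ⊕ V')) R) : Prop where
  gg : ∀ s s', M (.inl s) (.inl s') = g s s'
  pg : ∀ x s', M (.inr x) (.inl s') = 0
  ev : ∀ v v', M (.inr (.inr v)) (.inr (.inl v')) = 0
  ee : ∀ v v', M (.inr (.inr v)) (.inr (.inr v')) = Γ.inc u * Γ.e (M (.inr (.inl v)) (.inr (.inl v')))

/-- Exactness of the kernel of `R[ε] → R'`, `dε = t`, `ε ↦ 0`. -/
structure KE {R' : Type u} [Ring R'] (f : R →+* R') (t : K) : Prop where
  f_t : f (Γ.inc t) = 0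
  f_d : ∀ x, f x = 0 → f (Γ.d x) = 0
  f_e : ∀ x, f x = 0 → f (Γ.e x) = 0
  ex : ∀ q y a, Γ.IsHomogeneous q y → Γ.IsHomogeneous (q - 1) a → f y = 0 → Γ.d y + Γ.e a * Γ.inc t = 0 → Γ.d a = 0 →
    ∃ y' a', Γ.IsHomogeneous (q + 1) y' ∧ Γ.IsHomogeneous q a' ∧ f y' = 0 ∧ Γ.d y' + Γ.e a' * Γ.inc t = y ∧ Γ.d a' = a

/-- A map of dg rings. -/
structure IsHom {R' : Type u} [Ring R'] {K' : Type u} [CommRing K'] (Γ' : DG R' K')
    (g : R →+* R') (g₀ : K →+* K') : Prop where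
  d : ∀ x, g (Γ.d x) = Γ'.d (g x)
  e : ∀ x, g (Γ.e x) = Γ'.e (g x)
  homogeneous : ∀ {k x}, Γ.IsHomogeneous k x → Γ'.IsHomogeneous k (g x)
  inc : ∀ a, g (Γ.inc a) = Γ'.inc (g₀ a)
  ev : ∀ x, g₀ (Γ.ev x) = Γ'.ev (g x)

end DG

/-- Degrees of the cells `v`, `ε v`. -/
def kdg {U : Type u} (dg : U → ℤ) : U ⊕ U → ℤ := Sum.elim dg fun v => dg v + 1

/-- Degrees of the cells of a cone: `σ s`, `v`, `ε v`. -/
def cdg {S V : Type u} (dS : S → ℤ) (dV : V → ℤ) : S ⊕ (V ⊕ V) → ℤ :=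
  Sum.elim (fun s => dS s + 1) (kdg dV)

/-- Births of the cells of a cone. -/
def cb {S V J : Type u} (bS : S → J) (bV : V → J) : S ⊕ (V ⊕ V) → J :=
  Sum.elim bS (Sum.elim bV bV)

/-- The embedding of the cells of a cone induced by embeddings of `S` and `V`. -/
def cemb {S V S' V' : Type u} (iS : S' → S) (iV : V' → V) : S' ⊕ (V' ⊕ V') → S ⊕ (V ⊕ V) :=
  Sum.map iS (Sum.map iV iV)

/-- A convex embedding with respect to the births `b`. -/
def Cvx {U U' J : Type u} [Preorder J] (b : U → J) (e : U' → U) : Prop :=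
  Function.Injective e ∧ ∀ w x w', b x ≤ b (e w) → b (e w') ≤ b x → x ∈ Set.range e

/-- Lifts of a map `G → f_* F` to the Koszul algebra. -/
@[ext] structure OD (S V R : Type u) where
  pS : Matrix S V R
  qS : Matrix S V R
  p : Matrix V V R
  q : Matrix V V R

/-- The cone matrix of an object. -/
noncomputable def OD.matrix {S V R K : Type u} [Ring R] [CommRing K] (o : OD S V R) (Γ : DG R K)
    (δ : Matrix S S R) (t : K) : Matrix (S ⊕ (V ⊕ V)) (S ⊕ (V ⊕ V)) R :=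
  Γ.cone δ t o.pS o.qS o.p o.q

/-- Base change of an object. -/
def OD.map {S V R R' : Type u} (o : OD S V R) (g : R → R') : OD S V R' :=
  ⟨o.pS.map g, o.qS.map g, o.p.map g, o.q.map g⟩

/-- Restriction of an object. -/
def OD.sub {S V S' V' R : Type u} (o : OD S V R) (iS : S' → S) (iV : V' → V) : OD S' V' R :=
  ⟨o.pS.submatrix iS iV, o.qS.submatrix iS iV, o.p.submatrix iV iV, o.q.submatrix iV iV⟩

/-- `o` is a Maurer-Cartan lift of `(δ', ψ')` compatible with degrees and births. -/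
structure GoodO {S V J R R' K : Type u} [Fintype S] [Fintype V] [Preorder J] [Ring R] [Ring R']
    [CommRing K] (Γ : DG R K) (f : R →+* R') (dS : S → ℤ) (dV : V → ℤ) (bS : S → J) (bV : V → J)
    (δ : Matrix S S R) (δ' : Matrix V V R') (ψ' : Matrix S V R') (t : K) (o : OD S V R) :
    Prop where
  hm : Γ.HM (cdg dS dV) (cdg dS dV) (-1) (o.matrix Γ δ t)
  maurerCartan : Γ.dM (o.matrix Γ δ t) (o.matrix Γ δ t) = 0
  triangular : ∀ w w', ¬ cb bS bV w' ≤ cb bS bV w → o.matrix Γ δ t w w' = 0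
  fS : o.pS.map f = ψ'
  fV : o.p.map f = δ'

/-- `ρ` is a morphism of objects over the unit `u`, from the cone `Δ` to the cone `Δ'`, lifting
the identity. -/
structure GoodM {S V J R R' K : Type u} [Fintype S] [Fintype V]
    [Preorder J] [Ring R] [Ring R'] [CommRing K] (Γ : DG R K) (f : R →+* R')
    (dS : S → ℤ) (dV : V → ℤ) (bS : S → J) (bV : V → J)
    (Δ Δ' : Matrix (S ⊕ (V ⊕ V)) (S ⊕ (V ⊕ V)) R)
    (u : K) (ρ : Matrix (S ⊕ (V ⊕ V)) (S ⊕ (V ⊕ V)) R) : Prop where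
  hm : Γ.HM (cdg dS dV) (cdg dS dV) 0 ρ
  triangular : ∀ w w', ¬ cb bS bV w' ≤ cb bS bV w → ρ w w' = 0
  kf : Γ.KF 1 u ρ
  sv : ∀ s v', f (ρ (.inl s) (.inr (.inl v'))) = 0 ∧ Γ.ev (ρ (.inl s) (.inr (.inl v'))) = 0
  vv : ∀ v v', f (ρ (.inr (.inl v)) (.inr (.inl v'))) = (if v = v' then 1 else 0) ∧
    Γ.ev (ρ (.inr (.inl v)) (.inr (.inl v'))) = if v = v' then 1 else 0
  chain : Γ.dM Δ' ρ = Δ * ρ

/-- `φ` is a unipotent change of basis of a cone, compatible with the filtration `c` and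
`ε`-linear on the Koszul cells that are not born before `c₀`. -/
structure Shp {S V J R K : Type u} {ι : Type} [Preorder J] [Ring R] [CommRing K] (Γ : DG R K)
    (dS : S → ℤ) (dV : V → ℤ) (bS : S → J) (bV : V → J) (c : ι → J) (c₀ : J)
    (φ : Matrix (S ⊕ (V ⊕ V)) (S ⊕ (V ⊕ V)) R) : Prop where
  hm : Γ.HM (cdg dS dV) (cdg dS dV) 0 φ
  ev1 : φ.map Γ.ev = 1
  triangular : ∀ a w w', cb bS bV w ≤ c a → ¬ cb bS bV w' ≤ c a → φ w w' = 0
  ps : ∀ x s', ¬ bS s' ≤ c₀ → φ (.inr x) (.inl s') = 0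
  ev : ∀ v v', ¬ bV v' ≤ c₀ → φ (.inr (.inr v)) (.inr (.inl v')) = 0
  ee : ∀ v v', ¬ bV v' ≤ c₀ →
    φ (.inr (.inr v)) (.inr (.inr v')) = Γ.e (φ (.inr (.inl v)) (.inr (.inl v')))

/-- The Koszul matrix over the ordinary ring `K`. -/
noncomputable def kz0 {V K : Type u} [CommRing K] (t : K) (p q : Matrix V V K) :
    Matrix (V ⊕ V) (V ⊕ V) K :=
  Matrix.fromBlocks p q (Matrix.diagonal fun _ => t) (-p)

/-- The cone matrix over the ordinary ring `K`. -/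
noncomputable def cone0 {S V K : Type u} [CommRing K] (d : Matrix S S K)
    (x : Matrix S (V ⊕ V) K) (t : K) (p q : Matrix V V K) :
    Matrix (S ⊕ (V ⊕ V)) (S ⊕ (V ⊕ V)) K :=
  Matrix.fromBlocks (-d) x 0 (kz0 t p q)

/-- The quasi-isomorphism property of `ψ' : G → f_* F`. -/
structure QI {S V R R' K K' : Type u} [Fintype S] [Fintype V] [Ring R] [Ring R'] [CommRing K]
    [CommRing K'] (Γ : DG R K) (Γ' : DG R' K') (f : R →+* R') (dS : S → ℤ) (dV : V → ℤ)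
    (δ : Matrix S S R) (δ' : Matrix V V R') (ψ' : Matrix S V R') : Prop where
  surj : ∀ q y, Γ'.IsHomogeneousVec dV q y → Γ'.twistedDiff δ' y = 0 → ∃ x z, Γ.IsHomogeneousVec dS q x ∧ Γ.twistedDiff δ x = 0 ∧
    Γ'.IsHomogeneousVec dV (q + 1) z ∧ (fun v => ∑ s, f (x s) * ψ' s v) = y + Γ'.twistedDiff δ' z
  inj : ∀ q x z, Γ.IsHomogeneousVec dS q x → Γ.twistedDiff δ x = 0 → Γ'.IsHomogeneousVec dV (q + 1) z →
    (fun v => ∑ s, f (x s) * ψ' s v) = Γ'.twistedDiff δ' z → ∃ w, Γ.IsHomogeneousVec dS (q + 1) w ∧ Γ.twistedDiff δ w = x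

/-- The block `π × π` of the complex `δ₀` is contractible modulo the ideal `J`. -/
def Ex0 {U K : Type u} [Fintype U] [CommRing K] (J : Ideal K) (dg : U → ℤ) (δ₀ : Matrix U U K)
    (π : U → Prop) : Prop :=
  ∃ h : Matrix U U K, (∀ s r, h s r ≠ 0 → π s ∧ π r ∧ dg r = dg s + 1) ∧
    ∀ s r, π s → π r → (δ₀ * h + h * δ₀ - 1) s r ∈ J

end Pool.Agent.P.MP_932208_ag
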