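import Pool.Agent.P.MP_932208_ag.NL
import Pool.Agent.P.MP_932208_ag.DG
import Pool.Agent.P.MP_932208_ag.SimpE

/-!
The dg rings `MooreDGA A` and `MooreDGA (A^{Δ^m})`; extension of chains of positive degree.
-/

namespace Pool.Agent.P.MP_932208_ag

universe u

theorem c1_sh_zero (n : ℕ) : ∀ (A : SimplicialRing.{u}) (x y : Chains A) (p q : ℤ),
    (∀ k : ℕ, (k : ℤ) ≠ p → x k = 0) → (∀ k : ℕ, (k : ℤ) ≠ q → y k = 0) → (n : ℤ) ≠ p + q →
    shuffle n A x y = 0 := by
  induction n with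
  | zero =>
    intro A x y p q hx hy h
    change x 0 * y 0 = 0
    by_cases hp : ((0 : ℕ) : ℤ) = p
    · rw [hy 0 (by omega), mul_zero]
    · rw [hx 0 hp, zero_mul]
  | succ n ih =>
    intro A x y p q hx hy h
    change shuffle n A.decalage x.tail y.degenZero + shuffle n A.decalage x.sgn.degenZero y.tail = 0
    rw [ih A.decalage x.tail y.degenZero (p - 1) q, ih A.decalage x.sgn.degenZero y.tail p (q - 1), add_zero]
    · intro k hk
      change A.map _ ((-1) ^ k * x k) = 0
      rw [hx k hk, mul_zero, map_zero]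
    · intro k hk
      exact hy (k + 1) (by omega)
    · omega
    · intro k hk
      exact hx (k + 1) (by omega)
    · intro k hk
      change A.map _ (y k) = 0
      rw [hy k hk, map_zero]
    · omega

namespace MooreDGA
variable {A B : SimplicialRing.{u}}

/-- The component of degree zero. -/
def ev : MooreDGA A →+* A.obj 0 where
  toFun x := x.1 0
  map_one' := rfl
  map_mul' _ _ := rfl
  map_zero' := rfl
  map_add' _ _ := rfl

theorem hg_zero (k : ℤ) : IsHomogeneous k (0 : MooreDGA A) := fun _ _ => rfl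
theorem hg_add {k : ℤ} {x y : MooreDGA A} (hx : IsHomogeneous k x) (hy : IsHomogeneous k y) : IsHomogeneous k (x + y) :=
  fun n hn => by
    change x.1 n + y.1 n = 0
    rw [hx n hn, hy n hn, add_zero]
theorem hg_neg {k : ℤ} {x : MooreDGA A} (hx : IsHomogeneous k x) : IsHomogeneous k (-x) := fun n hn => by
  change -x.1 n = 0
  rw [hx n hn, neg_zero]
theorem hg_mul {p q : ℤ} {x y : MooreDGA A} (hx : IsHomogeneous p x) (hy : IsHomogeneous q y) : IsHomogeneous (p + q) (x * y) :=
  fun n hn => c1_sh_zero n A x.1 y.1 p q hx hy hn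
theorem hg_bd {k : ℤ} {x : MooreDGA A} (hx : IsHomogeneous k x) : IsHomogeneous (k - 1) (boundary x) := fun n hn => by
  change A.map _ (x.1 (n + 1)) = 0
  rw [hx (n + 1) (by omega), map_zero]
theorem hg_sg {k : ℤ} {x : MooreDGA A} (hx : IsHomogeneous k x) : IsHomogeneous k (sign x) := fun n hn => by
  change (-1) ^ n * x.1 n = 0
  rw [hx n hn, mul_zero]
theorem eq_zero_of_neg {k : ℤ} {x : MooreDGA A} (hk : k < 0) (hx : IsHomogeneous k x) : x = 0 :=
  ext' fun n => hx n (by omega)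
theorem hg_inc (a : A.obj 0) : IsHomogeneous 0 (inc a) := fun n hn => by
  cases n with
  | zero => exact absurd rfl hn
  | succ n => rfl
theorem inc_ev {x : MooreDGA A} (hx : IsHomogeneous 0 x) : inc (ev x) = x := ext' fun n => by
  cases n with
  | zero => rfl
  | succ n => exact (hx (n + 1) (by omega)).symm
theorem ev_pos {k : ℤ} {x : MooreDGA A} (hk : k ≠ 0) (hx : IsHomogeneous k x) : ev x = 0 :=
  hx 0 (by omega)
theorem sg_even {k : ℤ} {x : MooreDGA A} (hk : Even k) (hx : IsHomogeneous k x) : sign x = x :=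
  ext' fun n => by
    change (-1) ^ n * x.1 n = x.1 n
    by_cases hn : (n : ℤ) = k
    · rw [← hn, Int.even_coe_nat] at hk
      rw [hk.neg_one_pow, one_mul]
    · rw [hx n hn, mul_zero]
theorem sg_odd {k : ℤ} {x : MooreDGA A} (hk : Odd k) (hx : IsHomogeneous k x) : sign x = -x :=
  ext' fun n => by
    change (-1) ^ n * x.1 n = -x.1 n
    by_cases hn : (n : ℤ) = k
    · rw [← hn, Int.odd_coe_nat] at hk
      rw [hk.neg_one_pow, neg_one_mul]
    · rw [hx n hn, mul_zero, neg_zero]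
theorem sg_sg (x : MooreDGA A) : sign (sign x) = x := Subtype.ext (Chains.sgn_sgn x.1)
theorem ev_sg (x : MooreDGA A) : ev (sign x) = ev x := by
  change (-1) ^ 0 * x.1 0 = x.1 0
  rw [pow_zero, one_mul]
theorem bd_sg (x : MooreDGA A) : boundary (sign x) = -sign (boundary x) := ext' fun n => by
  change A.map _ ((-1) ^ (n + 1) * x.1 (n + 1)) = -((-1) ^ n * A.map _ (x.1 (n + 1)))
  rw [map_mul, map_pow, map_neg, map_one, pow_succ]
  ring
theorem bd_mul (x y : MooreDGA A) : boundary (x * y) = boundary x * y + sign x * boundary y :=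
  Subtype.ext (Chains.bd_mul x.1 y.1)
theorem bd_bd (x : MooreDGA A) : boundary (boundary x) = 0 := Subtype.ext (Chains.IsMoore.bd_bd x.2)
theorem inc_comm (a : A.obj 0) (x : MooreDGA A) : inc a * x = x * inc a :=
  ext' fun n => (Chains.sh_deg0_left n A a x.1).trans (Chains.sh_deg0_right n A a x.1).symm

end MooreDGA

/-- The Moore dg ring. -/
def dgN (A : SimplicialRing.{u}) : DG (MooreDGA A) (A.obj 0) where
  d := MooreDGA.boundary
  e := MooreDGA.sign
  IsHomogeneous := MooreDGA.IsHomogeneous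
  inc := MooreDGA.inc
  ev := MooreDGA.ev
  hg_zero := MooreDGA.hg_zero
  hg_add := MooreDGA.hg_add
  hg_neg := MooreDGA.hg_neg
  hg_mul := MooreDGA.hg_mul
  hg_d := MooreDGA.hg_bd
  hg_e := MooreDGA.hg_sg
  eq_zero := MooreDGA.eq_zero_of_neg
  hg_inc := MooreDGA.hg_inc
  inc_ev := MooreDGA.inc_ev
  ev_inc _ := rfl
  ev_pos := MooreDGA.ev_pos
  e_even := MooreDGA.sg_even
  e_odd := MooreDGA.sg_odd
  e_e := MooreDGA.sg_sg
  ev_e := MooreDGA.ev_sg
  d_e := MooreDGA.bd_sg
  d_mul := MooreDGA.bd_mul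
  d_d := MooreDGA.bd_bd
  inc_comm := MooreDGA.inc_comm

/-- The inverse of `yonedaVertex`. -/
def SimplicialRing.unlev (A : SimplicialRing.{u}) (m : ℕ) : (A.cotensor m).obj 0 →+* A.obj m where
  toFun x := x.1 m OrderHom.id (vert m 0)
  map_one' := rfl
  map_mul' _ _ := rfl
  map_zero' := rfl
  map_add' _ _ := rfl

theorem SimplicialRing.unlev_lev (A : SimplicialRing.{u}) (m : ℕ) (a : A.obj m) : A.unlev m (A.yonedaVertex m a) = a :=
  A.map_id m a

theorem SimplicialRing.lev_unlev (A : SimplicialRing.{u}) (m : ℕ) (x : (A.cotensor m).obj 0) :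
    A.yonedaVertex m (A.unlev m x) = x := by
  refine Subtype.ext (funext fun r => funext fun α => funext fun γ => ?_)
  change A.map α (x.1 m OrderHom.id (vert m 0)) = x.1 r α γ
  rw [x.2 α]
  have e : (vert m 0 : SimplexHom m 0).comp α = γ := by
    ext a
    simp
  rw [e]
  rfl

theorem SimplicialRing.incC_ev (A : SimplicialRing.{u}) (m : ℕ) {x : MooreDGA (A.cotensor m)} (hx : MooreDGA.IsHomogeneous 0 x) :
    A.incCotensor m (A.unlev m (MooreDGA.ev x)) = x := by
  change MooreDGA.inc (A.yonedaVertex m (A.unlev m (MooreDGA.ev x))) = x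
  rw [A.lev_unlev, MooreDGA.inc_ev hx]

theorem SimplicialRing.evC_pos (A : SimplicialRing.{u}) (m : ℕ) {k : ℤ} {x : MooreDGA (A.cotensor m)} (hk : k ≠ 0)
    (hx : MooreDGA.IsHomogeneous k x) : A.unlev m (MooreDGA.ev x) = 0 := by rw [MooreDGA.ev_pos hk hx, map_zero]

/-- The dg ring `MooreDGA (A^{Δ^m})`, with degree zero part `A_m`. -/
def dgC (A : SimplicialRing.{u}) (m : ℕ) : DG (MooreDGA (A.cotensor m)) (A.obj m) where
  d := MooreDGA.boundary
  e := MooreDGA.sign
  IsHomogeneous := MooreDGA.IsHomogeneous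
  inc := A.incCotensor m
  ev := (A.unlev m).comp MooreDGA.ev
  hg_zero := MooreDGA.hg_zero
  hg_add := MooreDGA.hg_add
  hg_neg := MooreDGA.hg_neg
  hg_mul := MooreDGA.hg_mul
  hg_d := MooreDGA.hg_bd
  hg_e := MooreDGA.hg_sg
  eq_zero := MooreDGA.eq_zero_of_neg
  hg_inc a := MooreDGA.hg_inc (A.yonedaVertex m a)
  inc_ev := A.incC_ev m
  ev_inc := A.unlev_lev m
  ev_pos := A.evC_pos m
  e_even := MooreDGA.sg_even
  e_odd := MooreDGA.sg_odd
  e_e := MooreDGA.sg_sg
  ev_e x := congrArg (A.unlev m) (MooreDGA.ev_sg x)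
  d_e := MooreDGA.bd_sg
  d_mul := MooreDGA.bd_mul
  d_d := MooreDGA.bd_bd
  inc_comm a := MooreDGA.inc_comm (A.yonedaVertex m a)

namespace SimplicialRing
variable {A B C : SimplicialRing.{u}}

theorem vtx_nat (A : SimplicialRing.{u}) (m : ℕ) {k n : ℕ} (θ : SimplexHom k n) (x : (A.cotensor m).obj n) :
    ((A.cotensor m).map θ x).1 k (vert k 0) OrderHom.id = A.map θ (x.1 n (vert n 0) OrderHom.id) :=
  (x.2 θ (vert n 0) OrderHom.id).symm

/-- Evaluation at the vertex `0` of `Δ^m`. -/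
def vtx (A : SimplicialRing.{u}) (m : ℕ) : (A.cotensor m).Hom A where
  app k :=
    { toFun := fun x => x.1 k (vert k 0) OrderHom.id
      map_one' := rfl
      map_mul' := fun _ _ => rfl
      map_zero' := rfl
      map_add' := fun _ _ => rfl }
  nat := A.vtx_nat m

/-- Restriction along `θ : Δ^k → Δ^m`. -/
abbrev rs (A : SimplicialRing.{u}) {k m : ℕ} (θ : SimplexHom k m) : MooreDGA (A.cotensor m) →+* MooreDGA (A.cotensor k) :=
  MooreDGA.map (cotensorHom (Hom.id A) θ)

/-- The map `MooreDGA (A^{Δ^m}) → MooreDGA (B^{Δ^m})`. -/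
abbrev Hom.nc (f : A.Hom B) (m : ℕ) : MooreDGA (A.cotensor m) →+* MooreDGA (B.cotensor m) :=
  MooreDGA.map (cotensorHom f OrderHom.id)

theorem vtx_const (A : SimplicialRing.{u}) (m : ℕ) : (A.vtx m).comp (A.const m) = Hom.id A :=
  Hom.ext fun n x => A.map_id n x

theorem vtx_cotHom (f : A.Hom B) (m : ℕ) :
    (B.vtx m).comp (cotensorHom f OrderHom.id) = f.comp (A.vtx m) :=
  Hom.ext fun _ _ => rfl

theorem cotHom_cotHom (g : B.Hom C) (f : A.Hom B) {l k m : ℕ} (η : SimplexHom l k) (θ : SimplexHom k m) :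
    (cotensorHom g η).comp (cotensorHom f θ) = cotensorHom (g.comp f) (θ.comp η) :=
  Hom.ext fun _ _ => rfl

theorem cotHom_const (f : A.Hom B) {k m : ℕ} (θ : SimplexHom k m) :
    (cotensorHom f θ).comp (A.const m) = (B.const k).comp f :=
  Hom.ext fun _ x =>
    Subtype.ext (funext fun _ => funext fun _ => funext fun γ => f.nat γ x)

theorem rs_rs (A : SimplicialRing.{u}) {l k m : ℕ} (η : SimplexHom l k) (θ : SimplexHom k m) (x : MooreDGA (A.cotensor m)) :
    A.rs η (A.rs θ x) = A.rs (θ.comp η) x := rfl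

theorem rs_id (A : SimplicialRing.{u}) (m : ℕ) (x : MooreDGA (A.cotensor m)) : A.rs OrderHom.id x = x := rfl

theorem nc_rs (f : A.Hom B) {k m : ℕ} (θ : SimplexHom k m) (x : MooreDGA (A.cotensor m)) :
    f.nc k (A.rs θ x) = B.rs θ (f.nc m x) := rfl

theorem isHom_map (f : A.Hom B) : (dgN A).IsHom (dgN B) (MooreDGA.map f) (f.app 0) where
  d := MooreDGA.map_bd f
  e := MooreDGA.map_sg f
  homogeneous h := MooreDGA.IsHomogeneous.map f h
  inc := MooreDGA.map_inc f
  ev _ := rfl

theorem isHom_cot (f : A.Hom B) {k m : ℕ} (θ : SimplexHom k m) :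
    (dgC A m).IsHom (dgC B k) (MooreDGA.map (cotensorHom f θ)) ((B.map θ).comp (f.app m)) where
  d := MooreDGA.map_bd _
  e := MooreDGA.map_sg _
  homogeneous h := MooreDGA.IsHomogeneous.map _ h
  inc a := by
    change MooreDGA.map _ (MooreDGA.inc _) = MooreDGA.inc _
    rw [MooreDGA.map_inc]
    congr 1
    refine Subtype.ext (funext fun r => funext fun α => funext fun γ => ?_)
    change f.app r (A.map (θ.comp α) a) = B.map α (B.map θ (f.app m a))
    rw [SimplicialRing.map_comp, SimplicialRing.Hom.nat]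
  ev x := by
    change B.map θ (f.app m ((x.1 0).1 m OrderHom.id (vert m 0))) =
      f.app k ((x.1 0).1 k (θ.comp OrderHom.id) (OrderHom.id.comp (vert k 0)))
    rw [← f.nat, (x.1 0).2 θ]
    rfl

theorem isHom_rs (A : SimplicialRing.{u}) {k m : ℕ} (θ : SimplexHom k m) :
    (dgC A m).IsHom (dgC A k) (A.rs θ) (A.map θ) := isHom_cot (Hom.id A) θ

theorem isHom_nc (f : A.Hom B) (m : ℕ) :
    (dgC A m).IsHom (dgC B m) (f.nc m) (f.app m) := by
  have h := isHom_cot f (OrderHom.id : SimplexHom m m)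
  have e : (B.map (OrderHom.id : SimplexHom m m)).comp (f.app m) = f.app m :=
    RingHom.ext fun a => B.map_id m _
  rwa [e] at h

theorem isHom_const (A : SimplicialRing.{u}) (m : ℕ) :
    (dgN A).IsHom (dgC A m) (MooreDGA.map (A.const m)) (A.map (vert m 0)) where
  d := MooreDGA.map_bd _
  e := MooreDGA.map_sg _
  homogeneous h := MooreDGA.IsHomogeneous.map _ h
  inc a := by
    change MooreDGA.map _ (MooreDGA.inc _) = MooreDGA.inc _
    rw [MooreDGA.map_inc]
    congr 1
    refine Subtype.ext (funext fun r => funext fun α => funext fun γ => ?_)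
    change A.map γ a = A.map α (A.map (vert m 0) a)
    rw [SimplicialRing.map_comp]
    congr 2
    ext b
    simp
  ev _ := rfl

theorem isHom_vtx (A : SimplicialRing.{u}) (m : ℕ) :
    (dgC A m).IsHom (dgN A) (MooreDGA.map (A.vtx m)) (A.map (vert 0 0)) where
  d := MooreDGA.map_bd _
  e := MooreDGA.map_sg _
  homogeneous h := MooreDGA.IsHomogeneous.map _ h
  inc a := by
    change MooreDGA.map _ (MooreDGA.inc _) = MooreDGA.inc _
    rw [MooreDGA.map_inc]
    rfl
  ev x := by
    change A.map (vert 0 0) ((x.1 0).1 m OrderHom.id (vert m 0)) =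
      (x.1 0).1 0 (vert 0 0) OrderHom.id
    rw [(x.1 0).2 (vert 0 0)]
    have e : (vert m 0 : SimplexHom m 0).comp (vert 0 0 : SimplexHom 0 m) = OrderHom.id := by
      ext a
      simp
    rw [e]
    rfl

/-- The simplicial abelian group `m ↦ MooreDGA (A^{Δ^m})`. -/
@[reducible] def cotN (A : SimplicialRing.{u}) : SimplicialAb.{u} where
  obj m := MooreDGA (A.cotensor m)
  map θ := (A.rs θ).toAddMonoidHom
  map_id := A.rs_id
  map_comp θ η := A.rs_rs η θ

/-- Vectors of homogeneous chains, with prescribed zeros `z` and with the entries `κ` in the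
kernel of `f`. -/
def piSub (f : A.Hom B) {ι : Type u} (dg : ι → ℤ) (z κ : ι → Prop) : (SimplicialAb.pi ι A.cotN).Sub where
  S k :=
    { carrier := {x | ∀ i, MooreDGA.IsHomogeneous (dg i) (x i) ∧ (z i → x i = 0) ∧ (κ i → f.nc k (x i) = 0)}
      add_mem' := fun {x y} hx hy i => ⟨MooreDGA.hg_add (hx i).1 (hy i).1,
        fun h => by rw [Pi.add_apply, (hx i).2.1 h, (hy i).2.1 h, add_zero],
        fun h => by rw [Pi.add_apply, map_add, (hx i).2.2 h, (hy i).2.2 h, add_zero]⟩
      zero_mem' := fun i => ⟨MooreDGA.hg_zero _, fun _ => rfl, fun _ => map_zero _⟩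
      neg_mem' := fun {x} hx i => ⟨MooreDGA.hg_neg (hx i).1,
        fun h => by rw [Pi.neg_apply, (hx i).2.1 h, neg_zero],
        fun h => by rw [Pi.neg_apply, map_neg, (hx i).2.2 h, neg_zero]⟩ }
  map θ x hx i := ⟨(hx i).1.map _,
    fun h => (congrArg (A.rs θ) ((hx i).2.1 h)).trans (map_zero _),
    fun h => (nc_rs f θ (x i)).trans ((congrArg (B.rs θ) ((hx i).2.2 h)).trans (map_zero _))⟩

theorem mem_piSub (f : A.Hom B) {ι : Type u} (dg : ι → ℤ) (z κ : ι → Prop) (k : ℕ)
    (x : ι → MooreDGA (A.cotensor k)) : x ∈ (piSub f dg z κ).S k ↔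
      ∀ i, MooreDGA.IsHomogeneous (dg i) (x i) ∧ (z i → x i = 0) ∧ (κ i → f.nc k (x i) = 0) := Iff.rfl

theorem c1_cut_mono {r q : ℕ} (c : SimplexHom r 1) (γ : SimplexHom r q) :
    Monotone (fun a => if c a = 1 then γ a else 0) := by
  intro a b hab
  dsimp only
  split_ifs with h1 h2 h2
  · exact γ.monotone hab
  · have h3 := c.monotone hab
    rw [h1] at h3
    exact absurd (le_antisymm (Fin.le_last _) h3) h2
  · exact Fin.zero_le _
  · exact le_rfl

/-- The simplex `γ` cut by `c`. -/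
def c1Cut {r q : ℕ} (c : SimplexHom r 1) (γ : SimplexHom r q) : SimplexHom r q :=
  ⟨fun a => if c a = 1 then γ a else 0, c1_cut_mono c γ⟩

theorem c1_cut_based {r q q' : ℕ} (c : SimplexHom r 1) (γ : SimplexHom r q') (θ : SimplexHom q' q) (h : θ 0 = 0) :
    θ.comp (c1Cut c γ) = c1Cut c (θ.comp γ) := by
  ext a
  change ((θ (if c a = 1 then γ a else 0) : Fin (q + 1)) : ℕ) =
    ((if c a = 1 then θ (γ a) else 0 : Fin (q + 1)) : ℕ)
  split_ifs
  · rfl
  · rw [h]

theorem c1_cut_mem (A : SimplicialRing.{u}) {k q : ℕ} (χ : SimplexHom k 1) (x : A.cotensorSubring k q) :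
    (fun r (α : SimplexHom r k) (γ : SimplexHom r q) => x.1 r α (c1Cut (χ.comp α) γ)) ∈ A.cotensorSubring k q :=
  fun η α _ => x.2 η α _

/-- The contraction on the level of based maps. -/
def c1Hom (A : SimplicialRing.{u}) {k : ℕ} (χ : SimplexHom k 1) : BasedHom (A.cotensor k) (A.cotensor k) where
  app q :=
    { toFun := fun x => ⟨_, c1_cut_mem A χ x⟩
      map_one' := rfl
      map_mul' := fun _ _ => rfl
      map_zero' := rfl
      map_add' := fun _ _ => rfl }
  nat θ h x := by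
    refine Subtype.ext (funext fun r => funext fun α => funext fun γ => ?_)
    change x.1 r α (θ.comp (c1Cut (χ.comp α) γ)) = x.1 r α (c1Cut (χ.comp α) (θ.comp γ))
    rw [c1_cut_based _ _ _ h]

/-- The contraction on Moore chains. -/
def c1H (A : SimplicialRing.{u}) {k : ℕ} (χ : SimplexHom k 1) : MooreDGA (A.cotensor k) →+ MooreDGA (A.cotensor k) :=
  AddMonoidHom.mk' (fun x => ⟨(c1Hom A χ).chart x.1, Chains.IsMoore.map _ x.2⟩) (fun _ _ => rfl)

theorem c1H_hg (A : SimplicialRing.{u}) {k : ℕ} (χ : SimplexHom k 1) {d : ℤ} {x : MooreDGA (A.cotensor k)} (h : MooreDGA.IsHomogeneous d x) :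
    MooreDGA.IsHomogeneous d (c1H A χ x) := fun n hn => by
  change (c1Hom A χ).app n (x.1 n) = 0
  rw [h n hn, map_zero]

theorem c1H_rs (A : SimplicialRing.{u}) {l k : ℕ} (θ : SimplexHom l k) (χ : SimplexHom k 1) (x : MooreDGA (A.cotensor k)) :
    A.rs θ (c1H A χ x) = c1H A (χ.comp θ) (A.rs θ x) := rfl

theorem c1H_nc (f : A.Hom B) {k : ℕ} (χ : SimplexHom k 1) (x : MooreDGA (A.cotensor k)) :
    f.nc k (c1H A χ x) = c1H B χ (f.nc k x) := rfl

theorem c1H_one (A : SimplicialRing.{u}) {k : ℕ} (x : MooreDGA (A.cotensor k)) : c1H A (vert k 1) x = x := by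
  refine MooreDGA.ext' fun n => Subtype.ext (funext fun r => funext fun α => funext fun γ => ?_)
  change (x.1 n).1 r α (c1Cut ((vert k 1).comp α) γ) = (x.1 n).1 r α γ
  congr 1

theorem c1H_zero (A : SimplicialRing.{u}) {k : ℕ} (x : MooreDGA (A.cotensor k)) (h : x.1 0 = 0) :
    c1H A (vert k 0) x = 0 := by
  refine MooreDGA.ext' fun n => ?_
  cases n with
  | zero =>
    change (c1Hom A (vert k 0)).app 0 (x.1 0) = 0
    rw [h, map_zero]
  | succ n =>
    refine Subtype.ext (funext fun r => funext fun α => funext fun γ => ?_)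
    change (x.1 (n + 1)).1 r α (c1Cut ((vert k 0).comp α) γ) = 0
    have h1 := Chains.mo_iff.1 x.2 n 0
    have h2 : (x.1 (n + 1)).1 r α ((face (Fin.succ 0)).comp (vert r 0)) = 0 :=
      congrFun (congrFun (congrFun (congrArg Subtype.val h1) r) α) (vert r 0)
    rw [← h2]
    congr 1

/-- Chains of nonzero degree form an acyclic simplicial abelian group. -/
theorem piSub_ac (f : A.Hom B) {ι : Type u} (dg : ι → ℤ) (z κ : ι → Prop)
    (h : ∀ i, dg i = 0 → z i) : (piSub f dg z κ).Ac := by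
  refine SimplicialAb.Sub.ac_of_homotopy _
    (fun n χ => AddMonoidHom.mk' (fun x i => c1H A χ (x i))
      (fun x y => funext fun i => map_add (c1H A χ) (x i) (y i))) ?_ ?_ ?_ ?_
  · intro n i χ x
    rfl
  · intro n χ x hx i
    refine ⟨c1H_hg A χ (hx i).1, fun hz => ?_, fun hk => ?_⟩
    · exact (congrArg (c1H A χ) ((hx i).2.1 hz)).trans (map_zero _)
    · exact (c1H_nc f χ (x i)).trans ((congrArg (c1H B χ) ((hx i).2.2 hk)).trans (map_zero _))
  · intro n x hx
    funext i
    refine c1H_zero A (x i) ?_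
    by_cases hd : dg i = 0
    · rw [(hx i).2.1 (h i hd)]
      rfl
    · exact (hx i).1 0 (fun e => hd e.symm)
  · intro n x _
    funext i
    exact c1H_one A (x i)

/-- Families of chains of nonzero degree over the boundary extend. -/
theorem chain_extend (f : A.Hom B) {ι : Type u} (dg : ι → ℤ) (z κ : ι → Prop)
    (h : ∀ i, dg i = 0 → z i) {M : ℕ} (x : ∀ k, Bdy k M → ι → MooreDGA (A.cotensor k))
    (hx : ∀ k θ i, MooreDGA.IsHomogeneous (dg i) (x k θ i) ∧ (z i → x k θ i = 0) ∧ (κ i → f.nc k (x k θ i) = 0))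
    (nat : ∀ {l k : ℕ} (θ : Bdy k M) (η : SimplexHom l k) (i : ι),
      A.rs η (x k θ i) = x l (θ.comp η) i) :
    ∃ y : ι → MooreDGA (A.cotensor M), (∀ i, MooreDGA.IsHomogeneous (dg i) (y i) ∧ (z i → y i = 0) ∧ (κ i → f.nc M (y i) = 0)) ∧
      ∀ k (θ : Bdy k M) i, A.rs θ.1 (y i) = x k θ i := by
  obtain ⟨y, hy, hy'⟩ := (piSub_ac f dg z κ h).extend x hx
    (fun θ η => funext fun i => nat θ η i)
  exact ⟨y, hy, fun k θ i => congrFun (hy' k θ) i⟩

/-- The ideal of chains that vanish on the boundary of `Δ^M`. -/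
def bdI (A : SimplicialRing.{u}) (M : ℕ) : TwoSidedIdeal (MooreDGA (A.cotensor M)) :=
  ⨅ k, ⨅ θ : Bdy k M, TwoSidedIdeal.ker (A.rs θ.1)

theorem mem_bdI (A : SimplicialRing.{u}) (M : ℕ) (x : MooreDGA (A.cotensor M)) :
    x ∈ A.bdI M ↔ ∀ k (θ : Bdy k M), A.rs θ.1 x = 0 := by
  simp only [bdI, TwoSidedIdeal.mem_iInf, TwoSidedIdeal.mem_ker]

theorem di_bdI (A : SimplicialRing.{u}) (M : ℕ) : (dgC A M).DI (A.bdI M) := by
  constructor
  · intro x hx
    rw [mem_bdI] at hx ⊢
    intro k θ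
    change A.rs θ.1 (MooreDGA.boundary x) = 0
    rw [MooreDGA.map_bd, hx k θ, map_zero]
  · intro x hx
    rw [mem_bdI] at hx ⊢
    intro k θ
    change A.rs θ.1 (MooreDGA.sign x) = 0
    rw [MooreDGA.map_sg, hx k θ, map_zero]

end SimplicialRing

theorem RingDiagram.res_refl {J : Type u} [Preorder J] (A : RingDiagram J) (j : J) :
    A.res (le_refl j) = SimplicialRing.Hom.id _ := SimplicialRing.Hom.ext (A.res_id j)

end Pool.Agent.P.MP_932208_ag
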