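import Pool.Agent.P.MP_932208_ag.CotL1

/-!
Saturation, generators and the exactness of the Koszul kernel over simplices.
-/

namespace Pool.Agent.P.MP_932208_ag

universe u

namespace SimplicialRing
variable {A B : SimplicialRing.{u}} {f : A.Hom B}

theorem c2_op0 {n : ℕ} (θ η : SimplexHom 0 n) (h : θ 0 = η 0) : θ = η := by
  ext i; rw [Fin.fin_one_eq_zero i, h]

theorem c2_op00 (θ : SimplexHom 0 0) : θ = OrderHom.id := c2_op0 _ _ (Fin.fin_one_eq_zero _)

theorem c2_map00 (A : SimplicialRing.{u}) (θ : SimplexHom 0 0) (a : A.obj 0) : A.map θ a = a := by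
  rw [c2_op00 θ, A.map_id]

/-- The underlying map of simplicial abelian groups. -/
def c2_ab (f : A.Hom B) : A.ab.Hom B.ab where
  app n := (f.app n).toAddMonoidHom
  nat := f.nat

theorem c2_moore_zero (A : SimplicialRing.{u}) (n : ℕ) : A.ab.Moore (0 : A.obj n) := by
  cases n with
  | zero => trivial
  | succ n => exact fun i => map_zero _

/-- The chain with a single component. -/
def c2_single (k : ℕ) (a : A.obj k) (ha : A.ab.Moore a) : MooreDGA A :=
  ⟨(Pi.single k a : ∀ n, A.obj n), fun n => by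
    by_cases h : n = k
    · subst h
      rwa [Pi.single_eq_same]
    · rw [Pi.single_eq_of_ne h]
      exact c2_moore_zero A n⟩

theorem c2_single_same (k : ℕ) (a : A.obj k) (ha : A.ab.Moore a) :
    (c2_single k a ha).1 k = a := Pi.single_eq_same (M := fun n => A.obj n) k a

theorem c2_single_hg (k : ℕ) (a : A.obj k) (ha : A.ab.Moore a) :
    MooreDGA.IsHomogeneous k (c2_single k a ha) := fun n hn =>
  Pi.single_eq_of_ne (M := fun n => A.obj n) (fun h => hn (by rw [h])) a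

theorem c2_hg_ext {k : ℕ} {x y : MooreDGA A} (hx : MooreDGA.IsHomogeneous k x) (hy : MooreDGA.IsHomogeneous k y) (h : x.1 k = y.1 k) :
    x = y := MooreDGA.ext' fun n => by
  by_cases e : n = k
  · subst e; exact h
  · have : (n : ℤ) ≠ k := fun h => e (by exact_mod_cast h)
    rw [hx n this, hy n this]

theorem c2_hg_succ {k : ℕ} {x : MooreDGA A} (h : MooreDGA.IsHomogeneous ((k + 1 : ℕ) : ℤ) x) : MooreDGA.IsHomogeneous ((k : ℤ) + 1) x := h

theorem c2_hg_bd {k : ℕ} {x : MooreDGA A} (h : MooreDGA.IsHomogeneous ((k : ℤ) + 1) x) : MooreDGA.IsHomogeneous k (MooreDGA.boundary x) := by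
  simpa using MooreDGA.hg_bd h

theorem c2_hg_mul_inc {k : ℤ} {x : MooreDGA A} (h : MooreDGA.IsHomogeneous k x) (t : A.obj 0) : MooreDGA.IsHomogeneous k (x * MooreDGA.inc t) := by
  simpa using MooreDGA.hg_mul h (MooreDGA.hg_inc t)

theorem c2_mul_inc (x : MooreDGA A) (t : A.obj 0) (n : ℕ) :
    (x * MooreDGA.inc t).1 n = x.1 n * A.map (vert n 0) t :=
  (Chains.sh_deg0_right n A t x.1).trans (mul_comm _ _)

theorem c2_sph {x : MooreDGA A} (h : MooreDGA.boundary x = 0) (n : ℕ) : A.ab.IsSpherical (x.1 n) := by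
  cases n with
  | zero => trivial
  | succ n =>
    intro i
    rcases Fin.eq_zero_or_eq_succ i with rfl | ⟨i, rfl⟩
    · exact congrArg (fun z : MooreDGA A => z.1 n) h
    · exact x.2 (n + 1) i

theorem c2_bd_single {n : ℕ} {a : A.obj n} (h : A.ab.IsSpherical a) :
    MooreDGA.boundary (c2_single n a h.moore) = 0 := by
  cases n with
  | zero => exact MooreDGA.eq_zero_of_neg (by norm_num) (MooreDGA.hg_bd (c2_single_hg 0 a _))
  | succ n =>
    refine c2_hg_ext (c2_hg_bd (c2_hg_succ (c2_single_hg _ a _))) (MooreDGA.hg_zero _) ?_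
    change A.map (face 0) ((c2_single (n + 1) a h.moore).1 (n + 1)) = 0
    rw [c2_single_same]
    exact h 0

theorem c2_ker_moore {n : ℕ} (x : f.ker.obj n) : f.ker.Moore x ↔ A.ab.Moore x.1 := by
  cases n with
  | zero => exact Iff.rfl
  | succ n => exact forall_congr' fun i => Subtype.ext_iff

theorem c2_ker_sph {n : ℕ} (x : f.ker.obj n) : f.ker.IsSpherical x ↔ A.ab.IsSpherical x.1 := by
  cases n with
  | zero => exact Iff.rfl
  | succ n => exact forall_congr' fun i => Subtype.ext_iff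

theorem c2_J_iff (a : A.obj 0) : a ∈ (dgN A).J ↔ A.ab.IsBoundary a := by
  constructor
  · rintro ⟨x, -, rfl⟩
    exact ⟨x.1 1, x.2 1, rfl⟩
  · rintro ⟨z, hz, rfl⟩
    refine ⟨c2_single 1 z hz, c2_single_hg 1 z hz, ?_⟩
    change A.map (face 0) ((c2_single 1 z hz).1 1) = _
    rw [c2_single_same]; rfl

theorem c2_JC_iff {m : ℕ} (a : A.obj m) : a ∈ (dgC A m).J ↔ (A.cotensor m).ab.IsBoundary (A.yonedaVertex m a) := by
  rw [← c2_J_iff]
  constructor
  · rintro ⟨x, hx, rfl⟩
    exact ⟨x, hx, (A.lev_unlev m _).symm⟩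
  · rintro ⟨x, hx, e⟩
    refine ⟨x, hx, ?_⟩
    change A.unlev m (MooreDGA.ev (MooreDGA.boundary x)) = a
    have e' : MooreDGA.ev (MooreDGA.boundary x) = A.yonedaVertex m a := e
    rw [e', A.unlev_lev]

theorem c2_cut_mono {r m : ℕ} (χ : SimplexHom r 1) (α : SimplexHom r m) :
    Monotone (fun a => if χ a = 1 then α a else 0) := by
  intro a b hab
  dsimp only
  split_ifs with h1 h2
  · exact α.monotone hab
  · have h3 := χ.monotone hab
    rw [h1] at h3
    exact absurd (le_antisymm (Fin.le_last _) h3) h2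
  · exact Fin.zero_le _
  · exact le_rfl

/-- `α` where `χ = 1` and `0` elsewhere. -/
def c2_cut {r m : ℕ} (χ : SimplexHom r 1) (α : SimplexHom r m) : SimplexHom r m := ⟨_, c2_cut_mono χ α⟩

theorem c2_H_mem (A : SimplicialRing.{u}) {m n : ℕ} (χ : SimplexHom n 1) (x : A.cotensorSubring m n) :
    (fun r (α : SimplexHom r m) (γ : SimplexHom r n) => x.1 r (c2_cut (χ.comp γ) α) γ) ∈ A.cotensorSubring m n :=
  fun θ _ _ => x.2 θ _ _

/-- Additive endomorphisms of the `n`-simplices. -/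
abbrev c2_End (C : SimplicialRing.{u}) (n : ℕ) : Type u := C.obj n →+ C.obj n

/-- Constructor for additive endomorphisms. -/
def c2_mk (C : SimplicialRing.{u}) {n : ℕ} (g : C.obj n → C.obj n) (h : ∀ x y, g (x + y) = g x + g y) :
    c2_End C n := AddMonoidHom.mk' g h

/-- The contraction of `Δ^m` onto the vertex `0`. -/
def c2_H (A : SimplicialRing.{u}) (m n : ℕ) (χ : SimplexHom n 1) :
    c2_End (A.cotensor m) n :=
  c2_mk (A.cotensor m) (fun x => ⟨_, A.c2_H_mem χ x⟩) (fun _ _ => Subtype.ext rfl)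

theorem c2_H_apply (A : SimplicialRing.{u}) (m n : ℕ) (χ : SimplexHom n 1) (x : A.cotensorSubring m n) (r : ℕ) (α : SimplexHom r m)
    (γ : SimplexHom r n) : (A.c2_H m n χ x).1 r α γ = x.1 r (c2_cut (χ.comp γ) α) γ := rfl

theorem c2_H_nat (A : SimplicialRing.{u}) (m : ℕ) {k n : ℕ} (θ : SimplexHom k n) (χ : SimplexHom n 1) (x : A.cotensorSubring m n) :
    (A.cotensor m).map θ (A.c2_H m n χ x) = A.c2_H m k (χ.comp θ) ((A.cotensor m).map θ x) :=
  Subtype.ext (funext fun _ => funext fun _ => funext fun _ => rfl)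

theorem c2_H_one (A : SimplicialRing.{u}) (m n : ℕ) (x : (A.cotensor m).obj n) :
    A.c2_H m n (vert n 1) x = x :=
  Subtype.ext (funext fun r => funext fun α => funext fun γ => by
    have : c2_cut ((vert n (1 : Fin 2)).comp γ) α = α := by ext a; simp [c2_cut, vert]
    rw [c2_H_apply, this])

theorem c2_H_zero (A : SimplicialRing.{u}) (m n : ℕ) (x : (A.cotensor m).obj n) :
    A.c2_H m n (vert n 0) x = (A.const m).app n ((A.vtx m).app n x) :=
  Subtype.ext (funext fun r => funext fun α => funext fun γ => by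
    have : c2_cut ((vert n (0 : Fin 2)).comp γ) α = (vert n 0).comp γ := by
      ext a; simp [c2_cut, vert]
    rw [c2_H_apply, this]
    exact (x.2 γ (vert n 0) OrderHom.id).symm)

theorem c2_vtx_const (A : SimplicialRing.{u}) (m n : ℕ) (y : A.obj n) :
    (A.vtx m).app n ((A.const m).app n y) = y := A.map_id n y

theorem c2_vtx_we (A : SimplicialRing.{u}) (m : ℕ) : (c2_ab (A.vtx m)).IsWeakEquiv := by
  refine SimplicialAb.Hom.we_of_section _ (fun n => ((A.const m).app n).toAddMonoidHom)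
    (fun n i y => ((A.const m).nat _ y).symm) (A.c2_vtx_const m) fun n x hx => ?_
  have h := SimplicialAb.prism (X := (A.cotensor m).ab) (Y := (A.cotensor m).ab) (A.c2_H m)
    (fun _ _ χ x => A.c2_H_nat m _ χ x) hx
  rw [c2_H_one, c2_H_zero] at h
  have h' := h.neg
  rwa [neg_sub] at h'

theorem c2_ker_iff (f : A.Hom B) (m n : ℕ) (x : (A.cotensor m).obj n) :
    (cotensorHom f (OrderHom.id : SimplexHom m m)).app n x = 0 ↔ ∀ r α γ, f.app r (x.1 r α γ) = 0 :=
  ⟨fun h r α γ => congrArg (fun z : (B.cotensor m).obj n => z.1 r α γ) h,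
    fun h => Subtype.ext (funext fun r => funext fun α => funext fun γ => h r α γ)⟩

/-- A map of kernels given by additive maps. -/
def c2_kerAdd {A' B' : SimplicialRing.{u}} (f : A.Hom B) (g : A'.Hom B') {n k : ℕ}
    (φ : A.obj n →+ A'.obj k) (h : ∀ x, f.app n x = 0 → g.app k (φ x) = 0) :
    f.ker.obj n →+ g.ker.obj k :=
  AddMonoidHom.mk' (fun x => ⟨φ x.1, h x.1 x.2⟩) (fun x y => Subtype.ext (map_add φ x.1 y.1))

/-- A map of kernels given by a map of simplicial rings. -/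
def c2_kerHom {A' B' : SimplicialRing.{u}} (f : A.Hom B) (g : A'.Hom B') (p : A.Hom A')
    (h : ∀ n x, f.app n x = 0 → g.app n (p.app n x) = 0) : f.ker.Hom g.ker where
  app n := c2_kerAdd f g (p.app n).toAddMonoidHom (h n)
  nat θ x := Subtype.ext (p.nat θ x.1)

theorem c2_vtx_mem (f : A.Hom B) (m n : ℕ) (x : (A.cotensor m).obj n)
    (hx : (cotensorHom f (OrderHom.id : SimplexHom m m)).app n x = 0) : f.app n ((A.vtx m).app n x) = 0 :=
  (c2_ker_iff f m n x).1 hx n (vert n 0) OrderHom.id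

/-- The vertex map on kernels. -/
def c2_vtxK (f : A.Hom B) (m : ℕ) : (cotensorHom f (OrderHom.id : SimplexHom m m)).ker.Hom f.ker :=
  c2_kerHom _ f (A.vtx m) (c2_vtx_mem f m)

theorem c2_const_mem (f : A.Hom B) (m n : ℕ) (y : A.obj n) (h : f.app n y = 0) :
    (cotensorHom f (OrderHom.id : SimplexHom m m)).app n ((A.const m).app n y) = 0 :=
  (c2_ker_iff f m n _).2 fun r _ γ => by
    change f.app r (A.map γ y) = 0
    rw [f.nat, h, map_zero]

theorem c2_H_ker (f : A.Hom B) (m n : ℕ) (χ : SimplexHom n 1) (x : (A.cotensor m).obj n)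
    (hx : (cotensorHom f (OrderHom.id : SimplexHom m m)).app n x = 0) :
    (cotensorHom f (OrderHom.id : SimplexHom m m)).app n (A.c2_H m n χ x) = 0 :=
  (c2_ker_iff f m n _).2 fun r _ γ => (c2_ker_iff f m n x).1 hx r _ γ

/-- A deformation retraction restricts to kernels. -/
theorem c2_ker_we {A' B' : SimplicialRing.{u}} (f : A.Hom B) (g : A'.Hom B') (p : A.Hom A') (s : A'.Hom A)
    (hp : ∀ n x, f.app n x = 0 → g.app n (p.app n x) = 0)
    (hs : ∀ n y, g.app n y = 0 → f.app n (s.app n y) = 0)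
    (ps : ∀ n y, p.app n (s.app n y) = y) (H : ∀ n, SimplexHom n 1 → A.obj n →+ A.obj n)
    (hH : ∀ n χ x, f.app n x = 0 → f.app n (H n χ x) = 0)
    (nat : ∀ n (i : Fin (n + 2)) (χ : SimplexHom (n + 1) 1) (x : A.obj (n + 1)),
      A.map (face i) (H (n + 1) χ x) = H n (χ.comp (face i)) (A.map (face i) x))
    (h0 : ∀ n x, H n (vert n 0) x = s.app n (p.app n x)) (h1 : ∀ n x, H n (vert n 1) x = x) :
    (c2_kerHom f g p hp).IsWeakEquiv := by
  refine SimplicialAb.Hom.we_of_section _ (fun n => c2_kerAdd g f (s.app n).toAddMonoidHom (hs n))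
    (fun n i y => Subtype.ext (s.nat _ y.1).symm)
    (fun n y => Subtype.ext (ps n y.1)) fun n x hx => ?_
  have h := SimplicialAb.prism (X := f.ker) (Y := f.ker) (fun n χ => c2_kerAdd f f _ (hH n χ))
    (fun n i χ x => Subtype.ext (nat n i χ x.1)) hx
  have h' := h.neg
  rw [neg_sub] at h'
  convert h' using 2
  · exact Subtype.ext (h1 n x.1).symm
  · exact Subtype.ext (h0 n x.1).symm

theorem c2_vtxK_we (f : A.Hom B) (m : ℕ) : (c2_vtxK f m).IsWeakEquiv :=
  c2_ker_we _ f (A.vtx m) (A.const m) _ (c2_const_mem f m) (A.c2_vtx_const m)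
    (A.c2_H m) (c2_H_ker f m) (fun _ _ χ x => A.c2_H_nat m _ χ x) (A.c2_H_zero m) (A.c2_H_one m)

theorem c2_we_of_eq {X Y : SimplicialAb.{u}} {g g' : X.Hom Y} (h : ∀ n x, g.app n x = g'.app n x)
    (homogeneous : g.IsWeakEquiv) : g'.IsWeakEquiv :=
  homogeneous.congr fun n x _ => by rw [h, sub_self]; exact Y.bd_zero n

theorem c2_we_cast {t t' : A.obj 0} (e : t = t') (h : f.app 0 t = 0) (h' : f.app 0 t' = 0)
    (we : (f.mulBy t h).IsWeakEquiv) : (f.mulBy t' h').IsWeakEquiv := by subst e; exact we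

theorem c2_vert_ker {n : ℕ} {t : A.obj n} (h : f.app n t = 0) {k : ℕ} (θ : SimplexHom k n) :
    f.app k (A.map θ t) = 0 := by rw [f.nat, h, map_zero]

theorem c2_keN {t : A.obj 0} (h : f.app 0 t = 0) (we : (f.mulBy t h).IsWeakEquiv) :
    (dgN A).KE (MooreDGA.map f) t := by
  have ft : MooreDGA.map f (MooreDGA.inc t) = 0 := by rw [MooreDGA.map_inc, h, map_zero]
  have hS : ∀ (k : ℤ) (w : MooreDGA A), MooreDGA.IsHomogeneous k w → MooreDGA.map f w = 0 → MooreDGA.boundary w = 0 →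
      ∃ c z : MooreDGA A, MooreDGA.IsHomogeneous k c ∧ MooreDGA.boundary c = 0 ∧ MooreDGA.IsHomogeneous (k + 1) z ∧ MooreDGA.map f z = 0 ∧
        MooreDGA.boundary z = c * MooreDGA.inc t - w := by
    intro k w hw fw dw
    rcases lt_or_ge k 0 with hk | hk
    · refine ⟨0, 0, MooreDGA.hg_zero _, map_zero _, MooreDGA.hg_zero _, map_zero _, ?_⟩
      rw [MooreDGA.eq_zero_of_neg hk hw]; simp
    obtain ⟨n, rfl⟩ := Int.eq_ofNat_of_zero_le hk
    have hm : w.1 n ∈ RingHom.ker (f.app n) := congrArg (fun z : MooreDGA B => z.1 n) fw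
    obtain ⟨c, hc, z, hz, e⟩ := (we n).1 ⟨w.1 n, hm⟩ ((c2_ker_sph _).2 (c2_sph dw n))
    have hz' := (c2_ker_moore z).1 hz
    have gz := c2_hg_succ (c2_single_hg (n + 1) z.1 hz')
    refine ⟨c2_single n c hc.moore, c2_single (n + 1) z.1 hz', c2_single_hg _ _ _,
      c2_bd_single hc, gz, ?_, ?_⟩
    · refine c2_hg_ext ((c2_single_hg (n + 1) z.1 hz').map f) (MooreDGA.hg_zero _) ?_
      rw [MooreDGA.map_apply, c2_single_same]
      exact z.2
    · refine c2_hg_ext (c2_hg_bd gz)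
        ((dgN A).hg_sub (c2_hg_mul_inc (c2_single_hg _ _ _) t) hw) ?_
      change A.map (face 0) ((c2_single (n + 1) z.1 hz').1 (n + 1)) =
        (c2_single n c hc.moore * MooreDGA.inc t).1 n - w.1 n
      rw [c2_mul_inc, c2_single_same, c2_single_same]
      exact congrArg Subtype.val e
  have hI : ∀ (k : ℤ) (a y : MooreDGA A), MooreDGA.IsHomogeneous k a → MooreDGA.boundary a = 0 → MooreDGA.map f y = 0 →
      MooreDGA.boundary y = a * MooreDGA.inc t → ∃ b : MooreDGA A, MooreDGA.IsHomogeneous (k + 1) b ∧ MooreDGA.boundary b = a := by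
    intro k a y ha da fy dy
    rcases lt_or_ge k 0 with hk | hk
    · exact ⟨0, MooreDGA.hg_zero _, by rw [MooreDGA.eq_zero_of_neg hk ha, map_zero]⟩
    obtain ⟨n, rfl⟩ := Int.eq_ofNat_of_zero_le hk
    have hm : y.1 (n + 1) ∈ RingHom.ker (f.app (n + 1)) := congrArg (fun z : MooreDGA B => z.1 (n + 1)) fy
    obtain ⟨b, hb, e⟩ := (we n).2 (a.1 n) (c2_sph da n)
      ⟨⟨y.1 (n + 1), hm⟩, (c2_ker_moore _).2 (y.2 (n + 1)),
        Subtype.ext ((congrArg (fun z : MooreDGA A => z.1 n) dy).trans (c2_mul_inc a t n))⟩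
    have gb := c2_hg_succ (c2_single_hg (n + 1) b hb)
    refine ⟨c2_single (n + 1) b hb, gb, c2_hg_ext (c2_hg_bd gb) ha ?_⟩
    change A.map (face 0) ((c2_single (n + 1) b hb).1 (n + 1)) = _
    rw [c2_single_same]
    exact e
  refine ⟨ft, fun x hx => ?_, fun x hx => ?_, fun q y a hy ha fy dy da => ?_⟩
  · change MooreDGA.map f (MooreDGA.boundary x) = 0
    rw [MooreDGA.map_bd, hx, map_zero]
  · change MooreDGA.map f (MooreDGA.sign x) = 0
    rw [MooreDGA.map_sg, hx, map_zero]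
  · replace dy : MooreDGA.boundary y + MooreDGA.sign a * MooreDGA.inc t = 0 := dy
    replace da : MooreDGA.boundary a = 0 := da
    have dt : MooreDGA.boundary (MooreDGA.inc t) = 0 := (dgN A).d_inc t
    obtain ⟨b, hb, db⟩ := hI (q - 1) (MooreDGA.sign a) (-y) (MooreDGA.hg_sg ha)
      (by rw [MooreDGA.bd_sg, da, map_zero, neg_zero]) (by rw [map_neg, fy, neg_zero])
      (by rw [map_neg, neg_eq_iff_add_eq_zero]; exact dy)
    rw [sub_add_cancel] at hb
    obtain ⟨c, z, hc, dc, hz, fz, dz⟩ := hS q (y + b * MooreDGA.inc t)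
      (MooreDGA.hg_add hy (c2_hg_mul_inc hb t)) (by rw [map_add, map_mul, fy, ft, mul_zero, add_zero])
      (by rw [map_add, MooreDGA.bd_mul, dt, mul_zero, add_zero, db, dy])
    refine ⟨-z, MooreDGA.sign (c - b), MooreDGA.hg_neg hz, MooreDGA.hg_sg ((dgN A).hg_sub hc hb),
      by rw [map_neg, fz, neg_zero], ?_, ?_⟩
    · change MooreDGA.boundary (-z) + MooreDGA.sign (MooreDGA.sign (c - b)) * MooreDGA.inc t = y
      rw [map_neg, dz, MooreDGA.sg_sg, sub_mul]; abel
    · change MooreDGA.boundary (MooreDGA.sign (c - b)) = a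
      rw [MooreDGA.bd_sg, map_sub, dc, db, zero_sub, map_neg, neg_neg, MooreDGA.sg_sg]

theorem c2_we_add {t : A.obj 0} (h : f.app 0 t = 0) (P : A.obj 1) (fP : f.app 1 P = 0)
    (dP : A.map (face 1) P = 0) (h' : f.app 0 (t + A.map (face 0) P) = 0)
    (we : (f.mulBy t h).IsWeakEquiv) : (f.mulBy _ h').IsWeakEquiv := by
  set Q : A.obj 1 := A.map (vert 1 0) t + P with hQ
  have fQ : f.app 1 Q = 0 := by rw [hQ, map_add, fP, c2_vert_ker h, add_zero]
  have mem : ∀ n (χ : SimplexHom n 1) (a : A.obj n), a * A.map χ Q ∈ RingHom.ker (f.app n) :=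
    fun n χ a => by rw [RingHom.mem_ker, map_mul, c2_vert_ker fQ, mul_zero]
  refine we.congr fun n x hx => ?_
  have hp := SimplicialAb.prism (X := A.ab) (Y := f.ker)
    (fun n χ => AddMonoidHom.mk' (fun a => ⟨_, mem n χ a⟩)
      (fun a b => Subtype.ext (add_mul a b _)))
    (fun n i χ a => Subtype.ext (by
      change A.map (face i) (a * A.map χ Q) = A.map (face i) a * A.map (χ.comp (face i)) Q
      rw [map_mul, A.map_comp])) hx
  have e0 : (vert n 0 : SimplexHom n 1) = (face 1 : SimplexHom 0 1).comp (vert n 0) := by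
    ext a; rfl
  have e1 : (vert n 1 : SimplexHom n 1) = (face 0 : SimplexHom 0 1).comp (vert n 0) := by
    ext a; rfl
  convert hp using 2
  · refine Subtype.ext ?_
    change x * A.map (vert n 0) t = x * A.map (vert n 0) Q
    rw [e0, ← A.map_comp, hQ, map_add, dP, add_zero, A.map_comp (vert 1 0), c2_map00]
  · refine Subtype.ext ?_
    change x * A.map (vert n 0) (t + A.map (face 0) P) = x * A.map (vert n 1) Q
    rw [e1, ← A.map_comp, hQ, map_add (A.map (face 0)), A.map_comp (vert 1 0), c2_map00]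

theorem IsSaturated.dgC (h : A.IsSaturated) (m : ℕ) : (dgC A m).IsSaturated := by
  intro a ha
  have h1 : A.ab.IsBoundary (A.map (vert 0 0) a) := ((c2_JC_iff a).1 ha).map (c2_ab (A.vtx m))
  refine h m _ ⟨1, ?_⟩
  rwa [map_add, map_one, mul_one, add_sub_cancel_left]

theorem vertex_surjective (A : SimplicialRing.{u}) (m : ℕ) :
    Function.Surjective (A.map (vert 0 0 : SimplexHom 0 m)) := fun a =>
  ⟨A.map (vert m 0) a, by rw [A.map_comp, c2_map00]⟩

/-- The vertex map is injective on `π_0`. -/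
theorem mem_J_of_vertex (A : SimplicialRing.{u}) (m : ℕ) (a : A.obj m)
    (h : A.map (vert 0 0 : SimplexHom 0 m) a ∈ (dgN A).J) : a ∈ (dgC A m).J :=
  (c2_JC_iff a).2 ((A.c2_vtx_we m 0).2 (A.yonedaVertex m a) trivial ((c2_J_iff _).1 h))

/-- Homogeneous chains lift along a levelwise surjection. -/
theorem hg_lift (sj : ∀ n, Function.Surjective (f.app n)) (k : ℤ) (y : MooreDGA B) (hy : MooreDGA.IsHomogeneous k y) :
    ∃ x : MooreDGA A, MooreDGA.IsHomogeneous k x ∧ MooreDGA.map f x = y := by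
  rcases lt_or_ge k 0 with hk | hk
  · exact ⟨0, MooreDGA.hg_zero _, by rw [MooreDGA.eq_zero_of_neg hk hy, map_zero]⟩
  obtain ⟨n, rfl⟩ := Int.eq_ofNat_of_zero_le hk
  obtain ⟨x, hx, e⟩ := (c2_ab f).moore_lift sj (y.2 n)
  refine ⟨c2_single n x hx, c2_single_hg _ _ _, c2_hg_ext ((c2_single_hg _ _ _).map f) hy ?_⟩
  rw [MooreDGA.map_apply, c2_single_same]
  exact e

theorem Hom.IsGenerator.map {n : ℕ} {t : A.obj n} (ht : f.IsGenerator t) {k : ℕ} (θ : SimplexHom k n) :
    f.IsGenerator (A.map θ t) :=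
  ⟨c2_vert_ker ht.1 θ, fun a h =>
    c2_we_cast (A.map_comp θ (vert 0 a) t).symm (c2_vert_ker ht.1 _) h (ht.2 (θ a) _)⟩

theorem Hom.IsGenerator.keN {t : A.obj 0} (ht : f.IsGenerator t) : (dgN A).KE (MooreDGA.map f) t :=
  c2_keN ht.1 (c2_we_cast (A.c2_map00 _ t) (c2_vert_ker ht.1 _) ht.1 (ht.2 0 _))

theorem Hom.IsGenerator.keC {m : ℕ} {t : A.obj m} (ht : f.IsGenerator t) : (dgC A m).KE (f.nc m) t := by
  have h0 : (cotensorHom f (OrderHom.id : SimplexHom m m)).app 0 (A.yonedaVertex m t) = 0 :=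
    Subtype.ext (funext fun r => funext fun α => funext fun _ => c2_vert_ker ht.1 _)
  have we : ((cotensorHom f (OrderHom.id : SimplexHom m m)).mulBy (A.yonedaVertex m t) h0).IsWeakEquiv := by
    refine SimplicialAb.Hom.IsWeakEquiv.of_comp_right ?_ (c2_vtxK_we f m)
    refine c2_we_of_eq (fun n x => Subtype.ext ?_)
      ((ht.2 0 (c2_vert_ker ht.1 _)).comp (A.c2_vtx_we m))
    change (A.vtx m).app n x * A.map (vert n 0) (A.map (vert 0 0) t) =
      (A.vtx m).app n x * A.map (vert n 0) t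
    rw [A.map_comp]; rfl
  have h := c2_keN h0 we
  exact ⟨h.f_t, h.f_d, h.f_e, h.ex⟩

/-- A generator can be changed by a boundary. -/
theorem Hom.IsGenerator.add_bd {m : ℕ} {t : A.obj m} (ht : f.IsGenerator t) {p : MooreDGA (A.cotensor m)} (hp : MooreDGA.IsHomogeneous 1 p)
    (kp : f.nc m p = 0) : f.IsGenerator (t + (dgC A m).ev (MooreDGA.boundary p)) := by
  have k1 : ∀ r (α : SimplexHom r m) (γ : SimplexHom r 1), f.app r ((p.1 1).1 r α γ) = 0 := fun r α γ =>
    congrArg (fun z : MooreDGA (B.cotensor m) => (z.1 1).1 r α γ) kp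
  have e : (dgC A m).ev (MooreDGA.boundary p) = (p.1 1).1 m OrderHom.id ((face 0 : SimplexHom 0 1).comp (vert m 0)) :=
    rfl
  have _ := hp
  refine ⟨by rw [Kills, map_add, ht.1, e, k1, add_zero], fun a h => ?_⟩
  have d1 : A.map (face 1) ((p.1 1).1 1 (vert 1 a) OrderHom.id) = 0 := by
    rw [(p.1 1).2]
    exact congrArg (fun z : A.cotensorSubring m 0 => z.1 0 (vert 0 a) OrderHom.id) (p.2 1 0)
  have e2 : A.map (vert 0 a) t + A.map (face 0) ((p.1 1).1 1 (vert 1 a) OrderHom.id) =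
      A.map (vert 0 a) (t + (dgC A m).ev (MooreDGA.boundary p)) := by
    rw [map_add, e, (p.1 1).2, (p.1 1).2]
    rw [c2_op0 ((vert 1 a).comp (face 0)) (OrderHom.id.comp (vert 0 a)) rfl,
      c2_op0 (OrderHom.id.comp (face 0))
        (((face 0 : SimplexHom 0 1).comp (vert m 0)).comp (vert 0 a)) rfl]
  exact c2_we_cast e2 (e2 ▸ h) h
    (c2_we_add (c2_vert_ker ht.1 _) _ (k1 _ _ _) d1 _ (ht.2 a _))

theorem Hom.IsGenerator.unit_mul {m : ℕ} {t v : A.obj m} (ht : f.IsGenerator t) (hv : IsUnit v) :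
    f.IsGenerator (v * t) := by
  refine ⟨by rw [Kills, map_mul, ht.1, mul_zero], fun a h => ?_⟩
  let g : A.ab.Hom A.ab :=
    { app := fun n => AddMonoidHom.mk' (fun x => x * A.map (vert n 0) (A.map (vert 0 a) v))
        (fun x y => add_mul x y _)
      nat := fun θ x => Hom.mul_nat _ θ x }
  have homogeneous : g.IsWeakEquiv := g.we_of_bij fun n =>
    ((hv.map (A.map (vert 0 a))).map (A.map (vert n 0))).unit.mulRight.bijective
  refine c2_we_of_eq (fun n x => Subtype.ext ?_) ((ht.2 a (c2_vert_ker ht.1 _)).comp homogeneous)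
  change x * A.map (vert n 0) (A.map (vert 0 a) v) * A.map (vert n 0) (A.map (vert 0 a) t) =
    x * A.map (vert n 0) (A.map (vert 0 a) (v * t))
  rw [map_mul, map_mul, mul_assoc]

theorem Hom.IsGenerator.isUnit (sat : A.IsSaturated) {m : ℕ} {t v : A.obj m} (ht : f.IsGenerator t)
    (hv : f.IsGenerator (v * t)) : IsUnit v := by
  have h0 : f.app 0 (A.map (vert 0 0) t) = 0 := c2_vert_ker ht.1 _
  obtain ⟨b, -, hb⟩ := (hv.2 0 (c2_vert_ker hv.1 _) 0).1 ⟨_, h0⟩ trivial
  refine sat m v ⟨b, (ht.2 0 h0 0).2 _ trivial ?_⟩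
  convert hb using 1
  refine Subtype.ext ?_
  change (A.map (vert 0 0) v * b - 1) * A.map (vert 0 0) (A.map (vert 0 0) t) =
    b * A.map (vert 0 0) (A.map (vert 0 0) (v * t)) - A.map (vert 0 0) t
  rw [c2_map00, c2_map00, map_mul]; ring

end SimplicialRing

end Pool.Agent.P.MP_932208_ag
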