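import Pool.Agent.P.MP_932208_ag.DetL

/-!
The determinant line bundle of a perfect complex of rank zero, and the line bundles `O(lZ)`.
-/

namespace Pool.Agent.P.MP_932208_ag

open Classical

universe u

variable {J : Type u} [Preorder J] {A B : RingDiagram J}

namespace Strictification
variable {G : PerfectComplex A} {i j : J} {k n k' m : ℕ}

theorem map_ok (h : i ≤ j) (θ : SimplexHom k n) (θ' : SimplexHom k' m) (x : Strictification G i n m) :
    IsStrictification G (mapChain θ x) (map_le h θ x) (mapBasis h θ θ' x) (mapDiff h θ θ' x) :=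
  ⟨map_hg h θ θ' x, map_one h θ θ' x, map_tri h θ θ' x, map_strict h θ θ' x, map_exact h θ θ' x⟩

/-- Restriction of a strictification to a face of the chain, a face of `Δ^m` and a chart. -/
def map (h : i ≤ j) (θ : SimplexHom k n) (θ' : SimplexHom k' m) (x : Strictification G i n m) : Strictification G j k k' where
  c := mapChain θ x
  le := map_le h θ x
  φ := mapBasis h θ θ' x
  d := mapDiff h θ θ' x
  ok := map_ok h θ θ' x

theorem map_id (i : J) (n m : ℕ) (x : Strictification G i n m) :
    map (le_refl i) OrderHom.id OrderHom.id x = x := by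
  cases x
  unfold map mapBasis mapDiff
  congr 1
  · ext s r : 2
    simp only [Matrix.of_apply, RingDiagram.cotHom_id, MooreDGA.map_id]; rfl
  · ext s r : 2
    simp only [Matrix.of_apply, RingDiagram.tr_id]; rfl

theorem map_comp {i j l : J} (h : i ≤ j) (h' : j ≤ l) {n₀ n₁ n₂ m₀ m₁ m₂ : ℕ}
    (θ : SimplexHom n₁ n₀) (η : SimplexHom n₂ n₁) (θ' : SimplexHom m₁ m₀) (η' : SimplexHom m₂ m₁) (x : Strictification G i n₀ m₀) :
    map h' η η' (map h θ θ' x) = map (h.trans h') (θ.comp η) (θ'.comp η') x := by
  unfold map mapBasis mapDiff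
  congr 1
  · ext s r : 2
    simp only [Matrix.of_apply, MooreDGA.map_map, RingDiagram.cotHom_comp]; rfl
  · ext s r : 2
    simp only [Matrix.of_apply, RingDiagram.tr_comp]; rfl

theorem tau_zero (β : G.C.Pairing) (x : Strictification G j n m) : RingOne (x.torsionScalar β 0) :=
  tau_zero_aux β x

theorem tau_map (β : G.C.Pairing) (h : i ≤ j) (θ : SimplexHom k n)
    (θ' : SimplexHom k' m) (x : Strictification G i n m) (a : Fin (k + 1)) :
    MapsToMul (A.transition h θ') (x.torsionScalar β (θ a)) (x.torsionScalar β (θ 0))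
      ((map h θ θ' x).torsionScalar β a) := tau_map_aux β h θ θ' x a

end Strictification

/-- The bisimplicial set of strictifications. -/
@[reducible] def PerfectComplex.strictificationSpace (G : PerfectComplex A) : BisimplicialDiagram J where
  obj := Strictification G
  map := Strictification.map
  map_id := Strictification.map_id
  map_comp h h' _ _ _ _ _ _ := Strictification.map_comp h h'

/-- The torsion cocycle. -/
noncomputable def PerfectComplex.torsionCocycle (G : PerfectComplex A) (β : G.C.Pairing) :
    Cocycle A G.strictificationSpace where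
  c x a := x.torsionScalar β a
  c_zero := Strictification.tau_zero β
  c_map := Strictification.tau_map β

/-- The determinant line bundle of a perfect complex `G` with as many odd as even cells on every
chart.  A pairing `β j` of the odd and the even cells is a generator of
`det G_j = ⨂ det (cells)^{±1}`; these free modules are glued along `G_i → G_j` by the canonical
trivialisation (torsion) of the determinant of the acyclic quotient. -/
noncomputable def PerfectComplex.detLine (G : PerfectComplex A) (β : G.C.Pairing) : ModuleDiagram A :=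
  (G.torsionCocycle β).glue

namespace GeneratorChain
variable {f : A.Hom B} (hf : IsVirtualCartierDivisor f) {i j : J} {k n k' m : ℕ}

/-- The restricted generators. -/
def mapGen (h : i ≤ j) (θ : SimplexHom k n) (θ' : SimplexHom k' m) (x : GeneratorChain f i n m) (a : Fin (k + 1)) :
    (A.chart j).obj k' := ringApp (A.transition h θ') (x.t (θ a))

/-- The restricted units. -/
def mapUnit (h : i ≤ j) (θ : SimplexHom k n) (θ' : SimplexHom k' m) (x : GeneratorChain f i n m)
    (a a' : Fin (k + 1)) : UnitsOf ((A.chart j).obj k') := unitsMap (A.transition h θ') (x.u (θ a) (θ a'))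

theorem map_rel (h : i ≤ j) (θ : SimplexHom k n) (θ' : SimplexHom k' m) (x : GeneratorChain f i n m) :
    UnitRelated (mapGen h θ θ' x) (mapUnit h θ θ' x) := fun a a' => by
  unfold mapGen ringApp
  rw [x.relation (θ a) (θ a'), map_mul]; rfl

theorem map_coc (h : i ≤ j) (θ : SimplexHom k n) (θ' : SimplexHom k' m) (x : GeneratorChain f i n m) :
    UnitCocycle (mapUnit h θ θ' x) := fun a a' a'' => by
  unfold mapUnit unitsMap
  rw [← map_mul, x.cocycle]

include hf in
theorem map_gen (h : i ≤ j) (θ : SimplexHom k n) (θ' : SimplexHom k' m) (x : GeneratorChain f i n m) (a : Fin (k + 1)) :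
    (f.app j).IsGenerator (mapGen h θ θ' x a) := hf.gen_tr h θ' (x.gen (θ a))

/-- Restriction of a chain of generators. -/
def map (h : i ≤ j) (θ : SimplexHom k n) (θ' : SimplexHom k' m) (x : GeneratorChain f i n m) : GeneratorChain f j k k' where
  t := mapGen h θ θ' x
  u := mapUnit h θ θ' x
  gen := map_gen hf h θ θ' x
  relation := map_rel h θ θ' x
  cocycle := map_coc h θ θ' x

theorem map_id (i : J) (n m : ℕ) (x : GeneratorChain f i n m) :
    map hf (le_refl i) OrderHom.id OrderHom.id x = x := by
  ext a a'
  · exact A.tr_id _ _ _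
  · exact A.tr_id _ _ _

theorem map_comp {i j l : J} (h : i ≤ j) (h' : j ≤ l) {n₀ n₁ n₂ m₀ m₁ m₂ : ℕ}
    (θ : SimplexHom n₁ n₀) (η : SimplexHom n₂ n₁) (θ' : SimplexHom m₁ m₀) (η' : SimplexHom m₂ m₁) (x : GeneratorChain f i n₀ m₀) :
    map hf h' η η' (map hf h θ θ' x) = map hf (h.trans h') (θ.comp η) (θ'.comp η') x := by
  ext a a'
  · exact A.tr_comp _ _ _ _ _
  · exact A.tr_comp _ _ _ _ _

/-- `t 0 ^ (-l) = (u 0 a) ^ (-l) * t a ^ (-l)`: the transition scalar of `I ^ (-l)`. -/
def unitPower (l : ℤ) (x : GeneratorChain f j n m) (a : Fin (n + 1)) : (A.chart j).obj m :=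
  unitZPow (x.u 0 a) (-l)

theorem u_self (x : GeneratorChain f j n m) (a : Fin (n + 1)) : x.u a a = 1 :=
  mul_left_cancel (a := x.u a a) (by rw [x.cocycle, mul_one])

theorem pw_zero (l : ℤ) (x : GeneratorChain f j n m) : RingOne (x.unitPower l 0) := by
  simp [unitPower, u_self]

theorem pw_map (l : ℤ) (h : i ≤ j) (θ : SimplexHom k n) (θ' : SimplexHom k' m) (x : GeneratorChain f i n m)
    (a : Fin (k + 1)) :
    MapsToMul (A.transition h θ') (x.unitPower l (θ a)) (x.unitPower l (θ 0))
      ((map hf h θ θ' x).unitPower l a) := by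
  unfold MapsToMul
  have e : (map hf h θ θ' x).unitPower l a =
      A.transition h θ' ((x.u (θ 0) (θ a) ^ (-l) : ((A.chart i).obj m)ˣ) : (A.chart i).obj m) := by
    change ((Units.map (A.transition h θ').toMonoidHom (x.u (θ 0) (θ a)) ^ (-l) :
      ((A.chart j).obj k')ˣ) : (A.chart j).obj k') = _
    rw [← map_zpow]; rfl
  rw [e, ← map_mul, unitPower, unitPower, unitZPow, unitZPow, ← x.cocycle 0 (θ 0) (θ a), mul_zpow, Units.val_mul]

end GeneratorChain

/-- The nerve of the groupoid of generators of `I`. -/
@[reducible] def IsVirtualCartierDivisor.generatorSpace {f : A.Hom B} (hf : IsVirtualCartierDivisor f) : BisimplicialDiagram J where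
  obj := GeneratorChain f
  map := GeneratorChain.map hf
  map_id := GeneratorChain.map_id hf
  map_comp h h' _ _ _ _ _ _ := GeneratorChain.map_comp hf h h'

/-- The cocycle `u ^ (-l)`. -/
def IsVirtualCartierDivisor.powerCocycle {f : A.Hom B} (hf : IsVirtualCartierDivisor f) (l : ℤ) : Cocycle A hf.generatorSpace where
  c x a := x.unitPower l a
  c_zero := GeneratorChain.pw_zero l
  c_map := GeneratorChain.pw_map hf l

/-- The line bundle `O(lZ) = I^{⊗ (-l)}`, `I = O(-Z) = ker f`: the bundle associated with the
torsor of generators of `I` and the character `u ↦ u ^ (-l)`. -/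
noncomputable def IsVirtualCartierDivisor.lineOlZ {f : A.Hom B} (hf : IsVirtualCartierDivisor f) (l : ℤ) : ModuleDiagram A := (hf.powerCocycle l).glue

end Pool.Agent.P.MP_932208_ag
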