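import Pool.Agent.P.MP_932208_ag.Cell

/-!
Strictifications of the acyclic quotients of a perfect complex; chains of generators of an ideal.
-/

namespace Pool.Agent.P.MP_932208_ag

open Classical

universe u

variable {J : Type u} [Preorder J] {A B : RingDiagram J}

/-- The twisting matrix of the acyclic module `G_{i'} / G_i`, base changed to `A_j^{Δ^m}`. -/
def PerfectComplex.blockMatrix (G : PerfectComplex A) (i : J) {i' j : J} (h : i' ≤ j) (m : ℕ) :
    Matrix (G.C.CellsBetween i i') (G.C.CellsBetween i i') (MooreDGA ((A.chart j).cotensor m)) :=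
  mat fun s r => MooreDGA.push (((A.chart j).const m).comp (A.res (s.2.1.trans h))) (G.δ s.1 r.1)

/-- Over `A_j^{Δ^m}`, the rows of `φ` are a new basis `e s = ∑ φ s r • r` of the acyclic module
`G_{c n} / G_{c 0}`, equal to the old basis up to coefficients of positive degree and compatible
with the filtration by the `G_{c a}`, in which the differential `d` has coefficients in the
ordinary ring `A_{j,m}`; all the blocks of `d` are exact complexes. -/
structure IsStrictification (G : PerfectComplex A) {j : J} {n m : ℕ} (c : Fin (n + 1) →o J)
    (le : c (Fin.last n) ≤ j)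
    (φ : Matrix (G.C.ChainBlock c) (G.C.ChainBlock c) (MooreDGA ((A.chart j).cotensor m)))
    (d : Matrix (G.C.ChainBlock c) (G.C.ChainBlock c) ((A.chart j).obj m)) : Prop where
  homogeneous : MooreDGA.IsDegreeZero (G.C.chainDeg c) φ
  one : UnitOnDiagonal (G.C.chainDeg c) φ
  triangular : PreservesFiltration (G.C.chainBirth c) c φ d
  strict : HasMatrixIn (MooreDGA.twistedDiff (G.blockMatrix (c 0) le m)) ((A.chart j).incCotensor m) φ d
  exact : G.C.BlocksExact c d

/-- An `(n, m)`-simplex of the space of strictifications on the chart `j`: a chain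
`c 0 ≤ ... ≤ c n ≤ j` and a strictification of `G_{c n} / G_{c 0}` over `A_j^{Δ^m}`.  For a fixed
chain these data form a contractible simplicial set in `m`. -/
structure Strictification (G : PerfectComplex A) (j : J) (n m : ℕ) where
  c : Fin (n + 1) →o J
  le : c (Fin.last n) ≤ j
  φ : Matrix (G.C.ChainBlock c) (G.C.ChainBlock c) (MooreDGA ((A.chart j).cotensor m))
  d : Matrix (G.C.ChainBlock c) (G.C.ChainBlock c) ((A.chart j).obj m)
  ok : IsStrictification G c le φ d

namespace Strictification
variable {G : PerfectComplex A} {i j : J} {k n k' m : ℕ}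

/-- The face `θ` of the chain. -/
abbrev mapChain (θ : SimplexHom k n) (x : Strictification G i n m) : Fin (k + 1) →o J := x.c.comp θ

/-- The inclusion of the block of the face `θ` of the chain. -/
def emb (x : Strictification G i n m) (θ : SimplexHom k n) :
    G.C.ChainBlock (mapChain θ x) → G.C.ChainBlock x.c :=
  G.C.chainIncl x.c (θ 0) (θ (Fin.last k))

theorem map_le (h : i ≤ j) (θ : SimplexHom k n) (x : Strictification G i n m) :
    mapChain θ x (Fin.last k) ≤ j :=
  ((x.c.monotone (Fin.le_last _)).trans x.le).trans h

/-- The restriction of the new basis. -/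
def mapBasis (h : i ≤ j) (θ : SimplexHom k n) (θ' : SimplexHom k' m) (x : Strictification G i n m) :
    Matrix (G.C.ChainBlock (mapChain θ x)) (G.C.ChainBlock (mapChain θ x)) (MooreDGA ((A.chart j).cotensor k')) :=
  MooreDGA.pushSub (SimplicialRing.cotensorHom (A.res h) θ') x.φ (x.emb θ)

/-- The restriction of the strict differential. -/
def mapDiff (h : i ≤ j) (θ : SimplexHom k n) (θ' : SimplexHom k' m) (x : Strictification G i n m) :
    Matrix (G.C.ChainBlock (mapChain θ x)) (G.C.ChainBlock (mapChain θ x)) ((A.chart j).obj k') :=
  ringSub (A.transition h θ') x.d (x.emb θ)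

/-- The transition scalar from `c 0` to `c a`: the torsion of the strict exact complex
`G_{c a} / G_{c 0}`, relative to the generators `β (c 0)` and `β (c a)`. -/
noncomputable def torsionScalar (β : G.C.Pairing) (x : Strictification G j n m) (a : Fin (n + 1)) :
    (A.chart j).obj m :=
  G.C.chainTorsion β x.c x.d a

end Strictification

/-- An `(n, m)`-simplex of the nerve of the groupoid of generators of `I = ker f`:
generators `t a ∈ I_{j,m}` and units `u a a'` with `t a = u a a' * t a'`. -/
@[ext] structure GeneratorChain (f : A.Hom B) (j : J) (n m : ℕ) where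
  t : Fin (n + 1) → (A.chart j).obj m
  u : Fin (n + 1) → Fin (n + 1) → UnitsOf ((A.chart j).obj m)
  gen : ∀ a, (f.app j).IsGenerator (t a)
  relation : UnitRelated t u
  cocycle : UnitCocycle u

end Pool.Agent.P.MP_932208_ag
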