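import Pool.Agent.P.MP_932208_ag.Cell

/-!
Naturality lemmas for the Moore dg rings and for blocks of cells.
-/

namespace Pool.Agent.P.MP_932208_ag

open Classical

universe u

namespace MooreDGA
variable {A B C : SimplicialRing.{u}}

theorem ext' {x y : MooreDGA A} (h : ∀ n, x.1 n = y.1 n) : x = y := Subtype.ext (Chains.ext h)

theorem map_apply (f : A.Hom B) (x : MooreDGA A) (n : ℕ) : (map f x).1 n = f.app n (x.1 n) := rfl

theorem map_map (g : B.Hom C) (f : A.Hom B) (x : MooreDGA A) : map g (map f x) = map (g.comp f) x := rfl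

theorem map_id (x : MooreDGA A) : map (SimplicialRing.Hom.id A) x = x := rfl

theorem map_bd (f : A.Hom B) (x : MooreDGA A) : map f (boundary x) = boundary (map f x) :=
  ext' fun _ => f.nat _ _

theorem map_sg (f : A.Hom B) (x : MooreDGA A) : map f (sign x) = sign (map f x) :=
  ext' fun n => by
    change f.app n ((-1) ^ n * x.1 n) = (-1) ^ n * f.app n (x.1 n)
    simp

theorem map_inc (f : A.Hom B) (a : A.obj 0) : map f (inc a) = inc (f.app 0 a) :=
  ext' fun n => by
    cases n with
    | zero => rfl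
    | succ n => exact map_zero (f.app (n + 1))

theorem IsHomogeneous.map (f : A.Hom B) {k : ℤ} {x : MooreDGA A} (h : IsHomogeneous k x) : IsHomogeneous k (map f x) := fun n hn => by
  rw [map_apply, h n hn, map_zero]

theorem map_dv (f : A.Hom B) {U : Type u} [Fintype U] (δ : Matrix U U (MooreDGA A)) (x : U → MooreDGA A)
    (r : U) : map f (twistedDiff δ x r) = twistedDiff (δ.map (map f)) (fun s => map f (x s)) r := by
  simp [twistedDiff, twistedDiffOf, map_bd, map_sg]

end MooreDGA

variable {J : Type u} [Preorder J]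

theorem RingDiagram.map_incC (A : RingDiagram J) {i j : J} (h : i ≤ j) {k m : ℕ} (θ : SimplexHom k m)
    (a : (A.chart i).obj m) :
    MooreDGA.map (SimplicialRing.cotensorHom (A.res h) θ) ((A.chart i).incCotensor m a) = (A.chart j).incCotensor k (A.transition h θ a) := by
  change MooreDGA.map _ (MooreDGA.inc _) = MooreDGA.inc _
  rw [MooreDGA.map_inc]
  congr 1
  refine Subtype.ext (funext fun r => funext fun α => funext fun γ => ?_)
  change (A.res h).app r ((A.chart i).map (θ.comp α) a) =
    (A.chart j).map α ((A.chart j).map θ ((A.res h).app m a))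
  rw [SimplicialRing.map_comp, SimplicialRing.Hom.nat]

theorem RingDiagram.cot_const (A : RingDiagram J) {i i' j : J} (h₀ : i ≤ i') (h : i' ≤ j) {k m : ℕ}
    (θ : SimplexHom k m) :
    (SimplicialRing.cotensorHom (A.res h) θ).comp (((A.chart i').const m).comp (A.res h₀)) =
      ((A.chart j).const k).comp (A.res (h₀.trans h)) := by
  ext n x r α γ
  change (A.res h).app r ((A.chart i').map (OrderHom.id.comp γ) ((A.res h₀).app n x)) =
    (A.chart j).map γ ((A.res (h₀.trans h)).app n x)
  rw [SimplicialRing.Hom.nat, A.res_comp]; rfl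

theorem RingDiagram.cotHom_id (A : RingDiagram J) (i : J) (m : ℕ) :
    SimplicialRing.cotensorHom (A.res (le_refl i)) (OrderHom.id : SimplexHom m m) = SimplicialRing.Hom.id _ := by
  ext n x r α γ
  exact A.res_id i r _

theorem RingDiagram.cotHom_comp (A : RingDiagram J) {i j l : J} (h : i ≤ j) (h' : j ≤ l) {m₀ m₁ m₂ : ℕ}
    (θ : SimplexHom m₁ m₀) (η : SimplexHom m₂ m₁) :
    (SimplicialRing.cotensorHom (A.res h') η).comp (SimplicialRing.cotensorHom (A.res h) θ) =
      SimplicialRing.cotensorHom (A.res (h.trans h')) (θ.comp η) := by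
  ext n x r α γ
  exact A.res_comp h h' r _

theorem Cells.sub_injective {C : Cells J} {i i' j' j : J} (h : i ≤ i') (h' : j' ≤ j) :
    Function.Injective (Cells.blockIncl (C := C) h h') := fun _ _ e =>
  Subtype.ext (congrArg (fun x : C.CellsBetween i j => x.1) e)

theorem Cells.sum_sub {C : Cells J} {i i' j' j : J} (h : i ≤ i') (h' : j' ≤ j) {M : Type*}
    [AddCommMonoid M] (F : C.CellsBetween i j → M) (h₁ : ∀ q, ¬ C.birth q.1 ≤ j' → F q = 0)
    (h₂ : ∀ q, C.birth q.1 ≤ i' → F q = 0) : ∑ q, F q = ∑ q, F (Cells.blockIncl h h' q) := by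
  symm
  refine Finset.sum_of_injOn (Cells.blockIncl h h') (Cells.sub_injective h h').injOn
    (fun _ _ => Finset.mem_univ _) (fun q _ hq => ?_) (fun _ _ => rfl)
  by_cases k₁ : C.birth q.1 ≤ j'
  · by_cases k₂ : C.birth q.1 ≤ i'
    · exact h₂ q k₂
    · exact absurd ⟨⟨q.1, k₁, k₂⟩, Finset.mem_coe.2 (Finset.mem_univ _), rfl⟩ hq
  · exact h₁ q k₁

/-- A block is the union of two consecutive blocks. -/
noncomputable def Cells.splitB (C : Cells J) {i j k : J} (h : i ≤ j) (h' : j ≤ k) :
    C.CellsBetween i j ⊕ C.CellsBetween j k ≃ C.CellsBetween i k where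
  toFun := Sum.elim (Cells.blockIncl le_rfl h') (Cells.blockIncl h le_rfl)
  invFun s := if p : C.birth s.1 ≤ j then Sum.inl ⟨s.1, p, s.2.2⟩ else Sum.inr ⟨s.1, s.2.1, p⟩
  left_inv s := by
    rcases s with s | s
    · simp [Cells.blockIncl, s.2.1]
    · simp [Cells.blockIncl, s.2.2]
  right_inv s := by
    dsimp only
    split_ifs <;> rfl

end Pool.Agent.P.MP_932208_ag
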