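import Pool.Agent.P.MP_932208_ag.Det0
import Pool.Agent.P.MP_932208_ag.NL
import Pool.Agent.P.MP_932208_ag.TorsL

/-!
Restriction of strictifications and of generators.
-/

namespace Pool.Agent.P.MP_932208_ag

open Classical

universe u

variable {J : Type u} [Preorder J] {A B : RingDiagram J}

namespace Strictification
variable {G : PerfectComplex A} {i j : J} {k n k' m : ℕ}

theorem homogeneous (x : Strictification G j n m) (s r : G.C.CellsBetween (x.c 0) (x.c (Fin.last n))) :
    MooreDGA.IsHomogeneous (G.C.degree s.1 - G.C.degree r.1) (x.φ s r) := x.ok.homogeneous s r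

theorem one (x : Strictification G j n m) (s r : G.C.CellsBetween (x.c 0) (x.c (Fin.last n)))
    (e : G.C.degree s.1 = G.C.degree r.1) : x.φ s r = if s = r then 1 else 0 := by
  have := x.ok.one s r e
  by_cases p : s = r
  · rw [if_pos p] at this ⊢; exact this
  · rw [if_neg p] at this ⊢; exact this

theorem triangular (x : Strictification G j n m) (a) (s r : G.C.CellsBetween (x.c 0) (x.c (Fin.last n)))
    (p : G.C.birth s.1 ≤ x.c a) (q : ¬ G.C.birth r.1 ≤ x.c a) : x.φ s r = 0 ∧ x.d s r = 0 :=
  x.ok.triangular a s r p q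

theorem strict (x : Strictification G j n m) (s r : G.C.CellsBetween (x.c 0) (x.c (Fin.last n))) :
    MooreDGA.twistedDiff (G.blockMatrix (x.c 0) x.le m) (x.φ s) r =
      ∑ q, (A.chart j).incCotensor m (x.d s q) * x.φ q r := x.ok.strict s r

theorem exact (x : Strictification G j n m) (a a') : IsExactComplex (G.C.degBetween (x.c a) (x.c a'))
    (x.d.submatrix (Cells.blockIncl (x.c.monotone (Fin.zero_le a)) (x.c.monotone (Fin.le_last a')))
      (Cells.blockIncl (x.c.monotone (Fin.zero_le a)) (x.c.monotone (Fin.le_last a')))) := x.ok.exact a a'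

theorem map_hg (h : i ≤ j) (θ : SimplexHom k n) (θ' : SimplexHom k' m) (x : Strictification G i n m) :
    MooreDGA.IsDegreeZero (G.C.chainDeg (x.c.comp θ)) (mapBasis h θ θ' x) := fun s r =>
  (x.homogeneous (x.emb θ s) (x.emb θ r)).map _

theorem map_one (h : i ≤ j) (θ : SimplexHom k n) (θ' : SimplexHom k' m) (x : Strictification G i n m) :
    UnitOnDiagonal (G.C.chainDeg (x.c.comp θ)) (mapBasis h θ θ' x) := fun s r e => by
  change MooreDGA.map (SimplicialRing.cotensorHom (A.res h) θ') (x.φ (x.emb θ s) (x.emb θ r)) = _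
  rw [x.one (x.emb θ s) (x.emb θ r) e]
  by_cases p : s = r
  · simp [p]
  · have q : ¬ x.emb θ s = x.emb θ r := fun q =>
      p (Cells.sub_injective (x.c.monotone (Fin.zero_le _)) (x.c.monotone (Fin.le_last _)) q)
    rw [if_neg p, if_neg q, map_zero]

theorem map_tri (h : i ≤ j) (θ : SimplexHom k n) (θ' : SimplexHom k' m) (x : Strictification G i n m) :
    PreservesFiltration (G.C.chainBirth _) (x.c.comp θ) (mapBasis h θ θ' x) (mapDiff h θ θ' x) := fun a s r p q => by
  change MooreDGA.map (SimplicialRing.cotensorHom (A.res h) θ') (x.φ (x.emb θ s) (x.emb θ r)) = 0 ∧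
      A.transition h θ' (x.d (x.emb θ s) (x.emb θ r)) = 0
  obtain ⟨h₁, h₂⟩ := x.triangular (θ a) (x.emb θ s) (x.emb θ r) p q
  rw [h₁, h₂, map_zero, map_zero]; exact ⟨rfl, rfl⟩

theorem map_strict (h : i ≤ j) (θ : SimplexHom k n) (θ' : SimplexHom k' m) (x : Strictification G i n m) :
    HasMatrixIn (MooreDGA.twistedDiff (G.blockMatrix ((x.c.comp θ) 0) (map_le h θ x) k'))
      ((A.chart j).incCotensor k') (mapBasis h θ θ' x) (mapDiff h θ θ' x) := fun s r => by
  change MooreDGA.twistedDiff (G.blockMatrix (x.c (θ 0)) (map_le h θ x) k')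
      (fun q => MooreDGA.map (SimplicialRing.cotensorHom (A.res h) θ') (x.φ (x.emb θ s) (x.emb θ q))) r =
    ∑ q, (A.chart j).incCotensor k' (A.transition h θ' (x.d (x.emb θ s) (x.emb θ q))) *
      MooreDGA.map (SimplicialRing.cotensorHom (A.res h) θ') (x.φ (x.emb θ q) (x.emb θ r))
  have e := congrArg (MooreDGA.map (SimplicialRing.cotensorHom (A.res h) θ')) (x.strict (x.emb θ s) (x.emb θ r))
  rw [MooreDGA.map_dv, map_sum, Cells.sum_sub (x.c.monotone (Fin.zero_le (θ 0)))
    (x.c.monotone (Fin.le_last (θ (Fin.last k))))] at e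
  · simp only [map_mul, RingDiagram.map_incC] at e
    refine Eq.trans ?_ e
    unfold MooreDGA.twistedDiff twistedDiffOf
    congr 1
    rw [Cells.sum_sub (x.c.monotone (Fin.zero_le (θ 0)))
      (x.c.monotone (Fin.le_last (θ (Fin.last k))))]
    · refine Finset.sum_congr rfl fun q _ => ?_
      simp only [PerfectComplex.blockMatrix, Matrix.map_apply, Matrix.of_apply, MooreDGA.map_map, RingDiagram.cot_const]
      rfl
    · intro q hq
      simp only [(x.triangular _ (x.emb θ s) q s.2.1 hq).1, map_zero, zero_mul]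
    · intro q hq
      have : G.δ q.1 (x.emb θ r).1 = 0 := G.triangular _ _ fun p => r.2.2 (p.trans hq)
      simp only [PerfectComplex.blockMatrix, Matrix.map_apply, Matrix.of_apply, this, map_zero, mul_zero]
  · intro q hq
    rw [(x.triangular _ (x.emb θ s) q s.2.1 hq).2, map_zero, zero_mul, map_zero]
  · intro q hq
    rw [(x.triangular _ q (x.emb θ r) hq r.2.2).1, mul_zero, map_zero]

theorem map_exact (h : i ≤ j) (θ : SimplexHom k n) (θ' : SimplexHom k' m) (x : Strictification G i n m) :
    G.C.BlocksExact (x.c.comp θ) (mapDiff h θ θ' x) := fun a a' =>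
  (x.exact (θ a) (θ a')).map (A.transition h θ')

theorem tau_zero_aux (β : G.C.Pairing) (x : Strictification G j n m) : x.torsionScalar β 0 = 1 :=
  haveI : IsEmpty (G.C.CellsBetween (x.c 0) (x.c 0)) := ⟨fun s => s.2.2 s.2.1⟩
  relTors_empty _ (fun _ => rfl) _ _ _

theorem tau_map_aux (β : G.C.Pairing) (h : i ≤ j) (θ : SimplexHom k n)
    (θ' : SimplexHom k' m) (x : Strictification G i n m) (a : Fin (k + 1)) :
    A.transition h θ' (x.torsionScalar β (θ a)) = A.transition h θ' (x.torsionScalar β (θ 0)) *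
      G.C.chainTorsion β (mapChain θ x) (mapDiff h θ θ' x) a := by
  have p₁ : x.c 0 ≤ x.c (θ 0) := x.c.monotone (Fin.zero_le _)
  have p₂ : x.c (θ 0) ≤ x.c (θ a) := x.c.monotone (θ.monotone (Fin.zero_le _))
  have e := relTors_trans (G.C.split p₁) (G.C.split p₂) (G.C.split (p₁.trans p₂))
    (G.C.splitB p₁ p₂) (dg₀ := G.C.degOn _) (dg₁ := G.C.degOn _) (dg := G.C.degOn _)
    (dw₁ := G.C.degBetween _ _) (dw₂ := G.C.degBetween _ _) (dw := G.C.degBetween _ _)
    (fun _ => rfl) (fun _ => rfl) (fun _ => rfl) (fun _ => rfl) (fun _ => rfl) (fun _ => rfl)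
    (fun _ => rfl) (fun _ => rfl) (β _) (β _) (β _) (x.exact 0 (θ a))
    (fun s r => (x.triangular (θ 0) _ _ s.2.1 r.2.2).2) (x.exact 0 (θ 0)) (x.exact (θ 0) (θ a))
  have e' := map_relTors (G.C.split p₂) (dg₁ := G.C.degOn _) (dg := G.C.degOn _) (fun _ => rfl)
    (fun _ => rfl) (β _) (β _) (x.exact (θ 0) (θ a)) (A.transition h θ')
  have e'' := congrArg (A.transition h θ') e
  rw [map_mul] at e''
  exact e''.trans (congrArg (fun z => A.transition h θ' (x.torsionScalar β (θ 0)) * z) e')

end Strictification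

theorem IsVirtualCartierDivisor.gen_tr {f : A.Hom B} (hf : IsVirtualCartierDivisor f) {i j : J} (h : i ≤ j) {k m : ℕ} (θ : SimplexHom k m)
    {t : (A.chart i).obj m} (ht : (f.app i).IsGenerator t) : (f.app j).IsGenerator (A.transition h θ t) := by
  have e0 : (vert 0 0 : SimplexHom 0 0) = OrderHom.id := by ext i; simp [vert]
  refine ⟨?_, fun a p => ?_⟩
  · change (f.app j).app k ((A.chart j).map θ ((A.res h).app m t)) = 0
    rw [SimplicialRing.Hom.nat, f.nat, ht.1, map_zero, map_zero]
  · have p' : (f.app i).app 0 ((A.chart i).map (vert 0 (θ a)) t) = 0 := by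
      rw [SimplicialRing.Hom.nat, ht.1, map_zero]
    have g₀ : (f.app i).IsGenerator ((A.chart i).map (vert 0 (θ a)) t) := by
      refine ⟨p', fun a' q => ?_⟩
      have := ht.2 (θ a) p'
      obtain rfl : a' = 0 := Subsingleton.elim (α := Fin 1) _ _
      simpa only [e0, SimplicialRing.map_id] using this
    have g₁ := hf.gen_restrict h _ g₀
    have e₁ : (A.chart j).map (vert 0 0) ((A.res h).app 0 ((A.chart i).map (vert 0 (θ a)) t)) =
        (A.chart j).map (vert 0 a) (A.transition h θ t) := by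
      change _ = (A.chart j).map _ ((A.chart j).map θ _)
      rw [e0, SimplicialRing.map_id, SimplicialRing.Hom.nat, SimplicialRing.map_comp]; rfl
    have := g₁.2 0 ((congrArg ((f.app j).app 0) e₁).trans p)
    simpa only [ringApp, e₁] using this

end Pool.Agent.P.MP_932208_ag
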