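import Pool.Agent.P.MP_932208_ag.XA

/-!
The pushforward of a perfect complex along a virtual Cartier divisor is perfect.
-/

namespace Pool.Agent.P.MP_932208_ag

open Classical

universe u

/-- Recursive choice along a transitive well-founded relation. -/
theorem xg_rec {V : Type u} {r : V → V → Prop} (wf : WellFounded r)
    (tr : ∀ a b c, r a b → r b c → r a c) {X : V → Type u} (x₀ : ∀ v, X v)
    (P : ∀ v, (∀ w, X w) → X v → Prop)
    (loc : ∀ v g g' x, (∀ w, r w v → g w = g' w) → P v g x → P v g' x)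
    (step : ∀ v g, (∀ w, r w v → P w g (g w)) → ∃ x, P v g x) : ∃ g, ∀ v, P v g (g v) := by
  let ex : ∀ v, (∀ w, r w v → X w) → ∀ w, X w := fun v l w => if h : r w v then l w h else x₀ w
  let G : ∀ v, (∀ w, r w v → X w) → X v := fun v l =>
    if h : ∃ x, P v (ex v l) x then h.choose else x₀ v
  refine ⟨wf.fix G, fun v => ?_⟩
  induction v using wf.induction with
  | _ v ih =>
    have e1 : ∀ w, r w v → ex v (fun w _ => wf.fix G w) w = wf.fix G w := fun w h => dif_pos h
    have h : ∃ x, P v (ex v fun w _ => wf.fix G w) x := step v _ fun w hw => by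
      rw [e1 w hw]
      exact loc w _ _ _ (fun a ha => (e1 a (tr _ _ _ ha hw)).symm) (ih w hw)
    have e2 : wf.fix G v = h.choose := by
      rw [wf.fix_eq]
      exact dif_pos h
    rw [e2]
    exact loc v _ _ _ e1 h.choose_spec

section alg

variable {R R' : Type u} [Ring R] [Ring R'] {K K' : Type u} [CommRing K] [CommRing K']
  {Γ : DG R K} {Γ' : DG R' K'} {f : R →+* R'} {f₀ : K →+* K'} {V : Type u} [Fintype V]
  {dV : V → ℤ} {t : V → K} {Δ : Matrix (V ⊕ V) (V ⊕ V) R} {δ' : Matrix V V R'}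

/-- A generalised Koszul matrix over `δ'`. -/
structure XgK (Γ : DG R K) (f : R →+* R') (dV : V → ℤ) (t : V → K)
    (Δ : Matrix (V ⊕ V) (V ⊕ V) R) (δ' : Matrix V V R') : Prop where
  hm : Γ.HM (kdg dV) (kdg dV) (-1) Δ
  diag : ∀ v, Δ (.inr v) (.inl v) = Γ.inc (t v)
  off : ∀ v v', v' ≠ v → dV v ≤ dV v' → Δ (.inr v) (.inl v') = 0
  ker : ∀ v v', f (Δ (.inr v) (.inl v')) = 0
  lift : ∀ v v', f (Δ (.inl v) (.inl v')) = δ' v v'
  ke : ∀ v, Γ.KE f (t v)
  mc : Γ.dM Δ Δ = 0

namespace XgK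

theorem top (g : XgK Γ f dV t Δ δ') {x : V ⊕ V → R} {v : V}
    (hz : ∀ w, dV v < dV w → x (.inl w) = 0 ∧ x (.inr w) = 0) :
    Γ.twistedDiff Δ x (.inl v) = Γ.d (x (.inl v)) + Γ.e (x (.inr v)) * Γ.inc (t v) ∧
      Γ.twistedDiff Δ x (.inr v) = Γ.d (x (.inr v)) := by
  have z1 : ∀ w, Γ.e (x (.inl w)) * Δ (.inl w) (.inl v) = 0 := fun w => by
    rcases lt_or_ge (dV v) (dV w) with h | h
    · rw [(hz w h).1, map_zero, zero_mul]
    · rw [Γ.eq_zero (by simp only [kdg, Sum.elim_inl]; omega) (g.hm (.inl w) (.inl v)), mul_zero]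
  have z2 : ∀ w, Γ.e (x (.inl w)) * Δ (.inl w) (.inr v) = 0 := fun w => by
    rcases lt_or_ge (dV v) (dV w) with h | h
    · rw [(hz w h).1, map_zero, zero_mul]
    · rw [Γ.eq_zero (by simp only [kdg, Sum.elim_inl, Sum.elim_inr]; omega)
        (g.hm (.inl w) (.inr v)), mul_zero]
  have z3 : ∀ w, Γ.e (x (.inr w)) * Δ (.inr w) (.inr v) = 0 := fun w => by
    rcases lt_or_ge (dV v) (dV w) with h | h
    · rw [(hz w h).2, map_zero, zero_mul]
    · rw [Γ.eq_zero (by simp only [kdg, Sum.elim_inr]; omega) (g.hm (.inr w) (.inr v)), mul_zero]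
  have z4 : ∑ w, Γ.e (x (.inr w)) * Δ (.inr w) (.inl v) = Γ.e (x (.inr v)) * Γ.inc (t v) := by
    rw [Finset.sum_eq_single v, g.diag]
    · intro w _ hw
      rcases lt_or_ge (dV v) (dV w) with h | h
      · rw [(hz w h).2, map_zero, zero_mul]
      · rw [g.off w v hw.symm h, mul_zero]
    · intro h
      exact absurd (Finset.mem_univ v) h
  constructor
  · simp only [DG.twistedDiff, Fintype.sum_sum_type, z1, z4, Finset.sum_const_zero, zero_add]
  · simp only [DG.twistedDiff, Fintype.sum_sum_type, z2, z3, Finset.sum_const_zero, add_zero]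

theorem map_dv (g : XgK Γ f dV t Δ δ') (hf : Γ.IsHom Γ' f f₀) (x : V ⊕ V → R) (v : V) :
    f (Γ.twistedDiff Δ x (.inl v)) = Γ'.twistedDiff δ' (fun w => f (x (.inl w))) v := by
  simp only [DG.twistedDiff, Fintype.sum_sum_type, map_add, map_sum, map_mul, g.ker, g.lift,
    hf.d, hf.e, mul_zero, Finset.sum_const_zero, add_zero]

/-- The kernel of a generalised Koszul module is acyclic. -/
theorem acyc (g : XgK Γ f dV t Δ δ') (hf : Γ.IsHom Γ' f f₀) {n : ℤ} {x : V ⊕ V → R}
    (hx : Γ.IsHomogeneousVec (kdg dV) n x) (kx : ∀ v, f (x (.inl v)) = 0)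
    (cx : Γ.twistedDiff Δ x = 0) :
    ∃ y : V ⊕ V → R, Γ.IsHomogeneousVec (kdg dV) (n + 1) y ∧ (∀ v, f (y (.inl v)) = 0) ∧
      Γ.twistedDiff Δ y = x := by
  obtain ⟨m, hm0, hP⟩ := lf_ind dV (fun m => ∀ x : V ⊕ V → R,
      Γ.IsHomogeneousVec (kdg dV) n x → (∀ v, f (x (.inl v)) = 0) → Γ.twistedDiff Δ x = 0 →
      (∀ v, m ≤ dV v → x (.inl v) = 0 ∧ x (.inr v) = 0) →
      ∃ y : V ⊕ V → R, Γ.IsHomogeneousVec (kdg dV) (n + 1) y ∧ (∀ v, f (y (.inl v)) = 0) ∧
        Γ.twistedDiff Δ y = x)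
    (by
      intro m hm x _ _ _ hz
      refine ⟨0, fun s => Γ.hg_zero _, fun _ => map_zero f, ?_⟩
      rw [DG.lf_dv_zero]
      funext w
      rcases w with v | v
      · exact ((hz v (hm v)).1).symm
      · exact ((hz v (hm v)).2).symm)
    (by
      intro m ih x hx kx cx hz
      have key : ∀ v, ∃ y' a' : R, Γ.IsHomogeneous (n + 1 - dV v) y' ∧
          Γ.IsHomogeneous (n - dV v) a' ∧ f y' = 0 ∧ (dV v ≠ m → y' = 0 ∧ a' = 0) ∧
          (dV v = m → Γ.d y' + Γ.e a' * Γ.inc (t v) = x (.inl v) ∧ Γ.d a' = x (.inr v)) := by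
        intro v
        by_cases hv : dV v = m
        · obtain ⟨h1, h2⟩ := g.top (x := x) (v := v) fun w hw => hz w (by omega)
          rw [cx] at h1 h2
          obtain ⟨y', a', g1, g2, g3, g4, g5⟩ := (g.ke v).ex (n - dV v) _ _ (hx (.inl v))
            (Γ.hg_cast (hx (.inr v)) (by simp only [kdg, Sum.elim_inr]; ring)) (kx v) h1.symm h2.symm
          exact ⟨y', a', Γ.hg_cast g1 (by ring), g2, g3, fun h => absurd hv h, fun _ => ⟨g4, g5⟩⟩
        · exact ⟨0, 0, Γ.hg_zero _, Γ.hg_zero _, map_zero f, fun _ => ⟨rfl, rfl⟩,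
            fun h => absurd h hv⟩
      choose y' a' g1 g2 g3 g4 g5 using key
      have hz1 : Γ.IsHomogeneousVec (kdg dV) (n + 1) (Sum.elim y' a') := by
        rintro (v | v)
        · exact g1 v
        · exact Γ.hg_cast (g2 v) (by simp only [kdg, Sum.elim_inr]; ring)
      obtain ⟨y, k1, k3, k4⟩ := ih (x - Γ.twistedDiff Δ (Sum.elim y' a'))
        (hx.x0_sub (hz1.x0_dv g.hm))
        (fun v => by
          have e : (fun w => f (Sum.elim y' a' (.inl w))) = 0 := funext g3
          rw [Pi.sub_apply, map_sub, kx, g.map_dv hf, e, DG.lf_dv_zero]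
          exact sub_zero _)
        (by rw [DG.lf_dv_sub, cx, Γ.dv_dv g.mc, sub_zero])
        (by
          intro v hv
          obtain ⟨h1, h2⟩ := g.top (x := Sum.elim y' a') (v := v) fun w hw => g4 w (by omega)
          rw [Pi.sub_apply, Pi.sub_apply, h1, h2, Sum.elim_inl, Sum.elim_inr]
          by_cases h : dV v = m
          · rw [(g5 v h).1, (g5 v h).2]
            exact ⟨sub_self _, sub_self _⟩
          · rw [(g4 v h).1, (g4 v h).2, (hz v (by omega)).1, (hz v (by omega)).2]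
            simp)
      refine ⟨y + Sum.elim y' a', k1.x0_add hz1, fun v => ?_, ?_⟩
      · rw [Pi.add_apply, map_add, k3, Sum.elim_inl, g3, add_zero]
      · rw [DG.lf_dv_add, k4, sub_add_cancel])
  exact hP x hx kx cx fun v hv => absurd (hm0 v) (by omega)

theorem surj (g : XgK Γ f dV t Δ δ') (hf : Γ.IsHom Γ' f f₀)
    (sj : ∀ k y, Γ'.IsHomogeneous k y → ∃ x, Γ.IsHomogeneous k x ∧ f x = y) {q : ℤ} {y : V → R'}
    (hy : Γ'.IsHomogeneousVec dV q y) (cy : Γ'.twistedDiff δ' y = 0) :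
    ∃ x, Γ.IsHomogeneousVec (kdg dV) q x ∧ Γ.twistedDiff Δ x = 0 ∧
      ∀ v, f (x (.inl v)) = y v := by
  obtain ⟨Z, a1, a2⟩ := DG.x0_lift sj hy
  obtain ⟨w, b1, b2, b3⟩ := g.acyc hf (DG.IsHomogeneousVec.twistedDiff Γ g.hm a1)
    (fun v => by rw [g.map_dv hf, a2, cy]; rfl) (Γ.dv_dv g.mc Z)
  rw [sub_add_cancel] at b1
  refine ⟨Z - w, a1.x0_sub b1, by rw [DG.lf_dv_sub, b3, sub_self], fun v => ?_⟩
  rw [Pi.sub_apply, map_sub, b2, sub_zero]
  exact congrFun a2 v

theorem inj (g : XgK Γ f dV t Δ δ') (hf : Γ.IsHom Γ' f f₀)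
    (sj : ∀ k y, Γ'.IsHomogeneous k y → ∃ x, Γ.IsHomogeneous k x ∧ f x = y) {q : ℤ}
    {x : V ⊕ V → R} {z : V → R'} (hx : Γ.IsHomogeneousVec (kdg dV) q x)
    (cx : Γ.twistedDiff Δ x = 0) (hz : Γ'.IsHomogeneousVec dV (q + 1) z)
    (e : (fun v => f (x (.inl v))) = Γ'.twistedDiff δ' z) :
    ∃ w, Γ.IsHomogeneousVec (kdg dV) (q + 1) w ∧ Γ.twistedDiff Δ w = x := by
  obtain ⟨Z, a1, a2⟩ := DG.x0_lift sj hz
  obtain ⟨y, b1, -, b2⟩ := g.acyc hf (hx.x0_sub (a1.x0_dv g.hm))
    (fun v => by rw [Pi.sub_apply, map_sub, g.map_dv hf, a2, ← e, sub_self])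
    (by rw [DG.lf_dv_sub, cx, Γ.dv_dv g.mc, sub_zero])
  exact ⟨Z + y, a1.x0_add b1, by rw [DG.lf_dv_add, b2, add_sub_cancel]⟩

end XgK

theorem xg_dv_equiv {U U' : Type u} [Fintype U] [Fintype U'] (e : U' ≃ U) (M : Matrix U U R)
    (x : U → R) (w : U') :
    Γ.twistedDiff (M.submatrix e e) (fun a => x (e a)) w = Γ.twistedDiff M x (e w) := by
  simp only [DG.twistedDiff, Matrix.submatrix_apply]
  rw [← Equiv.sum_comp e]

variable {U : Type u} [Fintype U] {dU : U → ℤ} {M : Matrix U U R}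

theorem xg_surj (e : V ⊕ V ≃ U) (hd : ∀ w, dU (e w) = kdg dV w)
    (g : XgK Γ f dV t (M.submatrix e e) δ') (hf : Γ.IsHom Γ' f f₀)
    (sj : ∀ k y, Γ'.IsHomogeneous k y → ∃ x, Γ.IsHomogeneous k x ∧ f x = y) {q : ℤ} {y : V → R'}
    (hy : Γ'.IsHomogeneousVec dV q y) (cy : Γ'.twistedDiff δ' y = 0) :
    ∃ x, Γ.IsHomogeneousVec dU q x ∧ Γ.twistedDiff M x = 0 ∧
      ∀ v, f (x (e (.inl v))) = y v := by
  obtain ⟨x, h1, h2, h3⟩ := g.surj hf sj hy cy
  refine ⟨fun s => x (e.symm s), fun s => ?_, funext fun s => ?_, fun v => ?_⟩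
  · obtain ⟨w, rfl⟩ := e.surjective s
    simp only [hd, e.symm_apply_apply]
    exact h1 w
  · obtain ⟨w, rfl⟩ := e.surjective s
    rw [← xg_dv_equiv e]
    simp only [e.symm_apply_apply]
    exact congrFun h2 w
  · simp only [e.symm_apply_apply]
    exact h3 v

theorem xg_inj (e : V ⊕ V ≃ U) (hd : ∀ w, dU (e w) = kdg dV w)
    (g : XgK Γ f dV t (M.submatrix e e) δ') (hf : Γ.IsHom Γ' f f₀)
    (sj : ∀ k y, Γ'.IsHomogeneous k y → ∃ x, Γ.IsHomogeneous k x ∧ f x = y) {q : ℤ}
    {x : U → R} {z : V → R'} (hx : Γ.IsHomogeneousVec dU q x)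
    (cx : Γ.twistedDiff M x = 0) (hz : Γ'.IsHomogeneousVec dV (q + 1) z)
    (h : (fun v => f (x (e (.inl v)))) = Γ'.twistedDiff δ' z) :
    ∃ w, Γ.IsHomogeneousVec dU (q + 1) w ∧ Γ.twistedDiff M w = x := by
  obtain ⟨w, h1, h2⟩ := g.inj hf sj (x := fun a => x (e a)) (fun a => hd a ▸ hx (e a))
    (funext fun a => by rw [xg_dv_equiv e, cx]; rfl) hz h
  refine ⟨fun s => w (e.symm s), fun s => ?_, funext fun s => ?_⟩
  · obtain ⟨a, rfl⟩ := e.surjective s
    simp only [hd, e.symm_apply_apply]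
    exact h1 a
  · obtain ⟨a, rfl⟩ := e.surjective s
    rw [← xg_dv_equiv e]
    simp only [e.symm_apply_apply]
    exact congrFun h2 a

end alg

variable {J : Type u} [Preorder J] {A B : RingDiagram J} {f : A.Hom B}

section cells
variable {C : Cells J}

/-- The differential on the chart `j`, for vectors indexed by all cells. -/
noncomputable def xgD (δ : ∀ s : C.Cell, C.Cell → MooreDGA (A.chart (C.birth s))) (j : J)
    (x : C.Cell → MooreDGA (A.chart j)) (r : C.Cell) : MooreDGA (A.chart j) :=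
  MooreDGA.boundary (x r) +
    ∑ s : C.CellsOn j, MooreDGA.sign (x s.1) * MooreDGA.map (A.res s.2) (δ s.1 r)

/-- The matrix of `δ` on a family of cells of the chart `j`. -/
def xgM (δ : ∀ s : C.Cell, C.Cell → MooreDGA (A.chart (C.birth s))) {j : J} {ι : Type u}
    (c : ι → C.Cell) (hc : ∀ i, C.birth (c i) ≤ j) : Matrix ι ι (MooreDGA (A.chart j)) :=
  Matrix.of fun i i' => MooreDGA.map (A.res (hc i)) (δ (c i) (c i'))

variable {δ : ∀ s : C.Cell, C.Cell → MooreDGA (A.chart (C.birth s))}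

theorem xg_res_res {i j k : J} (h : i ≤ j) (h' : j ≤ k) (x : MooreDGA (A.chart i)) :
    MooreDGA.map (A.res h') (MooreDGA.map (A.res h) x) = MooreDGA.map (A.res (h.trans h')) x :=
  MooreDGA.ext' fun n => A.res_comp h h' n _

theorem xg_res_refl {i : J} (h : i ≤ i) (x : MooreDGA (A.chart i)) :
    MooreDGA.map (A.res h) x = x := MooreDGA.ext' fun n => A.res_id i n _

theorem xg_res_app (f : A.Hom B) {i j : J} (h : i ≤ j) (x : MooreDGA (A.chart i)) :
    MooreDGA.map (f.app j) (MooreDGA.map (A.res h) x) =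
      MooreDGA.map (B.res h) (MooreDGA.map (f.app i) x) :=
  MooreDGA.ext' fun n => f.nat h n _

theorem xgD_sum {j : J} {ι : Type u} [Fintype ι] {c : ι → C.Cell} (hi : Function.Injective c)
    (hc : ∀ i, C.birth (c i) ≤ j) (x : C.Cell → MooreDGA (A.chart j)) (r : C.Cell)
    (h0 : ∀ s, C.birth s ≤ j → s ∉ Set.range c → x s = 0 ∨ δ s r = 0) :
    xgD δ j x r = MooreDGA.boundary (x r) +
      ∑ i, MooreDGA.sign (x (c i)) * MooreDGA.map (A.res (hc i)) (δ (c i) r) := by
  unfold xgD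
  congr 1
  refine (Fintype.sum_of_injective (fun i => (⟨c i, hc i⟩ : C.CellsOn j))
    (fun a b e => hi (congrArg Subtype.val e)) _ _ (fun s hs => ?_) (fun _ => rfl)).symm
  rcases h0 s.1 s.2 (fun ⟨i, e⟩ => hs ⟨i, Subtype.ext e⟩) with h | h
  · rw [h, map_zero, zero_mul]
  · rw [h, map_zero, mul_zero]

theorem xgD_res {i j : J} (h : i ≤ j) (x : C.Cell → MooreDGA (A.chart i))
    (hx : ∀ s, ¬ C.birth s ≤ i → x s = 0) (r : C.Cell) :
    xgD δ j (fun s => MooreDGA.map (A.res h) (x s)) r = MooreDGA.map (A.res h) (xgD δ i x r) := by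
  rw [xgD_sum (c := fun s : C.CellsOn i => s.1) Subtype.val_injective (fun s => s.2.trans h) _ r
    (fun s _ hs => Or.inl (by rw [hx s fun k => hs ⟨⟨s, k⟩, rfl⟩, map_zero]))]
  simp only [xgD, map_add, map_sum, map_mul, MooreDGA.map_bd, MooreDGA.map_sg, xg_res_res]

theorem xgD_congr {δ' : ∀ s : C.Cell, C.Cell → MooreDGA (A.chart (C.birth s))} {j : J}
    {x : C.Cell → MooreDGA (A.chart j)} (h : ∀ s, x s ≠ 0 → δ s = δ' s) (r : C.Cell) :
    xgD δ j x r = xgD δ' j x r := by
  unfold xgD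
  congr 1
  refine Finset.sum_congr rfl fun s _ => ?_
  by_cases hs : x s.1 = 0
  · rw [hs, map_zero, zero_mul, zero_mul]
  · rw [h s.1 hs]

theorem xgD_sub {j : J} (x y : C.Cell → MooreDGA (A.chart j)) (r : C.Cell) :
    xgD δ j (x - y) r = xgD δ j x r - xgD δ j y r := by
  simp only [xgD, Pi.sub_apply, map_sub, _root_.sub_mul, Finset.sum_sub_distrib]
  abel

theorem xgD_single {j : J} (s : C.Cell) (hs : C.birth s ≤ j) (a : (A.chart j).obj 0) (r : C.Cell) :
    xgD δ j (fun s' => if s' = s then MooreDGA.inc a else 0) r =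
      MooreDGA.inc a * MooreDGA.map (A.res hs) (δ s r) := by
  have h1 : MooreDGA.boundary (MooreDGA.inc a) = 0 := (dgN (A.chart j)).d_inc a
  have h2 : MooreDGA.sign (MooreDGA.inc a) = MooreDGA.inc a := (dgN (A.chart j)).e_inc a
  unfold xgD
  rw [Finset.sum_eq_single ⟨s, hs⟩]
  · beta_reduce
    rw [if_pos rfl, h2]
    split_ifs
    · rw [h1, zero_add]
    · rw [map_zero, zero_add]
  · intro b _ hb
    beta_reduce
    rw [if_neg fun e => hb (Subtype.ext e), map_zero, zero_mul]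
  · intro h
    exact absurd (Finset.mem_univ _) h

/-- The differential of a vector extended by zero from a closed family. -/
theorem xgD_extend {j : J} {ι : Type u} [Fintype ι] {c : ι → C.Cell} (hi : Function.Injective c)
    (hc : ∀ i, C.birth (c i) ≤ j) (cl : ∀ i r, r ∉ Set.range c → δ (c i) r = 0)
    (z : ι → MooreDGA (A.chart j)) (r : C.Cell) :
    xgD δ j (Function.extend c z 0) r =
      Function.extend c ((dgN (A.chart j)).twistedDiff (xgM δ c hc) z) 0 r := by
  rw [xgD_sum hi hc _ r fun s _ hs =>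
    Or.inl (Function.extend_apply' z (0 : C.Cell → MooreDGA (A.chart j)) s hs)]
  simp only [hi.extend_apply]
  by_cases hr : r ∈ Set.range c
  · obtain ⟨i, rfl⟩ := hr
    rw [hi.extend_apply, hi.extend_apply]
    rfl
  · rw [Function.extend_apply' _ _ _ hr, Function.extend_apply' _ _ _ hr]
    simp only [cl _ r hr, map_zero, mul_zero, Finset.sum_const_zero, Pi.zero_apply, add_zero]

theorem xg_mc {j : J} {ι : Type u} [Fintype ι] {c : ι → C.Cell} (hi : Function.Injective c)
    (hc : ∀ i, C.birth (c i) ≤ j) (tri : ∀ i r, ¬ C.birth r ≤ C.birth (c i) → δ (c i) r = 0)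
    (mc : ∀ i r, xgD δ (C.birth (c i)) (δ (c i)) r = 0)
    (h0 : ∀ i i' s, C.birth s ≤ j → s ∉ Set.range c → δ (c i) s = 0 ∨ δ s (c i') = 0) :
    (dgN (A.chart j)).dM (xgM δ c hc) (xgM δ c hc) = 0 := by
  ext i i' : 1
  have h1 := xgD_res (δ := δ) (hc i) (δ (c i)) (tri i) (c i')
  rw [mc, map_zero, xgD_sum hi hc _ _ fun s hs hr => (h0 i i' s hs hr).imp_left
    fun h => by rw [h, map_zero]] at h1
  exact h1

theorem xg_wf (κ : C.Cell → ℤ) :
    WellFounded fun s' s : C.Cell => C.birth s' ≤ C.birth s ∧ κ s' < κ s := by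
  refine Subrelation.wf (r := InvImage (· < ·) fun s : C.Cell =>
    Set.ncard {s' | C.birth s' ≤ C.birth s ∧ κ s' < κ s}) ?_ (InvImage.wf _ wellFounded_lt)
  intro s' s h
  have hf : {a | C.birth a ≤ C.birth s}.Finite := C.finite (C.birth s)
  refine Set.ncard_lt_ncard ⟨fun a ha => ⟨ha.1.trans h.1, ha.2.trans h.2⟩, fun k => ?_⟩
    (hf.subset fun a ha => ha.1)
  exact lt_irrefl _ (k h).2

/-- The doubled cells `v`, `ε v`. -/
def xgC (C : Cells J) : Cells J where
  Cell := C.Cell ⊕ C.Cell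
  birth := Sum.elim C.birth C.birth
  degree := kdg C.degree
  finite j := by
    have := C.finite j
    exact Finite.of_equiv ({s // C.birth s ≤ j} ⊕ {s // C.birth s ≤ j})
      (Equiv.subtypeSum (p := fun s : C.Cell ⊕ C.Cell => Sum.elim C.birth C.birth s ≤ j)).symm

/-- The doubled cells with birth in `p`. -/
def xgE (C : Cells J) (p : J → Prop) :
    {v // p (C.birth v)} ⊕ {v // p (C.birth v)} ≃ {s : (xgC C).Cell // p ((xgC C).birth s)} where
  toFun w := ⟨Sum.map Subtype.val Subtype.val w, by rcases w with w | w <;> exact w.2⟩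
  invFun s := match s with
    | ⟨.inl v, h⟩ => .inl ⟨v, h⟩
    | ⟨.inr v, h⟩ => .inr ⟨v, h⟩
  left_inv w := by rcases w with w | w <;> rfl
  right_inv s := by rcases s with ⟨v | v, h⟩ <;> rfl

/-- The swap `v ↔ ε v` pairs odd and even cells. -/
def xgβ (C : Cells J) (j : J) : OddCell ((xgC C).degOn j) ≃ EvenCell ((xgC C).degOn j) where
  toFun s := ⟨⟨s.1.1.swap, by rcases s with ⟨⟨v | v, h⟩, _⟩ <;> exact h⟩, by
    rcases s with ⟨⟨v | v, h⟩, k⟩
    · exact Odd.add_one k
    · exact Int.not_odd_iff_even.1 fun l => Int.not_odd_iff_even.2 (Odd.add_one l) k⟩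
  invFun s := ⟨⟨s.1.1.swap, by rcases s with ⟨⟨v | v, h⟩, _⟩ <;> exact h⟩, by
    rcases s with ⟨⟨v | v, h⟩, k⟩
    · exact Even.add_one k
    · exact Int.not_even_iff_odd.1 (Int.even_add_one.1 k)⟩
  left_inv s := by rcases s with ⟨⟨v | v, h⟩, _⟩ <;> rfl
  right_inv s := by rcases s with ⟨⟨v | v, h⟩, _⟩ <;> rfl

/-- `v'` comes before `v`. -/
def xgLt (C : Cells J) (v' v : C.Cell) : Prop :=
  C.birth v' ≤ C.birth v ∧ C.degree v' < C.degree v

/-- The cell under a doubled cell. -/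
def xgB {α : Type u} : α ⊕ α → α := Sum.elim id id

theorem xg_birth (s : (xgC C).Cell) : (xgC C).birth s = C.birth (xgB s) := by
  rcases s with v | v <;> rfl

end cells

variable (F : PerfectComplex B) (t : ∀ j, (A.chart j).obj 0)

/-- The required image of the left part of a row. -/
def xgT : ∀ s : (xgC F.C).Cell, F.C.Cell → MooreDGA (B.chart ((xgC F.C).birth s))
  | .inl v => F.δ v
  | .inr _ => fun _ => 0

variable (f) in
/-- The requirements for the row `x` of the cell `s`. -/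
structure XgRow (s : (xgC F.C).Cell)
    (δ : ∀ s : (xgC F.C).Cell, (xgC F.C).Cell → MooreDGA (A.chart ((xgC F.C).birth s)))
    (x : (xgC F.C).Cell → MooreDGA (A.chart ((xgC F.C).birth s))) : Prop where
  hg : ∀ r, MooreDGA.IsHomogeneous (kdg F.C.degree s - 1 - kdg F.C.degree r) (x r)
  supp : ∀ r, ¬ xgLt F.C (xgB r) (xgB s) → ¬ (r = .inl (xgB s) ∧ s = .inr (xgB s)) → x r = 0
  lift : ∀ v, MooreDGA.map (f.app _) (x (.inl v)) = xgT F s v
  diag : s = .inr (xgB s) → x (.inl (xgB s)) = MooreDGA.inc (t _)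
  mc : ∀ r, xgD δ _ x r = 0

variable {F t}
variable {δ : ∀ s : (xgC F.C).Cell, (xgC F.C).Cell → MooreDGA (A.chart ((xgC F.C).birth s))}

theorem XgRow.tri {s : (xgC F.C).Cell} {x} (h : XgRow f F t s δ x) (r : (xgC F.C).Cell)
    (hr : ¬ (xgC F.C).birth r ≤ (xgC F.C).birth s) : x r = 0 := by
  refine h.supp r (fun k => hr ?_) fun k => hr ?_
  · rw [xg_birth, xg_birth]
    exact k.1
  · rw [k.1, xg_birth s]
    exact le_rfl

theorem xg_hc {j : J} {W : Type u} {c : W → F.C.Cell} (hc : ∀ w, F.C.birth (c w) ≤ j)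
    (w : W ⊕ W) : (xgC F.C).birth (Sum.map c c w) ≤ j := by
  rcases w with w | w <;> exact hc w

theorem xg_K (hf : IsVirtualCartierDivisor f) (ht : ∀ j, (f.app j).IsGenerator (t j)) {j : J}
    {W : Type u} [Fintype W] {c : W → F.C.Cell} (hi : Function.Injective c)
    (hc : ∀ w, F.C.birth (c w) ≤ j)
    (row : ∀ w, XgRow f F t (Sum.map c c w) δ (δ (Sum.map c c w)))
    (h0 : ∀ w w' s, (xgC F.C).birth s ≤ j → s ∉ Set.range (Sum.map c c) →
      δ (Sum.map c c w) s = 0 ∨ δ s (Sum.map c c w') = 0) :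
    XgK (dgN (A.chart j)) (MooreDGA.map (f.app j)) (fun w => F.C.degree (c w))
      (fun w => (A.res (hc w)).app 0 (t _)) (xgM δ (Sum.map c c) (xg_hc hc)) (xgM F.δ c hc) where
  hm w w' := (dgN (A.chart j)).hg_cast (((row w).hg (Sum.map c c w')).map _) (by
    rcases w with w | w <;> rcases w' with w' | w' <;>
      simp only [kdg, Sum.map_inl, Sum.map_inr, Sum.elim_inl, Sum.elim_inr] <;> ring)
  diag v := (congrArg (MooreDGA.map (A.res (hc v))) ((row (.inr v)).diag rfl)).trans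
    (MooreDGA.map_inc _ _)
  off v v' hne hd := (congrArg (MooreDGA.map (A.res (hc v))) ((row (.inr v)).supp (.inl (c v'))
    (fun k => absurd k.2 (not_lt.2 hd)) fun k => hne (hi (Sum.inl_injective k.1)))).trans
      (map_zero _)
  ker v v' := (xg_res_app f (hc v) _).trans
    ((congrArg (MooreDGA.map (B.res (hc v))) ((row (.inr v)).lift (c v'))).trans (map_zero _))
  lift v v' := (xg_res_app f (hc v) _).trans
    (congrArg (MooreDGA.map (B.res (hc v))) ((row (.inl v)).lift (c v')))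
  ke v := (hf.gen_restrict (hc v) _ (ht _)).keN
  mc := xg_mc (hi.sumMap hi) (xg_hc hc) (fun w => (row w).tri) (fun w => (row w).mc) h0

/-- The rank used in the recursion. -/
def xgκ (C : Cells J) : (xgC C).Cell → ℤ :=
  Sum.elim (fun v => 2 * C.degree v) fun v => 2 * C.degree v + 1

theorem xg_lt_of {C : Cells J} {r s : (xgC C).Cell} (h : xgLt C (xgB r) (xgB s)) :
    (xgC C).birth r ≤ (xgC C).birth s ∧ xgκ C r < xgκ C s := by
  have h2 := h.2
  rcases r with r | r <;> rcases s with s | s <;> refine ⟨h.1, ?_⟩ <;>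
    simp only [xgB, xgκ, Sum.elim_inl, Sum.elim_inr, id] at h2 ⊢ <;> omega

/-- The doubled cells before `v`. -/
abbrev xgI (C : Cells J) (v : C.Cell) : {w // xgLt C w v} ⊕ {w // xgLt C w v} → (xgC C).Cell :=
  Sum.map Subtype.val Subtype.val

theorem xg_range {C : Cells J} (v : C.Cell) (r : (xgC C).Cell) :
    r ∈ Set.range (xgI C v) ↔ xgLt C (xgB r) v := by
  constructor
  · rintro ⟨w | w, rfl⟩ <;> exact w.2
  · intro h
    rcases r with r | r
    · exact ⟨.inl ⟨r, h⟩, rfl⟩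
    · exact ⟨.inr ⟨r, h⟩, rfl⟩

theorem xg_step (hf : IsVirtualCartierDivisor f) (ht : ∀ j, (f.app j).IsGenerator (t j))
    (s : (xgC F.C).Cell)
    (ih : ∀ w, ((xgC F.C).birth w ≤ (xgC F.C).birth s ∧ xgκ F.C w < xgκ F.C s) →
      XgRow f F t w δ (δ w)) : ∃ x, XgRow f F t s δ x := by
  obtain ⟨v, hv⟩ : ∃ v, xgB s = v := ⟨_, rfl⟩
  have : Finite {w // xgLt F.C w v} := by
    have := F.C.finite (F.C.birth v)
    exact Finite.of_injective
      (fun w : {w // xgLt F.C w v} => (⟨w.1, w.2.1⟩ : F.C.CellsOn (F.C.birth v)))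
      fun a b e => Subtype.ext (congrArg (fun x : F.C.CellsOn (F.C.birth v) => x.1) e)
  let _ : Fintype {w // xgLt F.C w v} := Fintype.ofFinite _
  have hi : Function.Injective (Subtype.val : {w // xgLt F.C w v} → F.C.Cell) :=
    Subtype.val_injective
  have hi2 : Function.Injective (xgI F.C v) := hi.sumMap hi
  have hc : ∀ w : {w // xgLt F.C w v}, F.C.birth w.1 ≤ F.C.birth v := fun w => w.2.1
  have row : ∀ w : {w // xgLt F.C w v} ⊕ {w // xgLt F.C w v},
      XgRow f F t (xgI F.C v w) δ (δ _) := fun w =>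
    ih _ (xg_lt_of (by rw [hv]; exact (xg_range v _).1 ⟨w, rfl⟩))
  have cl : ∀ (w : {w // xgLt F.C w v} ⊕ {w // xgLt F.C w v}) r,
      r ∉ Set.range (xgI F.C v) →
      δ (xgI F.C v w) r = 0 := by
    intro w r hr
    have h1 := (xg_range v _).1 ⟨w, rfl⟩
    rw [xg_range] at hr
    refine (row w).supp r (fun k => hr ⟨k.1.trans h1.1, k.2.trans h1.2⟩) fun k => hr ?_
    rw [k.1]
    exact h1
  have g := xg_K hf ht hi hc row fun w _ r _ hr => Or.inl (cl w r hr)
  have hom := SimplicialRing.isHom_map (f.app (F.C.birth v))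
  have dg : ∀ w : {w // xgLt F.C w v} ⊕ {w // xgLt F.C w v},
      kdg F.C.degree (xgI F.C v w) =
        kdg (fun w : {w // xgLt F.C w v} => F.C.degree w.1) w := by
    rintro (w | w) <;> rfl
  have ext : ∀ (q : ℤ) (z : {w // xgLt F.C w v} ⊕ {w // xgLt F.C w v} →
      MooreDGA (A.chart (F.C.birth v))),
      (dgN (A.chart (F.C.birth v))).IsHomogeneousVec
        (kdg fun w : {w // xgLt F.C w v} => F.C.degree w.1) q z → ∀ r,
      MooreDGA.IsHomogeneous (q - kdg F.C.degree r)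
        (Function.extend (xgI F.C v) z 0 r) := by
    intro q z hz r
    by_cases hr : r ∈ Set.range (xgI F.C v)
    · obtain ⟨w, rfl⟩ := hr
      rw [hi2.extend_apply, dg]
      exact hz w
    · rw [Function.extend_apply' _ _ _ hr]
      exact MooreDGA.hg_zero _
  have ext0 : ∀ (z : {w // xgLt F.C w v} ⊕ {w // xgLt F.C w v} →
      MooreDGA (A.chart (F.C.birth v))) r, ¬ xgLt F.C (xgB r) v →
      Function.extend (xgI F.C v) z 0 r = 0 := fun z r hr =>
    Function.extend_apply' _ _ _ fun k => hr ((xg_range v r).1 k)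
  have extl : ∀ (z : {w // xgLt F.C w v} ⊕ {w // xgLt F.C w v} →
      MooreDGA (A.chart (F.C.birth v))) w (h : xgLt F.C w v),
      Function.extend (xgI F.C v) z 0 (.inl w) = z (.inl ⟨w, h⟩) :=
    fun z w h => hi2.extend_apply z 0 (.inl ⟨w, h⟩)
  rcases s with v' | v'
  · obtain rfl : v' = v := hv
    have z0 : ∀ w, ¬ xgLt F.C w v' → F.δ v' w = 0 := by
      intro w hw
      by_cases h : F.C.birth w ≤ F.C.birth v'
      · refine MooreDGA.eq_zero_of_neg ?_ (F.homogeneous v' w)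
        have : ¬ F.C.degree w < F.C.degree v' := fun k => hw ⟨h, k⟩
        omega
      · exact F.triangular v' w h
    obtain ⟨x, x1, x2, x3⟩ := g.surj hom (SimplicialRing.hg_lift (hf.surj _))
      (q := F.C.degree v' - 1) (y := fun w => F.δ v' w.1) (fun w => F.homogeneous v' w.1)
      (funext fun w => by
        have h1 : xgD F.δ (F.C.birth v') (fun r => MooreDGA.map (B.res le_rfl) (F.δ v' r)) w.1 = 0 :=
          congrFun (F.maurerCartan (F.C.birth v') ⟨v', le_rfl⟩) ⟨w.1, w.2.1⟩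
        simp only [xg_res_refl] at h1
        rw [xgD_sum hi hc _ _ fun r _ hr => Or.inl (z0 r fun k => hr ⟨⟨r, k⟩, rfl⟩)] at h1
        exact h1)
    refine ⟨Function.extend (xgI F.C v') x 0, ext _ x x1,
      fun r hr _ => ext0 x r hr, fun w => ?_, fun k => absurd k Sum.inl_ne_inr, fun r => ?_⟩
    · by_cases h : xgLt F.C w v'
      · exact (congrArg _ (extl x w h)).trans (x3 ⟨w, h⟩)
      · exact (congrArg _ (ext0 x (.inl w) h)).trans ((map_zero _).trans (z0 w h).symm)
    · refine (xgD_extend hi2 (xg_hc hc) cl x r).trans ?_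
      rw [x2]
      by_cases hr : r ∈ Set.range (xgI F.C v')
      · obtain ⟨w, rfl⟩ := hr
        exact hi2.extend_apply _ _ _
      · exact Function.extend_apply' _ _ _ hr
  · obtain rfl : v' = v := hv
    have r0 : XgRow f F t (.inl v') δ (δ (.inl v')) := ih _ ⟨le_rfl, lt_add_one _⟩
    obtain ⟨x0, hx0⟩ : ∃ x0 : (xgC F.C).Cell → MooreDGA (A.chart (F.C.birth v')),
        x0 = δ (.inl v') := ⟨_, rfl⟩
    have z0 : ∀ r, ¬ xgLt F.C (xgB r) v' → x0 r = 0 := fun r hr =>
      hx0 ▸ r0.supp r hr fun k => absurd k.2 Sum.inl_ne_inr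
    have hg0 : ∀ r, MooreDGA.IsHomogeneous (F.C.degree v' - 1 - kdg F.C.degree r) (x0 r) :=
      fun r => hx0 ▸ r0.hg r
    have mc0 : ∀ r, xgD δ (F.C.birth v') x0 r = 0 := fun r => hx0 ▸ r0.mc r
    have sg : ∀ r, xgD δ (F.C.birth v')
        (fun s' => if s' = .inl v' then MooreDGA.inc (t (F.C.birth v')) else 0) r =
        MooreDGA.inc (t (F.C.birth v')) * x0 r := fun r =>
      (xgD_single (C := xgC F.C) (.inl v') le_rfl _ r).trans
        (congrArg _ ((xg_res_refl _ _).trans (congrFun hx0 r).symm))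
    have c0 : (dgN (A.chart (F.C.birth v'))).twistedDiff (xgM δ _ (xg_hc hc))
        (fun w => x0 (xgI F.C v' w)) = 0 := funext fun w => by
      have h1 := mc0 (xgI F.C v' w)
      rw [xgD_sum hi2 (xg_hc hc) _ _
        fun r _ hr => Or.inl (z0 r fun k => hr ((xg_range v' r).2 k))] at h1
      exact h1
    obtain ⟨z, z1, z2, z3⟩ := g.acyc hom (n := F.C.degree v' - 1)
      (x := fun w => MooreDGA.inc (t (F.C.birth v')) * x0 (xgI F.C v' w))
      (fun w => (dgN (A.chart (F.C.birth v'))).hg_cast ((dgN (A.chart (F.C.birth v'))).hg_mul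
        ((dgN (A.chart (F.C.birth v'))).hg_inc _) (hg0 (xgI F.C v' w))) (by rw [dg, zero_add]))
      (fun w => by
        have := (ht (F.C.birth v')).keN.f_t
        rw [map_mul]
        exact (congrArg (· * _) this).trans (zero_mul _))
      (funext fun w => by
        have h1 := congrArg (fun a => (dgN (A.chart (F.C.birth v'))).inc (t (F.C.birth v')) * a)
          (congrFun c0 w)
        change (dgN (A.chart (F.C.birth v'))).twistedDiff _ (fun w =>
          (dgN (A.chart (F.C.birth v'))).inc (t (F.C.birth v')) * _) w = 0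
        simpa only [DG.twistedDiff, DG.d_mul, DG.d_inc, DG.e_inc, map_mul, zero_mul, zero_add,
          mul_add, Finset.mul_sum, mul_assoc, Pi.zero_apply, mul_zero] using h1)
    rw [sub_add_cancel] at z1
    have irr : ¬ xgLt F.C v' v' := fun k => lt_irrefl _ k.2
    obtain ⟨u, hu⟩ : ∃ u : (xgC F.C).Cell → MooreDGA (A.chart (F.C.birth v')),
        u = fun s' => if s' = .inl v' then MooreDGA.inc (t (F.C.birth v')) else 0 := ⟨_, rfl⟩
    have u1 : u (.inl v') = MooreDGA.inc (t (F.C.birth v')) := by rw [hu]; exact if_pos rfl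
    have u2 : ∀ r, r ≠ .inl v' → u r = 0 := fun r hr => by rw [hu]; exact if_neg hr
    rw [← hu] at sg
    have a1 : ∀ r, MooreDGA.IsHomogeneous (F.C.degree v' + 1 - 1 - kdg F.C.degree r)
        ((u - Function.extend (xgI F.C v') z 0) r) := fun r => by
      rw [add_sub_cancel_right]
      refine (dgN (A.chart (F.C.birth v'))).hg_sub ?_ (ext _ z z1 r)
      by_cases h : r = .inl v'
      · rw [h, u1]
        exact (dgN (A.chart (F.C.birth v'))).hg_cast ((dgN (A.chart (F.C.birth v'))).hg_inc _)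
          (sub_self _).symm
      · rw [u2 r h]
        exact MooreDGA.hg_zero _
    have a2 : ∀ r, ¬ xgLt F.C (xgB r) v' → r ≠ .inl v' →
        (u - Function.extend (xgI F.C v') z 0) r = 0 := fun r hr hr' => by
      exact (congrArg₂ (· - ·) (u2 r hr') (ext0 z r hr)).trans (sub_zero _)
    have a3 : ∀ w, MooreDGA.map (f.app (F.C.birth v'))
        ((u - Function.extend (xgI F.C v') z 0) (.inl w)) = 0 := fun w => by
      have e1 : MooreDGA.map (f.app (F.C.birth v'))
          (Function.extend (xgI F.C v') z 0 (.inl w)) = 0 := by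
        by_cases h : xgLt F.C w v'
        · rw [extl z w h, z2]
        · rw [ext0 z (.inl w) h, map_zero]
      refine (map_sub _ _ _).trans ((congrArg _ e1).trans ((sub_zero _).trans ?_))
      by_cases h : w = v'
      · rw [h, u1]
        exact (ht _).keN.f_t
      · rw [u2 _ fun k => h (Sum.inl_injective k), map_zero]
    have a4 : (u - Function.extend (xgI F.C v') z 0) (.inl v') =
        MooreDGA.inc (t (F.C.birth v')) :=
      (congrArg₂ (· - ·) u1 (ext0 z (.inl v') irr)).trans (sub_zero _)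
    have a5 : ∀ r, xgD δ (F.C.birth v') (u - Function.extend (xgI F.C v') z 0) r = 0 := fun r => by
      rw [xgD_sub, sg, xgD_extend hi2 (xg_hc hc) cl z r, sub_eq_zero]
      refine Eq.trans ?_ (congrArg (fun y => Function.extend (xgI F.C v') y
        (0 : (xgC F.C).Cell → MooreDGA (A.chart (F.C.birth v'))) r) z3).symm
      by_cases hr : r ∈ Set.range (xgI F.C v')
      · obtain ⟨w, rfl⟩ := hr
        rw [hi2.extend_apply]
      · rw [Function.extend_apply' _ _ _ hr, z0 r fun k => hr ((xg_range v' r).2 k), mul_zero]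
        rfl
    exact ⟨u - Function.extend (xgI F.C v') z 0, a1, fun r hr hr' => a2 r hr fun k => hr' ⟨k, rfl⟩,
      a3, fun _ => a4, a5⟩

theorem xg_exists (hf : IsVirtualCartierDivisor f) (ht : ∀ j, (f.app j).IsGenerator (t j)) :
    ∃ δ, ∀ s, XgRow f F t s δ (δ s) := by
  refine xg_rec (xg_wf (xgκ F.C)) (fun a b c h h' => ⟨h.1.trans h'.1, h.2.trans h'.2⟩)
    (fun _ => 0) (XgRow f F t) ?_ fun s δ ih => xg_step hf ht s ih
  intro s δ δ' x e h
  refine ⟨h.hg, h.supp, h.lift, h.diag, fun r => ?_⟩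
  rw [← h.mc r]
  refine (xgD_congr (fun w hw => e w ?_) r).symm
  by_contra k
  refine hw (h.supp w (fun l => k (xg_lt_of l)) fun l => k ?_)
  rcases s with v | v
  · exact absurd l.2 Sum.inl_ne_inr
  · rw [l.1]
    exact ⟨le_rfl, lt_add_one _⟩

variable (F) in
/-- The projection `v ↦ v`, `ε v ↦ 0`. -/
noncomputable def xgψ (s : (xgC F.C).Cell) (v : F.C.Cell) :
    MooreDGA (B.chart ((xgC F.C).birth s)) := if s = .inl v then 1 else 0

theorem xgψ_on (j : J) (s : (xgC F.C).CellsOn j) (v : F.C.CellsOn j) :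
    matrixOn (xgψ F) j s v = if s = ⟨.inl v.1, v.2⟩ then 1 else 0 := by
  simp only [matrixOn, Matrix.of_apply, xgψ, MooreDGA.push]
  by_cases h : s.1 = .inl v.1
  · rw [if_pos h, if_pos (Subtype.ext h), map_one]
  · rw [if_neg h, if_neg fun k => h (congrArg Subtype.val k), map_zero]

theorem xg_semi (j : J) (x : (xgC F.C).CellsOn j → MooreDGA (A.chart j)) :
    MooreDGA.semilinearMap (f.app j) (matrixOn (xgψ F) j) x =
      fun v => MooreDGA.map (f.app j) (x ⟨.inl v.1, v.2⟩) := by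
  funext v
  simp only [MooreDGA.semilinearMap, semilinearOf, xgψ_on, mul_ite, mul_one, mul_zero, Finset.sum_ite_eq',
    Finset.mem_univ, if_true]

theorem exists_push (hf : IsVirtualCartierDivisor f) (F : PerfectComplex B) :
    ∃ G : PerfectComplex A, Nonempty (PushforwardModel f G F) ∧
      Nonempty (∀ j, OddCell (G.C.degOn j) ≃ EvenCell (G.C.degOn j)) := by
  choose t ht using hf.gen
  obtain ⟨δ, row⟩ := xg_exists (F := F) hf ht
  have gOn : ∀ j, XgK (dgN (A.chart j)) (MooreDGA.map (f.app j)) (F.C.degOn j) _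
      ((matrixOn δ j).submatrix (xgE F.C (· ≤ j)) (xgE F.C (· ≤ j))) (F.matrix j) := fun j =>
    xg_K hf ht (c := fun v : F.C.CellsOn j => v.1) Subtype.val_injective (fun v => v.2)
      (fun _ => row _) fun _ _ s hs hr => absurd
        ⟨(xgE F.C (· ≤ j)).symm ⟨s, hs⟩,
          congrArg Subtype.val ((xgE F.C (· ≤ j)).apply_symm_apply ⟨s, hs⟩)⟩ hr
  have dOn : ∀ (p : J → Prop) w, (xgC F.C).degree (xgE F.C p w).1 =
      kdg (fun v : {v // p (F.C.birth v)} => F.C.degree v.1) w := by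
    rintro p (w | w) <;> rfl
  let G : PerfectComplex A :=
    { C := xgC F.C
      δ := δ
      triangular := fun s => (row s).tri
      homogeneous := fun s => (row s).hg
      maurerCartan := fun j s => funext fun r =>
        (xgD_res (δ := δ) s.2 (δ s.1) (row s.1).tri r.1).trans
          ((congrArg _ ((row s.1).mc r.1)).trans (map_zero _))
      cartesian := fun {i j} h q x hx cx => by
        have g := xg_K hf ht (c := fun v : F.C.CellsBetween i j => v.1) Subtype.val_injective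
          (fun v => v.2.1) (fun _ => row _) fun _ w' s hs hr => Or.inr ((row s).tri _ fun k => by
            have k1 : (xgC F.C).birth s ≤ i := by
              by_contra k2
              exact hr ⟨(xgE F.C (fun a => a ≤ j ∧ ¬ a ≤ i)).symm ⟨s, hs, k2⟩, congrArg Subtype.val
                ((xgE F.C (fun a => a ≤ j ∧ ¬ a ≤ i)).apply_symm_apply ⟨s, hs, k2⟩)⟩
            exact (xgE F.C (fun a => a ≤ j ∧ ¬ a ≤ i) w').2.2 (k.trans k1))
        have hom := SimplicialRing.isHom_map (f.app j)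
        obtain ⟨z, z1, z2⟩ := F.cartesian h q (fun v => MooreDGA.map (f.app j)
            (x (xgE F.C (fun a => a ≤ j ∧ ¬ a ≤ i) (.inl v))))
          (fun v => (hx (xgE F.C (fun a => a ≤ j ∧ ¬ a ≤ i) (.inl v))).map _)
          (funext fun v => (g.map_dv hom
            (fun a => x (xgE F.C (fun a => a ≤ j ∧ ¬ a ≤ i) a)) v).symm.trans
              ((congrArg _ ((xg_dv_equiv (Γ := dgN (A.chart j))
                (xgE F.C (fun a => a ≤ j ∧ ¬ a ≤ i)) _ x (.inl v)).trans
                  (congrFun cx _))).trans (map_zero _)))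
        exact xg_inj (xgE F.C (fun a => a ≤ j ∧ ¬ a ≤ i)) (dOn fun a => a ≤ j ∧ ¬ a ≤ i) g hom
          (SimplicialRing.hg_lift (hf.surj j)) hx cx z1 z2.symm }
  refine ⟨G, ⟨⟨xgψ F, fun s v h => if_neg ?_, fun s v => ?_, fun j s => ?_, fun j q y hy cy => ?_,
    fun j q x z hx cx hz e => ?_⟩⟩, ⟨xgβ F.C⟩⟩
  · rintro rfl
    exact h le_rfl
  · unfold xgψ
    split_ifs with h
    · subst h
      exact (dgN _).hg_cast (dgN _).hg_one (sub_self _).symm
    · exact MooreDGA.hg_zero _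
  · refine Eq.trans ?_ (xg_semi j _).symm
    funext r
    refine Eq.trans ?_ ((xg_res_app f s.2 _).trans (congrArg _ ((row s.1).lift r.1))).symm
    have h1 : MooreDGA.boundary (1 : MooreDGA (B.chart j)) = 0 := (dgN (B.chart j)).d_one
    simp only [MooreDGA.twistedDiff, twistedDiffOf, xgψ_on, apply_ite MooreDGA.boundary,
      apply_ite MooreDGA.sign, map_zero, map_one, h1, ite_self, zero_add, ite_mul, one_mul,
      zero_mul]
    rcases s with ⟨v | v, hs⟩
    · rw [Finset.sum_eq_single ⟨v, hs⟩, if_pos rfl]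
      · rfl
      · intro b _ hb
        exact if_neg fun k => hb (Subtype.ext (Sum.inl_injective (congrArg Subtype.val k)).symm)
      · intro h
        exact absurd (Finset.mem_univ _) h
    · rw [Finset.sum_eq_zero fun b _ => if_neg fun k => Sum.inr_ne_inl (congrArg Subtype.val k)]
      exact (map_zero _).symm
  · obtain ⟨x, x1, x2, x3⟩ := xg_surj (dU := (xgC F.C).degOn j) (xgE F.C (· ≤ j)) (dOn (· ≤ j)) (gOn j)
      (SimplicialRing.isHom_map (f.app j)) (SimplicialRing.hg_lift (hf.surj j)) hy cy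
    refine ⟨x, 0, x1, x2, fun _ => MooreDGA.hg_zero _, (xg_semi j x).trans ?_⟩
    have h0 : MooreDGA.twistedDiff (F.matrix j) 0 = 0 := DG.lf_dv_zero (Γ := dgN (B.chart j)) _
    rw [h0, add_zero]
    exact funext x3
  · exact xg_inj (xgE F.C (· ≤ j)) (dOn (· ≤ j)) (gOn j) (SimplicialRing.isHom_map (f.app j))
      (SimplicialRing.hg_lift (hf.surj j)) hx cx hz ((xg_semi j x).symm.trans e)

end Pool.Agent.P.MP_932208_ag
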