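import Pool.Agent.P.MP_932208_ag.Lift

/-!
Acyclic semi-free modules and contractibility modulo the ideal of boundaries.
-/

namespace Pool.Agent.P.MP_932208_ag

open Classical

universe u

set_option linter.unusedSectionVars false

section Ex
variable {U U' K K' : Type u} [Fintype U] [Fintype U'] [CommRing K] [CommRing K'] {J : Ideal K}
  {J' : Ideal K'} {dg : U → ℤ} {δ₀ : Matrix U U K} {π π₁ : U → Prop}

theorem x0_map (g : K →+* K') (δ h : Matrix U U K) (s r : U) :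
    (δ.map g * h.map g + h.map g * δ.map g - 1 : Matrix U U K') s r =
      g ((δ * h + h * δ - 1 : Matrix U U K) s r) := by
  have := map_sub g.mapMatrix (δ * h + h * δ) 1
  rw [map_add, map_mul, map_mul, map_one] at this
  exact (congrFun (congrFun this s) r).symm

theorem x0_sub {e : U' → U} (he : Function.Injective e) (δ h : Matrix U U K)
    (hb : ∀ s r, h s r ≠ 0 → s ∈ Set.range e ∧ r ∈ Set.range e) (s r : U') :
    (δ.submatrix e e * h.submatrix e e + h.submatrix e e * δ.submatrix e e - 1 :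
      Matrix U' U' K) s r = (δ * h + h * δ - 1 : Matrix U U K) (e s) (e r) := by
  rw [← sub_mul he δ h e e fun x w y hw => by
      rw [not_not.1 (mt (fun h0 => (hb _ _ h0).1) hw), mul_zero],
    ← sub_mul he h δ e e fun x w y hw => by
      rw [not_not.1 (mt (fun h0 => (hb _ _ h0).2) hw), zero_mul]]
  simp [Matrix.one_apply, he.eq_iff]

theorem x0_ring {A : Type*} [Ring A] {p₁ p₂ δ h₁ h₂ : A} (a1 : p₁ * p₁ = p₁) (a2 : p₂ * p₂ = p₂)
    (a3 : p₁ * p₂ = 0) (a4 : p₂ * p₁ = 0) (b1 : p₁ * h₁ * p₁ = h₁) (b2 : p₂ * h₂ * p₂ = h₂)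
    (dd : δ * δ = 0) (c : (p₁ + p₂) * δ * (p₁ + p₂) = (p₁ + p₂) * δ) (c1 : p₁ * δ * p₁ = p₁ * δ)
    (e1 : p₁ * (δ * h₁ + h₁ * δ - 1) * p₁ = 0) (e2 : p₂ * (δ * h₂ + h₂ * δ - 1) * p₂ = 0) :
    ∀ H, H = h₁ + h₂ - (h₁ + h₂) * (p₂ * δ * h₁ + h₂ * δ * p₁) →
      (p₁ + p₂) * H * (p₁ + p₂) = H ∧ (p₁ + p₂) * (δ * H + H * δ - 1) * (p₁ + p₂) = 0 := by
  have l1 : p₁ * h₁ = h₁ := by rw [← b1, ← mul_assoc, ← mul_assoc, a1]
  have r1 : h₁ * p₁ = h₁ := by rw [← b1, mul_assoc, a1]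
  have l2 : p₂ * h₂ = h₂ := by rw [← b2, ← mul_assoc, ← mul_assoc, a2]
  have r2 : h₂ * p₂ = h₂ := by rw [← b2, mul_assoc, a2]
  have l3 : p₁ * h₂ = 0 := by rw [← l2, ← mul_assoc, a3, zero_mul]
  have r3 : h₂ * p₁ = 0 := by rw [← r2, mul_assoc, a4, mul_zero]
  have l4 : p₂ * h₁ = 0 := by rw [← l1, ← mul_assoc, a4, zero_mul]
  have r4 : h₁ * p₂ = 0 := by rw [← r1, mul_assoc, a3, mul_zero]
  obtain ⟨p, hp⟩ : ∃ p, p = p₁ + p₂ := ⟨_, rfl⟩
  obtain ⟨h, hh⟩ : ∃ h, h = h₁ + h₂ := ⟨_, rfl⟩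
  obtain ⟨v, hv⟩ : ∃ v, v = p₂ * δ * h₁ + h₂ * δ * p₁ := ⟨_, rfl⟩
  have pp : p * p = p := by rw [hp, add_mul, mul_add, mul_add, a1, a2, a3, a4]; abel
  have ph : p * h = h := by rw [hp, hh, add_mul, mul_add, mul_add, l1, l2, l3, l4]; abel
  have hp' : h * p = h := by rw [hp, hh, add_mul, mul_add, mul_add, r1, r2, r3, r4]; abel
  have v1 : v * p₁ = v := by rw [hv, add_mul, mul_assoc _ h₁, r1, mul_assoc _ p₁, a1]
  have v2 : p₂ * v = v := by
    rw [hv, mul_add, ← mul_assoc, ← mul_assoc, a2, ← mul_assoc, ← mul_assoc, l2]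
  have vv : v * v = 0 := by
    calc v * v = v * p₁ * (p₂ * v) := by rw [v1, v2]
      _ = v * (p₁ * p₂) * v := by noncomm_ring
      _ = 0 := by rw [a3, mul_zero, zero_mul]
  have vp : v * p = v := by
    rw [← v1, hp, mul_assoc, mul_add, a1, a3, add_zero]
  have pv : p * v = v := by
    rw [← v2, hp, ← mul_assoc, add_mul, a2, a3, zero_add]
  rw [← hp] at c
  have e1' : p₁ * δ * h₁ + h₁ * δ * p₁ = p₁ := by
    have : p₁ * (δ * h₁ + h₁ * δ - 1) * p₁ =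
      p₁ * δ * (h₁ * p₁) + p₁ * h₁ * δ * p₁ - p₁ * p₁ := by noncomm_ring
    rw [this, r1, l1, a1] at e1
    exact sub_eq_zero.1 e1
  have e2' : p₂ * δ * h₂ + h₂ * δ * p₂ = p₂ := by
    have : p₂ * (δ * h₂ + h₂ * δ - 1) * p₂ =
      p₂ * δ * (h₂ * p₂) + p₂ * h₂ * δ * p₂ - p₂ * p₂ := by noncomm_ring
    rw [this, r2, l2, a2] at e2
    exact sub_eq_zero.1 e2
  have z1 : p₁ * δ * h₂ = 0 := by rw [← c1, mul_assoc, l3, mul_zero]
  have z2 : h₁ * δ * p₂ = 0 := by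
    rw [← r1, mul_assoc h₁, ← c1, mul_assoc, mul_assoc, a3, mul_zero, mul_zero]
  have hd : h * (p * δ) = h * δ * p := by
    rw [← c, ← mul_assoc, ← mul_assoc, hp']
  have T : p * δ * h + h * (p * δ) = p + v := by
    rw [hd]
    calc p * δ * h + h * δ * p = (p₁ * δ * h₁ + h₁ * δ * p₁) + (p₂ * δ * h₂ + h₂ * δ * p₂) +
          (p₂ * δ * h₁ + h₂ * δ * p₁) + p₁ * δ * h₂ + h₁ * δ * p₂ := by rw [hp, hh]; noncomm_ring
      _ = _ := by rw [e1', e2', z1, z2, add_zero, add_zero, hp, hv]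
  have d2 : p * δ * (p * δ) = 0 := by rw [← mul_assoc, c, mul_assoc, dd, mul_zero]
  have twistedDiff : p * δ * v = v * (p * δ) := by
    have f1 : p * δ * (p + v) = (p + v) * (p * δ) := by
      rw [← T, mul_add, add_mul, mul_assoc (p * δ) h, mul_assoc h, d2, ← mul_assoc (p * δ), d2]
      simp
    rw [mul_add, add_mul, c, ← mul_assoc p p, pp] at f1
    exact add_left_cancel f1
  rintro H rfl
  rw [← hp, ← hh, ← hv]
  have k1 : p * (h - h * v) = h - h * v := by rw [mul_sub, ← mul_assoc, ph]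
  have k2 : (h - h * v) * p = h - h * v := by rw [_root_.sub_mul, mul_assoc, vp, hp']
  refine ⟨by rw [k1, k2], ?_⟩
  calc p * (δ * (h - h * v) + (h - h * v) * δ - 1) * p
      = p * δ * ((h - h * v) * p) + p * (h - h * v) * δ * p - p * p := by noncomm_ring
    _ = p * δ * (h - h * v) + (h - h * v) * (p * δ) - p := by
        rw [k1, pp, ← c, ← mul_assoc (h - h * v), ← mul_assoc (h - h * v), k2, c]
    _ = (p * δ * h + h * (p * δ)) - p * δ * h * v - h * (v * (p * δ)) - p := by noncomm_ring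
    _ = (p * δ * h + h * (p * δ)) - (p * δ * h + h * (p * δ)) * v - p := by
        rw [← twistedDiff]; noncomm_ring
    _ = 0 := by rw [T, add_mul, pv, vv]; abel

/-- The matrix shifts the degree by `k`. -/
def X0Deg (dg : U → ℤ) (k : ℤ) (M : Matrix U U K) : Prop := ∀ s r, dg r ≠ dg s + k → M s r = 0

theorem X0Deg.add {k : ℤ} {M MooreDGA : Matrix U U K} (h : X0Deg dg k M) (h' : X0Deg dg k MooreDGA) :
    X0Deg dg k (M + MooreDGA) := fun s r hk => by simp [h s r hk, h' s r hk]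

theorem X0Deg.sub {k : ℤ} {M MooreDGA : Matrix U U K} (h : X0Deg dg k M) (h' : X0Deg dg k MooreDGA) :
    X0Deg dg k (M - MooreDGA) := fun s r hk => by simp [h s r hk, h' s r hk]

theorem X0Deg.mul {k l m : ℤ} {M MooreDGA : Matrix U U K} (h : X0Deg dg k M) (h' : X0Deg dg l MooreDGA)
    (e : k + l = m) : X0Deg dg m (M * MooreDGA) := fun s r hk => by
  rw [Matrix.mul_apply]
  refine Finset.sum_eq_zero fun w _ => ?_
  by_cases hw : dg w = dg s + k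
  · rw [h' w r (by omega), mul_zero]
  · rw [h s w hw, zero_mul]

/-- The projection on the cells with property `π`. -/
noncomputable def x0P (K : Type u) [CommRing K] (π : U → Prop) : Matrix U U K :=
  Matrix.diagonal fun s => if π s then 1 else 0

theorem x0P_deg (π : U → Prop) : X0Deg dg 0 (x0P K π) := fun s r h =>
  Matrix.diagonal_apply_ne _ fun e => h (by rw [e, add_zero])

theorem x0P_mul (π : U → Prop) (M : Matrix U U K) (s r : U) :
    (x0P K π * M) s r = if π s then M s r else 0 := by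
  simp [x0P, Matrix.diagonal_mul]

theorem mul_x0P (π : U → Prop) (M : Matrix U U K) (s r : U) :
    (M * x0P K π) s r = if π r then M s r else 0 := by
  simp [x0P, Matrix.mul_diagonal]

theorem x0P_apply (π : U → Prop) (s r : U) :
    x0P K π s r = if s = r ∧ π s then 1 else 0 := by
  by_cases h : s = r <;> simp [x0P, h]

theorem Ex0.map (g : K →+* K') (homogeneous : ∀ a ∈ J, g a ∈ J') (h : Ex0 J dg δ₀ π) :
    Ex0 J' dg (δ₀.map g) π := by
  obtain ⟨h, h1, h2⟩ := h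
  refine ⟨h.map g, fun s r h0 => h1 s r fun e => h0 (by simp [e]), fun s r hs hr => ?_⟩
  rw [x0_map]
  exact homogeneous _ (h2 s r hs hr)

theorem Ex0.reflect (g : K →+* K') (sj : Function.Surjective g) (homogeneous : ∀ a, g a ∈ J' → a ∈ J)
    (h : Ex0 J' dg (δ₀.map g) π) : Ex0 J dg δ₀ π := by
  obtain ⟨h, h1, h2⟩ := h
  have ex : ∀ b : K', ∃ a, g a = b ∧ (b = 0 → a = 0) := fun b => by
    by_cases hb : b = 0
    · exact ⟨0, by simp [hb], fun _ => rfl⟩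
    · exact (sj b).imp fun a ha => ⟨ha, fun h => absurd h hb⟩
  choose σ σ1 σ2 using ex
  refine ⟨h.map σ, fun s r h0 => h1 s r fun e => h0 (σ2 _ e), fun s r hs hr => homogeneous _ ?_⟩
  rw [← x0_map, show (h.map σ).map g = h from Matrix.ext fun s r => σ1 _]
  exact h2 s r hs hr

theorem Ex0.congr {π' : U → Prop} (hπ : ∀ s, π s ↔ π' s) (h : Ex0 J dg δ₀ π) :
    Ex0 J dg δ₀ π' := by
  rwa [← show π = π' from funext fun s => propext (hπ s)]

theorem ex0_sub_iff' {e : U' → U} (he : Function.Injective e) (hπ : ∀ s, π s → s ∈ Set.range e) :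
    Ex0 J (dg ∘ e) (δ₀.submatrix e e) (π ∘ e) ↔ Ex0 J dg δ₀ π := by
  constructor
  · rintro ⟨h, h1, h2⟩
    let H : Matrix U U K := Function.extend e (fun s => Function.extend e (h s) 0) 0
    have a1 : ∀ s r, H (e s) (e r) = h s r := fun s r => by simp [H, he.extend_apply]
    have a2 : ∀ s r, H s r ≠ 0 → s ∈ Set.range e ∧ r ∈ Set.range e := fun s r h0 => by
      by_cases hs : ∃ a, e a = s
      · obtain ⟨s, rfl⟩ := hs
        refine ⟨⟨s, rfl⟩, by_contra fun hr => h0 ?_⟩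
        simp only [H, he.extend_apply]
        rw [Function.extend_apply' _ _ _ hr]
        rfl
      · refine absurd ?_ h0
        simp only [H]
        rw [Function.extend_apply' _ _ _ hs]
        rfl
    refine ⟨H, fun s r h0 => ?_, fun s r hs hr => ?_⟩
    · obtain ⟨⟨s, rfl⟩, r, rfl⟩ := a2 s r h0
      exact h1 s r (a1 s r ▸ h0)
    · obtain ⟨s, rfl⟩ := hπ s hs
      obtain ⟨r, rfl⟩ := hπ r hr
      rw [← x0_sub he δ₀ H a2, show H.submatrix e e = h from Matrix.ext a1]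
      exact h2 s r hs hr
  · rintro ⟨h, h1, h2⟩
    refine ⟨h.submatrix e e, fun s r h0 => h1 _ _ h0, fun s r hs hr => ?_⟩
    rw [x0_sub he δ₀ h fun s r h0 => ⟨hπ _ (h1 s r h0).1, hπ _ (h1 s r h0).2.1⟩]
    exact h2 _ _ hs hr

/-- Passage between a block and the corresponding submatrix. -/
theorem ex0_sub_iff {e : U' → U} (he : Function.Injective e) (hπ : ∀ s, π s ↔ s ∈ Set.range e) :
    Ex0 J (dg ∘ e) (δ₀.submatrix e e) (fun _ => True) ↔ Ex0 J dg δ₀ π := by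
  rw [← ex0_sub_iff' he fun s => (hπ s).1]
  have : ∀ s, True ↔ (π ∘ e) s := fun s => ⟨fun _ => (hπ _).2 ⟨s, rfl⟩, fun _ => trivial⟩
  exact ⟨Ex0.congr this, Ex0.congr fun s => (this s).symm⟩

theorem x0_ext (hd : ∀ s r, dg r + 1 ≠ dg s → δ₀ s r = 0) (dd : δ₀ * δ₀ = 0)
    (sb : ∀ s, π₁ s → π s) (cl : ∀ s r, π s → ¬ π r → δ₀ s r = 0)
    (cl₁ : ∀ s r, π₁ s → ¬ π₁ r → δ₀ s r = 0) (h₁ : Ex0 ⊥ dg δ₀ π₁)
    (h₂ : Ex0 ⊥ dg δ₀ fun s => π s ∧ ¬ π₁ s) : Ex0 ⊥ dg δ₀ π := by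
  obtain ⟨h₁, a1, a2⟩ := h₁
  obtain ⟨h₂, b1, b2⟩ := h₂
  have hP : x0P K π₁ + x0P K (fun s => π s ∧ ¬ π₁ s) = x0P K π := Matrix.ext fun s r => by
    have := sb s
    simp only [Matrix.add_apply, x0P_apply]
    by_cases h1 : s = r <;> by_cases h2 : π₁ s <;> by_cases h3 : π s <;> simp_all
  have hs : ∀ (ρ : U → Prop) (h : Matrix U U K),
      (∀ s r, h s r ≠ 0 → ρ s ∧ ρ r ∧ dg r = dg s + 1) → x0P K ρ * h * x0P K ρ = h :=
    fun ρ h hh => Matrix.ext fun s r => by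
      rw [mul_x0P, x0P_mul]
      by_cases h0 : h s r = 0
      · simp [h0]
      · rw [if_pos (hh s r h0).1, if_pos (hh s r h0).2.1]
  have hc : ∀ ρ : U → Prop, (∀ s r, ρ s → ¬ ρ r → δ₀ s r = 0) →
      x0P K ρ * δ₀ * x0P K ρ = x0P K ρ * δ₀ := fun ρ hh => Matrix.ext fun s r => by
    rw [mul_x0P, x0P_mul]
    split_ifs with c1 c2 c2
    · rfl
    · rfl
    · exact (hh s r c2 c1).symm
    · rfl
  have hz : ∀ (ρ : U → Prop) (M : Matrix U U K), (∀ s r, ρ s → ρ r → M s r ∈ (⊥ : Ideal K)) →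
      x0P K ρ * M * x0P K ρ = 0 := fun ρ M hh => Matrix.ext fun s r => by
    rw [mul_x0P, x0P_mul]
    split_ifs with c1 c2
    · exact hh s r c2 c1
    · rfl
    · rfl
  have hq : ∀ ρ ρ' : U → Prop, x0P K ρ * x0P K ρ' = x0P K fun s => ρ s ∧ ρ' s :=
    fun ρ ρ' => Matrix.ext fun s r => by
      rw [x0P_mul, x0P_apply, x0P_apply]
      by_cases h1 : ρ s <;> simp [h1]
  have h0 : x0P K (fun _ : U => False) = 0 := Matrix.ext fun s r => by simp [x0P_apply]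
  obtain ⟨k1, k2⟩ := x0_ring (p₁ := x0P K π₁) (p₂ := x0P K fun s => π s ∧ ¬ π₁ s)
    (by rw [hq]; simp) (by rw [hq]; simp) (by rw [hq, ← h0]; congr; ext s; tauto)
    (by rw [hq, ← h0]; congr; ext s; tauto) (hs _ _ a1) (hs _ _ b1) dd
    (by rw [hP]; exact hc _ cl) (hc _ cl₁) (hz _ _ a2) (hz _ _ b2) _ rfl
  rw [hP] at k1 k2
  have g1 : X0Deg dg 1 h₁ := fun s r h => by_contra fun h0 => h (a1 s r h0).2.2
  have g2 : X0Deg dg 1 h₂ := fun s r h => by_contra fun h0 => h (b1 s r h0).2.2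
  have g3 : X0Deg dg (-1) δ₀ := fun s r h => hd s r (by omega)
  have g4 := (g1.add g2).sub ((g1.add g2).mul
    (((((x0P_deg fun s => π s ∧ ¬ π₁ s).mul g3 rfl).mul g1 rfl)).add
      ((g2.mul g3 rfl).mul (x0P_deg π₁) (by norm_num))) (by norm_num))
  refine ⟨_, fun s r h => ⟨?_, ?_, by_contra fun h' => h (g4 s r h')⟩, fun s r hs hr => ?_⟩
  · by_contra h'
    exact h (by rw [← k1, mul_x0P, x0P_mul, if_neg h', ite_self])
  · by_contra h'
    exact h (by rw [← k1, mul_x0P, if_neg h'])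
  · have := congrFun (congrFun k2 s) r
    rwa [mul_x0P, x0P_mul, if_pos hs, if_pos hr] at this

/-- Extensions: `π` is closed under `δ₀`, `π₁ ⊆ π` is closed under `δ₀`. -/
theorem Ex0.ext (hd : ∀ s r, dg r + 1 ≠ dg s → δ₀ s r = 0) (dd : ∀ s r, (δ₀ * δ₀) s r ∈ J)
    (sb : ∀ s, π₁ s → π s) (cl : ∀ s r, π s → ¬ π r → δ₀ s r = 0)
    (cl₁ : ∀ s r, π₁ s → ¬ π₁ r → δ₀ s r = 0) (h₁ : Ex0 J dg δ₀ π₁)
    (h₂ : Ex0 J dg δ₀ fun s => π s ∧ ¬ π₁ s) : Ex0 J dg δ₀ π := by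
  have homogeneous : ∀ a ∈ J, Ideal.Quotient.mk J a ∈ (⊥ : Ideal (K ⧸ J)) := fun a ha =>
    Ideal.Quotient.eq_zero_iff_mem.2 ha
  refine Ex0.reflect (J' := ⊥) (Ideal.Quotient.mk J) Ideal.Quotient.mk_surjective
    (fun a ha => Ideal.Quotient.eq_zero_iff_mem.1 ha) (x0_ext (fun s r h => by simp [hd s r h])
      ?_ sb (fun s r a b => by simp [cl s r a b]) (fun s r a b => by simp [cl₁ s r a b])
      (h₁.map _ homogeneous) (h₂.map _ homogeneous))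
  rw [← Matrix.map_mul]
  exact Matrix.ext fun s r => homogeneous _ (dd s r)

end Ex

variable {R R' : Type u} [Ring R] [Ring R'] {K K' : Type u} [CommRing K] [CommRing K']
  {Γ : DG R K} {Γ' : DG R' K'} {f : R →+* R'} {f₀ : K →+* K'}

namespace DG

theorem IsHom.mem_J (hf : Γ.IsHom Γ' f f₀) {a : K} (ha : a ∈ Γ.J) : f₀ a ∈ Γ'.J := by
  obtain ⟨x, hx, rfl⟩ := ha
  exact ⟨f x, hf.homogeneous hx, by rw [hf.ev, hf.d]⟩

theorem x0_ev_d {k : ℤ} {x : R} (h : Γ.IsHomogeneous k x) : Γ.ev (Γ.d x) ∈ Γ.J := by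
  by_cases hk : k = 1
  · exact ⟨x, hk ▸ h, rfl⟩
  · rw [Γ.ev_pos (by omega) (Γ.hg_d h)]
    exact zero_mem _

section
variable {U U₁ U₂ : Type u} [Fintype U] [Fintype U₁] [Fintype U₂] {dg : U → ℤ}
  {δ : Matrix U U R}

theorem x0_dv_add (x y : U → R) : Γ.twistedDiff δ (x + y) = Γ.twistedDiff δ x + Γ.twistedDiff δ y := by
  ext r
  simp only [twistedDiff, Pi.add_apply, map_add, add_mul, Finset.sum_add_distrib]
  abel

theorem x0_dv_zero : Γ.twistedDiff δ 0 = 0 := by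
  ext r
  simp [twistedDiff]

theorem x0_dv_neg (x : U → R) : Γ.twistedDiff δ (-x) = -Γ.twistedDiff δ x := by
  ext r
  simp only [twistedDiff, Pi.neg_apply, map_neg, neg_mul, Finset.sum_neg_distrib]
  abel

theorem x0_dv_sub (x y : U → R) : Γ.twistedDiff δ (x - y) = Γ.twistedDiff δ x - Γ.twistedDiff δ y := by
  rw [sub_eq_add_neg, x0_dv_add, x0_dv_neg, sub_eq_add_neg]

theorem IsHomogeneousVec.x0_add {q : ℤ} {x y : U → R} (hx : Γ.IsHomogeneousVec dg q x) (hy : Γ.IsHomogeneousVec dg q y) :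
    Γ.IsHomogeneousVec dg q (x + y) := fun s => Γ.hg_add (hx s) (hy s)

theorem IsHomogeneousVec.x0_sub {q : ℤ} {x y : U → R} (hx : Γ.IsHomogeneousVec dg q x) (hy : Γ.IsHomogeneousVec dg q y) :
    Γ.IsHomogeneousVec dg q (x - y) := fun s => Γ.hg_sub (hx s) (hy s)

theorem IsHomogeneousVec.x0_dv {q : ℤ} {x : U → R} (hδ : Γ.HM dg dg (-1) δ) (hx : Γ.IsHomogeneousVec dg (q + 1) x) :
    Γ.IsHomogeneousVec dg q (Γ.twistedDiff δ x) := by
  simpa using IsHomogeneousVec.twistedDiff Γ hδ hx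

theorem x0_glue (e : U₁ ⊕ U₂ ≃ U) {q : ℤ} {x₁ : U₁ → R} {x₂ : U₂ → R}
    (h₁ : Γ.IsHomogeneousVec (dg ∘ e ∘ .inl) q x₁) (h₂ : Γ.IsHomogeneousVec (dg ∘ e ∘ .inr) q x₂) :
    ∃ x : U → R, Γ.IsHomogeneousVec dg q x ∧ x ∘ e ∘ .inl = x₁ ∧ x ∘ e ∘ .inr = x₂ := by
  refine ⟨Sum.elim x₁ x₂ ∘ e.symm, fun s => ?_, by ext; simp, by ext; simp⟩
  obtain ⟨s | s, rfl⟩ := e.surjective s
  · simpa using h₁ s
  · simpa using h₂ s

theorem x0_ext2 (e : U₁ ⊕ U₂ ≃ U) {x y : U → R} (h₁ : x ∘ e ∘ .inl = y ∘ e ∘ .inl)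
    (h₂ : x ∘ e ∘ .inr = y ∘ e ∘ .inr) : x = y := by
  ext s
  obtain ⟨s | s, rfl⟩ := e.surjective s
  · exact congrFun h₁ s
  · exact congrFun h₂ s

theorem x0_dv_inr (e : U₁ ⊕ U₂ ≃ U) (triangular : ∀ s r, δ (e (.inl s)) (e (.inr r)) = 0) (x : U → R) :
    Γ.twistedDiff δ x ∘ e ∘ .inr = Γ.twistedDiff (δ.submatrix (e ∘ .inr) (e ∘ .inr)) (x ∘ e ∘ .inr) := by
  ext r
  simp [twistedDiff, ← Equiv.sum_comp e, triangular]

theorem x0_dv_inl (e : U₁ ⊕ U₂ ≃ U) {x : U → R} (hx : x ∘ e ∘ .inr = 0) :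
    Γ.twistedDiff δ x ∘ e ∘ .inl = Γ.twistedDiff (δ.submatrix (e ∘ .inl) (e ∘ .inl)) (x ∘ e ∘ .inl) := by
  ext r
  have : ∀ s, x (e (.inr s)) = 0 := congrFun hx
  simp [twistedDiff, ← Equiv.sum_comp e, this]

theorem x0_kill (e : U₁ ⊕ U₂ ≃ U) (triangular : ∀ s r, δ (e (.inl s)) (e (.inr r)) = 0)
    (h₂ : Γ.IsAcyclic (dg ∘ e ∘ .inr) (δ.submatrix (e ∘ .inr) (e ∘ .inr))) {q : ℤ} {y : U → R}
    (hy : Γ.IsHomogeneousVec dg q y) (cy : Γ.twistedDiff δ y ∘ e ∘ .inr = 0) :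
    ∃ a, Γ.IsHomogeneousVec dg (q + 1) a ∧ (y - Γ.twistedDiff δ a) ∘ e ∘ .inr = 0 := by
  rw [x0_dv_inr e triangular] at cy
  obtain ⟨a₂, ha, ea⟩ := h₂ q _ (fun s => hy _) cy
  obtain ⟨a, h1, -, h2⟩ := x0_glue e (x₁ := 0) (fun _ => Γ.hg_zero _) ha
  refine ⟨a, h1, ?_⟩
  rw [Pi.sub_comp, x0_dv_inr e triangular, h2, ea]
  exact sub_self _

/-- A boundary that lies in the submodule is a boundary there. -/
theorem x0_bd (e : U₁ ⊕ U₂ ≃ U) (hδ : Γ.HM dg dg (-1) δ) (maurerCartan : Γ.dM δ δ = 0)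
    (triangular : ∀ s r, δ (e (.inl s)) (e (.inr r)) = 0)
    (h₂ : Γ.IsAcyclic (dg ∘ e ∘ .inr) (δ.submatrix (e ∘ .inr) (e ∘ .inr))) {q : ℤ} {y : U → R}
    (hy : Γ.IsHomogeneousVec dg q y) (cy : Γ.twistedDiff δ y ∘ e ∘ .inr = 0) :
    ∃ y₁, Γ.IsHomogeneousVec (dg ∘ e ∘ .inl) q y₁ ∧
      Γ.twistedDiff (δ.submatrix (e ∘ .inl) (e ∘ .inl)) y₁ = Γ.twistedDiff δ y ∘ e ∘ .inl := by
  obtain ⟨a, h1, h2⟩ := x0_kill e triangular h₂ hy cy
  refine ⟨(y - Γ.twistedDiff δ a) ∘ e ∘ .inl, fun s => (hy.x0_sub (h1.x0_dv hδ)) _, ?_⟩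
  rw [← x0_dv_inl e h2, x0_dv_sub, Γ.dv_dv maurerCartan, sub_zero]

theorem HM.ev_eq_zero (hδ : Γ.HM dg dg (-1) δ) (s r : U) (h : dg r + 1 ≠ dg s) :
    δ.map Γ.ev s r = 0 :=
  Γ.ev_pos (by omega) (hδ s r)

theorem ev_sq_mem (hδ : Γ.HM dg dg (-1) δ) (maurerCartan : Γ.dM δ δ = 0) (s r : U) :
    (δ.map Γ.ev * δ.map Γ.ev) s r ∈ Γ.J := by
  have h : Γ.twistedDiff δ (δ s) r = 0 := congrFun (congrFun maurerCartan s) r
  have h2 := congrArg Γ.ev h
  simp only [twistedDiff, map_add, map_sum, map_mul, Γ.ev_e, map_zero] at h2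
  rw [Matrix.mul_apply]
  simp only [Matrix.map_apply]
  rw [eq_neg_of_add_eq_zero_right h2]
  exact neg_mem (x0_ev_d (hδ s r))

theorem x0_contr (hδ : Γ.HM dg dg (-1) δ) (maurerCartan : Γ.dM δ δ = 0) (h : Γ.IsAcyclic dg δ) (m : ℤ)
    (hm : ∀ s, m ≤ dg s) (n : ℕ) : ∃ H : Matrix U U R, Γ.HM dg dg 1 H ∧
      ∀ s, dg s < m + n → Γ.dM δ H s = (1 - δ.map Γ.e * H : Matrix U U R) s := by
  have lo : ∀ s r, dg s ≤ dg r → δ s r = 0 := fun s r h => Γ.eq_zero (by omega) (hδ s r)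
  induction n with
  | zero => exact ⟨0, fun _ _ => Γ.hg_zero _, fun s hs => absurd (hm s) (by omega)⟩
  | succ n ih =>
    obtain ⟨H, h1, h2⟩ := ih
    have m1 : (δ.map Γ.e).map Γ.d = δ * δ.map Γ.e := Matrix.ext fun s r => by
      have h : Γ.twistedDiff δ (δ s) r = 0 := congrFun (congrFun maurerCartan s) r
      have h2 := congrArg Γ.e h
      simp only [twistedDiff, map_add, map_sum, map_mul, Γ.e_e, map_zero] at h2
      simp only [Matrix.map_apply, Matrix.mul_apply, Γ.d_e]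
      exact (eq_neg_of_add_eq_zero_right h2).symm
    have m2 : (δ.map Γ.e).map Γ.e = δ := Matrix.ext fun s r => Γ.e_e _
    have m3 : Γ.dM δ 1 = δ := Matrix.ext fun s r => by
      simp [dM, Matrix.one_apply, apply_ite Γ.d, Γ.d_one]
    have ex : ∀ s, ∃ y, Γ.IsHomogeneousVec dg (dg s + 1) y ∧ (dg s ≠ m + n → y = H s) ∧
        (dg s = m + n → Γ.twistedDiff δ y = (1 - δ.map Γ.e * H : Matrix U U R) s) := fun s => by
      by_cases hs : dg s = m + n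
      · obtain ⟨y, y1, y2⟩ := h (dg s) ((1 - δ.map Γ.e * H : Matrix U U R) s) (fun r => by
          refine Γ.hg_sub ?_ ?_
          · by_cases e : s = r
            · rw [e, Matrix.one_apply_eq, sub_self]; exact Γ.hg_one
            · rw [Matrix.one_apply_ne e]; exact Γ.hg_zero _
          · have : Γ.HM dg dg (-1) (δ.map Γ.e) := fun a b => Γ.hg_e (hδ a b)
            simpa using HM.mul Γ this h1 s r) (by
          change Γ.twistedDiff δ ((1 : Matrix U U R) s - (δ.map Γ.e * H) s) = 0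
          rw [x0_dv_sub, ← dM_apply, ← dM_apply, Γ.dM_mul, m1, m2, m3, sub_eq_zero]
          have : (δ * Γ.dM δ H) s = (δ * (1 - δ.map Γ.e * H)) s := funext fun r => by
            rw [Matrix.mul_apply, Matrix.mul_apply]
            refine Finset.sum_congr rfl fun w _ => ?_
            by_cases hw : dg s ≤ dg w
            · rw [lo s w hw, zero_mul, zero_mul]
            · rw [h2 w (by omega)]
          change δ s = (δ * δ.map Γ.e * H) s + (δ * Γ.dM δ H) s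
          rw [this, mul_sub, mul_one, ← mul_assoc]
          ext r
          simp)
        exact ⟨y, y1, fun h => absurd hs h, fun _ => y2⟩
      · exact ⟨H s, h1 s, fun _ => rfl, fun h => absurd h hs⟩
    choose y y1 y2 y3 using ex
    refine ⟨Matrix.of y, y1, fun s hs => ?_⟩
    have e : (1 - δ.map Γ.e * Matrix.of y : Matrix U U R) s =
        (1 - δ.map Γ.e * H : Matrix U U R) s := funext fun r => by
      simp only [Matrix.sub_apply, Matrix.mul_apply, Matrix.map_apply, Matrix.of_apply]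
      congr 1
      refine Finset.sum_congr rfl fun w _ => ?_
      by_cases hw : dg s ≤ dg w
      · rw [lo s w hw, map_zero, zero_mul, zero_mul]
      · rw [y2 w (by push_cast at hs; omega)]
    rw [e]
    by_cases hs' : dg s = m + n
    · exact y3 s hs'
    · rw [← h2 s (by push_cast at hs; omega), dM_apply, dM_apply, ← y2 s hs']
      rfl

/-- An acyclic finite semi-free module is contractible, hence contractible over `π_0`. -/
theorem IsAcyclic.ex0 (hδ : Γ.HM dg dg (-1) δ) (maurerCartan : Γ.dM δ δ = 0) (h : Γ.IsAcyclic dg δ) :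
    Ex0 Γ.J dg (δ.map Γ.ev) fun _ => True := by
  obtain ⟨m, hm⟩ := (Set.finite_range dg).bddBelow
  obtain ⟨M, hM⟩ := (Set.finite_range dg).bddAbove
  obtain ⟨H, h1, h2⟩ := x0_contr hδ maurerCartan h m (fun s => hm ⟨s, rfl⟩) (M - m + 1).toNat
  refine ⟨H.map Γ.ev, fun s r h0 => ⟨trivial, trivial, by_contra fun h' =>
    h0 (Γ.ev_pos (by omega) (h1 s r))⟩, fun s r _ _ => ?_⟩
  have a := hM ⟨s, rfl⟩
  have h3 := congrArg Γ.ev (congrFun (h2 s (by omega)) r)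
  simp only [dM_apply, twistedDiff, map_add, map_sum, map_mul, Γ.ev_e, Matrix.sub_apply, map_sub,
    Matrix.mul_apply, Matrix.map_apply, Matrix.one_apply, apply_ite Γ.ev, map_one,
    map_zero] at h3
  simp only [Matrix.sub_apply, Matrix.add_apply, Matrix.mul_apply, Matrix.map_apply,
    Matrix.one_apply]
  have h4 := neg_mem (x0_ev_d (h1 s r))
  rw [eq_sub_of_add_eq h3] at h4
  exact Eq.mpr (congrArg (· ∈ Γ.J) (by ring)) h4

/-- A submodule of an acyclic module with acyclic quotient is acyclic. -/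
theorem IsAcyclic.of_quot (e : U₁ ⊕ U₂ ≃ U) (hδ : Γ.HM dg dg (-1) δ) (maurerCartan : Γ.dM δ δ = 0)
    (triangular : ∀ s r, δ (e (.inl s)) (e (.inr r)) = 0) (h : Γ.IsAcyclic dg δ)
    (h₂ : Γ.IsAcyclic (dg ∘ e ∘ .inr) (δ.submatrix (e ∘ .inr) (e ∘ .inr))) :
    Γ.IsAcyclic (dg ∘ e ∘ .inl) (δ.submatrix (e ∘ .inl) (e ∘ .inl)) := by
  intro q x₁ hx cx
  obtain ⟨x, a1, a2, a3⟩ := x0_glue e hx (x₂ := 0) fun _ => Γ.hg_zero _
  obtain ⟨y, b1, b2⟩ := h q x a1 (x0_ext2 e (by rw [x0_dv_inl e a3, a2, cx]; rfl)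
    (by rw [x0_dv_inr e triangular, a3, x0_dv_zero]; rfl))
  obtain ⟨y₁, c1, c2⟩ := x0_bd e hδ maurerCartan triangular h₂ b1 (by rw [b2, a3])
  exact ⟨y₁, c1, by rw [c2, b2, a2]⟩

end

variable {S V : Type u} [Fintype S] [Fintype V] {dS : S → ℤ} {dV : V → ℤ}

theorem x0_kz_f (hf : Γ.IsHom Γ' f f₀) {t : K} (ke : Γ.KE f t) (p q : Matrix V V R)
    (x : V ⊕ V → R) (v : V) : f (Γ.twistedDiff (Γ.kz t p q) x (.inl v)) =
      Γ'.twistedDiff (p.map f) (fun w => f (x (.inl w))) v := by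
  simp [twistedDiff, kz, Matrix.diagonal_apply, hf.d, hf.e, ke.f_t]

theorem x0_lift (sj : ∀ k y, Γ'.IsHomogeneous k y → ∃ x, Γ.IsHomogeneous k x ∧ f x = y) {n : ℤ} {z : V → R'}
    (hz : Γ'.IsHomogeneousVec dV n z) : ∃ Z : V ⊕ V → R, Γ.IsHomogeneousVec (kdg dV) n Z ∧ (fun w => f (Z (.inl w))) = z := by
  choose y y1 y2 using fun v => sj _ _ (hz v)
  refine ⟨Sum.elim y 0, ?_, funext y2⟩
  rintro (v | v)
  · exact y1 v
  · exact Γ.hg_zero _

theorem x0_kz_top {t : K} (ke : Γ.KE f t) {p q : Matrix V V R}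
    (hm : Γ.HM (kdg dV) (kdg dV) (-1) (Γ.kz t p q))
    (maurerCartan : Γ.dM (Γ.kz t p q) (Γ.kz t p q) = 0) {n : ℤ} {x : V ⊕ V → R}
    (hx : Γ.IsHomogeneousVec (kdg dV) n x) (kx : ∀ v, f (x (.inl v)) = 0) (cx : Γ.twistedDiff (Γ.kz t p q) x = 0) :
    ∃ y : V ⊕ V → R, Γ.IsHomogeneousVec (kdg dV) (n + 1) y ∧ Γ.twistedDiff (Γ.kz t p q) y = x := by
  obtain ⟨y, h1, -, -, h2⟩ := kz_acyc ke (fun _ => True) hm (fun _ _ _ h => absurd trivial h)
    (fun w _ => congrFun maurerCartan w) hx (fun w h => absurd (by cases w <;> trivial) h) kx cx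
  exact ⟨y, h1, h2⟩

theorem x0_cone_S (δ : Matrix S S R) (t : K) (o : OD S V R) (x : S ⊕ (V ⊕ V) → R) (r : S) :
    Γ.twistedDiff (o.matrix Γ δ t) x (.inl r) = -Γ.e (Γ.twistedDiff δ (fun s => Γ.e (x (.inl s))) r) := by
  simp [twistedDiff, OD.matrix, cone, Γ.d_e, Γ.e_e, add_comm]

theorem x0_cone_P (δ : Matrix S S R) (t : K) (o : OD S V R) (x : S ⊕ (V ⊕ V) → R) (w : V ⊕ V) :
    Γ.twistedDiff (o.matrix Γ δ t) x (.inr w) = Γ.twistedDiff (Γ.kz t o.p o.q) (fun w => x (.inr w)) w +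
      ∑ s, Γ.e (x (.inl s)) * Matrix.fromCols o.pS o.qS s w := by
  simp only [twistedDiff, OD.matrix, cone, Fintype.sum_sum_type (α₁ := S), Matrix.fromBlocks_apply₁₂,
    Matrix.fromBlocks_apply₂₂]
  abel

/-- The Koszul lift of an acyclic module is acyclic. -/
theorem acyc_kz (hf : Γ.IsHom Γ' f f₀) (sj : ∀ k y, Γ'.IsHomogeneous k y → ∃ x, Γ.IsHomogeneous k x ∧ f x = y) {t : K}
    (ke : Γ.KE f t) {p q : Matrix V V R} (hm : Γ.HM (kdg dV) (kdg dV) (-1) (Γ.kz t p q))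
    (maurerCartan : Γ.dM (Γ.kz t p q) (Γ.kz t p q) = 0) (h : Γ'.IsAcyclic dV (p.map f)) :
    Γ.IsAcyclic (kdg dV) (Γ.kz t p q) := by
  intro n x hx cx
  obtain ⟨z, z1, z2⟩ := h n (fun w => f (x (.inl w))) (fun v => hf.homogeneous (hx (.inl v)))
    (funext fun v => by rw [← x0_kz_f hf ke p q, cx]; exact map_zero f)
  obtain ⟨Z, a1, a2⟩ := x0_lift sj z1
  obtain ⟨y, b1, b2⟩ := x0_kz_top ke hm maurerCartan (hx.x0_sub (a1.x0_dv hm))
    (fun v => by rw [Pi.sub_apply, map_sub, x0_kz_f hf ke, a2, z2, sub_self])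
    (by rw [x0_dv_sub, cx, Γ.dv_dv maurerCartan, sub_zero])
  exact ⟨Z + y, a1.x0_add b1, by rw [x0_dv_add, b2, add_sub_cancel]⟩

/-- The cone of a lift of a quasi-isomorphism is acyclic. -/
theorem acyc_cone (hf : Γ.IsHom Γ' f f₀) (sj : ∀ k y, Γ'.IsHomogeneous k y → ∃ x, Γ.IsHomogeneous k x ∧ f x = y) {t : K}
    (ke : Γ.KE f t) {δ : Matrix S S R} {o : OD S V R}
    (hm : Γ.HM (cdg dS dV) (cdg dS dV) (-1) (o.matrix Γ δ t))
    (maurerCartan : Γ.dM (o.matrix Γ δ t) (o.matrix Γ δ t) = 0)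
    (h : QI Γ Γ' f dS dV δ (o.p.map f) (o.pS.map f)) : Γ.IsAcyclic (cdg dS dV) (o.matrix Γ δ t) := by
  have hk : Γ.HM (kdg dV) (kdg dV) (-1) (Γ.kz t o.p o.q) := fun w w' => hm (.inr w) (.inr w')
  have mk : Γ.dM (Γ.kz t o.p o.q) (Γ.kz t o.p o.q) = 0 := Matrix.ext fun w w' => by
    have h1 : Γ.twistedDiff (o.matrix Γ δ t) (o.matrix Γ δ t (.inr w)) (.inr w') = 0 :=
      congrFun (congrFun maurerCartan (.inr w)) (.inr w')
    rw [x0_cone_P] at h1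
    have h2 : Γ.twistedDiff (Γ.kz t o.p o.q) (fun w' => Γ.kz t o.p o.q w w') w' = 0 := by
      simpa [OD.matrix, cone] using h1
    exact h2
  have fP : ∀ (x : S ⊕ (V ⊕ V) → R) v, f (Γ.twistedDiff (o.matrix Γ δ t) x (.inr (.inl v))) =
      Γ'.twistedDiff (o.p.map f) (fun w => f (x (.inr (.inl w)))) v +
        ∑ s, f (Γ.e (x (.inl s))) * o.pS.map f s v := fun x v => by
    rw [x0_cone_P, map_add, x0_kz_f hf ke]
    simp
  have A : ∀ n x, Γ.IsHomogeneousVec (cdg dS dV) n x → Γ.twistedDiff (o.matrix Γ δ t) x = 0 → (∀ s, x (.inl s) = 0) →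
      ∃ y, Γ.IsHomogeneousVec (cdg dS dV) (n + 1) y ∧ Γ.twistedDiff (o.matrix Γ δ t) y = x := by
    intro n x hx cx x0
    obtain ⟨a, z, a1, a2, z1, z2⟩ := h.surj n (fun w => f (x (.inr (.inl w))))
      (fun v => hf.homogeneous (hx (.inr (.inl v)))) (funext fun v => by
        have := fP x v
        rw [cx] at this
        simpa [x0] using this.symm)
    obtain ⟨Z, b1, b2⟩ := x0_lift sj z1
    let Y : S ⊕ (V ⊕ V) → R := Sum.elim (fun s => Γ.e (a s)) (-Z)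
    have Y1 : Γ.IsHomogeneousVec (cdg dS dV) (n + 1) Y := by
      rintro (s | w)
      · exact Γ.hg_cast (Γ.hg_e (a1 s)) (by simp [cdg])
      · exact Γ.hg_neg (b1 w)
    have Y2 : ∀ s, (x - Γ.twistedDiff (o.matrix Γ δ t) Y) (.inl s) = 0 := fun s => by
      rw [Pi.sub_apply, x0, x0_cone_S]
      simp [Y, Γ.e_e, a2]
    have Y3 : Γ.twistedDiff (o.matrix Γ δ t) (x - Γ.twistedDiff (o.matrix Γ δ t) Y) = 0 := by
      rw [x0_dv_sub, cx, Γ.dv_dv maurerCartan, sub_zero]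
    obtain ⟨u, u1, u2⟩ := x0_kz_top ke hk mk (n := n)
      (x := fun w => (x - Γ.twistedDiff (o.matrix Γ δ t) Y) (.inr w))
      (fun w => (hx.x0_sub (Y1.x0_dv hm)) (.inr w)) (fun v => by
        have e : (fun w => f (Y (.inr (.inl w)))) = -z := by rw [← b2]; ext w; simp [Y]
        have := congrFun z2 v
        rw [Pi.sub_apply, map_sub, fP, e, x0_dv_neg]
        simp only [Y, Sum.elim_inl, Γ.e_e]
        rw [this]
        simp) (funext fun w => by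
        have := congrFun Y3 (.inr w)
        rw [x0_cone_P] at this
        simpa only [Y2, map_zero, zero_mul, Finset.sum_const_zero, add_zero, Pi.zero_apply]
          using this)
    refine ⟨Y + Sum.elim (fun _ => 0) u, Y1.x0_add ?_, ?_⟩
    · rintro (s | w)
      · exact Γ.hg_zero _
      · exact u1 w
    · rw [x0_dv_add, ← eq_sub_iff_add_eq']
      ext (s | w)
      · rw [Y2, x0_cone_S]
        simp [twistedDiff]
      · rw [x0_cone_P, ← congrFun u2 w]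
        simp
  intro n x hx cx
  obtain ⟨w, w1, w2⟩ := h.inj (n - 1) (fun s => Γ.e (x (.inl s)))
    (-fun w => f (x (.inr (.inl w))))
    (fun s => Γ.hg_cast (Γ.hg_e (hx (.inl s))) (by simp [cdg]; ring)) (funext fun s => by
      have := congrArg Γ.e (x0_cone_S (Γ := Γ) δ t o x s)
      rw [cx, map_neg, Γ.e_e] at this
      simpa using this.symm)
    (fun v => Γ'.hg_neg (Γ'.hg_cast (hf.homogeneous (hx (.inr (.inl v)))) (by simp [cdg, kdg])))
    (funext fun v => by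
      have := fP x v
      rw [cx, Pi.zero_apply, map_zero] at this
      rw [x0_dv_neg]
      exact eq_neg_of_add_eq_zero_right this.symm)
  let W : S ⊕ (V ⊕ V) → R := Sum.elim (fun s => -Γ.e (w s)) 0
  have W1 : Γ.IsHomogeneousVec (cdg dS dV) (n + 1) W := by
    rintro (s | v)
    · exact Γ.hg_neg (Γ.hg_cast (Γ.hg_e (w1 s)) (by simp [cdg]))
    · exact Γ.hg_zero _
  obtain ⟨y, y1, y2⟩ := A n _ (hx.x0_sub (W1.x0_dv hm))
    (by rw [x0_dv_sub, cx, Γ.dv_dv maurerCartan, sub_zero]) fun s => by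
      have e : (fun s => Γ.e (W (.inl s))) = -w := by ext s; simp [W, Γ.e_e]
      rw [Pi.sub_apply, x0_cone_S, e, x0_dv_neg, w2]
      simp [Γ.e_e]
  exact ⟨W + y, W1.x0_add y1, by rw [x0_dv_add, y2, add_sub_cancel]⟩

/-- The image of a vector under a semilinear map. -/
noncomputable def x0ap (f : R →+* R') (ψ : Matrix S V R') (x : S → R) : V → R' :=
  fun v => ∑ s, f (x s) * ψ s v

theorem x0ap_sub (ψ : Matrix S V R') (x y : S → R) :
    x0ap f ψ (x - y) = x0ap f ψ x - x0ap f ψ y := by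
  ext v
  simp [x0ap, _root_.sub_mul]

theorem x0ap_hv (hf : Γ.IsHom Γ' f f₀) {ψ : Matrix S V R'} (hψ : Γ'.HM dS dV 0 ψ) {q : ℤ}
    {x : S → R} (hx : Γ.IsHomogeneousVec dS q x) : Γ'.IsHomogeneousVec dV q (x0ap f ψ x) := fun v =>
  Γ'.hg_sum _ fun s _ => Γ'.hg_cast (Γ'.hg_mul (hf.homogeneous (hx s)) (hψ s v)) (by ring)

theorem x0ap_dv (hf : Γ.IsHom Γ' f f₀) {δ : Matrix S S R} {δ' : Matrix V V R'}
    {ψ : Matrix S V R'} (chart : Γ'.dM δ' ψ = δ.map f * ψ) (x : S → R) :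
    Γ'.twistedDiff δ' (x0ap f ψ x) = x0ap f ψ (Γ.twistedDiff δ x) := by
  let φ : Matrix PUnit.{u + 1} S R := Matrix.of fun _ => x
  have h1 := Γ'.dM_mul δ' (φ.map f) ψ
  rw [chart, ← Matrix.mul_assoc, ← Matrix.add_mul] at h1
  have h2 : Γ'.dM δ' (φ.map f * ψ) = (Γ.dM δ φ).map f * ψ := by rw [h1, ← hf.dM]; rfl
  exact congrFun h2 PUnit.unit

end DG

/-- A quasi-isomorphism restricts to subobjects with acyclic quotients. -/
theorem QI.sub {S V S₁ V₁ S₂ V₂ : Type u} [Fintype S] [Fintype V] [Fintype S₁] [Fintype V₁]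
    [Fintype S₂] [Fintype V₂] {dS : S → ℤ} {dV : V → ℤ} (hf : Γ.IsHom Γ' f f₀)
    (eS : S₁ ⊕ S₂ ≃ S) (eV : V₁ ⊕ V₂ ≃ V) {δ : Matrix S S R} {δ' : Matrix V V R'}
    {ψ' : Matrix S V R'} (hδ : Γ.HM dS dS (-1) δ) (maurerCartan : Γ.dM δ δ = 0)
    (hδ' : Γ'.HM dV dV (-1) δ') (maurerCartan' : Γ'.dM δ' δ' = 0) (hψ : Γ'.HM dS dV 0 ψ')
    (chart : Γ'.dM δ' ψ' = δ.map f * ψ') (tδ : ∀ s r, δ (eS (.inl s)) (eS (.inr r)) = 0)
    (tδ' : ∀ s r, δ' (eV (.inl s)) (eV (.inr r)) = 0)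
    (tψ : ∀ s r, ψ' (eS (.inl s)) (eV (.inr r)) = 0)
    (aS : Γ.IsAcyclic (dS ∘ eS ∘ .inr) (δ.submatrix (eS ∘ .inr) (eS ∘ .inr)))
    (aV : Γ'.IsAcyclic (dV ∘ eV ∘ .inr) (δ'.submatrix (eV ∘ .inr) (eV ∘ .inr)))
    (h : QI Γ Γ' f dS dV δ δ' ψ') :
    QI Γ Γ' f (dS ∘ eS ∘ .inl) (dV ∘ eV ∘ .inl) (δ.submatrix (eS ∘ .inl) (eS ∘ .inl))
      (δ'.submatrix (eV ∘ .inl) (eV ∘ .inl)) (ψ'.submatrix (eS ∘ .inl) (eV ∘ .inl)) := by
  have al : ∀ x : S → R, x ∘ eS ∘ .inr = 0 → DG.x0ap f ψ' x ∘ eV ∘ .inl =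
      DG.x0ap f (ψ'.submatrix (eS ∘ .inl) (eV ∘ .inl)) (x ∘ eS ∘ .inl) := fun x hx => by
    have : ∀ s, x (eS (.inr s)) = 0 := congrFun hx
    ext v
    simp [DG.x0ap, ← Equiv.sum_comp eS, this]
  have ar : ∀ x : S → R, x ∘ eS ∘ .inr = 0 → DG.x0ap f ψ' x ∘ eV ∘ .inr = 0 := fun x hx => by
    have : ∀ s, x (eS (.inr s)) = 0 := congrFun hx
    ext v
    simp [DG.x0ap, ← Equiv.sum_comp eS, this, tψ]
  constructor
  · intro q y₁ hy cy
    obtain ⟨y, a1, a2, a3⟩ := DG.x0_glue eV hy (x₂ := 0) fun _ => Γ'.hg_zero _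
    obtain ⟨x, z, x1, x2, z1, z2⟩ := h.surj q y a1 (DG.x0_ext2 eV
      (by rw [DG.x0_dv_inl eV a3, a2, cy]; rfl)
      (by rw [DG.x0_dv_inr eV tδ', a3, DG.x0_dv_zero]; rfl))
    obtain ⟨a, b1, b2⟩ := DG.x0_kill eS tδ aS x1 (by rw [x2]; rfl)
    have e1 : DG.x0ap f ψ' (x - Γ.twistedDiff δ a) = y + Γ'.twistedDiff δ' (z - DG.x0ap f ψ' a) := by
      rw [DG.x0ap_sub, DG.x0_dv_sub, DG.x0ap_dv hf chart, ← add_sub_assoc, ← z2]
      rfl
    obtain ⟨z₁, c1, c2⟩ := DG.x0_bd eV hδ' maurerCartan' tδ' aV (z1.x0_sub (DG.x0ap_hv hf hψ b1)) (by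
      have := ar _ b2
      rwa [e1, Pi.add_comp, a3, zero_add] at this)
    refine ⟨(x - Γ.twistedDiff δ a) ∘ eS ∘ .inl, z₁, fun s => (x1.x0_sub (b1.x0_dv hδ)) _, ?_, c1, ?_⟩
    · rw [← DG.x0_dv_inl eS b2, DG.x0_dv_sub, x2, Γ.dv_dv maurerCartan, sub_zero]
      rfl
    · rw [c2, ← a2, ← Pi.add_comp, ← e1, al _ b2]
      rfl
  · intro q x₁ z₁ hx cx hz e
    obtain ⟨x, a1, a2, a3⟩ := DG.x0_glue eS hx (x₂ := 0) fun _ => Γ.hg_zero _
    obtain ⟨z, b1, b2, b3⟩ := DG.x0_glue eV hz (x₂ := 0) fun _ => Γ'.hg_zero _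
    obtain ⟨w, w1, w2⟩ := h.inj q x z a1 (DG.x0_ext2 eS
      (by rw [DG.x0_dv_inl eS a3, a2, cx]; rfl)
      (by rw [DG.x0_dv_inr eS tδ, a3, DG.x0_dv_zero]; rfl)) b1 (DG.x0_ext2 eV
      (by rw [DG.x0_dv_inl eV b3, b2, ← e, ← a2]; exact al x a3)
      (by rw [DG.x0_dv_inr eV tδ', b3, DG.x0_dv_zero]; exact ar x a3))
    obtain ⟨w₁, c1, c2⟩ := DG.x0_bd eS hδ maurerCartan tδ aS w1 (by rw [w2, a3])
    exact ⟨w₁, c1, by rw [c2, w2, a2]⟩

end Pool.Agent.P.MP_932208_ag
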