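import Mathlib

/-!
Small generic abbreviations (they keep the printed form of the definitions short).
-/

namespace Pool.Agent.P.MP_932208_ag

universe u

section Add
variable {L M N P : Type u} [AddCommGroup L] [AddCommGroup M] [AddCommGroup N] [AddCommGroup P]

/-- Additive maps. -/
abbrev AddMap (L M : Type u) [AddCommGroup L] [AddCommGroup M] : Type u := L →+ M

/-- `f` is the identity. -/
abbrev AddId (f : L →+ L) : Prop := ∀ x, f x = x

/-- `g ∘ f = h`. -/
abbrev AddComp (g : M →+ N) (f : L →+ M) (h : L →+ N) : Prop := ∀ x, g (f x) = h x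

/-- `a ∘ b = c ∘ d`. -/
abbrev AddSquare (a : M →+ P) (b : L →+ M) (c : N →+ P) (d : L →+ N) : Prop := ∀ x, a (b x) = c (d x)

/-- The value of an additive map. -/
abbrev addApp (f : L →+ M) (x : L) : M := f x

end Add

section Comm
variable {R S T W : Type u} [CommRing R] [CommRing S] [CommRing T] [CommRing W]

/-- `f` is the identity. -/
abbrev RingId (f : R →+* R) : Prop := ∀ x, f x = x

/-- `g ∘ f = h`. -/
abbrev RingComp (g : S →+* T) (f : R →+* S) (h : R →+* T) : Prop := ∀ x, g (f x) = h x

/-- `a ∘ b = c ∘ d`. -/
abbrev RingSquare (a : S →+* W) (b : R →+* S) (c : T →+* W) (d : R →+* T) : Prop :=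
  ∀ x, a (b x) = c (d x)

/-- A ring map as an additive map. -/
abbrev addHom (f : R →+* S) : R →+ S := f.toAddMonoidHom

/-- Maps of commutative rings. -/
abbrev CommRingMap (R S : Type u) [CommRing R] [CommRing S] : Type u := R →+* S

/-- The identity of a commutative ring. -/
abbrev ringId (R : Type u) [CommRing R] : R →+* R := RingHom.id R

/-- The composite of ring maps. -/
abbrev ringComp (g : S →+* T) (f : R →+* S) : R →+* T := g.comp f

/-- The additive group of an ideal. -/
abbrev idealGroup (I : Ideal R) : AddCommGroup I := inferInstance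

/-- An ideal as a module. -/
abbrev idealModule (I : Ideal R) : Module R I := inferInstance

/-- `g` maps `I` into `I'`. -/
abbrev MapsIdeal (g : R →+* T) (I : Ideal R) (I' : Ideal T) : Prop := ∀ x : I, g x.1 ∈ I'

/-- The restriction of `g` to ideals. -/
def idealRestrict (g : R →+* T) (I : Ideal R) (I' : Ideal T) (h : MapsIdeal g I I') : I →+ I' :=
  AddMonoidHom.mk' (fun x => ⟨g x.1, h x⟩) fun x y => Subtype.ext (map_add g x.1 y.1)

/-- The kernel of a ring map. -/
abbrev kerIdeal (f : R →+* S) : Ideal R := RingHom.ker f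

/-- The kernel of a ring map, as a type. -/
abbrev Ker (f : R →+* S) : Type u := kerIdeal f

/-- The additive group of the kernel. -/
abbrev kerGroup (f : R →+* S) : AddCommGroup (Ker f) := idealGroup (kerIdeal f)

/-- `g` maps the kernel of `f` into the kernel of `f'`. -/
abbrev MapsKer (g : R →+* T) (f : R →+* S) (f' : T →+* W) : Prop := MapsIdeal g (kerIdeal f) (kerIdeal f')

/-- The restriction of `g` to kernels. -/
def kerRestrict (g : R →+* T) (f : R →+* S) (f' : T →+* W) (h : MapsKer g f f') :
    @AddMap _ _ (kerGroup f) (kerGroup f') :=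
  idealRestrict g _ _ h

/-- `f t = 0`. -/
abbrev Kills (f : R →+* S) (t : R) : Prop := f t = 0

/-- Multiplication by an element `t` of an ideal, as a map into the ideal. -/
def mulInto (I : Ideal R) (t : R) (h : t ∈ I) : R →+ I :=
  AddMonoidHom.mk' (fun a => ⟨a * t, I.mul_mem_left a h⟩) fun a b => Subtype.ext (add_mul a b t)

/-- `f` is surjective. -/
abbrev RingSurjective (f : R →+* S) : Prop := Function.Surjective f

/-- The group of units. -/
abbrev UnitsOf (R : Type u) [CommRing R] : Type u := Rˣ

/-- The image of a unit. -/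
abbrev unitsMap (σ : R →+* S) (v : Rˣ) : Sˣ := Units.map σ.toMonoidHom v

/-- An integral power of a unit. -/
abbrev unitZPow (v : Rˣ) (l : ℤ) : R := ((v ^ l : Rˣ) : R)

/-- `t a = v a a' * t a'`. -/
abbrev UnitRelated {ι : Type} (t : ι → R) (v : ι → ι → Rˣ) : Prop := ∀ a a', t a = v a a' * t a'

/-- `v a a' * v a' a'' = v a a''`. -/
abbrev UnitCocycle {ι : Type} (v : ι → ι → Rˣ) : Prop := ∀ a a' a'', v a a' * v a' a'' = v a a''

/-- `x = 1`. -/
abbrev RingOne (x : R) : Prop := x = 1

/-- `σ a = σ b * c`. -/
abbrev MapsToMul (σ : R →+* S) (a b : R) (c : S) : Prop := σ a = σ b * c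

/-- The free module on `X`. -/
abbrev Free (X R : Type u) [CommRing R] : Type u := X →₀ R

/-- The additive group of the free module. -/
noncomputable abbrev freeGroup (X R : Type u) [CommRing R] : AddCommGroup (Free X R) :=
  Finsupp.instAddCommGroup

/-- The free module as a module. -/
noncomputable abbrev freeModule (X R : Type u) [CommRing R] : Module R (X →₀ R) := inferInstance

/-- The additive map `a [x] ↦ σ (a * w x) [p x]`. -/
noncomputable def twistedPush {X Y : Type u} (σ : R →+* S) (p : X → Y) (w : X → R) :
    (X →₀ R) →+ (Y →₀ S) :=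
  Finsupp.liftAddHom fun x => (Finsupp.singleAddHom (p x)).comp
    (σ.toAddMonoidHom.comp (AddMonoidHom.mulRight (w x)))

section Mod
variable {M N M' N' : Type u} [AddCommGroup M] [AddCommGroup N] [AddCommGroup M'] [AddCommGroup N']
  [Module R M] [Module R M'] [Module S N] [Module S N']

/-- `g` is `σ`-semilinear. -/
abbrev IsSemilinear (σ : R →+* S) (g : M →+ N) : Prop := ∀ (a : R) (x : M), g (a • x) = σ a • g x

/-- Linear maps. -/
abbrev LinMap (R M M' : Type u) [CommRing R] [AddCommGroup M] [AddCommGroup M'] [Module R M]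
    [Module R M'] : Type u := M →ₗ[R] M'

/-- `a ∘ b = c ∘ d`. -/
abbrev LinSquare (a : N →ₗ[S] N') (b : M →+ N) (c : M' →+ N') (d : M →ₗ[R] M') : Prop :=
  ∀ x, a (b x) = c (d x)

/-- A linear map as an additive map. -/
abbrev linAdd (g : M →ₗ[R] M') : M →+ M' := g.toAddMonoidHom

/-- The map `a ↦ a • e`. -/
def smulMap (R : Type u) [CommRing R] [Module R M] (e : M) : R →+ M :=
  AddMonoidHom.mk' (fun a : R => a • e) fun a b => add_smul a b e

end Mod

/-- The value of a ring map. -/
abbrev ringApp (f : R →+* S) (x : R) : S := f x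

end Comm

section Ring
variable {R S : Type u}

/-- The ring axioms for a product and a unit on an abelian group. -/
structure RingLaws (R : Type u) [AddCommGroup R] [Mul R] [One R] : Prop where
  left_distrib : ∀ a b c : R, a * (b + c) = a * b + a * c
  right_distrib : ∀ a b c : R, (a + b) * c = a * c + b * c
  zero_mul : ∀ a : R, 0 * a = 0
  mul_zero : ∀ a : R, a * 0 = 0
  mul_assoc : ∀ a b c : R, a * b * c = a * (b * c)
  one_mul : ∀ a : R, 1 * a = a
  mul_one : ∀ a : R, a * 1 = a

/-- The ring given by an abelian group, a product and a unit. -/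
@[reducible] def ringOf [AddCommGroup R] [Mul R] [One R] (h : RingLaws R) : Ring R where
  __ := (inferInstance : AddCommGroup R)
  mul := (· * ·)
  one := 1
  left_distrib := h.left_distrib
  right_distrib := h.right_distrib
  zero_mul := h.zero_mul
  mul_zero := h.mul_zero
  mul_assoc := h.mul_assoc
  one_mul := h.one_mul
  mul_one := h.mul_one

variable [Ring R] [Ring S]

/-- The elements that satisfy `p` form a subring. -/
structure IsSubringPred (p : R → Prop) : Prop where
  mul : ∀ {a b}, p a → p b → p (a * b)
  one : p 1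
  add : ∀ {a b}, p a → p b → p (a + b)
  zero : p 0
  neg : ∀ {a}, p a → p (-a)

/-- The subring of the elements that satisfy `p`. -/
def subringOf (p : R → Prop) (h : IsSubringPred p) : Subring R where
  carrier := {x | p x}
  mul_mem' := h.mul
  one_mem' := h.one
  add_mem' := h.add
  zero_mem' := h.zero
  neg_mem' := h.neg

/-- `g` is a ring map with values in the subring `T`. -/
structure IsRingMapInto (T : Subring S) (g : R → S) : Prop where
  mem : ∀ x, g x ∈ T
  one : g 1 = 1
  mul : ∀ x y, g (x * y) = g x * g y
  zero : g 0 = 0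
  add : ∀ x y, g (x + y) = g x + g y

/-- A ring map with values in a subring. -/
def ringMapInto (T : Subring S) (g : R → S) (h : IsRingMapInto T g) : R →+* T :=
  RingHom.codRestrict (⟨⟨⟨g, h.one⟩, h.mul⟩, h.zero, h.add⟩ : R →+* S) T h.mem

/-- `g` restricts to a ring map from `T` to `T'`. -/
abbrev IsRingMapOn (T : Subring R) (T' : Subring S) (g : R → S) : Prop :=
  IsRingMapInto T' fun x : T => g x.1

/-- The restriction of `g` to subrings. -/
def ringMapOn (T : Subring R) (T' : Subring S) (g : R → S) (h : IsRingMapOn T T' g) : T →+* T' :=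
  ringMapInto T' (fun x : T => g x.1) h

/-- `g` is additive and preserves the subring `T`. -/
structure IsAddMapOn (T : Subring R) (g : R → R) : Prop where
  mem : ∀ x : T, g x.1 ∈ T
  add : ∀ x y, g (x + y) = g x + g y

/-- The restriction of an additive map to a subring. -/
def addMapOn (T : Subring R) (g : R → R) (h : IsAddMapOn T g) : T →+ T :=
  AddMonoidHom.mk' (fun x => ⟨g x.1, h.mem x⟩) fun x y => Subtype.ext (h.add x.1 y.1)

/-- The differential of `∑ x s • s` in the semi-free module with `d s = ∑ δ s r • r` over the dg ring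
with differential `d` and sign automorphism `e`. -/
noncomputable def twistedDiffOf {U : Type u} [Fintype U] (d : R →+ R) (e : R →+* R) (δ : Matrix U U R)
    (x : U → R) : U → R :=
  fun r => d (x r) + ∑ s, e (x s) * δ s r

/-- The `g`-semilinear map `∑ x s • s ↦ ∑ g (x s) ψ s v • v`. -/
noncomputable def semilinearOf {U W : Type u} [Fintype U] (g : R →+* S) (ψ : Matrix U W S) (x : U → R) :
    W → S :=
  fun v => ∑ s, g (x s) * ψ s v

/-- `x = 0`. -/
abbrev RingZero (x : R) : Prop := x = 0

open Classical in
/-- The entries of `φ` between basis elements of the same degree are those of the identity. -/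
abbrev UnitOnDiagonal {U : Type u} (dg : U → ℤ) (φ : Matrix U U R) : Prop :=
  ∀ s r, dg s = dg r → φ s r = if s = r then 1 else 0

/-- `φ` and `d` preserve the spans of the basis elements `s` with `b s ≤ c a`. -/
abbrev PreservesFiltration {U J K : Type u} [Preorder J] [CommRing K] {n : ℕ} (b : U → J)
    (c : Fin (n + 1) →o J) (φ : Matrix U U R) (d : Matrix U U K) : Prop :=
  ∀ a s r, b s ≤ c a → ¬ b r ≤ c a → φ s r = 0 ∧ d s r = 0

/-- `D (φ s) = ∑ d s q • φ q`: in the basis of the rows of `φ` the operator `D` has matrix `d`. -/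
abbrev HasMatrixIn {U K : Type u} [Fintype U] [CommRing K] (D : (U → R) → U → R) (inc : K →+* R)
    (φ : Matrix U U R) (d : Matrix U U K) : Prop :=
  ∀ s r, D (φ s) r = ∑ q, inc (d s q) * φ q r

end Ring

/-- The matrix with entries `f s r`. -/
abbrev mat {U V R : Type u} (f : U → V → R) : Matrix U V R := Matrix.of f

/-- A principal submatrix. -/
abbrev principalSub {U V R : Type u} (M : Matrix V V R) (e : U → V) : Matrix U U R := M.submatrix e e

/-- The image under `σ` of a principal submatrix. -/
abbrev ringSub {U V R S : Type u} [CommRing R] [CommRing S] (σ : R →+* S) (M : Matrix V V R) (e : U → V) :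
    Matrix U U S := Matrix.of fun s r => σ (M (e s) (e r))

end Pool.Agent.P.MP_932208_ag
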