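import Pool.Agent.P.MP_932208_ag.Strict

/-!
Lifting to the Koszul algebra: existence of objects, algebra of objects and morphisms.
-/

namespace Pool.Agent.P.MP_932208_ag

open Classical

universe u

/-- The product of two matrices restricts to a set of indices through which it factors. -/
theorem sub_mul {R U U' X Y X' Y' : Type u} [Ring R] [Fintype U] [Fintype U'] {e : U' → U}
    (he : Function.Injective e) (M : Matrix X U R) (M' : Matrix U Y R) (a : X' → X) (b : Y' → Y)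
    (h : ∀ x w y, w ∉ Set.range e → M (a x) w * M' w (b y) = 0) :
    (M * M').submatrix a b = M.submatrix a e * M'.submatrix e b := by
  ext x y
  simp only [Matrix.submatrix_apply, Matrix.mul_apply]
  exact (Fintype.sum_of_injective e he _ _ (fun w hw => h x w y hw) (fun _ => rfl)).symm

theorem cemb_injective {S V S' V' : Type u} {iS : S' → S} {iV : V' → V}
    (hS : Function.Injective iS) (hV : Function.Injective iV) :
    Function.Injective (cemb iS iV) := hS.sumMap (hV.sumMap hV)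

theorem cdg_cemb {S V S' V' : Type u} (iS : S' → S) (iV : V' → V) (dS : S → ℤ) (dV : V → ℤ)
    (w : S' ⊕ (V' ⊕ V')) : cdg dS dV (cemb iS iV w) = cdg (dS ∘ iS) (dV ∘ iV) w := by
  rcases w with s | v | v <;> rfl

theorem cb_cemb {S V S' V' J : Type u} (iS : S' → S) (iV : V' → V) (bS : S → J) (bV : V → J)
    (w : S' ⊕ (V' ⊕ V')) : cb bS bV (cemb iS iV w) = cb (bS ∘ iS) (bV ∘ iV) w := by
  rcases w with s | v | v <;> rfl

/-- If the images of `iS` and `iV` are cut out by a convex predicate on births, then `cemb` is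
convex. -/
theorem cvx_cemb {S V S' V' J : Type u} [Preorder J] {iS : S' → S} {iV : V' → V} {bS : S → J}
    {bV : V → J} (hS : Function.Injective iS) (hV : Function.Injective iV) (P : J → Prop)
    (hP : ∀ a b c, a ≤ b → b ≤ c → P a → P c → P b) (rS : ∀ s, s ∈ Set.range iS ↔ P (bS s))
    (rV : ∀ v, v ∈ Set.range iV ↔ P (bV v)) : Cvx (cb bS bV) (cemb iS iV) := by
  refine ⟨cemb_injective hS hV, fun w x w' h1 h2 => ?_⟩
  have key : ∀ x, x ∈ Set.range (cemb iS iV) ↔ P (cb bS bV x) := by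
    intro x
    constructor
    · rintro ⟨w, rfl⟩
      rcases w with s | v | v
      · exact (rS _).1 ⟨s, rfl⟩
      · exact (rV _).1 ⟨v, rfl⟩
      · exact (rV _).1 ⟨v, rfl⟩
    · intro hx
      rcases x with s | v | v
      · obtain ⟨s', rfl⟩ := (rS s).2 hx
        exact ⟨.inl s', rfl⟩
      · obtain ⟨v', rfl⟩ := (rV v).2 hx
        exact ⟨.inr (.inl v'), rfl⟩
      · obtain ⟨v', rfl⟩ := (rV v).2 hx
        exact ⟨.inr (.inr v'), rfl⟩
  rw [key]
  exact hP _ _ _ h2 h1 ((key _).1 ⟨w', rfl⟩) ((key _).1 ⟨w, rfl⟩)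

theorem lf_inj_left {S V S' V' : Type u} {iS : S' → S} {iV : V' → V}
    (h : Function.Injective (cemb iS iV)) : Function.Injective iS := by
  intro a b hab
  have : cemb iS iV (.inl a) = cemb iS iV (.inl b) := by simp [cemb, hab]
  simpa using h this

theorem lf_inj_right {S V S' V' : Type u} {iS : S' → S} {iV : V' → V}
    (h : Function.Injective (cemb iS iV)) : Function.Injective iV := by
  intro a b hab
  have : cemb iS iV (.inr (.inl a)) = cemb iS iV (.inr (.inl b)) := by simp [cemb, hab]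
  simpa using h this

/-- Induction on the degree of finitely many cells. -/
theorem lf_ind {ι : Type u} [Finite ι] (dg : ι → ℤ) (P : ℤ → Prop)
    (h0 : ∀ m, (∀ i, m ≤ dg i) → P m) (hs : ∀ m, P m → P (m + 1)) :
    ∃ m, (∀ i, dg i < m) ∧ P m := by
  obtain ⟨a, ha⟩ := (Set.finite_range dg).bddBelow
  obtain ⟨b, hb⟩ := (Set.finite_range dg).bddAbove
  have h : ∀ m, a ≤ m → P m := fun m hm =>
    Int.leInduction (h0 a fun i => ha ⟨i, rfl⟩) (fun n _ hn => hs n hn) m hm
  refine ⟨max a (b + 1), fun i => ?_, h _ (le_max_left _ _)⟩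
  have := hb ⟨i, rfl⟩
  exact lt_of_lt_of_le (by omega) (le_max_right _ _)

variable {R R' : Type u} [Ring R] [Ring R'] {K : Type u} [CommRing K] {Γ : DG R K}
  {f : R →+* R'} {S V S' V' J : Type u} [Fintype S] [Fintype V] [Fintype S'] [Fintype V']
  [Preorder J] {dS : S → ℤ} {dV : V → ℤ} {bS : S → J} {bV : V → J}

theorem OD.mat_sub (o : OD S V R) (δ : Matrix S S R) (t : K) (iS : S' → S) {iV : V' → V}
    (hV : Function.Injective iV) :
    (o.sub iS iV).matrix Γ (δ.submatrix iS iS) t =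
      (o.matrix Γ δ t).submatrix (cemb iS iV) (cemb iS iV) := by
  ext w w'
  rcases w with s | v | v <;> rcases w' with s' | v' | v' <;>
    simp [OD.matrix, OD.sub, DG.cone, DG.kz, cemb, Matrix.diagonal_apply, hV.eq_iff]

theorem OD.mat_map {R₂ K₂ : Type u} [Ring R₂] [CommRing K₂] {Γ₂ : DG R₂ K₂} {g : R →+* R₂}
    {g₀ : K →+* K₂} (homogeneous : Γ.IsHom Γ₂ g g₀) (o : OD S V R) (δ : Matrix S S R) (t : K) :
    (o.map g).matrix Γ₂ (δ.map g) (g₀ t) = (o.matrix Γ δ t).map g := by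
  ext w w'
  rcases w with s | v | v <;> rcases w' with s' | v' | v' <;>
    simp [OD.matrix, OD.map, DG.cone, DG.kz, Matrix.diagonal_apply, homogeneous.e, apply_ite g, homogeneous.inc]

namespace DG

theorem IsHom.dM {R₂ K₂ U W : Type u} [Ring R₂] [CommRing K₂] [Fintype U] {Γ₂ : DG R₂ K₂}
    {g : R →+* R₂} {g₀ : K →+* K₂} (homogeneous : Γ.IsHom Γ₂ g g₀) (δ : Matrix U U R)
    (φ : Matrix W U R) : Γ₂.dM (δ.map g) (φ.map g) = (Γ.dM δ φ).map g := by
  ext w r
  simp [DG.dM, Matrix.mul_apply, homogeneous.d, homogeneous.e, map_sum]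

theorem IsHom.sd {R₂ K₂ U : Type u} [Ring R₂] [CommRing K₂] [Fintype U] {Γ₂ : DG R₂ K₂}
    {g : R →+* R₂} {g₀ : K →+* K₂} (homogeneous : Γ.IsHom Γ₂ g g₀) (δ φ : Matrix U U R) :
    Γ₂.sd (δ.map g) (φ.map g) = (Γ.sd δ φ).map g₀ := by
  ext w r
  simp [DG.sd, homogeneous.dM, homogeneous.ev]

theorem IsHom.res {R₂ K₂ U : Type u} [Ring R₂] [CommRing K₂] [Fintype U] {Γ₂ : DG R₂ K₂}
    {g : R →+* R₂} {g₀ : K →+* K₂} (homogeneous : Γ.IsHom Γ₂ g g₀) (δ φ : Matrix U U R) :
    Γ₂.res (δ.map g) (φ.map g) = (Γ.res δ φ).map g := by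
  ext w r
  simp [DG.res, homogeneous.dM, homogeneous.sd, Matrix.mul_apply, map_sum, homogeneous.inc]

section aux
variable {U : Type u} [Fintype U]

theorem lf_dv_add (δ : Matrix U U R) (x y : U → R) : Γ.twistedDiff δ (x + y) = Γ.twistedDiff δ x + Γ.twistedDiff δ y := by
  funext r
  simp only [twistedDiff, Pi.add_apply, map_add, add_mul, Finset.sum_add_distrib]
  abel

theorem lf_dv_sub (δ : Matrix U U R) (x y : U → R) : Γ.twistedDiff δ (x - y) = Γ.twistedDiff δ x - Γ.twistedDiff δ y := by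
  funext r
  simp only [twistedDiff, Pi.sub_apply, map_sub, _root_.sub_mul, Finset.sum_sub_distrib]
  abel

theorem lf_dv_zero (δ : Matrix U U R) : Γ.twistedDiff δ 0 = 0 := by
  funext r
  simp [twistedDiff]

theorem lf_dv_dv (δ : Matrix U U R) (z : U → R) (r : U) :
    Γ.twistedDiff δ (Γ.twistedDiff δ z) r = ∑ s, z s * Γ.twistedDiff δ (δ s) r := by
  simp only [twistedDiff, map_add, map_sum, map_mul, Γ.d_d, Γ.d_mul, Γ.d_e, Γ.e_e, add_mul, mul_add,
    Finset.sum_add_distrib, Finset.sum_mul, Finset.mul_sum, neg_mul, Finset.sum_neg_distrib,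
    mul_assoc]
  rw [Finset.sum_comm (f := fun x i => z i * (Γ.e (δ i x) * δ x r))]
  abel

theorem lf_dv_congr {δ δ' : Matrix U U R} {x : U → R} (h : ∀ s, x s ≠ 0 → δ s = δ' s) :
    Γ.twistedDiff δ x = Γ.twistedDiff δ' x := by
  funext r
  simp only [twistedDiff]
  congr 1
  refine Finset.sum_congr rfl fun s _ => ?_
  by_cases hs : x s = 0
  · simp [hs]
  · rw [h s hs]

theorem lf_Hv_add {dg : U → ℤ} {n : ℤ} {x y : U → R} (hx : Γ.IsHomogeneousVec dg n x) (hy : Γ.IsHomogeneousVec dg n y) :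
    Γ.IsHomogeneousVec dg n (x + y) := fun s => Γ.hg_add (hx s) (hy s)

theorem lf_Hv_sub {dg : U → ℤ} {n : ℤ} {x y : U → R} (hx : Γ.IsHomogeneousVec dg n x) (hy : Γ.IsHomogeneousVec dg n y) :
    Γ.IsHomogeneousVec dg n (x - y) := fun s => Γ.hg_sub (hx s) (hy s)

theorem lf_kz_inl (t : K) (p q : Matrix U U R) (x : U ⊕ U → R) (v : U) :
    Γ.twistedDiff (Γ.kz t p q) x (.inl v) =
      Γ.d (x (.inl v)) + ∑ w, Γ.e (x (.inl w)) * p w v + Γ.e (x (.inr v)) * Γ.inc t := by
  simp [twistedDiff, kz, Fintype.sum_sum_type, Matrix.diagonal_apply, add_assoc]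

theorem lf_kz_inr (t : K) (p q : Matrix U U R) (x : U ⊕ U → R) (v : U) :
    Γ.twistedDiff (Γ.kz t p q) x (.inr v) =
      Γ.d (x (.inr v)) + ∑ w, Γ.e (x (.inl w)) * q w v -
        ∑ w, Γ.e (x (.inr w)) * Γ.e (p w v) := by
  simp [twistedDiff, kz, Fintype.sum_sum_type, sub_eq_add_neg, add_assoc]

/-- The Maurer-Cartan equation for `ε v` follows from the one for `v`. -/
theorem lf_mc_inr (t : K) (p q : Matrix U U R) (v : U)
    (h : Γ.twistedDiff (Γ.kz t p q) (Γ.kz t p q (.inl v)) = 0) :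
    Γ.twistedDiff (Γ.kz t p q) (Γ.kz t p q (.inr v)) = 0 := by
  funext w
  rcases w with w | w
  · rw [lf_kz_inl]
    simp [kz, Matrix.diagonal_apply, apply_ite Γ.d, apply_ite Γ.e, Γ.d_inc, Γ.e_inc, Γ.e_e,
      Γ.inc_comm]
  · have h1 := congrArg Γ.e (congrFun h (.inl w))
    rw [lf_kz_inl] at h1
    rw [lf_kz_inr]
    simp [kz, Matrix.diagonal_apply, apply_ite Γ.e, Γ.e_inc, Γ.e_e,
      Γ.inc_comm, Γ.d_e, map_sum] at h1 ⊢
    rw [← h1]
    abel

theorem lf_p_zero {dg : U → ℤ} {t : K} {p q : Matrix U U R}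
    (hm : Γ.HM (kdg dg) (kdg dg) (-1) (Γ.kz t p q)) {v v' : U} (h : dg v ≤ dg v') :
    p v v' = 0 ∧ q v v' = 0 := by
  have h1 := hm (.inl v) (.inl v')
  have h2 := hm (.inl v) (.inr v')
  simp only [kdg, kz, Sum.elim_inl, Sum.elim_inr, Matrix.fromBlocks_apply₁₁,
    Matrix.fromBlocks_apply₁₂] at h1 h2
  exact ⟨Γ.eq_zero (by omega) h1, Γ.eq_zero (by omega) h2⟩

theorem lf_supp {t : K} {p q : Matrix U U R} {π : U → Prop}
    (cl : ∀ v v', π v → ¬ π v' → p v v' = 0 ∧ q v v' = 0) {x : U ⊕ U → R}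
    (sx : ∀ w, ¬ Sum.elim π π w → x w = 0) (w : U ⊕ U) (hw : ¬ Sum.elim π π w) :
    Γ.twistedDiff (Γ.kz t p q) x w = 0 := by
  rcases w with v | v
  · rw [lf_kz_inl, sx (.inl v) hw, sx (.inr v) hw, Finset.sum_eq_zero]
    · simp
    · intro w _
      by_cases h : π w
      · rw [(cl w v h hw).1, mul_zero]
      · rw [sx (.inl w) h]; simp
  · rw [lf_kz_inr, sx (.inr v) hw, Finset.sum_eq_zero, Finset.sum_eq_zero]
    · simp
    · intro w _
      by_cases h : π w
      · rw [(cl w v h hw).1]; simp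
      · rw [sx (.inr w) h]; simp
    · intro w _
      by_cases h : π w
      · rw [(cl w v h hw).2, mul_zero]
      · rw [sx (.inl w) h]; simp

theorem lf_ker {t : K} (ke : Γ.KE f t) (p q : Matrix U U R) {x : U ⊕ U → R}
    (kx : ∀ v, f (x (.inl v)) = 0) (v : U) : f (Γ.twistedDiff (Γ.kz t p q) x (.inl v)) = 0 := by
  rw [lf_kz_inl]
  simp [map_sum, ke.f_d _ (kx _), ke.f_e _ (kx _), ke.f_t]

theorem lf_cyc {δ : Matrix U U R} {π : U → Prop} (maurerCartan : ∀ x, π x → Γ.twistedDiff δ (δ x) = 0)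
    {z : U → R} (degenZero : ∀ w, ¬ π w → z w = 0) : Γ.twistedDiff δ (Γ.twistedDiff δ z) = 0 := by
  funext r
  rw [lf_dv_dv]
  refine Finset.sum_eq_zero fun s _ => ?_
  by_cases h : π s
  · rw [maurerCartan s h]; simp
  · rw [degenZero s h]; simp

end aux

/-- The kernel of the Koszul module with support in a closed set `π` of primary cells is
acyclic. -/
theorem kz_acyc {t : K} (ke : Γ.KE f t) {p q : Matrix V V R} (π : V → Prop)
    (hm : Γ.HM (kdg dV) (kdg dV) (-1) (Γ.kz t p q))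
    (cl : ∀ v v', π v → ¬ π v' → p v v' = 0 ∧ q v v' = 0)
    (maurerCartan : ∀ x, Sum.elim π π x → Γ.twistedDiff (Γ.kz t p q) (Γ.kz t p q x) = 0)
    {n : ℤ} {x : V ⊕ V → R} (hx : Γ.IsHomogeneousVec (kdg dV) n x) (sx : ∀ w, ¬ Sum.elim π π w → x w = 0)
    (kx : ∀ v, f (x (.inl v)) = 0) (cx : Γ.twistedDiff (Γ.kz t p q) x = 0) :
    ∃ y : V ⊕ V → R, Γ.IsHomogeneousVec (kdg dV) (n + 1) y ∧ (∀ w, ¬ Sum.elim π π w → y w = 0) ∧
      (∀ v, f (y (.inl v)) = 0) ∧ Γ.twistedDiff (Γ.kz t p q) y = x := by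
  obtain ⟨m, hm0, hP⟩ := lf_ind dV (fun m => ∀ x : V ⊕ V → R, Γ.IsHomogeneousVec (kdg dV) n x →
      (∀ w, ¬ Sum.elim π π w → x w = 0) → (∀ v, f (x (.inl v)) = 0) →
      Γ.twistedDiff (Γ.kz t p q) x = 0 → (∀ v, m ≤ dV v → x (.inl v) = 0 ∧ x (.inr v) = 0) →
      ∃ y : V ⊕ V → R, Γ.IsHomogeneousVec (kdg dV) (n + 1) y ∧ (∀ w, ¬ Sum.elim π π w → y w = 0) ∧
        (∀ v, f (y (.inl v)) = 0) ∧ Γ.twistedDiff (Γ.kz t p q) y = x)
    (by
      intro m hm x _ _ _ _ hz
      refine ⟨0, fun s => Γ.hg_zero _, fun _ _ => rfl, fun _ => by simp, ?_⟩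
      rw [lf_dv_zero]
      funext w
      rcases w with v | v
      · exact ((hz v (hm v)).1).symm
      · exact ((hz v (hm v)).2).symm)
    (by
      intro m ih x hx sx kx cx hz
      have key : ∀ v, ∃ y' a' : R, Γ.IsHomogeneous (n + 1 - dV v) y' ∧ Γ.IsHomogeneous (n - dV v) a' ∧ f y' = 0 ∧
          (¬ (dV v = m ∧ π v) → y' = 0 ∧ a' = 0) ∧
          (dV v = m → Γ.d y' + Γ.e a' * Γ.inc t = x (.inl v) ∧ Γ.d a' = x (.inr v)) := by
        intro v
        by_cases hv : dV v = m ∧ π v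
        · have z1 : ∀ w, Γ.e (x (.inl w)) * p w v = 0 := by
            intro w
            by_cases h : m + 1 ≤ dV w
            · rw [(hz w h).1]; simp
            · rw [(lf_p_zero hm (by omega)).1, mul_zero]
          have z2 : ∀ w, Γ.e (x (.inl w)) * q w v = 0 := by
            intro w
            by_cases h : m + 1 ≤ dV w
            · rw [(hz w h).1]; simp
            · rw [(lf_p_zero hm (by omega)).2, mul_zero]
          have z3 : ∀ w, Γ.e (x (.inr w)) * Γ.e (p w v) = 0 := by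
            intro w
            by_cases h : m + 1 ≤ dV w
            · rw [(hz w h).2]; simp
            · rw [(lf_p_zero hm (by omega)).1]; simp
          have h1 := congrFun cx (.inl v)
          have h2 := congrFun cx (.inr v)
          rw [lf_kz_inl] at h1
          rw [lf_kz_inr] at h2
          simp only [z1, z2, z3, Finset.sum_const_zero, add_zero, sub_zero, Pi.zero_apply]
            at h1 h2
          obtain ⟨y', a', g1, g2, g3, g4, g5⟩ := ke.ex (n - dV v) _ _ (hx (.inl v))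
            (Γ.hg_cast (hx (.inr v)) (by simp [kdg]; ring)) (kx v) h1 h2
          exact ⟨y', a', Γ.hg_cast g1 (by ring), g2, g3, fun h => absurd hv h, fun _ => ⟨g4, g5⟩⟩
        · refine ⟨0, 0, Γ.hg_zero _, Γ.hg_zero _, by simp, fun _ => ⟨rfl, rfl⟩, fun h => ?_⟩
          have hn : ¬ π v := fun h' => hv ⟨h, h'⟩
          rw [sx (.inl v) hn, sx (.inr v) hn]
          simp
      choose y' a' g1 g2 g3 g4 g5 using key
      have hz1 : Γ.IsHomogeneousVec (kdg dV) (n + 1) (Sum.elim y' a') := by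
        intro w
        rcases w with v | v
        · exact g1 v
        · exact Γ.hg_cast (g2 v) (by simp [kdg])
      have degenZero : ∀ w, ¬ Sum.elim π π w → Sum.elim y' a' w = 0 := by
        intro w hw
        rcases w with v | v
        · exact (g4 v fun h => hw h.2).1
        · exact (g4 v fun h => hw h.2).2
      obtain ⟨y, k1, k2, k3, k4⟩ := ih (x - Γ.twistedDiff (Γ.kz t p q) (Sum.elim y' a'))
        (lf_Hv_sub hx (by simpa using IsHomogeneousVec.twistedDiff Γ hm hz1))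
        (fun w hw => by rw [Pi.sub_apply, sx w hw, lf_supp cl degenZero w hw, sub_zero])
        (fun v => by rw [Pi.sub_apply, map_sub, kx, lf_ker ke p q g3, sub_zero])
        (by rw [lf_dv_sub, cx, lf_cyc maurerCartan degenZero, sub_zero])
        (by
          intro v hv
          have z1 : ∀ w, Γ.e (y' w) * p w v = 0 := by
            intro w
            by_cases h : dV w = m
            · rw [(lf_p_zero hm (by omega)).1, mul_zero]
            · rw [(g4 w fun h' => h h'.1).1]; simp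
          have z2 : ∀ w, Γ.e (y' w) * q w v = 0 := by
            intro w
            by_cases h : dV w = m
            · rw [(lf_p_zero hm (by omega)).2, mul_zero]
            · rw [(g4 w fun h' => h h'.1).1]; simp
          have z3 : ∀ w, Γ.e (a' w) * Γ.e (p w v) = 0 := by
            intro w
            by_cases h : dV w = m
            · rw [(lf_p_zero hm (by omega)).1]; simp
            · rw [(g4 w fun h' => h h'.1).2]; simp
          simp only [Pi.sub_apply, lf_kz_inl, lf_kz_inr, Sum.elim_inl, Sum.elim_inr, z1, z2, z3,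
            Finset.sum_const_zero, add_zero, sub_zero]
          by_cases h : dV v = m
          · rw [(g5 v h).1, (g5 v h).2]; simp
          · rw [(g4 v fun h' => h h'.1).1, (g4 v fun h' => h h'.1).2, (hz v (by omega)).1,
              (hz v (by omega)).2]
            simp)
      refine ⟨y + Sum.elim y' a', lf_Hv_add k1 hz1, fun w hw => ?_, fun v => ?_, ?_⟩
      · rw [Pi.add_apply, k2 w hw, degenZero w hw, add_zero]
      · rw [Pi.add_apply, map_add, k3, Sum.elim_inl, g3, add_zero]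
      · rw [lf_dv_add, k4, sub_add_cancel])
  exact hP x hx sx kx cx fun v hv => absurd (hm0 v) (by omega)

theorem lf_hm_kz {t : K} {p q : Matrix V V R}
    (hp : ∀ v v', Γ.IsHomogeneous (dV v - 1 - dV v') (p v v'))
    (hq : ∀ v v', Γ.IsHomogeneous (dV v - 2 - dV v') (q v v')) :
    Γ.HM (kdg dV) (kdg dV) (-1) (Γ.kz t p q) := by
  intro w w'
  rcases w with v | v <;> rcases w' with v' | v'
  · exact Γ.hg_cast (hp v v') (by simp [kdg]; ring)
  · exact Γ.hg_cast (hq v v') (by simp [kdg]; ring)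
  · by_cases h : v = v'
    · subst h
      simpa [kz, kdg] using Γ.hg_inc t
    · simpa [kz, Matrix.diagonal_apply, h] using Γ.hg_zero _
  · exact Γ.hg_cast (Γ.hg_neg (Γ.hg_e (hp v v'))) (by simp [kdg]; ring)

theorem lf_hm_pq {t : K} {p q : Matrix V V R} (hm : Γ.HM (kdg dV) (kdg dV) (-1) (Γ.kz t p q))
    (v v' : V) : Γ.IsHomogeneous (dV v - 1 - dV v') (p v v') ∧ Γ.IsHomogeneous (dV v - 2 - dV v') (q v v') :=
  ⟨Γ.hg_cast (hm (.inl v) (.inl v')) (by simp [kdg]; ring),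
    Γ.hg_cast (hm (.inl v) (.inr v')) (by simp [kdg]; ring)⟩

/-- The Koszul part of an object exists. -/
theorem lf_exists_kz {K' : Type u} [CommRing K'] {Γ' : DG R' K'} {f₀ : K →+* K'}
    (hf : Γ.IsHom Γ' f f₀) {t : K} (ke : Γ.KE f t) {δ' : Matrix V V R'}
    (maurerCartan' : Γ'.dM δ' δ' = 0) (p₀ : Matrix V V R)
    (hp : Γ.HM dV dV (-1) p₀) (tp : ∀ v v', ¬ bV v' ≤ bV v → p₀ v v' = 0) (fp : p₀.map f = δ') :
    ∃ p q : Matrix V V R, Γ.HM (kdg dV) (kdg dV) (-1) (Γ.kz t p q) ∧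
      (∀ v v', ¬ bV v' ≤ bV v → p v v' = 0 ∧ q v v' = 0) ∧ p.map f = δ' ∧
      ∀ x, Γ.twistedDiff (Γ.kz t p q) (Γ.kz t p q x) = 0 := by
  obtain ⟨m, hm0, p, q, h1, h2, h3, h4⟩ := lf_ind dV (fun m => ∃ p q : Matrix V V R,
      Γ.HM (kdg dV) (kdg dV) (-1) (Γ.kz t p q) ∧
      (∀ v v', ¬ bV v' ≤ bV v → p v v' = 0 ∧ q v v' = 0) ∧ p.map f = δ' ∧
      ∀ v, dV v < m → Γ.twistedDiff (Γ.kz t p q) (Γ.kz t p q (.inl v)) = 0)
    (by
      intro m hm
      refine ⟨p₀, 0, lf_hm_kz (fun v v' => Γ.hg_cast (hp v v') (by ring))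
        (fun _ _ => Γ.hg_zero _), fun v v' h => ⟨tp v v' h, rfl⟩, fp, fun v hv => ?_⟩
      exact absurd (hm v) (by omega))
    (by
      rintro m ⟨p, q, hm, triangular, fp, maurerCartan⟩
      have key : ∀ v, ∃ y : V ⊕ V → R, Γ.IsHomogeneousVec (kdg dV) (dV v - 1) y ∧
          (∀ v', ¬ bV v' ≤ bV v → y (.inl v') = 0 ∧ y (.inr v') = 0) ∧
          (∀ v', f (y (.inl v')) = 0) ∧ (dV v ≠ m → y = 0) ∧
          (dV v = m → Γ.twistedDiff (Γ.kz t p q) y = Γ.twistedDiff (Γ.kz t p q) (Γ.kz t p q (.inl v))) := by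
        intro v
        by_cases hv : dV v = m
        · have cl : ∀ a b, (dV a < m ∧ bV a ≤ bV v) → ¬ (dV b < m ∧ bV b ≤ bV v) →
              p a b = 0 ∧ q a b = 0 := by
            intro a b ha hb
            by_cases h : dV b < m
            · exact triangular a b fun h' => hb ⟨h, h'.trans ha.2⟩
            · exact lf_p_zero hm (by omega)
          have mcπ : ∀ x, Sum.elim (fun a => dV a < m ∧ bV a ≤ bV v)
              (fun a => dV a < m ∧ bV a ≤ bV v) x →
              Γ.twistedDiff (Γ.kz t p q) (Γ.kz t p q x) = 0 := by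
            intro x hx
            rcases x with a | a
            · exact maurerCartan a hx.1
            · exact lf_mc_inr t p q a (maurerCartan a hx.1)
          have sx : ∀ w, ¬ Sum.elim (fun a => dV a < m ∧ bV a ≤ bV v)
              (fun a => dV a < m ∧ bV a ≤ bV v) w → Γ.kz t p q (.inl v) w = 0 := by
            have hz : ∀ a, ¬ (dV a < m ∧ bV a ≤ bV v) → p v a = 0 ∧ q v a = 0 := by
              intro a ha
              by_cases h : dV a < m
              · exact triangular v a fun h' => ha ⟨h, h'⟩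
              · exact lf_p_zero hm (by omega)
            intro w hw
            rcases w with a | a
            · exact (hz a hw).1
            · exact (hz a hw).2
          obtain ⟨y, k1, k2, k3, k4⟩ := kz_acyc ke (fun a => dV a < m ∧ bV a ≤ bV v) hm cl mcπ
            (IsHomogeneousVec.twistedDiff Γ hm (hm (.inl v))) (lf_supp cl sx)
            (by
              intro a
              have h := congrFun (congrFun maurerCartan' v) a
              rw [← fp, hf.dM] at h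
              rw [lf_kz_inl]
              simpa [DG.dM, Matrix.mul_apply, map_sum, kz, ke.f_t] using h)
            (lf_cyc mcπ sx)
          refine ⟨y, fun s => Γ.hg_cast (k1 s) (by simp [kdg]; ring), fun a ha => ?_, k3,
            fun h => absurd hv h, fun _ => k4⟩
          exact ⟨k2 (.inl a) fun h => ha h.2, k2 (.inr a) fun h => ha h.2⟩
        · exact ⟨0, fun _ => Γ.hg_zero _, fun _ _ => ⟨rfl, rfl⟩, fun _ => by simp, fun _ => rfl,
            fun h => absurd h hv⟩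
      choose y g1 g2 g3 g4 g5 using key
      have hm' : Γ.HM (kdg dV) (kdg dV) (-1) (Γ.kz t (p - Matrix.of fun v a => y v (.inl a))
          (q - Matrix.of fun v a => y v (.inr a))) := by
        refine lf_hm_kz (fun v a => Γ.hg_sub (lf_hm_pq hm v a).1 (g1 v (.inl a)))
          fun v a => Γ.hg_sub (lf_hm_pq hm v a).2 ?_
        exact Γ.hg_cast (g1 v (.inr a)) (by simp [kdg]; ring)
      refine ⟨_, _, hm', fun v a h => ?_, ?_, fun v hv => ?_⟩
      · simp [(triangular v a h).1, (triangular v a h).2, (g2 v a h).1, (g2 v a h).2]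
      · rw [← fp]
        ext v a
        simp [g3]
      · have e1 : Γ.kz t (p - Matrix.of fun v a => y v (.inl a))
            (q - Matrix.of fun v a => y v (.inr a)) (.inl v) = Γ.kz t p q (.inl v) - y v := by
          funext w
          rcases w with a | a <;> simp [kz]
        rw [lf_dv_congr (δ' := Γ.kz t p q), e1, lf_dv_sub]
        · by_cases h : dV v = m
          · rw [g5 v h, sub_self]
          · rw [g4 v h, maurerCartan v (by omega), lf_dv_zero, sub_self]
        · intro s hs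
          rcases s with a | a
          · have ha : dV a ≠ m := fun h => hs (lf_p_zero hm' (by omega)).1
            funext w
            rcases w with b | b <;> simp [kz, g4 a ha]
          · have ha : dV a ≠ m := fun h => hs (lf_p_zero hm' (by omega)).2
            funext w
            rcases w with b | b <;> simp [kz, g4 a ha])
  refine ⟨p, q, h1, h2, h3, fun x => ?_⟩
  rcases x with v | v
  · exact h4 v (hm0 v)
  · exact lf_mc_inr t p q v (h4 v (hm0 v))

/-- The attaching map of an object exists. -/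
theorem lf_exists_att {K' : Type u} [CommRing K'] {Γ' : DG R' K'} {f₀ : K →+* K'}
    (hf : Γ.IsHom Γ' f f₀) {t : K} (ke : Γ.KE f t) {δ : Matrix S S R} {p q : Matrix V V R}
    (hδ : Γ.HM dS dS (-1) δ) (maurerCartan : Γ.dM δ δ = 0)
    (tδ : ∀ s s', ¬ bS s' ≤ bS s → δ s s' = 0) (pS₀ : Matrix S V R)
    (hm : Γ.HM (kdg dV) (kdg dV) (-1) (Γ.kz t p q))
    (triangular : ∀ v v', ¬ bV v' ≤ bV v → p v v' = 0 ∧ q v v' = 0)
    (mck : ∀ x, Γ.twistedDiff (Γ.kz t p q) (Γ.kz t p q x) = 0)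
    (chart : Γ'.dM (p.map f) (pS₀.map f) = δ.map f * pS₀.map f)
    (hS : Γ.HM dS dV 0 pS₀) (tS : ∀ s v', ¬ bV v' ≤ bS s → pS₀ s v' = 0) :
    ∃ X : Matrix S (V ⊕ V) R, Γ.HM dS (kdg dV) 0 X ∧
      (∀ s v, ¬ bV v ≤ bS s → X s (.inl v) = 0 ∧ X s (.inr v) = 0) ∧
      (∀ s v, f (X s (.inl v)) = f (pS₀ s v)) ∧ Γ.dM (Γ.kz t p q) X = δ * X := by
  have dz : ∀ s s', dS s ≤ dS s' → δ s s' = 0 := fun s s' h => Γ.eq_zero (by omega) (hδ s s')
  obtain ⟨m, hm0, X, h1, h2, h3, h4⟩ := lf_ind dS (fun m => ∃ X : Matrix S (V ⊕ V) R,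
      Γ.HM dS (kdg dV) 0 X ∧ (∀ s v, ¬ bV v ≤ bS s → X s (.inl v) = 0 ∧ X s (.inr v) = 0) ∧
      (∀ s v, f (X s (.inl v)) = f (pS₀ s v)) ∧
      ∀ s, dS s < m → Γ.dM (Γ.kz t p q) X s = (δ * X) s)
    (by
      intro m hm
      refine ⟨Matrix.fromCols pS₀ 0, fun s w => ?_, fun s v h => ⟨tS s v h, rfl⟩,
        fun _ _ => rfl, fun s hs => absurd (hm s) (by omega)⟩
      rcases w with v | v
      · exact hS s v
      · exact Γ.hg_zero _)
    (by
      rintro m ⟨X, hX, tX, fX, cX⟩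
      have key : ∀ s, ∃ y : V ⊕ V → R, Γ.IsHomogeneousVec (kdg dV) (dS s) y ∧
          (∀ v', ¬ bV v' ≤ bS s → y (.inl v') = 0 ∧ y (.inr v') = 0) ∧
          (∀ v', f (y (.inl v')) = 0) ∧ (dS s ≠ m → y = 0) ∧
          (dS s = m → Γ.twistedDiff (Γ.kz t p q) y = Γ.dM (Γ.kz t p q) X s - (δ * X) s) := by
        intro s
        by_cases hs : dS s = m
        · have cl : ∀ a b, bV a ≤ bS s → ¬ bV b ≤ bS s → p a b = 0 ∧ q a b = 0 :=
            fun a b ha hb => triangular a b fun h' => hb (h'.trans ha)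
          have sx : ∀ s', bS s' ≤ bS s → ∀ w, ¬ Sum.elim (fun a => bV a ≤ bS s)
              (fun a => bV a ≤ bS s) w → X s' w = 0 := by
            intro s' hs' w hw
            rcases w with a | a
            · exact (tX s' a fun h => hw (h.trans hs')).1
            · exact (tX s' a fun h => hw (h.trans hs')).2
          have hv1 : Γ.IsHomogeneousVec (kdg dV) (dS s - 1) (Γ.dM (Γ.kz t p q) X s - (δ * X) s) := by
            refine lf_Hv_sub ?_ ?_
            · exact fun w => Γ.hg_cast (HM.dM Γ hm hX s w) (by ring)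
            · exact fun w => Γ.hg_cast (HM.mul Γ hδ hX s w) (by ring)
          obtain ⟨y, k1, k2, k3, k4⟩ := kz_acyc ke (fun a => bV a ≤ bS s) hm cl
            (fun x _ => mck x) hv1
            (by
              intro w hw
              rw [Pi.sub_apply, dM_apply, lf_supp cl (sx s le_rfl) w hw, Matrix.mul_apply,
                Finset.sum_eq_zero, sub_zero]
              intro s' _
              by_cases h : bS s' ≤ bS s
              · rw [sx s' h w hw, mul_zero]
              · rw [tδ s s' h, zero_mul])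
            (by
              intro a
              have h := congrFun (congrFun chart s) a
              rw [Pi.sub_apply, dM_apply, lf_kz_inl, map_sub, sub_eq_zero]
              simpa [DG.dM, Matrix.mul_apply, map_sum, ke.f_t, hf.d, hf.e, fX] using h)
            (by
              rw [lf_dv_sub, dM_apply, lf_cyc (π := fun _ => True) (fun x _ => mck x)
                (fun w hw => absurd trivial hw), zero_sub, neg_eq_zero, ← dM_apply, dM_mul]
              have e1 : ((δ.map Γ.e) * Γ.dM (Γ.kz t p q) X) s = ((δ.map Γ.e) * (δ * X)) s := by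
                funext w
                simp only [Matrix.mul_apply (M := δ.map Γ.e)]
                refine Finset.sum_congr rfl fun s' _ => ?_
                by_cases h : dS s' < m
                · rw [cX s' h]
                · simp [dz s s' (by omega)]
              have e2 : δ.map Γ.d * X + δ.map Γ.e * (δ * X) = 0 := by
                rw [← Matrix.mul_assoc, ← Matrix.add_mul]
                have : δ.map Γ.d + δ.map Γ.e * δ = 0 := maurerCartan
                rw [this, Matrix.zero_mul]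
              funext w
              have e3 := congrFun (congrFun e2 s) w
              rw [Matrix.add_apply] at e3 ⊢
              rw [e1]
              exact e3)
          refine ⟨y, fun s => Γ.hg_cast (k1 s) (by ring), fun a ha => ?_, k3,
            fun h => absurd hs h, fun _ => k4⟩
          exact ⟨k2 (.inl a) ha, k2 (.inr a) ha⟩
        · exact ⟨0, fun _ => Γ.hg_zero _, fun _ _ => ⟨rfl, rfl⟩, fun _ => by simp, fun _ => rfl,
            fun h => absurd h hs⟩
      choose y g1 g2 g3 g4 g5 using key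
      refine ⟨X - Matrix.of y, fun s => ?_, fun s v h => ?_, fun s v => ?_, fun s hs => ?_⟩
      · exact lf_Hv_sub (hX s) fun w => Γ.hg_cast (g1 s w) (by ring)
      · simp [(tX s v h).1, (tX s v h).2, (g2 s v h).1, (g2 s v h).2]
      · simp [fX, g3]
      · have e1 : (δ * (X - Matrix.of y)) s = (δ * X) s := by
          funext w
          simp only [Matrix.mul_apply]
          refine Finset.sum_congr rfl fun s' _ => ?_
          by_cases h : dS s' = m
          · simp [dz s s' (by omega)]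
          · simp [g4 s' h]
        have e2 : (X - Matrix.of y) s = X s - y s := rfl
        rw [e1, dM_apply, e2, lf_dv_sub, ← dM_apply]
        by_cases h : dS s = m
        · rw [g5 s h, sub_sub_cancel]
        · rw [g4 s h, cX s (by omega), lf_dv_zero, sub_zero])
  exact ⟨X, h1, h2, h3, funext fun s => h4 s (hm0 s)⟩

end DG

/-- Objects exist as soon as the entries of `δ'` and `ψ'` have homogeneous lifts. -/
theorem exists_obj {K' : Type u} [CommRing K'] {Γ' : DG R' K'} {f₀ : K →+* K'}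
    (hf : Γ.IsHom Γ' f f₀) {t : K} (ke : Γ.KE f t) {δ : Matrix S S R} {δ' : Matrix V V R'}
    {ψ' : Matrix S V R'} (hδ : Γ.HM dS dS (-1) δ) (maurerCartan : Γ.dM δ δ = 0)
    (tδ : ∀ s s', ¬ bS s' ≤ bS s → δ s s' = 0) (maurerCartan' : Γ'.dM δ' δ' = 0)
    (chart : Γ'.dM δ' ψ' = δ.map f * ψ') (p₀ : Matrix V V R) (pS₀ : Matrix S V R)
    (hp : Γ.HM dV dV (-1) p₀) (tp : ∀ v v', ¬ bV v' ≤ bV v → p₀ v v' = 0) (fp : p₀.map f = δ')
    (hS : Γ.HM dS dV 0 pS₀) (tS : ∀ s v', ¬ bV v' ≤ bS s → pS₀ s v' = 0) (fS : pS₀.map f = ψ') :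
    ∃ o : OD S V R, GoodO Γ f dS dV bS bV δ δ' ψ' t o := by
  obtain ⟨p, q, h1, h2, h3, h4⟩ := DG.lf_exists_kz (bV := bV) hf ke maurerCartan' p₀ hp tp fp
  obtain ⟨X, k1, k2, k3, k4⟩ := DG.lf_exists_att hf ke hδ maurerCartan tδ pS₀ h1 h2 h4
    (by rw [h3, fS]; exact chart) hS tS
  have hX : Matrix.fromCols (Matrix.of fun s v => X s (.inl v))
      (Matrix.of fun s v => X s (.inr v)) = X := by
    ext s w
    rcases w with v | v <;> rfl
  refine ⟨⟨Matrix.of fun s v => X s (.inl v), Matrix.of fun s v => X s (.inr v), p, q⟩,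
    ?_, ?_, ?_, ?_, h3⟩
  · simp only [OD.matrix, DG.cone, hX]
    intro w w'
    rcases w with s | x <;> rcases w' with s' | x'
    · exact Γ.hg_cast (Γ.hg_neg (Γ.hg_e (hδ s s'))) (by simp [cdg]; ring)
    · exact Γ.hg_cast (k1 s x') (by simp [cdg])
    · exact Γ.hg_zero _
    · exact h1 x x'
  · simp only [OD.matrix, DG.cone, hX]
    ext w w'
    rcases w with s | x <;> rcases w' with s' | x'
    · have h := congrArg Γ.e (congrFun (congrFun maurerCartan s) s')
      simpa [DG.dM, Matrix.mul_apply, Fintype.sum_sum_type (α₁ := S), map_sum, Γ.d_e, Γ.e_e]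
        using h
    · have h := congrFun (congrFun k4 s) x'
      simp only [DG.dM, Matrix.mul_apply, Matrix.add_apply, Matrix.map_apply] at h
      simp [DG.dM, Matrix.mul_apply, Fintype.sum_sum_type (α₁ := S), Γ.e_e, ← h]
      abel
    · simp [DG.dM, Matrix.mul_apply, Fintype.sum_sum_type (α₁ := S)]
    · have h := congrFun (h4 x) x'
      simpa [DG.dM, DG.twistedDiff, Matrix.mul_apply, Fintype.sum_sum_type (α₁ := S)] using h
  · intro w w' h
    rcases w with s | v | v <;> rcases w' with s' | v' | v'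
    · simp [OD.matrix, DG.cone, tδ s s' h]
    · exact (k2 s v' h).1
    · exact (k2 s v' h).2
    · rfl
    · exact (h2 v v' h).1
    · exact (h2 v v' h).2
    · rfl
    · have : v ≠ v' := by
        rintro rfl
        exact h le_rfl
      simp [OD.matrix, DG.cone, DG.kz, this]
    · simp [OD.matrix, DG.cone, DG.kz, (h2 v v' h).1]
  · rw [← fS]
    ext s v
    exact k3 s v

theorem lf_HM_map {R₂ K₂ U W : Type u} [Ring R₂] [CommRing K₂] {Γ₂ : DG R₂ K₂} {g : R →+* R₂}
    {g₀ : K →+* K₂} (homogeneous : Γ.IsHom Γ₂ g g₀) {dW : W → ℤ} {dU : U → ℤ} {k : ℤ} {M : Matrix W U R}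
    (h : Γ.HM dW dU k M) : Γ₂.HM dW dU k (M.map g) := fun w r => homogeneous.homogeneous (h w r)

theorem lf_mul_sub {U U' : Type u} [Fintype U] [Fintype U'] {b : U → J} {e : U' → U}
    (cv : Cvx b e) {A B : Matrix U U R} (tA : ∀ w w', ¬ b w' ≤ b w → A w w' = 0)
    (tB : ∀ w w', ¬ b w' ≤ b w → B w w' = 0) :
    (A * B).submatrix e e = A.submatrix e e * B.submatrix e e := by
  refine sub_mul cv.1 A B e e fun x w y hw => ?_
  by_cases h1 : b w ≤ b (e x)
  · by_cases h2 : b (e y) ≤ b w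
    · exact absurd (cv.2 x w y h1 h2) hw
    · rw [tB _ _ h2, mul_zero]
  · rw [tA _ _ h1, zero_mul]

theorem lf_dM_sub {U U' : Type u} [Fintype U] [Fintype U'] {b : U → J} {e : U' → U}
    (cv : Cvx b e) {A B : Matrix U U R} (tA : ∀ w w', ¬ b w' ≤ b w → A w w' = 0)
    (tB : ∀ w w', ¬ b w' ≤ b w → B w w' = 0) :
    Γ.dM (B.submatrix e e) (A.submatrix e e) = (Γ.dM B A).submatrix e e := by
  have h := lf_mul_sub cv (A := A.map Γ.e) (fun w w' h => by simp [tA w w' h]) tB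
  simp only [DG.dM, Matrix.submatrix_add, Pi.add_apply, h]
  rfl

theorem GoodO.map {R₂ R₂' K₂ : Type u} [Ring R₂] [Ring R₂'] [CommRing K₂] {Γ₂ : DG R₂ K₂}
    {f₂ : R₂ →+* R₂'} {g : R →+* R₂} {g' : R' →+* R₂'} {g₀ : K →+* K₂} (homogeneous : Γ.IsHom Γ₂ g g₀)
    (sq : ∀ x, f₂ (g x) = g' (f x)) {δ : Matrix S S R} {δ' : Matrix V V R'} {ψ' : Matrix S V R'}
    {t : K} {o : OD S V R} (h : GoodO Γ f dS dV bS bV δ δ' ψ' t o) :
    GoodO Γ₂ f₂ dS dV bS bV (δ.map g) (δ'.map g') (ψ'.map g') (g₀ t) (o.map g) := by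
  refine ⟨?_, ?_, fun w w' hw => ?_, ?_, ?_⟩
  · rw [OD.mat_map homogeneous]
    exact lf_HM_map homogeneous h.hm
  · rw [OD.mat_map homogeneous, homogeneous.dM, h.maurerCartan]
    ext
    simp
  · rw [OD.mat_map homogeneous, Matrix.map_apply, h.triangular w w' hw, map_zero]
  · rw [← h.fS]
    ext
    simp [OD.map, sq]
  · rw [← h.fV]
    ext
    simp [OD.map, sq]

theorem GoodO.sub {iS : S' → S} {iV : V' → V} (cv : Cvx (cb bS bV) (cemb iS iV))
    {δ : Matrix S S R} {δ' : Matrix V V R'} {ψ' : Matrix S V R'} {t : K} {o : OD S V R}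
    (h : GoodO Γ f dS dV bS bV δ δ' ψ' t o) :
    GoodO Γ f (dS ∘ iS) (dV ∘ iV) (bS ∘ iS) (bV ∘ iV) (δ.submatrix iS iS) (δ'.submatrix iV iV)
      (ψ'.submatrix iS iV) t (o.sub iS iV) := by
  have hV := lf_inj_right cv.1
  refine ⟨?_, ?_, fun w w' hw => ?_, ?_, ?_⟩
  · rw [OD.mat_sub _ _ _ _ hV]
    intro w w'
    have := h.hm (cemb iS iV w) (cemb iS iV w')
    rw [cdg_cemb, cdg_cemb] at this
    exact this
  · rw [OD.mat_sub _ _ _ _ hV, lf_dM_sub cv h.triangular h.triangular, h.maurerCartan]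
    rfl
  · rw [OD.mat_sub _ _ _ _ hV]
    exact h.triangular _ _ (by rwa [cb_cemb, cb_cemb])
  · rw [← h.fS]
    rfl
  · rw [← h.fV]
    rfl

/-- The Koszul part of an object is homogeneous and satisfies the Maurer-Cartan equation. -/
theorem GoodO.kz {δ : Matrix S S R} {δ' : Matrix V V R'} {ψ' : Matrix S V R'} {t : K}
    {o : OD S V R} (h : GoodO Γ f dS dV bS bV δ δ' ψ' t o) :
    Γ.HM (kdg dV) (kdg dV) (-1) (Γ.kz t o.p o.q) ∧
      Γ.dM (Γ.kz t o.p o.q) (Γ.kz t o.p o.q) = 0 ∧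
      ∀ v v', ¬ bV v' ≤ bV v → o.p v v' = 0 ∧ o.q v v' = 0 := by
  refine ⟨fun x x' => h.hm (.inr x) (.inr x'), ?_, fun v v' hv =>
    ⟨h.triangular (.inr (.inl v)) (.inr (.inl v')) hv, h.triangular (.inr (.inl v)) (.inr (.inr v')) hv⟩⟩
  ext x x'
  have := congrFun (congrFun h.maurerCartan (.inr x)) (.inr x')
  simpa [OD.matrix, DG.cone, DG.dM, Matrix.mul_apply, Fintype.sum_sum_type (α₁ := S)] using this

theorem lf_inv {U : Type u} [Fintype U] [inst : DecidableEq U] (T : Subring (Matrix U U R))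
    (κ : U → ℤ) {M : Matrix U U R} (hM : M ∈ T) (hκ : ∀ s r, (M - 1) s r ≠ 0 → κ r < κ s) :
    ∃ M' ∈ T, M * M' = 1 ∧ M' * M = 1 := by
  obtain rfl : inst = fun a b => propDecidable (a = b) := Subsingleton.elim _ _
  exact exists_inv_of_lower T κ hM hκ

/-- The shape of a morphism: all conditions except the chain condition. -/
structure LfShape (Γ : DG R K) (f : R →+* R') (dS : S → ℤ) (dV : V → ℤ) (bS : S → J)
    (bV : V → J) (u : K) (ρ : Matrix (S ⊕ (V ⊕ V)) (S ⊕ (V ⊕ V)) R) : Prop where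
  hm : Γ.HM (cdg dS dV) (cdg dS dV) 0 ρ
  triangular : ∀ w w', ¬ cb bS bV w' ≤ cb bS bV w → ρ w w' = 0
  kf : Γ.KF 1 u ρ
  sv : ∀ s v', f (ρ (.inl s) (.inr (.inl v'))) = 0 ∧ Γ.ev (ρ (.inl s) (.inr (.inl v'))) = 0
  vv : ∀ v v', f (ρ (.inr (.inl v)) (.inr (.inl v'))) = (if v = v' then 1 else 0) ∧
    Γ.ev (ρ (.inr (.inl v)) (.inr (.inl v'))) = if v = v' then 1 else 0

theorem lf_tri_mul {U : Type u} [Fintype U] {b : U → J} {A B : Matrix U U R}
    (tA : ∀ w w', ¬ b w' ≤ b w → A w w' = 0) (tB : ∀ w w', ¬ b w' ≤ b w → B w w' = 0)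
    (w w' : U) (h : ¬ b w' ≤ b w) : (A * B) w w' = 0 := by
  rw [Matrix.mul_apply]
  refine Finset.sum_eq_zero fun x _ => ?_
  by_cases h1 : b x ≤ b w
  · rw [tB x w' fun h2 => h (h2.trans h1), mul_zero]
  · rw [tA w x h1, zero_mul]

theorem lf_kf_mul {g g' : Matrix S S R} {u u' : K}
    {ρ ρ' : Matrix (S ⊕ (V ⊕ V)) (S ⊕ (V ⊕ V)) R} (h : Γ.KF g u ρ) (h' : Γ.KF g' u' ρ') :
    Γ.KF (g * g') (u * u') (ρ * ρ') := by
  refine ⟨fun s s' => ?_, fun x s' => ?_, fun v v' => ?_, fun v v' => ?_⟩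
  · simp [Matrix.mul_apply, Fintype.sum_sum_type, h.gg, h'.gg, h'.pg]
  · simp [Matrix.mul_apply, Fintype.sum_sum_type, h.pg, h'.pg]
  · simp [Matrix.mul_apply, Fintype.sum_sum_type, h.pg, h.ev, h'.ev]
  · simp only [Matrix.mul_apply, Fintype.sum_sum_type, h.pg, h.ev, h'.ev, h.ee, h'.ee, zero_mul,
      mul_zero, Finset.sum_const_zero, zero_add, add_zero, map_sum, map_mul, Finset.mul_sum]
    refine Finset.sum_congr rfl fun x _ => ?_
    rw [mul_assoc, mul_assoc, ← mul_assoc (Γ.e _) (Γ.inc u'), ← Γ.inc_comm u', mul_assoc]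

namespace LfShape
variable {ρ ρ' : Matrix (S ⊕ (V ⊕ V)) (S ⊕ (V ⊕ V)) R} {u u' : K}

theorem mul (h : LfShape Γ f dS dV bS bV u ρ) (h' : LfShape Γ f dS dV bS bV u' ρ') :
    LfShape Γ f dS dV bS bV (u * u') (ρ * ρ') := by
  refine ⟨by simpa using DG.HM.mul Γ h.hm h'.hm, lf_tri_mul h.triangular h'.triangular,
    by simpa using lf_kf_mul h.kf h'.kf, fun s v' => ⟨?_, ?_⟩, fun v v' => ⟨?_, ?_⟩⟩
  · simp [Matrix.mul_apply, Fintype.sum_sum_type, map_sum, (h.sv _ _).1, (h'.sv _ _).1, h'.kf.ev]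
  · simp [Matrix.mul_apply, Fintype.sum_sum_type, map_sum, (h.sv _ _).2, (h'.sv _ _).2, h'.kf.ev]
  · simp [Matrix.mul_apply, Fintype.sum_sum_type, map_sum, (h.vv _ _).1, (h'.vv _ _).1, h'.kf.ev,
      h.kf.pg]
  · simp [Matrix.mul_apply, Fintype.sum_sum_type, map_sum, (h.vv _ _).2, (h'.vv _ _).2, h'.kf.ev,
      h.kf.pg]

theorem diag (u : K) : LfShape Γ f dS dV bS bV u
    (Matrix.diagonal (Sum.elim (fun _ => 1) (Sum.elim (fun _ => 1) fun _ => Γ.inc u))) := by
  refine ⟨fun w w' => ?_, fun w w' h => ?_, ⟨fun s s' => ?_, fun x s' => ?_, fun v v' => ?_,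
    fun v v' => ?_⟩, fun s v' => ?_, fun v v' => ?_⟩
  · by_cases h : w = w'
    · subst h
      rw [Matrix.diagonal_apply_eq]
      rcases w with s | v | v
      · simpa using Γ.hg_one
      · simpa using Γ.hg_one
      · simpa using Γ.hg_inc u
    · rw [Matrix.diagonal_apply_ne _ h]
      exact Γ.hg_zero _
  · refine Matrix.diagonal_apply_ne _ ?_
    rintro rfl
    exact h le_rfl
  · simp [Matrix.diagonal_apply, Matrix.one_apply]
  · simp
  · simp
  · simp [Matrix.diagonal_apply, apply_ite Γ.e]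
  · simp
  · simp [Matrix.diagonal_apply, apply_ite f, apply_ite Γ.ev]

theorem inv_one (h : LfShape Γ f dS dV bS bV 1 ρ) :
    ∃ ρ', LfShape Γ f dS dV bS bV 1 ρ' ∧ ρ * ρ' = 1 ∧ ρ' * ρ = 1 := by
  have hone : LfShape Γ f dS dV bS bV 1 1 := by
    have := diag (Γ := Γ) (f := f) (dS := dS) (dV := dV) (bS := bS) (bV := bV) 1
    convert this using 1
    ext w w'
    rcases w with s | v | v <;> simp [Matrix.diagonal_apply, Matrix.one_apply]
  let T : Subring (Matrix (S ⊕ (V ⊕ V)) (S ⊕ (V ⊕ V)) R) :=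
    { carrier := {M | Γ.HM (cdg dS dV) (cdg dS dV) 0 M ∧
        (∀ w w', ¬ cb bS bV w' ≤ cb bS bV w → M w w' = 0) ∧ ∃ g, Γ.KF g 1 M}
      mul_mem' := by
        rintro A B ⟨a1, a2, g, a3⟩ ⟨b1, b2, g', b3⟩
        exact ⟨by simpa using DG.HM.mul Γ a1 b1, lf_tri_mul a2 b2, _,
          by simpa using lf_kf_mul a3 b3⟩
      one_mem' := ⟨hone.hm, hone.triangular, _, hone.kf⟩
      add_mem' := by
        rintro A B ⟨a1, a2, g, a3⟩ ⟨b1, b2, g', b3⟩
        refine ⟨fun w w' => Γ.hg_add (a1 w w') (b1 w w'), fun w w' hw => ?_, g + g',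
          fun s s' => ?_, fun x s' => ?_, fun v v' => ?_, fun v v' => ?_⟩
        · simp [a2 w w' hw, b2 w w' hw]
        · simp [a3.gg, b3.gg]
        · simp [a3.pg, b3.pg]
        · simp [a3.ev, b3.ev]
        · simp [a3.ee, b3.ee]
      zero_mem' := ⟨fun _ _ => Γ.hg_zero _, fun _ _ _ => rfl, 0, fun _ _ => rfl, fun _ _ => rfl,
        fun _ _ => rfl, fun _ _ => by simp⟩
      neg_mem' := by
        rintro A ⟨a1, a2, g, a3⟩
        refine ⟨fun w w' => Γ.hg_neg (a1 w w'), fun w w' hw => ?_, -g,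
          fun s s' => ?_, fun x s' => ?_, fun v v' => ?_, fun v v' => ?_⟩
        · simp [a2 w w' hw]
        · simp [a3.gg]
        · simp [a3.pg]
        · simp [a3.ev]
        · simp [a3.ee] }
  have hvv : ∀ v v', dV v ≤ dV v' →
      ρ (.inr (.inl v)) (.inr (.inl v')) = if v = v' then 1 else 0 := by
    intro v v' hv
    have h1 := h.hm (.inr (.inl v)) (.inr (.inl v'))
    simp only [cdg, kdg, Sum.elim_inl, Sum.elim_inr, add_zero] at h1
    by_cases h2 : dV v = dV v'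
    · rw [← Γ.inc_ev (Γ.hg_cast h1 (by omega)), (h.vv v v').2]
      simp [apply_ite Γ.inc]
    · rw [Γ.eq_zero (by omega) h1, if_neg]
      rintro rfl
      exact h2 rfl
  obtain ⟨ρ', ⟨a1, a2, g, a3⟩, e1', e2'⟩ := lf_inv T
    (fun w => 3 * cdg dS dV w + Sum.elim (fun _ => 2) (Sum.elim (fun _ => 1) fun _ => 0) w)
    (M := ρ) ⟨h.hm, h.triangular, _, h.kf⟩ (by
      intro w w' hw
      have h1 : cdg dS dV w' ≤ cdg dS dV w := by
        by_contra h2
        exact hw (Γ.eq_zero (by omega) (Γ.hg_sub (h.hm w w') (hone.hm w w')))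
      rcases w with s | v | v <;> rcases w' with s' | v' | v'
      · exact absurd (by simp [h.kf.gg, Matrix.one_apply]) hw
      · simp only [Sum.elim_inl, Sum.elim_inr]; omega
      · simp only [Sum.elim_inl, Sum.elim_inr]; omega
      · exact absurd (by simp [h.kf.pg]) hw
      · have : ¬ dV v ≤ dV v' := fun h2 => hw (by simp [hvv v v' h2, Matrix.one_apply])
        simp only [cdg, kdg, Sum.elim_inl, Sum.elim_inr]; omega
      · simp only [Sum.elim_inl, Sum.elim_inr]; omega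
      · exact absurd (by simp [h.kf.pg]) hw
      · exact absurd (by simp [h.kf.ev]) hw
      · have : ¬ dV v ≤ dV v' := fun h2 =>
          hw (by simp [h.kf.ee, hvv v v' h2, Matrix.one_apply, apply_ite Γ.e])
        simp only [cdg, kdg, Sum.elim_inl, Sum.elim_inr]; omega)
  refine ⟨ρ', ⟨a1, a2, ⟨fun s s' => ?_, a3.pg, a3.ev, a3.ee⟩, fun s v' => ?_, fun v v' => ?_⟩,
    e1', e2'⟩
  · have := congrFun (congrFun e2' (.inl s)) (.inl s')
    simpa [Matrix.mul_apply, Fintype.sum_sum_type, h.kf.gg, h.kf.pg, Matrix.one_apply] using this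
  · have := congrFun (congrFun e2' (.inl s)) (.inr (.inl v'))
    constructor
    · simpa [Matrix.mul_apply, Fintype.sum_sum_type, h.kf.ev, map_sum, (h.sv _ _).1,
        (h.vv _ _).1] using congrArg f this
    · simpa [Matrix.mul_apply, Fintype.sum_sum_type, h.kf.ev, map_sum, (h.sv _ _).2,
        (h.vv _ _).2] using congrArg Γ.ev this
  · have := congrFun (congrFun e2' (.inr (.inl v))) (.inr (.inl v'))
    constructor
    · simpa [Matrix.mul_apply, Fintype.sum_sum_type, h.kf.ev, map_sum, (h.sv _ _).1,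
        (h.vv _ _).1, Matrix.one_apply, apply_ite f] using congrArg f this
    · simpa [Matrix.mul_apply, Fintype.sum_sum_type, h.kf.ev, map_sum, (h.sv _ _).2,
        (h.vv _ _).2, Matrix.one_apply, apply_ite Γ.ev] using congrArg Γ.ev this

theorem inv {u : Kˣ} (h : LfShape Γ f dS dV bS bV u ρ) :
    ∃ ρ', LfShape Γ f dS dV bS bV (u⁻¹ : Kˣ) ρ' ∧ ρ * ρ' = 1 ∧ ρ' * ρ = 1 := by
  have hd : ∀ a b : K, a * b = 1 → (Matrix.diagonal (Sum.elim (fun _ => 1)
      (Sum.elim (fun _ => 1) fun _ => Γ.inc a)) : Matrix (S ⊕ (V ⊕ V)) (S ⊕ (V ⊕ V)) R) *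
      Matrix.diagonal (Sum.elim (fun _ => 1) (Sum.elim (fun _ => 1) fun _ => Γ.inc b)) = 1 := by
    intro a b hab
    rw [Matrix.diagonal_mul_diagonal, ← Matrix.diagonal_one]
    congr 1
    funext w
    rcases w with s | v | v <;> simp [← map_mul, hab]
  have h1 := h.mul (diag ((u⁻¹ : Kˣ) : K))
  rw [Units.mul_inv] at h1
  obtain ⟨MooreDGA, n1, n2, n3⟩ := h1.inv_one
  have h2 := (diag ((u⁻¹ : Kˣ) : K)).mul n1
  rw [mul_one] at h2
  refine ⟨_, h2, by rw [← Matrix.mul_assoc, n2], ?_⟩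
  have e := hd _ _ (Units.inv_mul u)
  calc _ = Matrix.diagonal _ * (MooreDGA * (ρ * Matrix.diagonal _)) * Matrix.diagonal _ := by
        rw [Matrix.mul_assoc _ (MooreDGA * _), Matrix.mul_assoc MooreDGA, Matrix.mul_assoc ρ, e,
          Matrix.mul_one, Matrix.mul_assoc]
    _ = 1 := by rw [n3, Matrix.mul_one, e]

end LfShape

namespace GoodM
variable {Δ Δ' Δ'' ρ ρ' : Matrix (S ⊕ (V ⊕ V)) (S ⊕ (V ⊕ V)) R} {u u' : K}

theorem lf_shape (h : GoodM Γ f dS dV bS bV Δ Δ' u ρ) : LfShape Γ f dS dV bS bV u ρ :=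
  ⟨h.hm, h.triangular, h.kf, h.sv, h.vv⟩

theorem lf_of (h : LfShape Γ f dS dV bS bV u ρ) (c : Γ.dM Δ' ρ = Δ * ρ) :
    GoodM Γ f dS dV bS bV Δ Δ' u ρ := ⟨h.hm, h.triangular, h.kf, h.sv, h.vv, c⟩

theorem lf_dM_one (Δ : Matrix (S ⊕ (V ⊕ V)) (S ⊕ (V ⊕ V)) R) : Γ.dM Δ 1 = Δ := by
  ext w w'
  simp [DG.dM, Matrix.one_apply, apply_ite Γ.d, Γ.d_one]

theorem one (Δ : Matrix (S ⊕ (V ⊕ V)) (S ⊕ (V ⊕ V)) R) : GoodM Γ f dS dV bS bV Δ Δ 1 1 := by
  refine lf_of ?_ (by rw [lf_dM_one, Matrix.mul_one])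
  have := LfShape.diag (Γ := Γ) (f := f) (dS := dS) (dV := dV) (bS := bS) (bV := bV) 1
  convert this using 1
  ext w w'
  rcases w with s | v | v <;> simp [Matrix.diagonal_apply, Matrix.one_apply]

theorem mul (h : GoodM Γ f dS dV bS bV Δ Δ' u ρ) (h' : GoodM Γ f dS dV bS bV Δ' Δ'' u' ρ') :
    GoodM Γ f dS dV bS bV Δ Δ'' (u * u') (ρ * ρ') := by
  refine lf_of (h.lf_shape.mul h'.lf_shape) ?_
  rw [DG.dM_mul, h'.chain, ← Matrix.mul_assoc, ← Matrix.add_mul, ← Matrix.mul_assoc, ← h.chain]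
  rfl

theorem inv {u : Kˣ} (h : GoodM Γ f dS dV bS bV Δ Δ' u ρ) :
    ∃ ρ', GoodM Γ f dS dV bS bV Δ' Δ (u⁻¹ : Kˣ) ρ' ∧ ρ * ρ' = 1 ∧ ρ' * ρ = 1 := by
  obtain ⟨ρ', h1, h2, h3⟩ := h.lf_shape.inv
  refine ⟨ρ', lf_of h1 ?_, h2, h3⟩
  have e1 : ρ.map Γ.d * ρ' + ρ.map Γ.e * Γ.dM Δ ρ' = Δ := by
    rw [← DG.dM_mul, h2, lf_dM_one]
  have e2 : ρ.map Γ.d * ρ' + ρ.map Γ.e * (Δ' * ρ') = Δ := by
    have : ρ.map Γ.d + ρ.map Γ.e * Δ' = Δ * ρ := h.chain
    rw [← Matrix.mul_assoc, ← Matrix.add_mul, this, Matrix.mul_assoc, h2, Matrix.mul_one]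
  have e3 : ρ.map Γ.e * Γ.dM Δ ρ' = ρ.map Γ.e * (Δ' * ρ') := add_left_cancel (e1.trans e2.symm)
  have e4 : ρ'.map Γ.e * ρ.map Γ.e = 1 := by
    rw [← Matrix.map_mul, h3]
    exact Matrix.map_one _ (map_zero _) (map_one _)
  rw [← Matrix.one_mul (Γ.dM Δ ρ'), ← e4, Matrix.mul_assoc, e3, ← Matrix.mul_assoc, e4,
    Matrix.one_mul]

theorem map {R₂ R₂' K₂ : Type u} [Ring R₂] [Ring R₂'] [CommRing K₂] {Γ₂ : DG R₂ K₂}
    {f₂ : R₂ →+* R₂'} {g : R →+* R₂} {g' : R' →+* R₂'} {g₀ : K →+* K₂} (homogeneous : Γ.IsHom Γ₂ g g₀)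
    (sq : ∀ x, f₂ (g x) = g' (f x)) (h : GoodM Γ f dS dV bS bV Δ Δ' u ρ) :
    GoodM Γ₂ f₂ dS dV bS bV (Δ.map g) (Δ'.map g) (g₀ u) (ρ.map g) := by
  refine ⟨lf_HM_map homogeneous h.hm, fun w w' hw => ?_, ⟨fun s s' => ?_, fun x s' => ?_, fun v v' => ?_,
    fun v v' => ?_⟩, fun s v' => ?_, fun v v' => ?_, ?_⟩
  · simp [h.triangular w w' hw]
  · simp [h.kf.gg, Matrix.one_apply, apply_ite g]
  · simp [h.kf.pg]
  · simp [h.kf.ev]
  · simp [h.kf.ee, homogeneous.inc, homogeneous.e]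
  · simp [sq, ← homogeneous.ev, (h.sv s v').1, (h.sv s v').2]
  · simp [sq, ← homogeneous.ev, (h.vv v v').1, (h.vv v v').2, apply_ite g', apply_ite g₀]
  · rw [homogeneous.dM, h.chain, Matrix.map_mul]

theorem sub {iS : S' → S} {iV : V' → V} (cv : Cvx (cb bS bV) (cemb iS iV))
    (tΔ : ∀ w w', ¬ cb bS bV w' ≤ cb bS bV w → Δ w w' = 0)
    (tΔ' : ∀ w w', ¬ cb bS bV w' ≤ cb bS bV w → Δ' w w' = 0)
    (h : GoodM Γ f dS dV bS bV Δ Δ' u ρ) :
    GoodM Γ f (dS ∘ iS) (dV ∘ iV) (bS ∘ iS) (bV ∘ iV) (Δ.submatrix (cemb iS iV) (cemb iS iV))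
      (Δ'.submatrix (cemb iS iV) (cemb iS iV)) u (ρ.submatrix (cemb iS iV) (cemb iS iV)) := by
  have hS := lf_inj_left cv.1
  have hV := lf_inj_right cv.1
  refine ⟨fun w w' => ?_, fun w w' hw => ?_, ⟨fun s s' => ?_, fun x s' => ?_, fun v v' => ?_,
    fun v v' => ?_⟩, fun s v' => h.sv _ _, fun v v' => ?_, ?_⟩
  · have := h.hm (cemb iS iV w) (cemb iS iV w')
    rw [cdg_cemb, cdg_cemb] at this
    exact this
  · exact h.triangular _ _ (by rwa [cb_cemb, cb_cemb])
  · simpa [cemb, Matrix.one_apply, hS.eq_iff] using h.kf.gg (iS s) (iS s')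
  · exact h.kf.pg _ _
  · exact h.kf.ev _ _
  · exact h.kf.ee _ _
  · simpa [cemb, hV.eq_iff] using h.vv (iV v) (iV v')
  · rw [lf_dM_sub cv h.triangular tΔ', h.chain, lf_mul_sub cv tΔ h.triangular]

end GoodM

end Pool.Agent.P.MP_932208_ag
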