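import Pool.Agent.P.MP_932208_ag.Tw

/-!
Line bundles on the stack presented by a diagram of simplicial rings.
-/

namespace Pool.Agent.P.MP_932208_ag

universe u

variable {J : Type u} [Preorder J] {A : RingDiagram J}

theorem ModuleDiagram.smulBy_nat (M : ModuleDiagram A) (j : J) (e : M.obj j 0) :
    (A.chart j).ab.IsNatural (M.ab j) fun n =>
      smulMap ((A.chart j).obj n) (addApp (M.map (le_refl j) (vert n 0)) e) := M.smul_nat j e

/-- The map `A_j → M_j`, `a ↦ a • e`, given by a vertex `e` of `M_j`. -/
def ModuleDiagram.smulBy (M : ModuleDiagram A) (j : J) (e : M.obj j 0) : (A.chart j).ab.Hom (M.ab j) where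
  app n := smulMap ((A.chart j).obj n) (addApp (M.map (le_refl j) (vert n 0)) e)
  nat := @smulBy_nat J _ A M j e

/-- `M` is a line bundle: every chart `i` carries a section `e` that freely generates `M_j` (up to
weak equivalence) on all charts `j ≥ i`; so `M` is locally free of rank one and cartesian. -/
def ModuleDiagram.IsLineBundle (M : ModuleDiagram A) : Prop :=
  ∀ i, ∃ e : M.obj i 0, ∀ j (h : i ≤ j), (M.smulBy j (addApp (M.map h OrderHom.id) e)).IsWeakEquiv

theorem RingDiagram.Hom.transition_mem {B : RingDiagram J} (f : A.Hom B) {i j : J} {k n : ℕ}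
    (h : i ≤ j) (θ : SimplexHom k n) : MapsKer (A.transition h θ) ((f.app i).app n) ((f.app j).app k) := fun x => by
  have hx : (f.app i).app n x.1 = 0 := x.2
  change (f.app j).app k ((A.chart j).map θ ((A.res h).app n x.1)) = 0
  rw [SimplicialRing.Hom.nat, f.nat, hx, map_zero, map_zero]

/-- The structure maps of the ideal `ker f`. -/
def RingDiagram.Hom.idealMap {B : RingDiagram J} (f : A.Hom B) {i j : J} {k n : ℕ} (h : i ≤ j)
    (θ : SimplexHom k n) : @AddMap _ _ (kerGroup ((f.app i).app n)) (kerGroup ((f.app j).app k)) :=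
  kerRestrict (A.transition h θ) _ _ (f.transition_mem h θ)

theorem RingDiagram.Hom.ideal_laws {B : RingDiagram J} (f : A.Hom B) :
    @IsModuleDiagram J _ A (fun j n => Ker ((f.app j).app n)) (fun _ _ => kerGroup _) (fun _ _ => idealModule (kerIdeal _))
      f.idealMap :=
  @IsModuleDiagram.mk J _ A _ (_) (_) _ (fun h θ a x => Subtype.ext (map_mul (A.transition h θ) a x.1))
    (fun i n x => Subtype.ext (A.tr_id i n x.1))
    fun h h' _ _ _ θ η x => Subtype.ext (A.tr_comp h h' θ η x.1)

/-- The ideal `I = ker f`; for a levelwise surjection `f` it is the fibre of `O_X → f_* O_Z`. -/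
@[reducible] def RingDiagram.Hom.ideal {B : RingDiagram J} (f : A.Hom B) : ModuleDiagram A where
  obj j n := Ker ((f.app j).app n)
  grp _ _ := kerGroup _
  mod _ _ := idealModule (kerIdeal _)
  map := f.idealMap
  laws := f.ideal_laws

/-- `M` and `M'` are equivalent: they are joined by a span of weak equivalences. -/
def ModuleDiagram.Equivalent (M M' : ModuleDiagram A) : Prop :=
  ∃ (P : ModuleDiagram A) (g : P.Hom M) (g' : P.Hom M'), g.IsWeakEquiv ∧ g'.IsWeakEquiv

end Pool.Agent.P.MP_932208_ag
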