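import Pool.Agent.P.MP_932208_ag.MooreL

/-!
The Moore (normalised chain) differential graded ring `MooreDGA A` of a simplicial commutative ring.
-/

namespace Pool.Agent.P.MP_932208_ag

universe u

theorem Chains.isMoore_subring (A : SimplicialRing.{u}) : IsSubringPred (Chains.IsMoore (A := A)) :=
  ⟨Chains.IsMoore.mul, Chains.mo_deg0 1, Chains.IsMoore.add, Chains.mo_zero, Chains.IsMoore.neg⟩

/-- The Moore chains, a subring of the chains. -/
def mooreSubring (A : SimplicialRing.{u}) : Subring (Chains A) :=
  subringOf Chains.IsMoore (Chains.isMoore_subring A)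

/-- The normalised chains `MooreDGA A` with the shuffle product: the differential graded ring whose
dg modules present the derived category of `A`. -/
abbrev MooreDGA (A : SimplicialRing.{u}) : Type u := mooreSubring A

namespace MooreDGA
variable {A B : SimplicialRing.{u}}

theorem boundary_ok : IsAddMapOn (mooreSubring A) Chains.boundary :=
  ⟨fun x => Chains.IsMoore.boundary x.2, Chains.bd_add⟩

/-- The differential of `MooreDGA A`. -/
def boundary : MooreDGA A →+ MooreDGA A := addMapOn (mooreSubring A) Chains.boundary boundary_ok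

theorem sign_ok : IsRingMapOn (mooreSubring A) (mooreSubring A) Chains.sgn :=
  ⟨fun x => Chains.IsMoore.sgn x.2, Chains.sgn_one, fun x y => Chains.sgn_mul x.1 y.1, Chains.sgn_zero,
    fun x y => Chains.sgn_add x.1 y.1⟩

/-- The sign automorphism `x ↦ (-1)^{deg x} x` of `MooreDGA A`. -/
def sign : MooreDGA A →+* MooreDGA A := ringMapOn (mooreSubring A) (mooreSubring A) Chains.sgn sign_ok

/-- `x` is homogeneous of degree `k` (so `x = 0` if `k < 0`). -/
def IsHomogeneous (k : ℤ) (x : MooreDGA A) : Prop := ∀ n : ℕ, (n : ℤ) ≠ k → x.1 n = 0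

theorem inc_ok : IsRingMapInto (mooreSubring A) Chains.deg0 :=
  ⟨Chains.mo_deg0, rfl, Chains.deg0_mul, Chains.deg0_zero, Chains.deg0_add⟩

/-- The inclusion of `A_0` as the degree zero part. -/
def inc : A.obj 0 →+* MooreDGA A := ringMapInto (mooreSubring A) Chains.deg0 inc_ok

theorem map_ok (f : A.Hom B) : IsRingMapOn (mooreSubring A) (mooreSubring B) (Chains.image f) :=
  ⟨fun x => Chains.IsMoore.map f.based x.2, map_one_aux f, fun x y => f.based.ch_mul x.1 y.1,
    map_zero_aux f, fun x y => map_add_aux f x.1 y.1⟩

/-- The map of Moore dg rings induced by a map of simplicial rings. -/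
def map (f : A.Hom B) : MooreDGA A →+* MooreDGA B :=
  ringMapOn (mooreSubring A) (mooreSubring B) (Chains.image f) (map_ok f)

/-- The image of an element. -/
abbrev push (f : A.Hom B) (x : MooreDGA A) : MooreDGA B := map f x

/-- The image of a principal submatrix. -/
abbrev pushSub (f : A.Hom B) {U V : Type u} (M : Matrix V V (MooreDGA A)) (e : U → V) :
    Matrix U U (MooreDGA B) := mat fun s r => push f (M (e s) (e r))

end MooreDGA

end Pool.Agent.P.MP_932208_ag
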