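import Pool.Agent.P.MP_932208_ag.ChainRing

/-!
Lemmas on Moore chains.
-/

namespace Pool.Agent.P.MP_932208_ag

universe u

theorem plus_face {n : ℕ} (i : Fin (n + 2)) : plus (face i) = face i.succ := by
  ext a
  rcases Fin.eq_zero_or_eq_succ a with rfl | ⟨a, rfl⟩
  · simp [face]
  · simp [face]

theorem face_succ_zero {n : ℕ} (i : Fin (n + 1)) : (face i.succ : SimplexHom n (n + 1)) 0 = 0 := by
  simp [face]

theorem degen_face_one (n : ℕ) :
    (degen 0 : SimplexHom (n + 1) n).comp (face (Fin.succ 0)) = OrderHom.id := by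
  ext a
  rcases Fin.eq_zero_or_eq_succ a with rfl | ⟨a, rfl⟩
  · simp [face, degen]
  · simp [face, degen]

theorem degen_face_zero (n : ℕ) : (degen 0 : SimplexHom (n + 1) n).comp (face 0) = OrderHom.id := by
  ext a; simp [face, degen]

theorem face_zero_comp {k n : ℕ} (θ : SimplexHom k n) :
    (plus θ).comp (face 0) = (face 0).comp θ := by
  ext a; simp [face]

/-- A map of simplicial rings as a based map. -/
def SimplicialRing.Hom.based {A B : SimplicialRing.{u}} (f : A.Hom B) : BasedHom A B where
  app := f.app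
  nat θ _ x := f.nat θ x

/-- The zeroth face as a map from the decalage. -/
def SimplicialRing.d0Hom (A : SimplicialRing.{u}) : BasedHom A.decalage A where
  app n := A.map (face 0)
  nat θ _ x := by
    change A.map _ (A.map _ x) = A.map _ (A.map _ x)
    rw [A.map_comp, A.map_comp, face_zero_comp]

namespace Chains
variable {A : SimplicialRing.{u}}

theorem bd_add (x y : Chains A) : (x + y).boundary = x.boundary + y.boundary := by ext n; simp [boundary]

theorem bd_mul (x y : Chains A) : (x * y).boundary = x.boundary * y + x.sgn * y.boundary := by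
  have h : ∀ z : Chains A, A.d0Hom.chart z.degenZero = z := fun z => Chains.ext fun n => by
    change A.map _ (A.map _ _) = _
    rw [A.map_comp, degen_face_zero, A.map_id]
  have h1 : (x * y).boundary = A.d0Hom.chart (x * y).tail := rfl
  have h2 : ∀ a b : Chains A.decalage, A.d0Hom.chart (a + b) = A.d0Hom.chart a + A.d0Hom.chart b := fun a b =>
    Chains.ext fun n => map_add _ _ _
  rw [h1, tail_mul, h2, BasedHom.ch_mul, BasedHom.ch_mul, h, h]; rfl

theorem mo_iff {x : Chains A} : x.IsMoore ↔ ∀ n (i : Fin (n + 1)), A.map (face i.succ) (x (n + 1)) = 0 := by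
  constructor
  · intro h n i; exact h (n + 1) i
  · intro h n; cases n with
    | zero => trivial
    | succ n => exact h n

theorem IsMoore.tail {x : Chains A} (h : x.IsMoore) : x.tail.IsMoore := mo_iff.2 fun n i => by
  change A.map (plus _) (x (n + 2)) = 0
  rw [plus_face]; exact mo_iff.1 h _ _

theorem IsMoore.map {B : SimplicialRing.{u}} (f : BasedHom A B) {x : Chains A} (h : x.IsMoore) : (f.chart x).IsMoore :=
  mo_iff.2 fun n i => by
    change B.map _ (f.app _ _) = 0
    rw [← f.nat _ (face_succ_zero i), mo_iff.1 h, map_zero]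

theorem IsMoore.degenZero {x : Chains A} (h : x.IsMoore) : x.degenZero.IsMoore := h.map A.szHom

theorem IsMoore.sgn {x : Chains A} (h : x.IsMoore) : x.sgn.IsMoore := mo_iff.2 fun n i => by
  simp [Chains.sgn, mo_iff.1 h]

theorem IsMoore.bd_tail {x : Chains A} (h : x.IsMoore) : x.tail.boundary = 0 := Chains.ext fun n => by
  change A.map (plus _) (x (n + 2)) = 0
  rw [plus_face]; exact mo_iff.1 h _ _

theorem bd_sz (x : Chains A) : x.degenZero.boundary = x.tail := Chains.ext fun n => by
  change A.map (plus _) (A.map _ (x (n + 1))) = x (n + 1)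
  rw [plus_face, A.map_comp, degen_face_one, A.map_id]

theorem mo_sh (n : ℕ) : ∀ (A : SimplicialRing.{u}) (x y : Chains A), x.IsMoore → y.IsMoore → ∀ i : Fin (n + 1),
    A.map (face i.succ) ((x * y) (n + 1)) = 0 := by
  induction n with
  | zero =>
    intro A x y hx hy i
    have h1 := mo_iff.1 hx 0 i
    have h2 := mo_iff.1 hy 0 i
    change A.map _ (x 1 * _ + _ * y 1) = 0
    rw [map_add, map_mul, map_mul, h1, h2, zero_mul, mul_zero, add_zero]
  | succ n ih =>
    intro A x y hx hy i
    rw [← plus_face]
    change A.decalage.map (face i) ((x * y).tail (n + 1)) = 0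
    rw [tail_mul]
    rcases Fin.eq_zero_or_eq_succ i with rfl | ⟨i, rfl⟩
    · change (x.tail * y.degenZero + x.sgn.degenZero * y.tail).boundary n = 0
      rw [bd_add, bd_mul, bd_mul, hx.bd_tail, hy.bd_tail, bd_sz, bd_sz, tail_sgn, zero_mul,
        mul_zero, zero_add, add_zero, neg_mul, add_neg_cancel]
      rfl
    · rw [add_apply, map_add, ih A.decalage _ _ hx.tail hy.degenZero, ih A.decalage _ _ hx.sgn.degenZero hy.tail, add_zero]

theorem IsMoore.mul {x y : Chains A} (hx : x.IsMoore) (hy : y.IsMoore) : (x * y).IsMoore :=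
  mo_iff.2 fun n i => mo_sh n A x y hx hy i

theorem mo_deg0 (a : A.obj 0) : (deg0 a).IsMoore := mo_iff.2 fun n i => map_zero _
theorem IsMoore.add {x y : Chains A} (hx : x.IsMoore) (hy : y.IsMoore) : (x + y).IsMoore :=
  mo_iff.2 fun n i => by simp [mo_iff.1 hx, mo_iff.1 hy]
theorem IsMoore.neg {x : Chains A} (hx : x.IsMoore) : (-x).IsMoore := mo_iff.2 fun n i => by simp [mo_iff.1 hx]
theorem mo_zero : (0 : Chains A).IsMoore := mo_iff.2 fun n i => map_zero _

theorem face_face_zero {n : ℕ} (i : Fin (n + 2)) :
    (face 0 : SimplexHom (n + 1) (n + 2)).comp (face i) = (face i.succ).comp (face 0) := by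
  rw [← plus_face, face_zero_comp]

theorem IsMoore.boundary {x : Chains A} (hx : x.IsMoore) : x.boundary.IsMoore := mo_iff.2 fun n i => by
  change A.map _ (A.map _ (x (n + 2))) = 0
  rw [A.map_comp, face_face_zero, ← A.map_comp, mo_iff.1 hx, map_zero]

theorem IsMoore.bd_bd {x : Chains A} (hx : x.IsMoore) : x.boundary.boundary = 0 := Chains.ext fun n => by
  change A.map _ (A.map _ (x (n + 2))) = 0
  rw [A.map_comp, face_face_zero, ← A.map_comp, mo_iff.1 hx, map_zero]

theorem sgn_one : (1 : Chains A).sgn = 1 := sgn_deg0 1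

theorem deg0_add (a b : A.obj 0) : deg0 (a + b) = deg0 a + deg0 b := by
  ext n; cases n <;> simp [deg0]
theorem deg0_zero : deg0 (0 : A.obj 0) = 0 := by
  ext n; cases n <;> simp [deg0]
theorem deg0_mul (a b : A.obj 0) : deg0 (a * b) = deg0 a * deg0 b := by
  ext n; rw [sh_deg0_left]
  cases n with
  | zero =>
    have : (vert 0 0 : SimplexHom 0 0) = OrderHom.id := by ext i; simp [vert]
    rw [this, A.map_id]; rfl
  | succ n => simp [deg0]

end Chains

theorem MooreDGA.map_one_aux {A B : SimplicialRing.{u}} (f : A.Hom B) : f.based.chart 1 = 1 := by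
  ext n; cases n with
  | zero => exact map_one (f.app 0)
  | succ n => exact map_zero (f.app (n + 1))
theorem MooreDGA.map_zero_aux {A B : SimplicialRing.{u}} (f : A.Hom B) : f.based.chart 0 = 0 :=
  Chains.ext fun n => map_zero (f.app n)
theorem MooreDGA.map_add_aux {A B : SimplicialRing.{u}} (f : A.Hom B) (x y : Chains A) :
    f.based.chart (x + y) = f.based.chart x + f.based.chart y := Chains.ext fun n => map_add (f.app n) _ _

end Pool.Agent.P.MP_932208_ag
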