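import Pool.Agent.P.MP_932208_ag.CotL2
import Pool.Agent.P.MP_932208_ag.Lift

/-!
Morphisms between objects extend from the boundary of a simplex.
-/

namespace Pool.Agent.P.MP_932208_ag

open Classical

universe u

section Aux

variable {R R' : Type u} [Ring R] [Ring R'] {K : Type u} [CommRing K] {Γ : DG R K}
  {g : R →+* R'} {S V J U : Type u}

theorem mor_dv_add [Fintype U] (δ : Matrix U U R) (x y : U → R) :
    Γ.twistedDiff δ (x + y) = Γ.twistedDiff δ x + Γ.twistedDiff δ y := by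
  funext r
  simp only [DG.twistedDiff, Pi.add_apply, map_add, add_mul, Finset.sum_add_distrib]
  abel

/-- The differential as an additive map. -/
noncomputable def morD (Γ : DG R K) [Fintype U] (δ : Matrix U U R) : (U → R) →+ (U → R) :=
  AddMonoidHom.mk' (Γ.twistedDiff δ) (mor_dv_add δ)

theorem mor_dv_sub [Fintype U] (δ : Matrix U U R) (x y : U → R) :
    Γ.twistedDiff δ (x - y) = Γ.twistedDiff δ x - Γ.twistedDiff δ y := map_sub (morD Γ δ) x y

theorem mor_dv_map [Fintype U] {K' : Type u} [CommRing K'] {Γ' : DG R' K'} {g₀ : K →+* K'}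
    (homogeneous : Γ.IsHom Γ' g g₀) (δ : Matrix U U R) (x : U → R) (r : U) :
    g (Γ.twistedDiff δ x r) = Γ'.twistedDiff (δ.map g) (fun s => g (x s)) r := by
  simp only [DG.twistedDiff, map_add, map_sum, map_mul, homogeneous.d, homogeneous.e, Matrix.map_apply]

theorem mor_hm_map {W : Type u} {K' : Type u} [CommRing K'] {Γ' : DG R' K'} {g₀ : K →+* K'}
    (homogeneous : Γ.IsHom Γ' g g₀) {dW : W → ℤ} {dU : U → ℤ} {k : ℤ} {φ : Matrix W U R}
    (h : Γ.HM dW dU k φ) : Γ'.HM dW dU k (φ.map g) := fun w s => homogeneous.homogeneous (h w s)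

theorem mor_kz_ll (t : K) (p q : Matrix V V R) (v v' : V) :
    Γ.kz t p q (.inl v) (.inl v') = p v v' := rfl
theorem mor_kz_lr (t : K) (p q : Matrix V V R) (v v' : V) :
    Γ.kz t p q (.inl v) (.inr v') = q v v' := rfl
theorem mor_kz_rl (t : K) (p q : Matrix V V R) (v v' : V) :
    Γ.kz t p q (.inr v) (.inl v') = if v = v' then Γ.inc t else 0 := rfl
theorem mor_kz_rr (t : K) (p q : Matrix V V R) (v v' : V) :
    Γ.kz t p q (.inr v) (.inr v') = -Γ.e (p v v') := rfl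

theorem mor_kz_map {K' : Type u} [CommRing K'] {Γ' : DG R' K'} {g₀ : K →+* K'}
    (homogeneous : Γ.IsHom Γ' g g₀) (t : K) (p q : Matrix V V R) :
    (Γ.kz t p q).map g = Γ'.kz (g₀ t) (p.map g) (q.map g) := by
  ext a b
  rcases a with a | a <;> rcases b with b | b
  · rfl
  · rfl
  · rw [Matrix.map_apply, mor_kz_rl, mor_kz_rl]
    split_ifs
    · exact homogeneous.inc t
    · exact map_zero g
  · rw [Matrix.map_apply, mor_kz_rr, mor_kz_rr, map_neg, homogeneous.e, Matrix.map_apply]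

theorem mor_dv_supp [Fintype V] {t : K} {p q : Matrix V V R} {π : V → Prop}
    (cl : ∀ v v', π v → ¬ π v' → p v v' = 0 ∧ q v v' = 0) {x : V ⊕ V → R}
    (sx : ∀ w, ¬ Sum.elim π π w → x w = 0) (w : V ⊕ V) (hw : ¬ Sum.elim π π w) :
    Γ.twistedDiff (Γ.kz t p q) x w = 0 := by
  rw [DG.twistedDiff, sx w hw, map_zero, zero_add]
  refine Finset.sum_eq_zero fun s _ => ?_
  by_cases hs : Sum.elim π π s
  · suffices h : Γ.kz t p q s w = 0 by rw [h, mul_zero]
    rcases s with s | s <;> rcases w with w | w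
    · exact (cl s w hs hw).1
    · exact (cl s w hs hw).2
    · rw [mor_kz_rl, if_neg]
      rintro rfl
      exact hw hs
    · rw [mor_kz_rr, (cl s w hs hw).1, map_zero, neg_zero]
  · rw [sx s hs, map_zero, zero_mul]

theorem mor_dv_ker [Fintype V] {t : K} (ke : Γ.KE g t) (p q : Matrix V V R) {x : V ⊕ V → R}
    (kx : ∀ v, g (x (.inl v)) = 0) (v : V) : g (Γ.twistedDiff (Γ.kz t p q) x (.inl v)) = 0 := by
  rw [DG.twistedDiff, map_add, ke.f_d _ (kx v), zero_add, map_sum]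
  refine Finset.sum_eq_zero fun s _ => ?_
  rw [map_mul]
  rcases s with s | s
  · rw [ke.f_e _ (kx s), zero_mul]
  · rw [mor_kz_rl]
    split_ifs
    · rw [ke.f_t, mul_zero]
    · rw [map_zero, mul_zero]

theorem mor_unit_l (t : K) (x : PUnit.{u + 1} ⊕ PUnit.{u + 1} → R) (v : PUnit.{u + 1}) :
    Γ.twistedDiff (Γ.kz t 0 0) x (.inl v) = Γ.d (x (.inl v)) + Γ.e (x (.inr v)) * Γ.inc t := by
  simp [DG.twistedDiff, Fintype.sum_sum_type, mor_kz_ll, mor_kz_rl]

theorem mor_unit_r (t : K) (x : PUnit.{u + 1} ⊕ PUnit.{u + 1} → R) (v : PUnit.{u + 1}) :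
    Γ.twistedDiff (Γ.kz t 0 0) x (.inr v) = Γ.d (x (.inr v)) := by
  simp [DG.twistedDiff, Fintype.sum_sum_type, mor_kz_lr, mor_kz_rr]

/-- The primary cells of a cone. -/
def morP : S ⊕ V → S ⊕ (V ⊕ V) := Sum.map id Sum.inl

/-- The basis vector of a cell. -/
noncomputable def morU (R : Type u) [Ring R] (a b : U) : R := if a = b then 1 else 0

/-- The matrix with prescribed Koszul parts of its primary rows. -/
noncomputable def morM (Γ : DG R K) (u : K) (Y : S ⊕ V → V ⊕ V → R) :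
    Matrix (S ⊕ (V ⊕ V)) (S ⊕ (V ⊕ V)) R
  | .inl s, .inl s' => morU R s s'
  | .inl s, .inr b => Y (.inl s) b
  | .inr _, .inl _ => 0
  | .inr (.inl v), .inr b => Y (.inr v) b
  | .inr (.inr _), .inr (.inl _) => 0
  | .inr (.inr v), .inr (.inr v') => Γ.inc u * Γ.e (Y (.inr v) (.inl v'))

theorem morU_self (a : U) : morU R a a = 1 := if_pos rfl

theorem morU_ne {a b : U} (h : a ≠ b) : morU R a b = 0 := if_neg h

theorem morU_inj {W : Type u} {i : U → W} (hi : Function.Injective i) (a b : U) :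
    morU R (i a) (i b) = morU R a b := by
  simp only [morU, hi.eq_iff]

theorem morU_map (g : R →+* R') (a b : U) : g (morU R a b) = morU R' a b := by
  rw [morU, morU]
  split_ifs
  · exact map_one g
  · exact map_zero g

theorem morU_hg (dg : U → ℤ) (a b : U) : Γ.IsHomogeneous (dg a - dg b) (morU R a b) := by
  by_cases h : a = b
  · rw [h, morU_self, sub_self]; exact Γ.hg_one
  · rw [morU_ne h]; exact Γ.hg_zero _

theorem mor_one_apply (s s' : U) : (1 : Matrix U U R) s s' = morU R s s' := rfl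

theorem mor_dv_unit [Fintype U] (D : Matrix U U R) (a : U) : Γ.twistedDiff D (morU R a) = D a := by
  funext b
  have h : Γ.d (morU R a b) = 0 := by
    rw [morU]
    split_ifs
    · exact Γ.d_one
    · exact map_zero _
  rw [DG.twistedDiff, h, zero_add, Finset.sum_eq_single a, morU_self, map_one, one_mul]
  · intro c _ hc
    rw [morU_ne hc.symm, map_zero, zero_mul]
  · intro h; exact absurd (Finset.mem_univ a) h

theorem morM_P (u : K) (Y : S ⊕ V → V ⊕ V → R) (w : S ⊕ V) (b : V ⊕ V) :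
    morM Γ u Y (morP w) (.inr b) = Y w b := by
  rcases w with s | v <;> rfl

theorem mor_kf_M (u : K) (Y : S ⊕ V → V ⊕ V → R) : Γ.KF 1 u (morM Γ u Y) :=
  ⟨fun _ _ => rfl, fun _ _ => rfl, fun _ _ => rfl, fun _ _ => rfl⟩

theorem mor_kf_left {u : K} {ρ : Matrix (S ⊕ (V ⊕ V)) (S ⊕ (V ⊕ V)) R} (h : Γ.KF 1 u ρ)
    (a : S ⊕ (V ⊕ V)) (s : S) : ρ a (.inl s) = morU R a (.inl s) := by
  rcases a with a | a
  · rw [h.gg, mor_one_apply, morU_inj Sum.inl_injective]
  · rw [h.pg, morU_ne Sum.inr_ne_inl]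

variable [Fintype S] [Fintype V]

theorem mor_dv_right (D : Matrix (S ⊕ (V ⊕ V)) (S ⊕ (V ⊕ V)) R)
    {Z : Matrix (V ⊕ V) (V ⊕ V) R} (hZ : ∀ a b, D (.inr a) (.inr b) = Z a b)
    {x : S ⊕ (V ⊕ V) → R} (hx : ∀ s, x (.inl s) = 0) (b : V ⊕ V) :
    Γ.twistedDiff D x (.inr b) = Γ.twistedDiff Z (fun a => x (.inr a)) b := by
  simp only [DG.twistedDiff, Fintype.sum_sum_type (α₁ := S), hx, hZ, map_zero, zero_mul,
    Finset.sum_const_zero, zero_add]

theorem mor_dv_left (D : Matrix (S ⊕ (V ⊕ V)) (S ⊕ (V ⊕ V)) R)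
    (hD : ∀ a s, D (.inr a) (.inl s) = 0) {x : S ⊕ (V ⊕ V) → R} (hx : ∀ s, x (.inl s) = 0)
    (s : S) : Γ.twistedDiff D x (.inl s) = 0 := by
  simp only [DG.twistedDiff, Fintype.sum_sum_type (α₁ := S), hx, hD, map_zero, zero_mul, mul_zero,
    Finset.sum_const_zero, zero_add]

theorem mor_row_right (D : Matrix (S ⊕ (V ⊕ V)) (S ⊕ (V ⊕ V)) R)
    {Z : Matrix (V ⊕ V) (V ⊕ V) R} (hZ : ∀ a b, D (.inr a) (.inr b) = Z a b) {u : K}
    {ρ : Matrix (S ⊕ (V ⊕ V)) (S ⊕ (V ⊕ V)) R} (h : Γ.KF 1 u ρ) (a : S ⊕ (V ⊕ V)) (b : V ⊕ V) :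
    Γ.twistedDiff Z (fun c => ρ a (.inr c) - morU R a (.inr c)) b =
      Γ.dM D ρ a (.inr b) - D a (.inr b) := by
  have h1 := mor_dv_right (Γ := Γ) D hZ (x := ρ a - morU R a)
    (fun s => by rw [Pi.sub_apply, mor_kf_left h, sub_self]) b
  rw [mor_dv_sub, mor_dv_unit] at h1
  exact h1.symm

theorem mor_row_left (D : Matrix (S ⊕ (V ⊕ V)) (S ⊕ (V ⊕ V)) R)
    (hD : ∀ a s, D (.inr a) (.inl s) = 0) {u : K}
    {ρ : Matrix (S ⊕ (V ⊕ V)) (S ⊕ (V ⊕ V)) R} (h : Γ.KF 1 u ρ) (a : S ⊕ (V ⊕ V)) (s : S) :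
    Γ.dM D ρ a (.inl s) = D a (.inl s) := by
  have h1 := mor_dv_left (Γ := Γ) D hD (x := ρ a - morU R a)
    (fun s => by rw [Pi.sub_apply, mor_kf_left h, sub_self]) s
  rw [mor_dv_sub, mor_dv_unit] at h1
  exact sub_eq_zero.1 h1

theorem mor_mul_left (D : Matrix (S ⊕ (V ⊕ V)) (S ⊕ (V ⊕ V)) R) {u : K}
    {ρ : Matrix (S ⊕ (V ⊕ V)) (S ⊕ (V ⊕ V)) R} (h : Γ.KF 1 u ρ) (a : S ⊕ (V ⊕ V)) (s : S) :
    (D * ρ) a (.inl s) = D a (.inl s) := by
  rw [Matrix.mul_apply, Finset.sum_eq_single (.inl s), mor_kf_left h, morU_self, mul_one]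
  · intro c _ hc
    rw [mor_kf_left h, morU_ne hc, mul_zero]
  · intro h; exact absurd (Finset.mem_univ _) h

omit [Fintype S] [Fintype V] in
theorem mor_mat_rl (o : OD S V R) (δ : Matrix S S R) (t : K) (a : V ⊕ V) (s : S) :
    o.matrix Γ δ t (.inr a) (.inl s) = 0 := rfl

omit [Fintype S] [Fintype V] in
theorem mor_mat_rr (o : OD S V R) (δ : Matrix S S R) (t : K) (a b : V ⊕ V) :
    o.matrix Γ δ t (.inr a) (.inr b) = Γ.kz t o.p o.q a b := rfl

omit [Fintype S] [Fintype V] in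
theorem mor_mat_left (o o' : OD S V R) (δ : Matrix S S R) (t t' : K) (a : S ⊕ (V ⊕ V)) (s : S) :
    o.matrix Γ δ t a (.inl s) = o'.matrix Γ δ t' a (.inl s) := by
  rcases a with a | a <;> rfl

/-- The chain equation of the row `ε v` follows from the one of the row `v`. -/
theorem mor_chain_eps {t t' u : K} (htu : t = u * t') (o o' : OD S V R) (δ : Matrix S S R)
    {ρ : Matrix (S ⊕ (V ⊕ V)) (S ⊕ (V ⊕ V)) R} (h : Γ.KF 1 u ρ) (v : V)
    (hv : Γ.dM (o'.matrix Γ δ t') ρ (.inr (.inl v)) = (o.matrix Γ δ t * ρ) (.inr (.inl v))) :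
    Γ.dM (o'.matrix Γ δ t') ρ (.inr (.inr v)) = (o.matrix Γ δ t * ρ) (.inr (.inr v)) := by
  have hc : ∀ x : R, Γ.inc u * (x * Γ.inc t') = Γ.inc t * x := fun x => by
    rw [← Γ.inc_comm, ← mul_assoc, ← map_mul, htu]
  funext b
  rcases b with s | v' | v'
  · rw [mor_row_left _ (mor_mat_rl o' δ t') h, mor_mul_left _ h]
    rfl
  · simp only [DG.dM_apply, DG.twistedDiff, Matrix.mul_apply, Fintype.sum_sum_type, mor_mat_rl,
      mor_mat_rr, mor_kz_rl, mor_kz_rr, h.pg, h.ev, h.ee, map_zero, zero_mul, mul_zero,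
      Finset.sum_const_zero, zero_add, add_zero, mul_ite, ite_mul, Finset.sum_ite_eq,
      Finset.sum_ite_eq', Finset.mem_univ, if_true, map_mul, Γ.e_inc, Γ.e_e]
    rw [mul_assoc, hc]
  · have h1 := congrFun hv (.inr (.inl v'))
    simp only [DG.dM_apply, DG.twistedDiff, Matrix.mul_apply, Fintype.sum_sum_type, mor_mat_rl,
      mor_mat_rr, mor_kz_ll, mor_kz_rl, mor_kz_rr, h.pg, h.ev, h.ee, map_zero, zero_mul, mul_zero,
      Finset.sum_const_zero, zero_add, add_zero, mul_ite, ite_mul, Finset.sum_ite_eq,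
      Finset.sum_ite_eq', Finset.mem_univ, if_true, map_mul, Γ.e_inc, Γ.e_e] at h1 ⊢
    have h2 := congrArg (fun x => Γ.inc u * Γ.e x) h1
    simp only [map_add, map_sum, map_mul, Γ.e_e, Γ.e_inc, mul_add, Finset.mul_sum, hc] at h2
    have h3 : ∀ c, -Γ.e (o.p v c) * (Γ.inc u * Γ.e (ρ (.inr (.inl c)) (.inr (.inl v')))) =
        -(Γ.inc u * (Γ.e (o.p v c) * Γ.e (ρ (.inr (.inl c)) (.inr (.inl v'))))) := fun c => by
      rw [neg_mul, ← mul_assoc, ← Γ.inc_comm, mul_assoc]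
    simp only [h3, Finset.sum_neg_distrib, ← h2, Γ.d_mul, Γ.d_inc, Γ.e_inc, Γ.d_e, zero_mul,
      zero_add, mul_neg, mul_assoc]
    abel

variable [Preorder J] {dS : S → ℤ} {dV : V → ℤ} {bS : S → J} {bV : V → J}

/-- The primary cells that may occur in the row of the cell `a`. -/
def morPi (dS : S → ℤ) (dV : V → ℤ) (bS : S → J) (bV : V → J) (a : S ⊕ (V ⊕ V)) (v : V) : Prop :=
  dV v < cdg dS dV a ∧ bV v ≤ cb bS bV a

/-- Conditions on the correction term of a primary row. -/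
structure MorRow (Γ : DG R K) (g : R →+* R') (dS : S → ℤ) (dV : V → ℤ) (bS : S → J) (bV : V → J)
    (a : S ⊕ (V ⊕ V)) (x : V ⊕ V → R) : Prop where
  hv : Γ.IsHomogeneousVec (kdg dV) (cdg dS dV a) x
  supp : ∀ b, ¬ Sum.elim (morPi dS dV bS bV a) (morPi dS dV bS bV a) b → x b = 0
  ker : ∀ v, g (x (.inl v)) = 0

theorem mor_row_of_good {Δ Δ' ρ : Matrix (S ⊕ (V ⊕ V)) (S ⊕ (V ⊕ V)) R} {u : K}
    (h : GoodM Γ g dS dV bS bV Δ Δ' u ρ) (w : S ⊕ V) :
    MorRow Γ g dS dV bS bV (morP w)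
      (fun c => ρ (morP w) (.inr c) - morU R (morP w) (.inr c)) := by
  have hv : Γ.IsHomogeneousVec (kdg dV) (cdg dS dV (morP w))
      (fun c => ρ (morP w) (.inr c) - morU R (morP w) (.inr c)) := fun c =>
    Γ.hg_sub (Γ.hg_cast (h.hm (morP w) (.inr c)) (by rw [add_zero]; rfl))
      (morU_hg (cdg dS dV) (morP w) (.inr c))
  have hk : ∀ v, g (ρ (morP w) (.inr (.inl v)) - morU R (morP w) (.inr (.inl v))) = 0 ∧
      Γ.ev (ρ (morP w) (.inr (.inl v)) - morU R (morP w) (.inr (.inl v))) = 0 := fun v => by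
    rw [map_sub, map_sub, morU_map, morU_map, sub_eq_zero, sub_eq_zero]
    rcases w with s | w
    · exact ⟨(h.sv s v).1.trans (morU_ne Sum.inl_ne_inr).symm,
        (h.sv s v).2.trans (morU_ne Sum.inl_ne_inr).symm⟩
    · have hi : Function.Injective (fun v : V => (.inr (.inl v) : S ⊕ (V ⊕ V))) :=
        Sum.inr_injective.comp Sum.inl_injective
      exact ⟨(h.vv w v).1.trans (morU_inj hi w v).symm, (h.vv w v).2.trans (morU_inj hi w v).symm⟩
  refine ⟨hv, fun b hb => ?_, fun v => (hk v).1⟩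
  by_cases h1 : cb bS bV (.inr b) ≤ cb bS bV (morP w)
  · rcases b with v | v
    · have h2 : cdg dS dV (morP w) - kdg dV (.inl v) ≤ 0 :=
        sub_nonpos.2 (not_lt.1 fun h3 => hb ⟨h3, h1⟩)
      rcases h2.lt_or_eq with h2 | h2
      · exact Γ.eq_zero h2 (hv _)
      · exact (Γ.inc_ev (Γ.hg_cast (hv (.inl v)) h2)).symm.trans
          ((congrArg Γ.inc (hk v).2).trans (map_zero _))
    · have h2 : cdg dS dV (morP w) ≤ dV v := not_lt.1 fun h3 => hb ⟨h3, h1⟩
      exact Γ.eq_zero (k := cdg dS dV (morP w) - (dV v + 1)) (by omega) (hv (.inr v))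
  · rw [h.triangular _ _ h1, morU_ne, sub_self]
    intro h2
    exact h1 (by rw [h2])

/-- All properties of a morphism except the chain equation. -/
theorem mor_pre {u : K} {Y : S ⊕ V → V ⊕ V → R}
    (h : ∀ w, MorRow Γ g dS dV bS bV (morP w) fun c => Y w c - morU R (morP w) (.inr c))
    {Δ Δ' : Matrix (S ⊕ (V ⊕ V)) (S ⊕ (V ⊕ V)) R} :
    Γ.HM (cdg dS dV) (cdg dS dV) 0 (morM Γ u Y) ∧
      (∀ a b, ¬ cb bS bV b ≤ cb bS bV a → morM Γ u Y a b = 0) ∧
      (∀ w v, g (Y w (.inl v)) = morU R' (morP w) (.inr (.inl v))) ∧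
      (Γ.dM Δ' (morM Γ u Y) = Δ * morM Γ u Y → GoodM Γ g dS dV bS bV Δ Δ' u (morM Γ u Y)) := by
  have h1 : ∀ w c, Γ.IsHomogeneous (cdg dS dV (morP w) - kdg dV c) (Y w c) := fun w c => by
    have := Γ.hg_add ((h w).hv c) (morU_hg (cdg dS dV) (morP w) (.inr c))
    rwa [sub_add_cancel] at this
  have h2 : ∀ w c, ¬ cb bS bV (.inr c) ≤ cb bS bV (morP w) → Y w c = 0 := fun w c hc => by
    have := (h w).supp c (by rcases c with c | c <;> exact fun h3 => hc h3.2)
    rwa [morU_ne (fun h3 => hc (by rw [h3])), sub_zero] at this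
  have h3 : ∀ w v, g (Y w (.inl v)) = morU R' (morP w) (.inr (.inl v)) := fun w v => by
    have := (h w).ker v
    rwa [map_sub, morU_map, sub_eq_zero] at this
  have h4 : ∀ w v, Γ.ev (Y w (.inl v)) = morU K (morP w) (.inr (.inl v)) := fun w v => by
    rw [← sub_eq_zero, ← morU_map Γ.ev, ← map_sub]
    by_cases h5 : morPi dS dV bS bV (morP w) v
    · exact Γ.ev_pos (sub_pos.2 h5.1).ne' ((h w).hv (.inl v))
    · exact (congrArg Γ.ev ((h w).supp (.inl v) h5)).trans (map_zero _)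
  have hi : Function.Injective (fun v : V => (.inr (.inl v) : S ⊕ (V ⊕ V))) :=
    Sum.inr_injective.comp Sum.inl_injective
  have hm : Γ.HM (cdg dS dV) (cdg dS dV) 0 (morM Γ u Y) := by
    rintro (s | v | v) (s' | c)
    · exact Γ.hg_cast (morU_hg dS s s') (by simp [cdg])
    · exact Γ.hg_cast (h1 (.inl s) c) (by rw [add_zero]; rfl)
    · exact Γ.hg_zero _
    · exact Γ.hg_cast (h1 (.inr v) c) (by rw [add_zero]; rfl)
    · exact Γ.hg_zero _
    · rcases c with v' | v'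
      · exact Γ.hg_zero _
      · exact Γ.hg_cast (Γ.hg_mul (Γ.hg_inc u) (Γ.hg_e (h1 (.inr v) (.inl v'))))
          (by simp [cdg, kdg, morP])
  have ht : ∀ a b, ¬ cb bS bV b ≤ cb bS bV a → morM Γ u Y a b = 0 := by
    rintro (s | v | v) (s' | c) hab
    · exact morU_ne fun h5 => hab (by rw [h5])
    · exact h2 (.inl s) c hab
    · rfl
    · exact h2 (.inr v) c hab
    · rfl
    · rcases c with v' | v'
      · rfl
      · change Γ.inc u * Γ.e (Y (.inr v) (.inl v')) = 0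
        rw [h2 (.inr v) (.inl v') hab, map_zero, mul_zero]
  exact ⟨hm, ht, h3, fun hc => ⟨hm, ht, mor_kf_M u Y,
    fun s v => ⟨(h3 (.inl s) v).trans (morU_ne Sum.inl_ne_inr),
      (h4 (.inl s) v).trans (morU_ne Sum.inl_ne_inr)⟩,
    fun v v' => ⟨(h3 (.inr v) v').trans (morU_inj hi v v'),
      (h4 (.inr v) v').trans (morU_inj hi v v')⟩, hc⟩⟩

omit [Fintype S] [Fintype V] in
theorem mor_lower {dU : U → ℤ} {D : Matrix U U R} (h : Γ.HM dU dU (-1) D) {a b : U}
    (hab : ¬ dU b < dU a) : D a b = 0 :=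
  Γ.eq_zero (k := dU a + -1 - dU b) (by omega) (h a b)

omit [Fintype S] [Fintype V] in
theorem mor_mul_congr [Fintype U] {W : Type u} {dU : U → ℤ} {D : Matrix U U R}
    (h : Γ.HM dU dU (-1) D) (φ : R → R) (h0 : φ 0 = 0) {r r' : Matrix U W R} {a : U}
    (hr : ∀ b, dU b < dU a → r b = r' b) : (D.map φ * r) a = (D.map φ * r') a := by
  funext c
  rw [Matrix.mul_apply, Matrix.mul_apply]
  refine Finset.sum_congr rfl fun b _ => ?_
  by_cases hb : dU b < dU a
  · rw [hr b hb]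
  · rw [Matrix.map_apply, mor_lower h hb, h0, zero_mul, zero_mul]

/-- The obstruction to the chain equation of a primary row is an admissible cycle. -/
theorem mor_obs {t t' u : K} {δ : Matrix S S R} {δ' : Matrix V V R'} {ψ' : Matrix S V R'}
    {o o' : OD S V R} (go : GoodO Γ g dS dV bS bV δ δ' ψ' t o)
    (go' : GoodO Γ g dS dV bS bV δ δ' ψ' t' o') {Y : S ⊕ V → V ⊕ V → R}
    (h : ∀ w, MorRow Γ g dS dV bS bV (morP w) fun c => Y w c - morU R (morP w) (.inr c))
    (w : S ⊕ V) (chart : ∀ b, cdg dS dV b < cdg dS dV (morP w) →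
      Γ.dM (o'.matrix Γ δ t') (morM Γ u Y) b = (o.matrix Γ δ t * morM Γ u Y) b)
    {y : V ⊕ V → R} (hy : y = fun c => (o.matrix Γ δ t * morM Γ u Y) (morP w) (.inr c) -
      o'.matrix Γ δ t' (morP w) (.inr c)) :
    Γ.IsHomogeneousVec (kdg dV) (cdg dS dV (morP w) - 1) y ∧
      (∀ b, ¬ Sum.elim (morPi dS dV bS bV (morP w)) (morPi dS dV bS bV (morP w)) b → y b = 0) ∧
      (∀ v, g (y (.inl v)) = 0) ∧ Γ.twistedDiff (Γ.kz t' o'.p o'.q) y = 0 := by
  obtain ⟨hm, ht, hk, -⟩ := mor_pre (u := u) h (Δ := 0) (Δ' := 0)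
  have hv : Γ.IsHomogeneousVec (kdg dV) (cdg dS dV (morP w) - 1) y := fun c => by
    rw [hy]
    exact Γ.hg_sub (Γ.hg_cast (DG.HM.mul Γ go.hm hm (morP w) (.inr c)) (by rw [add_zero]; rfl))
      (go'.hm (morP w) (.inr c))
  refine ⟨hv, fun b hb => ?_, fun v => ?_, ?_⟩
  · by_cases h1 : cb bS bV (.inr b) ≤ cb bS bV (morP w)
    · rcases b with v | v
      · have h2 : cdg dS dV (morP w) ≤ dV v := not_lt.1 fun h3 => hb ⟨h3, h1⟩
        exact Γ.eq_zero (k := cdg dS dV (morP w) - 1 - dV v) (by omega) (hv (.inl v))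
      · have h2 : cdg dS dV (morP w) ≤ dV v := not_lt.1 fun h3 => hb ⟨h3, h1⟩
        exact Γ.eq_zero (k := cdg dS dV (morP w) - 1 - (dV v + 1)) (by omega) (hv (.inr v))
    · rw [hy]
      simp only [go'.triangular _ _ h1, sub_zero, Matrix.mul_apply]
      refine Finset.sum_eq_zero fun c _ => ?_
      by_cases h2 : cb bS bV c ≤ cb bS bV (morP w)
      · rw [ht c _ fun h3 => h1 (h3.trans h2), mul_zero]
      · rw [go.triangular _ _ h2, zero_mul]
  · have h1 : ∀ c, g (morM Γ u Y c (.inr (.inl v))) = morU R' c (.inr (.inl v)) := by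
      rintro (s | c | c)
      · exact hk (.inl s) v
      · exact hk (.inr c) v
      · exact (map_zero g).trans (morU_ne (by simp)).symm
    rw [hy]
    simp only [map_sub, Matrix.mul_apply, map_sum, map_mul, h1]
    rw [Finset.sum_eq_single (.inr (.inl v)) (fun c _ hc => by rw [morU_ne hc, mul_zero])
      (fun h => absurd (Finset.mem_univ _) h), morU_self, mul_one, sub_eq_zero]
    rcases w with s | w
    · exact (congrFun (congrFun go.fS s) v).trans (congrFun (congrFun go'.fS s) v).symm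
    · exact (congrFun (congrFun go.fV w) v).trans (congrFun (congrFun go'.fV w) v).symm
  · funext b
    have h1 := mor_dv_right (Γ := Γ) (o'.matrix Γ δ t') (mor_mat_rr o' δ t')
      (x := (o.matrix Γ δ t * morM Γ u Y) (morP w) - o'.matrix Γ δ t' (morP w))
      (fun s => by rw [Pi.sub_apply, mor_mul_left _ (mor_kf_M u Y), mor_mat_left o o' δ t t',
        sub_self]) b
    have h2 : Γ.twistedDiff (o'.matrix Γ δ t') ((o.matrix Γ δ t * morM Γ u Y) (morP w)) = 0 := by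
      rw [← DG.dM_apply, Γ.dM_mul]
      have h3 := mor_mul_congr go.hm Γ.e (map_zero _) chart
      have h4 : (o.matrix Γ δ t).map Γ.d * morM Γ u Y +
          (o.matrix Γ δ t).map Γ.e * (o.matrix Γ δ t * morM Γ u Y) = 0 := by
        rw [← Matrix.mul_assoc, ← Matrix.add_mul]
        exact (congrArg (· * morM Γ u Y) go.maurerCartan).trans (Matrix.zero_mul _)
      exact (congrArg (((o.matrix Γ δ t).map Γ.d * morM Γ u Y) (morP w) + ·) h3).trans
        (congrFun h4 (morP w))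
    rw [mor_dv_sub, h2, ← DG.dM_apply, go'.maurerCartan] at h1
    rw [hy]
    exact h1.symm.trans (sub_self _)

theorem mor_closed {t : K} {δ : Matrix S S R} {δ' : Matrix V V R'} {ψ' : Matrix S V R'}
    {o : OD S V R} (go : GoodO Γ g dS dV bS bV δ δ' ψ' t o) (a : S ⊕ (V ⊕ V)) (v v' : V)
    (h : morPi dS dV bS bV a v) (h' : ¬ morPi dS dV bS bV a v') :
    o.p v v' = 0 ∧ o.q v v' = 0 := by
  by_cases h1 : bV v' ≤ bV v
  · have h2 : cdg dS dV a ≤ dV v' := not_lt.1 fun h3 => h' ⟨h3, h1.trans h.2⟩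
    have h3 := h.1
    exact ⟨mor_lower go.kz.1 (a := .inl v) (b := .inl v') (by simp only [kdg, Sum.elim_inl]; omega),
      mor_lower go.kz.1 (a := .inl v) (b := .inr v')
        (by simp only [kdg, Sum.elim_inl, Sum.elim_inr]; omega)⟩
  · exact go.kz.2.2 v v' h1

omit [Fintype S] [Fintype V] [Preorder J] in
theorem morM_congr {u : K} {Y Y' : S ⊕ V → V ⊕ V → R} {n : ℤ}
    (h : ∀ w, cdg dS dV (morP w) < n → Y w = Y' w) (b : S ⊕ (V ⊕ V)) (hb : cdg dS dV b < n) :
    morM Γ u Y b = morM Γ u Y' b := by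
  funext c
  rcases b with s | v | v <;> rcases c with s' | c
  · rfl
  · exact congrFun (h (.inl s) hb) c
  · rfl
  · exact congrFun (h (.inr v) hb) c
  · rfl
  · rcases c with v' | v'
    · rfl
    · change Γ.inc u * Γ.e (Y (.inr v) (.inl v')) = Γ.inc u * Γ.e (Y' (.inr v) (.inl v'))
      rw [h (.inr v) (lt_trans (lt_add_one (dV v)) hb)]

omit [Fintype S] [Fintype V] [Preorder J] in
theorem morM_map {K' : Type u} [CommRing K'] {Γ' : DG R' K'} {g₀ : K →+* K'}
    (homogeneous : Γ.IsHom Γ' g g₀) {u : K} {Y : S ⊕ V → V ⊕ V → R}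
    {ρ : Matrix (S ⊕ (V ⊕ V)) (S ⊕ (V ⊕ V)) R'} (kf : Γ'.KF 1 (g₀ u) ρ) {n : ℤ}
    (h : ∀ w, cdg dS dV (morP w) < n → ∀ c, g (Y w c) = ρ (morP w) (.inr c))
    (b : S ⊕ (V ⊕ V)) (hb : cdg dS dV b < n) : (morM Γ u Y).map g b = ρ b := by
  funext c
  rw [Matrix.map_apply]
  rcases b with s | v | v <;> rcases c with s' | c
  · exact (morU_map g s s').trans (kf.gg s s').symm
  · exact h (.inl s) hb c
  · exact (map_zero g).trans (kf.pg _ _).symm
  · exact h (.inr v) hb c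
  · exact (map_zero g).trans (kf.pg _ _).symm
  · rcases c with v' | v'
    · exact (map_zero g).trans (kf.ev _ _).symm
    · change g (Γ.inc u * Γ.e (Y (.inr v) (.inl v'))) = _
      rw [map_mul, homogeneous.inc, homogeneous.e, h (.inr v) (lt_trans (lt_add_one (dV v)) hb), kf.ee]
      rfl

omit [Preorder J] in
theorem mor_chain_all {t t' u : K} (htu : t = u * t') (o o' : OD S V R) (δ : Matrix S S R)
    {Y : S ⊕ V → V ⊕ V → R} {n : ℤ} (h : ∀ w, cdg dS dV (morP w) < n →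
      Γ.dM (o'.matrix Γ δ t') (morM Γ u Y) (morP w) = (o.matrix Γ δ t * morM Γ u Y) (morP w))
    (b : S ⊕ (V ⊕ V)) (hb : cdg dS dV b < n) :
    Γ.dM (o'.matrix Γ δ t') (morM Γ u Y) b = (o.matrix Γ δ t * morM Γ u Y) b := by
  rcases b with s | v | v
  · exact h (.inl s) hb
  · exact h (.inr v) hb
  · exact mor_chain_eps htu o o' δ (mor_kf_M u Y) v
      (h (.inr v) (lt_trans (lt_add_one (dV v)) hb))

end Aux

variable {A B : SimplicialRing.{u}} {f : A.Hom B}

/-- Solutions of `D x = y` in the kernel of the Koszul module extend from the boundary, provided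
that the primary cells of the support have degree `< n`. -/
theorem kz_extend {M : ℕ} {t : A.obj M} (ht : f.IsGenerator t) {V : Type u} [Fintype V] {dV : V → ℤ}
    {p q : Matrix V V (MooreDGA (A.cotensor M))} (π : V → Prop)
    (hm : (dgC A M).HM (kdg dV) (kdg dV) (-1) ((dgC A M).kz t p q))
    (cl : ∀ v v', π v → ¬ π v' → p v v' = 0 ∧ q v v' = 0)
    (maurerCartan : (dgC A M).dM ((dgC A M).kz t p q) ((dgC A M).kz t p q) = 0)
    {n : ℤ} (hn : ∀ v, π v → dV v < n) {y : V ⊕ V → MooreDGA (A.cotensor M)}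
    (hy : (dgC A M).IsHomogeneousVec (kdg dV) (n - 1) y) (sy : ∀ w, ¬ Sum.elim π π w → y w = 0)
    (ky : ∀ v, f.nc M (y (.inl v)) = 0) (cy : (dgC A M).twistedDiff ((dgC A M).kz t p q) y = 0)
    (x : ∀ k, Bdy k M → V ⊕ V → MooreDGA (A.cotensor k))
    (hx : ∀ k θ, (dgC A k).IsHomogeneousVec (kdg dV) n (x k θ))
    (sx : ∀ k θ w, ¬ Sum.elim π π w → x k θ w = 0) (kx : ∀ k θ v, f.nc k (x k θ (.inl v)) = 0)
    (cx : ∀ k (θ : Bdy k M), (dgC A k).twistedDiff (((dgC A M).kz t p q).map (A.rs θ.1)) (x k θ) =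
      fun w => A.rs θ.1 (y w))
    (nat : ∀ {l k : ℕ} (θ : Bdy k M) (η : SimplexHom l k) w, A.rs η (x k θ w) = x l (θ.comp η) w) :
    ∃ z : V ⊕ V → MooreDGA (A.cotensor M), (dgC A M).IsHomogeneousVec (kdg dV) n z ∧
      (∀ w, ¬ Sum.elim π π w → z w = 0) ∧ (∀ v, f.nc M (z (.inl v)) = 0) ∧
      (dgC A M).twistedDiff ((dgC A M).kz t p q) z = y ∧
      ∀ k (θ : Bdy k M) w, A.rs θ.1 (z w) = x k θ w := by
  obtain ⟨x₀, h1, h2, h3, h4⟩ := DG.kz_acyc ht.keC π hm cl (fun a _ => congrFun maurerCartan a) hy sy ky cy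
  rw [sub_add_cancel] at h1
  have hZ : ∀ {k} (θ : SimplexHom k M), ((dgC A M).kz t p q).map (A.rs θ) =
      (dgC A k).kz (A.map θ t) (p.map (A.rs θ)) (q.map (A.rs θ)) := fun θ =>
    mor_kz_map (A.isHom_rs θ) t p q
  have hm' : ∀ {k} (θ : SimplexHom k M), (dgC A k).HM (kdg dV) (kdg dV) (-1)
      (((dgC A M).kz t p q).map (A.rs θ)) := fun θ => mor_hm_map (A.isHom_rs θ) hm
  have maurerCartan' : ∀ {k} (θ : SimplexHom k M), (dgC A k).dM (((dgC A M).kz t p q).map (A.rs θ))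
      (((dgC A M).kz t p q).map (A.rs θ)) = 0 := fun θ => by
    rw [(A.isHom_rs θ).dM, maurerCartan, Matrix.map_zero _ (map_zero _)]
  have cl' : ∀ {k} (θ : SimplexHom k M) v v', π v → ¬ π v' →
      p.map (A.rs θ) v v' = 0 ∧ q.map (A.rs θ) v v' = 0 := fun θ v v' a b => by
    rw [Matrix.map_apply, Matrix.map_apply, (cl v v' a b).1, (cl v v' a b).2]
    exact ⟨map_zero _, map_zero _⟩
  let P : ℕ → (SimplicialAb.pi (V ⊕ V) A.cotN).Sub := fun j => SimplicialRing.piSub f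
    (fun w => n + j - kdg dV w) (fun w => ¬ Sum.elim π π w) fun w => ∃ v, w = .inl v
  have hP : ∀ (j k : ℕ) (a : V ⊕ V → MooreDGA (A.cotensor k)), a ∈ (P j).S k ↔
      (dgC A k).IsHomogeneousVec (kdg dV) (n + j) a ∧ (∀ w, ¬ Sum.elim π π w → a w = 0) ∧
        ∀ v, f.nc k (a (.inl v)) = 0 := fun j k a =>
    ⟨fun h => ⟨fun w => (h w).1, fun w => (h w).2.1, fun v => (h _).2.2 ⟨v, rfl⟩⟩,
      fun h w => ⟨h.1 w, h.2.1 w, by rintro ⟨v, rfl⟩; exact h.2.2 v⟩⟩
  obtain ⟨z, hz1, hz2, hz3⟩ := SimplicialAb.cyc_extend P (M := M)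
    (fun k θ => morD (dgC A k) (((dgC A M).kz t p q).map (A.rs θ)))
    (fun θ η a => funext fun w => mor_dv_map (A.isHom_rs η) _ a w)
    (fun j k θ a ha => by
      obtain ⟨a1, a2, a3⟩ := (hP _ _ _).1 ha
      refine (hP _ _ _).2 ⟨?_, fun w hw => ?_, fun v => ?_⟩
      · have := DG.IsHomogeneousVec.twistedDiff _ (hm' θ) a1
        rwa [show n + ((j + 1 : ℕ) : ℤ) - 1 = n + j by push_cast; ring] at this
      · change (dgC A k).twistedDiff _ a w = 0
        rw [hZ]; exact mor_dv_supp (cl' θ) a2 w hw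
      · change f.nc k ((dgC A k).twistedDiff _ a (.inl v)) = 0
        rw [hZ]; exact mor_dv_ker (ht.map θ).keC _ _ a3 v)
    (fun j k θ a _ => DG.dv_dv _ (maurerCartan' θ) a)
    (fun j k θ a ha hD => by
      obtain ⟨a1, a2, a3⟩ := (hP _ _ _).1 ha
      have b1 := hm' θ
      have b2 := maurerCartan' θ
      change (dgC A k).twistedDiff _ a = 0 at hD
      rw [hZ] at b1 b2 hD
      obtain ⟨b, c1, c2, c3, c4⟩ := DG.kz_acyc (ht.map θ).keC π b1 (cl' θ)
        (fun a _ => congrFun b2 a) a1 a2 a3 hD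
      refine ⟨b, (hP _ _ _).2 ⟨?_, c2, c3⟩, ?_⟩
      · rwa [show n + ((j + 1 : ℕ) : ℤ) = n + j + 1 by push_cast; ring]
      · change (dgC A k).twistedDiff _ b = a
        rw [hZ]; exact c4)
    (fun j => SimplicialRing.piSub_ac f _ _ _ fun w hw hπ => by
      rcases w with v | v
      · have := hn v hπ
        simp only [kdg, Sum.elim_inl] at hw
        omega
      · have := hn v hπ
        simp only [kdg, Sum.elim_inr] at hw
        omega)
    (fun k θ => x k θ - fun w => A.rs θ.1 (x₀ w))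
    (fun k θ => (hP _ _ _).2 ⟨fun w => by
        rw [Nat.cast_zero, add_zero]
        exact (dgC A k).hg_sub (hx k θ w) ((A.isHom_rs θ.1).homogeneous (h1 w)),
      fun w hw => by rw [Pi.sub_apply, sx k θ w hw, h2 w hw, map_zero, sub_zero],
      fun v => by rw [Pi.sub_apply, map_sub, kx, SimplicialRing.nc_rs, h3, map_zero, sub_zero]⟩)
    (fun k θ => by
      change (dgC A k).twistedDiff _ _ = 0
      rw [mor_dv_sub, cx, sub_eq_zero]
      funext w
      rw [← mor_dv_map (A.isHom_rs θ.1), h4])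
    (fun θ η => funext fun w => by
      change A.rs η (x _ θ w - A.rs θ.1 (x₀ w)) = x _ (θ.comp η) w - A.rs (θ.1.comp η) (x₀ w)
      rw [map_sub, nat, SimplicialRing.rs_rs])
  obtain ⟨z1, z2, z3⟩ := (hP _ _ _).1 hz1
  rw [Nat.cast_zero, add_zero] at z1
  have z4 : (dgC A M).twistedDiff ((dgC A M).kz t p q) z = 0 := hz2
  refine ⟨z + x₀, fun w => (dgC A M).hg_add (z1 w) (h1 w),
    fun w hw => by rw [Pi.add_apply, z2 w hw, h2 w hw, add_zero],
    fun v => by rw [Pi.add_apply, map_add, z3, h3, add_zero],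
    by rw [mor_dv_add, z4, h4, zero_add], fun k θ w => ?_⟩
  have z5 : A.rs θ.1 (z w) = x k θ w - A.rs θ.1 (x₀ w) := congrFun (hz3 k θ) w
  rw [Pi.add_apply, map_add, z5, sub_add_cancel]

/-- Morphisms extend. -/
theorem mor_extend {M : ℕ} {t t' u : A.obj M} (ht' : f.IsGenerator t') (htu : t = u * t')
    {S V J : Type u} [Fintype S] [Fintype V] [Preorder J] {dS : S → ℤ} {dV : V → ℤ} {bS : S → J}
    {bV : V → J} {δ : Matrix S S (MooreDGA (A.cotensor M))} {δ' : Matrix V V (MooreDGA (B.cotensor M))}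
    {ψ' : Matrix S V (MooreDGA (B.cotensor M))} {o o' : OD S V (MooreDGA (A.cotensor M))}
    (go : GoodO (dgC A M) (f.nc M) dS dV bS bV δ δ' ψ' t o)
    (go' : GoodO (dgC A M) (f.nc M) dS dV bS bV δ δ' ψ' t' o')
    (ρ : ∀ k, Bdy k M → Matrix (S ⊕ (V ⊕ V)) (S ⊕ (V ⊕ V)) (MooreDGA (A.cotensor k)))
    (good : ∀ k (θ : Bdy k M), GoodM (dgC A k) (f.nc k) dS dV bS bV
      ((o.matrix (dgC A M) δ t).map (A.rs θ.1)) ((o'.matrix (dgC A M) δ t').map (A.rs θ.1))
      (A.map θ.1 u) (ρ k θ))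
    (nat : ∀ {l k : ℕ} (θ : Bdy k M) (η : SimplexHom l k), (ρ k θ).map (A.rs η) = ρ l (θ.comp η)) :
    ∃ r, GoodM (dgC A M) (f.nc M) dS dV bS bV (o.matrix (dgC A M) δ t) (o'.matrix (dgC A M) δ t') u r ∧
      ∀ k (θ : Bdy k M), r.map (A.rs θ.1) = ρ k θ := by
  have step : ∀ n : ℤ, (∃ Y : S ⊕ V → V ⊕ V → MooreDGA (A.cotensor M),
      (∀ w, MorRow (dgC A M) (f.nc M) dS dV bS bV (morP w)
        fun c => Y w c - morU _ (morP w) (.inr c)) ∧ ∀ w, cdg dS dV (morP w) < n →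
      (dgC A M).dM (o'.matrix (dgC A M) δ t') (morM (dgC A M) u Y) (morP w) =
        (o.matrix (dgC A M) δ t * morM (dgC A M) u Y) (morP w) ∧
      ∀ k (θ : Bdy k M) c, A.rs θ.1 (Y w c) = ρ k θ (morP w) (.inr c)) →
      ∃ Y : S ⊕ V → V ⊕ V → MooreDGA (A.cotensor M),
      (∀ w, MorRow (dgC A M) (f.nc M) dS dV bS bV (morP w)
        fun c => Y w c - morU _ (morP w) (.inr c)) ∧ ∀ w, cdg dS dV (morP w) < n + 1 →
      (dgC A M).dM (o'.matrix (dgC A M) δ t') (morM (dgC A M) u Y) (morP w) =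
        (o.matrix (dgC A M) δ t * morM (dgC A M) u Y) (morP w) ∧
      ∀ k (θ : Bdy k M) c, A.rs θ.1 (Y w c) = ρ k θ (morP w) (.inr c) := by
    rintro n ⟨Y, hY, hn⟩
    have key : ∀ w, cdg dS dV (morP w) = n → ∃ z : V ⊕ V → MooreDGA (A.cotensor M),
        MorRow (dgC A M) (f.nc M) dS dV bS bV (morP w) z ∧
        ((dgC A M).twistedDiff ((dgC A M).kz t' o'.p o'.q) z = fun c =>
          (o.matrix (dgC A M) δ t * morM (dgC A M) u Y) (morP w) (.inr c) -
            o'.matrix (dgC A M) δ t' (morP w) (.inr c)) ∧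
        ∀ k (θ : Bdy k M) c, A.rs θ.1 (z c) =
          ρ k θ (morP w) (.inr c) - morU _ (morP w) (.inr c) := by
      intro w hw
      obtain ⟨a1, a2, a3, a4⟩ := mor_obs go go' hY w
        (mor_chain_all htu o o' δ fun w' h => (hn w' (hw ▸ h)).1) rfl
      obtain ⟨z, z1, z2, z3, z4, z5⟩ := kz_extend ht' (morPi dS dV bS bV (morP w)) go'.kz.1
        (mor_closed go' _) go'.kz.2.1 (fun v h => h.1) a1 a2 a3 a4
        (fun k θ c => ρ k θ (morP w) (.inr c) - morU _ (morP w) (.inr c))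
        (fun k θ => (mor_row_of_good (good k θ) w).hv)
        (fun k θ => (mor_row_of_good (good k θ) w).supp)
        (fun k θ => (mor_row_of_good (good k θ) w).ker)
        (fun k θ => funext fun c => by
          rw [mor_row_right ((o'.matrix (dgC A M) δ t').map (A.rs θ.1))
            (Z := ((dgC A M).kz t' o'.p o'.q).map (A.rs θ.1)) (fun _ _ => rfl)
            (good k θ).kf, (good k θ).chain, map_sub]
          congr 1
          have b1 := mor_mul_congr (mor_hm_map (A.isHom_rs θ.1) go.hm) id rfl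
            (morM_map (A.isHom_rs θ.1) (good k θ).kf
              fun w' h => (hn w' (hw ▸ h)).2 k θ)
          rw [Matrix.map_id, ← Matrix.map_mul] at b1
          exact (congrFun b1 _).symm)
        (fun θ η c => by rw [map_sub, morU_map, ← nat θ η, Matrix.map_apply])
      exact ⟨z, ⟨z1, z2, z3⟩, z4, z5⟩
    choose z hz1 hz2 hz3 using key
    let Y' : S ⊕ V → V ⊕ V → MooreDGA (A.cotensor M) := fun w =>
      if h : cdg dS dV (morP w) = n then fun c => z w h c + morU _ (morP w) (.inr c) else Y w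
    have e1 : ∀ w (h : cdg dS dV (morP w) = n) c,
        Y' w c - morU _ (morP w) (.inr c) = z w h c := fun w h c => by
      simp only [Y', dif_pos h, add_sub_cancel_right]
    have e2 : ∀ w, cdg dS dV (morP w) ≠ n → Y' w = Y w := fun w h => dif_neg h
    have e3 := morM_congr (Γ := dgC A M) (u := u) fun w (h : cdg dS dV (morP w) < n) => e2 w h.ne
    have e4 : ∀ a, cdg dS dV a < n + 1 → (o.matrix (dgC A M) δ t * morM (dgC A M) u Y') a =
        (o.matrix (dgC A M) δ t * morM (dgC A M) u Y) a := fun a ha => by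
      have := mor_mul_congr go.hm id rfl (a := a) fun b hb => e3 b (by omega)
      rwa [Matrix.map_id] at this
    refine ⟨Y', fun w => ?_, fun w hw => ?_⟩
    · by_cases h : cdg dS dV (morP w) = n
      · simp only [e1 w h]
        exact hz1 w h
      · rw [e2 w h]
        exact hY w
    · rw [e4 _ hw]
      by_cases h : cdg dS dV (morP w) = n
      · refine ⟨funext fun b => ?_, fun k θ c => ?_⟩
        · rcases b with s | c
          · rw [mor_row_left _ (mor_mat_rl o' δ t') (mor_kf_M u Y'),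
              mor_mul_left _ (mor_kf_M u Y), mor_mat_left o o' δ t t']
          · have b1 := mor_row_right _ (mor_mat_rr (Γ := dgC A M) o' δ t')
              (mor_kf_M (Γ := dgC A M) u Y')
              (morP w) c
            simp only [morM_P, e1 w h, hz2 w h] at b1
            exact (sub_left_injective b1).symm
        · rw [← sub_left_inj (a := morU _ (morP w) (.inr c)), ← hz3 w h, ← e1 w h, map_sub,
            morU_map]
      · have h' : cdg dS dV (morP w) < n := by omega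
        rw [e2 w h, DG.dM_apply, e3 _ h']
        exact hn w h'
  obtain ⟨n₀, h₀⟩ := Finite.bddBelow_range (cdg dS dV)
  obtain ⟨n₁, h₁⟩ := Finite.bddAbove_range (cdg dS dV)
  have hlt : ∀ b, cdg dS dV b < max n₀ (n₁ + 1) := fun b =>
    lt_of_lt_of_le (Int.lt_add_one_iff.2 (h₁ ⟨b, rfl⟩)) (le_max_right _ _)
  obtain ⟨Y, hY, hn⟩ := Int.leInduction (m := n₀) (motive := fun n _ =>
      ∃ Y : S ⊕ V → V ⊕ V → MooreDGA (A.cotensor M),
      (∀ w, MorRow (dgC A M) (f.nc M) dS dV bS bV (morP w)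
        fun c => Y w c - morU _ (morP w) (.inr c)) ∧ ∀ w, cdg dS dV (morP w) < n →
      (dgC A M).dM (o'.matrix (dgC A M) δ t') (morM (dgC A M) u Y) (morP w) =
        (o.matrix (dgC A M) δ t * morM (dgC A M) u Y) (morP w) ∧
      ∀ k (θ : Bdy k M) c, A.rs θ.1 (Y w c) = ρ k θ (morP w) (.inr c))
    ⟨fun w c => morU _ (morP w) (.inr c), fun w => ⟨fun c => by
        rw [sub_self]; exact (dgC A M).hg_zero _, fun c _ => sub_self _,
        fun v => by rw [sub_self, map_zero]⟩,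
      fun w h => absurd (h₀ ⟨_, rfl⟩) (not_le.2 h)⟩
    (fun n _ h => step n h) _ (le_max_left n₀ (n₁ + 1))
  exact ⟨morM (dgC A M) u Y, (mor_pre hY).2.2.2 (funext fun b =>
      mor_chain_all htu o o' δ (fun w h => (hn w h).1) b (hlt b)),
    fun k θ => funext fun b => morM_map (A.isHom_rs θ.1) (good k θ).kf
      (fun w h => (hn w h).2 k θ) b (hlt b)⟩

/-- Paths from a multiple of a generator `t₀` to a given element `s` of the kernel extend. -/
theorem gen_extend {M : ℕ} {t₀ s : A.obj M} (ht : f.IsGenerator t₀) (hs : f.app M s = 0)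
    (v : ∀ k, Bdy k M → A.obj k) (p : ∀ k, Bdy k M → MooreDGA (A.cotensor k))
    (hp : ∀ k θ, MooreDGA.IsHomogeneous 1 (p k θ) ∧ f.nc k (p k θ) = 0)
    (e : ∀ k (θ : Bdy k M),
      A.map θ.1 s = v k θ * A.map θ.1 t₀ + (dgC A k).ev (MooreDGA.boundary (p k θ)))
    (natv : ∀ {l k : ℕ} (θ : Bdy k M) (η : SimplexHom l k), A.map η (v k θ) = v l (θ.comp η))
    (natp : ∀ {l k : ℕ} (θ : Bdy k M) (η : SimplexHom l k), A.rs η (p k θ) = p l (θ.comp η)) :
    ∃ (v' : A.obj M) (p' : MooreDGA (A.cotensor M)), MooreDGA.IsHomogeneous 1 p' ∧ f.nc M p' = 0 ∧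
      s = v' * t₀ + (dgC A M).ev (MooreDGA.boundary p') ∧
      ∀ k (θ : Bdy k M), A.map θ.1 v' = v k θ ∧ A.rs θ.1 p' = p k θ := by
  obtain ⟨z, z1, -, z3, z4, z5⟩ := kz_extend ht (V := PUnit.{u + 1}) (dV := fun _ => 0) (p := 0)
    (q := 0) (fun _ => True) (n := 1) (y := Sum.elim (fun _ => (dgC A M).inc s) fun _ => 0)
    (x := fun k θ => Sum.elim (fun _ => p k θ) fun _ => (dgC A k).inc (v k θ))
    (by
      rintro (a | a) (b | b)
      · exact (dgC A M).hg_zero _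
      · exact (dgC A M).hg_zero _
      · rw [mor_kz_rl, if_pos rfl]
        exact (dgC A M).hg_inc t₀
      · rw [mor_kz_rr, Matrix.zero_apply, map_zero, neg_zero]
        exact (dgC A M).hg_zero _)
    (fun _ _ _ _ => ⟨rfl, rfl⟩)
    (by
      ext a b
      rw [DG.dM_apply]
      rcases a with a | a <;> rcases b with b | b
      · simp [mor_unit_l, mor_kz_ll, mor_kz_lr]
      · simp [mor_unit_r, mor_kz_lr]
      · simp [mor_unit_l, mor_kz_rl, mor_kz_rr, DG.d_inc]
      · simp [mor_unit_r, mor_kz_rr])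
    (fun _ _ => zero_lt_one)
    (by
      rintro (a | a)
      · exact (dgC A M).hg_inc s
      · exact (dgC A M).hg_zero _)
    (by rintro (a | a) h <;> exact absurd trivial h)
    (fun _ => by
      rw [Sum.elim_inl, (SimplicialRing.isHom_nc f M).inc, hs, map_zero])
    (by
      funext a
      rcases a with a | a
      · simp [mor_unit_l, DG.d_inc]
      · simp [mor_unit_r])
    (by
      rintro k θ (a | a)
      · exact (hp k θ).1
      · exact (dgC A k).hg_inc _)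
    (by rintro k θ (a | a) h <;> exact absurd trivial h)
    (fun k θ _ => (hp k θ).2)
    (fun k θ => by
      rw [mor_kz_map (A.isHom_rs θ.1), Matrix.map_zero _ (map_zero _)]
      funext a
      rcases a with a | a
      · rw [mor_unit_l, Sum.elim_inl, Sum.elim_inl, Sum.elim_inr, (A.isHom_rs θ.1).inc, e, map_add,
          map_mul, DG.e_inc, add_comm]
        congr 1
        exact ((dgC A k).inc_ev ((dgC A k).hg_d (hp k θ).1)).symm
      · rw [mor_unit_r, Sum.elim_inr, Sum.elim_inr, DG.d_inc, map_zero])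
    (by
      rintro l k θ η (a | a)
      · exact natp θ η
      · rw [Sum.elim_inr, Sum.elim_inr, (A.isHom_rs η).inc, natv])
  refine ⟨(dgC A M).ev (z (.inr ⟨⟩)), z (.inl ⟨⟩), z1 (.inl ⟨⟩), z3 _, ?_, fun k θ => ⟨?_, z5 k θ _⟩⟩
  · have h := congrArg (dgC A M).ev (congrFun z4 (.inl ⟨⟩))
    rw [mor_unit_l, Sum.elim_inl, map_add, map_mul, DG.ev_e, DG.ev_inc, DG.ev_inc, add_comm] at h
    exact h.symm
  · rw [(A.isHom_rs θ.1).ev, z5, Sum.elim_inr, DG.ev_inc]

end Pool.Agent.P.MP_932208_ag
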