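import Pool.Agent.P.MP_932208_ag.Strict

/-!
Strictification of Koszul modules, compatible with multiplication by `ε`.
-/

namespace Pool.Agent.P.MP_932208_ag

open Classical

universe u

variable {R : Type u} [Ring R] {K : Type u} [CommRing K] (Γ : DG R K) {V : Type u} [Fintype V]

namespace DG

/-- The `ε`-linear matrix with given left rows. -/
noncomputable def seLin (α β : Matrix V V R) : Matrix (V ⊕ V) (V ⊕ V) R :=
  Matrix.fromBlocks α β 0 (α.map Γ.e)

/-- The row `w` of `φ` is strict. -/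
def SeRow {U : Type u} [Fintype U] (δ φ : Matrix U U R) (w : U) : Prop :=
  ∃ c : U → K, ∀ r, Γ.dM δ φ w r = ∑ r', Γ.inc (c r') * φ r' r

theorem se_eps {t : K} {p q α β : Matrix V V R} {v : V}
    (h : Γ.SeRow (Γ.kz t p q) (Γ.seLin α β) (.inl v)) :
    Γ.SeRow (Γ.kz t p q) (Γ.seLin α β) (.inr v) := by
  obtain ⟨c, hc⟩ := h
  refine ⟨Sum.elim (fun v' => if v' = v then t else 0) fun v' => -c (.inl v'), ?_⟩
  have hi : ∀ f : V → R, ∑ v', Γ.inc (if v' = v then t else 0) * f v' = Γ.inc t * f v := by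
    intro f
    rw [Finset.sum_eq_single v] <;> simp +contextual
  rintro (r | r)
  · simp only [dM_apply, twistedDiff, seLin, kz, Fintype.sum_sum_type, Matrix.fromBlocks_apply₁₁,
      Matrix.fromBlocks_apply₂₁, Matrix.fromBlocks_apply₂₂, Matrix.zero_apply, map_zero, zero_mul,
      Finset.sum_const_zero, zero_add, Matrix.map_apply, Γ.e_e, Sum.elim_inl, mul_zero, add_zero,
      hi, Matrix.diagonal_apply, mul_ite, Finset.sum_ite_eq', Finset.mem_univ, if_true]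
    exact (Γ.inc_comm _ _).symm
  · have h1 := congrArg Γ.e (hc (.inl r))
    simp only [dM_apply, twistedDiff, seLin, kz, Fintype.sum_sum_type, Matrix.fromBlocks_apply₁₁,
      Matrix.fromBlocks_apply₁₂, Matrix.fromBlocks_apply₂₁, Matrix.zero_apply, mul_zero,
      Finset.sum_const_zero, add_zero, Matrix.diagonal_apply, mul_ite, Finset.sum_ite_eq',
      Finset.mem_univ, if_true, map_add, map_sum, map_mul, Γ.e_e, Γ.e_inc] at h1
    simp only [dM_apply, twistedDiff, seLin, kz, Fintype.sum_sum_type, Matrix.fromBlocks_apply₁₂,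
      Matrix.fromBlocks_apply₂₁, Matrix.fromBlocks_apply₂₂, Matrix.zero_apply, map_zero, zero_mul,
      Finset.sum_const_zero, zero_add, Matrix.map_apply, Γ.e_e, Sum.elim_inl, Sum.elim_inr, hi,
      Matrix.neg_apply, mul_neg, Finset.sum_neg_distrib, map_neg, neg_mul, Γ.d_e]
    rw [← h1, Γ.inc_comm]; abel

omit [Fintype V] in
theorem se_hm {dV : V → ℤ} {α β : Matrix V V R}
    (h : ∀ v, Γ.IsHomogeneousVec (kdg dV) (kdg dV (.inl v) + 0) (Γ.seLin α β (.inl v))) :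
    Γ.HM (kdg dV) (kdg dV) 0 (Γ.seLin α β) := by
  rintro (v | v)
  · exact h v
  · rintro (r | r)
    · exact Γ.hg_zero _
    · refine Γ.hg_cast (Γ.hg_e (h v (.inl r))) ?_
      simp only [kdg, Sum.elim_inl, Sum.elim_inr]; ring

section General

variable {U : Type u} [Fintype U] {dg : U → ℤ} {δ φ : Matrix U U R}

theorem se_sd_deg (hδ : Γ.HM dg dg (-1) δ) (hφ : Γ.HM dg dg 0 φ) (s r : U)
    (h : dg r + 1 ≠ dg s) : Γ.sd δ φ s r = 0 :=
  Γ.ev_pos (by omega) (HM.dM Γ hδ hφ s r)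

theorem se_row_sd (ev1 : φ.map Γ.ev = 1) {w : U} (h : Γ.SeRow δ φ w) (r : U) :
    Γ.dM δ φ w r = ((Γ.sd δ φ).map Γ.inc * φ) w r := by
  obtain ⟨c, hc⟩ := h
  have e : ∀ r, Γ.sd δ φ w r = c r := fun r => by
    have e1 : ∀ r', Γ.ev (φ r' r) = if r' = r then 1 else 0 := fun r' => by
      have := congrFun (congrFun ev1 r') r
      rw [Matrix.map_apply, Matrix.one_apply] at this
      exact this
    simp [sd, Matrix.map_apply, hc, Γ.ev_inc, e1]
  simp only [hc, Matrix.mul_apply, Matrix.map_apply, e]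

theorem se_tri_dM {B : U → ℕ} (tδ : ∀ w r, B w < B r → δ w r = 0)
    (tφ : ∀ w r, B w < B r → φ w r = 0) (w r : U) (h : B w < B r) : Γ.dM δ φ w r = 0 := by
  rw [dM_apply, twistedDiff, tφ w r h, map_zero, zero_add]
  refine Finset.sum_eq_zero fun s _ => ?_
  by_cases h' : B w < B s
  · rw [tφ w s h', map_zero, zero_mul]
  · rw [tδ s r (by omega), mul_zero]

theorem se_resI {I : TwoSidedIdeal R} (hI : Γ.DI I) {φ₀ : Matrix U U R} {d₀ : Matrix U U K}
    (hδ : Γ.HM dg dg (-1) δ) (hφ : Γ.HM dg dg 0 φ) (ev1 : φ.map Γ.ev = 1)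
    (hd : ∀ s r, dg r + 1 ≠ dg s → d₀ s r = 0) (hφI : ∀ w r, (φ - φ₀) w r ∈ I)
    (resI : ∀ w r, (Γ.dM δ φ₀ - d₀.map Γ.inc * φ₀) w r ∈ I) (w r : U) :
    (Γ.dM δ φ - (Γ.sd δ φ).map Γ.inc * φ) w r ∈ I := by
  have h1 : ∀ w r, (Γ.dM δ φ - d₀.map Γ.inc * φ) w r ∈ I := by
    intro w r
    have e : (Γ.dM δ φ - d₀.map Γ.inc * φ) w r = (Γ.dM δ φ₀ - d₀.map Γ.inc * φ₀) w r +
        (Γ.d ((φ - φ₀) w r) + ∑ s, Γ.e ((φ - φ₀) w s) * δ s r -
          ∑ s, Γ.inc (d₀ w s) * (φ - φ₀) s r) := by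
      simp only [Matrix.sub_apply, dM_apply, twistedDiff, Matrix.mul_apply, Matrix.map_apply, map_sub,
        sub_mul, mul_sub, Finset.sum_sub_distrib]
      abel
    rw [e]
    refine I.add_mem (resI w r) (I.sub_mem (I.add_mem (hI.1 _ (hφI w r)) ?_) ?_)
    · exact sum_mem fun s _ => I.mul_mem_right _ _ (hI.2 _ (hφI w s))
    · exact sum_mem fun s _ => I.mul_mem_left _ _ (hφI s r)
  have h2 : ∀ s, Γ.inc (Γ.sd δ φ w s) - Γ.inc (d₀ w s) ∈ I := by
    intro s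
    by_cases hs : dg s + 1 = dg w
    · have a : Γ.inc (Γ.sd δ φ w s) = Γ.dM δ φ w s :=
        Γ.inc_ev (Γ.hg_cast (HM.dM Γ hδ hφ w s) (by omega))
      have b : (d₀.map Γ.inc * φ) w s = Γ.inc (d₀ w s) := by
        have e1 : ∀ r', dg r' = dg s → φ r' s = if r' = s then 1 else 0 := fun r' hr => by
          have := congrFun (congrFun ev1 r') s
          rw [Matrix.map_apply, Matrix.one_apply] at this
          rw [← Γ.inc_ev (Γ.hg_cast (hφ r' s) (by omega)), this]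
          split_ifs <;> simp
        rw [Matrix.mul_apply, Finset.sum_eq_single s]
        · simp [e1 s rfl]
        · intro r' _ hr
          by_cases h' : dg r' = dg s
          · rw [e1 r' h', if_neg hr, mul_zero]
          · rw [Matrix.map_apply, hd w r' (by omega), map_zero, zero_mul]
        · simp
      have := h1 w s
      rwa [Matrix.sub_apply, b, ← a] at this
    · rw [Γ.se_sd_deg hδ hφ w s hs, hd w s hs, sub_self]; exact I.zero_mem
  have e : (Γ.dM δ φ - (Γ.sd δ φ).map Γ.inc * φ) w r = (Γ.dM δ φ - d₀.map Γ.inc * φ) w r -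
      ∑ s, (Γ.inc (Γ.sd δ φ w s) - Γ.inc (d₀ w s)) * φ s r := by
    simp only [Matrix.sub_apply, Matrix.mul_apply, Matrix.map_apply, sub_mul,
      Finset.sum_sub_distrib]
    abel
  rw [e]
  exact I.sub_mem (h1 w r) (sum_mem fun s _ => I.mul_mem_right _ _ (h2 s))

/-- Strictification which keeps the strict rows of degree `< n` and the filtration. -/
theorem se_step (sat : Γ.IsSaturated) {I : TwoSidedIdeal R} (hI : Γ.DI I) (B : U → ℕ) (n : ℤ)
    (hδ : Γ.HM dg dg (-1) δ) (maurerCartan : Γ.dM δ δ = 0) (hφ : Γ.HM dg dg 0 φ) (ev1 : φ.map Γ.ev = 1)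
    (tδ : ∀ w r, B w < B r → δ w r = 0) (tφ : ∀ w r, B w < B r → φ w r = 0)
    (resI : ∀ w r, (Γ.dM δ φ - (Γ.sd δ φ).map Γ.inc * φ) w r ∈ I)
    (st : ∀ w, dg w < n → Γ.SeRow δ φ w)
    (ex : ∀ a : ℕ, Ex0 Γ.J dg (δ.map Γ.ev) fun x => B x ≤ a) :
    ∃ φ' : Matrix U U R, Γ.HM dg dg 0 φ' ∧ φ'.map Γ.ev = 1 ∧ (∀ w r, (φ' - φ) w r ∈ I) ∧
      (∀ w r, B w < B r → φ' w r = 0) ∧ (∀ w, dg w < n → φ' w = φ w) ∧
      Γ.dM δ φ' = (Γ.sd δ φ').map Γ.inc * φ' := by
  have tsd : ∀ w r, B w < B r → Γ.sd δ φ w r = 0 := fun w r h => by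
    rw [sd, Matrix.map_apply, Γ.se_tri_dM tδ tφ w r h, map_zero]
  obtain ⟨φ', d', h1, h2, h3, h4, h5⟩ := Γ.strictify sat hI (d₀ := Γ.sd δ φ)
    (fun w r => n ≤ dg w ∧ B r ≤ B w) hδ maurerCartan hφ ev1 (Γ.se_sd_deg hδ hφ)
    (fun w r r' a b => ⟨a.1, b.2.trans a.2⟩)
    (fun w r r' a b => ⟨a.1, (not_lt.1 fun h => b (tδ r r' h)).trans a.2⟩)
    (fun w r r' a b => ⟨a.1, (not_lt.1 fun h => b (tφ r r' h)).trans a.2⟩)
    (fun w r r' a b => ⟨by
      have := b.1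
      by_contra h
      exact a (Γ.se_sd_deg hδ hφ w r (by omega)),
      b.2.trans (not_lt.1 fun h => a (tsd w r h))⟩)
    resI (fun w r h => by
      by_cases hw : dg w < n
      · rw [Matrix.sub_apply, Γ.se_row_sd ev1 (st w hw), sub_self]
      · have hb : B w < B r := by omega
        rw [Matrix.sub_apply, Γ.se_tri_dM tδ tφ w r hb, Matrix.mul_apply, zero_sub, neg_eq_zero]
        refine Finset.sum_eq_zero fun s _ => ?_
        by_cases h' : B w < B s
        · rw [Matrix.map_apply, tsd w s h', map_zero, zero_mul]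
        · rw [tφ s r (by omega), mul_zero])
    (fun w => by
      by_cases hw : n ≤ dg w
      · simpa [hw] using ex (B w)
      · exact ⟨0, by simp, fun s r h => absurd h.1 hw⟩)
  refine ⟨φ', h1, h2, h3, fun w r h => ?_, fun w h => funext fun r => h4 w r (by omega), ?_⟩
  · rw [h4 w r (by omega), tφ w r h]
  · ext w r
    exact Γ.se_row_sd h2 ⟨d' w, fun r => by rw [h5]; rfl⟩ r

end General

/-- Relative `ε`-linear strictification, compatible with the filtration `bl`. -/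
theorem strictify_kz (sat : Γ.IsSaturated) {I : TwoSidedIdeal R} (hI : Γ.DI I) {dV : V → ℤ}
    (bl : V → ℕ) {t : K} {p q α₀ β₀ : Matrix V V R}
    (hδ : Γ.HM (kdg dV) (kdg dV) (-1) (Γ.kz t p q)) (maurerCartan : Γ.dM (Γ.kz t p q) (Γ.kz t p q) = 0)
    (triangular : ∀ v v', bl v < bl v' → p v v' = 0 ∧ q v v' = 0)
    (hφ : Γ.HM (kdg dV) (kdg dV) 0 (Matrix.fromBlocks α₀ β₀ 0 (α₀.map Γ.e)))
    (evα : α₀.map Γ.ev = 1) (evβ : β₀.map Γ.ev = 0)
    (triφ : ∀ v v', bl v < bl v' → α₀ v v' = 0 ∧ β₀ v v' = 0)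
    {d₀ : Matrix (V ⊕ V) (V ⊕ V) K} (hd : ∀ w r, kdg dV r + 1 ≠ kdg dV w → d₀ w r = 0)
    (resI : ∀ w r, (Γ.dM (Γ.kz t p q) (Matrix.fromBlocks α₀ β₀ 0 (α₀.map Γ.e)) -
      d₀.map Γ.inc * Matrix.fromBlocks α₀ β₀ 0 (α₀.map Γ.e)) w r ∈ I)
    (ex : ∀ a : ℕ, Ex0 Γ.J (kdg dV) ((Γ.kz t p q).map Γ.ev) fun x => Sum.elim bl bl x ≤ a) :
    ∃ (α β : Matrix V V R) (d : Matrix (V ⊕ V) (V ⊕ V) K),
      Γ.HM (kdg dV) (kdg dV) 0 (Matrix.fromBlocks α β 0 (α.map Γ.e)) ∧
      α.map Γ.ev = 1 ∧ β.map Γ.ev = 0 ∧ (∀ v v', bl v < bl v' → α v v' = 0 ∧ β v v' = 0) ∧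
      (∀ v v', (α - α₀) v v' ∈ I ∧ (β - β₀) v v' ∈ I) ∧
      Γ.dM (Γ.kz t p q) (Matrix.fromBlocks α β 0 (α.map Γ.e)) =
        d.map Γ.inc * Matrix.fromBlocks α β 0 (α.map Γ.e) := by
  let B : V ⊕ V → ℕ := Sum.elim bl bl
  have tδ : ∀ w r, B w < B r → Γ.kz t p q w r = 0 := by
    rintro (w | w) (r | r) h
    · exact (triangular w r h).1
    · exact (triangular w r h).2
    · have hne : w ≠ r := fun e => by simp [e, B] at h
      simp [kz, hne]
    · simp [kz, (triangular w r h).1]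
  have tl : ∀ α β : Matrix V V R, (∀ v v', bl v < bl v' → α v v' = 0 ∧ β v v' = 0) →
      ∀ w r, B w < B r → Γ.seLin α β w r = 0 := by
    rintro α β h (w | w) (r | r) h'
    · exact (h w r h').1
    · exact (h w r h').2
    · rfl
    · simp [seLin, (h w r h').1]
  have el : ∀ α β : Matrix V V R, α.map Γ.ev = 1 → β.map Γ.ev = 0 →
      (Γ.seLin α β).map Γ.ev = @OfNat.ofNat _ 1 (@One.toOfNat1 _
        (@Matrix.one (V ⊕ V) K (fun a b => propDecidable (a = b)) _ _)) := by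
    intro α β h1 h2
    have : (α.map Γ.e).map Γ.ev = 1 := by
      rw [← h1]; ext a b; simp [Γ.ev_e]
    rw [seLin, Matrix.fromBlocks_map, h1, h2, this, Matrix.map_zero _ (map_zero _),
      Matrix.fromBlocks_one]
    exact one_dec _ _
  have il : ∀ α β : Matrix V V R, (∀ v v', (α - α₀) v v' ∈ I ∧ (β - β₀) v v' ∈ I) →
      ∀ w r, (Γ.seLin α β - Γ.seLin α₀ β₀) w r ∈ I := by
    rintro α β h (w | w) (r | r)
    · exact (h w r).1
    · exact (h w r).2
    · simp [seLin]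
    · simpa [seLin] using hI.2 _ (h w r).1
  obtain ⟨m, hm⟩ : ∃ m : ℤ, ∀ v, m ≤ dV v :=
    (Set.finite_range dV).bddBelow.imp fun m h v => h ⟨v, rfl⟩
  obtain ⟨M, hM⟩ : ∃ M : ℤ, ∀ v, dV v ≤ M :=
    (Set.finite_range dV).bddAbove.imp fun m h v => h ⟨v, rfl⟩
  have key : ∀ n : ℕ, ∃ α β : Matrix V V R, Γ.HM (kdg dV) (kdg dV) 0 (Γ.seLin α β) ∧
      α.map Γ.ev = 1 ∧ β.map Γ.ev = 0 ∧ (∀ v v', bl v < bl v' → α v v' = 0 ∧ β v v' = 0) ∧
      (∀ v v', (α - α₀) v v' ∈ I ∧ (β - β₀) v v' ∈ I) ∧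
      ∀ v, dV v < m + n → Γ.SeRow (Γ.kz t p q) (Γ.seLin α β) (.inl v) := by
    intro n
    induction n with
    | zero =>
      exact ⟨α₀, β₀, hφ, evα, evβ, triφ, fun v v' => by simp,
        fun v h => absurd (hm v) (by omega)⟩
    | succ n ih =>
      obtain ⟨α, β, a1, a2, a3, a4, a5, a6⟩ := ih
      obtain ⟨φ', b1, b2, b3, b4, b5, b6⟩ := Γ.se_step sat hI B (m + n) hδ maurerCartan a1 (el α β a2 a3) tδ
        (tl α β a4) (Γ.se_resI hI hδ a1 (el α β a2 a3) hd (il α β a5) resI) (by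
          rintro (v | v) h
          · exact a6 v h
          · exact Γ.se_eps (a6 v (by simp only [kdg, Sum.elim_inr] at h; omega))) ex
      have row : ∀ v, Γ.seLin φ'.toBlocks₁₁ φ'.toBlocks₁₂ (.inl v) = φ' (.inl v) := by
        intro v; ext (r | r) <;> rfl
      have low : ∀ w, kdg dV w < m + n → Γ.seLin φ'.toBlocks₁₁ φ'.toBlocks₁₂ w = φ' w := by
        rintro (v | v) h
        · exact row v
        · have h' : kdg dV (.inl v) < m + n := by
            simp only [kdg, Sum.elim_inl, Sum.elim_inr] at h ⊢; omega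
          rw [b5 _ h]
          ext (r | r)
          · rfl
          · exact congrArg Γ.e (congrFun (b5 _ h') (.inl r))
      refine ⟨φ'.toBlocks₁₁, φ'.toBlocks₁₂, Γ.se_hm fun v => ?_, ?_, ?_,
        fun v v' h => ⟨b4 (.inl v) (.inl v') h, b4 (.inl v) (.inr v') h⟩, fun v v' => ⟨?_, ?_⟩,
        fun v h => ⟨Γ.sd (Γ.kz t p q) φ' (.inl v), fun r => ?_⟩⟩
      · rw [row]; exact b1 _
      · ext a b
        have := congrFun (congrFun b2 (.inl a)) (.inl b)
        simpa [Matrix.one_apply, Matrix.toBlocks₁₁, Matrix.toBlocks₁₂] using this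
      · ext a b
        have := congrFun (congrFun b2 (.inl a)) (.inr b)
        simpa [Matrix.one_apply, Matrix.toBlocks₁₁, Matrix.toBlocks₁₂] using this
      · have := I.add_mem (b3 (.inl v) (.inl v')) (a5 v v').1
        simpa [seLin, Matrix.toBlocks₁₁] using this
      · have := I.add_mem (b3 (.inl v) (.inr v')) (a5 v v').2
        simpa [seLin, Matrix.toBlocks₁₂] using this
      · rw [dM_apply, row, ← dM_apply, b6, Matrix.mul_apply]
        refine Finset.sum_congr rfl fun s _ => ?_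
        by_cases hs : kdg dV s < m + n
        · rw [low s hs]; rfl
        · have : kdg dV s + 1 ≠ kdg dV (.inl v) := by
            have : kdg dV (.inl v) = dV v := rfl
            push_cast at h; omega
          simp [Γ.se_sd_deg hδ b1 _ s this]
  obtain ⟨α, β, a1, a2, a3, a4, a5, a6⟩ := key (M - m + 1).toNat
  refine ⟨α, β, Γ.sd (Γ.kz t p q) (Γ.seLin α β), a1, a2, a3, a4, a5, ?_⟩
  have all : ∀ v, Γ.SeRow (Γ.kz t p q) (Γ.seLin α β) (.inl v) := fun v =>
    a6 v (by have := hM v; omega)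
  ext (v | v) r
  · exact Γ.se_row_sd (el α β a2 a3) (all v) r
  · exact Γ.se_row_sd (el α β a2 a3) (Γ.se_eps (all v)) r

end DG

end Pool.Agent.P.MP_932208_ag
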