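import Pool.Agent.P.MP_932208_ag.CotL2
import Pool.Agent.P.MP_932208_ag.Exact0
import Pool.Agent.P.MP_932208_ag.StrictE

/-!
Strictifications extend from the boundary of a simplex.
-/

namespace Pool.Agent.P.MP_932208_ag

open Classical

universe u

theorem ph_one_iff {U K : Type u} [Zero K] [One K] {i : DecidableEq U} {M : Matrix U U K} :
    M = 1 ↔ ∀ a b, (a = b → M a b = 1) ∧ (a ≠ b → M a b = 0) := by
  constructor
  · rintro rfl a b
    exact ⟨fun h => h ▸ Matrix.one_apply_eq a, fun h => Matrix.one_apply_ne h⟩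
  · intro h
    ext a b
    by_cases e : a = b
    · rw [(h a b).1 e, e, Matrix.one_apply_eq]
    · rw [(h a b).2 e, Matrix.one_apply_ne e]

theorem ph_one {U K : Type u} [Zero K] [One K] {i j : DecidableEq U} {M : Matrix U U K}
    (h : M = @OfNat.ofNat _ 1 (@One.toOfNat1 _ (@Matrix.one U K i _ _))) :
    M = @OfNat.ofNat _ 1 (@One.toOfNat1 _ (@Matrix.one U K j _ _)) :=
  ph_one_iff.2 (ph_one_iff.1 h)

/-- A block of a matrix can be overwritten. -/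
theorem ph_patch {U U' R : Type u} {e : U' → U} (he : Function.Injective e) (M : Matrix U U R)
    (M' : Matrix U' U' R) : ∃ M₁ : Matrix U U R, (∀ a b, M₁ (e a) (e b) = M' a b) ∧
      (∀ w w', w ∉ Set.range e ∨ w' ∉ Set.range e → M₁ w w' = M w w') ∧
      ∀ Q : U → U → R → Prop, (∀ w w', Q w w' (M w w')) → (∀ a b, Q (e a) (e b) (M' a b)) →
        ∀ w w', Q w w' (M₁ w w') := by
  have key : ∃ M₁ : Matrix U U R, (∀ a b, M₁ (e a) (e b) = M' a b) ∧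
      ∀ w w', w ∉ Set.range e ∨ w' ∉ Set.range e → M₁ w w' = M w w' := by
    refine ⟨Matrix.of fun w w' => if h : w ∈ Set.range e ∧ w' ∈ Set.range e then
      M' h.1.choose h.2.choose else M w w', fun a b => ?_, fun w w' h => ?_⟩
    · have h : e a ∈ Set.range e ∧ e b ∈ Set.range e := ⟨⟨a, rfl⟩, ⟨b, rfl⟩⟩
      rw [Matrix.of_apply, dif_pos h, he h.1.choose_spec, he h.2.choose_spec]
    · rw [Matrix.of_apply, dif_neg (by tauto)]
  obtain ⟨M₁, h₁, h₂⟩ := key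
  refine ⟨M₁, h₁, h₂, fun Q q₁ q₂ w w' => ?_⟩
  by_cases h : w ∈ Set.range e ∧ w' ∈ Set.range e
  · obtain ⟨⟨a, rfl⟩, ⟨b, rfl⟩⟩ := h
    rw [h₁]; exact q₂ a b
  · rw [h₂ w w' (by tauto)]; exact q₁ w w'

/-- The level of a cell in a filtration. -/
theorem ph_lev {U J : Type u} [Preorder J] {n : ℕ} (c : Fin (n + 1) →o J) (b : U → J)
    (hb : ∀ w, b w ≤ c (Fin.last n)) :
    ∃ lv : U → Fin (n + 1), ∀ w a, lv w ≤ a ↔ b w ≤ c a := by
  have h : ∀ w, ∃ l : Fin (n + 1), ∀ a, l ≤ a ↔ b w ≤ c a := fun w => by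
    obtain ⟨l, hl, hm⟩ := Finset.exists_min_image (Finset.univ.filter fun a => b w ≤ c a) id
      ⟨Fin.last n, by simpa using hb w⟩
    exact ⟨l, fun a => ⟨fun h => (Finset.mem_filter.1 hl).2.trans (c.monotone h),
      fun h => hm a (by simpa using h)⟩⟩
  choose lv hlv using h
  exact ⟨lv, hlv⟩

theorem ph_mul_tri {U R : Type u} [Fintype U] [Ring R] {M M' : Matrix U U R} (π : U → Prop)
    (h₁ : ∀ w w', π w → ¬ π w' → M w w' = 0) (h₂ : ∀ w w', π w → ¬ π w' → M' w w' = 0)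
    (w w' : U) (hw : π w) (hw' : ¬ π w') : (M * M') w w' = 0 := by
  rw [Matrix.mul_apply]
  refine Finset.sum_eq_zero fun x _ => ?_
  by_cases hx : π x
  · rw [h₂ x w' hx hw', mul_zero]
  · rw [h₁ w x hw hx, zero_mul]

section Alg
variable {R R' : Type u} [Ring R] [Ring R'] {K : Type u} [CommRing K] {Γ : DG R K}
  {f : R →+* R'} {S V S' V' J : Type u} [Fintype S] [Fintype V] [Fintype S'] [Fintype V']
  [Preorder J] {dS : S → ℤ} {dV : V → ℤ} {bS : S → J} {bV : V → J} {ι : Type} {c : ι → J} {c₀ : J}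

theorem ph_inc_ev {U W : Type u} (d : Matrix U W K) : (d.map Γ.inc).map Γ.ev = d := by
  ext a b; simp [Γ.ev_inc]

theorem DG.sd_eq {U : Type u} [Fintype U] {δ φ : Matrix U U R} {d : Matrix U U K}
    (ev1 : φ.map Γ.ev = 1) (st : Γ.dM δ φ = d.map Γ.inc * φ) :
    Γ.sd δ φ = d ∧ Γ.res δ φ = 0 := by
  have h : Γ.sd δ φ = d := by
    rw [DG.sd, st, Matrix.map_mul, ev1, ph_inc_ev, Matrix.mul_one]
  exact ⟨h, by rw [DG.res, h, st, sub_self]⟩

theorem ph_dM_sub {U U' : Type u} [Fintype U] [Fintype U'] {e : U' → U}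
    (he : Function.Injective e) {δ φ : Matrix U U R}
    (h₁ : ∀ w x w', x ∉ Set.range e → φ (e w) x = 0 ∨ δ x (e w') = 0) :
    Γ.dM (δ.submatrix e e) (φ.submatrix e e) = (Γ.dM δ φ).submatrix e e := by
  have h := sub_mul he (φ.map Γ.e) δ e e fun w x w' hx => by
    rcases h₁ w x w' hx with h | h <;> simp [h]
  unfold DG.dM
  rw [Matrix.submatrix_add, Pi.add_apply, Pi.add_apply, h]
  rfl

/-- Restriction of a strictification to a subquotient. -/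
theorem DG.res_sub {U U' : Type u} [Fintype U] [Fintype U'] {e : U' → U}
    (he : Function.Injective e) {δ φ : Matrix U U R}
    (h₁ : ∀ w x w', x ∉ Set.range e → φ (e w) x = 0 ∨ δ x (e w') = 0)
    (h₂ : ∀ w x w', x ∉ Set.range e → Γ.sd δ φ (e w) x = 0 ∨ φ x (e w') = 0) :
    Γ.sd (δ.submatrix e e) (φ.submatrix e e) = (Γ.sd δ φ).submatrix e e ∧
      Γ.res (δ.submatrix e e) (φ.submatrix e e) = (Γ.res δ φ).submatrix e e := by
  have h : Γ.sd (δ.submatrix e e) (φ.submatrix e e) = (Γ.sd δ φ).submatrix e e := by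
    rw [DG.sd, ph_dM_sub he h₁]; rfl
  refine ⟨h, ?_⟩
  have h' := sub_mul he ((Γ.sd δ φ).map Γ.inc) φ e e fun w x w' hx => by
    rcases h₂ w x w' hx with h | h <;> simp [h]
  rw [DG.res, DG.res, h, ph_dM_sub he h₁, Matrix.submatrix_sub, Pi.sub_apply, Pi.sub_apply, h']
  rfl

theorem ph_dM_tri {U : Type u} [Fintype U] {δ φ : Matrix U U R} (π : U → Prop)
    (h₁ : ∀ w w', π w → ¬ π w' → δ w w' = 0) (h₂ : ∀ w w', π w → ¬ π w' → φ w w' = 0)
    (w w' : U) (hw : π w) (hw' : ¬ π w') : Γ.dM δ φ w w' = 0 := by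
  rw [DG.dM, Matrix.add_apply, ph_mul_tri π (fun a b ha hb => by simp [h₂ a b ha hb]) h₁ w w' hw hw']
  simp [h₂ w w' hw hw']

/-- The strict differential preserves every set of cells preserved by `δ` and `φ`. -/
theorem DG.sd_tri {U : Type u} [Fintype U] {δ φ : Matrix U U R} (π : U → Prop)
    (h₁ : ∀ w w', π w → ¬ π w' → δ w w' = 0) (h₂ : ∀ w w', π w → ¬ π w' → φ w w' = 0)
    (w w' : U) (hw : π w) (hw' : ¬ π w') : Γ.sd δ φ w w' = 0 := by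
  rw [DG.sd, Matrix.map_apply, ph_dM_tri π h₁ h₂ w w' hw hw', map_zero]

theorem ph_res_tri {U : Type u} [Fintype U] {δ φ : Matrix U U R} (π : U → Prop)
    (h₁ : ∀ w w', π w → ¬ π w' → δ w w' = 0) (h₂ : ∀ w w', π w → ¬ π w' → φ w w' = 0)
    (w w' : U) (hw : π w) (hw' : ¬ π w') : Γ.res δ φ w w' = 0 := by
  rw [DG.res, Matrix.sub_apply, ph_dM_tri π h₁ h₂ w w' hw hw', ph_mul_tri π
    (fun a b ha hb => by simp [DG.sd_tri π h₁ h₂ a b ha hb]) h₂ w w' hw hw', sub_zero]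

theorem ph_sd_deg {U : Type u} [Fintype U] {dg : U → ℤ} {δ φ : Matrix U U R}
    (hδ : Γ.HM dg dg (-1) δ) (hφ : Γ.HM dg dg 0 φ) (s r : U) (h : dg r + 1 ≠ dg s) :
    Γ.sd δ φ s r = 0 :=
  Γ.ev_pos (by omega) (DG.HM.dM Γ hδ hφ s r)

theorem ph_inc_mem {I : TwoSidedIdeal R} {k : ℤ} {x : R} (hx : Γ.IsHomogeneous k x) (h : x ∈ I) :
    Γ.inc (Γ.ev x) ∈ I := by
  by_cases e : k = 0
  · rwa [Γ.inc_ev (e ▸ hx)]
  · rw [Γ.ev_pos e hx, map_zero]; exact I.zero_mem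

/-- The defect modulo an ideal only depends on the basis modulo the ideal. -/
theorem ph_res_mem {U : Type u} [Fintype U] {dg : U → ℤ} {δ φ φ' : Matrix U U R}
    {I : TwoSidedIdeal R} (hI : Γ.DI I) (hδ : Γ.HM dg dg (-1) δ) (hφ : Γ.HM dg dg 0 φ)
    (hφ' : Γ.HM dg dg 0 φ') (h : ∀ w w', (φ' - φ) w w' ∈ I) (hr : ∀ w w', Γ.res δ φ w w' ∈ I)
    (w w' : U) : Γ.res δ φ' w w' ∈ I := by
  have e₁ : Γ.dM δ φ' - Γ.dM δ φ = (φ' - φ).map Γ.d + (φ' - φ).map Γ.e * δ := by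
    rw [DG.dM, DG.dM, Matrix.map_sub _ (map_sub Γ.d), Matrix.map_sub _ (map_sub Γ.e),
      Matrix.sub_mul]
    abel
  have h₁ : ∀ w w', (Γ.dM δ φ' - Γ.dM δ φ) w w' ∈ I := fun w w' => by
    rw [e₁, Matrix.add_apply, Matrix.mul_apply]
    exact I.add_mem (hI.1 _ (h w w'))
      (sum_mem fun x _ => I.mul_mem_right _ _ (hI.2 _ (h w x)))
  have h₂ : ∀ w w', ((Γ.sd δ φ').map Γ.inc - (Γ.sd δ φ).map Γ.inc) w w' ∈ I := fun w w' => by
    have := ph_inc_mem (Γ.hg_sub (DG.HM.dM Γ hδ hφ' w w') (DG.HM.dM Γ hδ hφ w w')) (h₁ w w')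
    rwa [map_sub, map_sub] at this
  have e₂ : Γ.res δ φ' = Γ.res δ φ + (Γ.dM δ φ' - Γ.dM δ φ) -
      (((Γ.sd δ φ').map Γ.inc - (Γ.sd δ φ).map Γ.inc) * φ' +
        (Γ.sd δ φ).map Γ.inc * (φ' - φ)) := by
    rw [DG.res, DG.res, Matrix.sub_mul, Matrix.mul_sub]
    abel
  rw [e₂, Matrix.sub_apply, Matrix.add_apply, Matrix.add_apply, Matrix.mul_apply, Matrix.mul_apply]
  exact I.sub_mem (I.add_mem (hr w w') (h₁ w w')) (I.add_mem
    (sum_mem fun x _ => I.mul_mem_right _ _ (h₂ w x))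
    (sum_mem fun x _ => I.mul_mem_left _ _ (h x w')))

theorem Shp.map {R₂ K₂ : Type u} [Ring R₂] [CommRing K₂] {Γ₂ : DG R₂ K₂} {g : R →+* R₂}
    {g₀ : K →+* K₂} (homogeneous : Γ.IsHom Γ₂ g g₀) {φ : Matrix (S ⊕ (V ⊕ V)) (S ⊕ (V ⊕ V)) R}
    (h : Shp Γ dS dV bS bV c c₀ φ) : Shp Γ₂ dS dV bS bV c c₀ (φ.map g) where
  hm w w' := homogeneous.homogeneous (h.hm w w')
  ev1 := by
    have e : (φ.map g).map Γ₂.ev = (φ.map Γ.ev).map g₀ := by
      ext a b; exact (homogeneous.ev _).symm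
    rw [e, h.ev1, Matrix.map_one _ (map_zero _) (map_one _)]
  triangular a w w' p q := by rw [Matrix.map_apply, h.triangular a w w' p q, map_zero]
  ps x s' p := by rw [Matrix.map_apply, h.ps x s' p, map_zero]
  ev v v' p := by rw [Matrix.map_apply, h.ev v v' p, map_zero]
  ee v v' p := by rw [Matrix.map_apply, h.ee v v' p, homogeneous.e, Matrix.map_apply]

theorem Shp.mono {ι' : Type} (θ : ι' → ι) {c₁ : J} (h₀ : c₀ ≤ c₁)
    {φ : Matrix (S ⊕ (V ⊕ V)) (S ⊕ (V ⊕ V)) R} (h : Shp Γ dS dV bS bV c c₀ φ) :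
    Shp Γ dS dV bS bV (c ∘ θ) c₁ φ where
  hm := h.hm
  ev1 := h.ev1
  triangular a := h.triangular (θ a)
  ps x s' p := h.ps x s' fun q => p (q.trans h₀)
  ev v v' p := h.ev v v' fun q => p (q.trans h₀)
  ee v v' p := h.ee v v' fun q => p (q.trans h₀)

theorem Shp.sub {iS : S' → S} {iV : V' → V} (hS : Function.Injective iS)
    (hV : Function.Injective iV) {φ : Matrix (S ⊕ (V ⊕ V)) (S ⊕ (V ⊕ V)) R}
    (h : Shp Γ dS dV bS bV c c₀ φ) :
    Shp Γ (dS ∘ iS) (dV ∘ iV) (bS ∘ iS) (bV ∘ iV) c c₀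
      (φ.submatrix (cemb iS iV) (cemb iS iV)) where
  hm w w' := by
    have := h.hm (cemb iS iV w) (cemb iS iV w')
    rwa [cdg_cemb, cdg_cemb] at this
  ev1 := ph_one_iff.2 fun a b =>
    ⟨fun p => (ph_one_iff.1 h.ev1 _ _).1 (congrArg _ p),
      fun p => (ph_one_iff.1 h.ev1 _ _).2 fun q => p (cemb_injective hS hV q)⟩
  triangular a w w' p q := h.triangular a _ _ (by rwa [cb_cemb]) (by rwa [cb_cemb])
  ps x s' p := h.ps (Sum.map iV iV x) (iS s') p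
  ev v v' p := h.ev (iV v) (iV v') p
  ee v v' p := h.ee (iV v) (iV v') p

theorem ph_hg_inc_ev {k : ℤ} {x : R} (hx : Γ.IsHomogeneous k x) : Γ.IsHomogeneous k (Γ.inc (Γ.ev x)) := by
  by_cases e : k = 0
  · exact e ▸ Γ.hg_inc _
  · rw [Γ.ev_pos e hx, map_zero]; exact Γ.hg_zero _

/-- Transport of a strictification along a morphism of objects. -/
theorem Shp.conj {Δ Δ' ρ ρ' φ : Matrix (S ⊕ (V ⊕ V)) (S ⊕ (V ⊕ V)) R} {u u' : K}
    (hρ : GoodM Γ f dS dV bS bV Δ Δ' u ρ) (hρ' : GoodM Γ f dS dV bS bV Δ' Δ u' ρ')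
    (hu : u * u' = 1) (i₁ : ρ * ρ' = 1) (i₂ : ρ' * ρ = 1) (h : Shp Γ dS dV bS bV c c₀ φ)
    (st : Γ.res Δ' φ = 0) :
    Shp Γ dS dV bS bV c c₀ ((ρ.map Γ.ev).map Γ.inc * φ * ρ') ∧
      Γ.res Δ ((ρ.map Γ.ev).map Γ.inc * φ * ρ') = 0 ∧
      ∀ s s', ¬ bS s' ≤ c₀ →
        ((ρ.map Γ.ev).map Γ.inc * φ * ρ') (.inl s) (.inl s') = φ (.inl s) (.inl s') := by
  have ev1 : ((ρ.map Γ.ev).map Γ.inc * φ * ρ').map Γ.ev = 1 := by
    rw [Matrix.map_mul, Matrix.map_mul, ph_inc_ev, ph_one h.ev1, Matrix.mul_one,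
      ← Matrix.map_mul, i₁, Matrix.map_one _ (map_zero _) (map_one _)]
  have q₁ : ∀ w s', (φ * ρ') w (.inl s') = φ w (.inl s') := fun w s' => by
    simp [Matrix.mul_apply, Fintype.sum_sum_type, hρ'.kf.gg, hρ'.kf.pg, Matrix.one_apply]
  have z₁ : ∀ x s (y : V ⊕ V), ¬ Sum.elim bV bV y ≤ c₀ →
      φ (.inr x) (.inl s) * ρ' (.inl s) (.inr y) = 0 := fun x s y hy => by
    by_cases p : bS s ≤ c₀
    · rw [hρ'.triangular (.inl s) (.inr y) fun q => hy (le_trans q p), mul_zero]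
    · rw [h.ps x s p, zero_mul]
  have z₂ : ∀ v v'' (y : V ⊕ V), ¬ Sum.elim bV bV y ≤ c₀ →
      φ (.inr (.inr v)) (.inr (.inl v'')) * ρ' (.inr (.inl v'')) (.inr y) = 0 :=
    fun v v'' y hy => by
    by_cases p : bV v'' ≤ c₀
    · rw [hρ'.triangular (.inr (.inl v'')) (.inr y) fun q => hy (le_trans q p), mul_zero]
    · rw [h.ev v v'' p, zero_mul]
  have q₂ : ∀ v v', ¬ bV v' ≤ c₀ → (φ * ρ') (.inr (.inr v)) (.inr (.inl v')) = 0 :=
    fun v v' p => by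
    simp [Matrix.mul_apply, Fintype.sum_sum_type, hρ'.kf.ev, z₁ _ _ (.inl v') p,
      z₂ _ _ (.inl v') p]
  have q₃ : ∀ v w', ((ρ.map Γ.ev).map Γ.inc * (φ * ρ')) (.inr (.inr v)) w' =
      Γ.inc u * (φ * ρ') (.inr (.inr v)) w' := fun v w' => by
    rw [Matrix.mul_apply]
    simp [Fintype.sum_sum_type, hρ.kf.ev, hρ.kf.pg, hρ.kf.ee, Γ.ev_e, Γ.ev_inc, (hρ.vv _ _).2,
      apply_ite Γ.inc]
  have transition : ∀ {D D' r : Matrix (S ⊕ (V ⊕ V)) (S ⊕ (V ⊕ V)) R} {a : K},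
      GoodM Γ f dS dV bS bV D D' a r → ∀ (j : J) w w', cb bS bV w ≤ j → ¬ cb bS bV w' ≤ j →
      r w w' = 0 := fun g j w w' p q => g.triangular w w' fun e => q (e.trans p)
  refine ⟨⟨?_, ph_one ev1, fun a => ?_, fun x s' p => ?_, fun v v' p => ?_, fun v v' p => ?_⟩,
    ?_, fun s s' p => ?_⟩
  · have hP : Γ.HM (cdg dS dV) (cdg dS dV) 0 ((ρ.map Γ.ev).map Γ.inc) := fun w w' =>
      ph_hg_inc_ev (hρ.hm w w')
    simpa using DG.HM.mul Γ (DG.HM.mul Γ hP h.hm) hρ'.hm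
  · exact ph_mul_tri (fun w => cb bS bV w ≤ c a) (ph_mul_tri (fun w => cb bS bV w ≤ c a)
      (fun w w' p q => by simp [transition hρ _ w w' p q]) (h.triangular a)) (transition hρ' _)
  · rw [Matrix.mul_assoc, Matrix.mul_apply]
    simp [Fintype.sum_sum_type (α₁ := S), q₁, hρ.kf.pg, h.ps _ _ p]
  · rw [Matrix.mul_assoc, q₃, q₂ v v' p, mul_zero]
  · have e₁ : ((ρ.map Γ.ev).map Γ.inc * (φ * ρ')) (.inr (.inl v)) (.inr (.inl v')) =
        (φ * ρ') (.inr (.inl v)) (.inr (.inl v')) := by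
      rw [Matrix.mul_apply]
      simp [Fintype.sum_sum_type, hρ.kf.pg, (hρ.vv _ _).2, q₂ _ _ p, apply_ite Γ.inc]
    rw [Matrix.mul_assoc, q₃, e₁, Matrix.mul_apply, Matrix.mul_apply]
    simp only [Fintype.sum_sum_type, z₁ _ _ (.inl v') p, z₁ _ _ (.inr v') p, z₂ _ _ (.inr v') p,
      hρ'.kf.ev, hρ'.kf.ee, Finset.sum_const_zero, zero_add, mul_zero, add_zero, map_sum,
      Finset.mul_sum, map_mul]
    refine Finset.sum_congr rfl fun y _ => ?_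
    by_cases q : bV y ≤ c₀
    · rw [transition hρ' c₀ (.inr (.inl y)) (.inr (.inl v')) q p]; simp
    · rw [h.ee v y q, ← mul_assoc (Γ.e _), ← Γ.inc_comm, ← mul_assoc, ← mul_assoc, ← map_mul, hu,
        map_one, one_mul]
  · refine (DG.sd_eq (d := ρ.map Γ.ev * Γ.sd Δ' φ * ρ'.map Γ.ev) (ph_one ev1) ?_).2
    have e₁ : ((ρ.map Γ.ev).map Γ.inc).map Γ.d = 0 := by ext a b; simp [Γ.d_inc]
    have e₂ : ((ρ.map Γ.ev).map Γ.inc).map Γ.e = (ρ.map Γ.ev).map Γ.inc := by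
      ext a b; simp [Γ.e_inc]
    have e₃ : (ρ'.map Γ.ev).map Γ.inc * (ρ.map Γ.ev).map Γ.inc = 1 := by
      rw [← Matrix.map_mul, ← Matrix.map_mul, i₂, Matrix.map_one _ (map_zero _) (map_one _),
        Matrix.map_one _ (map_zero _) (map_one _)]
    have e₄ : Γ.dM Δ' φ = (Γ.sd Δ' φ).map Γ.inc * φ := sub_eq_zero.1 st
    have e₅ : ∀ a : Matrix (S ⊕ (V ⊕ V)) (S ⊕ (V ⊕ V)) R, Γ.dM Δ (a * ρ') = Γ.dM Δ' a * ρ' :=
      fun a => by rw [DG.dM_mul, hρ'.chain, DG.dM, Matrix.add_mul, Matrix.mul_assoc]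
    rw [e₅, DG.dM_mul, e₁, e₂, e₄, Matrix.map_mul, Matrix.map_mul, Matrix.zero_mul, zero_add]
    simp only [Matrix.mul_assoc]
    rw [← Matrix.mul_assoc ((ρ'.map Γ.ev).map Γ.inc), e₃, Matrix.one_mul]
  · rw [Matrix.mul_assoc, Matrix.mul_apply]
    simp [Fintype.sum_sum_type (α₁ := S), q₁, hρ.kf.gg, h.ps _ _ p, Matrix.one_apply,
      apply_ite Γ.ev, apply_ite Γ.inc]

theorem ph_mat_rl (o : OD S V R) (δ : Matrix S S R) (t : K) (x : V ⊕ V) (s : S) :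
    o.matrix Γ δ t (.inr x) (.inl s) = 0 := rfl

theorem ph_go_tri {δ : Matrix S S R} {δ' : Matrix V V R'} {ψ' : Matrix S V R'} {t : K}
    {o : OD S V R} (go : GoodO Γ f dS dV bS bV δ δ' ψ' t o) (j : J) (w w' : S ⊕ (V ⊕ V))
    (p : cb bS bV w ≤ j) (q : ¬ cb bS bV w' ≤ j) : o.matrix Γ δ t w w' = 0 :=
  go.triangular w w' fun e => q (e.trans p)

theorem ph_go_pi {δ : Matrix S S R} {δ' : Matrix V V R'} {ψ' : Matrix S V R'} {t : K}
    {o : OD S V R} (go : GoodO Γ f dS dV bS bV δ δ' ψ' t o) (j : J) (w w' : S ⊕ (V ⊕ V))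
    (p : w.isRight ∨ cb bS bV w ≤ j) (q : ¬ (w'.isRight ∨ cb bS bV w' ≤ j)) :
    o.matrix Γ δ t w w' = 0 := by
  rcases p with p | p
  · rcases w with s | x
    · simp at p
    · rcases w' with s' | x'
      · rfl
      · simp at q
  · exact ph_go_tri go j w w' p fun e => q (Or.inr e)

theorem ph_shp_pi {a : ι} {φ : Matrix (S ⊕ (V ⊕ V)) (S ⊕ (V ⊕ V)) R}
    (h : Shp Γ dS dV bS bV c (c a) φ) (w w' : S ⊕ (V ⊕ V))
    (p : w.isRight ∨ cb bS bV w ≤ c a) (q : ¬ (w'.isRight ∨ cb bS bV w' ≤ c a)) :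
    φ w w' = 0 := by
  rcases p with p | p
  · rcases w with s | x
    · simp at p
    · rcases w' with s' | x'
      · exact h.ps x s' fun e => q (Or.inr e)
      · simp at q
  · exact h.triangular a w w' p fun e => q (Or.inr e)

/-- The defect on the late cells of `S` only depends on the corresponding block. -/
theorem ph_resS {δ : Matrix S S R} {δ' : Matrix V V R'} {ψ' : Matrix S V R'} {t : K}
    {o : OD S V R} (go : GoodO Γ f dS dV bS bV δ δ' ψ' t o) {a : ι}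
    {φ : Matrix (S ⊕ (V ⊕ V)) (S ⊕ (V ⊕ V)) R} (h : Shp Γ dS dV bS bV c (c a) φ)
    {e : S' → S} (he : Function.Injective e) (re : ∀ s, s ∈ Set.range e ↔ ¬ bS s ≤ c a) :
    Γ.res ((o.matrix Γ δ t).submatrix (.inl ∘ e) (.inl ∘ e)) (φ.submatrix (.inl ∘ e) (.inl ∘ e)) =
      (Γ.res (o.matrix Γ δ t) φ).submatrix (.inl ∘ e) (.inl ∘ e) := by
  have k₁ : ∀ x : S ⊕ (V ⊕ V), x ∉ Set.range (Sum.inl ∘ e) → x.isRight ∨ cb bS bV x ≤ c a := by
    rintro (s | x) hx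
    · by_contra q
      obtain ⟨y, rfl⟩ := (re s).2 fun p => q (Or.inr p)
      exact hx ⟨y, rfl⟩
    · exact Or.inl rfl
  have k₂ : ∀ w : S', ¬ (((Sum.inl ∘ e) w : S ⊕ (V ⊕ V)).isRight ∨
      cb bS bV ((Sum.inl ∘ e) w) ≤ c a) := fun w q =>
    q.elim (by simp) ((re _).1 ⟨w, rfl⟩)
  exact (DG.res_sub (Sum.inl_injective.comp he)
    (fun w x w' hx => Or.inr (ph_go_pi go _ _ _ (k₁ x hx) (k₂ w')))
    (fun w x w' hx => Or.inr (ph_shp_pi h _ _ (k₁ x hx) (k₂ w')))).2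

/-- The defect on the late Koszul cells only depends on the corresponding block. -/
theorem ph_resV {δ : Matrix S S R} {δ' : Matrix V V R'} {ψ' : Matrix S V R'} {t : K}
    {o : OD S V R} (go : GoodO Γ f dS dV bS bV δ δ' ψ' t o) {a : ι}
    {φ : Matrix (S ⊕ (V ⊕ V)) (S ⊕ (V ⊕ V)) R} (h : Shp Γ dS dV bS bV c (c a) φ)
    {U : Type u} [Fintype U] {e : U → S ⊕ (V ⊕ V)} (he : Function.Injective e)
    (re : ∀ w, w ∈ Set.range e ↔ w.isRight ∧ ¬ cb bS bV w ≤ c a) :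
    Γ.res ((o.matrix Γ δ t).submatrix e e) (φ.submatrix e e) =
      (Γ.res (o.matrix Γ δ t) φ).submatrix e e := by
  have k₁ : ∀ w, (e w).isRight ∧ ¬ cb bS bV (e w) ≤ c a := fun w => (re _).1 ⟨w, rfl⟩
  refine (DG.res_sub he (fun w x w' hx => ?_) (fun w x w' hx => ?_)).2
  · by_cases p : cb bS bV x ≤ c a
    · exact Or.inr (ph_go_tri go _ _ _ p (k₁ w').2)
    · exact Or.inl (ph_shp_pi h _ _ (Or.inl (k₁ w).1) fun q => hx ((re x).2 ⟨by tauto, p⟩))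
  · by_cases p : cb bS bV x ≤ c a
    · exact Or.inr (h.triangular a _ _ p (k₁ w').2)
    · exact Or.inl (DG.sd_tri (fun w => w.isRight ∨ cb bS bV w ≤ c a) (ph_go_pi go _)
        (ph_shp_pi h) _ _ (Or.inl (k₁ w).1) fun q => hx ((re x).2 ⟨by tauto, p⟩))

/-- First step of the correction: the late Koszul cells. -/
theorem ph_fix1 (sat : Γ.IsSaturated) {I : TwoSidedIdeal R} (hI : Γ.DI I) {n : ℕ} (c : Fin (n + 1) →o J)
    (hb : ∀ w, cb bS bV w ≤ c (Fin.last n)) {δ : Matrix S S R} {δ' : Matrix V V R'}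
    {ψ' : Matrix S V R'} {t : K} {o : OD S V R} (go : GoodO Γ f dS dV bS bV δ δ' ψ' t o)
    {φ₀ : Matrix (S ⊕ (V ⊕ V)) (S ⊕ (V ⊕ V)) R} (h₀ : Shp Γ dS dV bS bV c (c 0) φ₀)
    (resI : ∀ w w', Γ.res (o.matrix Γ δ t) φ₀ w w' ∈ I)
    (exk : ∀ a, Ex0 Γ.J (cdg dS dV) ((o.matrix Γ δ t).map Γ.ev)
      fun w => w.isRight ∧ cb bS bV w ≤ c a ∧ ¬ cb bS bV w ≤ c 0) :
    ∃ φ, Shp Γ dS dV bS bV c (c 0) φ ∧ (∀ w w', (φ - φ₀) w w' ∈ I) ∧
      (∀ s w, φ (.inl s) w = φ₀ (.inl s) w) ∧ ∀ x x', ¬ cb bS bV (.inr x) ≤ c 0 →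
        ¬ cb bS bV (.inr x') ≤ c 0 → Γ.res (o.matrix Γ δ t) φ (.inr x) (.inr x') = 0 := by
  obtain ⟨lv, hlv⟩ := ph_lev c bV fun v => hb (.inr (.inl v))
  let V₁ := {v : V // ¬ bV v ≤ c 0}
  let e : V₁ ⊕ V₁ → S ⊕ (V ⊕ V) := Sum.inr ∘ Sum.map Subtype.val Subtype.val
  have he : Function.Injective e :=
    Sum.inr_injective.comp (Subtype.val_injective.sumMap Subtype.val_injective)
  have re : ∀ w, w ∈ Set.range e ↔ w.isRight ∧ ¬ cb bS bV w ≤ c 0 := by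
    intro w
    constructor
    · rintro ⟨y | y, rfl⟩ <;> exact ⟨rfl, y.2⟩
    · rcases w with s | v | v
      · simp
      · exact fun p => ⟨.inl ⟨v, p.2⟩, rfl⟩
      · exact fun p => ⟨.inr ⟨v, p.2⟩, rfl⟩
  have eΔ : (o.matrix Γ δ t).submatrix e e =
      Γ.kz t (o.p.submatrix Subtype.val Subtype.val) (o.q.submatrix Subtype.val Subtype.val) := by
    ext (v | v) (v' | v')
    · rfl
    · rfl
    · simp [e, OD.matrix, DG.cone, DG.kz, Matrix.diagonal_apply, Subtype.ext_iff]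
    · rfl
  have edg : cdg dS dV ∘ e = kdg (dV ∘ Subtype.val) := by
    funext x; rcases x with v | v <;> rfl
  obtain ⟨α₀, β₀, eφ⟩ : ∃ α₀ β₀ : Matrix V₁ V₁ R,
      φ₀.submatrix e e = Matrix.fromBlocks α₀ β₀ 0 (α₀.map Γ.e) := by
    refine ⟨(φ₀.submatrix e e).submatrix .inl .inl, (φ₀.submatrix e e).submatrix .inl .inr, ?_⟩
    ext (v | v) (v' | v')
    · rfl
    · rfl
    · exact h₀.ev v.1 v'.1 v'.2
    · exact h₀.ee v.1 v'.1 v'.2
  have aφ : ∀ v v', α₀ v v' = φ₀ (.inr (.inl v.1)) (.inr (.inl v'.1)) := fun v v' =>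
    (congrFun (congrFun eφ (.inl v)) (.inl v')).symm
  have bφ : ∀ v v', β₀ v v' = φ₀ (.inr (.inl v.1)) (.inr (.inr v'.1)) := fun v v' =>
    (congrFun (congrFun eφ (.inl v)) (.inr v')).symm
  have hmΔ : Γ.HM (kdg (dV ∘ Subtype.val)) (kdg (dV ∘ Subtype.val)) (-1)
      ((o.matrix Γ δ t).submatrix e e) := edg ▸ fun w w' => go.hm (e w) (e w')
  have hmφ : Γ.HM (kdg (dV ∘ Subtype.val)) (kdg (dV ∘ Subtype.val)) 0 (φ₀.submatrix e e) :=
    edg ▸ fun w w' => h₀.hm (e w) (e w')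
  have mcΔ : Γ.dM ((o.matrix Γ δ t).submatrix e e) ((o.matrix Γ δ t).submatrix e e) = 0 := by
    rw [ph_dM_sub he, go.maurerCartan]
    · rfl
    · intro w x w' hx
      by_cases p : cb bS bV x ≤ c 0
      · exact Or.inr (ph_go_tri go _ _ _ p ((re _).1 ⟨w', rfl⟩).2)
      · exact Or.inl (ph_go_pi go (c 0) _ _ (Or.inl ((re _).1 ⟨w, rfl⟩).1)
          fun q => hx ((re x).2 ⟨by tauto, p⟩))
  have lt : ∀ v v' : V, (lv v : ℕ) < lv v' → bV v ≤ c (lv v) ∧ ¬ bV v' ≤ c (lv v) :=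
    fun v v' p => ⟨(hlv v _).1 le_rfl, fun q => absurd ((hlv v' _).2 q) (not_le.2 p)⟩
  obtain ⟨α, β, d, h₁, h₂, h₃, h₄, h₅, h₆⟩ := Γ.strictify_kz sat hI (dV := dV ∘ Subtype.val)
    (fun v : V₁ => (lv v.1 : ℕ)) (t := t) (p := o.p.submatrix Subtype.val Subtype.val)
    (q := o.q.submatrix Subtype.val Subtype.val) (α₀ := α₀) (β₀ := β₀) (eΔ ▸ hmΔ) (eΔ ▸ mcΔ)
    (fun v v' p => ⟨ph_go_tri go _ (.inr (.inl v.1)) (.inr (.inl v'.1)) (lt _ _ p).1 (lt _ _ p).2,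
      ph_go_tri go _ (.inr (.inl v.1)) (.inr (.inr v'.1)) (lt _ _ p).1 (lt _ _ p).2⟩)
    (eφ ▸ hmφ)
    (ph_one_iff.2 fun v v' => by
      rw [Matrix.map_apply, aφ]
      exact ⟨fun p => (ph_one_iff.1 h₀.ev1 _ _).1 (by rw [p]),
        fun p => (ph_one_iff.1 h₀.ev1 _ _).2 fun q => p (Subtype.ext (by simpa using q))⟩)
    (by
      ext v v'
      rw [Matrix.map_apply, bφ]
      exact (ph_one_iff.1 h₀.ev1 _ _).2 (by simp))
    (fun v v' p => by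
      rw [aφ, bφ]
      exact ⟨h₀.triangular _ _ _ (lt _ _ p).1 (lt _ _ p).2, h₀.triangular _ _ _ (lt _ _ p).1 (lt _ _ p).2⟩)
    (d₀ := Γ.sd ((o.matrix Γ δ t).submatrix e e) (φ₀.submatrix e e))
    (fun w r p => ph_sd_deg hmΔ hmφ w r p)
    (fun w r => by
      rw [← eΔ, ← eφ]
      have := resI (e w) (e r)
      rwa [← Matrix.submatrix_apply (Γ.res _ _) e e, ← ph_resV go h₀ he re] at this)
    (fun a => by
      have := (ex0_sub_iff' he fun s p => (re s).2 ⟨p.1, p.2.2⟩).2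
        (exk ⟨min a n, by omega⟩)
      rw [edg] at this
      rw [← eΔ]
      refine this.congr ?_
      rintro (v | v)
      · have := v.2
        have := (lv v.1).2
        simp only [e, cb, Function.comp, Sum.map_inl, Sum.elim_inr, Sum.elim_inl, ← hlv,
          Fin.le_def] at *
        simp; omega
      · have := v.2
        have := (lv v.1).2
        simp only [e, cb, Function.comp, Sum.map_inr, Sum.elim_inr, ← hlv, Fin.le_def] at *
        simp; omega)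
  obtain ⟨φ, p₁, p₂, p₃⟩ := ph_patch he φ₀ (Matrix.fromBlocks α β 0 (α.map Γ.e))
  have ev1 : (Matrix.fromBlocks α β 0 (α.map Γ.e)).map Γ.ev = 1 := by
    have : (α.map Γ.e).map Γ.ev = α.map Γ.ev := by ext a b; exact Γ.ev_e _
    rw [Matrix.fromBlocks_map, this, ph_one h₂, h₃, Matrix.map_zero _ (map_zero _),
      Matrix.fromBlocks_one]
  have nl : ∀ s, Sum.inl s ∉ Set.range e := fun s q => by simpa using ((re _).1 q).1
  have shuffle : Shp Γ dS dV bS bV c (c 0) φ := by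
    refine ⟨fun w w' => ?_, ph_one_iff.2 fun w w' => ?_, fun a w w' => ?_, fun x s' p => ?_,
      fun v v' p => ?_, fun v v' p => ?_⟩
    · refine p₃ (fun w w' x => Γ.IsHomogeneous (cdg dS dV w + 0 - cdg dS dV w') x) (fun w w' => h₀.hm w w')
        (fun a b => ?_) w w'
      rw [← edg] at h₁
      exact h₁ a b
    · exact p₃ (fun w w' x => (w = w' → Γ.ev x = 1) ∧ (w ≠ w' → Γ.ev x = 0))
        (ph_one_iff.1 h₀.ev1) (fun a b => ⟨fun q => (ph_one_iff.1 ev1 a b).1 (he q),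
          fun q => (ph_one_iff.1 ev1 a b).2 fun r => q (by rw [r])⟩) w w'
    · refine p₃ (fun w w' x => cb bS bV w ≤ c a → ¬ cb bS bV w' ≤ c a → x = 0) (h₀.triangular a)
        ?_ w w'
      have k : ∀ v v' : V₁, bV v.1 ≤ c a → ¬ bV v'.1 ≤ c a → α v v' = 0 ∧ β v v' = 0 :=
        fun v v' p q => h₄ v v' (lt_of_le_of_lt ((hlv _ _).2 p)
          (not_le.1 fun r => q ((hlv _ _).1 r)))
      rintro (v | v) (v' | v') p q
      · exact (k v v' p q).1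
      · exact (k v v' p q).2
      · rfl
      · exact (congrArg Γ.e (k v v' p q).1).trans (map_zero _)
    · rw [p₂ _ _ (Or.inr (nl s')), h₀.ps x s' p]
    · by_cases q : bV v ≤ c 0
      · rw [p₂ (.inr (.inr v)) _ (Or.inl fun r => ((re _).1 r).2 q), h₀.ev v v' p]
      · exact p₁ (.inr ⟨v, q⟩) (.inl ⟨v', p⟩)
    · by_cases q : bV v ≤ c 0
      · rw [p₂ (.inr (.inr v)) _ (Or.inl fun r => ((re _).1 r).2 q),
          p₂ (.inr (.inl v)) _ (Or.inl fun r => ((re _).1 r).2 q), h₀.ee v v' p]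
      · exact (p₁ (.inr ⟨v, q⟩) (.inr ⟨v', p⟩)).trans
          (congrArg Γ.e (p₁ (.inl ⟨v, q⟩) (.inl ⟨v', p⟩)).symm)
  refine ⟨φ, shuffle, fun w w' => ?_, fun s w => p₂ _ _ (Or.inl (nl s)), fun x x' p q => ?_⟩
  · refine p₃ (fun w w' x => x - φ₀ w w' ∈ I) (fun w w' => by simp) ?_ w w'
    intro a b
    rw [← Matrix.submatrix_apply φ₀ e e, eφ]
    rcases a with v | v <;> rcases b with v' | v'
    · exact (h₅ v v').1
    · exact (h₅ v v').2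
    · simp
    · have := hI.2 _ (h₅ v v').1
      rwa [Matrix.sub_apply, map_sub] at this
  · obtain ⟨a, ha⟩ := (re (.inr x)).2 ⟨rfl, p⟩
    obtain ⟨b, hb⟩ := (re (.inr x')).2 ⟨rfl, q⟩
    have eφ' : φ.submatrix e e = Matrix.fromBlocks α β 0 (α.map Γ.e) := by
      ext a b; exact p₁ a b
    rw [← ha, ← hb, ← Matrix.submatrix_apply (Γ.res _ _) e e, ← ph_resV go shuffle he re, eΔ, eφ',
      (DG.sd_eq (ph_one ev1) h₆).2, Matrix.zero_apply]

/-- Correction of an approximate strictification of a cone inside the ideal `I`. -/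
theorem phi_fix (sat : Γ.IsSaturated) {I : TwoSidedIdeal R} (hI : Γ.DI I) {n : ℕ} (c : Fin (n + 1) →o J)
    (hb : ∀ w, cb bS bV w ≤ c (Fin.last n)) {δ : Matrix S S R} {δ' : Matrix V V R'}
    {ψ' : Matrix S V R'} {t : K} {o : OD S V R} (go : GoodO Γ f dS dV bS bV δ δ' ψ' t o)
    {φ₀ : Matrix (S ⊕ (V ⊕ V)) (S ⊕ (V ⊕ V)) R} (h₀ : Shp Γ dS dV bS bV c (c 0) φ₀)
    (resI : ∀ w w', Γ.res (o.matrix Γ δ t) φ₀ w w' ∈ I)
    (resS : ∀ s s', ¬ bS s' ≤ c 0 → Γ.res (o.matrix Γ δ t) φ₀ (.inl s) (.inl s') = 0)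
    (ex₀ : Ex0 Γ.J (cdg dS dV) ((o.matrix Γ δ t).map Γ.ev) fun w => cb bS bV w ≤ c 0)
    (exk : ∀ a, Ex0 Γ.J (cdg dS dV) ((o.matrix Γ δ t).map Γ.ev)
      fun w => w.isRight ∧ cb bS bV w ≤ c a ∧ ¬ cb bS bV w ≤ c 0) :
    ∃ φ, Shp Γ dS dV bS bV c (c 0) φ ∧ Γ.res (o.matrix Γ δ t) φ = 0 ∧ (∀ w w', (φ - φ₀) w w' ∈ I) ∧
      ∀ s s', ¬ bS s' ≤ c 0 → φ (.inl s) (.inl s') = φ₀ (.inl s) (.inl s') := by
  obtain ⟨φ₁, h₁, i₁, l₁, r₁⟩ := ph_fix1 sat hI c hb go h₀ resI exk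
  have c0 : ∀ a, c 0 ≤ c a := fun a => c.monotone (Fin.zero_le a)
  obtain ⟨lv, hlv⟩ := ph_lev c (cb bS bV) hb
  have me : ∀ w, cb bS bV w ≤ c (lv w) := fun w => (hlv w _).1 le_rfl
  have rS : ∀ s s', ¬ bS s ≤ c 0 → ¬ bS s' ≤ c 0 →
      Γ.res (o.matrix Γ δ t) φ₁ (.inl s) (.inl s') = 0 := fun s s' p q => by
    have re : ∀ s, s ∈ Set.range (Subtype.val : {s : S // ¬ bS s ≤ c 0} → S) ↔ ¬ bS s ≤ c 0 :=
      fun s => by simp
    have e₁ := ph_resS go h₁ Subtype.val_injective re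
    have e₀ := ph_resS go h₀ Subtype.val_injective re
    have e : φ₁.submatrix (.inl ∘ (Subtype.val : {s : S // ¬ bS s ≤ c 0} → S))
        (.inl ∘ (Subtype.val : {s : S // ¬ bS s ≤ c 0} → S)) =
        φ₀.submatrix (.inl ∘ Subtype.val) (.inl ∘ Subtype.val) := by
      ext a b; exact l₁ _ _
    rw [e, e₀] at e₁
    exact (congrFun (congrFun e₁ ⟨s, p⟩) ⟨s', q⟩).symm.trans (resS s s' q)
  have clδ : ∀ w r r' : S ⊕ (V ⊕ V),
      (cb bS bV r ≤ c 0 ∨ (w.isLeft ∧ r.isRight ∧ cb bS bV r ≤ c (lv w))) →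
      o.matrix Γ δ t r r' ≠ 0 →
      cb bS bV r' ≤ c 0 ∨ (w.isLeft ∧ r'.isRight ∧ cb bS bV r' ≤ c (lv w)) := by
    intro w r r' p q
    by_contra k
    rcases p with p | ⟨p₁, p₂, p₃⟩
    · exact q (ph_go_tri go _ _ _ p (by tauto))
    · by_cases k' : cb bS bV r' ≤ c (lv w)
      · exact q (ph_go_pi go (c 0) _ _ (Or.inl p₂) (by tauto))
      · exact q (ph_go_tri go _ _ _ p₃ k')
  obtain ⟨φ, d, h₂, ev1, i₂, l₂, st⟩ := Γ.strictify sat hI (d₀ := Γ.sd (o.matrix Γ δ t) φ₁)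
    (fun w r => cb bS bV r ≤ c 0 ∨ (w.isLeft ∧ r.isRight ∧ cb bS bV r ≤ c (lv w)))
    go.hm go.maurerCartan h₁.hm (ph_one h₁.ev1) (ph_sd_deg go.hm h₁.hm)
    (fun w r r' p q => by
      rcases q with q | ⟨q₁, q₂, q₃⟩
      · exact Or.inl q
      · rcases p with p | ⟨p₁, p₂, p₃⟩
        · exact Or.inl (q₃.trans (c.monotone ((hlv _ _).2 p)))
        · cases r <;> simp at p₂ q₁)
    clδ
    (fun w r r' p q => by
      by_contra k
      rcases p with p | ⟨p₁, p₂, p₃⟩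
      · exact q (h₁.triangular 0 _ _ p (by tauto))
      · by_cases k' : cb bS bV r' ≤ c (lv w)
        · exact q (ph_shp_pi h₁ _ _ (Or.inl p₂) (by tauto))
        · exact q (h₁.triangular _ _ _ p₃ k'))
    (fun w r r' p q => by
      rcases q with q | ⟨q₁, q₂, q₃⟩
      · exact Or.inl q
      · by_cases k : cb bS bV r ≤ c 0
        · exact Or.inl (q₃.trans (c.monotone ((hlv _ _).2 k)))
        · refine Or.inr ⟨?_, q₂, q₃.trans (c.monotone ((hlv _ _).2 ?_))⟩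
          · by_contra k'
            refine p (DG.sd_tri (fun w => w.isRight ∨ cb bS bV w ≤ c 0) (ph_go_pi go _)
              (ph_shp_pi h₁) _ _ (Or.inl (by simpa using k')) ?_)
            cases r
            · simpa using k
            · simp at q₁
          · by_contra k'
            exact p (DG.sd_tri (fun x => cb bS bV x ≤ c (lv w)) (ph_go_tri go _) (h₁.triangular _) _ _
              (me w) k'))
    (ph_res_mem hI go.hm h₀.hm h₁.hm i₁ resI)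
    (fun w r p => by
      change Γ.res _ _ w r = 0
      have k : ¬ cb bS bV r ≤ c 0 := fun q => p (Or.inl q)
      by_cases k' : cb bS bV w ≤ c 0
      · exact ph_res_tri (fun x => cb bS bV x ≤ c 0) (ph_go_tri go _) (h₁.triangular _) _ _ k' k
      rcases w with s | x <;> rcases r with s' | x'
      · exact rS s s' k' k
      · exact ph_res_tri (fun x => cb bS bV x ≤ c (lv (.inl s))) (ph_go_tri go _) (h₁.triangular _) _ _
          (me _) fun q => p (Or.inr ⟨rfl, rfl, q⟩)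
      · exact ph_res_tri (fun w => w.isRight ∨ cb bS bV w ≤ c 0) (ph_go_pi go _)
          (ph_shp_pi h₁) _ _ (Or.inl rfl) (by simpa using k)
      · exact r₁ x x' k' k)
    (fun w => by
      refine Ex0.ext (π₁ := fun r => cb bS bV r ≤ c 0) (DG.HM.ev_eq_zero go.hm)
        (DG.ev_sq_mem go.hm go.maurerCartan) (fun s => Or.inl) (fun s r p q => ?_) (fun s r p q => ?_)
        ex₀ ?_
      · rw [Matrix.map_apply, not_not.1 fun k => q (clδ w s r p k), map_zero]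
      · rw [Matrix.map_apply, ph_go_tri go _ _ _ p q, map_zero]
      · rcases w with s | x
        · exact (exk (lv (.inl s))).congr fun r => by simp; tauto
        · exact (exk 0).congr fun r => by simp)
  refine ⟨φ, ⟨h₂, ph_one ev1, fun a w w' p q => ?_, fun x s' p => ?_, fun v v' p => ?_,
    fun v v' p => ?_⟩, (DG.sd_eq ev1 st).2, fun w w' => ?_, fun s s' p => ?_⟩
  · rw [l₂, h₁.triangular a w w' p q]
    rintro (k | ⟨-, -, k⟩)
    · exact q (k.trans (c0 a))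
    · exact q (k.trans (c.monotone ((hlv _ _).2 p)))
  · rw [l₂ _ _ (by simpa [cb] using p), h₁.ps x s' p]
  · rw [l₂ _ _ (by simpa [cb] using p), h₁.ev v v' p]
  · rw [l₂ _ _ (by simpa [cb] using p), l₂ _ _ (by simpa [cb] using p), h₁.ee v v' p]
  · have := I.add_mem (i₂ w w') (i₁ w w')
    rwa [← Matrix.add_apply, sub_add_sub_cancel] at this
  · rw [l₂ _ _ (by simpa [cb] using p), l₁]

theorem ph_res_neg {U : Type u} [Fintype U] {δ g : Matrix U U R} (g1 : g.map Γ.ev = 1)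
    (gs : Γ.res δ g = 0) : Γ.res (-δ.map Γ.e) (g.map Γ.e) = 0 := by
  have e₀ : (g.map Γ.e).map Γ.ev = g.map Γ.ev := by ext a b; exact Γ.ev_e _
  refine (DG.sd_eq (d := -Γ.sd δ g) (e₀.trans g1) ?_).2
  have e₁ : Γ.dM δ g = (Γ.sd δ g).map Γ.inc * g := sub_eq_zero.1 gs
  have e₂ : Γ.dM (-δ.map Γ.e) (g.map Γ.e) = -(Γ.dM δ g).map Γ.e := by
    have : (g.map Γ.e).map Γ.d = -(g.map Γ.d).map Γ.e := by ext a b; exact Γ.d_e _
    rw [DG.dM, DG.dM, this, Matrix.map_add _ (map_add Γ.e), Matrix.map_mul, Matrix.mul_neg,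
      neg_add]
  have e₃ : ((Γ.sd δ g).map Γ.inc).map Γ.e = (Γ.sd δ g).map Γ.inc := by
    ext a b; exact Γ.e_inc _
  rw [e₂, e₁, Matrix.map_mul, e₃, Matrix.map_neg _ (map_neg Γ.inc), Matrix.neg_mul]

end Alg

variable {A B : SimplicialRing.{u}} {J : Type u} [Preorder J] {n M : ℕ}

/-- Unipotent matrices with prescribed zeros extend from the boundary. -/
theorem ph_ext {U : Type u} {dg : U → ℤ} (Z : U → U → Prop) (hZ : ∀ w, ¬ Z w w)
    (φ : ∀ k, Bdy k M → Matrix U U (MooreDGA (A.cotensor k)))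
    (hm : ∀ k θ, (dgC A k).HM dg dg 0 (φ k θ)) (ev1 : ∀ k θ, (φ k θ).map (dgC A k).ev = 1)
    (triangular : ∀ k θ w w', Z w w' → φ k θ w w' = 0)
    (nat : ∀ {l k : ℕ} (θ : Bdy k M) (η : SimplexHom l k), (φ k θ).map (A.rs η) = φ l (θ.comp η)) :
    ∃ φ' : Matrix U U (MooreDGA (A.cotensor M)), (dgC A M).HM dg dg 0 φ' ∧ φ'.map (dgC A M).ev = 1 ∧
      (∀ w w', Z w w' → φ' w w' = 0) ∧ ∀ k (θ : Bdy k M), φ'.map (A.rs θ.1) = φ k θ := by
  have h1 : ∀ k w w', (dgC A k).IsHomogeneous (dg w + 0 - dg w') ((1 : Matrix U U (MooreDGA (A.cotensor k))) w w') :=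
    fun k w w' => by
    by_cases e : w = w'
    · rw [e, Matrix.one_apply_eq]
      exact (dgC A k).hg_cast (dgC A k).hg_one (by omega)
    · rw [Matrix.one_apply_ne e]
      exact (dgC A k).hg_zero _
  have h2 : ∀ w w', Z w w' → ∀ k, (1 : Matrix U U (MooreDGA (A.cotensor k))) w w' = 0 := fun w w' p k =>
    Matrix.one_apply_ne fun e => hZ w' (e ▸ p)
  have h3 : ∀ {l k : ℕ} (η : SimplexHom l k), (1 : Matrix U U (MooreDGA (A.cotensor k))).map (A.rs η) = 1 :=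
    fun η => Matrix.map_one _ (map_zero _) (map_one _)
  have h4 : ∀ k, (1 : Matrix U U (MooreDGA (A.cotensor k))).map (dgC A k).ev = 1 :=
    fun k => Matrix.map_one _ (map_zero _) (map_one _)
  obtain ⟨y, hy, ry⟩ := SimplicialRing.chain_extend (SimplicialRing.Hom.id A) (ι := U × U)
    (fun i => dg i.1 + 0 - dg i.2) (fun i => dg i.1 + 0 - dg i.2 = 0 ∨ Z i.1 i.2)
    (fun _ => False) (fun i => Or.inl) (fun k θ i => (φ k θ - 1) i.1 i.2)
    (fun k θ i => by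
      have q := (dgC A k).hg_sub (hm k θ i.1 i.2) (h1 k i.1 i.2)
      refine ⟨q, ?_, False.elim⟩
      rintro (p | p)
      · have e : (φ k θ - 1).map (dgC A k).ev = 0 := by
          rw [Matrix.map_sub _ (map_sub _), ev1, h4, sub_self]
        have e' := (dgC A k).inc_ev ((dgC A k).hg_cast q p)
        exact e'.symm.trans ((congrArg (dgC A k).inc (congrFun (congrFun e i.1) i.2)).trans
          (map_zero _))
      · rw [Matrix.sub_apply, triangular k θ _ _ p, h2 _ _ p, sub_self])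
    (fun {l k} θ η i => by
      rw [← nat θ η, ← h3 η, ← Matrix.map_sub _ (map_sub _), Matrix.map_apply])
  refine ⟨Matrix.of (fun w w' => y (w, w')) + 1, fun w w' => (dgC A M).hg_add (hy (w, w')).1
    (h1 M w w'), ?_, fun w w' p => ?_, fun k θ => ?_⟩
  · have e : (Matrix.of fun w w' => y (w, w')).map (dgC A M).ev = 0 := by
      ext w w'
      by_cases p : dg w + 0 - dg w' = 0
      · exact (congrArg (dgC A M).ev ((hy (w, w')).2.1 (Or.inl p))).trans (map_zero _)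
      · exact (dgC A M).ev_pos p (hy (w, w')).1
    rw [Matrix.map_add _ (map_add _), e, h4, zero_add]
  · rw [Matrix.add_apply, h2 _ _ p, add_zero]
    exact (hy (w, w')).2.1 (Or.inr p)
  · rw [Matrix.map_add _ (map_add _), h3, ← eq_sub_iff_add_eq]
    exact Matrix.ext fun w w' => ry k θ (w, w')

theorem ph_res_bdI {U : Type u} [Fintype U] {δ φ' : Matrix U U (MooreDGA (A.cotensor M))}
    {φ : ∀ k, Bdy k M → Matrix U U (MooreDGA (A.cotensor k))}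
    (st : ∀ k (θ : Bdy k M), (dgC A k).res (δ.map (A.rs θ.1)) (φ k θ) = 0)
    (h : ∀ k (θ : Bdy k M), φ'.map (A.rs θ.1) = φ k θ) (w w' : U) :
    (dgC A M).res δ φ' w w' ∈ A.bdI M :=
  (A.mem_bdI M _).2 fun k θ => by
    rw [← Matrix.map_apply (f := A.rs θ.1), ← (A.isHom_rs θ.1).res, h, st, Matrix.zero_apply]

theorem ph_bd_eq {U : Type u} {φ₀ φ₁ : Matrix U U (MooreDGA (A.cotensor M))}
    (h : ∀ w w', (φ₁ - φ₀) w w' ∈ A.bdI M) {k : ℕ} (θ : Bdy k M) :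
    φ₁.map (A.rs θ.1) = φ₀.map (A.rs θ.1) := by
  refine Matrix.ext fun w w' => ?_
  have := (A.mem_bdI M _).1 (h w w') k θ
  rwa [Matrix.sub_apply, map_sub, sub_eq_zero] at this

/-- Filtered strictifications extend. -/
theorem str_extend (sat : A.IsSaturated) {U : Type u} [Fintype U] {dg : U → ℤ} {b : U → J}
    (c : Fin (n + 1) →o J) (hb : ∀ w, b w ≤ c (Fin.last n)) {δ : Matrix U U (MooreDGA (A.cotensor M))}
    (hδ : (dgC A M).HM dg dg (-1) δ) (maurerCartan : (dgC A M).dM δ δ = 0)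
    (tδ : ∀ w w', ¬ b w' ≤ b w → δ w w' = 0)
    (ex : ∀ a, Ex0 (dgC A M).J dg (δ.map (dgC A M).ev) fun w => b w ≤ c a)
    (φ : ∀ k, Bdy k M → Matrix U U (MooreDGA (A.cotensor k)))
    (hm : ∀ k θ, (dgC A k).HM dg dg 0 (φ k θ)) (ev1 : ∀ k θ, (φ k θ).map (dgC A k).ev = 1)
    (triangular : ∀ k θ a w w', b w ≤ c a → ¬ b w' ≤ c a → φ k θ w w' = 0)
    (st : ∀ k (θ : Bdy k M), (dgC A k).res (δ.map (A.rs θ.1)) (φ k θ) = 0)
    (nat : ∀ {l k : ℕ} (θ : Bdy k M) (η : SimplexHom l k), (φ k θ).map (A.rs η) = φ l (θ.comp η)) :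
    ∃ φ' : Matrix U U (MooreDGA (A.cotensor M)), (dgC A M).HM dg dg 0 φ' ∧ φ'.map (dgC A M).ev = 1 ∧
      (∀ a w w', b w ≤ c a → ¬ b w' ≤ c a → φ' w w' = 0) ∧ (dgC A M).res δ φ' = 0 ∧
      ∀ k (θ : Bdy k M), φ'.map (A.rs θ.1) = φ k θ := by
  obtain ⟨φ₀, h₀, e₀, t₀, r₀⟩ := ph_ext (fun w w' => ∃ a, b w ≤ c a ∧ ¬ b w' ≤ c a)
    (fun w ⟨_, p, q⟩ => q p) φ hm ev1 (fun k θ w w' ⟨a, p, q⟩ => triangular k θ a w w' p q) nat
  obtain ⟨lv, hlv⟩ := ph_lev c b hb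
  have me : ∀ w, b w ≤ c (lv w) := fun w => (hlv w _).1 le_rfl
  have tδ' : ∀ (j : J) w w', b w ≤ j → ¬ b w' ≤ j → δ w w' = 0 := fun j w w' p q =>
    tδ w w' fun e => q (e.trans p)
  obtain ⟨φ', d, h₂, e₂, i₂, l₂, s₂⟩ := (dgC A M).strictify (sat.dgC M) (A.di_bdI M)
    (d₀ := (dgC A M).sd δ φ₀) (fun w r => b r ≤ c (lv w)) hδ maurerCartan h₀ e₀ (ph_sd_deg hδ h₀)
    (fun w r r' p q => q.trans (c.monotone ((hlv _ _).2 p)))
    (fun w r r' p q => not_not.1 fun k => q (tδ' _ _ _ p k))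
    (fun w r r' p q => not_not.1 fun k => q (t₀ _ _ ⟨_, p, k⟩))
    (fun w r r' p q => q.trans (c.monotone ((hlv _ _).2 (not_not.1 fun k => p
      (DG.sd_tri (fun x => b x ≤ c (lv w)) (tδ' _) (fun x x' p q => t₀ _ _ ⟨_, p, q⟩) _ _
        (me w) k)))))
    (ph_res_bdI st r₀)
    (fun w r p => ph_res_tri (fun x => b x ≤ c (lv w)) (tδ' _)
      (fun x x' p q => t₀ _ _ ⟨_, p, q⟩) _ _ (me w) p)
    (fun w => ex (lv w))
  refine ⟨φ', h₂, e₂, fun a w w' p q => ?_, (DG.sd_eq e₂ s₂).2,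
    fun k θ => (ph_bd_eq i₂ θ).trans (r₀ k θ)⟩
  rw [l₂ _ _ fun k => q (k.trans (c.monotone ((hlv _ _).2 p))), t₀ _ _ ⟨a, p, q⟩]

/-- Strictifications of a cone extend, with the block of the cells `S₁` (those of `S` that are not
born before `c 0`) prescribed. -/
theorem phi_extend (sat : A.IsSaturated) {R' : Type u} [Ring R'] {f : MooreDGA (A.cotensor M) →+* R'}
    {S V S₁ : Type u} [Fintype S] [Fintype V] [Fintype S₁] {dS : S → ℤ} {dV : V → ℤ} {bS : S → J}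
    {bV : V → J} (c : Fin (n + 1) →o J) (hb : ∀ w, cb bS bV w ≤ c (Fin.last n))
    {δ : Matrix S S (MooreDGA (A.cotensor M))} {δ' : Matrix V V R'} {ψ' : Matrix S V R'} {t : A.obj M}
    {o : OD S V (MooreDGA (A.cotensor M))} (go : GoodO (dgC A M) f dS dV bS bV δ δ' ψ' t o)
    (ex₀ : Ex0 (dgC A M).J (cdg dS dV) ((o.matrix (dgC A M) δ t).map (dgC A M).ev)
      fun w => cb bS bV w ≤ c 0)
    (exk : ∀ a, Ex0 (dgC A M).J (cdg dS dV) ((o.matrix (dgC A M) δ t).map (dgC A M).ev)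
      fun w => w.isRight ∧ cb bS bV w ≤ c a ∧ ¬ cb bS bV w ≤ c 0)
    {e : S₁ → S} (he : Function.Injective e) (re : ∀ s, s ∈ Set.range e ↔ ¬ bS s ≤ c 0)
    {g : Matrix S₁ S₁ (MooreDGA (A.cotensor M))} (homogeneous : (dgC A M).HM (dS ∘ e) (dS ∘ e) 0 g)
    (g1 : g.map (dgC A M).ev = 1)
    (gt : ∀ a s s', bS (e s) ≤ c a → ¬ bS (e s') ≤ c a → g s s' = 0)
    (gs : (dgC A M).res (δ.submatrix e e) g = 0)
    (φ : ∀ k, Bdy k M → Matrix (S ⊕ (V ⊕ V)) (S ⊕ (V ⊕ V)) (MooreDGA (A.cotensor k)))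
    (shuffle : ∀ k θ, Shp (dgC A k) dS dV bS bV c (c 0) (φ k θ))
    (st : ∀ k (θ : Bdy k M), (dgC A k).res ((o.matrix (dgC A M) δ t).map (A.rs θ.1)) (φ k θ) = 0)
    (gg : ∀ k (θ : Bdy k M) s s', φ k θ (.inl (e s)) (.inl (e s')) = MooreDGA.sign (A.rs θ.1 (g s s')))
    (nat : ∀ {l k : ℕ} (θ : Bdy k M) (η : SimplexHom l k), (φ k θ).map (A.rs η) = φ l (θ.comp η)) :
    ∃ φ', Shp (dgC A M) dS dV bS bV c (c 0) φ' ∧ (dgC A M).res (o.matrix (dgC A M) δ t) φ' = 0 ∧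
      (∀ s s', φ' (.inl (e s)) (.inl (e s')) = MooreDGA.sign (g s s')) ∧
      ∀ k (θ : Bdy k M), φ'.map (A.rs θ.1) = φ k θ := by
  let Z : S ⊕ (V ⊕ V) → S ⊕ (V ⊕ V) → Prop := fun w w' =>
    (∃ a, cb bS bV w ≤ c a ∧ ¬ cb bS bV w' ≤ c a) ∨
      (∃ x s', w = .inr x ∧ w' = .inl s' ∧ ¬ bS s' ≤ c 0) ∨
      ∃ v v', w = .inr (.inr v) ∧ w' = .inr (.inl v') ∧ ¬ bV v' ≤ c 0
  obtain ⟨φ₀, h₀, e₀, t₀, r₀⟩ := ph_ext (dg := cdg dS dV) Z
    (by
      rintro w (⟨_, p, q⟩ | ⟨x, s', rfl, q, -⟩ | ⟨v, v', rfl, q, -⟩)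
      · exact q p
      · simp at q
      · simp at q)
    φ (fun k θ => (shuffle k θ).hm) (fun k θ => ph_one (shuffle k θ).ev1)
    (by
      rintro k θ w w' (⟨a, p, q⟩ | ⟨x, s', rfl, rfl, q⟩ | ⟨v, v', rfl, rfl, q⟩)
      · exact (shuffle k θ).triangular a w w' p q
      · exact (shuffle k θ).ps x s' q
      · exact (shuffle k θ).ev v v' q) nat
  let Q : S ⊕ (V ⊕ V) → S ⊕ (V ⊕ V) → MooreDGA (A.cotensor M) → Prop := fun w w' x =>
    (dgC A M).IsHomogeneous (cdg dS dV w + 0 - cdg dS dV w') x ∧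
      ((w = w' → (dgC A M).ev x = 1) ∧ (w ≠ w' → (dgC A M).ev x = 0)) ∧ (Z w w' → x = 0) ∧
      ∀ k (θ : Bdy k M), A.rs θ.1 x = φ k θ w w'
  have Q₀ : ∀ w w', Q w w' (φ₀ w w') := fun w w' =>
    ⟨h₀ w w', ph_one_iff.1 e₀ w w', t₀ w w', fun k θ => congrFun (congrFun (r₀ k θ) w) w'⟩
  obtain ⟨φ₁, a₁, b₁, c₁⟩ := ph_patch
    (e := fun v : {v : V // ¬ bV v ≤ c 0} => (.inr (.inr v.1) : S ⊕ (V ⊕ V)))
    (fun v v' p => Subtype.ext (by simpa using p)) φ₀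
    (Matrix.of fun v v' => (dgC A M).e (φ₀ (.inr (.inl v.1)) (.inr (.inl v'.1))))
  have Q₁ : ∀ w w', Q w w' (φ₁ w w') := c₁ Q Q₀ fun v v' => by
    obtain ⟨q₁, q₂, q₃, q₄⟩ := Q₀ (.inr (.inl v.1)) (.inr (.inl v'.1))
    refine ⟨(dgC A M).hg_cast ((dgC A M).hg_e q₁) (by simp [cdg, kdg]), ?_, ?_, fun k θ => ?_⟩
    · rw [Matrix.of_apply, (dgC A M).ev_e]
      simpa using q₂
    · rintro (p | ⟨x, s', -, q, -⟩ | ⟨x, x', -, q, -⟩)
      · rw [Matrix.of_apply, q₃ (Or.inl p), map_zero]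
      · simp at q
      · simp at q
    · rw [Matrix.of_apply, (A.isHom_rs θ.1).e, q₄, (shuffle k θ).ee _ _ v'.2]
  obtain ⟨φ₂, a₂, b₂, c₂⟩ := ph_patch (e := (.inl ∘ e : S₁ → S ⊕ (V ⊕ V)))
    (Sum.inl_injective.comp he) φ₁ (g.map (dgC A M).e)
  have Q₂ : ∀ w w', Q w w' (φ₂ w w') := c₂ Q Q₁ fun s s' => by
    refine ⟨(dgC A M).hg_cast ((dgC A M).hg_e (homogeneous s s')) (by simp [cdg]), ?_, ?_, fun k θ => ?_⟩
    · rw [Matrix.map_apply, (dgC A M).ev_e]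
      simpa [he.eq_iff] using ph_one_iff.1 g1 s s'
    · rintro (⟨a, p, q⟩ | ⟨x, s', q, -⟩ | ⟨x, x', q, -⟩)
      · rw [Matrix.map_apply, gt a s s' p q, map_zero]
      · simp at q
      · simp at q
    · rw [Matrix.map_apply, (A.isHom_rs θ.1).e]
      exact (gg k θ s s').symm
  have nr : ∀ x : V ⊕ V, Sum.inr x ∉ Set.range (.inl ∘ e : S₁ → S ⊕ (V ⊕ V)) := by simp
  have h₂ : Shp (dgC A M) dS dV bS bV c (c 0) φ₂ := by
    refine ⟨fun w w' => (Q₂ w w').1, ph_one_iff.2 fun w w' => (Q₂ w w').2.1,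
      fun a w w' p q => (Q₂ w w').2.2.1 (Or.inl ⟨a, p, q⟩),
      fun x s' p => (Q₂ _ _).2.2.1 (Or.inr (Or.inl ⟨x, s', rfl, rfl, p⟩)),
      fun v v' p => (Q₂ _ _).2.2.1 (Or.inr (Or.inr ⟨v, v', rfl, rfl, p⟩)), fun v v' p => ?_⟩
    by_cases q : bV v ≤ c 0
    · rw [(Q₂ (.inr (.inr v)) (.inr (.inr v'))).2.2.1 (Or.inl ⟨0, q, p⟩),
        (Q₂ (.inr (.inl v)) (.inr (.inl v'))).2.2.1 (Or.inl ⟨0, q, p⟩), map_zero]
    · rw [b₂ _ _ (Or.inl (nr _)), b₂ _ _ (Or.inl (nr _)), b₁ (.inr (.inl v)) _ (Or.inl (by simp))]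
      exact a₁ ⟨v, q⟩ ⟨v', p⟩
  have r₂ : ∀ k (θ : Bdy k M), φ₂.map (A.rs θ.1) = φ k θ := fun k θ =>
    Matrix.ext fun w w' => (Q₂ w w').2.2.2 k θ
  obtain ⟨φ', s₁, s₂, s₃, s₄⟩ := phi_fix (sat.dgC M) (A.di_bdI M) c hb go h₂ (ph_res_bdI st r₂)
    (fun s s' p => by
      by_cases q : bS s ≤ c 0
      · exact ph_res_tri (fun x => cb bS bV x ≤ c 0) (ph_go_tri go _) (h₂.triangular _) _ _ q p
      · obtain ⟨s, rfl⟩ := (re s).2 q
        obtain ⟨s', rfl⟩ := (re s').2 p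
        have e₁ := ph_resS go h₂ he re
        have e₂ : φ₂.submatrix (.inl ∘ e) (.inl ∘ e) = g.map (dgC A M).e :=
          Matrix.ext a₂
        rw [e₂] at e₁
        exact (congrFun (congrFun e₁ s) s').symm.trans
          (congrFun (congrFun (ph_res_neg g1 gs) s) s')) ex₀ exk
  exact ⟨φ', s₁, s₂, fun s s' => (s₄ _ _ ((re _).1 ⟨s', rfl⟩)).trans (a₂ s s'),
    fun k θ => (ph_bd_eq s₃ θ).trans (r₂ k θ)⟩

end Pool.Agent.P.MP_932208_ag
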