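import Pool.Agent.P.MP_932208_ag.Basic

/-!
The shuffle (Eilenberg-Zilber) product on the chains of a simplicial commutative ring.
-/

namespace Pool.Agent.P.MP_932208_ag

universe u

theorem plus_mono {k n : ℕ} (θ : SimplexHom k n) :
    Monotone (fun i : Fin (k + 2) => (Fin.cases 0 (fun a => (θ a).succ) i : Fin (n + 2))) := by
  intro a b hab
  rcases Fin.eq_zero_or_eq_succ a with rfl | ⟨a, rfl⟩
  · simp
  · rcases Fin.eq_zero_or_eq_succ b with rfl | ⟨b, rfl⟩
    · exact absurd hab (by simp)
    · simp only [Fin.cases_succ, Fin.succ_le_succ_iff] at hab ⊢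
      exact θ.monotone hab

/-- The operator `[k+1] → [n+1]` that fixes `0` and acts as `θ` on the other vertices. -/
def plus {k n : ℕ} (θ : SimplexHom k n) : SimplexHom (k + 1) (n + 1) :=
  ⟨fun i => Fin.cases 0 (fun a => (θ a).succ) i, plus_mono θ⟩

@[simp] theorem plus_zero {k n : ℕ} (θ : SimplexHom k n) : plus θ 0 = 0 := rfl
@[simp] theorem plus_succ {k n : ℕ} (θ : SimplexHom k n) (a : Fin (k + 1)) :
    plus θ a.succ = (θ a).succ := rfl

theorem plus_id (n : ℕ) : plus (OrderHom.id : SimplexHom n n) = OrderHom.id := by
  ext i; rcases Fin.eq_zero_or_eq_succ i with rfl | ⟨a, rfl⟩ <;> simp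

theorem plus_comp {l k n : ℕ} (θ : SimplexHom k n) (η : SimplexHom l k) :
    (plus θ).comp (plus η) = plus (θ.comp η) := by
  ext i; rcases Fin.eq_zero_or_eq_succ i with rfl | ⟨a, rfl⟩ <;> simp

theorem SimplicialRing.dec_id (A : SimplicialRing.{u}) (n : ℕ) :
    RingId (A.map (plus (OrderHom.id : SimplexHom n n))) := fun x => by rw [plus_id, A.map_id]

theorem SimplicialRing.dec_comp (A : SimplicialRing.{u}) {l k n : ℕ} (θ : SimplexHom k n) (η : SimplexHom l k) :
    RingComp (A.map (plus η)) (A.map (plus θ)) (A.map (plus (θ.comp η))) := fun x => by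
  rw [A.map_comp, plus_comp]

/-- The decalage of `A`: `n ↦ A_{n+1}`, forgetting the zeroth face and degeneracy. -/
@[reducible] def SimplicialRing.decalage (A : SimplicialRing.{u}) : SimplicialRing.{u} where
  obj n := A.obj (n + 1)
  map θ := A.map (plus θ)
  map_id := A.dec_id
  map_comp := A.dec_comp

/-- Chains of `A`: one simplex in every degree. -/
def Chains (A : SimplicialRing.{u}) : Type u := ∀ n, A.obj n

instance (A : SimplicialRing.{u}) : AddCommGroup (Chains A) := Pi.addCommGroup

/-- The components of positive degree, as a chain of the decalage. -/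
def Chains.tail {A : SimplicialRing.{u}} (x : Chains A) : Chains A.decalage := fun n => x (n + 1)

/-- The zeroth degeneracy of a chain, as a chain of the decalage. -/
def Chains.degenZero {A : SimplicialRing.{u}} (x : Chains A) : Chains A.decalage := fun n => ringApp (A.map (degen 0)) (x n)

/-- The sign `(-1)^degree`. -/
def Chains.sgn {A : SimplicialRing.{u}} (x : Chains A) : Chains A := fun n => (-1) ^ n * x n

/-- The degree `n` component of the shuffle product, by recursion on the first step of the
shuffle: a `(p,q)`-shuffle starts either in the first factor, or in the second one, with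
sign `(-1)^p`. -/
def shuffle : ∀ (n : ℕ) (A : SimplicialRing.{u}), Chains A → Chains A → A.obj n
  | 0, _, x, y => x 0 * y 0
  | n + 1, A, x, y => shuffle n A.decalage x.tail y.degenZero + shuffle n A.decalage x.sgn.degenZero y.tail

/-- The chain of degree zero with component `a`. -/
def Chains.deg0 {A : SimplicialRing.{u}} (a : A.obj 0) : Chains A
  | 0 => a
  | _ + 1 => 0

instance (A : SimplicialRing.{u}) : Mul (Chains A) := ⟨fun x y n => shuffle n A x y⟩
instance (A : SimplicialRing.{u}) : One (Chains A) := ⟨Chains.deg0 1⟩

/-- The differential: the zeroth face. -/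
def Chains.boundary {A : SimplicialRing.{u}} (x : Chains A) : Chains A := fun n => ringApp (A.map (face 0)) (x (n + 1))

/-- A chain all of whose components are Moore chains. -/
def Chains.IsMoore {A : SimplicialRing.{u}} (x : Chains A) : Prop := ∀ n, A.ab.Moore (x n)

/-- The image of a chain under a map of simplicial rings. -/
def Chains.image {A B : SimplicialRing.{u}} (f : A.Hom B) (x : Chains A) : Chains B := fun n => ringApp (f.app n) (x n)

end Pool.Agent.P.MP_932208_ag
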