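import Pool.Agent.P.MP_932208_ag.Shuffle

/-!
The ring axioms for the shuffle product.
-/

namespace Pool.Agent.P.MP_932208_ag

universe u

namespace Chains
variable {A : SimplicialRing.{u}}

@[ext] theorem ext {x y : Chains A} (h : ∀ n, x n = y n) : x = y := funext h
theorem mul_def (x y : Chains A) (n : ℕ) : (x * y) n = shuffle n A x y := rfl
@[simp] theorem add_apply (x y : Chains A) (n : ℕ) : (x + y) n = x n + y n := rfl
@[simp] theorem neg_apply (x : Chains A) (n : ℕ) : (-x) n = -x n := rfl
@[simp] theorem sub_apply (x y : Chains A) (n : ℕ) : (x - y) n = x n - y n := rfl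
@[simp] theorem zero_apply (n : ℕ) : (0 : Chains A) n = 0 := rfl
theorem mul_zero_apply (x y : Chains A) : (x * y) 0 = x 0 * y 0 := rfl
theorem tail_mul (x y : Chains A) : (x * y).tail = x.tail * y.degenZero + x.sgn.degenZero * y.tail := rfl
theorem tail_add (x y : Chains A) : (x + y).tail = x.tail + y.tail := rfl
theorem tail_neg (x : Chains A) : (-x).tail = -x.tail := rfl
theorem tail_zero : (0 : Chains A).tail = 0 := rfl
theorem sz_add (x y : Chains A) : (x + y).degenZero = x.degenZero + y.degenZero := by ext n; simp [degenZero]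
theorem sz_neg (x : Chains A) : (-x).degenZero = -x.degenZero := by ext n; simp [degenZero]
theorem sz_zero : (0 : Chains A).degenZero = 0 := by ext n; simp [degenZero]
theorem sgn_add (x y : Chains A) : (x + y).sgn = x.sgn + y.sgn := by ext n; simp [sgn, mul_add]
theorem sgn_neg (x : Chains A) : (-x).sgn = -x.sgn := by ext n; simp [sgn]
theorem sgn_zero : (0 : Chains A).sgn = 0 := by ext n; simp [sgn]
theorem sgn_sgn (x : Chains A) : x.sgn.sgn = x := by
  ext n; simp [sgn, ← mul_assoc, ← mul_pow]
theorem tail_sgn (x : Chains A) : x.sgn.tail = -x.tail.sgn := by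
  ext n; simp [sgn, tail, pow_succ]
theorem sz_sgn (x : Chains A) : x.sgn.degenZero = x.degenZero.sgn := by
  ext n; simp [sgn, degenZero]

theorem ext' {x y : Chains A} (h0 : x 0 = y 0) (h : x.tail = y.tail) : x = y := by
  ext n; cases n with
  | zero => exact h0
  | succ n => exact congrFun h n

theorem sh_add_left (n : ℕ) : ∀ (A : SimplicialRing.{u}) (x x' y : Chains A),
    shuffle n A (x + x') y = shuffle n A x y + shuffle n A x' y := by
  induction n with
  | zero => intro A x x' y; simp [shuffle, add_mul]
  | succ n ih =>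
    intro A x x' y
    simp only [shuffle, tail_add, sgn_add, sz_add, ih]; abel

theorem sh_add_right (n : ℕ) : ∀ (A : SimplicialRing.{u}) (x y y' : Chains A),
    shuffle n A x (y + y') = shuffle n A x y + shuffle n A x y' := by
  induction n with
  | zero => intro A x x' y; simp [shuffle, mul_add]
  | succ n ih =>
    intro A x x' y
    simp only [shuffle, tail_add, sz_add, ih]; abel

theorem add_mul' (x x' y : Chains A) : (x + x') * y = x * y + x' * y :=
  ext fun n => sh_add_left n A x x' y
theorem mul_add' (x y y' : Chains A) : x * (y + y') = x * y + x * y' :=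
  ext fun n => sh_add_right n A x y y'
theorem zero_mul' (y : Chains A) : 0 * y = 0 := by
  have h := add_mul' 0 0 y
  rw [add_zero] at h
  exact left_eq_add.mp h
theorem mul_zero' (y : Chains A) : y * 0 = 0 := by
  have h := mul_add' y 0 0
  rw [add_zero] at h
  exact left_eq_add.mp h
theorem neg_mul' (x y : Chains A) : -x * y = -(x * y) := by
  rw [eq_neg_iff_add_eq_zero, ← add_mul', neg_add_cancel, zero_mul']
theorem mul_neg' (x y : Chains A) : x * -y = -(x * y) := by
  rw [eq_neg_iff_add_eq_zero, ← mul_add', neg_add_cancel, mul_zero']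

theorem sgn_sh (n : ℕ) : ∀ (A : SimplicialRing.{u}) (x y : Chains A),
    (x * y).sgn n = (x.sgn * y.sgn) n := by
  induction n with
  | zero => intro A x y; simp [sgn, mul_zero_apply]
  | succ n ih =>
    intro A x y
    have h1 : (x * y).sgn (n + 1) = (x * y).sgn.tail n := rfl
    have h2 : (x.sgn * y.sgn) (n + 1) = (x.sgn * y.sgn).tail n := rfl
    rw [h1, h2, tail_sgn, tail_mul, tail_mul, sgn_add, tail_sgn, tail_sgn, neg_mul', mul_neg',
      neg_apply, add_apply, ih, ih, sz_sgn y, sz_sgn x.sgn]
    simp only [add_apply, neg_apply]; abel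

theorem sgn_mul (x y : Chains A) : (x * y).sgn = x.sgn * y.sgn := ext fun n => sgn_sh n A x y

end Chains

/-- A family of ring maps that commutes with the operators fixing the vertex `0`. -/
structure BasedHom (A B : SimplicialRing.{u}) where
  app : ∀ n, A.obj n →+* B.obj n
  nat : ∀ {k n : ℕ} (θ : SimplexHom k n), θ 0 = 0 → ∀ x, app k (A.map θ x) = B.map θ (app n x)

/-- Apply a based map to a chain. -/
def BasedHom.chart {A B : SimplicialRing.{u}} (f : BasedHom A B) (x : Chains A) : Chains B := fun n => f.app n (x n)

/-- The decalage of a based map. -/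
def BasedHom.decalage {A B : SimplicialRing.{u}} (f : BasedHom A B) : BasedHom A.decalage B.decalage where
  app n := f.app (n + 1)
  nat θ _ x := f.nat (plus θ) rfl x

theorem degen_zero_zero (n : ℕ) : (degen 0 : SimplexHom (n + 1) n) 0 = 0 := by
  simp [degen]

theorem degen_zero_succ {n : ℕ} (a : Fin (n + 1)) : (degen 0 : SimplexHom (n + 1) n) a.succ = a := by
  simp [degen]

theorem BasedHom.ch_sh (n : ℕ) : ∀ {A B : SimplicialRing.{u}} (f : BasedHom A B) (x y : Chains A),
    f.app n (shuffle n A x y) = shuffle n B (f.chart x) (f.chart y) := by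
  induction n with
  | zero => intro A B f x y; simp [shuffle, BasedHom.chart]
  | succ n ih =>
    intro A B f x y
    have h1 : ∀ z : Chains A, f.decalage.chart z.degenZero = (f.chart z).degenZero := fun z =>
      Chains.ext fun k => f.nat (degen 0) (degen_zero_zero k) _
    have h2 : f.chart x.sgn = (f.chart x).sgn := Chains.ext fun k => by simp [BasedHom.chart, Chains.sgn]
    have h3 := ih f.decalage x.tail y.degenZero
    have h4 := ih f.decalage x.sgn.degenZero y.tail
    rw [h1] at h3 h4
    rw [h2] at h4
    simp only [shuffle, map_add]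
    exact congrArg₂ (· + ·) h3 h4

theorem BasedHom.ch_mul {A B : SimplicialRing.{u}} (f : BasedHom A B) (x y : Chains A) :
    f.chart (x * y) = f.chart x * f.chart y := Chains.ext fun n => f.ch_sh n x y

/-- The zeroth degeneracy as a based map into the decalage. -/
def SimplicialRing.szHom (A : SimplicialRing.{u}) : BasedHom A A.decalage where
  app n := A.map (degen 0)
  nat θ h x := by
    change A.map _ (A.map _ x) = A.map _ (A.map _ x)
    rw [A.map_comp, A.map_comp]
    congr 2
    ext i
    rcases Fin.eq_zero_or_eq_succ i with rfl | ⟨a, rfl⟩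
    · simp [degen_zero_zero, h]
    · simp [degen_zero_succ]

namespace Chains
variable {A : SimplicialRing.{u}}

theorem sz_mul (x y : Chains A) : (x * y).degenZero = x.degenZero * y.degenZero := A.szHom.ch_mul x y

theorem sh_assoc (n : ℕ) : ∀ (A : SimplicialRing.{u}) (x y z : Chains A),
    (x * y * z) n = (x * (y * z)) n := by
  induction n with
  | zero => intro A x y z; simp [mul_zero_apply, mul_assoc]
  | succ n ih =>
    intro A x y z
    have h1 : (x * y * z) (n + 1) = (x * y * z).tail n := rfl
    have h2 : (x * (y * z)) (n + 1) = (x * (y * z)).tail n := rfl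
    rw [h1, h2, tail_mul, tail_mul, tail_mul, tail_mul, sgn_mul, sz_mul, sz_mul, add_mul',
      mul_add']
    simp only [add_apply, ih]; abel

theorem mul_assoc' (x y z : Chains A) : x * y * z = x * (y * z) := ext fun n => sh_assoc n A x y z

theorem tail_deg0 (a : A.obj 0) : (deg0 a).tail = 0 := rfl
theorem sz_deg0 (a : A.obj 0) : (deg0 a).degenZero = deg0 (A := A.decalage) (A.map (degen 0) a) := by
  ext n; cases n with
  | zero => rfl
  | succ n => simp [degenZero, deg0]
theorem sgn_deg0 (a : A.obj 0) : (deg0 a).sgn = deg0 a := by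
  ext n; cases n with
  | zero => simp [sgn]
  | succ n => simp [sgn, deg0]

theorem sh_deg0_left (n : ℕ) : ∀ (A : SimplicialRing.{u}) (a : A.obj 0) (y : Chains A),
    (deg0 a * y) n = A.map (vert n 0) a * y n := by
  induction n with
  | zero =>
    intro A a y
    have : (vert 0 0 : SimplexHom 0 0) = OrderHom.id := by ext i; simp [vert]
    rw [this, A.map_id]; rfl
  | succ n ih =>
    intro A a y
    have h1 : (deg0 a * y) (n + 1) = (deg0 a * y).tail n := rfl
    rw [h1, tail_mul, tail_deg0, zero_mul', zero_add, sgn_deg0, sz_deg0, ih]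
    change A.map _ (A.map _ a) * y (n + 1) = _
    rw [A.map_comp]
    congr 3
    ext i; simp [vert]

theorem sh_deg0_right (n : ℕ) : ∀ (A : SimplicialRing.{u}) (a : A.obj 0) (y : Chains A),
    (y * deg0 a) n = A.map (vert n 0) a * y n := by
  induction n with
  | zero =>
    intro A a y
    have : (vert 0 0 : SimplexHom 0 0) = OrderHom.id := by ext i; simp [vert]
    rw [this, A.map_id, mul_comm]; rfl
  | succ n ih =>
    intro A a y
    have h1 : (y * deg0 a) (n + 1) = (y * deg0 a).tail n := rfl
    rw [h1, tail_mul, tail_deg0, mul_zero', add_zero, sz_deg0, ih]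
    change A.map _ (A.map _ a) * y (n + 1) = _
    rw [A.map_comp]
    congr 3
    ext i; simp [vert]

theorem one_mul' (y : Chains A) : 1 * y = y := ext fun n => by
  have := sh_deg0_left n A 1 y
  rwa [map_one, one_mul] at this

theorem mul_one' (y : Chains A) : y * 1 = y := ext fun n => by
  have := sh_deg0_right n A 1 y
  rwa [map_one, one_mul] at this

end Chains

end Pool.Agent.P.MP_932208_ag
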