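import Pool.Agent.P.MP_932208_ag.Cot

/-!
Homotopy theory of simplicial abelian groups: weak equivalences, homotopies, extension of
boundary data.
-/

namespace Pool.Agent.P.MP_932208_ag

universe u

/-- Simplices of the boundary of `Δ^M`. -/
def Bdy (k M : ℕ) : Type := {θ : SimplexHom k M // ¬ Function.Surjective θ}

/-- The boundary is a simplicial subset. -/
def Bdy.comp {l k M : ℕ} (θ : Bdy k M) (η : SimplexHom l k) : Bdy l M :=
  ⟨θ.1.comp η, fun h => θ.2 (Function.Surjective.of_comp (g := η) h)⟩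

/-- A face as a simplex of the boundary. -/
def Bdy.face {M : ℕ} (i : Fin (M + 2)) : Bdy M (M + 1) :=
  ⟨Pool.Agent.P.MP_932208_ag.face i, fun h => by
    obtain ⟨a, ha⟩ := h i
    exact Fin.succAbove_ne i a ha⟩

theorem s1_face_val {n : ℕ} (i : Fin (n + 2)) (a : Fin (n + 1)) :
    ((face i a : Fin (n + 2)) : ℕ) = if (a : ℕ) < i then (a : ℕ) else a + 1 := by
  change ((i.succAbove a : Fin (n + 2)) : ℕ) = _
  unfold Fin.succAbove
  by_cases h : (a : ℕ) < i
  · rw [if_pos h, if_pos (by simpa [Fin.lt_def] using h)]; rfl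
  · rw [if_neg h, if_neg (by simpa [Fin.lt_def] using h)]; rfl

theorem s1_degen_val {n : ℕ} (j : Fin (n + 1)) (a : Fin (n + 2)) :
    ((degen j a : Fin (n + 1)) : ℕ) = if (j : ℕ) < a then (a : ℕ) - 1 else a := by
  change ((j.predAbove a : Fin (n + 1)) : ℕ) = _
  unfold Fin.predAbove
  by_cases h : (j : ℕ) < a
  · rw [if_pos h, dif_pos (by simpa [Fin.lt_def] using h)]; rfl
  · rw [if_neg h, dif_neg (by simpa [Fin.lt_def] using h)]; rfl

/-- An operator that misses `i` factors through the `i`-th face. -/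
theorem s1_factor {k m : ℕ} (i : Fin (m + 2)) (θ : SimplexHom k (m + 1)) (h : ∀ a, θ a ≠ i) :
    ∃ η : SimplexHom k m, θ = (face i).comp η := by
  choose g homogeneous using fun a => Fin.exists_succAbove_eq (h a)
  refine ⟨⟨g, fun a b hab => ?_⟩, ?_⟩
  · have h1 : θ a ≤ θ b := θ.monotone hab
    rw [← homogeneous a, ← homogeneous b] at h1
    exact (Fin.strictMono_succAbove i).le_iff_le.1 h1
  · ext a
    exact congrArg Fin.val (homogeneous a).symm

theorem s1_degen_face_id {n : ℕ} (j : Fin (n + 1)) (i : Fin (n + 2))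
    (h : (i : ℕ) = j ∨ (i : ℕ) = j + 1) : (degen j).comp (face i) = OrderHom.id := by
  ext a
  change ((degen j (face i a) : Fin (n + 1)) : ℕ) = a
  rw [s1_degen_val, s1_face_val]
  split_ifs <;> omega

/-- The step function with `k` zeros. -/
def s1_step (n k : ℕ) : SimplexHom n 1 :=
  ⟨fun a => if (a : ℕ) < k then 0 else 1, fun a b hab => by
    have hab' : (a : ℕ) ≤ b := hab
    by_cases ha : (a : ℕ) < k
    · simp only [if_pos ha]; exact Fin.zero_le _
    · have hb : ¬ (b : ℕ) < k := by omega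
      simp only [if_neg ha, if_neg hb]; exact le_rfl⟩

theorem s1_step_apply (n k : ℕ) (a : Fin (n + 1)) :
    s1_step n k a = if (a : ℕ) < k then 0 else 1 := rfl

theorem s1_step_zero (n : ℕ) : s1_step n 0 = vert n 1 := by
  ext a
  rw [s1_step_apply, if_neg (Nat.not_lt_zero _)]; rfl

theorem s1_step_last (n : ℕ) : s1_step n (n + 1) = vert n 0 := by
  ext a
  rw [s1_step_apply, if_pos a.2]; rfl

theorem s1_step_face {n : ℕ} (k l : ℕ) (i : Fin (n + 2))
    (h : ((i : ℕ) = k ∧ l = k) ∨ ((i : ℕ) = k + 1 ∧ l = k + 1)) :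
    (s1_step (n + 1) (k + 1)).comp (face i) = s1_step n l := by
  ext a
  change ((s1_step (n + 1) (k + 1) (face i a) : Fin 2) : ℕ) = (s1_step n l a : Fin 2)
  rw [s1_step_apply, s1_step_apply, s1_face_val]
  have : ((if (a : ℕ) < i then (a : ℕ) else a + 1) < k + 1) ↔ (a : ℕ) < l := by
    split_ifs <;> omega
  simp only [this]

namespace SimplicialAb
variable {X Y Z : SimplicialAb.{u}}

/-- The identity. -/
def Hom.id (X : SimplicialAb.{u}) : X.Hom X where
  app _ := AddMonoidHom.id _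
  nat _ _ := rfl

/-- Composition. -/
def Hom.comp (g : Y.Hom Z) (f : X.Hom Y) : X.Hom Z where
  app n := (g.app n).comp (f.app n)
  nat θ x := (congrArg (g.app _) (f.nat θ x)).trans (g.nat θ _)

/-- All homotopy groups vanish. -/
def IsAcyclic (X : SimplicialAb.{u}) : Prop := ∀ n (x : X.obj n), X.IsSpherical x → X.IsBoundary x

theorem s1_miss {m k : ℕ} {x : X.obj (m + 1)} {i : Fin (m + 2)} (hx : X.map (face i) x = 0)
    (θ : SimplexHom k (m + 1)) (h : ∀ a, θ a ≠ i) : X.map θ x = 0 := by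
  obtain ⟨η, rfl⟩ := s1_factor i θ h
  rw [← X.map_comp, hx, map_zero]

theorem s1_sph_miss {n k : ℕ} {x : X.obj n} (hx : X.IsSpherical x) (θ : SimplexHom k n) (i : Fin (n + 1))
    (h : ∀ a, θ a ≠ i) : X.map θ x = 0 := by
  cases n with
  | zero => exact absurd (Subsingleton.elim (α := Fin 1) _ _) (h 0)
  | succ m => exact s1_miss (hx i) θ h

theorem s1_ds_id {n : ℕ} (x : X.obj n) (j : Fin (n + 1)) (i : Fin (n + 2))
    (h : (i : ℕ) = j ∨ (i : ℕ) = j + 1) : X.map (face i) (X.map (degen j) x) = x := by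
  rw [X.map_comp, s1_degen_face_id j i h, X.map_id]

theorem s1_ds_zero {n : ℕ} {x : X.obj n} (hx : X.IsSpherical x) (j : Fin (n + 1)) (i : Fin (n + 2))
    (h1 : (i : ℕ) ≠ j) (h2 : (i : ℕ) ≠ j + 1) : X.map (face i) (X.map (degen j) x) = 0 := by
  rw [X.map_comp]
  have hj := j.2
  have hi := i.2
  by_cases hij : (i : ℕ) < j
  · refine s1_sph_miss hx _ ⟨i, by omega⟩ fun a ha => ?_
    have ha' : ((degen j (face i a) : Fin (n + 1)) : ℕ) = i := congrArg Fin.val ha
    rw [s1_degen_val, s1_face_val] at ha'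
    split_ifs at ha' <;> omega
  · refine s1_sph_miss hx _ ⟨i - 1, by omega⟩ fun a ha => ?_
    have ha' : ((degen j (face i a) : Fin (n + 1)) : ℕ) = i - 1 := congrArg Fin.val ha
    rw [s1_degen_val, s1_face_val] at ha'
    split_ifs at ha' <;> omega

theorem bd_zero (X : SimplicialAb.{u}) (n : ℕ) : X.IsBoundary (0 : X.obj n) :=
  ⟨0, fun _ => map_zero _, map_zero _⟩
theorem IsBoundary.add {n : ℕ} {x y : X.obj n} (hx : X.IsBoundary x) (hy : X.IsBoundary y) : X.IsBoundary (x + y) := by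
  obtain ⟨z, hz, rfl⟩ := hx
  obtain ⟨w, hw, rfl⟩ := hy
  exact ⟨z + w, fun i => by rw [map_add, hz i, hw i, add_zero], map_add _ _ _⟩
theorem IsBoundary.neg {n : ℕ} {x : X.obj n} (hx : X.IsBoundary x) : X.IsBoundary (-x) := by
  obtain ⟨z, hz, rfl⟩ := hx
  exact ⟨-z, fun i => by rw [map_neg, hz i, neg_zero], map_neg _ _⟩
theorem IsBoundary.sub {n : ℕ} {x y : X.obj n} (hx : X.IsBoundary x) (hy : X.IsBoundary y) : X.IsBoundary (x - y) := by
  rw [sub_eq_add_neg]; exact hx.add hy.neg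
theorem IsBoundary.sph {n : ℕ} {x : X.obj n} (hx : X.IsBoundary x) : X.IsSpherical x := by
  obtain ⟨z, hz, rfl⟩ := hx
  cases n with
  | zero => trivial
  | succ m =>
    intro i
    rw [X.map_comp, Chains.face_face_zero, ← X.map_comp, hz i, map_zero]
theorem IsBoundary.map (f : X.Hom Y) {n : ℕ} {x : X.obj n} (hx : X.IsBoundary x) : Y.IsBoundary (f.app n x) := by
  obtain ⟨z, hz, rfl⟩ := hx
  exact ⟨f.app _ z, fun i => by rw [← f.nat, hz i, map_zero], (f.nat _ _).symm⟩
theorem IsSpherical.sub {n : ℕ} {x y : X.obj n} (hx : X.IsSpherical x) (hy : X.IsSpherical y) : X.IsSpherical (x - y) := by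
  cases n with
  | zero => trivial
  | succ m => intro i; rw [map_sub, hx i, hy i, sub_zero]
theorem IsSpherical.map (f : X.Hom Y) {n : ℕ} {x : X.obj n} (hx : X.IsSpherical x) : Y.IsSpherical (f.app n x) := by
  cases n with
  | zero => trivial
  | succ m => intro i; rw [← f.nat, hx i, map_zero]
theorem IsSpherical.moore {n : ℕ} {x : X.obj n} (hx : X.IsSpherical x) : X.Moore x := by
  cases n with
  | zero => trivial
  | succ m => exact fun i => hx i.succ
theorem Moore.sub {n : ℕ} {x y : X.obj n} (hx : X.Moore x) (hy : X.Moore y) :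
    X.Moore (x - y) := by
  cases n with
  | zero => trivial
  | succ m => intro i; rw [map_sub, hx i, hy i, sub_zero]
theorem Moore.map (f : X.Hom Y) {n : ℕ} {x : X.obj n} (hx : X.Moore x) :
    Y.Moore (f.app n x) := by
  cases n with
  | zero => trivial
  | succ m => intro i; rw [← f.nat, hx i, map_zero]

theorem s1_moore_add {n : ℕ} {x y : X.obj n} (hx : X.Moore x) (hy : X.Moore y) :
    X.Moore (x + y) := by
  cases n with
  | zero => trivial
  | succ m => intro i; rw [map_add, hx i, hy i, add_zero]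

theorem s1_sph_of {m : ℕ} {x : X.obj (m + 1)} (hx : X.Moore x) (h0 : X.map (face 0) x = 0) :
    X.IsSpherical x := fun i => by
  rcases Fin.eq_zero_or_eq_succ i with rfl | ⟨i, rfl⟩
  · exact h0
  · exact hx i

theorem s1_comp_app (g : Y.Hom Z) (f : X.Hom Y) (n : ℕ) (x : X.obj n) :
    (g.comp f).app n x = g.app n (f.app n x) := rfl

theorem Hom.IsWeakEquiv.comp {g : Y.Hom Z} {f : X.Hom Y} (homogeneous : g.IsWeakEquiv) (hf : f.IsWeakEquiv) : (g.comp f).IsWeakEquiv := by
  intro n
  refine ⟨fun z hz => ?_, fun x hx h => ?_⟩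
  · obtain ⟨y, hy, hyz⟩ := (homogeneous n).1 z hz
    obtain ⟨x, hx, hxy⟩ := (hf n).1 y hy
    refine ⟨x, hx, ?_⟩
    have h := (hxy.map g).add hyz
    rwa [map_sub, sub_add_sub_cancel] at h
  · exact (hf n).2 x hx ((homogeneous n).2 _ (hx.map f) h)

theorem Hom.IsWeakEquiv.of_comp_left {g : Y.Hom Z} {f : X.Hom Y} (h : (g.comp f).IsWeakEquiv) (hf : f.IsWeakEquiv) :
    g.IsWeakEquiv := by
  intro n
  refine ⟨fun z hz => ?_, fun y hy hb => ?_⟩
  · obtain ⟨x, hx, hxz⟩ := (h n).1 z hz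
    exact ⟨f.app n x, hx.map f, hxz⟩
  · obtain ⟨x, hx, hxy⟩ := (hf n).1 y hy
    have h1 := (hxy.map g).add hb
    rw [map_sub, sub_add_cancel] at h1
    have h2 := (((h n).2 x hx h1).map f).sub hxy
    rwa [sub_sub_cancel] at h2

theorem Hom.IsWeakEquiv.of_comp_right {g : Y.Hom Z} {f : X.Hom Y} (h : (g.comp f).IsWeakEquiv) (homogeneous : g.IsWeakEquiv) :
    f.IsWeakEquiv := by
  intro n
  refine ⟨fun y hy => ?_, fun x hx hb => (h n).2 x hx (hb.map g)⟩
  obtain ⟨x, hx, hxy⟩ := (h n).1 _ (hy.map g)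
  refine ⟨x, hx, (homogeneous n).2 _ ((hx.map f).sub hy) ?_⟩
  rw [map_sub]; exact hxy

theorem Hom.IsWeakEquiv.congr {f g : X.Hom Y} (h : ∀ n x, X.IsSpherical x → Y.IsBoundary (f.app n x - g.app n x))
    (hf : f.IsWeakEquiv) : g.IsWeakEquiv := by
  intro n
  refine ⟨fun y hy => ?_, fun x hx hb => ?_⟩
  · obtain ⟨x, hx, hxy⟩ := (hf n).1 y hy
    refine ⟨x, hx, ?_⟩
    have h1 := hxy.sub (h n x hx)
    rwa [sub_sub_sub_cancel_left] at h1
  · have h1 := (h n x hx).add hb
    rw [sub_add_cancel] at h1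
    exact (hf n).2 x hx h1

theorem Hom.we_of_bij (f : X.Hom Y) (h : ∀ n, Function.Bijective (f.app n)) : f.IsWeakEquiv := by
  intro n
  refine ⟨fun y hy => ?_, fun x _ hb => ?_⟩
  · obtain ⟨x, rfl⟩ := (h n).2 y
    refine ⟨x, ?_, by rw [sub_self]; exact Y.bd_zero n⟩
    cases n with
    | zero => trivial
    | succ m => exact fun i => (h m).1 (by rw [f.nat, hy i, map_zero])
  · obtain ⟨v, hv, hvx⟩ := hb
    obtain ⟨w, rfl⟩ := (h (n + 1)).2 v
    exact ⟨w, fun i => (h n).1 (by rw [f.nat, hv i, map_zero]), (h n).1 (by rw [f.nat, hvx])⟩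

/-- A spherical simplex which is the only nonzero face of a simplex is a boundary. -/
theorem s1_single {n : ℕ} {u : X.obj n} (hu : X.IsSpherical u) (k : ℕ) :
    ∀ z : X.obj (n + 1), k ≤ n + 1 → (∀ i : Fin (n + 2), (i : ℕ) = k → X.map (face i) z = u) →
      (∀ i : Fin (n + 2), (i : ℕ) ≠ k → X.map (face i) z = 0) → X.IsBoundary u := by
  induction k with
  | zero =>
    intro z _ h1 h2
    exact ⟨z, fun i => h2 _ (by simp), h1 0 rfl⟩
  | succ j ih =>
    intro z hj h1 h2
    refine ih (X.map (degen ⟨j, by omega⟩) u - z) (by omega) (fun i hi => ?_) (fun i hi => ?_)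
    · rw [map_sub, s1_ds_id u _ i (Or.inl hi), h2 i (by omega), sub_zero]
    · by_cases hi' : (i : ℕ) = j + 1
      · rw [map_sub, s1_ds_id u _ i (Or.inr hi'), h1 i hi', sub_self]
      · rw [map_sub, s1_ds_zero hu _ i hi hi', h2 i hi', sub_zero]

/-- Two adjacent spherical faces of a simplex whose other faces vanish are homotopic. -/
theorem s1_double {n : ℕ} {a b : X.obj n} (ha : X.IsSpherical a) (hb : X.IsSpherical b) (k : Fin (n + 1))
    (z : X.obj (n + 1)) (h1 : ∀ i : Fin (n + 2), (i : ℕ) = k → X.map (face i) z = a)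
    (h2 : ∀ i : Fin (n + 2), (i : ℕ) = k + 1 → X.map (face i) z = b)
    (h3 : ∀ i : Fin (n + 2), (i : ℕ) ≠ k → (i : ℕ) ≠ k + 1 → X.map (face i) z = 0) :
    X.IsBoundary (a - b) := by
  have hk := k.2
  refine s1_single (ha.sub hb) k (z - X.map (degen k) b) (by omega) (fun i hi => ?_)
    (fun i hi => ?_)
  · rw [map_sub, s1_ds_id b _ i (Or.inl hi), h1 i hi]
  · by_cases hi' : (i : ℕ) = k + 1
    · rw [map_sub, s1_ds_id b _ i (Or.inr hi'), h2 i hi', sub_self]
    · rw [map_sub, s1_ds_zero hb _ i hi hi', h3 i hi hi', sub_zero]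

/-- The prism operator: a homotopy compatible with faces identifies its two ends on homotopy
groups. -/
theorem prism (H : ∀ n, SimplexHom n 1 → X.obj n →+ Y.obj n)
    (hH : ∀ n (i : Fin (n + 2)) (χ : SimplexHom (n + 1) 1) (x : X.obj (n + 1)),
      Y.map (face i) (H (n + 1) χ x) = H n (χ.comp (face i)) (X.map (face i) x))
    {n : ℕ} {x : X.obj n} (hx : X.IsSpherical x) : Y.IsBoundary (H n (vert n 0) x - H n (vert n 1) x) := by
  have hs : ∀ χ, Y.IsSpherical (H n χ x) := fun χ => by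
    cases n with
    | zero => trivial
    | succ m => intro i; rw [hH, hx i, map_zero]
  have hstep : ∀ k : ℕ, k ≤ n → Y.IsBoundary (H n (s1_step n k) x - H n (s1_step n (k + 1)) x) := by
    intro k hk
    refine s1_double (hs _) (hs _) ⟨k, by omega⟩
      (H (n + 1) (s1_step (n + 1) (k + 1)) (X.map (degen ⟨k, by omega⟩) x))
      (fun i hi => ?_) (fun i hi => ?_) (fun i hi hi' => ?_)
    · rw [hH, s1_ds_id x _ i (Or.inl hi), s1_step_face k k i (Or.inl ⟨hi, rfl⟩)]
    · rw [hH, s1_ds_id x _ i (Or.inr hi), s1_step_face k (k + 1) i (Or.inr ⟨hi, rfl⟩)]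
    · rw [hH, s1_ds_zero hx _ i hi hi', map_zero]
  have htel : ∀ k : ℕ, k ≤ n + 1 → Y.IsBoundary (H n (s1_step n k) x - H n (s1_step n 0) x) := by
    intro k
    induction k with
    | zero => intro _; rw [sub_self]; exact Y.bd_zero n
    | succ j ih =>
      intro hj
      have h := (ih (by omega)).sub (hstep j (by omega))
      rwa [sub_sub_sub_cancel_left] at h
  have h := htel (n + 1) le_rfl
  rwa [s1_step_zero, s1_step_last] at h

/-- A map with a section compatible with faces that is also a homotopy inverse. -/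
theorem Hom.we_of_section (p : X.Hom Y) (s : ∀ n, Y.obj n →+ X.obj n)
    (hs : ∀ n (i : Fin (n + 2)) (y : Y.obj (n + 1)),
      X.map (face i) (s (n + 1) y) = s n (Y.map (face i) y))
    (ps : ∀ n y, p.app n (s n y) = y) (h : ∀ n x, X.IsSpherical x → X.IsBoundary (x - s n (p.app n x))) :
    p.IsWeakEquiv := by
  intro n
  refine ⟨fun y hy => ⟨s n y, ?_, by rw [ps, sub_self]; exact Y.bd_zero n⟩, fun x hx hb => ?_⟩
  · cases n with
    | zero => trivial
    | succ m => intro i; rw [hs, hy i, map_zero]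
  · obtain ⟨v, hv, hvx⟩ := hb
    have h1 : X.IsBoundary (s n (p.app n x)) :=
      ⟨s (n + 1) v, fun i => by rw [hs, hv i, map_zero], by rw [hs, hvx]⟩
    have h2 := (h n x hx).add h1
    rwa [sub_add_cancel] at h2

/-- A simplicial subgroup. -/
structure Sub (E : SimplicialAb.{u}) where
  S : ∀ k, AddSubgroup (E.obj k)
  map : ∀ {k n : ℕ} (θ : SimplexHom k n) {x : E.obj n}, x ∈ S n → E.map θ x ∈ S k

/-- The simplicial abelian group of a simplicial subgroup. -/
@[reducible] def Sub.ab {E : SimplicialAb.{u}} (Q : E.Sub) : SimplicialAb.{u} where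
  obj k := Q.S k
  map θ := AddMonoidHom.mk' (fun x => ⟨E.map θ x.1, Q.map θ x.2⟩)
    (fun x y => Subtype.ext (map_add (E.map θ) x.1 y.1))
  map_id n x := Subtype.ext (E.map_id n x.1)
  map_comp θ η x := Subtype.ext (E.map_comp θ η x.1)

/-- The kernel of a map. -/
def Hom.ker (p : X.Hom Y) : X.Sub where
  S k := (p.app k).ker
  map θ x hx := by
    rw [AddMonoidHom.mem_ker] at hx ⊢
    rw [p.nat, hx, map_zero]

/-- Acyclicity of a simplicial subgroup, in terms of the ambient group. -/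
def Sub.Ac {E : SimplicialAb.{u}} (Q : E.Sub) : Prop :=
  ∀ n (x : E.obj n), x ∈ Q.S n → E.IsSpherical x → ∃ z ∈ Q.S (n + 1), E.Moore z ∧ E.map (face 0) z = x

theorem Sub.ac_iff {E : SimplicialAb.{u}} (Q : E.Sub) : Q.Ac ↔ Q.ab.IsAcyclic := by
  constructor
  · intro h n x hx
    have hx' : E.IsSpherical x.1 := by
      cases n with
      | zero => trivial
      | succ m => exact fun i => congrArg Subtype.val (hx i)
    obtain ⟨z, hz, hm, h0⟩ := h n x.1 x.2 hx'
    exact ⟨⟨z, hz⟩, fun i => Subtype.ext (hm i), Subtype.ext h0⟩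
  · intro h n x hx hs
    have hx' : Q.ab.IsSpherical (n := n) ⟨x, hx⟩ := by
      cases n with
      | zero => trivial
      | succ m => exact fun i => Subtype.ext (hs i)
    obtain ⟨z, hm, h0⟩ := h n ⟨x, hx⟩ hx'
    exact ⟨z.1, z.2, fun i => congrArg Subtype.val (hm i), congrArg Subtype.val h0⟩

/-- Levelwise surjections are surjective on Moore chains. -/
theorem Hom.moore_lift (p : X.Hom Y) (sj : ∀ n, Function.Surjective (p.app n)) {n : ℕ}
    {y : Y.obj n} (hy : Y.Moore y) : ∃ x, X.Moore x ∧ p.app n x = y := by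
  cases n with
  | zero =>
    obtain ⟨x, hx⟩ := sj 0 y
    exact ⟨x, trivial, hx⟩
  | succ m =>
    have key : ∀ t j : ℕ, j + t = m + 1 →
        ∃ x, p.app (m + 1) x = y ∧ ∀ i : Fin (m + 2), j < (i : ℕ) → X.map (face i) x = 0 := by
      intro t
      induction t with
      | zero =>
        intro j hj
        obtain ⟨x, hx⟩ := sj (m + 1) y
        exact ⟨x, hx, fun i hi => absurd i.2 (by omega)⟩
      | succ t ih =>
        intro j hj
        obtain ⟨x, hx, hi0⟩ := ih (j + 1) (by omega)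
        have hjm : j < m + 1 := by omega
        refine ⟨x - X.map (degen ⟨j, hjm⟩) (X.map (face (Fin.succ ⟨j, hjm⟩)) x), ?_,
          fun i hi => ?_⟩
        · rw [map_sub, p.nat, p.nat, hx, hy ⟨j, hjm⟩, map_zero, sub_zero]
        · by_cases hij : (i : ℕ) = j + 1
          · have hi' : i = Fin.succ ⟨j, hjm⟩ := Fin.ext hij
            rw [map_sub, s1_ds_id _ _ i (Or.inr hij), hi', sub_self]
          · have h0 := hi0 i (by omega)
            rw [map_sub, h0, X.map_comp, X.map_comp, zero_sub, neg_eq_zero]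
            refine s1_miss h0 _ fun a ha => ?_
            have ha' : ((face (Fin.succ ⟨j, hjm⟩) (degen ⟨j, hjm⟩ (face i a)) : Fin (m + 2)) : ℕ)
                = i := congrArg Fin.val ha
            rw [s1_face_val, s1_degen_val, s1_face_val] at ha'
            simp only [Fin.val_succ] at ha'
            split_ifs at ha' <;> omega
    obtain ⟨x, hx, h0⟩ := key (m + 1) 0 (by omega)
    exact ⟨x, fun i => h0 _ (by simp), hx⟩

theorem Hom.we_iff_ker (p : X.Hom Y) (sj : ∀ n, Function.Surjective (p.app n)) :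
    p.IsWeakEquiv ↔ p.ker.Ac := by
  constructor
  · intro h n x hx hs
    have hx0 : p.app n x = 0 := hx
    obtain ⟨z, hz, hzx⟩ := (h n).2 x hs (by rw [hx0]; exact Y.bd_zero n)
    have hpz : Y.IsSpherical (p.app (n + 1) z) :=
      s1_sph_of (hz.map p) (by rw [← p.nat, hzx, hx0])
    obtain ⟨w, hw, v, hv, hvw⟩ := (h (n + 1)).1 _ hpz
    obtain ⟨v', hv', rfl⟩ := p.moore_lift sj hv
    have hb : X.IsSpherical (X.map (face 0) v') := IsBoundary.sph ⟨v', hv', rfl⟩
    refine ⟨z - w + X.map (face 0) v', ?_, s1_moore_add (hz.sub hw.moore) hb.moore, ?_⟩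
    · change p.app (n + 1) (z - w + X.map (face 0) v') = 0
      rw [map_add, map_sub, p.nat, hvw, sub_add_sub_cancel, sub_self]
    · rw [map_add, map_sub, hzx, hw 0, hb 0, sub_zero, add_zero]
  · intro h n
    refine ⟨fun y hy => ?_, fun x hx hb => ?_⟩
    · obtain ⟨x, hx, rfl⟩ := p.moore_lift sj hy.moore
      cases n with
      | zero => exact ⟨x, trivial, by rw [sub_self]; exact Y.bd_zero 0⟩
      | succ m =>
        have hk : X.map (face 0) x ∈ p.ker.S m := by
          change p.app m (X.map (face 0) x) = 0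
          rw [p.nat, hy 0]
        obtain ⟨z, hz, hm, h0⟩ := h m _ hk (IsBoundary.sph ⟨x, hx, rfl⟩)
        have hz0 : p.app (m + 1) z = 0 := hz
        refine ⟨x - z, s1_sph_of (hx.sub hm) (by rw [map_sub, h0, sub_self]), ?_⟩
        rw [map_sub, hz0, sub_zero, sub_self]; exact Y.bd_zero _
    · obtain ⟨v, hv, hvx⟩ := hb
      obtain ⟨v', hv', rfl⟩ := p.moore_lift sj hv
      have hb' : X.IsBoundary (X.map (face 0) v') := ⟨v', hv', rfl⟩
      have hk : x - X.map (face 0) v' ∈ p.ker.S n := by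
        change p.app n (x - X.map (face 0) v') = 0
        rw [map_sub, p.nat, hvx, sub_self]
      obtain ⟨z, _, hm, h0⟩ := h n _ hk (hx.sub hb'.sph)
      have h1 := IsBoundary.add ⟨z, hm, h0⟩ hb'
      rwa [sub_add_cancel] at h1

/-- A simplicial subgroup with a contraction is acyclic. -/
theorem Sub.ac_of_homotopy {E : SimplicialAb.{u}} (Q : E.Sub) (H : ∀ n, SimplexHom n 1 → E.obj n →+ E.obj n)
    (hH : ∀ n (i : Fin (n + 2)) (χ : SimplexHom (n + 1) 1) (x : E.obj (n + 1)),
      E.map (face i) (H (n + 1) χ x) = H n (χ.comp (face i)) (E.map (face i) x))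
    (hQ : ∀ n χ x, x ∈ Q.S n → H n χ x ∈ Q.S n) (h₀ : ∀ n x, x ∈ Q.S n → H n (vert n 0) x = 0)
    (h₁ : ∀ n x, x ∈ Q.S n → H n (vert n 1) x = x) : Q.Ac := by
  rw [Sub.ac_iff]
  intro n x hx
  let H' : ∀ n, SimplexHom n 1 → Q.ab.obj n →+ Q.ab.obj n := fun n χ =>
    AddMonoidHom.mk' (fun x => ⟨H n χ x.1, hQ n χ x.1 x.2⟩)
      (fun x y => Subtype.ext (map_add (H n χ) x.1 y.1))
  have h := prism (X := Q.ab) (Y := Q.ab) H' (fun n i χ x => Subtype.ext (hH n i χ x.1)) hx
  have e0 : H' n (vert n 0) x = 0 := Subtype.ext (h₀ n x.1 x.2)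
  have e1 : H' n (vert n 1) x = x := Subtype.ext (h₁ n x.1 x.2)
  rw [e0, e1, zero_sub] at h
  have h2 := h.neg
  rwa [neg_neg] at h2

/-- A power of a simplicial abelian group. -/
@[reducible] def pi (ι : Type u) (E : SimplicialAb.{u}) : SimplicialAb.{u} where
  obj k := ι → E.obj k
  map θ := AddMonoidHom.mk' (fun x i => E.map θ (x i))
    (fun x y => funext fun i => map_add (E.map θ) (x i) (y i))
  map_id n x := funext fun i => E.map_id n (x i)
  map_comp θ η x := funext fun i => E.map_comp θ η (x i)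

end SimplicialAb

end Pool.Agent.P.MP_932208_ag
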