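import Pool.Agent.P.MP_932208_ag.TwL

/-!
The module glued by a cocycle.
-/

namespace Pool.Agent.P.MP_932208_ag

universe u

variable {J : Type u} [Preorder J] {A : RingDiagram J} {T : BisimplicialDiagram J} (c : Cocycle A T)

theorem Cocycle.glue_laws : @IsModuleDiagram J _ A (fun j n => Free (T.obj j n n) ((A.chart j).obj n))
    (fun _ _ => freeGroup _ _) (fun _ _ => freeModule _ _) fun h θ => c.twistedMap h θ θ :=
  @IsModuleDiagram.mk J _ A _ (_) (_) _ (fun h θ => c.tmap_smul h θ θ) (fun i n => c.tmap_id i n n)
    fun h h' _ _ _ θ η => c.tmap_comp h h' θ η θ η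

/-- The module glued by the cocycle: the diagonal of the twisted bisimplicial module
`(n, m) ↦ A_{j,m}[T_{j,n,m}]`, i.e. the homotopy colimit (bar construction) of free rank one
modules along the transition scalars. -/
@[reducible] noncomputable def Cocycle.glue : ModuleDiagram A where
  obj j n := Free (T.obj j n n) ((A.chart j).obj n)
  grp _ _ := freeGroup _ _
  mod _ _ := freeModule _ _
  map h θ := c.twistedMap h θ θ
  laws := c.glue_laws

end Pool.Agent.P.MP_932208_ag
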