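import Pool.Agent.P.MP_932208_ag.Simp2
import Pool.Agent.P.MP_932208_ag.SimpE
import Pool.Agent.P.MP_932208_ag.Tw

/-!
Maps of bisimplicial sets that induce equivalences of the glued modules.
-/

namespace Pool.Agent.P.MP_932208_ag

universe u

variable {J : Type u} [Preorder J]

theorem s3_we_congr {X Y : SimplicialAb.{u}} {f g : X.Hom Y} (h : ∀ n x, f.app n x = g.app n x)
    (hf : f.IsWeakEquiv) : g.IsWeakEquiv :=
  SimplicialAb.Hom.IsWeakEquiv.congr (fun n x _ => by rw [h, sub_self]; exact Y.bd_zero n) hf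

theorem s3_seq {T : ℕ → Type u} (P : ∀ m, T m → Prop) (R : ∀ m, T m → T (m + 1) → Prop)
    (h0 : ∃ t, P 0 t) (hs : ∀ m t, P m t → ∃ t', P (m + 1) t' ∧ R m t t') :
    ∃ f : ∀ m, T m, (∀ m, P m (f m)) ∧ ∀ m, R m (f m) (f (m + 1)) := by
  choose g homogeneous using hs
  obtain ⟨t₀, ht₀⟩ := h0
  let f : ∀ m, {t : T m // P m t} := fun m =>
    Nat.rec (motive := fun m => {t : T m // P m t}) ⟨t₀, ht₀⟩
      (fun m t => ⟨g m t.1 t.2, (homogeneous m t.1 t.2).1⟩) m
  exact ⟨fun m => (f m).1, fun m => (f m).2, fun m => (homogeneous m (f m).1 (f m).2).2⟩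

/-- Relative lifting of face compatible maps along a trivial fibration. -/
theorem s3_lift {E B W : ℕ → Type u} (Em : ∀ {k n : ℕ}, SimplexHom k n → E n → E k)
    (Bm : ∀ {k n : ℕ}, SimplexHom k n → B n → B k) (Wm : ∀ {k n : ℕ}, SimplexHom k n → W n → W k)
    (Eid : ∀ n (x : E n), Em OrderHom.id x = x)
    (Ec : ∀ {l k n : ℕ} (θ : SimplexHom k n) (η : SimplexHom l k) (x : E n), Em η (Em θ x) = Em (θ.comp η) x)
    (Bc : ∀ {l k n : ℕ} (θ : SimplexHom k n) (η : SimplexHom l k) (x : B n), Bm η (Bm θ x) = Bm (θ.comp η) x)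
    (Wc : ∀ {l k n : ℕ} (θ : SimplexHom k n) (η : SimplexHom l k) (x : W n), Wm η (Wm θ x) = Wm (θ.comp η) x)
    (p : ∀ n, E n → B n) (pn : ∀ {k n : ℕ} (θ : SimplexHom k n) (x : E n), p k (Em θ x) = Bm θ (p n x))
    (ext : ∀ (M : ℕ) (y : B M) (x : ∀ k, Bdy k M → E k), (∀ k θ, p k (x k θ) = Bm θ.1 y) →
      (∀ {l k : ℕ} (θ : Bdy k M) (η : SimplexHom l k), Em η (x k θ) = x l (θ.comp η)) →
      ∃ z : E M, p M z = y ∧ ∀ k (θ : Bdy k M), Em θ.1 z = x k θ)
    (q : ∀ n, W n → B n) (qn : ∀ {k n : ℕ} (θ : SimplexHom k n) (w : W n), q k (Wm θ w) = Bm θ (q n w))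
    (S : ∀ n, W n → Prop) (σ : ∀ n, W n → E n)
    (Sf : ∀ n (i : Fin (n + 2)) (w : W (n + 1)), S (n + 1) w → S n (Wm (face i) w) ∧
      Em (face i) (σ (n + 1) w) = σ n (Wm (face i) w))
    (Sp : ∀ n w, S n w → p n (σ n w) = q n w) :
    ∃ F : ∀ n, W n → E n, (∀ n w, p n (F n w) = q n w) ∧ (∀ n w, S n w → F n w = σ n w) ∧
      ∀ n (i : Fin (n + 2)) (w : W (n + 1)), Em (face i) (F (n + 1) w) = F n (Wm (face i) w) := by
  classical
  obtain ⟨F, hP, hR⟩ := s3_seq (T := fun n => W n → E n)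
    (fun n F => (∀ w, p n (F w) = q n w) ∧ (∀ w, S n w → F w = σ n w) ∧
      ∀ (M' : ℕ) (η η' : SimplexHom M' n), M' + 1 = n → Function.Injective η → Function.Injective η' →
        ∀ w w', Wm η w = Wm η' w' → Em η (F w) = Em η' (F w'))
    (fun n F F' => ∀ (i : Fin (n + 2)) (w : W (n + 1)), Em (face i) (F' w) = F (Wm (face i) w))
    (by
      have h : ∀ w : W 0, ∃ z : E 0, p 0 z = q 0 w ∧ (S 0 w → z = σ 0 w) := by
        intro w
        by_cases hw : S 0 w
        · exact ⟨σ 0 w, Sp 0 w hw, fun _ => rfl⟩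
        · obtain ⟨z, hz, -⟩ := ext 0 (q 0 w) (fun k θ => (Bdy.isEmpty k).elim θ)
            (fun k θ => (Bdy.isEmpty k).elim θ) (fun θ _ => (Bdy.isEmpty _).elim θ)
          exact ⟨z, hz, fun h => absurd h hw⟩
      choose F hF using h
      exact ⟨F, fun w => (hF w).1, fun w => (hF w).2, fun M' _ _ h => absurd h (by omega)⟩)
    (by
      rintro m F ⟨hp, hS, hQ⟩
      have h : ∀ w : W (m + 1), ∃ z : E (m + 1), p (m + 1) z = q (m + 1) w ∧
          (S (m + 1) w → z = σ (m + 1) w) ∧
          ∀ i : Fin (m + 2), Em (face i) z = F (Wm (face i) w) := by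
        intro w
        by_cases hw : S (m + 1) w
        · exact ⟨σ (m + 1) w, Sp _ w hw, fun _ => rfl,
            fun i => by rw [(Sf m i w hw).2, hS _ (Sf m i w hw).1]⟩
        · obtain ⟨x, hx, hn⟩ := Bdy.of_faces (obj := E) Em Eid Ec (fun i => F (Wm (face i) w))
            (fun i j η η' hM _ hη hη' he => hQ _ η η' hM hη hη' _ _ (by rw [Wc, Wc, he]))
          obtain ⟨z, hz, hz'⟩ := ext (m + 1) (q (m + 1) w) x
            (fun k θ => by
              obtain ⟨i, η, rfl⟩ := θ.exists_face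
              rw [← hn, hx, pn, hp, qn, Bc]
              rfl) hn
          exact ⟨z, hz, fun h => absurd h hw, fun i => (hz' m (Bdy.face i)).trans (hx i)⟩
      choose F' hF' using h
      refine ⟨F', ⟨fun w => (hF' w).1, fun w => (hF' w).2.1, ?_⟩, fun i w => (hF' w).2.2 i⟩
      intro M' η η' hM hη hη' w w' he
      obtain rfl : M' = m := by omega
      obtain ⟨i, rfl⟩ := exists_eq_face η hη
      obtain ⟨j, rfl⟩ := exists_eq_face η' hη'
      rw [(hF' w).2.2, (hF' w').2.2, he])
  exact ⟨F, fun n => (hP n).1, fun n => (hP n).2.1, hR⟩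

theorem s3_vert_ne (n : ℕ) : vert n (1 : Fin 2) ≠ vert n (0 : Fin 2) := fun h => by
  have h1 : (1 : Fin 2) = 0 := congrArg (fun χ : SimplexHom n 1 => χ 0) h
  exact absurd h1 (by decide)

/-- Composition of maps of modules. -/
def ModuleDiagram.Hom.comp {A : RingDiagram J} {M M' M'' : ModuleDiagram A} (g : M'.Hom M'') (f : M.Hom M') :
    M.Hom M'' where
  app j n := (g.app j n).comp (f.app j n)
  nat h θ x := (congrArg (g.app _ _) (f.nat h θ x)).trans (g.nat h θ _)

theorem ModuleDiagram.Hom.IsWeakEquiv.comp {A : RingDiagram J} {M M' M'' : ModuleDiagram A} {g : M'.Hom M''} {f : M.Hom M'}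
    (homogeneous : g.IsWeakEquiv) (hf : f.IsWeakEquiv) : (g.comp f).IsWeakEquiv := fun j =>
  s3_we_congr (f := (g.ab j).comp (f.ab j)) (fun _ _ => rfl) (SimplicialAb.Hom.IsWeakEquiv.comp (homogeneous j) (hf j))

namespace BisimplicialDiagram

/-- A map of diagrams of bisimplicial sets. -/
structure Hom (X Y : BisimplicialDiagram J) where
  app : ∀ {j : J} {n m : ℕ}, X.obj j n m → Y.obj j n m
  nat : ∀ {i j : J} {k n k' m : ℕ} (h : i ≤ j) (θ : SimplexHom k n) (θ' : SimplexHom k' m) (x : X.obj i n m),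
    app (X.map h θ θ' x) = Y.map h θ θ' (app x)

variable {X Y Z : BisimplicialDiagram J}

/-- Composition. -/
def Hom.comp (p : Y.Hom Z) (q : X.Hom Y) : X.Hom Z where
  app x := p.app (q.app x)
  nat h θ θ' x := (congrArg p.app (q.nat h θ θ' x)).trans (p.nat h θ θ' _)

/-- The product. -/
@[reducible] def prod (X Y : BisimplicialDiagram J) : BisimplicialDiagram J where
  obj j n m := X.obj j n m × Y.obj j n m
  map h θ θ' x := (X.map h θ θ' x.1, Y.map h θ θ' x.2)
  map_id i n m x := Prod.ext (X.map_id i n m x.1) (Y.map_id i n m x.2)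
  map_comp h h' _ _ _ _ _ _ θ η θ' η' x :=
    Prod.ext (X.map_comp h h' θ η θ' η' x.1) (Y.map_comp h h' θ η θ' η' x.2)

/-- First projection. -/
def fst (X Y : BisimplicialDiagram J) : (X.prod Y).Hom X where
  app x := x.1
  nat _ _ _ _ := rfl

/-- Second projection. -/
def snd (X Y : BisimplicialDiagram J) : (X.prod Y).Hom Y where
  app x := x.2
  nat _ _ _ _ := rfl

/-- `Z × p`. -/
def Hom.prodL (Z : BisimplicialDiagram J) (p : X.Hom Y) : (Z.prod X).Hom (Z.prod Y) where
  app x := (x.1, p.app x.2)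
  nat h θ θ' x := Prod.ext rfl (p.nat h θ θ' x.2)

/-- `p × Z`. -/
def Hom.prodR (p : X.Hom Y) (Z : BisimplicialDiagram J) : (X.prod Z).Hom (Y.prod Z) where
  app x := (p.app x.1, x.2)
  nat h θ θ' x := Prod.ext (p.nat h θ θ' x.1) rfl

end BisimplicialDiagram

namespace Cocycle
variable {A : RingDiagram J} {X Y : BisimplicialDiagram J}

/-- Pull back of a cocycle. -/
def pull (c : Cocycle A Y) (p : X.Hom Y) : Cocycle A X where
  c x a := c.c (p.app x) a
  c_zero x := c.c_zero _
  c_map h θ θ' x a := by rw [p.nat]; exact c.c_map h θ θ' _ a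

theorem s3_tmap_mapDomain (c₁ : Cocycle A X) (c₂ : Cocycle A Y) {i j : J} {k n k' m : ℕ}
    (h : i ≤ j) (θ : SimplexHom k n) (θ' : SimplexHom k' m) (f : X.obj i n m → Y.obj i n m)
    (f' : X.obj j k k' → Y.obj j k k') (hf : ∀ x, Y.map h θ θ' (f x) = f' (X.map h θ θ' x))
    (hc : ∀ x, c₂.c (f x) (θ 0) = c₁.c x (θ 0)) (x : X.obj i n m →₀ (A.chart i).obj m) :
    c₂.twistedMap h θ θ' (Finsupp.mapDomain f x) = Finsupp.mapDomain f' (c₁.twistedMap h θ θ' x) := by
  induction x using Finsupp.induction_linear with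
  | zero => simp
  | add x y hx hy => rw [Finsupp.mapDomain_add, map_add, map_add, Finsupp.mapDomain_add, hx, hy]
  | single x b =>
    rw [Finsupp.mapDomain_single, tmap_single, tmap_single, Finsupp.mapDomain_single, hf, hc]

theorem twMap_nat (c : Cocycle A Y) (p : X.Hom Y) {i j : J} {k n k' m : ℕ} (h : i ≤ j)
    (θ : SimplexHom k n) (θ' : SimplexHom k' m) (x : X.obj i n m →₀ (A.chart i).obj m) :
    Finsupp.mapDomain p.app ((c.pull p).twistedMap h θ θ' x) =
      c.twistedMap h θ θ' (Finsupp.mapDomain p.app x) :=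
  (s3_tmap_mapDomain (c.pull p) c h θ θ' p.app p.app (fun x => (p.nat h θ θ' x).symm)
    (fun _ => rfl) x).symm

/-- The map of glued modules induced by `p`. -/
noncomputable def twMap (c : Cocycle A Y) (p : X.Hom Y) : (c.pull p).glue.Hom c.glue where
  app j n := Finsupp.lmapDomain _ _ p.app
  nat h θ x := c.twMap_nat p h θ θ x

/-- Rescaling of the basis vectors. -/
noncomputable def s3_scale {ι R : Type u} [CommRing R] (μ : ι → R) : (ι →₀ R) →ₗ[R] (ι →₀ R) :=
  Finsupp.linearCombination R (fun x => Finsupp.single x (μ x))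

theorem s3_scale_single {ι R : Type u} [CommRing R] (μ : ι → R) (x : ι) (a : R) :
    s3_scale μ (Finsupp.single x a) = Finsupp.single x (a * μ x) := by
  rw [s3_scale, Finsupp.linearCombination_single, Finsupp.smul_single, smul_eq_mul]

theorem s3_scale_scale {ι R : Type u} [CommRing R] (μ ν : ι → R) (h : ∀ x, μ x * ν x = 1)
    (v : ι →₀ R) : s3_scale ν (s3_scale μ v) = v := by
  induction v using Finsupp.induction_linear with
  | zero => simp
  | add x y hx hy => rw [map_add, map_add, hx, hy]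
  | single x b => rw [s3_scale_single, s3_scale_single, mul_assoc, h, mul_one]

theorem s3_scale_bij {ι R : Type u} [CommRing R] (μ : ι → R) (h : ∀ x, IsUnit (μ x)) :
    Function.Bijective (s3_scale μ) := by
  choose ν hν using fun x => (h x).exists_right_inv
  exact Function.bijective_iff_has_inverse.2 ⟨s3_scale ν, s3_scale_scale μ ν hν,
    s3_scale_scale ν μ fun x => by rw [mul_comm, hν]⟩

/-- The bisimplicial abelian group of a cocycle on the chart `j`. -/
@[reducible] noncomputable def s3_bab (c : Cocycle A X) (j : J) : BAb.{u} where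
  obj n m := X.obj j n m →₀ (A.chart j).obj m
  map θ θ' := c.twistedMap le_rfl θ θ'
  map_id := c.tmap_id j
  map_comp θ η θ' η' x := c.tmap_comp le_rfl le_rfl θ η θ' η' x

/-- The map of bisimplicial abelian groups induced by `p`. -/
noncomputable def s3_babMap (c : Cocycle A Y) (p : X.Hom Y) (j : J) :
    ((c.pull p).s3_bab j).Hom (c.s3_bab j) where
  app _ _ := Finsupp.mapDomain.addMonoidHom p.app
  nat θ θ' x := c.twMap_nat p le_rfl θ θ' x

theorem s3_we_of_diag (c : Cocycle A Y) (p : X.Hom Y) (j : J)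
    (h : (c.s3_babMap p j).diag.IsWeakEquiv) : ((c.twMap p).ab j).IsWeakEquiv :=
  s3_we_congr (f := (c.s3_babMap p j).diag) (fun _ _ => rfl) h

theorem s3_mapDomain_sec {α β M : Type u} [AddCommMonoid M] (f : α → β) (g : β → α)
    (h : ∀ y, f (g y) = y) (v : β →₀ M) : Finsupp.mapDomain f (Finsupp.mapDomain g v) = v := by
  rw [← Finsupp.mapDomain_comp, show f ∘ g = id from funext h, Finsupp.mapDomain_id]

/-- Cohomologous cocycles glue isomorphic modules. -/
theorem exists_rescale (c c' : Cocycle A X) (μ : ∀ {j : J} {n m : ℕ}, X.obj j n m → (A.chart j).obj m)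
    (hu : ∀ {j : J} {n m : ℕ} (x : X.obj j n m), IsUnit (μ x))
    (hμ : ∀ {i j : J} {k n k' m : ℕ} (h : i ≤ j) (θ : SimplexHom k n) (θ' : SimplexHom k' m) (x : X.obj i n m),
      A.transition h θ' (c.c x (θ 0)) * μ (X.map h θ θ' x) = A.transition h θ' (μ x * c'.c x (θ 0))) :
    ∃ g : c.glue.Hom c'.glue, g.IsWeakEquiv := by
  refine ⟨⟨fun j n => s3_scale (fun x : X.obj j n n => μ x), fun {i j k n} h θ x => ?_⟩,
    fun j => SimplicialAb.Hom.we_of_bij _ fun n => s3_scale_bij (fun x : X.obj j n n => μ x) hu⟩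
  show s3_scale _ (c.twistedMap h θ θ x) = c'.twistedMap h θ θ (s3_scale _ x)
  induction x using Finsupp.induction_linear with
  | zero => simp
  | add x y hx hy => rw [map_add, map_add, map_add, map_add, hx, hy]
  | single x b =>
    rw [tmap_single, s3_scale_single, s3_scale_single, tmap_single, map_mul, mul_assoc, hμ,
      ← map_mul, mul_assoc]

end Cocycle

namespace BisimplicialDiagram
variable {X Y Z : BisimplicialDiagram J}

/-- `p` induces an equivalence for every cocycle. -/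
def Hom.IsWeakEquiv (p : X.Hom Y) : Prop := ∀ (A : RingDiagram J) (c : Cocycle A Y), (c.twMap p).IsWeakEquiv

theorem Hom.IsWeakEquiv.comp {p : Y.Hom Z} {q : X.Hom Y} (hp : p.IsWeakEquiv) (hq : q.IsWeakEquiv) : (p.comp q).IsWeakEquiv :=
  fun A c j => s3_we_congr (f := ((c.twMap p).ab j).comp (((c.pull p).twMap q).ab j))
    (fun _ _ => Finsupp.mapDomain_comp.symm) (SimplicialAb.Hom.IsWeakEquiv.comp (hp A c j) (hq A (c.pull p) j))

theorem Hom.s3_ext (f g : X.Hom Y) (h : ∀ j n m (x : X.obj j n m), f.app x = g.app x) :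
    f = g := by
  obtain ⟨f, hf⟩ := f
  obtain ⟨g, homogeneous⟩ := g
  have : @f = @g := by
    funext j n m x
    exact h j n m x
  subst this
  rfl

/-- Two out of three, for a commutative square. -/
theorem Hom.IsWeakEquiv.of_sq {W Y' : BisimplicialDiagram J} {q : W.Hom Y} {p : Y.Hom Z} {q' : W.Hom Y'} {p' : Y'.Hom Z}
    (sq : ∀ j n m (x : W.obj j n m), p.app (q.app x) = p'.app (q'.app x)) (hq : q.IsWeakEquiv)
    (hq' : q'.IsWeakEquiv) (hp' : p'.IsWeakEquiv) : p.IsWeakEquiv := by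
  have h1 : (p.comp q).IsWeakEquiv := by
    rw [Hom.s3_ext (p.comp q) (p'.comp q') sq]
    exact hp'.comp hq'
  intro A c j
  refine SimplicialAb.Hom.IsWeakEquiv.of_comp_left (f := ((c.pull p).twMap q).ab j) ?_ (hq A (c.pull p) j)
  exact s3_we_congr (f := (c.twMap (p.comp q)).ab j)
    (fun _ _ => Finsupp.mapDomain_comp (f := q.app) (g := p.app)) (h1 A c j)

/-- `p` is a trivial fibration in the second simplicial direction. -/
def Hom.Ext (p : X.Hom Y) : Prop :=
  ∀ (j : J) (n M : ℕ) (y : Y.obj j n M) (x : ∀ k, Bdy k M → X.obj j n k),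
    (∀ k θ, p.app (x k θ) = Y.map le_rfl OrderHom.id θ.1 y) →
    (∀ {l k : ℕ} (θ : Bdy k M) (η : SimplexHom l k),
      X.map le_rfl OrderHom.id η (x k θ) = x l (θ.comp η)) →
    ∃ z : X.obj j n M, p.app z = y ∧ ∀ k (θ : Bdy k M), X.map le_rfl OrderHom.id θ.1 z = x k θ

theorem Hom.Ext.s3_data {p : X.Hom Y} (h : p.Ext) (j : J) (n : ℕ) :
    ∃ (s : ∀ m, Y.obj j n m → X.obj j n m) (H : ∀ m, X.obj j n m → SimplexHom m 1 → X.obj j n m),
      (∀ m y, p.app (s m y) = y) ∧
      (∀ m (i : Fin (m + 2)) y, X.map le_rfl OrderHom.id (face i) (s (m + 1) y) =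
        s m (Y.map le_rfl OrderHom.id (face i) y)) ∧
      (∀ m (i : Fin (m + 2)) x χ, X.map le_rfl OrderHom.id (face i) (H (m + 1) x χ) =
        H m (X.map le_rfl OrderHom.id (face i) x) (χ.comp (face i))) ∧
      (∀ m x, H m x (vert m 0) = x) ∧ ∀ m x, H m x (vert m 1) = s m (p.app x) := by
  classical
  have Xc : ∀ {l k m : ℕ} (θ : SimplexHom k m) (η : SimplexHom l k) (x : X.obj j n m),
      X.map le_rfl OrderHom.id η (X.map le_rfl OrderHom.id θ x) =
        X.map le_rfl OrderHom.id (θ.comp η) x :=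
    fun θ η x => X.map_comp le_rfl le_rfl OrderHom.id OrderHom.id θ η x
  have Yc : ∀ {l k m : ℕ} (θ : SimplexHom k m) (η : SimplexHom l k) (x : Y.obj j n m),
      Y.map le_rfl OrderHom.id η (Y.map le_rfl OrderHom.id θ x) =
        Y.map le_rfl OrderHom.id (θ.comp η) x :=
    fun θ η x => Y.map_comp le_rfl le_rfl OrderHom.id OrderHom.id θ η x
  have hne : ∀ m (y : Y.obj j n m), Nonempty (X.obj j n m) := by
    intro m y
    obtain ⟨z, -⟩ := h j n 0 (Y.map le_rfl OrderHom.id (vert 0 0) y)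
      (fun k θ => (Bdy.isEmpty k).elim θ) (fun k θ => (Bdy.isEmpty k).elim θ)
      (fun θ _ => (Bdy.isEmpty _).elim θ)
    exact ⟨X.map le_rfl OrderHom.id (vert m 0) z⟩
  obtain ⟨s, ps, -, sf⟩ := s3_lift (E := X.obj j n) (B := Y.obj j n) (W := Y.obj j n)
    (fun θ => X.map le_rfl OrderHom.id θ) (fun θ => Y.map le_rfl OrderHom.id θ)
    (fun θ => Y.map le_rfl OrderHom.id θ) (X.map_id j n) Xc Yc Yc (fun _ => p.app)
    (fun θ x => p.nat le_rfl OrderHom.id θ x) (h j n) (fun _ y => y) (fun _ _ => rfl)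
    (fun _ _ => False) (fun m y => (hne m y).some) (fun _ _ _ hf => hf.elim)
    (fun _ _ hf => hf.elim)
  obtain ⟨H, -, HS, Hf⟩ := s3_lift (E := X.obj j n) (B := Y.obj j n)
    (W := fun m => X.obj j n m × SimplexHom m 1)
    (fun θ => X.map le_rfl OrderHom.id θ) (fun θ => Y.map le_rfl OrderHom.id θ)
    (fun θ w => (X.map le_rfl OrderHom.id θ w.1, w.2.comp θ)) (X.map_id j n) Xc Yc
    (fun θ η w => Prod.ext (Xc θ η w.1) rfl) (fun _ => p.app)
    (fun θ x => p.nat le_rfl OrderHom.id θ x) (h j n) (fun _ w => p.app w.1)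
    (fun θ w => p.nat le_rfl OrderHom.id θ w.1)
    (fun m w => w.2 = vert m 0 ∨ w.2 = vert m 1)
    (fun m w => if w.2 = vert m 0 then w.1 else s m (p.app w.1))
    (by
      rintro m i ⟨x, χ⟩ (hχ | hχ)
      · obtain rfl : χ = vert (m + 1) 0 := hχ
        refine ⟨Or.inl rfl, ?_⟩
        have e : (vert (m + 1) (0 : Fin 2)).comp (face i) = vert m 0 := rfl
        simp only [e, if_true]
      · obtain rfl : χ = vert (m + 1) 1 := hχ
        refine ⟨Or.inr rfl, ?_⟩
        have e : (vert (m + 1) (1 : Fin 2)).comp (face i) = vert m 1 := rfl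
        simp only [e, if_neg (s3_vert_ne _)]
        rw [sf, p.nat])
    (by
      rintro m ⟨x, χ⟩ _
      by_cases hχ : χ = vert m 0
      · simp only [if_pos hχ]
      · simp only [if_neg hχ]
        exact ps m _)
  refine ⟨s, fun m x χ => H m (x, χ), ps, sf, fun m i x χ => Hf m i (x, χ), fun m x => ?_,
    fun m x => ?_⟩
  · exact (HS m (x, vert m 0) (Or.inl rfl)).trans (if_pos rfl)
  · exact (HS m (x, vert m 1) (Or.inr rfl)).trans (if_neg (s3_vert_ne _))

theorem Hom.Ext.we {p : X.Hom Y} (h : p.Ext) : p.IsWeakEquiv := by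
  intro A c j
  refine c.s3_we_of_diag p j (BAb.Hom.diag_we_of_row _ (fun n m v => ?_) fun n => ?_)
  · obtain ⟨s, -, ps, -⟩ := h.s3_data j n
    exact ⟨Finsupp.mapDomain (s m) v, Cocycle.s3_mapDomain_sec _ _ (ps m) v⟩
  · obtain ⟨s, H, ps, sf, Hf, h₀, h₁⟩ := h.s3_data j n
    refine SimplicialAb.Hom.we_of_section _ (fun m => Finsupp.mapDomain.addMonoidHom (s m))
      (fun m i y => ?_) (fun m y => Cocycle.s3_mapDomain_sec _ _ (ps m) y) fun m x hx => ?_
    · exact Cocycle.s3_tmap_mapDomain c (c.pull p) le_rfl OrderHom.id (face i) (s (m + 1)) (s m)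
        (sf m i) (fun y => ((c.pull p).c_zero _).trans (c.c_zero _).symm) y
    · have key := SimplicialAb.prism (X := ((c.pull p).s3_bab j).row n) (Y := ((c.pull p).s3_bab j).row n)
        (fun m χ => Finsupp.mapDomain.addMonoidHom (fun x => H m x χ))
        (fun m i χ v => Cocycle.s3_tmap_mapDomain (c.pull p) (c.pull p) le_rfl OrderHom.id
          (face i) (fun x => H (m + 1) x χ) (fun x => H m x (χ.comp (face i)))
          (fun x => Hf m i x χ)
          (fun y => ((c.pull p).c_zero _).trans ((c.pull p).c_zero _).symm) v) hx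
      have e₀ : Finsupp.mapDomain (fun x => H m x (vert m 0)) x = x := by
        rw [show (fun x => H m x (vert m 0)) = id from funext (h₀ m), Finsupp.mapDomain_id]
      have e₁ : Finsupp.mapDomain (fun x => H m x (vert m 1)) x =
          Finsupp.mapDomain (s m) (Finsupp.mapDomain p.app x) := by
        rw [← Finsupp.mapDomain_comp]
        exact congrArg (fun f => Finsupp.mapDomain f x) (funext (h₁ m))
      have key' : (((c.pull p).s3_bab j).row n).IsBoundary
          (Finsupp.mapDomain (fun x => H m x (vert m 0)) x -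
            Finsupp.mapDomain (fun x => H m x (vert m 1)) x) := key
      rw [e₀, e₁] at key'
      exact key'

theorem Hom.Ext.prodL {p : X.Hom Y} (h : p.Ext) (Z : BisimplicialDiagram J) : (p.prodL Z).Ext := by
  intro j n M y x hx hn
  obtain ⟨z, hz, hz'⟩ := h j n M y.2 (fun k θ => (x k θ).2)
    (fun k θ => congrArg Prod.snd (hx k θ)) (fun θ η => congrArg Prod.snd (hn θ η))
  exact ⟨(y.1, z), Prod.ext rfl hz,
    fun k θ => Prod.ext (congrArg Prod.fst (hx k θ)).symm (hz' k θ)⟩

theorem Hom.Ext.prodR {p : X.Hom Y} (h : p.Ext) (Z : BisimplicialDiagram J) : (p.prodR Z).Ext := by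
  intro j n M y x hx hn
  obtain ⟨z, hz, hz'⟩ := h j n M y.1 (fun k θ => (x k θ).1)
    (fun k θ => congrArg Prod.fst (hx k θ)) (fun θ η => congrArg Prod.fst (hn θ η))
  exact ⟨(z, y.2), Prod.ext hz rfl,
    fun k θ => Prod.ext (hz' k θ) (congrArg Prod.snd (hx k θ)).symm⟩

/-- A deformation retraction over `Y` in the first simplicial direction. -/
theorem Hom.we_of_lab (p : X.Hom Y) (s : ∀ {j : J} {n m : ℕ}, Y.obj j n m → X.obj j n m)
    (H : ∀ {j : J} {n m : ℕ}, X.obj j n m → SimplexHom n 1 → X.obj j n m)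
    (ps : ∀ j n m (y : Y.obj j n m), p.app (s y) = y)
    (pH : ∀ j n m (x : X.obj j n m) χ, p.app (H x χ) = p.app x)
    (sn : ∀ j k n m (θ : SimplexHom k n) (y : Y.obj j n m),
      X.map le_rfl θ OrderHom.id (s y) = s (Y.map le_rfl θ OrderHom.id y))
    (Hn : ∀ j k n m (θ : SimplexHom k n) (x : X.obj j n m) (χ : SimplexHom n 1),
      X.map le_rfl θ OrderHom.id (H x χ) = H (X.map le_rfl θ OrderHom.id x) (χ.comp θ))
    (h₀ : ∀ j n m (x : X.obj j n m), H x (vert n 0) = x)
    (h₁ : ∀ j n m (x : X.obj j n m), H x (vert n 1) = s (p.app x)) : p.IsWeakEquiv := by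
  intro A c j
  refine c.s3_we_of_diag p j (BAb.Hom.diag_we_of_col _ (fun n m v => ?_) fun m => ?_)
  · exact ⟨Finsupp.mapDomain s v, Cocycle.s3_mapDomain_sec _ _ (ps j n m) v⟩
  · refine SimplicialAb.Hom.we_of_section _
      (fun n => Finsupp.mapDomain.addMonoidHom (s : Y.obj j n m → X.obj j n m))
      (fun n i y => ?_) (fun n y => Cocycle.s3_mapDomain_sec _ _ (ps j n m) y) fun n x hx => ?_
    · exact Cocycle.s3_tmap_mapDomain c (c.pull p) le_rfl (face i) OrderHom.id s s
        (sn j n (n + 1) m (face i)) (fun y => congrArg (fun w => c.c w (face i 0)) (ps _ _ _ y)) y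
    · have key := SimplicialAb.prism (X := ((c.pull p).s3_bab j).col m) (Y := ((c.pull p).s3_bab j).col m)
        (fun n χ => Finsupp.mapDomain.addMonoidHom (fun x : X.obj j n m => H x χ))
        (fun n i χ v => Cocycle.s3_tmap_mapDomain (c.pull p) (c.pull p) le_rfl (face i)
          OrderHom.id (fun x => H x χ) (fun x => H x (χ.comp (face i)))
          (fun x => Hn j n (n + 1) m (face i) x χ)
          (fun y => congrArg (fun w => c.c w (face i 0)) (pH _ _ _ y χ)) v) hx
      have e₀ : Finsupp.mapDomain (fun x => H x (vert n 0)) x = x := by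
        rw [show (fun x : X.obj j n m => H x (vert n 0)) = id from funext (h₀ j n m),
          Finsupp.mapDomain_id]
      have e₁ : Finsupp.mapDomain (fun x => H x (vert n 1)) x =
          Finsupp.mapDomain s (Finsupp.mapDomain p.app x) := by
        rw [← Finsupp.mapDomain_comp]
        exact congrArg (fun f => Finsupp.mapDomain f x) (funext (h₁ j n m))
      have key' : (((c.pull p).s3_bab j).col m).IsBoundary
          (Finsupp.mapDomain (fun x => H x (vert n 0)) x -
            Finsupp.mapDomain (fun x => H x (vert n 1)) x) := key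
      rw [e₀, e₁] at key'
      exact key'

end BisimplicialDiagram

end Pool.Agent.P.MP_932208_ag
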