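import Pool.Agent.P.MP_932208_ag.TorsL
import Pool.Agent.P.MP_932208_ag.DG

/-!
Torsion of Koszul complexes and of cones.
-/

namespace Pool.Agent.P.MP_932208_ag

open Classical

universe u

section tkaux

variable {K : Type u} [CommRing K] {U U' U'' : Type u}

/-- `M` changes the degree by `j`. -/
def tk_Dg (dg : U → ℤ) (dg' : U' → ℤ) (j : ℤ) (M : Matrix U U' K) : Prop :=
  ∀ s r, dg' r ≠ dg s + j → M s r = 0

theorem tk_Dg.add {dg : U → ℤ} {dg' : U' → ℤ} {j : ℤ} {M MooreDGA : Matrix U U' K}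
    (hM : tk_Dg dg dg' j M) (hN : tk_Dg dg dg' j MooreDGA) : tk_Dg dg dg' j (M + MooreDGA) := by
  intro s r h
  simp [hM s r h, hN s r h]

theorem tk_Dg.neg {dg : U → ℤ} {dg' : U' → ℤ} {j : ℤ} {M : Matrix U U' K}
    (hM : tk_Dg dg dg' j M) : tk_Dg dg dg' j (-M) := by
  intro s r h
  simp [hM s r h]

theorem tk_Dg.sub {dg : U → ℤ} {dg' : U' → ℤ} {j : ℤ} {M MooreDGA : Matrix U U' K}
    (hM : tk_Dg dg dg' j M) (hN : tk_Dg dg dg' j MooreDGA) : tk_Dg dg dg' j (M - MooreDGA) := by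
  intro s r h
  simp [hM s r h, hN s r h]

theorem tk_Dg.smul {dg : U → ℤ} {dg' : U' → ℤ} {j : ℤ} {M : Matrix U U' K}
    (hM : tk_Dg dg dg' j M) (c : K) : tk_Dg dg dg' j (c • M) := by
  intro s r h
  simp [hM s r h]

theorem tk_Dg.zero (dg : U → ℤ) (dg' : U' → ℤ) (j : ℤ) :
    tk_Dg dg dg' j (0 : Matrix U U' K) := fun _ _ _ => rfl

theorem tk_Dg.one [DecidableEq U] (dg : U → ℤ) : tk_Dg dg dg 0 (1 : Matrix U U K) := by
  intro s r h
  apply Matrix.one_apply_ne
  rintro rfl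
  exact h (by simp)

theorem tk_Dg.mul [Fintype U'] {dg : U → ℤ} {dg' : U' → ℤ} {dg'' : U'' → ℤ} {i j k : ℤ}
    {M : Matrix U U' K} {MooreDGA : Matrix U' U'' K} (hM : tk_Dg dg dg' i M) (hN : tk_Dg dg' dg'' j MooreDGA)
    (hk : i + j = k) : tk_Dg dg dg'' k (M * MooreDGA) := by
  intro s r h
  rw [Matrix.mul_apply]
  refine Finset.sum_eq_zero fun x _ => ?_
  by_cases hx : dg' x = dg s + i
  · rw [hN x r (by rw [hx]; omega), mul_zero]
  · rw [hM s x hx, zero_mul]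

theorem tk_Dg.pow [Fintype U] [DecidableEq U] {dg : U → ℤ} {i : ℤ} {M : Matrix U U K}
    (hM : tk_Dg dg dg i M) (n : ℕ) : tk_Dg dg dg (n * i) (M ^ n) := by
  induction n with
  | zero => simpa using tk_Dg.one dg
  | succ n ih => rw [pow_succ]; exact ih.mul hM (by push_cast; ring)

theorem tk_Dg.of_cx {dg : U → ℤ} {dg' : U' → ℤ} {M : Matrix U U' K}
    (h : ∀ s r, dg' r + 1 ≠ dg s → M s r = 0) : tk_Dg dg dg' (-1) M :=
  fun s r hr => h s r (by omega)

theorem tk_Dg.to_cx {dg : U → ℤ} {dg' : U' → ℤ} {M : Matrix U U' K}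
    (h : tk_Dg dg dg' (-1) M) : ∀ s r, dg' r + 1 ≠ dg s → M s r = 0 :=
  fun s r hr => h s r (by omega)

theorem tk_contr_iff [Fintype U] [i : DecidableEq U] {dg : U → ℤ} {d h : Matrix U U K} :
    IsContraction dg d h ↔ tk_Dg dg dg 1 h ∧ d * h + h * d = 1 := by
  obtain rfl : i = fun a b => propDecidable (a = b) := Subsingleton.elim _ _
  rfl

theorem tk_detb [Fintype U] {dg : U → ℤ} [i : DecidableEq (OddCell dg)] (β : OddCell dg ≃ EvenCell dg)
    (M : Matrix U U K) : oddEvenDet β M = Matrix.det (Matrix.of fun o o' : OddCell dg => M o.1 (β o').1) := by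
  unfold oddEvenDet
  exact congrArg (fun d : DecidableEq (OddCell dg) => @Matrix.det _ d _ _ _ _) (Subsingleton.elim _ _)

/-- A matrix that is triangular for a weight, with diagonal blocks that are diagonal. -/
theorem tk_det_wt [Fintype U] [DecidableEq U] (w : U → ℤ) (M : Matrix U U K)
    (h : ∀ s r, w r ≤ w s → s ≠ r → M s r = 0) : M.det = ∏ s, M s s := by
  have hb : M.BlockTriangular w := fun s r hr => h s r hr.le (by rintro rfl; exact lt_irrefl _ hr)
  rw [hb.det, ← Finset.prod_fiberwise_of_maps_to (s := Finset.univ) (t := Finset.univ.image w)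
    (g := w) (fun x _ => Finset.mem_image_of_mem w (Finset.mem_univ x))]
  refine Finset.prod_congr rfl fun a _ => ?_
  have : M.toSquareBlock w a = Matrix.diagonal fun x => M x.1 x.1 := by
    ext x y
    by_cases hxy : x = y
    · subst hxy; simp [Matrix.toSquareBlock_def]
    · rw [Matrix.diagonal_apply_ne _ hxy, Matrix.toSquareBlock_def]
      exact h _ _ (by rw [x.2, y.2]) fun e => hxy (Subtype.ext e)
  rw [this, Matrix.det_diagonal]
  exact (Finset.prod_subtype (p := fun x => w x = a) _ (by simp) fun x => M x x).symm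

theorem tk_sum_od [Fintype U] {dg : U → ℤ} (f : U → K) (h : ∀ s, Even (dg s) → f s = 0) :
    ∑ s, f s = ∑ s : OddCell dg, f s.1 := by
  rw [← Fintype.sum_subtype_add_sum_subtype (fun s => Odd (dg s)) f]
  rw [Finset.sum_eq_zero (s := Finset.univ) (f := fun s : {s // ¬ Odd (dg s)} => f s.1)
    fun s _ => h _ (Int.not_odd_iff_even.1 s.2), add_zero]

theorem tk_sum_ev [Fintype U] {dg : U → ℤ} (f : U → K) (h : ∀ s, Odd (dg s) → f s = 0) :
    ∑ s, f s = ∑ s : EvenCell dg, f s.1 := by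
  rw [← Fintype.sum_subtype_add_sum_subtype (fun s => Even (dg s)) f]
  rw [Finset.sum_eq_zero (s := Finset.univ) (f := fun s : {s // ¬ Even (dg s)} => f s.1)
    fun s _ => h _ (Int.not_even_iff_odd.1 s.2), add_zero]

theorem tk_detb_mul_left [Fintype U] {dg : U → ℤ} [DecidableEq (OddCell dg)] (β : OddCell dg ≃ EvenCell dg)
    (L M : Matrix U U K) (hL : tk_Dg dg dg 0 L) :
    oddEvenDet β (L * M) = Matrix.det (Matrix.of fun o o' : OddCell dg => L o.1 o'.1) * oddEvenDet β M := by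
  rw [tk_detb, tk_detb, ← Matrix.det_mul]
  congr 1
  ext o o'
  simp only [Matrix.of_apply, Matrix.mul_apply]
  refine tk_sum_od (dg := dg) _ fun s hs => ?_
  rw [hL _ _ (by have := o.2; grind), zero_mul]

theorem tk_detb_mul_right [Fintype U] {dg : U → ℤ} [DecidableEq (OddCell dg)] [DecidableEq (EvenCell dg)]
    (β : OddCell dg ≃ EvenCell dg) (M R : Matrix U U K) (hR : tk_Dg dg dg 0 R) :
    oddEvenDet β (M * R) = oddEvenDet β M * Matrix.det (Matrix.of fun e e' : EvenCell dg => R e.1 e'.1) := by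
  rw [tk_detb, tk_detb, ← Matrix.det_submatrix_equiv_self β, ← Matrix.det_mul]
  congr 1
  ext o o'
  simp only [Matrix.of_apply, Matrix.mul_apply, Matrix.submatrix_apply]
  rw [tk_sum_ev (dg := dg) _ fun s hs => ?_]
  · exact (Equiv.sum_comp β fun e : EvenCell dg => M o.1 e.1 * R e.1 (β o').1).symm
  · rw [hR _ _ (by have := (β o').2; grind), mul_zero]

theorem tk_det_scalar' [Fintype U] [DecidableEq U] [Fintype U'] [DecidableEq U']
    (A : Matrix U U K) (B : Matrix U U' K) (C : Matrix U' U K) (x : K) :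
    (Matrix.fromBlocks A B C (Matrix.diagonal fun _ => x)).det * x ^ Fintype.card U =
      (x • A - B * C).det * x ^ Fintype.card U' := by
  have key : Matrix.fromBlocks A B C (Matrix.diagonal fun _ => x) *
      Matrix.fromBlocks (Matrix.diagonal fun _ => x) 0 (-C) 1 =
      Matrix.fromBlocks (x • A - B * C) B 0 (Matrix.diagonal fun _ => x) := by
    rw [Matrix.fromBlocks_multiply]
    congr 1
    · ext i j; simp [sub_eq_add_neg, mul_comm]
    · simp
    · ext i j; simp [mul_comm]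
    · simp
  have k2 := congrArg Matrix.det key
  rwa [Matrix.det_mul, Matrix.det_fromBlocks_zero₁₂, Matrix.det_fromBlocks_zero₂₁,
    Matrix.det_one, mul_one, Matrix.det_diagonal, Matrix.det_diagonal, Finset.prod_const,
    Finset.prod_const, Finset.card_univ, Finset.card_univ] at k2

/-- The value `κ` of the torsion of an exact Koszul complex with `a` odd and `b` even primary
cells. -/
def KzVal (κ t : K) (a b : ℕ) : Prop := (a = b ∧ κ = 1) ∨ (IsUnit t ∧ κ * t ^ a = t ^ b)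

/-- Determinant of a block matrix with a scalar corner. -/
theorem tk_det_scalar [Fintype U] [DecidableEq U] [Fintype U'] [DecidableEq U']
    (hc : Fintype.card U = Fintype.card U') (A : Matrix U U K) (B : Matrix U U' K)
    (C : Matrix U' U K) (x : K) :
    (Matrix.fromBlocks A B C (Matrix.diagonal fun _ => x)).det = (x • A - B * C).det := by
  let y : Polynomial K := Polynomial.X + Polynomial.C x
  have hy : y.Monic := Polynomial.monic_X_add_C x
  let c : K →+* Polynomial K := Polynomial.C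
  have key : Matrix.fromBlocks (A.map c) (B.map c) (C.map c) (Matrix.diagonal fun _ => y) *
      Matrix.fromBlocks (Matrix.diagonal fun _ => y) 0 (-(C.map c)) 1 =
      Matrix.fromBlocks (y • A.map c - B.map c * C.map c) (B.map c) 0
        (Matrix.diagonal fun _ => y) := by
    rw [Matrix.fromBlocks_multiply]
    congr 1
    · ext i j; simp [sub_eq_add_neg, mul_comm]
    · simp
    · ext i j; simp [mul_comm]
    · simp
  have k2 := congrArg Matrix.det key
  rw [Matrix.det_mul, Matrix.det_fromBlocks_zero₁₂, Matrix.det_fromBlocks_zero₂₁,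
    Matrix.det_one, mul_one, Matrix.det_diagonal, Matrix.det_diagonal, Finset.prod_const,
    Finset.prod_const, Finset.card_univ, Finset.card_univ, hc] at k2
  have k3 := (hy.pow (Fintype.card U')).isRegular.right k2
  have k4 := congrArg (Polynomial.constantCoeff (R := K)) k3
  rw [RingHom.map_det, RingHom.map_det] at k4
  convert k4 using 2
  · ext (i | i) (j | j)
    · simp [c]
    · simp [c]
    · simp [c]
    · by_cases hij : i = j <;> simp [y, hij]
  · ext i j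
    simp [c, y, Matrix.mul_apply]

end tkaux

variable {S V S₁ V₁ S₂ V₂ : Type u} {K : Type u} [CommRing K]

theorem odd_succ_iff (a : ℤ) : Odd (a + 1) ↔ Even a := by grind

theorem even_succ_iff (a : ℤ) : Even (a + 1) ↔ Odd a := by grind

theorem odd_kdg_swap (dV : V → ℤ) (x : V ⊕ V) : Even (kdg dV x.swap) ↔ Odd (kdg dV x) := by
  rcases x with v | v <;> simp [kdg, odd_succ_iff, even_succ_iff]

theorem even_kdg_swap (dV : V → ℤ) (x : V ⊕ V) : Odd (kdg dV x.swap) ↔ Even (kdg dV x) := by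
  rcases x with v | v <;> simp [kdg, odd_succ_iff, even_succ_iff]

/-- The pairing `v ↔ ε v`. -/
def kpair (dV : V → ℤ) : OddCell (kdg dV) ≃ EvenCell (kdg dV) where
  toFun x := ⟨x.1.swap, (odd_kdg_swap dV x.1).2 x.2⟩
  invFun x := ⟨x.1.swap, (even_kdg_swap dV x.1).2 x.2⟩
  left_inv x := Subtype.ext (Sum.swap_swap _)
  right_inv x := Subtype.ext (Sum.swap_swap _)

/-- The pairing of the cells of a cone: `β⁻¹` on the shifted cells, `v ↔ ε v` on the others. -/
def cpair {dS : S → ℤ} (β : OddCell dS ≃ EvenCell dS) (dV : V → ℤ) : OddCell (cdg dS dV) ≃ EvenCell (cdg dS dV) where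
  toFun
    | ⟨.inl s, h⟩ => ⟨.inl (β.symm ⟨s, (odd_succ_iff _).1 h⟩).1,
        (even_succ_iff _).2 (β.symm _).2⟩
    | ⟨.inr x, h⟩ => ⟨.inr x.swap, (odd_kdg_swap dV x).2 h⟩
  invFun
    | ⟨.inl s, h⟩ => ⟨.inl (β ⟨s, (even_succ_iff _).1 h⟩).1,
        (odd_succ_iff _).2 (β _).2⟩
    | ⟨.inr x, h⟩ => ⟨.inr x.swap, (even_kdg_swap dV x).2 h⟩
  left_inv := by
    rintro ⟨s | x, h⟩
    · simp
    · simp
  right_inv := by
    rintro ⟨s | x, h⟩
    · simp
    · simp

/-- The decomposition of the cells of a cone induced by decompositions of `S` and `V`. -/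
def cequiv (eS : S₁ ⊕ S₂ ≃ S) (eV : V₁ ⊕ V₂ ≃ V) :
    (S₁ ⊕ (V₁ ⊕ V₁)) ⊕ (S₂ ⊕ (V₂ ⊕ V₂)) ≃ S ⊕ (V ⊕ V) where
  toFun := Sum.elim (Sum.map (eS ∘ .inl) (Sum.map (eV ∘ .inl) (eV ∘ .inl)))
    (Sum.map (eS ∘ .inr) (Sum.map (eV ∘ .inr) (eV ∘ .inr)))
  invFun := Sum.elim (fun s => Sum.map .inl .inl (eS.symm s))
    (Sum.elim (fun v => Sum.map (.inr ∘ .inl) (.inr ∘ .inl) (eV.symm v))
      (fun v => Sum.map (.inr ∘ .inr) (.inr ∘ .inr) (eV.symm v)))
  left_inv := by rintro ((s | v | v) | (s | v | v)) <;> simp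
  right_inv := by
    rintro (s | v | v)
    · obtain ⟨s | s, rfl⟩ := eS.surjective s <;> simp
    · obtain ⟨s | s, rfl⟩ := eV.surjective v <;> simp
    · obtain ⟨s | s, rfl⟩ := eV.surjective v <;> simp

variable [Fintype S] [Fintype V] [Fintype S₁] [Fintype V₁] [Fintype S₂] [Fintype V₂]

omit [Fintype V] in
theorem tk_dg_kdg {dV : V → ℤ} {j : ℤ} {a b c e : Matrix V V K} :
    tk_Dg (kdg dV) (kdg dV) j (Matrix.fromBlocks a b c e) ↔
      tk_Dg dV dV j a ∧ tk_Dg dV dV (j - 1) b ∧ tk_Dg dV dV (j + 1) c ∧ tk_Dg dV dV j e := by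
  constructor
  · intro h
    refine ⟨fun s r hr => h (.inl s) (.inl r) ?_, fun s r hr => h (.inl s) (.inr r) ?_,
      fun s r hr => h (.inr s) (.inl r) ?_, fun s r hr => h (.inr s) (.inr r) ?_⟩ <;>
    simp only [kdg, Sum.elim_inl, Sum.elim_inr] <;> omega
  · rintro ⟨h1, h2, h3, h4⟩ (s | s) (r | r) hr <;>
      simp only [kdg, Sum.elim_inl, Sum.elim_inr] at hr
    · exact h1 s r hr
    · exact h2 s r (by omega)
    · exact h3 s r (by omega)
    · exact h4 s r (by omega)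

theorem tk_lin (t : K) (p q h k : Matrix V V K) :
    kz0 t p q * Matrix.fromBlocks h k 0 (-h) + Matrix.fromBlocks h k 0 (-h) * kz0 t p q =
      Matrix.fromBlocks (p * h + h * p + t • k) (p * k - q * h + h * q - k * p) 0
        (p * h + h * p + t • k) := by
  have hd : ∀ M : Matrix V V K, Matrix.diagonal (fun _ => t) * M = t • M := fun M => by
    ext i j; simp
  have hd' : ∀ M : Matrix V V K, M * Matrix.diagonal (fun _ => t) = t • M := fun M => by
    ext i j; simp [mul_comm]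
  simp only [kz0, Matrix.fromBlocks_multiply, Matrix.fromBlocks_add, hd, hd', Matrix.mul_zero,
    Matrix.zero_mul, Matrix.mul_neg, Matrix.neg_mul, smul_neg, neg_neg]
  congr 1 <;> abel

/-- An exact Koszul complex has an `ε`-linear contraction. -/
theorem tk_exists_lin {dV : V → ℤ} (t : K) (p q : Matrix V V K) (hD : IsExactComplex (kdg dV) (kz0 t p q)) :
    ∃ h k : Matrix V V K, IsContraction (kdg dV) (kz0 t p q) (Matrix.fromBlocks h k 0 (-h)) := by
  obtain ⟨hdeg, hDD, H₀, hH₀⟩ := hD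
  rw [tk_contr_iff] at hH₀
  have hdeg' := tk_Dg.of_cx hdeg
  have hq : tk_Dg dV dV (-2) q := by
    have := (tk_dg_kdg.1 hdeg').2.1
    simpa using this
  set D := kz0 t p q with hDdef
  have step : ∀ j : ℕ, ∃ h k A B : Matrix V V K,
      tk_Dg (kdg dV) (kdg dV) 1 (Matrix.fromBlocks h k 0 (-h)) ∧
      1 - (D * Matrix.fromBlocks h k 0 (-h) + Matrix.fromBlocks h k 0 (-h) * D) =
        Matrix.fromBlocks (q ^ j * A) (q ^ j * B) 0 (q ^ j * A) := by
    intro j
    induction j with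
    | zero => exact ⟨0, 0, 1, 0, by simpa using tk_Dg.zero _ _ _, by simp⟩
    | succ j ih =>
      obtain ⟨h, k, A, B, hH, hE⟩ := ih
      set H := Matrix.fromBlocks h k 0 (-h) with hHdef
      set E := Matrix.fromBlocks (q ^ j * A) (q ^ j * B) 0 (q ^ j * A) with hEdef
      have hEdeg : tk_Dg (kdg dV) (kdg dV) 0 E := by
        rw [← hE]
        exact (tk_Dg.one _).sub ((hdeg'.mul hH (by norm_num)).add (hH.mul hdeg' (by norm_num)))
      have hcomm : D * E = E * D := by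
        rw [← hE]
        simp only [mul_sub, sub_mul, mul_add, add_mul, ← mul_assoc, hDD, mul_one, one_mul,
          zero_mul, zero_add]
        rw [mul_assoc H D D, hDD, mul_zero, add_zero]
      obtain ⟨h₀, k₀, m₀, n₀, rfl⟩ : ∃ h₀ k₀ m₀ n₀, H₀ = Matrix.fromBlocks h₀ k₀ m₀ n₀ :=
        ⟨_, _, _, _, (Matrix.fromBlocks_toBlocks H₀).symm⟩
      have hEH := hEdeg.mul hH₀.1 (zero_add 1)
      have hEH' : E * Matrix.fromBlocks h₀ k₀ m₀ n₀ =
          Matrix.fromBlocks (q ^ j * (A * h₀ + B * m₀)) (q ^ j * (A * k₀ + B * n₀))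
            (q ^ j * (A * m₀)) (q ^ j * (A * n₀)) := by
        simp only [hEdef, Matrix.fromBlocks_multiply, Matrix.zero_mul, zero_add, mul_add,
          mul_assoc]
      rw [hEH', tk_dg_kdg] at hEH
      set g₁ := q ^ j * (A * h₀ + B * m₀) with hg₁
      set g₂ := q ^ j * (A * k₀ + B * n₀) with hg₂
      have hG : tk_Dg (kdg dV) (kdg dV) 1 (Matrix.fromBlocks g₁ g₂ 0 (-g₁)) :=
        tk_dg_kdg.2 ⟨hEH.1, hEH.2.1, tk_Dg.zero _ _ _, hEH.1.neg⟩
      have hsum : Matrix.fromBlocks (h + g₁) (k + g₂) 0 (-(h + g₁)) =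
          H + Matrix.fromBlocks g₁ g₂ 0 (-g₁) := by
        rw [hHdef, Matrix.fromBlocks_add, add_zero, neg_add]
      refine ⟨h + g₁, k + g₂, A * m₀, A * n₀ + (A * h₀ + B * m₀), hsum ▸ hH.add hG, ?_⟩
      set F : Matrix (V ⊕ V) (V ⊕ V) K :=
        Matrix.fromBlocks 0 0 (q ^ j * (A * m₀)) (q ^ j * (A * n₀) + g₁) with hF
      have hFG : E * Matrix.fromBlocks h₀ k₀ m₀ n₀ = F + Matrix.fromBlocks g₁ g₂ 0 (-g₁) := by
        rw [hEH', hF, Matrix.fromBlocks_add]
        simp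
      have hE' : 1 - (D * Matrix.fromBlocks (h + g₁) (k + g₂) 0 (-(h + g₁)) +
          Matrix.fromBlocks (h + g₁) (k + g₂) 0 (-(h + g₁)) * D) = D * F + F * D := by
        have e1 : E = D * (E * Matrix.fromBlocks h₀ k₀ m₀ n₀) +
            E * Matrix.fromBlocks h₀ k₀ m₀ n₀ * D := by
          rw [← mul_assoc, hcomm, mul_assoc, mul_assoc, ← mul_add, hH₀.2, mul_one]
        rw [hFG] at e1
        rw [hsum, mul_add, add_mul, add_add_add_comm, ← sub_sub, hE, e1, mul_add, add_mul]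
        abel
      have hE'' := hE'
      rw [hDdef, tk_lin, ← Matrix.fromBlocks_one, sub_eq_add_neg, Matrix.fromBlocks_neg,
        Matrix.fromBlocks_add, hF, kz0, Matrix.fromBlocks_multiply, Matrix.fromBlocks_multiply,
        Matrix.fromBlocks_add, Matrix.fromBlocks_inj] at hE''
      obtain ⟨e1, e2, -, -⟩ := hE''
      rw [hDdef, tk_lin, ← Matrix.fromBlocks_one, sub_eq_add_neg, Matrix.fromBlocks_neg,
        Matrix.fromBlocks_add, e1, e2]
      simp only [Matrix.mul_zero, Matrix.zero_mul, zero_add, add_zero, neg_zero, hg₁, pow_succ',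
        mul_assoc, mul_add]
  obtain ⟨MooreDGA, hN⟩ := Finite.exists_le fun x : V × V => (dV x.1 - dV x.2).toNat
  obtain ⟨h, k, A, B, hH, hE⟩ := step (MooreDGA + 1)
  have hq0 : q ^ (MooreDGA + 1) = 0 := by
    ext s r
    refine hq.pow (MooreDGA + 1) s r ?_
    have : (dV s - dV r).toNat ≤ MooreDGA := hN (s, r)
    push_cast
    omega
  refine ⟨h, k, tk_contr_iff.2 ⟨hH, ?_⟩⟩
  rw [hq0] at hE
  simp only [Matrix.zero_mul, Matrix.fromBlocks_zero] at hE
  exact (sub_eq_zero.1 hE).symm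

/-- The odd cells of a Koszul complex. -/
def tk_kE (dV : V → ℤ) : OddCell dV ⊕ EvenCell dV ≃ OddCell (kdg dV) where
  toFun := Sum.elim (fun o => ⟨.inl o.1, o.2⟩) fun e => ⟨.inr e.1, (odd_succ_iff _).2 e.2⟩
  invFun
    | ⟨.inl v, h⟩ => .inl ⟨v, h⟩
    | ⟨.inr v, h⟩ => .inr ⟨v, (odd_succ_iff _).1 h⟩
  left_inv := by rintro (o | e) <;> rfl
  right_inv := by rintro ⟨v | v, h⟩ <;> rfl

/-- The odd cells of a cone. -/
def tk_cE (dS : S → ℤ) (dV : V → ℤ) : EvenCell dS ⊕ OddCell (kdg dV) ≃ OddCell (cdg dS dV) where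
  toFun := Sum.elim (fun e => ⟨.inl e.1, (odd_succ_iff _).2 e.2⟩) fun o => ⟨.inr o.1, o.2⟩
  invFun
    | ⟨.inl v, h⟩ => .inl ⟨v, (odd_succ_iff _).1 h⟩
    | ⟨.inr v, h⟩ => .inr ⟨v, h⟩
  left_inv := by rintro (o | e) <;> rfl
  right_inv := by rintro ⟨v | v, h⟩ <;> rfl

theorem tk_detb_cpair {dS : S → ℤ} (β : OddCell dS ≃ EvenCell dS) (dV : V → ℤ)
    (M : Matrix (S ⊕ (V ⊕ V)) (S ⊕ (V ⊕ V)) K) (hM : ∀ x s, M (.inr x) (.inl s) = 0) :
    oddEvenDet (cpair β dV) M = Matrix.det (Matrix.of fun o o' : OddCell dS => M (.inl (β o).1) (.inl o'.1)) *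
      oddEvenDet (kpair dV) M.toBlocks₂₂ := by
  rw [tk_detb, tk_detb, ← Matrix.det_submatrix_equiv_self
    ((Equiv.sumCongr β (Equiv.refl _)).trans (tk_cE dS dV)),
    ← Matrix.det_fromBlocks_zero₂₁ _ (Matrix.of fun (o : OddCell dS) (x : OddCell (kdg dV)) =>
      M (.inl (β o).1) (.inr x.1.swap))]
  congr 1
  ext (i | i) (j | j)
  · simp [tk_cE, cpair]
  · simp [tk_cE, cpair]
  · simp [tk_cE, cpair, hM]
  · simp [tk_cE, cpair, kpair, Matrix.toBlocks₂₂]

/-- Odd cells of a disjoint union. -/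
noncomputable def tk_oE (e : S₁ ⊕ S₂ ≃ S) {d₁ : S₁ → ℤ} {d₂ : S₂ → ℤ} {d : S → ℤ}
    (h₁ : ∀ s, d (e (.inl s)) = d₁ s) (h₂ : ∀ s, d (e (.inr s)) = d₂ s) :
    OddCell d₁ ⊕ OddCell d₂ ≃ OddCell d :=
  Equiv.ofBijective
    (Sum.elim (fun o => ⟨e (.inl o.1), h₁ _ ▸ o.2⟩) fun o => ⟨e (.inr o.1), h₂ _ ▸ o.2⟩) <| by
    constructor
    · rintro (a | a) (b | b) h <;> simp_all [Subtype.ext_iff]
    · rintro ⟨s, hs⟩
      obtain ⟨s | s, rfl⟩ := e.surjective s
      · exact ⟨.inl ⟨s, h₁ _ ▸ hs⟩, rfl⟩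
      · exact ⟨.inr ⟨s, h₂ _ ▸ hs⟩, rfl⟩

omit [Fintype S] [Fintype S₁] [Fintype S₂] in
theorem tk_oE_inl (e : S₁ ⊕ S₂ ≃ S) {d₁ : S₁ → ℤ} {d₂ : S₂ → ℤ} {d : S → ℤ}
    (h₁ : ∀ s, d (e (.inl s)) = d₁ s) (h₂ : ∀ s, d (e (.inr s)) = d₂ s) (o : OddCell d₁) :
    (tk_oE e h₁ h₂ (.inl o)).1 = e (.inl o.1) := rfl

omit [Fintype S] [Fintype S₁] [Fintype S₂] in
theorem tk_oE_inr (e : S₁ ⊕ S₂ ≃ S) {d₁ : S₁ → ℤ} {d₂ : S₂ → ℤ} {d : S → ℤ}
    (h₁ : ∀ s, d (e (.inl s)) = d₁ s) (h₂ : ∀ s, d (e (.inr s)) = d₂ s) (o : OddCell d₂) :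
    (tk_oE e h₁ h₂ (.inr o)).1 = e (.inr o.1) := rfl

/-- The decomposition of the cells of a Koszul complex. -/
def tk_kequiv (eV : V₁ ⊕ V₂ ≃ V) : (V₁ ⊕ V₁) ⊕ (V₂ ⊕ V₂) ≃ V ⊕ V :=
  (Equiv.sumSumSumComm V₁ V₁ V₂ V₂).trans (Equiv.sumCongr eV eV)

theorem tk_detb_kpair (eV : V₁ ⊕ V₂ ≃ V) {dV₁ : V₁ → ℤ} {dV₂ : V₂ → ℤ} {dV : V → ℤ}
    (hV₁ : ∀ s, dV (eV (.inl s)) = dV₁ s) (hV₂ : ∀ s, dV (eV (.inr s)) = dV₂ s)
    (M : Matrix (V₂ ⊕ V₂) (V₂ ⊕ V₂) K) :
    oddEvenDet (kpair dV) (Matrix.reindex (tk_kequiv eV) (tk_kequiv eV)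
      (Matrix.fromBlocks (pairingMatrix K (kpair dV₁)) 0 0 M)) = oddEvenDet (kpair dV₂) M := by
  have h₁ : ∀ s, kdg dV (tk_kequiv eV (.inl s)) = kdg dV₁ s := by
    rintro (s | s) <;> simp [tk_kequiv, kdg, hV₁]
  have h₂ : ∀ s, kdg dV (tk_kequiv eV (.inr s)) = kdg dV₂ s := by
    rintro (s | s) <;> simp [tk_kequiv, kdg, hV₂]
  have s₁ : ∀ s, (tk_kequiv eV (.inl s)).swap = tk_kequiv eV (.inl s.swap) := by
    rintro (s | s) <;> simp [tk_kequiv]
  have s₂ : ∀ s, (tk_kequiv eV (.inr s)).swap = tk_kequiv eV (.inr s.swap) := by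
    rintro (s | s) <;> simp [tk_kequiv]
  rw [tk_detb, tk_detb, ← Matrix.det_submatrix_equiv_self (tk_oE (tk_kequiv eV) h₁ h₂),
    ← one_mul (Matrix.det (Matrix.of fun o o' : OddCell (kdg dV₂) => _)),
    ← Matrix.det_one (n := OddCell (kdg dV₁)), ← Matrix.det_fromBlocks_zero₂₁ _ 0]
  congr 1
  ext (i | i) (j | j)
  · simp [tk_oE_inl, kpair, s₁, pairingMatrix, Matrix.one_apply, i.2, Subtype.ext_iff,
      Sum.swap_leftInverse.injective.eq_iff]
  · simp [tk_oE_inl, tk_oE_inr, kpair, s₂]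
  · simp [tk_oE_inl, tk_oE_inr, kpair, s₁]
  · simp [tk_oE_inr, kpair, s₂]

/-- The change of basis of `tors_conj`. -/
noncomputable def tk_P (zS : Matrix S V K) (zV : Matrix V V K) (u : K) :
    Matrix (S ⊕ (V ⊕ V)) (S ⊕ (V ⊕ V)) K :=
  Matrix.fromBlocks 1 (Matrix.fromCols 0 zS) 0
    (Matrix.fromBlocks 1 zV 0 (Matrix.diagonal fun _ => u))

theorem tk_P_mul (zS zS' : Matrix S V K) (zV zV' : Matrix V V K) (u u' : K) :
    tk_P zS zV u * tk_P zS' zV' u' = tk_P (zS' + u' • zS) (zV' + u' • zV) (u * u') := by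
  simp only [tk_P, Matrix.fromBlocks_multiply, Matrix.fromCols_mul_fromBlocks, Matrix.one_mul,
    Matrix.mul_one, Matrix.mul_zero, Matrix.zero_mul, add_zero, zero_add,
    Matrix.diagonal_mul_diagonal]
  congr 1
  · ext i (j | j) <;> simp [mul_comm]
  · congr 1
    ext i j; simp [mul_comm]

omit [Fintype S] [Fintype V] in
theorem tk_P_one : tk_P (0 : Matrix S V K) (0 : Matrix V V K) 1 = 1 := by
  simp [tk_P]

omit [Fintype S] [Fintype V] in
theorem tk_P_dg {dS : S → ℤ} {dV : V → ℤ} {zS : Matrix S V K} {zV : Matrix V V K} (u : K)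
    (hS : tk_Dg dS dV 0 zS) (hV : tk_Dg dV dV (-1) zV) :
    tk_Dg (cdg dS dV) (cdg dS dV) 0 (tk_P zS zV u) := by
  rintro (s | s | s) (r | r | r) hr <;>
    simp only [cdg, kdg, Sum.elim_inl, Sum.elim_inr, add_zero] at hr
  · exact Matrix.one_apply_ne (i := s) (j := r) (by rintro rfl; exact hr rfl)
  · rfl
  · exact hS s r (by omega)
  · rfl
  · exact Matrix.one_apply_ne (i := s) (j := r) (by rintro rfl; exact hr rfl)
  · exact hV s r (by omega)
  · rfl
  · rfl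
  · exact Matrix.diagonal_apply_ne (i := s) (j := r) (fun _ => u) (by rintro rfl; exact hr rfl)

theorem tk_P_det (zS : Matrix S V K) (zV : Matrix V V K) (u : K) (f : S ⊕ (V ⊕ V) → Prop)
    [DecidablePred f] :
    Matrix.det (Matrix.of fun o o' : {x // f x} => tk_P zS zV u o.1 o'.1) =
      u ^ Nat.card {v // f (.inr (.inr v))} := by
  rw [tk_det_wt (fun o : {x // f x} =>
    Sum.elim (fun _ => 0) (Sum.elim (fun _ => 1) fun _ => 2) o.1)]
  · simp only [Matrix.of_apply]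
    rw [← Finset.prod_subtype (Finset.univ.filter f) (by simp) fun x => tk_P zS zV u x x,
      Finset.prod_filter, Fintype.prod_sum_type, Fintype.prod_sum_type]
    simp [tk_P, Finset.prod_ite, Nat.card_eq_fintype_card, Fintype.card_subtype]
  · rintro ⟨s | s | s, hs⟩ ⟨r | r | r, hr⟩ h1 h2 <;>
      simp_all [tk_P, Matrix.one_apply_ne, Matrix.diagonal_apply_ne]

omit [Fintype S] [Fintype V] in
theorem tk_dg_cdg {dS : S → ℤ} {dV : V → ℤ} {j : ℤ} {a : Matrix S S K} {b : Matrix S (V ⊕ V) K}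
    {c : Matrix (V ⊕ V) S K} {e : Matrix (V ⊕ V) (V ⊕ V) K} :
    tk_Dg (cdg dS dV) (cdg dS dV) j (Matrix.fromBlocks a b c e) ↔
      tk_Dg dS dS j a ∧ tk_Dg dS (kdg dV) (j + 1) b ∧ tk_Dg (kdg dV) dS (j - 1) c ∧
        tk_Dg (kdg dV) (kdg dV) j e := by
  constructor
  · intro h
    refine ⟨fun s r hr => h (.inl s) (.inl r) ?_, fun s r hr => h (.inl s) (.inr r) ?_,
      fun s r hr => h (.inr s) (.inl r) ?_, fun s r hr => h (.inr s) (.inr r) ?_⟩ <;>
    simp only [cdg, Sum.elim_inl, Sum.elim_inr] <;> omega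
  · rintro ⟨h1, h2, h3, h4⟩ (s | s) (r | r) hr <;>
      simp only [cdg, Sum.elim_inl, Sum.elim_inr] at hr
    · exact h1 s r (by omega)
    · exact h2 s r (by omega)
    · exact h3 s r (by omega)
    · exact h4 s r (by omega)

theorem tk_cone_contr {dS : S → ℤ} {dV : V → ℤ} {d h : Matrix S S K} {x : Matrix S (V ⊕ V) K}
    {t : K} {p q : Matrix V V K} {H : Matrix (V ⊕ V) (V ⊕ V) K} (hh : IsContraction dS d h)
    (hH : IsContraction (kdg dV) (kz0 t p q) H) (hc : IsExactComplex (cdg dS dV) (cone0 d x t p q)) :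
    IsContraction (cdg dS dV) (cone0 d x t p q) (Matrix.fromBlocks (-h) (h * (x * H - h * x)) 0 H) := by
  rw [tk_contr_iff] at hh hH ⊢
  obtain ⟨hdeg, hcc, -⟩ := hc
  have hx : tk_Dg dS (kdg dV) 0 x := by
    simpa using (tk_dg_cdg.1 (tk_Dg.of_cx hdeg)).2.1
  refine ⟨tk_dg_cdg.2 ⟨hh.1.neg, hh.1.mul ((hx.mul hH.1 (zero_add 1)).sub
    (hh.1.mul hx (add_zero 1))) rfl, tk_Dg.zero _ _ _, hH.1⟩, ?_⟩
  unfold cone0 at hcc ⊢
  set D := kz0 t p q
  rw [Matrix.fromBlocks_multiply, ← Matrix.fromBlocks_zero, Matrix.fromBlocks_inj] at hcc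
  have hdx : d * x = x * D := by
    have := hcc.2.1
    rw [Matrix.neg_mul, neg_add_eq_zero] at this
    exact this
  have e1 : d * h = 1 - h * d := eq_sub_of_add_eq hh.2
  have e2 : D * H = 1 - H * D := eq_sub_of_add_eq hH.2
  have hw : d * (x * H - h * x) = -((x * H - h * x) * D) := by
    rw [Matrix.mul_sub, ← Matrix.mul_assoc, ← Matrix.mul_assoc, hdx, e1, Matrix.mul_assoc, e2,
      Matrix.mul_sub, Matrix.sub_mul, Matrix.sub_mul, Matrix.mul_one, Matrix.one_mul,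
      Matrix.mul_assoc h d x, hdx, Matrix.mul_assoc, Matrix.mul_assoc]
    abel
  rw [Matrix.fromBlocks_multiply, Matrix.fromBlocks_multiply, Matrix.fromBlocks_add,
    ← Matrix.fromBlocks_one]
  congr 1
  · simpa using hh.2
  · rw [Matrix.neg_mul, ← Matrix.mul_assoc d h, e1, Matrix.sub_mul, Matrix.one_mul,
      Matrix.mul_assoc h d, hw, Matrix.mul_neg, Matrix.neg_mul, Matrix.mul_assoc h _ D]
    abel
  · simp
  · simpa using hH.2

theorem tk_spart (eS : S₁ ⊕ S₂ ≃ S) {dS₁ : S₁ → ℤ} {dS₂ : S₂ → ℤ} {dS : S → ℤ}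
    (hS₁ : ∀ s, dS (eS (.inl s)) = dS₁ s) (hS₂ : ∀ s, dS (eS (.inr s)) = dS₂ s)
    (β₁ : OddCell dS₁ ≃ EvenCell dS₁) (β : OddCell dS ≃ EvenCell dS) {d h : Matrix S₂ S₂ K} (hd : IsExactComplex dS₂ d)
    (hh : IsContraction dS₂ d h) :
    oddEvenDet β (Matrix.reindex eS eS (Matrix.fromBlocks (pairingMatrix K β₁) 0 0 (d + h))) *
      Matrix.det (Matrix.of fun o o' : OddCell dS => Matrix.reindex eS eS
        (Matrix.fromBlocks (pairingMatrix K β₁).transpose 0 0 (-(d + h))) (β o).1 o'.1) =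
      (-1) ^ Nat.card (OddCell dS₂) := by
  have hd' := tk_Dg.of_cx hd.1
  rw [tk_contr_iff] at hh
  set MooreDGA := Matrix.reindex eS eS (Matrix.fromBlocks (pairingMatrix K β₁) 0 0 (d + h)) with hN
  set M := Matrix.reindex eS eS (Matrix.fromBlocks (pairingMatrix K β₁).transpose 0 0 (-(d + h))) with hM
  have hNo : ∀ s r, Odd (dS s) → Odd (dS r) → MooreDGA s r = 0 := by
    intro s r hs hr
    obtain ⟨s | s, rfl⟩ := eS.surjective s <;> obtain ⟨r | r, rfl⟩ := eS.surjective r <;>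
      simp only [hS₁, hS₂] at hs hr
    · simp only [hN, Matrix.reindex_apply, Matrix.submatrix_apply, Equiv.symm_apply_apply,
        Matrix.fromBlocks_apply₁₁, pairingMatrix, Matrix.of_apply]
      rw [if_neg]
      rintro ⟨h1, rfl⟩
      have := (β₁ ⟨s, h1⟩).2
      grind
    · simp [hN]
    · simp [hN]
    · simp [hN, hd' s r (by grind), hh.1 s r (by grind)]
  have hsq : (d + h) * -(d + h) = -(1 + h * h) := by
    rw [mul_neg, mul_add, add_mul, add_mul, hd.2.1, ← hh.2]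
    abel
  have hNM : MooreDGA * M = Matrix.reindex eS eS
      (Matrix.fromBlocks (pairingMatrix K β₁ * (pairingMatrix K β₁).transpose) 0 0 (-(1 + h * h))) := by
    simp only [hN, hM, Matrix.reindex_apply, Matrix.submatrix_mul_equiv,
      Matrix.fromBlocks_multiply, Matrix.mul_zero, Matrix.zero_mul, add_zero, zero_add, hsq]
  rw [tk_detb, ← Matrix.det_mul]
  have e : ((Matrix.of fun o o' : OddCell dS => MooreDGA o.1 (β o').1) *
      Matrix.of fun o o' : OddCell dS => M (β o).1 o'.1) =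
      Matrix.of fun o o' : OddCell dS => (MooreDGA * M) o.1 o'.1 := by
    ext o o'
    simp only [Matrix.of_apply, Matrix.mul_apply]
    rw [tk_sum_ev (dg := dS) _ fun s hs => by rw [hNo _ _ o.2 hs, zero_mul]]
    exact Equiv.sum_comp β fun e : EvenCell dS => MooreDGA o.1 e.1 * M e.1 o'.1
  have e2 : (Matrix.of fun o o' : OddCell dS => (MooreDGA * M) o.1 o'.1).submatrix (tk_oE eS hS₁ hS₂)
      (tk_oE eS hS₁ hS₂) = Matrix.fromBlocks 1 0 0
        (Matrix.of fun o o' : OddCell dS₂ => (-(1 + h * h)) o.1 o'.1) := by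
    rw [hNM]
    ext (i | i) (j | j)
    · simp [tk_oE_inl, pairingMatrix, Matrix.mul_apply, i.2, j.2, Matrix.one_apply, ← Subtype.ext_iff,
        eq_comm]
    · simp [tk_oE_inl, tk_oE_inr]
    · simp [tk_oE_inl, tk_oE_inr]
    · simp [tk_oE_inr]
  have hhh := hh.1.mul hh.1 rfl
  rw [e, ← Matrix.det_submatrix_equiv_self (tk_oE eS hS₁ hS₂), e2, Matrix.det_fromBlocks_zero₂₁,
    Matrix.det_one, one_mul, tk_det_wt (fun o : OddCell dS₂ => dS₂ o.1), Nat.card_eq_fintype_card,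
    ← Finset.card_univ, ← Finset.prod_const]
  · refine Finset.prod_congr rfl fun o _ => ?_
    simp [hhh o.1 o.1 (by omega)]
  · intro s r h1 h2
    simp [hhh s.1 r.1 (by omega), Matrix.one_apply_ne fun e => h2 (Subtype.ext e)]

omit [Fintype S] [Fintype V] in
theorem tk_permM_cpair {dS : S → ℤ} (β : OddCell dS ≃ EvenCell dS) (dV : V → ℤ) :
    pairingMatrix K (cpair β dV) =
      Matrix.fromBlocks (pairingMatrix K β).transpose 0 0 (pairingMatrix K (kpair dV)) := by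
  have c1 : ∀ s h, (cpair β dV ⟨.inl s, h⟩).1 = .inl (β.symm ⟨s, (odd_succ_iff _).1 h⟩).1 :=
    fun _ _ => rfl
  have c2 : ∀ s h, (cpair β dV ⟨.inr s, h⟩).1 = .inr s.swap := fun _ _ => rfl
  have c3 : ∀ s h, (kpair dV ⟨s, h⟩).1 = s.swap := fun _ _ => rfl
  ext (a | a) (b | b)
  · simp only [pairingMatrix, Matrix.of_apply, c1, Matrix.fromBlocks_apply₁₁, Matrix.transpose_apply,
      Sum.inl.injEq]
    congr 1
    apply propext
    constructor
    · rintro ⟨h, rfl⟩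
      exact ⟨(β.symm _).2, by simp⟩
    · rintro ⟨h, rfl⟩
      exact ⟨(odd_succ_iff _).2 (β _).2, by simp⟩
  · simp [pairingMatrix, c1]
  · simp [pairingMatrix, c2]
  · simp only [pairingMatrix, Matrix.of_apply, c2, c3, Matrix.fromBlocks_apply₂₂, Sum.inr.injEq]
    rfl

/-- The torsion of an exact Koszul complex with as many odd as even primary cells is `1`. -/
theorem tors_kz0 {dV : V → ℤ} (t : K) (p q : Matrix V V K) (h : IsExactComplex (kdg dV) (kz0 t p q))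
    {κ : K} (hbal : KzVal κ t (Nat.card (OddCell dV)) (Nat.card (EvenCell dV))) :
    tors (kpair dV) (kz0 t p q) = κ := by
  obtain ⟨h', k, hH⟩ := tk_exists_lin t p q h
  rw [tors_eq _ h hH, tk_detb, ← Matrix.det_submatrix_equiv_self (tk_kE dV)]
  rw [tk_contr_iff, tk_lin, ← Matrix.fromBlocks_one, Matrix.fromBlocks_inj, tk_dg_kdg] at hH
  obtain ⟨hdeg, hDD, -⟩ := h
  have hp := (tk_dg_kdg.1 (tk_Dg.of_cx hdeg)).1
  have hpp : p * p + t • q = 0 := by
    have := congrArg Matrix.toBlocks₁₁ hDD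
    rw [kz0, Matrix.fromBlocks_multiply, Matrix.toBlocks_fromBlocks₁₁] at this
    convert this using 2
    · ext i j; simp [mul_comm]
    · rfl
  have e : (Matrix.of fun o o' : OddCell (kdg dV) => (kz0 t p q + Matrix.fromBlocks h' k 0 (-h')) o.1
      (kpair dV o').1).submatrix (tk_kE dV) (tk_kE dV) =
      Matrix.fromBlocks (Matrix.of fun o o' : OddCell dV => (q + k) o.1 o'.1)
        (Matrix.of fun (o : OddCell dV) (e : EvenCell dV) => (p + h') o.1 e.1)
        (Matrix.of fun (e : EvenCell dV) (o : OddCell dV) => (-(p + h')) e.1 o.1)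
        (Matrix.diagonal fun _ => t) := by
    ext (i | i) (j | j)
    · simp [tk_kE, kpair, kz0]
    · simp [tk_kE, kpair, kz0]
    · simp [tk_kE, kpair, kz0, add_comm]
    · simp [tk_kE, kpair, kz0, Matrix.diagonal_apply, Subtype.ext_iff]
  rw [e]
  have e2 : t • (Matrix.of fun o o' : OddCell dV => (q + k) o.1 o'.1) -
      (Matrix.of fun (o : OddCell dV) (e : EvenCell dV) => (p + h') o.1 e.1) *
        (Matrix.of fun (e : EvenCell dV) (o : OddCell dV) => (-(p + h')) e.1 o.1) =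
      Matrix.of fun o o' : OddCell dV => (1 + h' * h') o.1 o'.1 := by
    have e3 : 1 + h' * h' = t • (q + k) + (p + h') * (p + h') := by
      rw [← hH.2.1, smul_add, mul_add, add_mul, add_mul, eq_neg_of_add_eq_zero_left hpp]
      abel
    ext o o'
    rw [e3]
    simp only [Matrix.sub_apply, Matrix.smul_apply, Matrix.of_apply, Matrix.mul_apply,
      Matrix.neg_apply, mul_neg, Finset.sum_neg_distrib, sub_neg_eq_add]
    rw [Matrix.add_apply (t • (q + k)), Matrix.mul_apply,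
      tk_sum_ev (dg := dV) _ fun s hs => ?_]
    · rfl
    · rw [Matrix.add_apply, hp _ _ (by have := o.2; grind), hH.1.1 _ _ (by have := o.2; grind),
        add_zero, zero_mul]
  have hh := hH.1.1.mul hH.1.1 rfl
  have e4 : (Matrix.of fun o o' : OddCell dV => (1 + h' * h') o.1 o'.1).det = 1 := by
    rw [tk_det_wt (fun o : OddCell dV => dV o.1)]
    · refine Finset.prod_eq_one fun o _ => ?_
      simp [hh o.1 o.1 (by omega)]
    · intro s r h1 h2
      simp [hh s.1 r.1 (by omega), Matrix.one_apply_ne fun e => h2 (Subtype.ext e)]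
  rcases hbal with ⟨hbal, rfl⟩ | ⟨ht, hκ⟩
  · rw [tk_det_scalar (by simpa [Nat.card_eq_fintype_card] using hbal), e2, e4]
  · refine (ht.pow (Fintype.card (OddCell dV))).mul_right_cancel ?_
    rw [tk_det_scalar', e2, e4, one_mul, ← Nat.card_eq_fintype_card, ← Nat.card_eq_fintype_card,
      hκ]

/-- The transition scalar of a cone is inverse (up to sign) to the one of its source. -/
theorem relTors_cone0 (eS : S₁ ⊕ S₂ ≃ S) (eV : V₁ ⊕ V₂ ≃ V)
    {dS₁ : S₁ → ℤ} {dS₂ : S₂ → ℤ} {dS : S → ℤ} {dV₁ : V₁ → ℤ} {dV₂ : V₂ → ℤ} {dV : V → ℤ}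
    (hS₁ : ∀ s, dS (eS (.inl s)) = dS₁ s) (hS₂ : ∀ s, dS (eS (.inr s)) = dS₂ s)
    (hV₁ : ∀ s, dV (eV (.inl s)) = dV₁ s) (hV₂ : ∀ s, dV (eV (.inr s)) = dV₂ s)
    (β₁ : OddCell dS₁ ≃ EvenCell dS₁) (β : OddCell dS ≃ EvenCell dS) {d : Matrix S₂ S₂ K} {x : Matrix S₂ (V₂ ⊕ V₂) K}
    {t : K} {p q : Matrix V₂ V₂ K} (hd : IsExactComplex dS₂ d) (hk : IsExactComplex (kdg dV₂) (kz0 t p q))
    (hc : IsExactComplex (cdg dS₂ dV₂) (cone0 d x t p q)) {κ : K}
    (hbal : KzVal κ t (Nat.card (OddCell dV₂)) (Nat.card (EvenCell dV₂))) :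
    relTorsion (cequiv eS eV) (cdg dS₂ dV₂) (cpair β₁ dV₁) (cpair β dV) (cone0 d x t p q) *
      relTorsion eS dS₂ β₁ β d = (-1) ^ Nat.card (OddCell dS₂) * κ := by
  have hcc := tk_cone_contr hd.contr hk.contr hc
  set h := contraction dS₂ d
  set H := contraction (kdg dV₂) (kz0 t p q)
  rw [relTors_eq (cequiv eS eV) (by rintro (s | s | s) <;> simp [cequiv, cdg, kdg, hS₁, hV₁])
    (by rintro (s | s | s) <;> simp [cequiv, cdg, kdg, hS₂, hV₂]) _ _ hc hcc, tk_permM_cpair,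
    tk_detb_cpair, ← tk_spart eS hS₁ hS₂ β₁ β hd hd.contr, relTorsion, mul_comm, mul_assoc _ _ κ]
  · congr 1
    have e1 : (Matrix.reindex (cequiv eS eV) (cequiv eS eV) (Matrix.fromBlocks
        (Matrix.fromBlocks (pairingMatrix K β₁).transpose 0 0 (pairingMatrix K (kpair dV₁))) 0 0 (cone0 d x t p q +
          Matrix.fromBlocks (-h) (h * (x * H - h * x)) 0 H))).toBlocks₂₂ =
        Matrix.reindex (tk_kequiv eV) (tk_kequiv eV)
          (Matrix.fromBlocks (pairingMatrix K (kpair dV₁)) 0 0 (kz0 t p q + H)) := by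
      ext (a | a) (b | b) <;> obtain ⟨a | a, rfl⟩ := eV.surjective a <;>
        obtain ⟨b | b, rfl⟩ := eV.surjective b <;>
        simp [Matrix.toBlocks₂₂, cequiv, tk_kequiv, cone0]
    rw [e1, tk_detb_kpair eV hV₁ hV₂, ← tors_eq _ hk hk.contr, tors_kz0 t p q hk hbal]
    congr 2
    ext o o'
    simp only [Matrix.of_apply]
    generalize (β o).1 = a
    generalize o'.1 = b
    obtain ⟨a | a, rfl⟩ := eS.surjective a <;> obtain ⟨b | b, rfl⟩ := eS.surjective b
    · simp [cequiv]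
    · simp [cequiv]
    · simp [cequiv]
    · simp [cequiv, cone0, add_comm, h]
  · rintro (a | a) b <;> obtain ⟨a | a, rfl⟩ := eV.surjective a <;>
      obtain ⟨b | b, rfl⟩ := eS.surjective b <;> simp [cequiv, cone0]

/-- Change of basis by a matrix that is unipotent up to the scaling of the cells `ε v` by `u`. -/
theorem tors_conj {dS : S → ℤ} {dV : V → ℤ} (π : OddCell (cdg dS dV) ≃ EvenCell (cdg dS dV))
    {D D' : Matrix (S ⊕ (V ⊕ V)) (S ⊕ (V ⊕ V)) K} (hD : IsExactComplex (cdg dS dV) D) (u : Kˣ)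
    (zS : Matrix S V K) (zV : Matrix V V K)
    (hS : ∀ s v, dV v ≠ dS s → zS s v = 0) (hV : ∀ v v', dV v' + 1 ≠ dV v → zV v v' = 0)
    (h : D * Matrix.fromBlocks 1 (Matrix.fromCols 0 zS) 0
        (Matrix.fromBlocks 1 zV 0 (Matrix.diagonal fun _ => (u : K))) =
      Matrix.fromBlocks 1 (Matrix.fromCols 0 zS) 0
        (Matrix.fromBlocks 1 zV 0 (Matrix.diagonal fun _ => (u : K))) * D') :
    IsExactComplex (cdg dS dV) D' ∧
      tors π D' * (u : K) ^ Nat.card (EvenCell dV) = tors π D * (u : K) ^ Nat.card (OddCell dV) := by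
  change D * tk_P zS zV u = tk_P zS zV u * D' at h
  have hS' : tk_Dg dS dV 0 zS := fun s v hv => hS s v (by omega)
  have hV' : tk_Dg dV dV (-1) zV := tk_Dg.of_cx hV
  have hP := tk_P_dg (u : K) hS' hV'
  have hQ := tk_P_dg ((u⁻¹ : Kˣ) : K) (hS'.smul (-((u⁻¹ : Kˣ) : K))) (hV'.smul (-((u⁻¹ : Kˣ) : K)))
  have hPQ : tk_P zS zV u * tk_P ((-((u⁻¹ : Kˣ) : K)) • zS) ((-((u⁻¹ : Kˣ) : K)) • zV)
      ((u⁻¹ : Kˣ) : K) = 1 := by
    rw [tk_P_mul]; simp [tk_P_one]
  have hQP : tk_P ((-((u⁻¹ : Kˣ) : K)) • zS) ((-((u⁻¹ : Kˣ) : K)) • zV)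
      ((u⁻¹ : Kˣ) : K) * tk_P zS zV u = 1 := by
    rw [tk_P_mul]; simp [tk_P_one, smul_smul]
  have dO := tk_P_det zS zV u fun x => Odd (cdg dS dV x)
  have dE := tk_P_det zS zV u fun x => Even (cdg dS dV x)
  set P := tk_P zS zV u
  set Q := tk_P ((-((u⁻¹ : Kˣ) : K)) • zS) ((-((u⁻¹ : Kˣ) : K)) • zV) ((u⁻¹ : Kˣ) : K)
  have hD' : D' = Q * D * P := by rw [mul_assoc, h, ← mul_assoc, hQP, one_mul]
  obtain ⟨H, hH⟩ := hD.2.2
  have hH₀ := tk_contr_iff.1 hH
  have hPQ' : ∀ X : Matrix (S ⊕ (V ⊕ V)) (S ⊕ (V ⊕ V)) K, P * (Q * X) = X := fun X => by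
    rw [← mul_assoc, hPQ, one_mul]
  have hH' : IsContraction (cdg dS dV) D' (Q * H * P) := by
    refine tk_contr_iff.2 ⟨(hQ.mul hH₀.1 rfl).mul hP (by norm_num), ?_⟩
    simp only [hD', mul_assoc, hPQ']
    rw [← mul_add, ← mul_assoc D, ← mul_assoc H, ← add_mul, hH₀.2, one_mul, hQP]
  have hc : IsExactComplex (cdg dS dV) D' := by
    refine ⟨tk_Dg.to_cx ?_, ?_, _, hH'⟩
    · rw [hD']
      exact (hQ.mul (tk_Dg.of_cx hD.1) rfl).mul hP (by norm_num)
    · simp only [hD', mul_assoc, hPQ']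
      rw [← mul_assoc D, hD.2.1, zero_mul, mul_zero]
  refine ⟨hc, ?_⟩
  have key : P * (D' + Q * H * P) = (D + H) * P := by
    rw [mul_add, add_mul, h, mul_assoc, hPQ']
  have k2 := congrArg (oddEvenDet π) key
  rw [tk_detb_mul_left π _ _ hP, tk_detb_mul_right π _ _ hP, ← tors_eq π hc hH',
    ← tors_eq π hD hH, dO, dE] at k2
  simp only [cdg, kdg, Sum.elim_inr, odd_succ_iff, even_succ_iff] at k2
  rw [mul_comm]
  exact k2

end Pool.Agent.P.MP_932208_ag
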