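import Pool.Agent.P.MP_932208_ag.TorsK
import Pool.Agent.P.MP_932208_ag.Phi

/-!
The torsion identity that compares the two cocycles.
-/

namespace Pool.Agent.P.MP_932208_ag

open Classical

universe u

variable {R R' : Type u} [Ring R] [Ring R'] {K : Type u} [CommRing K] {Γ : DG R K}
  {f : R →+* R'} {S V S₀ V₀ S₁ V₁ J : Type u} [Fintype S] [Fintype V] [Fintype S₀] [Fintype V₀]
  [Fintype S₁] [Fintype V₁] [Preorder J]

theorem tx_cx_neg {U : Type u} [Fintype U] {dg : U → ℤ} {d : Matrix U U K} (h : IsExactComplex dg d) :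
    IsExactComplex (fun s => dg s + 1) (-d) := by
  obtain ⟨h1, h2, k, h3, h4⟩ := h
  refine ⟨fun s r hs => ?_, by rw [neg_mul_neg, h2], -k, fun s r hs => ?_, ?_⟩
  · rw [Matrix.neg_apply, h1 s r fun e => hs (by simp only [e]), neg_zero]
  · rw [Matrix.neg_apply, h3 s r fun e => hs (by simp only [e]), neg_zero]
  · rw [neg_mul_neg, neg_mul_neg, h4]

theorem tx_map_mul {U : Type u} [Fintype U] (g : R →+* R') (a b : Matrix U U R) :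
    (a * b).map g = a.map g * b.map g := Matrix.map_mul

theorem tx_ev_inc {U : Type u} (a : Matrix U U K) : (a.map Γ.inc).map Γ.ev = a := by
  ext i j; simp [Γ.ev_inc]

theorem tx_conj {U : Type u} [Fintype U] {Δ Δ' φ φ' ρ : Matrix U U R} (e1 : φ.map Γ.ev = 1)
    (e2 : φ'.map Γ.ev = 1) (s1 : Γ.res Δ φ = 0) (s2 : Γ.res Δ' φ' = 0)
    (chart : Γ.dM Δ' ρ = Δ * ρ) (cm : φ * ρ = (ρ.map Γ.ev).map Γ.inc * φ') :
    Γ.sd Δ φ * ρ.map Γ.ev = ρ.map Γ.ev * Γ.sd Δ' φ' := by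
  have h1 : Γ.dM Δ' (φ * ρ) = Γ.dM Δ φ * ρ := by
    rw [Γ.dM_mul, chart, DG.dM, Matrix.add_mul, Matrix.mul_assoc]
  have h2 : ((ρ.map Γ.ev).map Γ.inc).map Γ.d = 0 := by ext i j; simp [Γ.d_inc]
  have h3 : ((ρ.map Γ.ev).map Γ.inc).map Γ.e = (ρ.map Γ.ev).map Γ.inc := by
    ext i j; simp [Γ.e_inc]
  rw [cm, Γ.dM_mul, h2, h3, Matrix.zero_mul, zero_add, sub_eq_zero.1 s1, sub_eq_zero.1 s2] at h1
  have h4 := congrArg (fun M => M.map Γ.ev) h1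
  simp only [tx_map_mul, tx_ev_inc, e1, e2, Matrix.mul_one] at h4
  exact h4.symm

theorem tx_shape {dS : S → ℤ} {dV : V → ℤ} {bS : S → J} {bV : V → J}
    {Δ Δ' ρ : Matrix (S ⊕ (V ⊕ V)) (S ⊕ (V ⊕ V)) R} {u : K}
    (hρ : GoodM Γ f dS dV bS bV Δ Δ' u ρ) :
    ∃ (zS : Matrix S V K) (zV : Matrix V V K), (∀ s v, dV v ≠ dS s → zS s v = 0) ∧
      (∀ v v', dV v' + 1 ≠ dV v → zV v v' = 0) ∧
      ρ.map Γ.ev = Matrix.fromBlocks 1 (Matrix.fromCols 0 zS) 0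
        (Matrix.fromBlocks 1 zV 0 (Matrix.diagonal fun _ => u)) := by
  refine ⟨Matrix.of fun s v => Γ.ev (ρ (.inl s) (.inr (.inr v))),
    Matrix.of fun v v' => Γ.ev (ρ (.inr (.inl v)) (.inr (.inr v'))), fun s v h => ?_,
    fun v v' h => ?_, ?_⟩
  · refine Γ.ev_pos ?_ (hρ.hm (.inl s) (.inr (.inr v)))
    simp only [cdg, kdg, Sum.elim_inl, Sum.elim_inr]
    omega
  · refine Γ.ev_pos ?_ (hρ.hm (.inr (.inl v)) (.inr (.inr v')))
    simp only [cdg, kdg, Sum.elim_inl, Sum.elim_inr]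
    omega
  · ext (s | v | v) (s' | v' | v')
    · simp [hρ.kf.gg, Matrix.one_apply, apply_ite Γ.ev]
    · simp [(hρ.sv s v').2]
    · simp
    · simp [hρ.kf.pg]
    · simp [(hρ.vv v v').2, Matrix.one_apply]
    · simp
    · simp [hρ.kf.pg]
    · simp [hρ.kf.ev]
    · simp [hρ.kf.ee, Γ.ev_inc, Γ.ev_e, (hρ.vv v v').2, Matrix.diagonal_apply]

theorem tx_cone {δ g : Matrix S S R} {t : K} {o : OD S V R}
    {φ : Matrix (S ⊕ (V ⊕ V)) (S ⊕ (V ⊕ V)) R} (ev1 : φ.map Γ.ev = 1) (kf : Γ.KF (g.map Γ.e) 1 φ) :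
    ∃ (x : Matrix S (V ⊕ V) K) (p q : Matrix V V K),
      Γ.sd (o.matrix Γ δ t) φ = cone0 (Γ.sd δ g) x t p q := by
  have e1 : ∀ w w', Γ.ev (φ w w') = if w = w' then 1 else 0 := fun w w' => by
    simpa [Matrix.one_apply] using congrFun (congrFun ev1 w) w'
  have e2 : ∀ x, Γ.ev (Γ.d (Γ.e x)) = -Γ.ev (Γ.d x) := fun x => by rw [Γ.d_e, map_neg, Γ.ev_e]
  refine ⟨Matrix.of fun s w => Γ.sd (o.matrix Γ δ t) φ (.inl s) (.inr w),
    Matrix.of fun v v' => Γ.sd (o.matrix Γ δ t) φ (.inr (.inl v)) (.inr (.inl v')),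
    Matrix.of fun v v' => Γ.sd (o.matrix Γ δ t) φ (.inr (.inl v)) (.inr (.inr v')), ?_⟩
  have e3 : ∀ w w', Γ.sd (o.matrix Γ δ t) φ w w' = Γ.ev (Γ.d (φ w w')) + Γ.ev (o.matrix Γ δ t w w') := by
    intro w w'
    simp only [DG.sd, DG.dM, Matrix.mul_apply, Matrix.map_apply, Matrix.add_apply, map_add,
      map_sum, map_mul, Γ.ev_e, e1, ite_mul, one_mul, zero_mul, Finset.sum_ite_eq,
      Finset.mem_univ, if_true]
  have e4 : ∀ s s', Γ.ev (g s s') = if s = s' then 1 else 0 := fun s s' => by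
    have := e1 (.inl s) (.inl s')
    rw [kf.gg, Matrix.map_apply, Γ.ev_e] at this
    simpa using this
  ext (s | v | v) (s' | v' | v')
  · rw [e3, kf.gg]
    simp [cone0, OD.matrix, DG.cone, DG.sd, DG.dM, Matrix.mul_apply, Γ.ev_e, e2, e4, add_comm]
  · rfl
  · rfl
  · rw [e3, kf.pg]; simp [cone0, OD.matrix, DG.cone]
  · rfl
  · rfl
  · rw [e3, kf.pg]; simp [cone0, OD.matrix, DG.cone]
  · rw [e3, kf.ev]
    simp [cone0, kz0, OD.matrix, DG.cone, DG.kz, Matrix.diagonal_apply, apply_ite Γ.ev, Γ.ev_inc]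
  · change _ = -Γ.sd (o.matrix Γ δ t) φ (.inr (.inl v)) (.inr (.inl v'))
    rw [e3, e3, kf.ee]
    simp [OD.matrix, DG.cone, DG.kz, Γ.ev_e, e2, add_comm]

/-- `S = S₀ ⊔ S₁`, `V = V₀ ⊔ V₁` (cells born before `c₀`, and the others).  `φ` strictifies the
cone of the object `o`, `φ₀` strictifies the cone `Δ₀` on the cells born before `c₀`, and `ρ` is a
morphism over the unit `u` from `Δ₀` to the restriction of the cone of `o`. -/
theorem tors_step (sat : Γ.IsSaturated) (eS : S₀ ⊕ S₁ ≃ S) (eV : V₀ ⊕ V₁ ≃ V) {dS : S → ℤ} {dV : V → ℤ}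
    {dS₀ : S₀ → ℤ} {dV₀ : V₀ → ℤ} {dS₁ : S₁ → ℤ} {dV₁ : V₁ → ℤ} {bS : S → J} {bV : V → J}
    {bS₀ : S₀ → J} {bV₀ : V₀ → J} {ι : Type} {c : ι → J} (a₀ : ι)
    (hS₀ : ∀ s, dS (eS (.inl s)) = dS₀ s) (hS₁ : ∀ s, dS (eS (.inr s)) = dS₁ s)
    (hV₀ : ∀ s, dV (eV (.inl s)) = dV₀ s) (hV₁ : ∀ s, dV (eV (.inr s)) = dV₁ s)
    (bS0 : ∀ s, bS (eS (.inl s)) ≤ c a₀) (bS1 : ∀ s, ¬ bS (eS (.inr s)) ≤ c a₀)
    (bV0 : ∀ s, bV (eV (.inl s)) ≤ c a₀) (bV1 : ∀ s, ¬ bV (eV (.inr s)) ≤ c a₀)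
    {δ : Matrix S S R} {δ' : Matrix V V R'} {ψ' : Matrix S V R'} {t : K} {o : OD S V R}
    (go : GoodO Γ f dS dV bS bV δ δ' ψ' t o) {φ : Matrix (S ⊕ (V ⊕ V)) (S ⊕ (V ⊕ V)) R}
    (shuffle : Shp Γ dS dV bS bV c (c a₀) φ) (st : Γ.res (o.matrix Γ δ t) φ = 0)
    (ex : Ex0 Γ.J (cdg dS dV) ((o.matrix Γ δ t).map Γ.ev) fun _ => True)
    (exk : Ex0 Γ.J (cdg dS dV) ((o.matrix Γ δ t).map Γ.ev) fun w => w.isRight ∧ ¬ cb bS bV w ≤ c a₀)
    {g : Matrix S₁ S₁ R} {dG : Matrix S₁ S₁ K}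
    (gg : ∀ s s', φ (.inl (eS (.inr s))) (.inl (eS (.inr s'))) = Γ.e (g s s'))
    (gd : Γ.sd (δ.submatrix (eS ∘ .inr) (eS ∘ .inr)) g = dG) (cG : IsExactComplex dS₁ dG)
    {Δ₀ φ₀ ρ : Matrix (S₀ ⊕ (V₀ ⊕ V₀)) (S₀ ⊕ (V₀ ⊕ V₀)) R}
    (c₀ : IsExactComplex (cdg dS₀ dV₀) (Γ.sd Δ₀ φ₀)) (ev₀ : φ₀.map Γ.ev = 1) (st₀ : Γ.res Δ₀ φ₀ = 0) (u : Kˣ)
    (hρ : GoodM Γ f dS₀ dV₀ bS₀ bV₀ Δ₀ ((o.matrix Γ δ t).submatrix (cemb (eS ∘ .inl) (eV ∘ .inl))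
      (cemb (eS ∘ .inl) (eV ∘ .inl))) u ρ)
    (cm : φ₀ * ρ = (ρ.map Γ.ev).map Γ.inc *
      φ.submatrix (cemb (eS ∘ .inl) (eV ∘ .inl)) (cemb (eS ∘ .inl) (eV ∘ .inl)))
    {κ : K} (hbal : KzVal κ t (Nat.card (OddCell dV₁)) (Nat.card (EvenCell dV₁))) (β₀ : OddCell dS₀ ≃ EvenCell dS₀) (β : OddCell dS ≃ EvenCell dS) :
    relTorsion eS dS₁ β₀ β dG * tors (cpair β dV) (Γ.sd (o.matrix Γ δ t) φ) *
        (u : K) ^ Nat.card (EvenCell dV₀) =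
      (-1) ^ Nat.card (OddCell dS₁) * κ * tors (cpair β₀ dV₀) (Γ.sd Δ₀ φ₀) *
        (u : K) ^ Nat.card (OddCell dV₀) := by
  obtain rfl : dS₁ = dS ∘ (eS ∘ .inr) := funext fun s => (hS₁ s).symm
  obtain rfl : dV₁ = dV ∘ (eV ∘ .inr) := funext fun s => (hV₁ s).symm
  set M := o.matrix Γ δ t with hM
  set D := Γ.sd M φ with hD
  set i0 := cemb (eS ∘ .inl : S₀ → S) (eV ∘ .inl : V₀ → V) with hi0
  set i1 := cemb (eS ∘ .inr : S₁ → S) (eV ∘ .inr : V₁ → V) with hi1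
  have jS1 : Function.Injective (eS ∘ .inr : S₁ → S) := eS.injective.comp Sum.inr_injective
  have jV1 : Function.Injective (eV ∘ .inr : V₁ → V) := eV.injective.comp Sum.inr_injective
  have j0 : Function.Injective i0 := (cequiv eS eV).injective.comp Sum.inl_injective
  have j1 : Function.Injective i1 := (cequiv eS eV).injective.comp Sum.inr_injective
  have p0 : ∀ w, cb bS bV (i0 w) ≤ c a₀ := by
    rintro (s | v | v)
    exacts [bS0 s, bV0 v, bV0 v]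
  have p1 : ∀ w, ¬ cb bS bV (i1 w) ≤ c a₀ := by
    rintro (s | v | v)
    exacts [bS1 s, bV1 v, bV1 v]
  have r0 : ∀ x, x ∉ Set.range i0 → ¬ cb bS bV x ≤ c a₀ := fun x hx => by
    obtain ⟨w | w, rfl⟩ := (cequiv eS eV).surjective x
    exacts [(hx ⟨w, rfl⟩).elim, p1 w]
  have r1 : ∀ x, x ∉ Set.range i1 → cb bS bV x ≤ c a₀ := fun x hx => by
    obtain ⟨w | w, rfl⟩ := (cequiv eS eV).surjective x
    exacts [p0 w, (hx ⟨w, rfl⟩).elim]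
  have tM : ∀ w w', cb bS bV w ≤ c a₀ → ¬ cb bS bV w' ≤ c a₀ → M w w' = 0 :=
    fun w w' h h' => go.triangular w w' fun h2 => h' (h2.trans h)
  have tφ := shuffle.triangular a₀
  have tD : ∀ w w', cb bS bV w ≤ c a₀ → ¬ cb bS bV w' ≤ c a₀ → D w w' = 0 :=
    DG.sd_tri (fun w => cb bS bV w ≤ c a₀) tM tφ
  have cD : IsExactComplex (cdg dS dV) D :=
    Γ.cx_of_strict sat go.hm go.maurerCartan shuffle.hm (shuffle.ev1.trans (one_dec _ _)) (sub_eq_zero.1 st) ex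
  have evs : ∀ {U : Type u} {e : U → S ⊕ (V ⊕ V)}, Function.Injective e →
      (φ.submatrix e e).map Γ.ev = 1 := fun {U e} he => by
    ext a b
    have := congrFun (congrFun shuffle.ev1 (e a)) (e b)
    simpa [Matrix.one_apply, he.eq_iff] using this
  obtain ⟨s0, t0⟩ := DG.res_sub (Γ := Γ) (δ := M) (φ := φ) j0
    (fun w x _ hx => Or.inl (tφ _ _ (p0 w) (r0 x hx)))
    (fun w x _ hx => Or.inl (tD _ _ (p0 w) (r0 x hx)))
  obtain ⟨s1, t1⟩ := DG.res_sub (Γ := Γ) (δ := M) (φ := φ) j1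
    (fun _ x w hx => Or.inr (tM _ _ (r1 x hx) (p1 w)))
    (fun _ x w hx => Or.inr (tφ _ _ (r1 x hx) (p1 w)))
  rw [st, Matrix.submatrix_zero] at t0 t1
  obtain ⟨zS, zV, hzS, hzV, hP⟩ := tx_shape hρ
  have hconj := tx_conj (ev₀.trans (one_dec _ _)) (evs j0) st₀ t0 hρ.chain cm
  rw [hP, s0] at hconj
  obtain ⟨c0, hc0⟩ := tors_conj (cpair β₀ dV₀) c₀ u zS zV hzS hzV hconj
  have hM1 := o.mat_sub (Γ := Γ) δ t (eS ∘ .inr : S₁ → S) jV1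
  have kf : Γ.KF (g.map Γ.e) 1 (φ.submatrix i1 i1) :=
    ⟨gg, fun x s => shuffle.ps _ _ (bS1 s), fun v v' => shuffle.ev _ _ (bV1 v'), fun v v' => by
      rw [map_one, one_mul]; exact shuffle.ee _ _ (bV1 v')⟩
  obtain ⟨x, p, q, hx⟩ := tx_cone (δ := δ.submatrix (eS ∘ .inr) (eS ∘ .inr)) (t := t)
    (o := o.sub (eS ∘ .inr) (eV ∘ .inr)) ((evs j1).trans (one_dec _ _)) kf
  rw [gd, hM1] at hx
  have go1 := go.sub (cvx_cemb jS1 jV1 (fun b => ¬ b ≤ c a₀)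
    (fun a b _ h _ ha _ hb => ha (h.trans hb))
    (fun s => by
      obtain ⟨s | s, rfl⟩ := eS.surjective s
      · simp [bS0]
      · simp [bS1])
    (fun s => by
      obtain ⟨s | s, rfl⟩ := eV.surjective s
      · simp [bV0]
      · simp [bV1]))
  obtain ⟨k1, k2, -⟩ := go1.kz
  have hkz : Γ.kz t (o.sub (eS ∘ .inr) (eV ∘ .inr)).p (o.sub (eS ∘ .inr) (eV ∘ .inr)).q =
      (M.submatrix i1 i1).submatrix .inr .inr := by rw [← hM1]; rfl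
  rw [hkz] at k1 k2
  have rr : ∀ y : S₁ ⊕ (V₁ ⊕ V₁), y ∉ Set.range Sum.inr → ∃ s, y = .inl s := by
    rintro (s | y) h
    exacts [⟨s, rfl⟩, (h ⟨y, rfl⟩).elim]
  obtain ⟨s2, t2⟩ := DG.res_sub (Γ := Γ) (δ := M.submatrix i1 i1) (φ := φ.submatrix i1 i1)
    (e := Sum.inr) Sum.inr_injective
    (fun w y _ hy => Or.inl (by obtain ⟨s, rfl⟩ := rr y hy; exact kf.pg w s))
    (fun w y _ hy => Or.inl (by obtain ⟨s, rfl⟩ := rr y hy; rw [hx]; rfl))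
  rw [t1] at t2
  have dgk : ∀ w, cdg dS dV (i1 (.inr w)) = kdg (dV ∘ (eV ∘ .inr)) w := by
    rintro (v | v) <;> rfl
  have hk : IsExactComplex (kdg (dV ∘ (eV ∘ .inr))) (kz0 t p q) := by
    have h1 := Γ.cx_of_strict sat k1 k2 (φ := (φ.submatrix i1 i1).submatrix .inr .inr)
      (fun w w' => by
        simpa only [dgk, Matrix.submatrix_apply] using shuffle.hm (i1 (.inr w)) (i1 (.inr w')))
      (evs (j1.comp Sum.inr_injective)) (sub_eq_zero.1 t2) (by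
        have h2 := (ex0_sub_iff (e := i1 ∘ .inr) (j1.comp Sum.inr_injective) (fun y => ?_)).2 exk
        · rwa [show cdg dS dV ∘ i1 ∘ Sum.inr = kdg (dV ∘ (eV ∘ .inr)) from funext dgk] at h2
        · constructor
          · rintro ⟨h3, h4⟩
            obtain ⟨w | w, rfl⟩ := (cequiv eS eV).surjective y
            · exact (h4 (p0 w)).elim
            · rcases w with s | w
              · exact absurd h3 (by simp [cequiv])
              · exact ⟨w, rfl⟩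
          · rintro ⟨w, rfl⟩
            exact ⟨rfl, p1 _⟩)
    rwa [s2, hx] at h1
  have dg1 : ∀ w, cdg dS dV (i1 w) = cdg (dS ∘ (eS ∘ .inr)) (dV ∘ (eV ∘ .inr)) w :=
    cdg_cemb _ _ dS dV
  have dg0 : ∀ w, cdg dS dV (i0 w) = cdg dS₀ dV₀ w := by
    rintro (s | v | v)
    exacts [congrArg (· + 1) (hS₀ s), hV₀ v, congrArg (· + 1) (hV₀ v)]
  rw [s1] at hx
  have hc : IsExactComplex (cdg (dS ∘ (eS ∘ .inr)) (dV ∘ (eV ∘ .inr))) (cone0 dG x t p q) := by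
    refine IsExactComplex.of_blocks (Equiv.sumComm _ _) (fun _ => rfl) (fun _ => rfl) (fun s r h => ?_) ?_
      (fun _ _ => rfl) hk (tx_cx_neg cG)
    · rw [← hx]; exact cD.1 _ _ (by rwa [dg1, dg1])
    · rw [← hx, ← sub_mul j1 D D i1 i1 fun a w b hw => by rw [tD _ _ (r1 w hw) (p1 b), mul_zero],
        cD.2.1]
      rfl
  have hb := tors_blocks (cequiv eS eV) dg0 dg1 (cpair β₀ dV₀) (cpair β dV) cD
    (fun s r => tD _ _ (p0 s) (p1 r)) c0 (hx ▸ hc)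
  have hr := relTors_cone0 eS eV hS₀ hS₁ hV₀ hV₁ β₀ β cG hk hc hbal
  rw [← hx] at hr
  rw [hb, ← hr, mul_assoc _ (tors _ (Γ.sd Δ₀ φ₀)), ← hc0]
  change _ * (tors _ (D.submatrix i0 i0) * relTorsion _ _ _ _ (D.submatrix i1 i1)) * _ = _
  ring

end Pool.Agent.P.MP_932208_ag
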