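import Pool.Agent.P.MP_932208_ag.Cot

/-!
Diagrams of simplicial commutative rings and of simplicial modules; line bundles given by
cocycles on bisimplicial sets (bar constructions).
-/

namespace Pool.Agent.P.MP_932208_ag

universe u

variable {J : Type u} [Preorder J]

/-- A diagram `j ↦ A_j` of simplicial commutative rings over the preorder `J`; it presents the
derived stack `hocolim_j Spec A_j`. -/
structure RingDiagram (J : Type u) [Preorder J] where
  chart : J → SimplicialRing.{u}
  res : ∀ {i j : J}, i ≤ j → (chart i).Hom (chart j)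
  res_id : ∀ i n, RingId ((res (le_refl i)).app n)
  res_comp : ∀ {i j k : J} (h : i ≤ j) (h' : j ≤ k) n,
    RingComp ((res h').app n) ((res h).app n) ((res (h.trans h')).app n)

/-- A map of diagrams of simplicial rings. -/
structure RingDiagram.Hom (A B : RingDiagram J) where
  app : ∀ j, (A.chart j).Hom (B.chart j)
  nat : ∀ {i j : J} (h : i ≤ j) n,
    RingSquare ((app j).app n) ((A.res h).app n) ((B.res h).app n) ((app i).app n)

/-- The structure map `A_{i,n} → A_{j,k}` for `i ≤ j` and `θ : [k] → [n]`. -/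
def RingDiagram.transition (A : RingDiagram J) {i j : J} (h : i ≤ j) {k n : ℕ} (θ : SimplexHom k n) :
    CommRingMap ((A.chart i).obj n) ((A.chart j).obj k) :=
  ringComp ((A.chart j).map θ) ((A.res h).app n)

/-- The structure maps of a diagram of simplicial modules are semilinear and functorial. -/
structure IsModuleDiagram (A : RingDiagram J) (obj : J → ℕ → Type u) [∀ j n, AddCommGroup (obj j n)]
    [∀ j n, Module ((A.chart j).obj n) (obj j n)]
    (map : ∀ {i j : J} {k n : ℕ}, i ≤ j → SimplexHom k n → AddMap (obj i n) (obj j k)) : Prop where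
  map_smul : ∀ {i j : J} {k n : ℕ} (h : i ≤ j) (θ : SimplexHom k n),
    IsSemilinear (A.transition h θ) (map h θ)
  map_id : ∀ i n, AddId (map (le_refl i) (OrderHom.id : SimplexHom n n))
  map_comp : ∀ {i j k : J} (h : i ≤ j) (h' : j ≤ k) {l m n : ℕ} (θ : SimplexHom m n) (η : SimplexHom l m),
    AddComp (map h' η) (map h θ) (map (h.trans h') (θ.comp η))

/-- A diagram of simplicial modules over the diagram of simplicial rings `A`. -/
structure ModuleDiagram (A : RingDiagram J) where
  obj : J → ℕ → Type u
  [grp : ∀ j n, AddCommGroup (obj j n)]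
  [mod : ∀ j n, Module ((A.chart j).obj n) (obj j n)]
  map : ∀ {i j : J} {k n : ℕ}, i ≤ j → SimplexHom k n → AddMap (obj i n) (obj j k)
  laws : IsModuleDiagram A obj @map

attribute [instance] ModuleDiagram.grp ModuleDiagram.mod

/-- A map of diagrams of simplicial modules. -/
structure ModuleDiagram.Hom {A : RingDiagram J} (M M' : ModuleDiagram A) where
  app : ∀ j n, LinMap ((A.chart j).obj n) (M.obj j n) (M'.obj j n)
  nat : ∀ {i j : J} {k n : ℕ} (h : i ≤ j) (θ : SimplexHom k n),
    LinSquare (app j k) (M.map h θ) (M'.map h θ) (app i n)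

theorem ModuleDiagram.ab_id {A : RingDiagram J} (M : ModuleDiagram A) (j : J) (n : ℕ) :
    AddId (M.map (le_refl j) (OrderHom.id : SimplexHom n n)) := M.laws.map_id j n

theorem ModuleDiagram.ab_comp {A : RingDiagram J} (M : ModuleDiagram A) (j : J) {l m n : ℕ} (θ : SimplexHom m n)
    (η : SimplexHom l m) : AddComp (M.map (le_refl j) η) (M.map (le_refl j) θ) (M.map (le_refl j) (θ.comp η)) :=
  M.laws.map_comp _ _ θ η

/-- The simplicial abelian group underlying the module on the chart `j`. -/
@[reducible] def ModuleDiagram.ab {A : RingDiagram J} (M : ModuleDiagram A) (j : J) : SimplicialAb.{u} where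
  obj := M.obj j
  map θ := M.map (le_refl j) θ
  map_id := M.ab_id j
  map_comp := M.ab_comp j

theorem ModuleDiagram.Hom.ab_nat {A : RingDiagram J} {M M' : ModuleDiagram A} (g : M.Hom M') (j : J) :
    (M.ab j).IsNatural (M'.ab j) fun n => linAdd (g.app j n) := g.nat (le_refl j)

/-- The map of simplicial abelian groups on the chart `j`. -/
def ModuleDiagram.Hom.ab {A : RingDiagram J} {M M' : ModuleDiagram A} (g : M.Hom M') (j : J) : (M.ab j).Hom (M'.ab j) where
  app n := linAdd (g.app j n)
  nat := @ab_nat J _ A M M' g j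

/-- An equivalence of modules: a weak equivalence on every chart. -/
def ModuleDiagram.Hom.IsWeakEquiv {A : RingDiagram J} {M M' : ModuleDiagram A} (g : M.Hom M') : Prop := ∀ j, (g.ab j).IsWeakEquiv

/-- A diagram over `J` of bisimplicial sets `(n, m) ↦ T_{j,n,m}`. -/
structure BisimplicialDiagram (J : Type u) [Preorder J] where
  obj : J → ℕ → ℕ → Type u
  map : ∀ {i j : J} {k n k' m : ℕ}, i ≤ j → SimplexHom k n → SimplexHom k' m → obj i n m → obj j k k'
  map_id : ∀ i n m (x : obj i n m), map (le_refl i) OrderHom.id OrderHom.id x = x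
  map_comp : ∀ {i j l : J} (h : i ≤ j) (h' : j ≤ l) {n₀ n₁ n₂ m₀ m₁ m₂ : ℕ}
    (θ : SimplexHom n₁ n₀) (η : SimplexHom n₂ n₁) (θ' : SimplexHom m₁ m₀) (η' : SimplexHom m₂ m₁) (x : obj i n₀ m₀),
    map h' η η' (map h θ θ' x) = map (h.trans h') (θ.comp η) (θ'.comp η') x

/-- A cocycle on `T` with values in `A`: for an `(n, m)`-simplex `x` and a vertex `a` of `[n]`,
the transition scalar `c x a ∈ A_{j,m}` from the vertex `0` to the vertex `a`. -/
structure Cocycle (A : RingDiagram J) (T : BisimplicialDiagram J) where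
  c : ∀ {j : J} {n m : ℕ}, T.obj j n m → Fin (n + 1) → (A.chart j).obj m
  c_zero : ∀ {j : J} {n m : ℕ} (x : T.obj j n m), RingOne (c x 0)
  c_map : ∀ {i j : J} {k n k' m : ℕ} (h : i ≤ j) (θ : SimplexHom k n) (θ' : SimplexHom k' m) (x : T.obj i n m)
    (a : Fin (k + 1)), MapsToMul (A.transition h θ') (c x (θ a)) (c x (θ 0)) (c (T.map h θ θ' x) a)

namespace Cocycle
variable {A : RingDiagram J} {T : BisimplicialDiagram J} (c : Cocycle A T)

/-- The structure maps of the twisted bisimplicial module `A_{j,m}[T_{j,n,m}]`: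
`a [x] ↦ θ'(a · c x (θ 0)) [θ x]`. -/
noncomputable def twistedMap {i j : J} {k n k' m : ℕ} (h : i ≤ j) (θ : SimplexHom k n) (θ' : SimplexHom k' m) :
    @AddMap _ _ (freeGroup (T.obj i n m) ((A.chart i).obj m)) (freeGroup (T.obj j k k') ((A.chart j).obj k')) :=
  twistedPush (A.transition h θ') (T.map h θ θ') fun x => c.c x (θ 0)

end Cocycle

end Pool.Agent.P.MP_932208_ag
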