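import Pool.Agent.P.MP_932208_ag.Tw0

/-!
Functoriality of the twisted structure maps.
-/

namespace Pool.Agent.P.MP_932208_ag

universe u

variable {J : Type u} [Preorder J]

theorem RingDiagram.tr_id (A : RingDiagram J) (i : J) (n : ℕ) (x : (A.chart i).obj n) :
    A.transition (le_refl i) OrderHom.id x = x := by
  simp [RingDiagram.transition, A.res_id, SimplicialRing.map_id]

theorem RingDiagram.tr_comp (A : RingDiagram J) {i j k : J} (h : i ≤ j) (h' : j ≤ k) {l m n : ℕ}
    (θ : SimplexHom m n) (η : SimplexHom l m) (x : (A.chart i).obj n) :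
    A.transition h' η (A.transition h θ x) = A.transition (h.trans h') (θ.comp η) x := by
  simp [RingDiagram.transition, SimplicialRing.Hom.nat, SimplicialRing.map_comp, A.res_comp]

theorem ModuleDiagram.map_smul {A : RingDiagram J} (M : ModuleDiagram A) {i j : J} {k n : ℕ} (h : i ≤ j)
    (θ : SimplexHom k n) (a : (A.chart i).obj n) (x : M.obj i n) :
    M.map h θ (a • x) = A.transition h θ a • M.map h θ x := M.laws.map_smul h θ a x

theorem ModuleDiagram.map_id {A : RingDiagram J} (M : ModuleDiagram A) (i : J) (n : ℕ) (x : M.obj i n) :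
    M.map (le_refl i) OrderHom.id x = x := M.laws.map_id i n x

theorem ModuleDiagram.map_comp {A : RingDiagram J} (M : ModuleDiagram A) {i j k : J} (h : i ≤ j) (h' : j ≤ k)
    {l m n : ℕ} (θ : SimplexHom m n) (η : SimplexHom l m) (x : M.obj i n) :
    M.map h' η (M.map h θ x) = M.map (h.trans h') (θ.comp η) x := M.laws.map_comp h h' θ η x

theorem ModuleDiagram.smul_nat {A : RingDiagram J} (M : ModuleDiagram A) (j : J) (e : M.obj j 0) {k n : ℕ}
    (θ : SimplexHom k n) (a : (A.chart j).obj n) :
    (A.chart j).map θ a • M.map (le_refl j) (vert k 0) e =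
      M.map (le_refl j) θ (a • M.map (le_refl j) (vert n 0) e) := by
  rw [M.map_smul, M.map_comp]
  simp only [RingDiagram.transition, RingHom.comp_apply, A.res_id]
  rfl

namespace Cocycle
variable {A : RingDiagram J} {T : BisimplicialDiagram J} (c : Cocycle A T)

theorem tmap_single {i j : J} {k n k' m : ℕ} (h : i ≤ j) (θ : SimplexHom k n) (θ' : SimplexHom k' m)
    (x : T.obj i n m) (a : (A.chart i).obj m) :
    c.twistedMap h θ θ' (Finsupp.single x a) =
      Finsupp.single (T.map h θ θ' x) (A.transition h θ' (a * c.c x (θ 0))) := by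
  simp [twistedMap, twistedPush]

theorem tmap_smul {i j : J} {k n k' m : ℕ} (h : i ≤ j) (θ : SimplexHom k n) (θ' : SimplexHom k' m)
    (a : (A.chart i).obj m) (x : T.obj i n m →₀ (A.chart i).obj m) :
    c.twistedMap h θ θ' (a • x) = A.transition h θ' a • c.twistedMap h θ θ' x := by
  induction x using Finsupp.induction_linear with
  | zero => simp
  | add x y hx hy => rw [smul_add, map_add, map_add, hx, hy, smul_add]
  | single x b =>
    rw [Finsupp.smul_single, tmap_single, tmap_single, Finsupp.smul_single, smul_eq_mul,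
      smul_eq_mul, mul_assoc, map_mul]

theorem tmap_id (i : J) (n m : ℕ) (x : T.obj i n m →₀ (A.chart i).obj m) :
    c.twistedMap (le_refl i) OrderHom.id OrderHom.id x = x := by
  induction x using Finsupp.induction_linear with
  | zero => simp
  | add x y hx hy => rw [map_add, hx, hy]
  | single x b => simp [tmap_single, T.map_id, A.tr_id, c.c_zero]

theorem tmap_comp {i j l : J} (h : i ≤ j) (h' : j ≤ l) {n₀ n₁ n₂ m₀ m₁ m₂ : ℕ}
    (θ : SimplexHom n₁ n₀) (η : SimplexHom n₂ n₁) (θ' : SimplexHom m₁ m₀) (η' : SimplexHom m₂ m₁)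
    (x : T.obj i n₀ m₀ →₀ (A.chart i).obj m₀) :
    c.twistedMap h' η η' (c.twistedMap h θ θ' x) = c.twistedMap (h.trans h') (θ.comp η) (θ'.comp η') x := by
  induction x using Finsupp.induction_linear with
  | zero => simp
  | add x y hx hy => simp only [map_add, hx, hy]
  | single x b =>
    rw [tmap_single, tmap_single, tmap_single, T.map_comp, ← A.tr_comp h h' θ' η',
      OrderHom.comp_coe, Function.comp_apply, map_mul (A.transition h θ') b (c.c x (θ (η 0))),
      c.c_map h θ θ' x (η 0), map_mul (A.transition h θ') b, mul_assoc]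

end Cocycle

end Pool.Agent.P.MP_932208_ag
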