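import Pool.Agent.P.MP_932208_ag.Det
import Pool.Agent.P.MP_932208_ag.CotL2
import Pool.Agent.P.MP_932208_ag.Exact0

/-!
Objects over a chart and a simplex; exactness of their cones and Koszul blocks.
-/

namespace Pool.Agent.P.MP_932208_ag

open Classical

universe u

variable {J : Type u} [Preorder J] {A B : RingDiagram J}

noncomputable instance (priority := high) Cells.decAt (C : Cells J) (i : J) :
    DecidableEq (C.CellsOn i) := fun a b => propDecidable (a = b)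

noncomputable instance (priority := high) Cells.decBlk (C : Cells J) (i j : J) :
    DecidableEq (C.CellsBetween i j) := fun a b => propDecidable (a = b)

/-- Inclusion of the cells of a smaller chart. -/
def Cells.inc (C : Cells J) {i i' : J} (h : i ≤ i') : C.CellsOn i → C.CellsOn i' := fun s => ⟨s.1, s.2.trans h⟩

/-- Inclusion of a block. -/
def Cells.incB (C : Cells J) (i₀ : J) {i₁ i : J} (h : i₁ ≤ i) : C.CellsBetween i₀ i₁ → C.CellsOn i :=
  fun s => ⟨s.1, s.2.1.trans h⟩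

/-- Births of the cells of a chart. -/
abbrev Cells.bA (C : Cells J) (i : J) : C.CellsOn i → J := fun s => C.birth s.1

theorem Cells.inc_injective (C : Cells J) {i i' : J} (h : i ≤ i') : Function.Injective (C.inc h) :=
  fun _ _ e => Subtype.ext (congrArg (fun x : C.CellsOn i' => x.1) e)

theorem Cells.incB_injective (C : Cells J) (i₀ : J) {i₁ i : J} (h : i₁ ≤ i) :
    Function.Injective (C.incB i₀ h) :=
  fun _ _ e => Subtype.ext (congrArg (fun x : C.CellsOn i => x.1) e)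

theorem Cells.range_inc (C : Cells J) {i i' : J} (h : i ≤ i') (s : C.CellsOn i') :
    s ∈ Set.range (C.inc h) ↔ C.birth s.1 ≤ i :=
  ⟨fun ⟨r, e⟩ => e ▸ r.2, fun p => ⟨⟨s.1, p⟩, rfl⟩⟩

theorem Cells.range_incB (C : Cells J) (i₀ : J) {i₁ i : J} (h : i₁ ≤ i) (s : C.CellsOn i) :
    s ∈ Set.range (C.incB i₀ h) ↔ C.birth s.1 ≤ i₁ ∧ ¬ C.birth s.1 ≤ i₀ :=
  ⟨fun ⟨r, e⟩ => e ▸ r.2, fun p => ⟨⟨s.1, p⟩, rfl⟩⟩

/-- The cells of a cone on the chart `i`. -/
abbrev UC (C C' : Cells J) (i : J) : Type u := C.CellsOn i ⊕ (C'.CellsOn i ⊕ C'.CellsOn i)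

/-- Inclusion of the cells of the cone of a smaller chart. -/
abbrev uinc (C C' : Cells J) {i i' : J} (h : i ≤ i') : UC C C' i → UC C C' i' :=
  cemb (C.inc h) (C'.inc h)

theorem cvx_uinc (C C' : Cells J) {i i' : J} (h : i ≤ i') :
    Cvx (cb (C.bA i') (C'.bA i')) (uinc C C' h) :=
  cvx_cemb (C.inc_injective h) (C'.inc_injective h) (fun b => b ≤ i)
    (fun _ _ _ _ h₂ _ h₄ => h₂.trans h₄) (C.range_inc h) (C'.range_inc h)

theorem cvx_incB (C C' : Cells J) (i₀ : J) {i₁ i : J} (h : i₁ ≤ i) :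
    Cvx (cb (C.bA i) (C'.bA i)) (cemb (C.incB i₀ h) (C'.incB i₀ h)) :=
  cvx_cemb (C.incB_injective i₀ h) (C'.incB_injective i₀ h) (fun b => b ≤ i₁ ∧ ¬ b ≤ i₀)
    (fun _ _ _ h₁ h₂ h₃ h₄ => ⟨h₂.trans h₄.1, fun k => h₃.2 (h₁.trans k)⟩)
    (C.range_incB i₀ h) (C'.range_incB i₀ h)

theorem cb_le (C C' : Cells J) (i : J) (w : UC C C' i) : cb (C.bA i) (C'.bA i) w ≤ i := by
  rcases w with s | v | v
  exacts [s.2, v.2, v.2]

theorem cb_uinc (C C' : Cells J) {i i' : J} (h : i ≤ i') (w : UC C C' i) :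
    cb (C.bA i') (C'.bA i') (uinc C C' h w) = cb (C.bA i) (C'.bA i) w := by
  rcases w with s | v | v <;> rfl

theorem range_uinc (C C' : Cells J) {i i' : J} (h : i ≤ i') (w : UC C C' i') :
    w ∈ Set.range (uinc C C' h) ↔ cb (C.bA i') (C'.bA i') w ≤ i := by
  constructor
  · rintro ⟨r, rfl⟩
    rw [cb_uinc]; exact cb_le C C' i r
  · intro p
    rcases w with s | v | v
    · exact ⟨.inl ⟨s.1, p⟩, rfl⟩
    · exact ⟨.inr (.inl ⟨v.1, p⟩), rfl⟩
    · exact ⟨.inr (.inr ⟨v.1, p⟩), rfl⟩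

theorem uinc_uinc (C C' : Cells J) {i i' i'' : J} (h : i ≤ i') (h' : i' ≤ i'') :
    uinc C C' h' ∘ uinc C C' h = uinc C C' (h.trans h') := by
  funext w; rcases w with s | v | v <;> rfl

theorem uinc_refl (C C' : Cells J) (i : J) : uinc C C' (le_refl i) = id := by
  funext w; rcases w with s | v | v <;> rfl

section mats
variable {C C' : Cells J} (ψ : ∀ s : C.Cell, C'.Cell → MooreDGA (B.chart (C.birth s)))

/-- The matrix of the cells of the chart `i`, base changed to the chart `j`. -/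
def onN {i j : J} (h : i ≤ j) : Matrix (C.CellsOn i) (C'.CellsOn i) (MooreDGA (B.chart j)) :=
  Matrix.of fun s v => MooreDGA.map (B.res (s.2.trans h)) (ψ s.1 v.1)

/-- The matrix of the cells of the chart `i`, base changed to `B_j^{Δ^m}`. -/
def onC {i j : J} (h : i ≤ j) (m : ℕ) : Matrix (C.CellsOn i) (C'.CellsOn i) (MooreDGA ((B.chart j).cotensor m)) :=
  Matrix.of fun s v => MooreDGA.map (((B.chart j).const m).comp (B.res (s.2.trans h))) (ψ s.1 v.1)

theorem onN_eq {i j : J} (h : i ≤ j) : onN ψ h = (matrixOn ψ i).map (MooreDGA.map (B.res h)) := by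
  ext s v : 1
  refine MooreDGA.ext' fun n => ?_
  exact (B.res_comp s.2 h n _).symm

theorem onC_eq {i j : J} (h : i ≤ j) (m : ℕ) :
    onC ψ h m = (onN ψ h).map (MooreDGA.map ((B.chart j).const m)) := rfl

theorem onC_map {i j l : J} (h : i ≤ j) (h' : j ≤ l) {k m : ℕ} (θ : SimplexHom k m) :
    (onC ψ h m).map (MooreDGA.map (SimplicialRing.cotensorHom (B.res h') θ)) = onC ψ (h.trans h') k := by
  ext s v : 1
  simp only [onC, Matrix.map_apply, Matrix.of_apply, MooreDGA.map_map, RingDiagram.cot_const]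

theorem onC_rs {i j : J} (h : i ≤ j) {k m : ℕ} (θ : SimplexHom k m) :
    (onC ψ h m).map ((B.chart j).rs θ) = onC ψ h k := by
  have := onC_map ψ h le_rfl θ
  rwa [RingDiagram.res_refl] at this

theorem onC_vtx {i j : J} (h : i ≤ j) (m : ℕ) :
    (onC ψ h m).map (MooreDGA.map ((B.chart j).vtx m)) = onN ψ h := by
  ext s v : 1
  change MooreDGA.map (((B.chart j).vtx m).comp ((B.chart j).const m)) (onN ψ h s v) = _
  rw [SimplicialRing.vtx_const]; rfl

end mats

namespace PerfectComplex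
variable (G : PerfectComplex A)

theorem hm_mat (j : J) : (dgN (A.chart j)).HM (G.C.degOn j) (G.C.degOn j) (-1) (G.matrix j) := fun s r =>
  (dgN (A.chart j)).hg_cast ((G.homogeneous s.1 r.1).map _) (by ring)

theorem mc_mat (j : J) : (dgN (A.chart j)).dM (G.matrix j) (G.matrix j) = 0 := by
  ext s r : 1
  exact congrFun (G.maurerCartan j s) r

theorem tri_N {i j : J} (h : i ≤ j) (s r : G.C.CellsOn i) (p : ¬ G.C.birth r.1 ≤ G.C.birth s.1) :
    onN G.δ h s r = 0 := by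
  simp only [onN, Matrix.of_apply, G.triangular _ _ p, map_zero]

theorem hm_N {i j : J} (h : i ≤ j) :
    (dgN (A.chart j)).HM (G.C.degOn i) (G.C.degOn i) (-1) (onN G.δ h) := fun s r =>
  (dgN (A.chart j)).hg_cast ((G.homogeneous s.1 r.1).map _) (by ring)

theorem mc_N {i j : J} (h : i ≤ j) : (dgN (A.chart j)).dM (onN G.δ h) (onN G.δ h) = 0 := by
  rw [onN_eq, (SimplicialRing.isHom_map (A.res h)).dM]
  change ((dgN (A.chart i)).dM (G.matrix i) (G.matrix i)).map _ = 0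
  rw [mc_mat, Matrix.map_zero _ (map_zero _)]

theorem tri_C {i j : J} (h : i ≤ j) (m : ℕ) (s r : G.C.CellsOn i) (p : ¬ G.C.birth r.1 ≤ G.C.birth s.1) :
    onC G.δ h m s r = 0 := by
  simp only [onC, Matrix.of_apply, G.triangular _ _ p, map_zero]

theorem hm_C {i j : J} (h : i ≤ j) (m : ℕ) :
    (dgC (A.chart j) m).HM (G.C.degOn i) (G.C.degOn i) (-1) (onC G.δ h m) := fun s r =>
  (dgC (A.chart j) m).hg_cast ((G.homogeneous s.1 r.1).map _) (by ring)

theorem mc_C {i j : J} (h : i ≤ j) (m : ℕ) :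
    (dgC (A.chart j) m).dM (onC G.δ h m) (onC G.δ h m) = 0 := by
  rw [onC_eq, (SimplicialRing.isHom_const (A.chart j) m).dM, mc_N, Matrix.map_zero _ (map_zero _)]

/-- The block of `δ` on the chart `j`. -/
def blkN (i : J) {i' j : J} (h : i' ≤ j) : Matrix (G.C.CellsBetween i i') (G.C.CellsBetween i i') (MooreDGA (A.chart j)) :=
  (onN G.δ h).submatrix (G.C.incB i le_rfl) (G.C.incB i le_rfl)

theorem hm_blkN (i : J) {i' j : J} (h : i' ≤ j) :
    (dgN (A.chart j)).HM (G.C.degBetween i i') (G.C.degBetween i i') (-1) (G.blkN i h) := fun s r =>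
  G.hm_N h (G.C.incB i le_rfl s) (G.C.incB i le_rfl r)

theorem mc_blkN (i : J) {i' j : J} (h : i' ≤ j) :
    (dgN (A.chart j)).dM (G.blkN i h) (G.blkN i h) = 0 := by
  have e := congrArg (fun M => Matrix.submatrix M (G.C.incB i le_rfl) (G.C.incB i le_rfl))
    (G.mc_N h)
  simp only [DG.dM, Matrix.submatrix_add, Pi.add_apply] at e
  rw [sub_mul (G.C.incB_injective i le_rfl)] at e
  · exact e
  · intro x w y hw
    rw [Cells.range_incB] at hw
    have p : G.C.birth w.1 ≤ i := by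
      by_contra q
      exact hw ⟨w.2, q⟩
    rw [G.tri_N h w _ fun k => y.2.2 (le_trans k p), mul_zero]

theorem acyc_blkN {i i' j : J} (h₀ : i ≤ i') (h : i' ≤ j) :
    (dgN (A.chart j)).IsAcyclic (G.C.degBetween i i') (G.blkN i h) :=
  DG.IsAcyclic.of_quot (G.C.splitB h₀ h) (G.hm_blkN i le_rfl) (G.mc_blkN i le_rfl)
    (fun s r => G.tri_N le_rfl _ _ fun k => r.2.2 (le_trans k s.2.1)) (G.cartesian (h₀.trans h))
    (G.cartesian h)

theorem blk_eq (i : J) {i' j : J} (h : i' ≤ j) (m : ℕ) :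
    G.blockMatrix i h m = (G.blkN i h).map (MooreDGA.map ((A.chart j).const m)) := rfl

theorem hm_blk (i : J) {i' j : J} (h : i' ≤ j) (m : ℕ) :
    (dgC (A.chart j) m).HM (G.C.degBetween i i') (G.C.degBetween i i') (-1) (G.blockMatrix i h m) := fun s r =>
  (dgC (A.chart j) m).hg_cast ((G.homogeneous s.1 r.1).map _) (by ring)

theorem mc_blk (i : J) {i' j : J} (h : i' ≤ j) (m : ℕ) :
    (dgC (A.chart j) m).dM (G.blockMatrix i h m) (G.blockMatrix i h m) = 0 := by
  rw [blk_eq, (SimplicialRing.isHom_const (A.chart j) m).dM, mc_blkN, Matrix.map_zero _ (map_zero _)]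

theorem tri_blk (i : J) {i' j : J} (h : i' ≤ j) (m : ℕ) (s r : G.C.CellsBetween i i')
    (p : ¬ G.C.birth r.1 ≤ G.C.birth s.1) : G.blockMatrix i h m s r = 0 := by
  simp only [blockMatrix, Matrix.of_apply, G.triangular _ _ p, map_zero]

theorem blk_rs (i : J) {i' j : J} (h : i' ≤ j) {k m : ℕ} (θ : SimplexHom k m) :
    (G.blockMatrix i h m).map ((A.chart j).rs θ) = G.blockMatrix i h k :=
  congrArg (fun M => Matrix.submatrix M (G.C.incB i le_rfl) (G.C.incB i le_rfl)) (onC_rs G.δ h θ)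

theorem ex_blk {i i' j : J} (h₀ : i ≤ i') (h : i' ≤ j) (m : ℕ) :
    Ex0 (dgC (A.chart j) m).J (G.C.degBetween i i') ((G.blockMatrix i h m).map (dgC (A.chart j) m).ev) fun _ => True := by
  have e := ((G.acyc_blkN h₀ h).ex0 (G.hm_blkN i h) (G.mc_blkN i h)).map
    ((A.chart j).map (vert m 0)) (fun a ha => (SimplicialRing.isHom_const (A.chart j) m).mem_J ha)
  convert e using 1
  ext s r
  exact ((SimplicialRing.isHom_const (A.chart j) m).ev (G.blkN i h s r)).symm

end PerfectComplex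

theorem RingDiagram.Hom.sq (f : A.Hom B) {i j : J} (h : i ≤ j) :
    (f.app j).comp (A.res h) = (B.res h).comp (f.app i) := SimplicialRing.Hom.ext (f.nat h)

variable {f : A.Hom B} {G : PerfectComplex A} {F : PerfectComplex B}

namespace PushforwardModel
variable (ψ : PushforwardModel f G F)

theorem tri_N {i j : J} (h : i ≤ j) (s : G.C.CellsOn i) (v : F.C.CellsOn i) (p : ¬ F.C.birth v.1 ≤ G.C.birth s.1) :
    onN ψ.ψ h s v = 0 := by
  simp only [onN, Matrix.of_apply, ψ.triangular _ _ p, map_zero]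

theorem hm_N {i j : J} (h : i ≤ j) :
    (dgN (B.chart j)).HM (G.C.degOn i) (F.C.degOn i) 0 (onN ψ.ψ h) := fun s r =>
  (dgN (B.chart j)).hg_cast ((ψ.homogeneous s.1 r.1).map _) (by ring)

theorem ch_mat (j : J) : (dgN (B.chart j)).dM (F.matrix j) (matrixOn ψ.ψ j) =
    (G.matrix j).map (MooreDGA.map (f.app j)) * matrixOn ψ.ψ j := by
  ext s r : 1
  exact congrFun (ψ.chain j s) r

theorem ch_N {i j : J} (h : i ≤ j) : (dgN (B.chart j)).dM (onN F.δ h) (onN ψ.ψ h) =
    (onN G.δ h).map (MooreDGA.map (f.app j)) * onN ψ.ψ h := by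
  rw [onN_eq, onN_eq, onN_eq, (SimplicialRing.isHom_map (B.res h)).dM]
  change ((dgN (B.chart i)).dM (F.matrix i) (matrixOn ψ.ψ i)).map _ = _
  rw [ch_mat, Matrix.map_mul]
  congr 1
  ext s r : 1
  simp only [Matrix.map_apply, MooreDGA.map_map, f.sq]; rfl

theorem ch_C {i j : J} (h : i ≤ j) (m : ℕ) : (dgC (B.chart j) m).dM (onC F.δ h m) (onC ψ.ψ h m) =
    (onC G.δ h m).map ((f.app j).nc m) * onC ψ.ψ h m := by
  rw [onC_eq, onC_eq, onC_eq, (SimplicialRing.isHom_const (B.chart j) m).dM, ch_N, Matrix.map_mul]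
  congr 1
  ext s r : 1
  simp only [Matrix.map_apply, MooreDGA.map_map, SimplicialRing.cotHom_const]

theorem qi_N {i j : J} (h : i ≤ j) : QI (dgN (A.chart j)) (dgN (B.chart j)) (MooreDGA.map (f.app j))
    (G.C.degOn i) (F.C.degOn i) (onN G.δ h) (onN F.δ h) (onN ψ.ψ h) :=
  QI.sub (SimplicialRing.isHom_map (f.app j)) (G.C.split h) (F.C.split h) (G.hm_mat j) (G.mc_mat j)
    (F.hm_mat j) (F.mc_mat j) (ψ.hm_N le_rfl) (ψ.ch_mat j)
    (fun s r => G.tri_N le_rfl _ _ fun k => r.2.2 (le_trans k s.2))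
    (fun s r => F.tri_N le_rfl _ _ fun k => r.2.2 (le_trans k s.2))
    (fun s r => ψ.tri_N le_rfl _ _ fun k => r.2.2 (le_trans k s.2)) (G.cartesian h) (F.cartesian h)
    ⟨ψ.surj j, ψ.inj j⟩

/-- Objects over the cells of the chart `i`, with coefficients in `A_j^{Δ^m}`. -/
abbrev Good {i j : J} (h : i ≤ j) (m : ℕ) (t : (A.chart j).obj m)
    (o : OD (G.C.CellsOn i) (F.C.CellsOn i) (MooreDGA ((A.chart j).cotensor m))) : Prop :=
  GoodO (dgC (A.chart j) m) ((f.app j).nc m) (G.C.degOn i) (F.C.degOn i) (G.C.bA i) (F.C.bA i)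
    (onC G.δ h m) (onC F.δ h m) (onC ψ.ψ h m) t o

theorem nc_sq (f : A.Hom B) {j l : J} (h' : j ≤ l) {k m : ℕ} (θ : SimplexHom k m) (x : MooreDGA ((A.chart j).cotensor m)) :
    (f.app l).nc k (MooreDGA.map (SimplicialRing.cotensorHom (A.res h') θ) x) =
      MooreDGA.map (SimplicialRing.cotensorHom (B.res h') θ) ((f.app j).nc m x) := by
  simp only [MooreDGA.map_map, SimplicialRing.cotHom_cotHom, f.sq]; rfl

variable {ψ}

theorem Good.transition {i j l : J} {h : i ≤ j} {m : ℕ} {t o} (g : ψ.Good h m t o) (h' : j ≤ l) {k : ℕ}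
    (θ : SimplexHom k m) :
    ψ.Good (h.trans h') k (A.transition h' θ t) (o.map (MooreDGA.map (SimplicialRing.cotensorHom (A.res h') θ))) := by
  have e := GoodO.map (f₂ := (f.app l).nc k) (SimplicialRing.isHom_cot (A.res h') θ) (nc_sq f h' θ) g
  rwa [onC_map, onC_map, onC_map] at e

theorem Good.low {i₀ i j : J} {h : i ≤ j} {m : ℕ} {t o} (g : ψ.Good h m t o) (h₀ : i₀ ≤ i) :
    ψ.Good (h₀.trans h) m t (o.sub (G.C.inc h₀) (F.C.inc h₀)) :=
  GoodO.sub (cvx_uinc G.C F.C h₀) g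

theorem Good.vtx {i j : J} {h : i ≤ j} {m : ℕ} {t o} (g : ψ.Good h m t o) :
    GoodO (dgN (A.chart j)) (MooreDGA.map (f.app j)) (G.C.degOn i) (F.C.degOn i) (G.C.bA i) (F.C.bA i)
      (onN G.δ h) (onN F.δ h) (onN ψ.ψ h) ((A.chart j).map (vert 0 0) t)
      (o.map (MooreDGA.map ((A.chart j).vtx m))) := by
  have e := GoodO.map (f₂ := MooreDGA.map (f.app j)) (g' := MooreDGA.map ((B.chart j).vtx m))
    (SimplicialRing.isHom_vtx (A.chart j) m) (fun x => by simp only [MooreDGA.map_map, SimplicialRing.vtx_cotHom]) g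
  rwa [onC_vtx, onC_vtx, onC_vtx] at e

variable (ψ) in
theorem exists_good (hf : IsVirtualCartierDivisor f) {i j : J} (h : i ≤ j) (m : ℕ) {t : (A.chart j).obj m}
    (ht : (f.app j).IsGenerator t) : ∃ o, ψ.Good h m t o := by
  have l₁ : ∀ (k : ℤ) (y : MooreDGA (B.chart j)), MooreDGA.IsHomogeneous k y → ∃ x : MooreDGA ((A.chart j).cotensor m), MooreDGA.IsHomogeneous k x ∧
      (y = 0 → x = 0) ∧ (f.app j).nc m x = MooreDGA.map ((B.chart j).const m) y := by
    intro k y hy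
    by_cases p : y = 0
    · exact ⟨0, MooreDGA.hg_zero _, fun _ => rfl, by rw [p, map_zero, map_zero]⟩
    · obtain ⟨x, hx, e⟩ := SimplicialRing.hg_lift (hf.surj j) k y hy
      refine ⟨MooreDGA.map ((A.chart j).const m) x, hx.map _, fun q => absurd q p, ?_⟩
      rw [← e, MooreDGA.map_map, MooreDGA.map_map, SimplicialRing.cotHom_const]
  choose p₀ hp using fun v v' : F.C.CellsOn i => l₁ _ _ (F.hm_N h v v')
  choose s₀ hs using fun (s : G.C.CellsOn i) (v' : F.C.CellsOn i) => l₁ _ _ (ψ.hm_N h s v')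
  exact exists_obj (SimplicialRing.isHom_nc (f.app j) m) ht.keC (G.hm_C h m) (G.mc_C h m) (G.tri_C h m)
    (F.mc_C h m) (ψ.ch_C h m) (Matrix.of p₀) (Matrix.of s₀) (fun v v' => (hp v v').1)
    (fun v v' k => (hp v v').2.1 (F.tri_N h v v' k)) (Matrix.ext fun v v' => (hp v v').2.2)
    (fun v v' => (hs v v').1) (fun v v' k => (hs v v').2.1 (ψ.tri_N h v v' k))
    (Matrix.ext fun v v' => (hs v v').2.2)

theorem ex_reflect {R : SimplicialRing.{u}} {m : ℕ} {U : Type u} [Fintype U] {dg : U → ℤ}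
    {δ : Matrix U U (MooreDGA (R.cotensor m))} {π : U → Prop}
    (h : Ex0 (dgN R).J dg ((δ.map (MooreDGA.map (R.vtx m))).map (dgN R).ev) π) :
    Ex0 (dgC R m).J dg (δ.map (dgC R m).ev) π := by
  refine Ex0.reflect (R.map (vert 0 0)) (R.vertex_surjective m) (R.mem_J_of_vertex m) ?_
  convert h using 1
  ext s r
  exact (SimplicialRing.isHom_vtx R m).ev _

theorem Good.ex_all (hf : IsVirtualCartierDivisor f) {i j : J} {h : i ≤ j} {m : ℕ} {t o} (g : ψ.Good h m t o)
    (ht : (f.app j).IsGenerator t) :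
    Ex0 (dgC (A.chart j) m).J (cdg (G.C.degOn i) (F.C.degOn i))
      ((o.matrix (dgC (A.chart j) m) (onC G.δ h m) t).map (dgC (A.chart j) m).ev) fun _ => True := by
  apply ex_reflect
  rw [← OD.mat_map (SimplicialRing.isHom_vtx (A.chart j) m), onC_vtx]
  have g₀ := g.vtx
  refine DG.IsAcyclic.ex0 g₀.hm g₀.maurerCartan (DG.acyc_cone (SimplicialRing.isHom_map (f.app j))
    (SimplicialRing.hg_lift (hf.surj j)) (ht.map _).keN g₀.hm g₀.maurerCartan ?_)
  rw [g₀.fS, g₀.fV]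
  exact ψ.qi_N h

theorem Good.ex_low (hf : IsVirtualCartierDivisor f) {i₀ i j : J} {h : i ≤ j} {m : ℕ} {t o} (g : ψ.Good h m t o)
    (ht : (f.app j).IsGenerator t) (h₀ : i₀ ≤ i) :
    Ex0 (dgC (A.chart j) m).J (cdg (G.C.degOn i) (F.C.degOn i))
      ((o.matrix (dgC (A.chart j) m) (onC G.δ h m) t).map (dgC (A.chart j) m).ev)
      fun w => cb (G.C.bA i) (F.C.bA i) w ≤ i₀ := by
  refine (ex0_sub_iff (cvx_uinc G.C F.C h₀).1 fun w => (range_uinc G.C F.C h₀ w).symm).1 ?_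
  have e := (g.low h₀).ex_all hf ht
  have e' := OD.mat_sub (Γ := dgC (A.chart j) m) o (onC G.δ h m) t (G.C.inc h₀)
    (F.C.inc_injective h₀)
  convert e using 1
  · funext w; exact cdg_cemb _ _ _ _ w
  · exact (congrArg (fun M => Matrix.map M (dgC (A.chart j) m).ev) e').symm

theorem Good.ex_kz (hf : IsVirtualCartierDivisor f) {i₀ i₁ i j : J} {h : i ≤ j} {m : ℕ} {t o} (g : ψ.Good h m t o)
    (ht : (f.app j).IsGenerator t) (h₀ : i₀ ≤ i₁) (h₁ : i₁ ≤ i) :
    Ex0 (dgC (A.chart j) m).J (cdg (G.C.degOn i) (F.C.degOn i))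
      ((o.matrix (dgC (A.chart j) m) (onC G.δ h m) t).map (dgC (A.chart j) m).ev)
      fun w => w.isRight ∧ cb (G.C.bA i) (F.C.bA i) w ≤ i₁ ∧ ¬ cb (G.C.bA i) (F.C.bA i) w ≤ i₀ := by
  apply ex_reflect
  rw [← OD.mat_map (SimplicialRing.isHom_vtx (A.chart j) m), onC_vtx]
  have g₀ := GoodO.sub (cvx_incB G.C F.C i₀ h₁) g.vtx
  obtain ⟨k₁, k₂, -⟩ := g₀.kz
  have a := DG.acyc_kz (SimplicialRing.isHom_map (f.app j)) (SimplicialRing.hg_lift (hf.surj j)) (ht.map _).keN k₁ k₂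
    (by rw [g₀.fV]; exact F.acyc_blkN h₀ (h₁.trans h))
  have e := DG.IsAcyclic.ex0 k₁ k₂ a
  have inj : Function.Injective (fun x : F.C.CellsBetween i₀ i₁ ⊕ F.C.CellsBetween i₀ i₁ =>
      cemb (G.C.incB i₀ h₁) (F.C.incB i₀ h₁) (.inr x)) :=
    (cvx_incB G.C F.C i₀ h₁).1.comp Sum.inr_injective
  refine (ex0_sub_iff inj ?_).1 ?_
  · intro w
    constructor
    · rintro ⟨p₀, p⟩
      rcases w with s | v | v
      · exact absurd p₀ (by simp)
      · exact ⟨.inl ⟨v.1, p⟩, rfl⟩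
      · exact ⟨.inr ⟨v.1, p⟩, rfl⟩
    · rintro ⟨v | v, rfl⟩
      · exact ⟨rfl, v.2⟩
      · exact ⟨rfl, v.2⟩
  · have e' := OD.mat_sub (Γ := dgN (A.chart j)) (o.map (MooreDGA.map ((A.chart j).vtx m))) (onN G.δ h)
      ((A.chart j).map (vert 0 0) t) (G.C.incB i₀ h₁) (F.C.incB_injective i₀ h₁)
    convert e using 1
    · funext w; rcases w with v | v <;> rfl
    · ext x y
      exact (congrArg (dgN (A.chart j)).ev (congrFun (congrFun e' (.inr x)) (.inr y))).symm

end PushforwardModel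

end Pool.Agent.P.MP_932208_ag
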