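import Pool.Agent.P.MP_932208_ag.XW

/-!
Line bundles: invariance under equivalences, and `O(lZ)` is a line bundle.
-/

namespace Pool.Agent.P.MP_932208_ag

open Classical

universe u

variable {J : Type u} [Preorder J] {A B : RingDiagram J}

theorem face_one_vert (n : ℕ) : (face (Fin.succ 0) : SimplexHom 0 1).comp (vert n 0) = vert n 0 := by
  ext a; rfl

theorem face_zero_vert (n : ℕ) : (face 0 : SimplexHom 0 1).comp (vert n 0) = vert n 1 := by
  ext a; rfl

theorem ModuleDiagram.smulBy_congr (M : ModuleDiagram A) (j : J) {e e' : M.obj j 0} (h : (M.ab j).IsBoundary (e - e'))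
    (he : (M.smulBy j e).IsWeakEquiv) : (M.smulBy j e').IsWeakEquiv := by
  obtain ⟨z, hz, dz⟩ := h
  have z₁ : M.map le_rfl (face (Fin.succ 0)) z = 0 := hz 0
  have z₀ : M.map le_rfl (face 0) z = e - e' := dz
  refine SimplicialAb.Hom.IsWeakEquiv.congr (fun n x hx => ?_) he
  have p := SimplicialAb.prism (X := (A.chart j).ab) (Y := M.ab j) (fun n χ => AddMonoidHom.mk'
    (fun a : (A.chart j).obj n => a • M.map le_rfl χ (M.map le_rfl (degen 0) e' + z))
    (fun a b => add_smul a b _)) (fun n i χ a => by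
      change M.map (le_refl j) (face i) (a • M.map (le_refl j) χ _) =
        (A.chart j).map (face i) a • M.map (le_refl j) (χ.comp (face i)) _
      rw [M.map_smul, M.map_comp, RingDiagram.tr_refl]) hx
  have e₀ : M.map le_rfl (vert n 0 : SimplexHom n 1) (M.map le_rfl (degen 0) e' + z) =
      M.map le_rfl (vert n 0) e' := by
    rw [← face_one_vert, ← M.map_comp le_rfl le_rfl, map_add (M.map le_rfl (face _)), z₁,
      M.map_comp le_rfl le_rfl (degen 0), degen_face_one, M.map_id, add_zero]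
  have e₁ : M.map le_rfl (vert n 1 : SimplexHom n 1) (M.map le_rfl (degen 0) e' + z) =
      M.map le_rfl (vert n 0) e := by
    rw [← face_zero_vert, ← M.map_comp le_rfl le_rfl, map_add (M.map le_rfl (face _)), z₀,
      M.map_comp le_rfl le_rfl (degen 0), degen_face_zero, M.map_id, add_sub_cancel]
  have p' := p.neg
  change (M.ab j).IsBoundary (-(x • _ - x • _)) at p'
  rw [e₀, e₁, neg_sub] at p'
  exact p'

/-- Restriction to a larger chart as a map of simplicial abelian groups. -/
def ModuleDiagram.resHom (M : ModuleDiagram A) {i j : J} (h : i ≤ j) : (M.ab i).Hom (M.ab j) where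
  app _ := M.map h OrderHom.id
  nat θ x := (M.map_comp le_rfl h θ OrderHom.id x).trans (M.map_comp h le_rfl OrderHom.id θ x).symm

theorem ModuleDiagram.Hom.smulBy_comp {P M : ModuleDiagram A} (g : P.Hom M) (j : J) (e : P.obj j 0) (n : ℕ)
    (a : (A.chart j).obj n) :
    ((g.ab j).comp (P.smulBy j e)).app n a = (M.smulBy j (g.app j 0 e)).app n a := by
  change g.app j n (a • _) = a • _
  rw [(g.app j n).map_smul, g.nat]

theorem SimplicialAb.Hom.IsWeakEquiv.congr' {X Y : SimplicialAb.{u}} {f g : X.Hom Y} (h : ∀ n x, f.app n x = g.app n x)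
    (hf : f.IsWeakEquiv) : g.IsWeakEquiv :=
  SimplicialAb.Hom.IsWeakEquiv.congr (fun n x _ => by rw [h, sub_self]; exact Y.bd_zero n) hf

theorem ModuleDiagram.IsLineBundle.target {P M : ModuleDiagram A} {g : P.Hom M} (homogeneous : g.IsWeakEquiv) (hP : P.IsLineBundle) :
    M.IsLineBundle := fun i => by
  obtain ⟨e, he⟩ := hP i
  refine ⟨g.app i 0 e, fun j h => ?_⟩
  rw [addApp, ← g.nat]
  exact SimplicialAb.Hom.IsWeakEquiv.congr' (g.smulBy_comp j _) ((homogeneous j).comp (he j h))

theorem ModuleDiagram.IsLineBundle.source {P M : ModuleDiagram A} {g : P.Hom M} (homogeneous : g.IsWeakEquiv) (hM : M.IsLineBundle) :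
    P.IsLineBundle := fun i => by
  obtain ⟨e, he⟩ := hM i
  obtain ⟨x, -, hx⟩ := (homogeneous i 0).1 e trivial
  refine ⟨x, fun j h => SimplicialAb.Hom.IsWeakEquiv.of_comp_right ?_ (homogeneous j)⟩
  refine SimplicialAb.Hom.IsWeakEquiv.congr' (fun n a => (g.smulBy_comp j _ n a).symm) ?_
  refine M.smulBy_congr j ?_ (he j h)
  have := (hx.neg).map (M.resHom h)
  rw [neg_sub, map_sub] at this
  rw [g.nat]
  exact this

/-- The map to the point. -/
def BisimplicialDiagram.toPt (X : BisimplicialDiagram J) : X.Hom (ptB J) where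
  app _ := ⟨⟩
  nat _ _ _ _ := rfl

/-- `X → pt × X`. -/
def BisimplicialDiagram.ptUnit (X : BisimplicialDiagram J) : X.Hom ((ptB J).prod X) where
  app x := (⟨⟩, x)
  nat _ _ _ _ := rfl

theorem BisimplicialDiagram.ptUnit_we (X : BisimplicialDiagram J) : X.ptUnit.IsWeakEquiv :=
  (BisimplicialDiagram.Hom.ext_of_bij X.ptUnit fun _ _ _ =>
    ⟨fun _ _ e => congrArg Prod.snd e, fun y => ⟨y.2, rfl⟩⟩).we

theorem Cocycle.smulBy_single {X : BisimplicialDiagram J} (c : Cocycle A X) (j : J) (x : X.obj j 0 0) (n : ℕ)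
    (a : (A.chart j).obj n) : (c.glue.smulBy j (Finsupp.single x 1)).app n a =
      Finsupp.single (X.map le_rfl (vert n 0) (vert n 0) x) a := by
  change a • c.twistedMap le_rfl (vert n 0) (vert n 0) (Finsupp.single x 1) = _
  have : c.c x (vert n (0 : Fin 1) 0) = 1 := c.c_zero x
  rw [c.tmap_single, this, mul_one, map_one, Finsupp.smul_single, smul_eq_mul, mul_one]

theorem triv_smulBy_we {X : BisimplicialDiagram J} (hX : X.toPt.IsWeakEquiv) (A : RingDiagram J) (j : J) (x : X.obj j 0 0) :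
    ((Cocycle.triv A X).glue.smulBy j (Finsupp.single x 1)).IsWeakEquiv := by
  refine SimplicialAb.Hom.IsWeakEquiv.of_comp_right (SimplicialAb.Hom.we_of_bij _ fun n => ?_) (hX A (Cocycle.triv A _) j)
  have e : ∀ a, ((((Cocycle.triv A (ptB J)).twMap X.toPt).ab j).comp
      ((Cocycle.triv A X).glue.smulBy j (Finsupp.single x 1))).app n a =
      Finsupp.single PUnit.unit a := fun a => by
    change Finsupp.mapDomain _ (((Cocycle.triv A X).glue.smulBy j (Finsupp.single x 1)).app n a) = _
    rw [Cocycle.smulBy_single, Finsupp.mapDomain_single]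
  refine ⟨fun a b h => ?_, fun y => ⟨y PUnit.unit, ?_⟩⟩
  · exact Finsupp.single_injective PUnit.unit ((e a).symm.trans (h.trans (e b)))
  · exact (e _).trans (Finsupp.unique_single y).symm

variable {f : A.Hom B} (hf : IsVirtualCartierDivisor f)

theorem IsVirtualCartierDivisor.pth_toPt_we {j : J} {t₀ : (A.chart j).obj 0} (ht : (f.app j).IsGenerator t₀) :
    (hf.pthB t₀).toPt.IsWeakEquiv :=
  (fst_cech_we A j _).comp (((hf.toC_ext ht).prodL (ptB _)).we.comp (BisimplicialDiagram.ptUnit_we _))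

theorem IsVirtualCartierDivisor.pth_cob {j : J} (t₀ : (A.chart j).obj 0) (l : ℤ) {k n k' m : ℕ} (θ : SimplexHom k n)
    (θ' : SimplexHom k' m) (w : Pth f j t₀ n m) :
    A.transition le_rfl θ' 1 * (((Pth.map hf θ θ' w).v ^ l : ((A.chart j).obj k')ˣ) : (A.chart j).obj k') =
      A.transition le_rfl θ' (((w.v ^ l : ((A.chart j).obj m)ˣ) : (A.chart j).obj m) * w.y.unitPower l (θ 0)) := by
  have e : w.y.u (θ 0) 0 = (w.y.u 0 (θ 0))⁻¹ :=
    eq_inv_of_mul_eq_one_left (by rw [w.y.cocycle, w.y.u_self])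
  rw [map_one, one_mul, GeneratorChain.unitPower, ← Units.val_mul]
  change ((Units.map (A.transition le_rfl θ').toMonoidHom (w.y.u (θ 0) 0 * w.v) ^ l :
    ((A.chart j).obj k')ˣ) : (A.chart j).obj k') = _
  rw [← map_zpow, e, mul_zpow, inv_zpow', mul_comm]; rfl

theorem IsVirtualCartierDivisor.oz_smulBy_we (l : ℤ) (j : J) (y : GeneratorChain f j 0 0) :
    ((hf.lineOlZ l).smulBy j (Finsupp.single y 1)).IsWeakEquiv := by
  have e0 : (vert 0 0 : SimplexHom 0 0) = OrderHom.id := by ext i; simp [vert]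
  let w₀ : Pth f j (y.t 0) 0 0 := ⟨y, 1, 0, MooreDGA.hg_zero _, map_zero _, by simp [e0, SimplicialRing.map_id]⟩
  have h₁ := triv_smulBy_we (hf.pth_toPt_we (y.gen 0)) (A.at j) ⟨⟩ w₀
  have h₂ := Cocycle.rescale_we (Cocycle.triv (A.at j) (hf.pthB (y.t 0)))
    (((hf.powerCocycle l).at j).pull (hf.toT (y.t 0)))
    (fun {_ n m} w => ((w.v ^ l : ((A.chart j).obj m)ˣ) : (A.chart j).obj m))
    (fun _ θ θ' w => hf.pth_cob (y.t 0) l θ θ' w) (fun w => Units.isUnit _) ⟨⟩
  have h₃ := (hf.toT_ext (y.gen 0)).we (A.at j) ((hf.powerCocycle l).at j) ⟨⟩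
  refine SimplicialAb.Hom.IsWeakEquiv.congr' (fun n a => ?_) (h₃.comp (h₂.comp h₁))
  refine Eq.trans ?_ ((hf.powerCocycle l).smulBy_single j y n a).symm
  change Finsupp.mapDomain _ (Cocycle.scal _ (((Cocycle.triv (A.at j) (hf.pthB (y.t 0))).glue.smulBy
    ⟨⟩ (Finsupp.single w₀ 1)).app n a)) = _
  rw [Cocycle.smulBy_single, Cocycle.scal_single, Finsupp.mapDomain_single]
  have : (Pth.map hf (vert n 0) (vert n 0) w₀).v = 1 := by
    change Units.map _ (y.u 0 0 * 1) = 1
    rw [y.u_self, one_mul, map_one]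
  change Finsupp.single _ (a * (((Pth.map hf (vert n 0) (vert n 0) w₀).v ^ l :
    ((A.chart j).obj n)ˣ) : (A.chart j).obj n)) = _
  rw [this, one_zpow, Units.val_one, mul_one]; rfl

theorem IsVirtualCartierDivisor.isLine_oz (l : ℤ) : (hf.lineOlZ l).IsLineBundle := fun i => by
  obtain ⟨t, ht⟩ := hf.gen i
  let y : GeneratorChain f i 0 0 := ⟨fun _ => t, fun _ _ => 1, fun _ => ht, fun _ _ => by simp,
    fun _ _ _ => mul_one _⟩
  refine ⟨Finsupp.single y 1, fun j h => ?_⟩
  have e : (hf.lineOlZ l).map h OrderHom.id (Finsupp.single y 1) =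
      Finsupp.single (GeneratorChain.map hf h OrderHom.id OrderHom.id y) 1 := by
    change (hf.powerCocycle l).twistedMap h _ _ _ = _
    have : (hf.powerCocycle l).c y ((OrderHom.id : SimplexHom 0 0) 0) = 1 := (hf.powerCocycle l).c_zero y
    rw [Cocycle.tmap_single, this, mul_one, map_one]
  rw [addApp, e]
  exact hf.oz_smulBy_we l j _

/-- The first generator of a chain, as an element of the ideal. -/
def GeneratorChain.first {j : J} {n m : ℕ} (x : GeneratorChain f j n m) : f.ideal.obj j m :=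
  ⟨x.t 0, (x.gen 0).1⟩

theorem IsVirtualCartierDivisor.toIdeal_nat {i j : J} {k n : ℕ} (h : i ≤ j) (θ : SimplexHom k n)
    (z : GeneratorChain f i n n →₀ (A.chart i).obj n) :
    Finsupp.linearCombination ((A.chart j).obj k) GeneratorChain.first
      ((hf.powerCocycle (-1)).twistedMap h θ θ z) =
    f.ideal.map h θ (Finsupp.linearCombination ((A.chart i).obj n) GeneratorChain.first z) := by
  induction z using Finsupp.induction_linear with
  | zero => simp only [map_zero]
  | add x y hx hy => simp only [map_add, hx, hy]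
  | single x a =>
    rw [Cocycle.tmap_single, Finsupp.linearCombination_single, Finsupp.linearCombination_single]
    refine Subtype.ext ?_
    change A.transition h θ (a * x.unitPower (-1) (θ 0)) * A.transition h θ (x.t (θ 0)) =
      A.transition h θ (a * x.t 0)
    rw [← map_mul, x.relation 0 (θ 0), GeneratorChain.unitPower, unitZPow, neg_neg, zpow_one, mul_assoc]

/-- The map `O(-Z) → I`, `a [x] ↦ a t₀`. -/
noncomputable def IsVirtualCartierDivisor.toIdeal : (hf.lineOlZ (-1)).Hom f.ideal where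
  app j n := Finsupp.linearCombination ((A.chart j).obj n) GeneratorChain.first
  nat := hf.toIdeal_nat

/-- Comparison of the two forms of the kernel on a chart. -/
def RingDiagram.Hom.kerIdeal (f : A.Hom B) (j : J) : (f.app j).ker.Hom (f.ideal.ab j) where
  app _ := AddMonoidHom.id _
  nat θ x := Subtype.ext (congrArg (fun g : _ →+* _ => g x.1) (A.tr_refl j θ)).symm

theorem IsVirtualCartierDivisor.toIdeal_we : hf.toIdeal.IsWeakEquiv := fun j => by
  obtain ⟨t, ht⟩ := hf.gen j
  let y : GeneratorChain f j 0 0 := ⟨fun _ => t, fun _ _ => 1, fun _ => ht, fun _ _ => by simp,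
    fun _ _ _ => mul_one _⟩
  have e0 : (vert 0 0 : SimplexHom 0 0) = OrderHom.id := by ext i; simp [vert]
  have k₀ : (f.app j).app 0 ((A.chart j).map (vert 0 0) t) = 0 := by
    rw [SimplicialRing.Hom.nat, ht.1, map_zero]
  have h₁ := (SimplicialAb.Hom.we_of_bij (f.kerIdeal j) fun _ => Function.bijective_id).comp
    (ht.2 0 k₀)
  refine SimplicialAb.Hom.IsWeakEquiv.of_comp_left ?_ (hf.oz_smulBy_we (-1) j y)
  refine SimplicialAb.Hom.IsWeakEquiv.congr' (fun n a => ?_) h₁
  change _ = Finsupp.linearCombination ((A.chart j).obj n) GeneratorChain.first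
    (((hf.powerCocycle (-1)).glue.smulBy j (Finsupp.single y 1)).app n a)
  rw [Cocycle.smulBy_single, Finsupp.linearCombination_single]
  refine Subtype.ext ?_
  change a * (A.chart j).map (vert n 0) ((A.chart j).map (vert 0 0) t) =
    a * A.transition le_rfl (vert n 0) t
  rw [e0, SimplicialRing.map_id, RingDiagram.tr_refl]

/-- The identity of a module. -/
def ModuleDiagram.Hom.id (M : ModuleDiagram A) : M.Hom M where
  app _ _ := LinearMap.id
  nat _ _ _ := rfl

theorem IsVirtualCartierDivisor.equivalent_ideal : (hf.lineOlZ (-1)).Equivalent f.ideal :=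
  ⟨_, ModuleDiagram.Hom.id _, hf.toIdeal,
    fun _ => SimplicialAb.Hom.we_of_bij _ fun _ => Function.bijective_id, hf.toIdeal_we⟩

end Pool.Agent.P.MP_932208_ag
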