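import Pool.Agent.P.MP_932208_ag.XU
import Pool.Agent.P.MP_932208_ag.XL
import Pool.Agent.P.MP_932208_ag.TorsX

/-!
The two cocycles are cohomologous; the main theorem.
-/

namespace Pool.Agent.P.MP_932208_ag

open Classical

universe u

variable {J : Type u} [Preorder J] {A B : RingDiagram J} {f : A.Hom B} {G : PerfectComplex A} {F : PerfectComplex B}

theorem Cells.card_split (C : Cells J) {i j : J} (h : i ≤ j) (P : ℤ → Prop) :
    Nat.card {s : C.CellsOn j // P (C.degOn j s)} =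
      Nat.card {s : C.CellsOn i // P (C.degOn i s)} + Nat.card {s : C.CellsBetween i j // P (C.degBetween i j s)} := by
  rw [← Nat.card_sum]
  refine Nat.card_congr (((C.split h).subtypeEquiv (p := fun x => P (C.degOn j (C.split h x)))
    fun _ => Iff.rfl).symm.trans Equiv.subtypeSum)

/-- Integral powers of an element that is a unit. -/
noncomputable def upow {K : Type u} [CommRing K] (t : K) (n : ℤ) : K :=
  if h : IsUnit t then ((h.unit ^ n : Kˣ) : K) else 1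

theorem upow_zero {K : Type u} [CommRing K] (t : K) : upow t 0 = 1 := by
  unfold upow; split_ifs <;> simp

theorem upow_unit {K : Type u} [CommRing K] (t : Kˣ) (n : ℤ) : upow (t : K) n = (t ^ n : Kˣ) := by
  rw [upow, dif_pos t.isUnit, IsUnit.unit_of_val_units]

theorem isUnit_upow {K : Type u} [CommRing K] (t : K) (n : ℤ) : IsUnit (upow t n) := by
  unfold upow; split_ifs
  exacts [Units.isUnit _, isUnit_one]

theorem map_upow {K K' : Type u} [CommRing K] [CommRing K'] (g : K →+* K') {t : K} {n : ℤ}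
    (h : n ≠ 0 → IsUnit t) : g (upow t n) = upow (g t) n := by
  by_cases p : n = 0
  · rw [p, upow_zero, upow_zero, map_one]
  · obtain ⟨v, rfl⟩ := h p
    rw [upow_unit]
    refine Eq.trans ?_ (upow_unit (Units.map g.toMonoidHom v) n).symm
    rw [← map_zpow]; rfl

/-- A map of simplicial rings as a map of simplicial abelian groups. -/
def SimplicialRing.Hom.abHom {R R' : SimplicialRing.{u}} (g : R.Hom R') : R.ab.Hom R'.ab where
  app n := (g.app n).toAddMonoidHom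
  nat := g.nat

/-- If the divisor is empty then a generator of its ideal is a unit. -/
theorem SimplicialRing.Hom.IsGenerator.isUnit_of_empty {R R' : SimplicialRing.{u}} {g : R.Hom R'}
    (sj : ∀ n, Function.Surjective (g.app n)) (sat : R.IsSaturated)
    (h : R'.ab.IsBoundary (1 : R'.obj 0)) {m : ℕ} {t : R.obj m} (ht : g.IsGenerator t) :
    IsUnit t := by
  obtain ⟨z, hz, dz⟩ := h
  obtain ⟨z', hz', rfl⟩ := g.abHom.moore_lift sj hz
  have k : 1 - R.map (face 0) z' ∈ RingHom.ker (g.app 0) := by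
    have dz' : R'.map (face 0) (g.app 1 z') = 1 := dz
    rw [RingHom.mem_ker, map_sub, map_one, g.nat, dz', sub_self]
  have k₀ : g.app 0 (R.map (vert 0 0) t) = 0 := by rw [g.nat, ht.1, map_zero]
  obtain ⟨a, -, w, hw, dw⟩ := ((ht.2 0 k₀) 0).1 ⟨_, k⟩ trivial
  have e0 : (vert 0 0 : SimplexHom 0 0) = OrderHom.id := by ext i; simp [vert]
  have dw' : R.map (face 0) w.1 = a * R.map (vert 0 0) (R.map (vert 0 0) t) -
      (1 - R.map (face 0) z') := congrArg Subtype.val dw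
  rw [e0, R.map_id] at dw'
  refine sat m t ⟨a, w.1 - z', fun i => ?_, ?_⟩
  · have h₁ : R.map (face i.succ) w.1 = 0 := congrArg Subtype.val (hw i)
    have h₂ : R.map (face i.succ) z' = 0 := hz' i
    change R.map (face i.succ) (w.1 - z') = 0
    rw [map_sub, h₁, h₂, sub_zero]
  · change R.map (face 0) (w.1 - z') = _
    rw [map_sub, dw']; ring

/-- The Euler characteristic on a chart. -/
noncomputable def PerfectComplex.rk (F : PerfectComplex B) (i : J) : ℤ :=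
  (Nat.card (EvenCell (F.C.degOn i)) : ℤ) - Nat.card (OddCell (F.C.degOn i))

theorem IsVirtualCartierDivisor.isUnit_of_rk (hf : IsVirtualCartierDivisor f) {l : ℤ}
    (hl : F.HasRank l) {i j : J} (h : i ≤ j) (p : l - F.rk i ≠ 0) {m : ℕ} {t : (A.chart j).obj m}
    (ht : (f.app j).IsGenerator t) : IsUnit t := by
  have b : (B.chart i).ab.IsBoundary (1 : (B.chart i).obj 0) := by
    by_contra q
    exact p (sub_eq_zero.2 (hl i q).symm)
  have b' := b.map (B.res h).abHom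
  refine ht.isUnit_of_empty (hf.surj j) (hf.sat j) ?_
  have e : (B.res h).abHom.app 0 (1 : (B.chart i).obj 0) = (1 : (B.chart j).obj 0) :=
    map_one ((B.res h).app 0)
  rwa [e] at b'

namespace Fu
variable {ψ : PushforwardModel f G F} (hf : IsVirtualCartierDivisor f) (β : ∀ j, OddCell (G.C.degOn j) ≃ EvenCell (G.C.degOn j))
  {i j : J} {k n k' m : ℕ}

include hf in
theorem cx (x : Fu ψ j n m) (a : Fin (n + 1)) :
    IsExactComplex (cdg (G.C.degOn _) (F.C.degOn _)) ((dgC (A.chart j) m).sd (x.z.x.matrix a) (x.φ a)) :=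
  DG.cx_of_strict _ ((hf.sat j).dgC m) (x.z.x.go a).hm (x.z.x.go a).maurerCartan (x.shuffle a).hm
    ((x.shuffle a).ev1.trans (one_dec _ _)) (DG.strict_of_res (x.st a))
    ((x.z.x.go a).ex_all hf (x.z.x.y.2.gen a))

/-- The signed torsion of the cone on the vertex `a`. -/
noncomputable def mu (l : ℤ) (x : Fu ψ j n m) (a : Fin (n + 1)) : (A.chart j).obj m :=
  (-1) ^ Nat.card (OddCell (G.C.degOn (x.z.x.y.1.c a))) *
    tors (cpair (β (x.z.x.y.1.c a)) (F.C.degOn _)) ((dgC (A.chart j) m).sd (x.z.x.matrix a) (x.φ a)) *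
    upow (x.z.x.y.2.t a) (l - F.rk (x.z.x.y.1.c a))

include hf in
theorem isUnit_mu (l : ℤ) (x : Fu ψ j n m) (a : Fin (n + 1)) : IsUnit (x.mu β l a) :=
  ((isUnit_one.neg.pow _).mul (isUnit_tors _ (x.cx hf a))).mul (isUnit_upow _ _)

theorem mu_map {l : ℤ} (hl : F.HasRank l) (h : i ≤ j) (θ : SimplexHom k n) (θ' : SimplexHom k' m)
    (x : Fu ψ i n m) (a : Fin (k + 1)) :
    (x.map hf h θ θ').mu β l a = A.transition h θ' (x.mu β l (θ a)) := by
  have e := (SimplicialRing.isHom_cot (A.res h) θ').sd (x.z.x.matrix (θ a)) (x.φ (θ a))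
  have e' := map_tors (cpair (β (x.z.x.y.1.c (θ a))) (F.C.degOn _)) (x.cx hf (θ a))
    (A.transition h θ')
  have e'' := Ob.mat_map hf h θ θ' x.z.x a
  rw [mu, mu, map_mul, map_mul, map_pow, map_neg, map_one, e', map_upow _ fun p =>
    hf.isUnit_of_rk hl (x.z.x.y.1.le' (θ a)) p (x.z.x.y.2.gen (θ a))]
  refine congrArg (_ * tors _ · * _) ?_
  exact (congrArg (fun D => (dgC (A.chart j) k').sd D _) e'').trans e

include hf in
theorem exists_kappa {l : ℤ} (hl : F.HasRank l) (x : Fu ψ j n m) (a : Fin (n + 1)) :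
    ∃ κ, KzVal κ (x.z.x.y.2.t a)
      (Nat.card (OddCell (F.C.degBetween (x.z.x.y.1.c 0) (x.z.x.y.1.c a))))
      (Nat.card (EvenCell (F.C.degBetween (x.z.x.y.1.c 0) (x.z.x.y.1.c a)))) ∧
    upow (x.z.x.y.2.t 0) (l - F.rk (x.z.x.y.1.c 0)) * x.z.x.y.2.unitPower l a *
      (x.z.x.y.2.u 0 a : (A.chart j).obj m) ^ Nat.card (EvenCell (F.C.degOn (x.z.x.y.1.c 0))) =
    κ * upow (x.z.x.y.2.t a) (l - F.rk (x.z.x.y.1.c a)) *
      (x.z.x.y.2.u 0 a : (A.chart j).obj m) ^ Nat.card (OddCell (F.C.degOn (x.z.x.y.1.c 0))) := by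
  have p : x.z.x.y.1.c 0 ≤ x.z.x.y.1.c a := x.z.x.y.1.c.monotone (Fin.zero_le a)
  have o₁ := F.C.card_split p Odd
  have o₂ := F.C.card_split p Even
  change Nat.card (OddCell _) = Nat.card (OddCell _) + Nat.card (OddCell _) at o₁
  change Nat.card (EvenCell _) = Nat.card (EvenCell _) + Nat.card (EvenCell _) at o₂
  by_cases q : l - F.rk (x.z.x.y.1.c 0) = 0 ∧ l - F.rk (x.z.x.y.1.c a) = 0
  · obtain ⟨q₀, q₁⟩ := q
    refine ⟨1, .inl ⟨by unfold PerfectComplex.rk at q₀ q₁; omega, rfl⟩, ?_⟩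
    rw [q₀, q₁, upow_zero, upow_zero, one_mul, one_mul, one_mul, GeneratorChain.unitPower,
      ← Units.val_pow_eq_pow_val, ← Units.val_pow_eq_pow_val, ← Units.val_mul,
      ← zpow_natCast, ← zpow_natCast, ← zpow_add]
    unfold PerfectComplex.rk at q₀
    congr 2; omega
  · obtain ⟨T, hT⟩ : IsUnit (x.z.x.y.2.t a) := by
      rcases not_and_or.1 q with q | q
      · exact hf.isUnit_of_rk hl (x.z.x.y.1.le' 0) q (x.z.x.y.2.gen a)
      · exact hf.isUnit_of_rk hl (x.z.x.y.1.le' a) q (x.z.x.y.2.gen a)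
    refine ⟨(T ^ (F.rk (x.z.x.y.1.c a) - F.rk (x.z.x.y.1.c 0)) : ((A.chart j).obj m)ˣ),
      .inr ⟨hT ▸ T.isUnit, ?_⟩, ?_⟩
    · rw [← hT, ← Units.val_pow_eq_pow_val, ← Units.val_pow_eq_pow_val, ← Units.val_mul,
        ← zpow_natCast, ← zpow_natCast, ← zpow_add]
      unfold PerfectComplex.rk
      congr 2; omega
    · rw [x.z.x.y.2.relation 0 a, ← hT, ← Units.val_mul, upow_unit, upow_unit,
        GeneratorChain.unitPower, ← Units.val_pow_eq_pow_val, ← Units.val_pow_eq_pow_val,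
        ← Units.val_mul, ← Units.val_mul, ← Units.val_mul, ← Units.val_mul, ← zpow_natCast,
        ← zpow_natCast, mul_zpow, ← zpow_add, mul_comm (_ ^ _) (T ^ _), mul_assoc, mul_assoc,
        ← zpow_add, ← zpow_add]
      unfold PerfectComplex.rk
      congr 3 <;> omega

include hf in
theorem tau_mu {l : ℤ} (hl : F.HasRank l) (x : Fu ψ j n m) (a : Fin (n + 1)) :
    x.z.x.y.1.torsionScalar β a * x.mu β l a = x.mu β l 0 * x.z.x.y.2.unitPower l a := by
  have p : x.z.x.y.1.c 0 ≤ x.z.x.y.1.c a := x.z.x.y.1.c.monotone (Fin.zero_le a)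
  have q : x.z.x.y.1.c a ≤ x.z.x.y.1.c (Fin.last n) := x.z.x.y.1.c.monotone (Fin.le_last a)
  have o₃ := G.C.card_split p Odd
  obtain ⟨κ, hκ, hu⟩ := x.exists_kappa hf hl a
  have gd := (DG.res_sub (Γ := dgC (A.chart j) m) (Cells.sub_injective (C := G.C) le_rfl q)
    (δ := G.blockMatrix _ x.z.x.y.1.le m) (φ := x.z.x.y.1.φ)
    (fun w y w' hy => .inl (x.z.x.y.1.triangular a _ _ w.2.1 fun k => hy ⟨⟨y.1, k, y.2.2⟩, rfl⟩).1)
    (fun w y w' hy => .inl (by
      rw [x.z.x.y.1.sd_res.1]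
      exact (x.z.x.y.1.triangular a _ _ w.2.1 fun k => hy ⟨⟨y.1, k, y.2.2⟩, rfl⟩).2))).1
  rw [x.z.x.y.1.sd_res.1] at gd
  have e := tors_step ((hf.sat j).dgC m) (G.C.split p) (F.C.split p) (dS := G.C.degOn _)
    (dV := F.C.degOn _) (dS₀ := G.C.degOn _) (dV₀ := F.C.degOn _) (dS₁ := G.C.degBetween _ _)
    (dV₁ := F.C.degBetween _ _)
    (c := x.z.x.y.1.c) 0 (fun _ => rfl) (fun _ => rfl) (fun _ => rfl) (fun _ => rfl)
    (fun s => s.2) (fun s => s.2.2) (fun s => s.2) (fun s => s.2.2) (x.z.x.go a) (x.shuffle a)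
    (x.st a) ((x.z.x.go a).ex_all hf (x.z.x.y.2.gen a))
    (((x.z.x.go a).ex_kz hf (x.z.x.y.2.gen a) p le_rfl).congr fun w =>
      ⟨fun k => ⟨k.1, k.2.2⟩, fun k => ⟨k.1, cb_le _ _ _ w, k.2⟩⟩)
    (x.gg a) gd (x.z.x.y.1.exact 0 a) (x.cx hf 0) (x.shuffle 0).ev1 (x.st 0) (x.z.x.y.2.u 0 a)
    (x.z.gm 0 a (Fin.zero_le a)) (x.cm 0 a (Fin.zero_le a)) hκ (β _) (β _)
  refine ((x.z.x.y.2.u 0 a).isUnit.pow
    (Nat.card (EvenCell (F.C.degOn (x.z.x.y.1.c 0))))).mul_right_cancel ?_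
  rw [mu, mu]
  change Nat.card (OddCell _) = Nat.card (OddCell _) + Nat.card (OddCell _) at o₃
  have s : ((-1 : (A.chart j).obj m) ^
      Nat.card (OddCell (G.C.degBetween (x.z.x.y.1.c 0) (x.z.x.y.1.c a)))) *
      (-1) ^ Nat.card (OddCell (G.C.degBetween (x.z.x.y.1.c 0) (x.z.x.y.1.c a))) = 1 := by
    rw [← mul_pow]; simp
  rw [o₃, pow_add]
  change x.z.x.y.1.torsionScalar β a *
    tors _ ((dgC (A.chart j) m).sd (x.z.x.matrix a) (x.φ a)) * _ = _ at e
  linear_combination ((-1) ^ Nat.card (OddCell (G.C.degOn (x.z.x.y.1.c 0))) *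
    (-1) ^ Nat.card (OddCell (G.C.degBetween (x.z.x.y.1.c 0) (x.z.x.y.1.c a))) *
    upow (x.z.x.y.2.t a) (l - F.rk (x.z.x.y.1.c a))) * e +
    ((-1) ^ Nat.card (OddCell (G.C.degOn (x.z.x.y.1.c 0))) *
      tors (cpair (β (x.z.x.y.1.c 0)) (F.C.degOn _))
      ((dgC (A.chart j) m).sd (x.z.x.matrix 0) (x.φ 0)) * κ *
      upow (x.z.x.y.2.t a) (l - F.rk (x.z.x.y.1.c a)) *
      (x.z.x.y.2.u 0 a : (A.chart j).obj m) ^ Nat.card (OddCell (F.C.degOn (x.z.x.y.1.c 0)))) * s -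
    ((-1) ^ Nat.card (OddCell (G.C.degOn (x.z.x.y.1.c 0))) *
      tors (cpair (β (x.z.x.y.1.c 0)) (F.C.degOn _))
      ((dgC (A.chart j) m).sd (x.z.x.matrix 0) (x.φ 0))) * hu

end Fu

theorem det_push (f : A.Hom B) (hf : IsVirtualCartierDivisor f) (F : PerfectComplex B) (l : ℤ) (hl : F.HasRank l) (G : PerfectComplex A)
    (ψ : PushforwardModel f G F) (β : ∀ j, OddCell (G.C.degOn j) ≃ EvenCell (G.C.degOn j)) :
    ∃ (P : ModuleDiagram A) (g₁ : P.Hom (G.detLine β)) (g₂ : P.Hom (hf.lineOlZ l)), g₁.IsWeakEquiv ∧ g₂.IsWeakEquiv := by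
  have hμ : ∀ {i j : J} {k n k' m : ℕ} (h : i ≤ j) (θ : SimplexHom k n) (θ' : SimplexHom k' m) (x : Fu ψ i n m),
      A.transition h θ' (x.z.x.y.1.torsionScalar β (θ 0)) * (x.map hf h θ θ').mu β l 0 =
        A.transition h θ' (x.mu β l 0 * x.z.x.y.2.unitPower l (θ 0)) := fun h θ θ' x => by
    rw [Fu.mu_map hf β hl, ← map_mul, Fu.tau_mu hf β hl]
  exact ⟨_, (G.torsionCocycle β).twMap ((BisimplicialDiagram.fst _ _).comp (ψ.toY hf)),
    ((hf.powerCocycle l).twMap ((BisimplicialDiagram.snd _ _).comp (ψ.toY hf))).comp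
      (Cocycle.rescale _ _ (fun x => x.mu β l 0) hμ), ψ.toZ_we hf A _,
    (ψ.toT_we hf A _).comp (Cocycle.rescale_we _ _ _ hμ fun x => x.isUnit_mu hf β l 0)⟩

theorem det_push_line (f : A.Hom B) (hf : IsVirtualCartierDivisor f) (F : PerfectComplex B) (l : ℤ) (hl : F.HasRank l)
    (G : PerfectComplex A) (ψ : PushforwardModel f G F) (β : ∀ j, OddCell (G.C.degOn j) ≃ EvenCell (G.C.degOn j)) :
    (G.detLine β).IsLineBundle ∧ (hf.lineOlZ l).IsLineBundle ∧
      ∃ (P : ModuleDiagram A) (g₁ : P.Hom (G.detLine β)) (g₂ : P.Hom (hf.lineOlZ l)), g₁.IsWeakEquiv ∧ g₂.IsWeakEquiv := by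
  obtain ⟨P, g₁, g₂, h₁, h₂⟩ := det_push f hf F l hl G ψ β
  exact ⟨ModuleDiagram.IsLineBundle.target h₁ (ModuleDiagram.IsLineBundle.source h₂ (hf.isLine_oz l)), hf.isLine_oz l,
    P, g₁, g₂, h₁, h₂⟩

end Pool.Agent.P.MP_932208_ag
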