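import Pool.Agent.P.MP_932208_ag.XA
import Pool.Agent.P.MP_932208_ag.Phi
import Pool.Agent.P.MP_932208_ag.Simp3

/-!
The space of strictifications over a fixed chain is contractible; chains below a chart are
contractible.
-/

namespace Pool.Agent.P.MP_932208_ag

open Classical

universe u

variable {J : Type u} [Preorder J] {A B : RingDiagram J}

theorem RingDiagram.tr_refl (A : RingDiagram J) (j : J) {k m : ℕ} (θ : SimplexHom k m) :
    A.transition (le_refl j) θ = (A.chart j).map θ := by
  ext x; simp [RingDiagram.transition, A.res_id]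

theorem RingDiagram.rs_refl (A : RingDiagram J) (j : J) {k m : ℕ} (θ : SimplexHom k m) :
    MooreDGA.map (SimplicialRing.cotensorHom (A.res (le_refl j)) θ) = (A.chart j).rs θ := by
  rw [RingDiagram.res_refl]

theorem DG.ev_one_of {R K U : Type u} [Ring R] [CommRing K] {Γ : DG R K} {dg : U → ℤ}
    {φ : Matrix U U R} (hm : Γ.HM dg dg 0 φ)
    (one : ∀ s r, dg s = dg r → φ s r = if s = r then 1 else 0) : φ.map Γ.ev = 1 := by
  ext s r
  rw [Matrix.map_apply, Matrix.one_apply]
  by_cases p : dg s = dg r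
  · rw [one s r p]; split_ifs <;> simp
  · rw [Γ.ev_pos (by omega) (hm s r), if_neg (fun q => p (by rw [q]))]

theorem DG.one_of_ev {R K U : Type u} [Ring R] [CommRing K] {Γ : DG R K} {dg : U → ℤ}
    {φ : Matrix U U R} (hm : Γ.HM dg dg 0 φ) (ev1 : φ.map Γ.ev = 1) (s r : U) (p : dg s = dg r) :
    φ s r = if s = r then 1 else 0 := by
  have e := congrFun (congrFun ev1 s) r
  rw [Matrix.map_apply, Matrix.one_apply] at e
  rw [← Γ.inc_ev (Γ.hg_cast (hm s r) (by omega)), e]
  split_ifs <;> simp

theorem DG.strict_of_res {R K U : Type u} [Ring R] [CommRing K] [Fintype U] {Γ : DG R K}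
    {δ φ : Matrix U U R} (h : Γ.res δ φ = 0) : Γ.dM δ φ = (Γ.sd δ φ).map Γ.inc * φ :=
  sub_eq_zero.1 h

/-- Chains below the chart `j`. -/
@[ext] structure Chn (j : J) (n : ℕ) where
  c : Fin (n + 1) →o J
  le : c (Fin.last n) ≤ j

theorem Chn.le' {j : J} {n : ℕ} (x : Chn j n) (a : Fin (n + 1)) : x.c a ≤ j :=
  (x.c.monotone (Fin.le_last _)).trans x.le

/-- The nerves of the lower sets. -/
@[reducible] def chB (J : Type u) [Preorder J] : BisimplicialDiagram J where
  obj j n _ := Chn j n
  map h θ _ x := ⟨x.c.comp θ, (x.le' _).trans h⟩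
  map_id _ _ _ _ := rfl
  map_comp _ _ _ _ _ _ _ _ _ _ _ _ _ := rfl

theorem chn_mono {j : J} {n : ℕ} (x : Chn j n) (χ : SimplexHom n 1) :
    Monotone fun a => if χ a = 0 then x.c a else j := by
  intro a b hab
  dsimp only
  by_cases p : χ b = 0
  · have q : χ a = 0 := le_antisymm (p ▸ χ.monotone hab) (Fin.zero_le _)
    rw [if_pos p, if_pos q]; exact x.c.monotone hab
  · rw [if_neg p]
    split_ifs
    exacts [x.le' a, le_rfl]

theorem chn_le {j : J} {n : ℕ} (x : Chn j n) (χ : SimplexHom n 1) (a : Fin (n + 1)) :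
    (if χ a = 0 then x.c a else j) ≤ j := by
  split_ifs
  exacts [x.le' a, le_rfl]

theorem snd_ch_we (T : BisimplicialDiagram J) : (BisimplicialDiagram.snd (chB J) T).IsWeakEquiv := by
  refine BisimplicialDiagram.Hom.we_of_lab _ (fun {j n m} y => (⟨OrderHom.const _ j, le_rfl⟩, y))
    (fun {j n m} x χ => (⟨⟨_, chn_mono x.1 χ⟩, chn_le x.1 χ _⟩, x.2)) (fun _ _ _ _ => rfl)
    (fun _ _ _ _ _ => rfl) (fun _ _ _ _ _ _ => rfl) (fun _ _ _ _ _ _ _ => rfl) ?_ ?_
  · intro j n m x
    refine Prod.ext (Chn.ext ?_) rfl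
    ext a; simp [vert]
  · intro j n m x
    refine Prod.ext (Chn.ext ?_) rfl
    ext a; simp [vert]

namespace Strictification
variable {G : PerfectComplex A} {j : J} {n m : ℕ} (x : Strictification G j n m)

theorem hm : (dgC (A.chart j) m).HM (G.C.degBetween _ _) (G.C.degBetween _ _) 0 x.φ := fun s r =>
  (dgC (A.chart j) m).hg_cast (x.homogeneous s r) (by ring)

theorem ev1 : x.φ.map (dgC (A.chart j) m).ev = 1 := 
  DG.ev_one_of x.hm fun s r p => by convert x.one s r p

theorem sd_res : (dgC (A.chart j) m).sd (G.blockMatrix (x.c 0) x.le m) x.φ = x.d ∧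
    (dgC (A.chart j) m).res (G.blockMatrix (x.c 0) x.le m) x.φ = 0 :=
  DG.sd_eq x.ev1 (Matrix.ext fun s r => x.strict s r)

end Strictification

/-- The chain of a strictification. -/
def PerfectComplex.toCh (G : PerfectComplex A) : G.strictificationSpace.Hom (chB J) where
  app x := ⟨x.c, x.le⟩
  nat _ _ _ _ := rfl

theorem Cells.range_sub {C : Cells J} {i i' j' j : J} (h : i ≤ i') (h' : j' ≤ j) (s : C.CellsBetween i j) :
    s ∈ Set.range (Cells.blockIncl (C := C) h h') ↔ C.birth s.1 ≤ j' ∧ ¬ C.birth s.1 ≤ i' :=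
  ⟨fun ⟨r, e⟩ => e ▸ r.2, fun p => ⟨⟨s.1, p⟩, rfl⟩⟩

/-- A strictification from its matrix. -/
theorem PerfectComplex.cx_blk (G : PerfectComplex A) {j : J} (sat : (A.chart j).IsSaturated) {n M : ℕ} (c : Fin (n + 1) →o J)
    (le : c (Fin.last n) ≤ j)
    {φ : Matrix (G.C.CellsBetween (c 0) (c (Fin.last n))) (G.C.CellsBetween (c 0) (c (Fin.last n)))
      (MooreDGA ((A.chart j).cotensor M))} (hm : (dgC (A.chart j) M).HM (G.C.degBetween _ _) (G.C.degBetween _ _) 0 φ)
    (ev1 : φ.map (dgC (A.chart j) M).ev = 1)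
    (triangular : ∀ a s r, G.C.birth s.1 ≤ c a → ¬ G.C.birth r.1 ≤ c a → φ s r = 0)
    (st : (dgC (A.chart j) M).res (G.blockMatrix (c 0) le M) φ = 0) (a a' : Fin (n + 1)) :
    IsExactComplex (G.C.degBetween (c a) (c a')) (((dgC (A.chart j) M).sd (G.blockMatrix (c 0) le M) φ).submatrix
      (Cells.blockIncl (c.monotone (Fin.zero_le a)) (c.monotone (Fin.le_last a')))
      (Cells.blockIncl (c.monotone (Fin.zero_le a)) (c.monotone (Fin.le_last a')))) := by
  have inj := Cells.sub_injective (C := G.C) (c.monotone (Fin.zero_le a))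
    (c.monotone (Fin.le_last a'))
  have l : c a' ≤ j := (c.monotone (Fin.le_last a')).trans le
  obtain ⟨e₁, e₂⟩ := DG.res_sub (Γ := dgC (A.chart j) M) inj (δ := G.blockMatrix (c 0) le M) (φ := φ)
    (fun w x w' hx => by
      rw [Cells.range_sub, not_and_or, not_not] at hx
      rcases hx with p | p
      · exact .inl (triangular a' _ _ w.2.1 p)
      · exact .inr (G.tri_blk _ _ _ _ _ fun k => w'.2.2 (le_trans k p)))
    (fun w x w' hx => by
      rw [Cells.range_sub, not_and_or, not_not] at hx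
      rcases hx with p | p
      · exact .inl (DG.sd_tri (fun s : G.C.CellsBetween (c 0) (c (Fin.last n)) => G.C.birth s.1 ≤ c a')
          (fun s r p q => G.tri_blk _ _ _ _ _ fun k => q (le_trans k p)) (triangular a') _ _ w.2.1 p)
      · exact .inr (triangular a _ _ p w'.2.2))
  rw [st] at e₂
  rw [← e₁]
  refine DG.cx_of_strict (dgC (A.chart j) M) (sat.dgC M) (G.hm_blk (c a) l M) (G.mc_blk (c a) l M)
    (fun s r => hm (Cells.blockIncl _ _ s) (Cells.blockIncl _ _ r)) ?_ (DG.strict_of_res e₂) ?_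
  · refine Eq.trans ?_ (Matrix.submatrix_one _ inj)
    rw [← ev1]; rfl
  · rcases le_total a a' with p | p
    · exact G.ex_blk (c.monotone p) l M
    · exact ⟨0, fun _ _ k => absurd rfl k, fun s => absurd (s.2.1.trans (c.monotone p)) s.2.2⟩

theorem PerfectComplex.toCh_ext (G : PerfectComplex A) (sat : ∀ j, (A.chart j).IsSaturated) : G.toCh.Ext := by
  rintro j n M ⟨c, le⟩ x hx nat
  have h₁ : ∀ k θ, ∃ φ d homogeneous one triangular strict exact,
      x k θ = ⟨c, le, φ, d, homogeneous, one, triangular, strict, exact⟩ := by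
    intro k θ
    have e := congrArg Chn.c (hx k θ)
    rcases hxe : x k θ with ⟨c', le', φ, d, homogeneous, one, triangular, strict, exact⟩
    rw [hxe] at e
    obtain rfl : c' = c := e
    exact ⟨φ, d, homogeneous, one, triangular, strict, exact, rfl⟩
  choose φ d homogeneous one triangular strict exact hxe using h₁
  have sr := fun k θ => Strictification.sd_res ⟨c, le, φ k θ, d k θ, homogeneous k θ, one k θ, triangular k θ, strict k θ,
    exact k θ⟩
  obtain ⟨φ', hm', ev', triangular', st', rs'⟩ := str_extend (sat j) (dg := G.C.degBetween _ _)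
    (b := fun s : G.C.CellsBetween (c 0) (c (Fin.last n)) => G.C.birth s.1) c (fun w => w.2.1)
    (G.hm_blk (c 0) le M) (G.mc_blk (c 0) le M) (G.tri_blk (c 0) le M)
    (fun a => (ex0_sub_iff (Cells.sub_injective le_rfl (c.monotone (Fin.le_last a))) fun s => by
        rw [Cells.range_sub]; exact ⟨fun p => ⟨p, s.2.2⟩, fun p => p.1⟩).1
      (G.ex_blk (c.monotone (Fin.zero_le a)) ((c.monotone (Fin.le_last a)).trans le) M))
    φ (fun k θ => Strictification.hm ⟨c, le, φ k θ, d k θ, homogeneous k θ, one k θ, triangular k θ, strict k θ, exact k θ⟩)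
    (fun k θ => Strictification.ev1 ⟨c, le, φ k θ, d k θ, homogeneous k θ, one k θ, triangular k θ, strict k θ, exact k θ⟩)
    (fun k θ a w w' p q => (triangular k θ a w w' p q).1)
    (fun k θ => by rw [G.blk_rs]; exact (sr k θ).2)
    (fun {l k} θ η => by
      have e := nat θ η
      rw [hxe, hxe] at e
      have e' := eq_of_heq (Strictification.mk.inj e).2.1
      unfold Strictification.mapBasis MooreDGA.pushSub MooreDGA.push at e'
      rw [RingDiagram.rs_refl] at e'
      exact e')
  refine ⟨⟨c, le, φ', (dgC (A.chart j) M).sd (G.blockMatrix (c 0) le M) φ',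
    fun s r => (dgC (A.chart j) M).hg_cast (hm' s r) (by ring),
    fun s r p => by convert DG.one_of_ev hm' ev' s r p,
    fun a s r p q => ⟨triangular' a s r p q, DG.sd_tri
      (fun s : G.C.CellsBetween (c 0) (c (Fin.last n)) => G.C.birth s.1 ≤ c a)
      (fun s r p q => G.tri_blk _ _ _ _ _ fun k => q (le_trans k p)) (triangular' a) _ _ p q⟩,
    fun s r => congrFun (congrFun (DG.strict_of_res st') s) r,
    G.cx_blk (sat j) c le hm' ev' triangular' st'⟩, rfl, fun k θ => ?_⟩
  rw [hxe]
  change Strictification.map _ _ _ _ = _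
  unfold Strictification.map Strictification.mapBasis Strictification.mapDiff MooreDGA.pushSub
    MooreDGA.push
  congr 1
  · rw [RingDiagram.rs_refl]; exact rs' k θ
  · have e := (SimplicialRing.isHom_rs (A.chart j) θ.1).sd (G.blockMatrix (c 0) le M) φ'
    rw [G.blk_rs, rs' k θ, (sr k θ).1] at e
    rw [RingDiagram.tr_refl]; exact e.symm

end Pool.Agent.P.MP_932208_ag
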