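import Pool.Agent.P.MP_932208_ag.XW

/-!
Objects on the vertices of a chain and morphisms between them.
-/

namespace Pool.Agent.P.MP_932208_ag

open Classical

universe u

variable {J : Type u} [Preorder J] {A B : RingDiagram J} {f : A.Hom B} {G : PerfectComplex A} {F : PerfectComplex B}

theorem Strictification.le' {j : J} {n m : ℕ} (x : Strictification G j n m) (a : Fin (n + 1)) : x.c a ≤ j :=
  (x.c.monotone (Fin.le_last _)).trans x.le

theorem low_mul {C C' : Cells J} {i i' : J} (h : i ≤ i') {R : Type u} [Ring R]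
    {M : Matrix (UC C C' i') (UC C C' i') R} (M' : Matrix (UC C C' i') (UC C C' i') R)
    (hM : ∀ w w', cb (C.bA i') (C'.bA i') w ≤ i → ¬ cb (C.bA i') (C'.bA i') w' ≤ i → M w w' = 0) :
    (M * M').submatrix (uinc C C' h) (uinc C C' h) =
      M.submatrix (uinc C C' h) (uinc C C' h) * M'.submatrix (uinc C C' h) (uinc C C' h) :=
  sub_mul (cvx_uinc C C' h).1 M M' _ _ fun x w y hw => by
    rw [range_uinc] at hw
    rw [hM _ _ (by rw [cb_uinc]; exact cb_le C C' i x) hw, zero_mul]

theorem low_one {C C' : Cells J} {i i' : J} (h : i ≤ i') {R : Type u} [Ring R] :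
    (1 : Matrix (UC C C' i') (UC C C' i') R).submatrix (uinc C C' h) (uinc C C' h) = 1 :=
  Matrix.submatrix_one _ (cvx_uinc C C' h).1

theorem low_low {C C' : Cells J} {i i' i'' : J} (h : i ≤ i') (h' : i' ≤ i'') {R : Type u}
    (M : Matrix (UC C C' i'') (UC C C' i'') R) :
    (M.submatrix (uinc C C' h') (uinc C C' h')).submatrix (uinc C C' h) (uinc C C' h) =
      M.submatrix (uinc C C' (h.trans h')) (uinc C C' (h.trans h')) := by
  rw [Matrix.submatrix_submatrix, uinc_uinc]

theorem low_refl {C C' : Cells J} (i : J) {R : Type u} (M : Matrix (UC C C' i) (UC C C' i) R) :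
    M.submatrix (uinc C C' (le_refl i)) (uinc C C' (le_refl i)) = M := by
  rw [uinc_refl]; rfl

theorem tri_low {U R : Type u} [Zero R] {b : U → J} {M : Matrix U U R}
    (h : ∀ w w', ¬ b w' ≤ b w → M w w' = 0) (i : J) (w w' : U) (p : b w ≤ i) (q : ¬ b w' ≤ i) :
    M w w' = 0 := h w w' fun k => q (k.trans p)

/-- A strictification, a chain of generators and objects on the vertices. -/
@[ext] structure Ob (ψ : PushforwardModel f G F) (j : J) (n m : ℕ) where
  y : Strictification G j n m × GeneratorChain f j n m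
  o : ∀ a, OD (G.C.CellsOn (y.1.c a)) (F.C.CellsOn (y.1.c a)) (MooreDGA ((A.chart j).cotensor m))
  go : ∀ a, ψ.Good (y.1.le' a) m (y.2.t a) (o a)

namespace Ob
variable {ψ : PushforwardModel f G F} (hf : IsVirtualCartierDivisor f) {i j : J} {k n k' m : ℕ}

/-- Restriction. -/
def map (h : i ≤ j) (θ : SimplexHom k n) (θ' : SimplexHom k' m) (x : Ob ψ i n m) : Ob ψ j k k' where
  y := (G.strictificationSpace.prod hf.generatorSpace).map h θ θ' x.y
  o a := (x.o (θ a)).map (MooreDGA.map (SimplicialRing.cotensorHom (A.res h) θ'))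
  go a := (x.go (θ a)).transition h θ'

theorem map_id (i : J) (n m : ℕ) (x : Ob ψ i n m) :
    map hf (le_refl i) OrderHom.id OrderHom.id x = x := by
  refine Ob.ext ((G.strictificationSpace.prod hf.generatorSpace).map_id _ _ _ _) (heq_of_eq (funext fun a => ?_))
  change (x.o a).map _ = _
  rw [RingDiagram.cotHom_id]; rfl

theorem map_comp {i j l : J} (h : i ≤ j) (h' : j ≤ l) {n₀ n₁ n₂ m₀ m₁ m₂ : ℕ}
    (θ : SimplexHom n₁ n₀) (η : SimplexHom n₂ n₁) (θ' : SimplexHom m₁ m₀) (η' : SimplexHom m₂ m₁) (x : Ob ψ i n₀ m₀) :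
    map hf h' η η' (map hf h θ θ' x) = map hf (h.trans h') (θ.comp η) (θ'.comp η') x := by
  refine Ob.ext ((G.strictificationSpace.prod hf.generatorSpace).map_comp _ _ _ _ _ _ _) (heq_of_eq (funext fun a => ?_))
  change ((x.o (θ (η a))).map _).map _ = (x.o (θ (η a))).map _
  rw [← RingDiagram.cotHom_comp A h h']; rfl

/-- The cone matrix on the vertex `a`. -/
noncomputable def matrix (x : Ob ψ j n m) (a : Fin (n + 1)) :
    Matrix (UC G.C F.C (x.y.1.c a)) (UC G.C F.C (x.y.1.c a)) (MooreDGA ((A.chart j).cotensor m)) :=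
  (x.o a).matrix (dgC (A.chart j) m) (onC G.δ (x.y.1.le' a) m) (x.y.2.t a)

theorem mat_map (h : i ≤ j) (θ : SimplexHom k n) (θ' : SimplexHom k' m) (x : Ob ψ i n m) (a : Fin (k + 1)) :
    (map hf h θ θ' x).matrix a = (x.matrix (θ a)).map (MooreDGA.map (SimplicialRing.cotensorHom (A.res h) θ')) := by
  have e := OD.mat_map (SimplicialRing.isHom_cot (A.res h) θ') (x.o (θ a)) (onC G.δ (x.y.1.le' (θ a)) m)
    (x.y.2.t (θ a))
  rw [onC_map] at e
  exact e

theorem mat_low (x : Ob ψ j n m) {a b : Fin (n + 1)} (h : a ≤ b) :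
    ((x.o b).sub (G.C.inc (x.y.1.c.monotone h)) (F.C.inc (x.y.1.c.monotone h))).matrix
      (dgC (A.chart j) m) (onC G.δ (x.y.1.le' a) m) (x.y.2.t b) =
    (x.matrix b).submatrix (uinc G.C F.C (x.y.1.c.monotone h)) (uinc G.C F.C (x.y.1.c.monotone h)) :=
  OD.mat_sub (Γ := dgC (A.chart j) m) (x.o b) (onC G.δ (x.y.1.le' b) m) (x.y.2.t b) _
    (F.C.inc_injective _)

end Ob

variable (ψ : PushforwardModel f G F) (hf : IsVirtualCartierDivisor f)

/-- The bisimplicial set of objects. -/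
@[reducible] def PushforwardModel.obB : BisimplicialDiagram J where
  obj := Ob ψ
  map := Ob.map hf
  map_id := Ob.map_id hf
  map_comp h h' _ _ _ _ _ _ := Ob.map_comp hf h h'

/-- Forget the objects. -/
def PushforwardModel.obP : (ψ.obB hf).Hom (G.strictificationSpace.prod hf.generatorSpace) where
  app x := x.y
  nat _ _ _ _ := rfl

instance OD.nonempty {S V R : Type u} [Zero R] : Nonempty (OD S V R) := ⟨⟨0, 0, 0, 0⟩⟩

/-- A chosen object. -/
noncomputable def PushforwardModel.obj {i j : J} (h : i ≤ j) (m : ℕ) (t : (A.chart j).obj m) :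
    OD (G.C.CellsOn i) (F.C.CellsOn i) (MooreDGA ((A.chart j).cotensor m)) := Classical.epsilon (ψ.Good h m t)

include hf in
theorem PushforwardModel.good_obj {i j : J} (h : i ≤ j) (m : ℕ) {t : (A.chart j).obj m} (ht : (f.app j).IsGenerator t) :
    ψ.Good h m t (ψ.obj h m t) := Classical.epsilon_spec (ψ.exists_good hf h m ht)

theorem OD.map_refl (A : RingDiagram J) (j : J) (m : ℕ) {S V : Type u} (o : OD S V (MooreDGA ((A.chart j).cotensor m))) :
    o.map (MooreDGA.map (SimplicialRing.cotensorHom (A.res (le_refl j)) OrderHom.id)) = o := by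
  rw [RingDiagram.cotHom_id]; rfl

theorem PushforwardModel.obP_we : (ψ.obP hf).IsWeakEquiv := by
  refine BisimplicialDiagram.Hom.we_of_lab _
    (fun {j n m} y => ⟨y, fun a => ψ.obj (y.1.le' a) m (y.2.t a),
      fun a => ψ.good_obj hf _ m (y.2.gen a)⟩)
    (fun {j n m} x χ => ⟨x.y, fun a => if χ a = 0 then x.o a else ψ.obj (x.y.1.le' a) m (x.y.2.t a),
      fun a => by
        split_ifs
        exacts [x.go a, ψ.good_obj hf _ m (x.y.2.gen a)]⟩)
    (fun _ _ _ _ => rfl) (fun _ _ _ _ _ => rfl) ?_ ?_ ?_ ?_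
  · intro j k n m θ y
    refine Ob.ext rfl (heq_of_eq (funext fun a => ?_))
    change OD.map _ _ = ψ.obj _ m (A.transition le_rfl OrderHom.id (y.2.t (θ a)))
    rw [OD.map_refl, A.tr_id]
  · intro j k n m θ x χ
    refine Ob.ext rfl (heq_of_eq (funext fun a => ?_))
    change OD.map (if χ (θ a) = 0 then _ else _) _ = if χ (θ a) = 0 then OD.map _ _ else
      ψ.obj _ m (A.transition le_rfl OrderHom.id (x.y.2.t (θ a)))
    rw [OD.map_refl, OD.map_refl, A.tr_id]
  · intro j n m x
    exact Ob.ext rfl (heq_of_eq (funext fun a => by simp [vert]))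
  · intro j n m x
    exact Ob.ext rfl (heq_of_eq (funext fun a => by simp [vert]; rfl))

/-- Morphisms on the cells of the chart `i`. -/
abbrev PushforwardModel.GM (_ : PushforwardModel f G F) (i j : J) (m : ℕ)
    (Δ Δ' : Matrix (UC G.C F.C i) (UC G.C F.C i) (MooreDGA ((A.chart j).cotensor m))) (u : (A.chart j).obj m)
    (ρ : Matrix (UC G.C F.C i) (UC G.C F.C i) (MooreDGA ((A.chart j).cotensor m))) : Prop :=
  GoodM (dgC (A.chart j) m) ((f.app j).nc m) (G.C.degOn i) (F.C.degOn i) (G.C.bA i) (F.C.bA i) Δ Δ' u ρ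

/-- Objects on the vertices and a functorial family of morphisms. -/
@[ext] structure Mor (j : J) (n m : ℕ) where
  x : Ob ψ j n m
  ρ : ∀ a b : Fin (n + 1), a ≤ b →
    Matrix (UC G.C F.C (x.y.1.c a)) (UC G.C F.C (x.y.1.c a)) (MooreDGA ((A.chart j).cotensor m))
  gm : ∀ a b (h : a ≤ b), ψ.GM _ j m (x.matrix a) ((x.matrix b).submatrix
    (uinc G.C F.C (x.y.1.c.monotone h)) (uinc G.C F.C (x.y.1.c.monotone h))) (x.y.2.u a b) (ρ a b h)
  one : ∀ a, ρ a a le_rfl = 1
  cmp : ∀ a b c (h : a ≤ b) (h' : b ≤ c), ρ a b h * (ρ b c h').submatrix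
    (uinc G.C F.C (x.y.1.c.monotone h)) (uinc G.C F.C (x.y.1.c.monotone h)) = ρ a c (h.trans h')

namespace Mor
variable {ψ} {i j : J} {k n k' m : ℕ}

theorem map_gm (h : i ≤ j) (θ : SimplexHom k n) (θ' : SimplexHom k' m) (z : Mor ψ i n m) (a b : Fin (k + 1))
    (p : a ≤ b) : ψ.GM _ j k' ((z.x.map hf h θ θ').matrix a) (((z.x.map hf h θ θ').matrix b).submatrix
      (uinc G.C F.C ((z.x.map hf h θ θ').y.1.c.monotone p))
      (uinc G.C F.C ((z.x.map hf h θ θ').y.1.c.monotone p))) ((z.x.map hf h θ θ').y.2.u a b)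
      ((z.ρ (θ a) (θ b) (θ.monotone p)).map (MooreDGA.map (SimplicialRing.cotensorHom (A.res h) θ'))) := by
  rw [Ob.mat_map, Ob.mat_map]
  exact GoodM.map (f₂ := (f.app j).nc k') (SimplicialRing.isHom_cot (A.res h) θ') (PushforwardModel.nc_sq f h θ')
    (z.gm (θ a) (θ b) (θ.monotone p))

/-- Restriction. -/
def map (h : i ≤ j) (θ : SimplexHom k n) (θ' : SimplexHom k' m) (z : Mor ψ i n m) : Mor ψ j k k' where
  x := z.x.map hf h θ θ'
  ρ a b p := (z.ρ (θ a) (θ b) (θ.monotone p)).map (MooreDGA.map (SimplicialRing.cotensorHom (A.res h) θ'))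
  gm := map_gm hf h θ θ' z
  one a := by rw [z.one (θ a)]; exact Matrix.map_one _ (map_zero _) (map_one _)
  cmp a b c p q := by
    rw [← z.cmp (θ a) (θ b) (θ c) (θ.monotone p) (θ.monotone q), Matrix.map_mul]; rfl

theorem map_id (i : J) (n m : ℕ) (z : Mor ψ i n m) :
    map hf (le_refl i) OrderHom.id OrderHom.id z = z := by
  refine Mor.ext (Ob.map_id _ _ _ _ _) (heq_of_eq (funext fun a => funext fun b => funext fun p => ?_))
  change (z.ρ a b p).map _ = _
  rw [RingDiagram.cotHom_id]; rfl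

theorem map_comp {i j l : J} (h : i ≤ j) (h' : j ≤ l) {n₀ n₁ n₂ m₀ m₁ m₂ : ℕ}
    (θ : SimplexHom n₁ n₀) (η : SimplexHom n₂ n₁) (θ' : SimplexHom m₁ m₀) (η' : SimplexHom m₂ m₁) (z : Mor ψ i n₀ m₀) :
    map hf h' η η' (map hf h θ θ' z) = map hf (h.trans h') (θ.comp η) (θ'.comp η') z := by
  refine Mor.ext (Ob.map_comp _ _ _ _ _ _ _ _)
    (heq_of_eq (funext fun a => funext fun b => funext fun p => ?_))
  change ((z.ρ (θ (η a)) (θ (η b)) _).map _).map _ = (z.ρ (θ (η a)) (θ (η b)) _).map _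
  rw [← RingDiagram.cotHom_comp A h h']; rfl

end Mor

/-- The bisimplicial set of objects and morphisms. -/
@[reducible] def PushforwardModel.moB : BisimplicialDiagram J where
  obj := Mor ψ
  map := Mor.map hf
  map_id := Mor.map_id hf
  map_comp h h' _ _ _ _ _ _ := Mor.map_comp hf h h'

/-- Forget the morphisms. -/
def PushforwardModel.moP : (ψ.moB hf).Hom (ψ.obB hf) where
  app z := z.x
  nat _ _ _ _ := rfl

theorem PushforwardModel.moP_ext : (ψ.moP hf).Ext := by
  intro j n M y x hx nat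
  have h₁ : ∀ k θ, ∃ (ρ : ∀ a b : Fin (n + 1), a ≤ b →
      Matrix (UC G.C F.C (y.y.1.c a)) (UC G.C F.C (y.y.1.c a)) (MooreDGA ((A.chart j).cotensor k))), ∃ gm one cmp,
      x k θ = ⟨y.map hf le_rfl OrderHom.id θ.1, ρ, gm, one, cmp⟩ := by
    intro k θ
    have e := hx k θ
    rcases hxe : x k θ with ⟨x', ρ, gm, one, cmp⟩
    rw [hxe] at e
    obtain rfl : x' = y.map hf le_rfl OrderHom.id θ.1 := e
    exact ⟨ρ, gm, one, cmp, rfl⟩
  choose ρ gm one cmp hxe using h₁
  have triangular : ∀ k θ a b (p : a ≤ b) w w', ¬ cb (G.C.bA _) (F.C.bA _) w' ≤ cb (G.C.bA _) (F.C.bA _) w →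
      ρ k θ a b p w w' = 0 := fun k θ a b p => (gm k θ a b p).triangular
  have cmp' : ∀ k θ a b c (h : a ≤ b) (h' : b ≤ c), ρ k θ a b h * (ρ k θ b c h').submatrix
      (uinc G.C F.C (y.y.1.c.monotone h)) (uinc G.C F.C (y.y.1.c.monotone h)) =
      ρ k θ a c (h.trans h') := cmp
  have h₂ : ∀ a, ∃ r, ψ.GM _ j M (y.matrix a) ((y.matrix (Fin.last n)).submatrix
      (uinc G.C F.C (y.y.1.c.monotone (Fin.le_last a)))
      (uinc G.C F.C (y.y.1.c.monotone (Fin.le_last a)))) (y.y.2.u a (Fin.last n)) r ∧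
      ∀ k (θ : Bdy k M), r.map ((A.chart j).rs θ.1) = ρ k θ a (Fin.last n) (Fin.le_last a) := by
    intro a
    rw [← y.mat_low (Fin.le_last a)]
    refine mor_extend (y.y.2.gen (Fin.last n)) (y.y.2.relation a (Fin.last n)) (y.go a)
      ((y.go (Fin.last n)).low (y.y.1.c.monotone (Fin.le_last a)))
      (fun k θ => ρ k θ a (Fin.last n) (Fin.le_last a)) (fun k θ => ?_) (fun {l k} θ η => ?_)
    · have e := gm k θ a (Fin.last n) (Fin.le_last a)
      rw [Ob.mat_map, Ob.mat_map, RingDiagram.rs_refl] at e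
      have e₁ := y.mat_low (Fin.le_last a)
      have e₂ := A.tr_refl j θ.1
      rw [e₁, ← e₂]
      exact e
    · have e := nat θ η
      rw [hxe, hxe] at e
      have e' := congrFun (congrFun (congrFun (eq_of_heq (Mor.mk.inj e).2) a) (Fin.last n))
        (Fin.le_last a)
      rw [RingDiagram.rs_refl] at e'
      exact e'
  choose r gr rs using h₂
  choose r' gr' i₁ i₂ using fun a => (gr a).inv
  refine ⟨⟨y, fun a b p => r a * (r' b).submatrix (uinc G.C F.C (y.y.1.c.monotone p))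
    (uinc G.C F.C (y.y.1.c.monotone p)), fun a b p => ?_, fun a => ?_, fun a b c p q => ?_⟩, rfl,
    fun k θ => ?_⟩
  · have e := (gr' b).sub (cvx_uinc G.C F.C (y.y.1.c.monotone p))
      (fun w w' hw => by exact (y.go (Fin.last n)).triangular _ _ (by rwa [cb_uinc, cb_uinc]))
      (by exact (y.go b).triangular)
    rw [low_low] at e
    have e' := (gr a).mul e
    rwa [← Units.val_mul, ← y.y.2.cocycle a b (Fin.last n), mul_inv_cancel_right] at e'
  · rw [low_refl, i₁]
  · rw [low_mul _ _ (tri_low (gr b).triangular _), low_low, ← Matrix.mul_assoc, Matrix.mul_assoc (r a),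
      ← low_mul _ _ (tri_low (gr' b).triangular _), i₂, low_one, Matrix.mul_one]
  · rw [hxe]
    refine Mor.ext rfl (heq_of_eq (funext fun a => funext fun b => funext fun p => ?_))
    change Matrix.map (r a * (r' b).submatrix (uinc G.C F.C (y.y.1.c.monotone p))
      (uinc G.C F.C (y.y.1.c.monotone p))) _ = ρ k θ a b p
    have e : ρ k θ b (Fin.last n) (Fin.le_last b) * (r' b).map ((A.chart j).rs θ.1) = 1 := by
      rw [← rs b k θ, ← Matrix.map_mul, i₁]; exact Matrix.map_one _ (map_zero _) (map_one _)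
    have e' := low_mul (y.y.1.c.monotone p) ((r' b).map ((A.chart j).rs θ.1))
      (tri_low (triangular k θ b (Fin.last n) (Fin.le_last b)) _)
    rw [e, low_one] at e'
    rw [RingDiagram.rs_refl, Matrix.map_mul, rs a k θ, ← cmp' k θ a b (Fin.last n) p (Fin.le_last b),
      Matrix.mul_assoc]
    exact (congrArg (ρ k θ a b p * ·) e'.symm).trans (Matrix.mul_one _)

end Pool.Agent.P.MP_932208_ag
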