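import Pool.Agent.P.MP_932208_ag.XT

/-!
Compatible strictifications of the cones.
-/

namespace Pool.Agent.P.MP_932208_ag

open Classical

universe u

variable {J : Type u} [Preorder J] {A B : RingDiagram J} {f : A.Hom B} {G : PerfectComplex A} {F : PerfectComplex B}

theorem DG.IsHom.map_inc_ev {R R₂ K K₂ U W : Type u} [Ring R] [Ring R₂] [CommRing K] [CommRing K₂]
    {Γ : DG R K} {Γ₂ : DG R₂ K₂} {g : R →+* R₂} {g₀ : K →+* K₂} (homogeneous : Γ.IsHom Γ₂ g g₀)
    (ρ : Matrix U W R) : ((ρ.map Γ.ev).map Γ.inc).map g = ((ρ.map g).map Γ₂.ev).map Γ₂.inc := by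
  ext s r : 1
  simp only [Matrix.map_apply, homogeneous.inc, homogeneous.ev]

theorem res_low {C C' : Cells J} {i i' : J} (h : i ≤ i') {R K : Type u} [Ring R] [CommRing K]
    {Γ : DG R K} {Δ φ : Matrix (UC C C' i') (UC C C' i') R}
    (hΔ : ∀ w w', cb (C.bA i') (C'.bA i') w ≤ i → ¬ cb (C.bA i') (C'.bA i') w' ≤ i → Δ w w' = 0)
    (hφ : ∀ w w', cb (C.bA i') (C'.bA i') w ≤ i → ¬ cb (C.bA i') (C'.bA i') w' ≤ i → φ w w' = 0)
    (st : Γ.res Δ φ = 0) : Γ.res (Δ.submatrix (uinc C C' h) (uinc C C' h))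
      (φ.submatrix (uinc C C' h) (uinc C C' h)) = 0 := by
  have p : ∀ w, cb (C.bA i') (C'.bA i') (uinc C C' h w) ≤ i := fun w => by
    rw [cb_uinc]; exact cb_le C C' i w
  rw [(DG.res_sub (Γ := Γ) (cvx_uinc C C' h).1 (δ := Δ) (φ := φ)
    (fun w x w' hx => .inl (hφ _ _ (p w) (by rwa [range_uinc] at hx)))
    (fun w x w' hx => .inl (DG.sd_tri (fun w => cb (C.bA i') (C'.bA i') w ≤ i) hΔ hφ _ _ (p w)
      (by rwa [range_uinc] at hx)))).2, st]
  rfl

variable (ψ : PushforwardModel f G F) (hf : IsVirtualCartierDivisor f)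

/-- Objects, morphisms and compatible strictifications of the cones. -/
@[ext] structure Fu (j : J) (n m : ℕ) where
  z : Mor ψ j n m
  φ : ∀ a, Matrix (UC G.C F.C (z.x.y.1.c a)) (UC G.C F.C (z.x.y.1.c a)) (MooreDGA ((A.chart j).cotensor m))
  shuffle : ∀ a, Shp (dgC (A.chart j) m) (G.C.degOn _) (F.C.degOn _) (G.C.bA _) (F.C.bA _) z.x.y.1.c
    (z.x.y.1.c 0) (φ a)
  st : ∀ a, (dgC (A.chart j) m).res (z.x.matrix a) (φ a) = 0
  gg : ∀ a (s s' : G.C.CellsBetween (z.x.y.1.c 0) (z.x.y.1.c a)),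
    φ a (.inl (G.C.incB _ le_rfl s)) (.inl (G.C.incB _ le_rfl s')) =
      MooreDGA.sign (z.x.y.1.φ (Cells.blockIncl le_rfl (z.x.y.1.c.monotone (Fin.le_last a)) s)
        (Cells.blockIncl le_rfl (z.x.y.1.c.monotone (Fin.le_last a)) s'))
  cm : ∀ a b (h : a ≤ b), φ a * z.ρ a b h =
    ((z.ρ a b h).map (dgC (A.chart j) m).ev).map (dgC (A.chart j) m).inc * (φ b).submatrix
      (uinc G.C F.C (z.x.y.1.c.monotone h)) (uinc G.C F.C (z.x.y.1.c.monotone h))

namespace Fu
variable {ψ} {i j : J} {k n k' m : ℕ}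

theorem map_st (h : i ≤ j) (θ : SimplexHom k n) (θ' : SimplexHom k' m) (x : Fu ψ i n m) (a : Fin (k + 1)) :
    (dgC (A.chart j) k').res ((x.z.x.map hf h θ θ').matrix a)
      ((x.φ (θ a)).map (MooreDGA.map (SimplicialRing.cotensorHom (A.res h) θ'))) = 0 := by
  have e := (SimplicialRing.isHom_cot (A.res h) θ').res (x.z.x.matrix (θ a)) (x.φ (θ a))
  rw [x.st, Matrix.map_zero _ (map_zero _)] at e
  rw [Ob.mat_map]
  exact e

theorem map_cm (h : i ≤ j) (θ : SimplexHom k n) (θ' : SimplexHom k' m) (x : Fu ψ i n m) (a b : Fin (k + 1))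
    (p : a ≤ b) : (x.φ (θ a)).map (MooreDGA.map (SimplicialRing.cotensorHom (A.res h) θ')) *
      (x.z.ρ (θ a) (θ b) (θ.monotone p)).map (MooreDGA.map (SimplicialRing.cotensorHom (A.res h) θ')) =
    (((x.z.ρ (θ a) (θ b) (θ.monotone p)).map (MooreDGA.map (SimplicialRing.cotensorHom (A.res h) θ'))).map
      (dgC (A.chart j) k').ev).map (dgC (A.chart j) k').inc *
      ((x.φ (θ b)).map (MooreDGA.map (SimplicialRing.cotensorHom (A.res h) θ'))).submatrix
      (uinc G.C F.C (x.z.x.y.1.c.monotone (θ.monotone p)))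
      (uinc G.C F.C (x.z.x.y.1.c.monotone (θ.monotone p))) := by
  rw [← Matrix.map_mul, x.cm, Matrix.map_mul, (SimplicialRing.isHom_cot (A.res h) θ').map_inc_ev]; rfl

/-- Restriction. -/
def map (h : i ≤ j) (θ : SimplexHom k n) (θ' : SimplexHom k' m) (x : Fu ψ i n m) : Fu ψ j k k' where
  z := x.z.map hf h θ θ'
  φ a := (x.φ (θ a)).map (MooreDGA.map (SimplicialRing.cotensorHom (A.res h) θ'))
  shuffle a := ((x.shuffle (θ a)).mono θ (x.z.x.y.1.c.monotone (Fin.zero_le (θ 0)))).map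
    (SimplicialRing.isHom_cot (A.res h) θ')
  st := map_st hf h θ θ' x
  gg a s s' := (congrArg (MooreDGA.map (SimplicialRing.cotensorHom (A.res h) θ')) (x.gg (θ a)
    (Cells.blockIncl (x.z.x.y.1.c.monotone (Fin.zero_le (θ 0))) le_rfl s)
    (Cells.blockIncl (x.z.x.y.1.c.monotone (Fin.zero_le (θ 0))) le_rfl s'))).trans (MooreDGA.map_sg _ _)
  cm := map_cm h θ θ' x

theorem map_id (i : J) (n m : ℕ) (x : Fu ψ i n m) :
    map hf (le_refl i) OrderHom.id OrderHom.id x = x := by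
  refine Fu.ext (Mor.map_id _ _ _ _ _) (heq_of_eq (funext fun a => ?_))
  change (x.φ a).map _ = _
  rw [RingDiagram.cotHom_id]; rfl

theorem map_comp {i j l : J} (h : i ≤ j) (h' : j ≤ l) {n₀ n₁ n₂ m₀ m₁ m₂ : ℕ}
    (θ : SimplexHom n₁ n₀) (η : SimplexHom n₂ n₁) (θ' : SimplexHom m₁ m₀) (η' : SimplexHom m₂ m₁) (x : Fu ψ i n₀ m₀) :
    map hf h' η η' (map hf h θ θ' x) = map hf (h.trans h') (θ.comp η) (θ'.comp η') x := by
  refine Fu.ext (Mor.map_comp _ _ _ _ _ _ _ _) (heq_of_eq (funext fun a => ?_))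
  change ((x.φ (θ (η a))).map _).map _ = (x.φ (θ (η a))).map _
  rw [← RingDiagram.cotHom_comp A h h']; rfl

end Fu

/-- The bisimplicial set that maps to both sides. -/
@[reducible] def PushforwardModel.fuB : BisimplicialDiagram J where
  obj := Fu ψ
  map := Fu.map hf
  map_id := Fu.map_id hf
  map_comp h h' _ _ _ _ _ _ := Fu.map_comp hf h h'

/-- Forget the strictifications of the cones. -/
def PushforwardModel.fuP : (ψ.fuB hf).Hom (ψ.moB hf) where
  app x := x.z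
  nat _ _ _ _ := rfl

theorem PushforwardModel.fuP_ext : (ψ.fuP hf).Ext := by
  intro j n M y x hx nat
  have h₁ : ∀ k θ, ∃ (φ : ∀ a : Fin (n + 1), Matrix (UC G.C F.C (y.x.y.1.c a))
      (UC G.C F.C (y.x.y.1.c a)) (MooreDGA ((A.chart j).cotensor k))), ∃ shuffle st gg cm,
      x k θ = ⟨y.map hf le_rfl OrderHom.id θ.1, φ, shuffle, st, gg, cm⟩ := by
    intro k θ
    have e := hx k θ
    rcases hxe : x k θ with ⟨x', φ, shuffle, st, gg, cm⟩
    rw [hxe] at e
    obtain rfl : x' = y.map hf le_rfl OrderHom.id θ.1 := e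
    exact ⟨φ, shuffle, st, gg, cm, rfl⟩
  choose φ shuffle st gg cm hxe using h₁
  have l : ∀ a, y.x.y.1.c a ≤ y.x.y.1.c (Fin.last n) := fun a => y.x.y.1.c.monotone (Fin.le_last a)
  have l₀ : ∀ a, y.x.y.1.c 0 ≤ y.x.y.1.c a := fun a => y.x.y.1.c.monotone (Fin.zero_le a)
  obtain ⟨φ', shuffle', st', gg', rs'⟩ := phi_extend (hf.sat j) y.x.y.1.c (cb_le G.C F.C _)
    (y.x.go (Fin.last n)) ((y.x.go (Fin.last n)).ex_low hf (y.x.y.2.gen _) (l₀ _))
    (fun a => (y.x.go (Fin.last n)).ex_kz hf (y.x.y.2.gen _) (l₀ a) (l a))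
    (G.C.incB_injective (y.x.y.1.c 0) le_rfl)
    (fun s => by rw [Cells.range_incB]; exact ⟨fun p => p.2, fun p => ⟨s.2, p⟩⟩)
    y.x.y.1.hm y.x.y.1.ev1 (fun a s s' p q => (y.x.y.1.triangular a s s' p q).1) y.x.y.1.sd_res.2
    (fun k θ => φ k θ (Fin.last n)) (fun k θ => shuffle k θ (Fin.last n))
    (fun k θ => by
      have e := st k θ (Fin.last n)
      have e' := Ob.mat_map hf le_rfl OrderHom.id θ.1 y.x (Fin.last n)
      rw [RingDiagram.rs_refl] at e'
      exact (congrArg (fun D => (dgC (A.chart j) k).res D (φ k θ (Fin.last n))) e').symm.trans e)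
    (fun k θ s s' => by
      have e := gg k θ (Fin.last n) s s'
      rw [← RingDiagram.rs_refl]
      exact e)
    (fun {l k} θ η => by
      have e := nat θ η
      rw [hxe, hxe] at e
      have e' := congrFun (eq_of_heq (Fu.mk.inj e).2) (Fin.last n)
      rw [RingDiagram.rs_refl] at e'
      exact e')
  choose r' gr' i₁ i₂ using fun a => (y.gm a (Fin.last n) (Fin.le_last a)).inv
  have cj := fun a => Shp.conj (y.gm a (Fin.last n) (Fin.le_last a)) (gr' a) (Units.mul_inv _)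
    (i₁ a) (i₂ a) (shuffle'.sub (G.C.inc_injective (l a)) (F.C.inc_injective (l a)))
    (res_low (l a) (tri_low (y.x.go (Fin.last n)).triangular _) (shuffle'.triangular a) st')
  refine ⟨⟨y, fun a => ((y.ρ a (Fin.last n) (Fin.le_last a)).map (dgC (A.chart j) M).ev).map
      (dgC (A.chart j) M).inc * φ'.submatrix (uinc G.C F.C (l a)) (uinc G.C F.C (l a)) * r' a,
    fun a => (cj a).1, fun a => (cj a).2.1, fun a s s' => ?_, fun a b p => ?_⟩, rfl, fun k θ => ?_⟩
  · exact ((cj a).2.2 _ _ s'.2.2).trans (gg' (Cells.blockIncl le_rfl (l a) s) (Cells.blockIncl le_rfl (l a) s'))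
  · have q := y.x.y.1.c.monotone p
    have tb := (y.gm b (Fin.last n) (Fin.le_last b)).triangular
    have e₁ : r' a * y.ρ a b p = (r' b).submatrix (uinc G.C F.C q) (uinc G.C F.C q) := by
      have e := low_mul q (r' b) (tri_low tb _)
      rw [i₁, low_one] at e
      rw [← Matrix.mul_one (r' a * y.ρ a b p), e, ← Matrix.mul_assoc, Matrix.mul_assoc (r' a),
        y.cmp a b (Fin.last n) p (Fin.le_last b), i₂, Matrix.one_mul]
    have t₁ : ∀ w w', cb (G.C.bA _) (F.C.bA _) w ≤ y.x.y.1.c a →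
        ¬ cb (G.C.bA _) (F.C.bA _) w' ≤ y.x.y.1.c a →
        (((y.ρ b (Fin.last n) (Fin.le_last b)).map (dgC (A.chart j) M).ev).map
          (dgC (A.chart j) M).inc) w w' = 0 := fun w w' h₁ h₂ => by
      simp only [Matrix.map_apply, tri_low tb _ w w' h₁ h₂, map_zero]
    have t₂ : ∀ w w', cb (G.C.bA _) (F.C.bA _) w ≤ y.x.y.1.c a →
        ¬ cb (G.C.bA _) (F.C.bA _) w' ≤ y.x.y.1.c a →
        φ'.submatrix (uinc G.C F.C (l b)) (uinc G.C F.C (l b)) w w' = 0 := fun w w' h₁ h₂ =>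
      shuffle'.triangular a _ _ (by rwa [cb_uinc]) (by rwa [cb_uinc])
    rw [Matrix.mul_assoc _ (r' a), e₁, Matrix.mul_assoc (Matrix.map _ _) _ (r' b), low_mul q _ t₁,
      low_mul q _ t₂, low_low, ← y.cmp a b (Fin.last n) p (Fin.le_last b), Matrix.map_mul,
      Matrix.map_mul]
    simp only [Matrix.mul_assoc]
    rfl
  · rw [hxe]
    refine Fu.ext rfl (heq_of_eq (funext fun a => ?_))
    change Matrix.map (((y.ρ a (Fin.last n) (Fin.le_last a)).map (dgC (A.chart j) M).ev).map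
      (dgC (A.chart j) M).inc * φ'.submatrix (uinc G.C F.C (l a)) (uinc G.C F.C (l a)) * r' a) _ =
      φ k θ a
    have e : φ k θ a * (y.ρ a (Fin.last n) (Fin.le_last a)).map ((A.chart j).rs θ.1) =
        (((y.ρ a (Fin.last n) (Fin.le_last a)).map ((A.chart j).rs θ.1)).map
          (dgC (A.chart j) k).ev).map (dgC (A.chart j) k).inc * (φ k θ (Fin.last n)).submatrix
          (uinc G.C F.C (l a)) (uinc G.C F.C (l a)) := by
      rw [← RingDiagram.rs_refl]
      exact cm k θ a (Fin.last n) (Fin.le_last a)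
    rw [RingDiagram.rs_refl, Matrix.map_mul, Matrix.map_mul, (SimplicialRing.isHom_rs (A.chart j) θ.1).map_inc_ev,
      ← Matrix.submatrix_map, rs' k θ, ← e, Matrix.mul_assoc, ← Matrix.map_mul, i₁,
      Matrix.map_one _ (map_zero _) (map_one _), Matrix.mul_one]

/-- The map to the product of the two sides. -/
def PushforwardModel.toY : (ψ.fuB hf).Hom (G.strictificationSpace.prod hf.generatorSpace) :=
  (ψ.obP hf).comp ((ψ.moP hf).comp (ψ.fuP hf))

theorem PushforwardModel.toY_we : (ψ.toY hf).IsWeakEquiv :=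
  (ψ.obP_we hf).comp ((ψ.moP_ext hf).we.comp (ψ.fuP_ext hf).we)

theorem PushforwardModel.toZ_we : ((BisimplicialDiagram.fst _ _).comp (ψ.toY hf)).IsWeakEquiv :=
  (hf.fst_gen_we _).comp (ψ.toY_we hf)

theorem PushforwardModel.toT_we : ((BisimplicialDiagram.snd _ _).comp (ψ.toY hf)).IsWeakEquiv :=
  ((snd_ch_we hf.generatorSpace).comp ((G.toCh_ext hf.sat).prodR hf.generatorSpace).we).comp (ψ.toY_we hf)

end Pool.Agent.P.MP_932208_ag
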