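import Pool.Agent.P.MP_932208_ag.XS
import Pool.Agent.P.MP_932208_ag.Mor
import Pool.Agent.P.MP_932208_ag.Line

/-!
The nerve of the groupoid of generators is contractible on every chart.
-/

namespace Pool.Agent.P.MP_932208_ag

open Classical

universe u

variable {J : Type u} [Preorder J] {A B : RingDiagram J}

/-- Restriction to one chart. -/
@[reducible] def RingDiagram.at (A : RingDiagram J) (j : J) : RingDiagram PUnit.{u + 1} where
  chart _ := A.chart j
  res _ := A.res le_rfl
  res_id _ := A.res_id j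
  res_comp _ _ := A.res_comp le_rfl le_rfl

/-- Restriction to one chart. -/
@[reducible] def BisimplicialDiagram.at (X : BisimplicialDiagram J) (j : J) : BisimplicialDiagram PUnit.{u + 1} where
  obj _ := X.obj j
  map _ := X.map le_rfl
  map_id _ := X.map_id j
  map_comp _ _ := X.map_comp le_rfl le_rfl

/-- Restriction to one chart. -/
def BisimplicialDiagram.Hom.at {X Y : BisimplicialDiagram J} (p : X.Hom Y) (j : J) : (X.at j).Hom (Y.at j) where
  app x := p.app x
  nat _ := p.nat le_rfl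

/-- Restriction to one chart. -/
def Cocycle.at {X : BisimplicialDiagram J} (c : Cocycle A X) (j : J) : Cocycle (A.at j) (X.at j) where
  c x a := c.c x a
  c_zero x := c.c_zero x
  c_map _ := c.c_map le_rfl

theorem BisimplicialDiagram.Hom.we_of_at {X Y : BisimplicialDiagram J} (p : X.Hom Y) (h : ∀ j, (p.at j).IsWeakEquiv) : p.IsWeakEquiv :=
  fun A c j => h j (A.at j) (c.at j) ⟨⟩

theorem BisimplicialDiagram.Hom.ext_of_bij {X Y : BisimplicialDiagram J} (p : X.Hom Y)
    (h : ∀ j n m, Function.Bijective (p.app : X.obj j n m → Y.obj j n m)) : p.Ext := by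
  intro j n M y x hx _
  obtain ⟨z, rfl⟩ := (h j n M).2 y
  exact ⟨z, rfl, fun k θ => (h j n k).1 (by rw [p.nat, hx])⟩

/-- The point. -/
@[reducible] def ptB (J : Type u) [Preorder J] : BisimplicialDiagram J where
  obj _ _ _ := PUnit
  map _ _ _ _ := ⟨⟩
  map_id _ _ _ _ := rfl
  map_comp _ _ _ _ _ _ _ _ _ _ _ _ _ := rfl

/-- The trivial cocycle. -/
def Cocycle.triv (A : RingDiagram J) (X : BisimplicialDiagram J) : Cocycle A X where
  c _ _ := 1
  c_zero _ := rfl
  c_map _ _ _ _ _ := (mul_one _).symm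

namespace Cocycle
variable {X : BisimplicialDiagram J} (c c' : Cocycle A X) (μ : ∀ {j : J} {n m : ℕ}, X.obj j n m → (A.chart j).obj m)
  (hμ : ∀ {i j : J} {k n k' m : ℕ} (h : i ≤ j) (θ : SimplexHom k n) (θ' : SimplexHom k' m) (x : X.obj i n m),
      A.transition h θ' (c.c x (θ 0)) * μ (X.map h θ θ' x) = A.transition h θ' (μ x * c'.c x (θ 0)))

/-- Rescaling of the basis elements. -/
noncomputable def scal {T K : Type u} [CommRing K] (ν : T → K) : (T →₀ K) →ₗ[K] (T →₀ K) :=
  Finsupp.linearCombination K fun x => Finsupp.single x (ν x)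

theorem scal_single {T K : Type u} [CommRing K] (ν : T → K) (x : T) (a : K) :
    scal ν (Finsupp.single x a) = Finsupp.single x (a * ν x) := by
  simp [scal]

theorem scal_scal {T K : Type u} [CommRing K] {ν ν' : T → K} (h : ∀ x, ν x * ν' x = 1)
    (z : T →₀ K) : scal ν' (scal ν z) = z := by
  induction z using Finsupp.induction_linear with
  | zero => simp
  | add x y hx hy => simp only [map_add, hx, hy]
  | single x a => rw [scal_single, scal_single, mul_assoc, h, mul_one]

theorem scal_bij {T K : Type u} [CommRing K] {ν : T → K} (h : ∀ x, IsUnit (ν x)) :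
    Function.Bijective (scal ν) := by
  choose ν' h' using fun x => (h x).exists_right_inv
  exact Function.bijective_iff_has_inverse.2
    ⟨scal ν', scal_scal h', scal_scal fun x => by rw [mul_comm, h']⟩

include hμ in
theorem rescale_nat {i j : J} {k n : ℕ} (h : i ≤ j) (θ : SimplexHom k n)
    (z : X.obj i n n →₀ (A.chart i).obj n) :
    scal μ (c.twistedMap h θ θ z) = c'.twistedMap h θ θ (scal μ z) := by
  induction z using Finsupp.induction_linear with
  | zero => simp
  | add x y hx hy => simp only [map_add, hx, hy]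
  | single x a =>
    rw [tmap_single, scal_single, scal_single, tmap_single, map_mul, mul_assoc, hμ, ← map_mul,
      mul_assoc]

/-- The isomorphism given by a coboundary. -/
noncomputable def rescale : c.glue.Hom c'.glue where
  app _ _ := scal μ
  nat := rescale_nat c c' μ hμ

theorem rescale_we (hu : ∀ {j : J} {n m : ℕ} (x : X.obj j n m), IsUnit (μ x)) :
    (rescale c c' μ hμ).IsWeakEquiv := fun _ => SimplicialAb.Hom.we_of_bij _ fun _ => scal_bij hu

end Cocycle

/-- Tuples of units. -/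
@[reducible] def cechU (A : RingDiagram J) (j : J) : BisimplicialDiagram PUnit.{u + 1} where
  obj _ n m := Fin (n + 1) → ((A.chart j).obj m)ˣ
  map _ θ θ' v := fun a => Units.map (A.transition le_rfl θ').toMonoidHom (v (θ a))
  map_id _ _ _ _ := funext fun _ => Units.ext (A.tr_id _ _ _)
  map_comp _ _ _ _ _ _ _ _ _ _ _ _ _ := funext fun _ => Units.ext (A.tr_comp _ _ _ _ _)

theorem fst_cech_we (A : RingDiagram J) (j : J) (Z : BisimplicialDiagram PUnit.{u + 1}) :
    (BisimplicialDiagram.fst Z (cechU A j)).IsWeakEquiv := by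
  refine BisimplicialDiagram.Hom.we_of_lab _ (fun {j n m} y => (y, 1))
    (fun {j n m} x χ => (x.1, fun a => if χ a = 0 then x.2 a else 1)) (fun _ _ _ _ => rfl)
    (fun _ _ _ _ _ => rfl) ?_ ?_ ?_ ?_
  · intro _ k n m θ y
    exact Prod.ext rfl (funext fun a => map_one _)
  · intro _ k n m θ x χ
    refine Prod.ext rfl (funext fun a => ?_)
    change Units.map _ (if χ (θ a) = 0 then _ else _) = if χ (θ a) = 0 then _ else _
    split_ifs
    exacts [rfl, map_one _]
  · intro _ n m x
    exact Prod.ext rfl (funext fun a => by simp [vert])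
  · intro _ n m x
    exact Prod.ext rfl (funext fun a => by simp [vert]; rfl)

theorem DG.ev_d_inc_mul {R K : Type u} [Ring R] [CommRing K] (Γ : DG R K) (a : K) (p : R) :
    Γ.ev (Γ.d (Γ.inc a * p)) = a * Γ.ev (Γ.d p) := by
  rw [Γ.d_mul, Γ.d_inc, Γ.e_inc, zero_mul, zero_add, map_mul, Γ.ev_inc]

variable {f : A.Hom B}

/-- Chains of generators with a path from the first one to a multiple of `t₀`. -/
@[ext] structure Pth (f : A.Hom B) (j : J) (t₀ : (A.chart j).obj 0) (n m : ℕ) where
  y : GeneratorChain f j n m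
  v : ((A.chart j).obj m)ˣ
  p : MooreDGA ((A.chart j).cotensor m)
  hp : MooreDGA.IsHomogeneous 1 p
  kp : (f.app j).nc m p = 0
  e : y.t 0 = v * (A.chart j).map (vert m 0) t₀ + (dgC (A.chart j) m).ev (MooreDGA.boundary p)

namespace Pth
variable (hf : IsVirtualCartierDivisor f) {j : J} {t₀ : (A.chart j).obj 0} {k n k' m : ℕ}

theorem map_e (θ : SimplexHom k n) (θ' : SimplexHom k' m) (w : Pth f j t₀ n m) :
    A.transition le_rfl θ' (w.y.t (θ 0)) =
      A.transition le_rfl θ' (w.y.u (θ 0) 0 * w.v) * (A.chart j).map (vert k' 0) t₀ +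
      (dgC (A.chart j) k').ev (MooreDGA.boundary (MooreDGA.map (SimplicialRing.cotensorHom (A.res le_rfl) θ')
        ((A.chart j).incCotensor m (w.y.u (θ 0) 0) * w.p))) := by
  have h₁ := (SimplicialRing.isHom_cot (A.res (le_refl j)) θ').d ((A.chart j).incCotensor m (w.y.u (θ 0) 0) * w.p)
  have h₂ := (SimplicialRing.isHom_cot (A.res (le_refl j)) θ').ev
    (MooreDGA.boundary ((A.chart j).incCotensor m (w.y.u (θ 0) 0) * w.p))
  have h₃ := (dgC (A.chart j) m).ev_d_inc_mul (w.y.u (θ 0) 0) w.p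
  have h₄ : (A.chart j).map (vert k' 0) t₀ = A.transition le_rfl θ' ((A.chart j).map (vert m 0) t₀) := by
    rw [RingDiagram.tr_refl, SimplicialRing.map_comp]; rfl
  refine Eq.trans ?_ (congrArg₂ (· + ·) (congrArg (_ * ·) h₄.symm)
    (h₂.trans (congrArg (dgC (A.chart j) k').ev h₁)))
  change _ = _ + A.transition le_rfl θ' _
  rw [w.y.relation (θ 0) 0, w.e, ← map_mul, ← map_add, mul_add, Units.val_mul, mul_assoc]
  exact congrArg (fun z => A.transition le_rfl θ' (_ + z)) h₃.symm

/-- Restriction. -/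
def map (θ : SimplexHom k n) (θ' : SimplexHom k' m) (w : Pth f j t₀ n m) : Pth f j t₀ k k' where
  y := GeneratorChain.map hf le_rfl θ θ' w.y
  v := Units.map (A.transition le_rfl θ').toMonoidHom (w.y.u (θ 0) 0 * w.v)
  p := MooreDGA.map (SimplicialRing.cotensorHom (A.res le_rfl) θ') ((A.chart j).incCotensor m (w.y.u (θ 0) 0) * w.p)
  hp := ((dgC (A.chart j) m).hg_cast (MooreDGA.hg_mul ((dgC (A.chart j) m).hg_inc _) w.hp) (by norm_num)).map _
  kp := by rw [PushforwardModel.nc_sq, map_mul, w.kp, mul_zero, map_zero]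
  e := map_e θ θ' w

theorem map_id (n m : ℕ) (w : Pth f j t₀ n m) : map hf OrderHom.id OrderHom.id w = w := by
  ext : 1
  · exact GeneratorChain.map_id hf _ _ _ _
  · refine Units.ext ((A.tr_id _ _ _).trans ?_)
    simp [GeneratorChain.u_self]
  · change MooreDGA.map _ (_ * _) = _
    rw [RingDiagram.cotHom_id, MooreDGA.map_id]
    simp [GeneratorChain.u_self]

theorem map_comp {n₀ n₁ n₂ m₀ m₁ m₂ : ℕ}
    (θ : SimplexHom n₁ n₀) (η : SimplexHom n₂ n₁) (θ' : SimplexHom m₁ m₀) (η' : SimplexHom m₂ m₁) (w : Pth f j t₀ n₀ m₀) :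
    map hf η η' (map hf θ θ' w) = map hf (θ.comp η) (θ'.comp η') w := by
  have c : ((w.y.u (θ (η 0)) 0 : ((A.chart j).obj m₀)ˣ) : (A.chart j).obj m₀) =
      w.y.u (θ (η 0)) (θ 0) * w.y.u (θ 0) 0 := by rw [← Units.val_mul, w.y.cocycle]
  ext : 1
  · exact GeneratorChain.map_comp hf _ _ _ _ _ _ _
  · refine Units.ext ?_
    change A.transition (le_refl j) η' (A.transition (le_refl j) θ' (w.y.u (θ (η 0)) (θ 0)) *
      A.transition (le_refl j) θ' (w.y.u (θ 0) 0 * w.v)) =
      A.transition (le_refl j) (θ'.comp η') (w.y.u (θ (η 0)) 0 * w.v)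
    rw [← map_mul, A.tr_comp, c, mul_assoc]
  · change MooreDGA.map _ ((A.chart j).incCotensor m₁ (A.transition le_rfl θ' (w.y.u (θ (η 0)) (θ 0))) *
      MooreDGA.map _ ((A.chart j).incCotensor m₀ (w.y.u (θ 0) 0) * w.p)) =
      MooreDGA.map _ ((A.chart j).incCotensor m₀ (w.y.u (θ (η 0)) 0) * w.p)
    rw [← RingDiagram.map_incC, ← map_mul, MooreDGA.map_map, RingDiagram.cotHom_comp, c, map_mul ((A.chart j).incCotensor m₀),
      mul_assoc]

end Pth

variable (hf : IsVirtualCartierDivisor f) {j : J} (t₀ : (A.chart j).obj 0)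

/-- The bisimplicial set of chains of generators with a path. -/
@[reducible] def IsVirtualCartierDivisor.pthB : BisimplicialDiagram PUnit.{u + 1} where
  obj _ := Pth f j t₀
  map _ := Pth.map hf
  map_id _ := Pth.map_id hf
  map_comp _ _ _ _ _ _ _ _ := Pth.map_comp hf

/-- Forget the path. -/
def IsVirtualCartierDivisor.toT : (hf.pthB t₀).Hom (hf.generatorSpace.at j) where
  app w := w.y
  nat _ _ _ _ := rfl

/-- The units `t a / t₀`. -/
def IsVirtualCartierDivisor.toC : (hf.pthB t₀).Hom (cechU A j) where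
  app w := fun a => w.y.u a 0 * w.v
  nat _ θ θ' w := funext fun a => by
    change Units.map _ (w.y.u (θ a) (θ 0)) * Units.map _ (w.y.u (θ 0) 0 * w.v) =
      Units.map _ (w.y.u (θ a) 0 * w.v)
    rw [← map_mul, ← mul_assoc, w.y.cocycle]

theorem Pth.mm_v {k n m : ℕ} (η : SimplexHom k m) (w : Pth f j t₀ n m) :
    ((Pth.map hf OrderHom.id η w).v : (A.chart j).obj k) = (A.chart j).map η w.v := by
  change A.transition (le_refl j) η (w.y.u 0 0 * w.v) = _
  rw [RingDiagram.tr_refl, GeneratorChain.u_self]; simp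

theorem Pth.mm_p {k n m : ℕ} (η : SimplexHom k m) (w : Pth f j t₀ n m) :
    (Pth.map hf OrderHom.id η w).p = (A.chart j).rs η w.p := by
  change MooreDGA.map _ ((A.chart j).incCotensor m (w.y.u 0 0) * w.p) = _
  rw [RingDiagram.rs_refl, GeneratorChain.u_self]; simp

variable {t₀}

theorem IsVirtualCartierDivisor.toT_ext (ht : (f.app j).IsGenerator t₀) : (hf.toT t₀).Ext := by
  intro _ n M y x hx nat
  have e0 : ∀ {k : ℕ} (θ : SimplexHom k M), (A.chart j).map θ ((A.chart j).map (vert M 0) t₀) =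
      (A.chart j).map (vert k 0) t₀ := fun θ => (A.chart j).map_comp _ _ _
  obtain ⟨v, p, hp, kp, e, r⟩ := gen_extend (f := f.app j) (ht.map (vert M 0)) (y.gen 0).1
    (fun k θ => (x k θ).v) (fun k θ => (x k θ).p) (fun k θ => ⟨(x k θ).hp, (x k θ).kp⟩)
    (fun k θ => by
      have h₁ : (x k θ).y.t 0 = A.transition le_rfl θ.1 (y.t 0) := congrFun (congrArg GeneratorChain.t (hx k θ)) 0
      rw [e0, ← (x k θ).e, h₁, RingDiagram.tr_refl])
    (fun θ η => by rw [← nat θ η]; exact (Pth.mm_v hf t₀ η _).symm)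
    (fun θ η => by rw [← nat θ η]; exact (Pth.mm_p hf t₀ η _).symm)
  have hv : IsUnit v := by
    refine (ht.map (vert M 0)).isUnit (hf.sat j) ?_
    have g := (y.gen 0).add_bd (MooreDGA.hg_neg hp) (by rw [map_neg, kp, neg_zero])
    rwa [e, map_neg, map_neg, add_neg_cancel_right] at g
  refine ⟨⟨y, hv.unit, p, hp, kp, e⟩, rfl, fun k θ => Pth.ext (hx k θ).symm (Units.ext ?_) ?_⟩
  · exact (Pth.mm_v hf t₀ _ _).trans (r k θ).1
  · exact (Pth.mm_p hf t₀ _ _).trans (r k θ).2

theorem IsVirtualCartierDivisor.toC_ext (ht : (f.app j).IsGenerator t₀) : (hf.toC t₀).Ext := by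
  intro _ n M v x hx nat
  obtain ⟨p, hp, r⟩ := SimplicialRing.chain_extend (f.app j) (ι := PUnit) (fun _ => 1) (fun _ => False)
    (fun _ => True) (fun _ h => absurd h one_ne_zero) (fun k θ _ => (x k θ).p)
    (fun k θ _ => ⟨(x k θ).hp, False.elim, fun _ => (x k θ).kp⟩)
    (fun θ η _ => by rw [← nat θ η]; exact (Pth.mm_p hf t₀ η _).symm)
  change Fin (n + 1) → ((A.chart j).obj M)ˣ at v
  have g : (f.app j).IsGenerator ((v 0 : (A.chart j).obj M) * (A.chart j).map (vert M 0) t₀ +
      (dgC (A.chart j) M).ev (MooreDGA.boundary (p ⟨⟩))) :=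
    ((ht.map (vert M 0)).unit_mul (v 0).isUnit).add_bd (hp ⟨⟩).1 ((hp ⟨⟩).2.2 trivial)
  refine ⟨⟨⟨fun a => (v a * (v 0)⁻¹ : ((A.chart j).obj M)ˣ) *
      ((v 0 : (A.chart j).obj M) * (A.chart j).map (vert M 0) t₀ + (dgC (A.chart j) M).ev (MooreDGA.boundary (p ⟨⟩))),
    fun a b => v a * (v b)⁻¹, fun a => g.unit_mul (Units.isUnit _), fun a b => ?_,
    fun a b c => by group⟩, v 0, p ⟨⟩, (hp ⟨⟩).1, (hp ⟨⟩).2.2 trivial, by simp⟩,
    funext fun a => by simp [IsVirtualCartierDivisor.toC], fun k θ => ?_⟩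
  · rw [← mul_assoc, ← Units.val_mul]
    congr 2; group
  · have hv : ∀ a, (x k θ).y.u a 0 * (x k θ).v = Units.map (A.transition le_rfl θ.1).toMonoidHom (v a) :=
      congrFun (hx k θ)
    have hu : ∀ a b, (x k θ).y.u a b =
        Units.map (A.transition le_rfl θ.1).toMonoidHom (v a * (v b)⁻¹) := by
      intro a b
      rw [map_mul, map_inv, ← hv, ← hv, ← (x k θ).y.cocycle a b 0]; group
    have h0 : ((x k θ).v : (A.chart j).obj k) = (A.chart j).map θ.1 (v 0) := by
      have := congrArg Units.val (hv 0)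
      rw [GeneratorChain.u_self, one_mul] at this
      rw [this, ← RingDiagram.tr_refl]; rfl
    refine Pth.ext (GeneratorChain.ext (funext fun a => ?_) (funext fun a => funext fun b => (hu a b).symm))
      (Units.ext ((Pth.mm_v hf t₀ _ _).trans h0.symm)) ((Pth.mm_p hf t₀ _ _).trans (r k θ ⟨⟩))
    change A.transition (le_refl j) θ.1 (_ * _) = _
    rw [(x k θ).y.relation a 0, hu, (x k θ).e, map_mul, h0, ← r k θ ⟨⟩]
    congr 1
    rw [RingDiagram.tr_refl, map_add, map_mul, SimplicialRing.map_comp]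
    congr 1
    exact ((SimplicialRing.isHom_rs (A.chart j) θ.1).ev _).trans
      (congrArg (dgC (A.chart j) k).ev ((SimplicialRing.isHom_rs (A.chart j) θ.1).d _))

theorem IsVirtualCartierDivisor.fst_gen_we (Z : BisimplicialDiagram J) : (BisimplicialDiagram.fst Z hf.generatorSpace).IsWeakEquiv := by
  refine BisimplicialDiagram.Hom.we_of_at _ fun j => ?_
  obtain ⟨t₀, ht⟩ := hf.gen j
  exact BisimplicialDiagram.Hom.IsWeakEquiv.of_sq (q := (hf.toT t₀).prodL (Z.at j)) (q' := (hf.toC t₀).prodL (Z.at j))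
    (p' := BisimplicialDiagram.fst (Z.at j) (cechU A j)) (fun _ _ _ _ => rfl)
    ((hf.toT_ext ht).prodL _).we ((hf.toC_ext ht).prodL _).we (fst_cech_we A j _)

end Pool.Agent.P.MP_932208_ag
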